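import Pool.Agent.TIP.DefsU
import Pool.Agent.BAR.HCut
import Pool.Agent.TightS.Recur

/-!
TIP U0: first passage bridges and antichains of bridges.
-/

set_option autoImplicit false

namespace HexObs

namespace TIP

open Finset TS SDN SIM RareA

open scoped ENNReal

namespace FPA

lemma hgt_app {X Y : List Bool} (hX : X ∈ BU) (hY : Y ∈ BU) : hgt (X ++ Y) = hgt X + hgt Y := by
  have h1 := BU_hgt hX
  have h2 := BU_hgt hY
  rw [hgt_eq (Brd_append h1 h2)]

lemma nil_BU : ([] : List Bool) ∈ BU := ⟨0, nil_mem_Brd⟩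

lemma hgt_nil : hgt ([] : List Bool) = 0 := hgt_eq nil_mem_Brd

lemma nil_of_hgt {X : List Bool} (hX : X ∈ BU) (h : hgt X = 0) : X = [] := by
  have h1 := BU_hgt hX
  rw [h] at h1
  by_contra hne
  have h2 : 0 < X.length := List.length_pos_iff.2 hne
  have h3 := (mem_Brd.1 h1).1 X.length h2 le_rfl
  rw [(mem_Brd.1 h1).2.2.2] at h3
  simp at h3

/-- two cuts of a bridge are nested -/
lemma nest {X Y X' Y' : List Bool} (hX : X ∈ BU) (hY : Y ∈ BU) (hX' : X' ∈ BU) (hY' : Y' ∈ BU) (h : X ++ Y = X' ++ Y') :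
    (∃ V ∈ BU, X' = X ++ V ∧ Y = V ++ Y') ∨ ∃ V ∈ BU, X = X' ++ V ∧ Y' = V ++ Y := by
  obtain ⟨i, hi⟩ := hX
  obtain ⟨j, hj⟩ := hX'
  obtain ⟨p, hp⟩ := hY
  obtain ⟨q, hq⟩ := hY'
  rcases Nat.le_total i j with hij | hij
  · obtain ⟨v, hv, h3, h4⟩ := BAR.nested hi hj (BAR.pos_Brd hp) (BAR.pos_Brd hq) hij h
    exact Or.inl ⟨v, ⟨_, hv⟩, h3, h4⟩
  · obtain ⟨v, hv, h3, h4⟩ := BAR.nested hj hi (BAR.pos_Brd hq) (BAR.pos_Brd hp) hij h.symm
    exact Or.inr ⟨v, ⟨_, hv⟩, h3, h4⟩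

end FPA

open FPA

theorem fpDec : FpDec := by
  classical
  intro R Z hZ hR
  obtain ⟨P, hP⟩ : ∃ P : ℕ → Prop, ∀ n, P n ↔ ∃ X Y, X ∈ BU ∧ Y ∈ BU ∧ Z = X ++ Y ∧ R ≤ hgt X ∧ X.length = n :=
    ⟨_, fun _ => Iff.rfl⟩
  have hex : ∃ n, P n := ⟨Z.length, (hP _).2 ⟨Z, [], hZ, nil_BU, (List.append_nil Z).symm, hR, rfl⟩⟩
  obtain ⟨X, Y, hX, hY, he, hRX, hlen⟩ := (hP _).1 (Nat.find_spec hex)
  refine ⟨X, ⟨hX, hRX, ?_⟩, Y, hY, he⟩
  intro X1 X2 h1 h2 h3 h4
  by_contra hcon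
  push Not at hcon
  have h5 := Nat.find_min' hex ((hP X1.length).2 ⟨X1, X2 ++ Y, h1, BU_append h2 hY, by
    rw [he, h3, List.append_assoc], hcon, rfl⟩)
  rw [← hlen, h3, List.length_append] at h5
  have : X2.length = 0 := by omega
  exact h4 (List.length_eq_zero_iff.1 this)

theorem acMul : AcMul := by
  intro S T c hS hA hT hc
  have h1 : gf S * c ≤ ∑' X : S, ∑' Y : (T X.1), wE (X.1 ++ Y.1) := by
    unfold gf
    rw [← ENNReal.tsum_mul_right]
    refine ENNReal.tsum_le_tsum fun X => ?_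
    have : ∑' Y : (T X.1), wE (X.1 ++ Y.1) = wE X.1 * gf (T X.1) := by
      unfold gf
      rw [← ENNReal.tsum_mul_left]
      exact tsum_congr fun Y => wE_append _ _
    rw [this]
    exact mul_le_mul' le_rfl (hc X.1 X.2)
  refine h1.trans ?_
  rw [← ENNReal.tsum_sigma' (fun p : (Σ X : S, (T X.1)) => wE (p.1.1 ++ p.2.1))]
  let ψ : (Σ X : S, (T X.1)) → {W | ∃ X ∈ S, ∃ Y ∈ T X, W = X ++ Y} :=
    fun p => ⟨p.1.1 ++ p.2.1, p.1.1, p.1.2, p.2.1, p.2.2, rfl⟩
  have hψ : Function.Injective ψ := by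
    rintro ⟨⟨X, hX⟩, ⟨Y, hY⟩⟩ ⟨⟨X', hX'⟩, ⟨Y', hY'⟩⟩ he
    have he' : X ++ Y = X' ++ Y' := congrArg Subtype.val he
    have key : X = X' := by
      rcases nest (hS hX) (hT X hX hY) (hS hX') (hT X' hX' hY') he' with ⟨V, hV, h3, -⟩ | ⟨V, hV, h3, -⟩
      · have := hA X' hX' X hX V hV h3
        rw [this, List.append_nil] at h3
        exact h3.symm
      · have := hA X hX X' hX' V hV h3
        rw [this, List.append_nil] at h3
        exact h3
    subst key
    have h4 := List.append_cancel_left he'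
    subst h4
    rfl
  exact ENNReal.tsum_comp_le_tsum_of_injective hψ (fun t : {W | ∃ X ∈ S, ∃ Y ∈ T X, W = X ++ Y} => wE t)

theorem acAc : AcAc := by
  intro S T hS hA hT hTA
  rintro W ⟨X', hX', Y', hY', rfl⟩ W1 ⟨X, hX, Y, hY, rfl⟩ Z hZ he
  rw [List.append_assoc] at he
  have key : X = X' := by
    rcases nest (hS hX') (hT X' hX' hY') (hS hX) (BU_append (hT X hX hY) hZ) he with ⟨V, hV, h3, -⟩ | ⟨V, hV, h3, -⟩
    · have := hA X hX X' hX' V hV h3
      rw [this, List.append_nil] at h3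
      exact h3
    · have := hA X' hX' X hX V hV h3
      rw [this, List.append_nil] at h3
      exact h3.symm
  subst key
  exact hTA X hX Y' hY' Y hY Z hZ (List.append_cancel_left he)

/-- antichain of the minimal words -/
lemma acMi (S : Set (List Bool)) : AC (Mi S) := fun _ hW X hX Y hY he => hW.2 X hX.1 Y hY he

lemma Mi_sub (S : Set (List Bool)) : Mi S ⊆ S := fun _ h => h.1

lemma gf_low (R : ℕ) : gf {V | V ∈ BU ∧ hgt V ≤ R} ≤ ENNReal.ofReal (UU R) := by
  have h1 : {V | V ∈ BU ∧ hgt V ≤ R} ⊆ ⋃ h ∈ range (R + 1), Brd h := by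
    rintro V ⟨hV, hR⟩
    rw [Set.mem_iUnion₂]
    exact ⟨hgt V, mem_range.2 (by omega), BU_hgt hV⟩
  refine (gf_mono h1).trans ((GgJumpAux.gf_biUnion_le _ _).trans (le_of_eq ?_))
  unfold UU
  rw [ENNReal.ofReal_sum_of_nonneg fun t _ => (uu_pos t).le]
  exact sum_congr rfl fun t _ => RareA.BT_uu t

theorem miMass : MiMass := by
  classical
  intro R S hS hR
  refine le_trans ?_ (mul_le_mul' le_rfl (gf_low R))
  refine gf_le_mul fun W hW => ?_
  obtain ⟨P, hP⟩ : ∃ P : ℕ → Prop, ∀ n, P n ↔ ∃ X Y, X ∈ S ∧ Y ∈ BU ∧ W = X ++ Y ∧ X.length = n :=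
    ⟨_, fun _ => Iff.rfl⟩
  have hex : ∃ n, P n := ⟨W.length, (hP _).2 ⟨W, [], hW, nil_BU, (List.append_nil W).symm, rfl⟩⟩
  obtain ⟨X, Y, hX, hY, he, hlen⟩ := (hP _).1 (Nat.find_spec hex)
  refine ⟨X, ⟨hX, ?_⟩, Y, ⟨hY, ?_⟩, he⟩
  · intro X1 h1 Y1 h2 h3
    have h5 := Nat.find_min' hex ((hP X1.length).2 ⟨X1, Y1 ++ Y, h1, BU_append h2 hY, by
      rw [he, h3, List.append_assoc], rfl⟩)
    rw [← hlen, h3, List.length_append] at h5
    exact List.length_eq_zero_iff.1 (by omega)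
  · have h1 := hR W hW
    rw [he, hgt_app (hS hX) hY] at h1
    omega

/-! ### the first passage has mass 1 -/

lemma UU_top : Filter.Tendsto UU Filter.atTop Filter.atTop := by
  have hC := RareA.CW0
  have hθ : 0 < 1 / (6 + CW) := by positivity
  have h1 : Filter.Tendsto (fun n : ℕ => ((n : ℝ)) ^ (1 / (6 + CW)) * (UU 1 / 2)) Filter.atTop Filter.atTop := by
    refine Filter.Tendsto.atTop_mul_const (by have := Num2Aux.UU_pos 1; positivity) ?_
    exact (tendsto_rpow_atTop hθ).comp tendsto_natCast_atTop_atTop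
  refine Filter.tendsto_atTop_mono' _ ?_ h1
  filter_upwards [Filter.eventually_ge_atTop 1] with n hn
  have h2 := UU_growth (s := 1) (T := n) le_rfl hn
  rw [Nat.cast_one, div_one] at h2
  linarith

lemma KK_tendsto : Filter.Tendsto KK' Filter.atTop (nhds 0) := by
  rw [← Filter.tendsto_add_atTop_iff_nat 1]
  have h1 : Filter.Tendsto (fun n => 1 / UU n) Filter.atTop (nhds 0) := by
    simp only [one_div]
    exact tendsto_inv_atTop_zero.comp UU_top
  refine squeeze_zero (fun n => KK_nonneg _) (fun n => ?_) h1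
  rw [le_div_iff₀ (Num2Aux.UU_pos n), mul_comm]
  exact UU_mul_KK n

lemma hasSum_kk : HasSum kk 1 := by
  rw [hasSum_iff_tendsto_nat_of_nonneg (fun r => kk_nonneg r)]
  have h1 : (fun n => ∑ i ∈ range n, kk i) = fun n => 1 - KK' n := by
    funext n
    unfold KK'
    ring
  rw [h1]
  simpa using (tendsto_const_nhds (x := (1 : ℝ))).sub KK_tendsto

/-- irreducible bridges of height at least m -/
def IrG (m : ℕ) : Set (List Bool) := ⋃ r : ℕ, Irr (r + m)

lemma gf_IrG (m : ℕ) : gf (IrG m) = ENNReal.ofReal (KK' m) := by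
  have hs : Summable kk := hasSum_kk.summable
  have h1 : ∑' r, kk (r + m) = KK' m := by
    have h2 := hs.sum_add_tsum_nat_add m
    rw [hasSum_kk.tsum_eq] at h2
    unfold KK'
    linarith
  rw [← h1, ENNReal.ofReal_tsum_of_nonneg (fun r => kk_nonneg _) ((summable_nat_add_iff m).2 hs)]
  unfold gf IrG
  rw [ENNReal.tsum_biUnion]
  · refine tsum_congr fun r => ?_
    rw [← kap'_eq]
    rfl
  · intro i _ j _ hij
    rw [Function.onFun, Set.disjoint_left]
    intro t h3 h4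
    have := Brd_height h3.1 h4.1
    omega

lemma gf_pad {R : ℕ} (hR : 1 ≤ R) : ∑ y ∈ range R, gf (Brd y) * gf (IrG (R - y)) = 1 := by
  obtain ⟨N, rfl⟩ : ∃ N, R = N + 1 := ⟨R - 1, by omega⟩
  have h1 := KK_renewal N
  rw [← ENNReal.ofReal_one, ← h1, ENNReal.ofReal_sum_of_nonneg fun y _ => mul_nonneg (uu_pos y).le (KK_nonneg _)]
  refine sum_congr rfl fun y _ => ?_
  rw [RareA.BT_uu, gf_IrG, ENNReal.ofReal_mul (uu_pos y).le]

lemma IU_ne {P : List Bool} (h : P ∈ IU) : P ≠ [] := by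
  obtain ⟨r, hr⟩ := h
  exact hr.2.1

lemma IU_cut {P X Y : List Bool} (h : P ∈ IU) (hX : X ∈ BU) (hY : Y ∈ BU) (he : P = X ++ Y) : X = [] ∨ Y = [] := by
  obtain ⟨r, hr⟩ := h
  obtain ⟨a, ha⟩ := hX
  obtain ⟨b, hb⟩ := hY
  exact hr.2.2 a b X Y ha hb he

theorem fpOne : FpOne := by
  intro R
  rcases Nat.eq_zero_or_pos R with rfl | hR
  · have h1 : FP 0 = {[]} := by
      ext W
      constructor
      · rintro ⟨h1, -, h3⟩
        by_contra hne
        exact absurd (h3 [] W nil_BU h1 rfl hne) (Nat.not_lt_zero _)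
      · intro h
        rw [Set.mem_singleton_iff] at h
        subst h
        refine ⟨nil_BU, Nat.zero_le _, fun X Y _ _ he hne => absurd ?_ hne⟩
        exact (List.append_eq_nil_iff.1 he.symm).2
    rw [h1]
    unfold gf
    rw [tsum_singleton (f := wE) []]
    simp [wE]
  · apply le_antisymm
    · rw [← gf_pad hR]
      have hsub : FP R ⊆ ⋃ y ∈ range R, {W | ∃ A ∈ Brd y, ∃ P ∈ IrG (R - y), W = A ++ P} := by
        rintro W ⟨h1, h2, h3⟩
        obtain ⟨h, hh⟩ := h1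
        rw [hgt_eq hh] at h2
        obtain ⟨j, r, a, p, u, e1, e2, e3, ha, hp, hu, he⟩ := jump_dec (s := R - 1) (n := h) (by omega) hh
        have hu0 : u = [] := by
          by_contra hne
          have h4 := h3 (a ++ p) u (BU_append ⟨_, ha⟩ ⟨_, hp.1⟩) ⟨_, hu⟩ he hne
          rw [hgt_app ⟨_, ha⟩ ⟨_, hp.1⟩, hgt_eq ha, hgt_eq hp.1] at h4
          omega
        rw [Set.mem_iUnion₂]
        refine ⟨j, mem_range.2 (by omega), a, ha, p, ?_, by rw [he, hu0, List.append_nil]⟩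
        unfold IrG
        rw [Set.mem_iUnion]
        refine ⟨r - (R - j), ?_⟩
        rw [show r - (R - j) + (R - j) = r by omega]
        exact hp
      refine (gf_mono hsub).trans ((GgJumpAux.gf_biUnion_le _ _).trans (sum_le_sum fun y _ => ?_))
      exact gf_le_mul fun t ht => ht
    · rw [← gf_pad hR]
      have hIU : ∀ {m : ℕ} {P : List Bool}, P ∈ IrG m → ∃ r, m ≤ r ∧ P ∈ Irr r := by
        intro m P h
        unfold IrG at h
        rw [Set.mem_iUnion] at h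
        obtain ⟨r, hr⟩ := h
        exact ⟨r + m, by omega, hr⟩
      have hdis : ∀ i ∈ range R, ∀ j ∈ range R, i ≠ j → Disjoint {W | ∃ A ∈ Brd i, ∃ P ∈ IrG (R - i), W = A ++ P}
          {W | ∃ A ∈ Brd j, ∃ P ∈ IrG (R - j), W = A ++ P} := by
        intro i _ j _ hij
        rw [Set.disjoint_left]
        rintro W ⟨A, hA, P, hP, rfl⟩ ⟨A', hA', P', hP', he⟩
        obtain ⟨r, -, hr⟩ := hIU hP
        obtain ⟨r', -, hr'⟩ := hIU hP'
        apply hij
        have key : A = A' := by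
          rcases nest ⟨_, hA⟩ ⟨_, hr.1⟩ ⟨_, hA'⟩ ⟨_, hr'.1⟩ he with ⟨V, hV, h3, h4⟩ | ⟨V, hV, h3, h4⟩
          · rcases IU_cut ⟨r, hr⟩ hV ⟨_, hr'.1⟩ h4 with h5 | h5
            · rw [h3, h5, List.append_nil]
            · exact absurd h5 hr'.2.1
          · rcases IU_cut ⟨r', hr'⟩ hV ⟨_, hr.1⟩ h4 with h5 | h5
            · rw [h3, h5, List.append_nil]
            · exact absurd h5 hr.2.1
        subst key
        exact Brd_height hA hA'
      calc ∑ y ∈ range R, gf (Brd y) * gf (IrG (R - y))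
          ≤ ∑ y ∈ range R, gf {W | ∃ A ∈ Brd y, ∃ P ∈ IrG (R - y), W = A ++ P} := by
            refine sum_le_sum fun y _ => mul_le_gf (fun a ha b hb => ⟨a, ha, b, hb, rfl⟩) ?_
            intro a ha b hb a' ha' b' hb' he
            obtain ⟨r, -, hr⟩ := hIU hb
            obtain ⟨r', -, hr'⟩ := hIU hb'
            rcases nest ⟨_, ha⟩ ⟨_, hr.1⟩ ⟨_, ha'⟩ ⟨_, hr'.1⟩ he with ⟨V, hV, h3, h4⟩ | ⟨V, hV, h3, h4⟩
            · rcases IU_cut ⟨r, hr⟩ hV ⟨_, hr'.1⟩ h4 with h5 | h5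
              · rw [h3, h5, List.append_nil]
              · exact absurd h5 hr'.2.1
            · rcases IU_cut ⟨r', hr'⟩ hV ⟨_, hr.1⟩ h4 with h5 | h5
              · rw [h3, h5, List.append_nil]
              · exact absurd h5 hr.2.1
        _ = gf (⋃ y ∈ range R, {W | ∃ A ∈ Brd y, ∃ P ∈ IrG (R - y), W = A ++ P}) := (gf_biUnion _ _ hdis).symm
        _ ≤ gf (FP R) := by
            refine gf_mono ?_
            intro W hW
            rw [Set.mem_iUnion₂] at hW
            obtain ⟨y, hy, A, hA, P, hP, rfl⟩ := hW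
            rw [mem_range] at hy
            obtain ⟨r, hr1, hr⟩ := hIU hP
            refine ⟨BU_append ⟨_, hA⟩ ⟨_, hr.1⟩, ?_, ?_⟩
            · rw [hgt_app ⟨_, hA⟩ ⟨_, hr.1⟩, hgt_eq hA, hgt_eq hr.1]
              omega
            · intro X Y hX hY he hne
              rcases nest ⟨_, hA⟩ ⟨_, hr.1⟩ hX hY he with ⟨V, hV, h3, h4⟩ | ⟨V, hV, h3, h4⟩
              · rcases IU_cut ⟨r, hr⟩ hV hY h4 with h5 | h5
                · rw [h3, h5, List.append_nil, hgt_eq hA]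
                  exact hy
                · exact absurd h5 hne
              · have h6 := hgt_app hX hV
                rw [← h3, hgt_eq hA] at h6
                omega

/-- a bridge not above R, continued by a first passage -/
lemma FP_app {R : ℕ} {X V : List Bool} (hX : X ∈ BU) (hR : hgt X ≤ R) (hV : V ∈ FP (R - hgt X)) : X ++ V ∈ FP R := by
  obtain ⟨h1, h2, h3⟩ := hV
  refine ⟨BU_append hX h1, by rw [hgt_app hX h1]; omega, ?_⟩
  intro A B hA hB he hne
  rcases nest hX h1 hA hB he with ⟨U, hU, h5, h6⟩ | ⟨U, hU, h5, h6⟩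
  · have h7 := h3 U B hU hB h6 hne
    rw [h5, hgt_app hX hU]
    omega
  · have h6' := hgt_app hA hU
    rw [← h5] at h6'
    by_contra hcon
    push Not at hcon
    have hU0 : U = [] := nil_of_hgt hU (by omega)
    rw [hU0, List.nil_append] at h6
    subst h6
    have h8 := h3 [] B nil_BU hB rfl hne
    rw [hgt_nil] at h8
    omega

theorem fpAC : FpAC := by
  intro R S hS hA hR
  have h1 := acMul S (fun X => FP (R - hgt X)) 1 hS hA (fun X _ W hW => hW.1) (fun X _ => (fpOne _).ge)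
  rw [mul_one] at h1
  refine h1.trans (gf_mono ?_)
  rintro W ⟨X, hX, Y, hY, rfl⟩
  exact ⟨FP_app (hS hX) (hR X hX) hY, X, hX, Y, hY.1, rfl⟩

end TIP

end HexObs
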