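import Pool.Agent.TIP.DefsN
import Pool.Agent.TIP.FP
import Pool.Agent.NT.Far

/-!
TIP, row Nd (helper41): wide free bridges are rare.
-/

set_option autoImplicit false

namespace HexObs

namespace TIP

open Finset TS SDN SIM NTA

open scoped ENNReal

/-- bridges of height at most 2 ^ (b + 1) that leave the box of radius lam 2 ^ b -/
theorem wide_free : ∃ C c : ℝ, 0 < C ∧ 0 < c ∧ ∀ b lam : ℕ,
    gf {Z | Z ∈ BU ∧ hgt Z ≤ 2 ^ (b + 1) ∧ ¬ In (lam * 2 ^ b) Z} ≤ ENNReal.ofReal (C * Real.exp (-(c * lam)) * Ub b) := by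
  obtain ⟨C, c, hC, hc, h⟩ := NTm.far_lat
  refine ⟨2 * (C + 1) * Real.exp c, c / 4, by positivity, by positivity, fun b lam => ?_⟩
  have hU : (0 : ℝ) < Ub b := Num2Aux.UU_pos _
  have hU1 : Ub (b + 1) ≤ 2 * Ub b := Ub_succ b
  have hU2 : (0 : ℝ) ≤ Ub (b + 1) := (Num2Aux.UU_pos _).le
  have hexp : Real.exp (-(c * (lam / 4 : ℕ))) ≤ Real.exp c * Real.exp (-(c / 4 * lam)) := by
    rw [← Real.exp_add]
    apply Real.exp_le_exp.2
    have h1 : lam ≤ 4 * (lam / 4) + 4 := by omega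
    have h2 : (lam : ℝ) ≤ 4 * ((lam / 4 : ℕ) : ℝ) + 4 := by exact_mod_cast h1
    nlinarith
  rcases Nat.eq_zero_or_pos (lam / 4) with h0 | h0
  · refine (gf_mono (Q := {V | V ∈ BU ∧ hgt V ≤ 2 ^ (b + 1)}) fun Z hZ => ⟨hZ.1, hZ.2.1⟩).trans
      ((gf_low _).trans (ENNReal.ofReal_le_ofReal ?_))
    rw [h0] at hexp
    simp only [Nat.cast_zero, mul_zero, neg_zero, Real.exp_zero] at hexp
    have h3 : UU (2 ^ (b + 1)) = Ub (b + 1) := rfl
    rw [h3]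
    calc Ub (b + 1) ≤ 2 * Ub b := hU1
      _ ≤ 2 * (C + 1) * Ub b := by nlinarith
      _ ≤ 2 * (C + 1) * Ub b * (Real.exp c * Real.exp (-(c / 4 * lam))) := le_mul_of_one_le_right (by positivity) hexp
      _ = 2 * (C + 1) * Real.exp c * Real.exp (-(c / 4 * lam)) * Ub b := by ring
  · have hsub : {Z | Z ∈ BU ∧ hgt Z ≤ 2 ^ (b + 1) ∧ ¬ In (lam * 2 ^ b) Z} ⊆
        {t | ∃ h, h ≤ 2 ^ (b + 1) ∧ t ∈ Brd h ∧ ¬ InBox t (lam / 4 * 2 ^ (b + 1))} := by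
      rintro Z ⟨h1, h2, h3⟩
      refine ⟨hgt Z, h2, BU_hgt h1, fun hb => h3 fun i hi => ?_⟩
      have h4 := hb i hi
      have h5 : 0 ≤ lev Z i ∧ lev Z i ≤ 3 * (hgt Z : ℤ) := by
        rcases Nat.eq_zero_or_pos i with h | h
        · subst h
          rw [lev_zero]
          omega
        · have := (mem_Brd.1 (BU_hgt h1)).1 i h hi
          omega
      have e1 : lev Z i = (vx oo up Z i).1 + 2 * (vx oo up Z i).2 := by
        unfold lev
        simp only [ip, up]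
        ring
      have e2 : lat Z i = (vx oo up Z i).1 := by
        unfold lat
        simp only [cross, up]
        ring
      rw [e1] at h5
      rw [e2] at h4
      have e3 : (lam / 4 * 2 ^ (b + 1) : ℕ) = 2 * (lam / 4 * 2 ^ b) := by
        rw [pow_succ]
        ring
      rw [e3, abs_le] at h4
      have e4 : 4 * (lam / 4 * 2 ^ b) ≤ lam * 2 ^ b := by
        rw [← mul_assoc]
        exact Nat.mul_le_mul_right _ (by omega)
      have e5 : 2 ^ b ≤ lam / 4 * 2 ^ b := Nat.le_mul_of_pos_left _ h0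
      have e6 : (2 : ℕ) ^ (b + 1) = 2 * 2 ^ b := by rw [pow_succ]; ring
      rw [e6] at h2
      rw [mem_Bl]
      have e7 : oo.1 = 0 := rfl
      have e8 : oo.2 = 0 := rfl
      rw [e7, e8]
      obtain ⟨x, hx⟩ : ∃ x : ℕ, x = lam / 4 * 2 ^ b := ⟨_, rfl⟩
      obtain ⟨y, hy⟩ : ∃ y : ℕ, y = lam * 2 ^ b := ⟨_, rfl⟩
      obtain ⟨z, hz⟩ : ∃ z : ℕ, z = 2 ^ b := ⟨_, rfl⟩
      rw [← hx] at h4 e4 e5
      rw [← hy] at e4 ⊢
      rw [← hz] at e5 h2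
      push_cast at h4
      omega
    refine (gf_mono hsub).trans ((h (b + 1) (lam / 4) h0).trans (ENNReal.ofReal_le_ofReal ?_))
    calc C * Real.exp (-(c * (lam / 4 : ℕ))) * Ub (b + 1)
        ≤ C * (Real.exp c * Real.exp (-(c / 4 * lam))) * (2 * Ub b) := by gcongr
      _ ≤ (C + 1) * (Real.exp c * Real.exp (-(c / 4 * lam))) * (2 * Ub b) := by gcongr; linarith
      _ = 2 * (C + 1) * Real.exp c * Real.exp (-(c / 4 * lam)) * Ub b := by ring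

/-- words of range more than D -/
def WdR (D : ℕ) : Set (List Bool) := {Z | ∃ i j, i ≤ Z.length ∧ j ≤ Z.length ∧ vx oo up Z i ∉ Bl (vx oo up Z j) D}

/-- bridges of height at most 2 ^ (b + 1) and range more than lam 2 ^ b -/
theorem wide_range : ∃ C c : ℝ, 0 < C ∧ 0 < c ∧ ∀ b lam : ℕ,
    gf {Z | Z ∈ BU ∧ hgt Z ≤ 2 ^ (b + 1) ∧ Z ∈ WdR (lam * 2 ^ b)} ≤ ENNReal.ofReal (C * Real.exp (-(c * lam)) * Ub b) := by
  obtain ⟨C, c, hC, hc, h⟩ := wide_free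
  refine ⟨C * Real.exp c, c / 2, by positivity, by positivity, fun b lam => ?_⟩
  have hU : (0 : ℝ) < Ub b := Num2Aux.UU_pos _
  have hsub : {Z | Z ∈ BU ∧ hgt Z ≤ 2 ^ (b + 1) ∧ Z ∈ WdR (lam * 2 ^ b)} ⊆
      {Z | Z ∈ BU ∧ hgt Z ≤ 2 ^ (b + 1) ∧ ¬ In (lam / 2 * 2 ^ b) Z} := by
    rintro Z ⟨h1, h2, i, j, hi, hj, h3⟩
    refine ⟨h1, h2, fun hI => h3 ?_⟩
    have h4 := hI i hi
    have h5 := hI j hj
    rw [mem_Bl] at h4 h5 ⊢
    have e7 : oo.1 = 0 := rfl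
    have e8 : oo.2 = 0 := rfl
    rw [e7, e8] at h4 h5
    have e4 : 2 * (lam / 2 * 2 ^ b) ≤ lam * 2 ^ b := by
      rw [← mul_assoc]
      exact Nat.mul_le_mul_right _ (by omega)
    obtain ⟨x, hx⟩ : ∃ x : ℕ, x = lam / 2 * 2 ^ b := ⟨_, rfl⟩
    obtain ⟨y, hy⟩ : ∃ y : ℕ, y = lam * 2 ^ b := ⟨_, rfl⟩
    rw [← hx] at h4 h5 e4
    rw [← hy] at e4 ⊢
    omega
  refine (gf_mono hsub).trans ((h b (lam / 2)).trans (ENNReal.ofReal_le_ofReal ?_))
  have h1 : lam ≤ 2 * (lam / 2) + 2 := by omega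
  have h2 : (lam : ℝ) ≤ 2 * ((lam / 2 : ℕ) : ℝ) + 2 := by exact_mod_cast h1
  have h3 : Real.exp (-(c * (lam / 2 : ℕ))) ≤ Real.exp c * Real.exp (-(c / 2 * lam)) := by
    rw [← Real.exp_add]
    apply Real.exp_le_exp.2
    nlinarith
  calc C * Real.exp (-(c * (lam / 2 : ℕ))) * Ub b ≤ C * (Real.exp c * Real.exp (-(c / 2 * lam))) * Ub b := by gcongr
    _ = C * Real.exp c * Real.exp (-(c / 2 * lam)) * Ub b := by ring

end TIP

end HexObs
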