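import Mathlib

/-!
# TIP/Soft: the soft part of the local limit (helper10)

Finite probability. `S` finite set with weights `p` of total mass one, events `G l` (product events of the scale `l`),
`η` an event. If on `G l` the conditional probability of `η` given the pattern of the `G j`, `j ≥ l`, is `ν l` up to `δ`,
and `G l` has, given the pattern of the `G j`, `j > l`, at least `c` times the probability of `N l`, then the probability
of `η` is `ν l` up to `ε + (√(Δ l) + δ) / c`, where the `Δ l` have the sum at most one (increments of a martingale).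

* `soft_one` : one measure; **`soft_two`** : two measures with the same `ν`: the probabilities of `η` differ by at most
  `2 (ε + (√(2 / M) + δ) / c)`.
-/

set_option autoImplicit false

namespace HexObs

namespace TIP

open Finset

variable {Ω : Type*}

/-- the indicator of a proposition -/
noncomputable def ind (A : Prop) : ℝ := by
  classical
  exact if A then 1 else 0

lemma ind_pos {A : Prop} (h : A) : ind A = 1 := by
  unfold ind
  rw [if_pos h]

lemma ind_neg {A : Prop} (h : ¬ A) : ind A = 0 := by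
  unfold ind
  rw [if_neg h]

lemma ind_nonneg (A : Prop) : 0 ≤ ind A := by
  by_cases h : A
  · rw [ind_pos h]
    exact zero_le_one
  · rw [ind_neg h]

lemma ind_le_one (A : Prop) : ind A ≤ 1 := by
  by_cases h : A
  · rw [ind_pos h]
  · rw [ind_neg h]
    exact zero_le_one

lemma ind_mono {A B : Prop} (h : A → B) : ind A ≤ ind B := by
  by_cases hA : A
  · rw [ind_pos hA, ind_pos (h hA)]
  · rw [ind_neg hA]
    exact ind_nonneg B

lemma ind_add_not (A : Prop) : ind A + ind (¬ A) = 1 := by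
  by_cases h : A
  · rw [ind_pos h, ind_neg (not_not.2 h), add_zero]
  · rw [ind_neg h, ind_pos h, zero_add]

lemma ind_congr {A B : Prop} (h : A ↔ B) : ind A = ind B := by rw [propext h]

/-- the weight of the points of `S` with the property `A` -/
noncomputable def ms (S : Finset Ω) (p : Ω → ℝ) (A : Ω → Prop) : ℝ := ∑ t ∈ S, p t * ind (A t)

/-- the pattern of the events `G j`, `l ≤ j < L` -/
noncomputable def pat (G : ℕ → Set Ω) (l L : ℕ) (t : Ω) : Finset ℕ := by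
  classical
  exact (Ico l L).filter fun j => t ∈ G j

/-- the conditional probability of `η` given `g` -/
noncomputable def cnd {κ : Type*} (S : Finset Ω) (p : Ω → ℝ) (η : Set Ω) (g : Ω → κ) (t : Ω) : ℝ :=
  ms S p (fun s => g s = g t ∧ s ∈ η) / ms S p (fun s => g s = g t)

lemma ms_nonneg {S : Finset Ω} {p : Ω → ℝ} (hp : ∀ t, 0 ≤ p t) (A : Ω → Prop) : 0 ≤ ms S p A :=
  sum_nonneg fun t _ => mul_nonneg (hp t) (ind_nonneg _)

lemma ms_mono {S : Finset Ω} {p : Ω → ℝ} (hp : ∀ t, 0 ≤ p t) {A B : Ω → Prop} (h : ∀ t, A t → B t) :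
    ms S p A ≤ ms S p B :=
  sum_le_sum fun t _ => mul_le_mul_of_nonneg_left (ind_mono (h t)) (hp t)

lemma ms_congr {S : Finset Ω} {p : Ω → ℝ} {A B : Ω → Prop} (h : ∀ t, A t ↔ B t) : ms S p A = ms S p B :=
  sum_congr rfl fun t _ => by rw [ind_congr (h t)]

/-- sums over the points with `A` of a function of `g`, by classes -/
lemma sum_class {κ : Type*} [DecidableEq κ] (S : Finset Ω) (p : Ω → ℝ) (A : Ω → Prop) (g : Ω → κ) (y : κ → ℝ) :
    ∑ t ∈ S, p t * ind (A t) * y (g t) = ∑ a ∈ S.image g, y a * ms S p (fun t => g t = a ∧ A t) := by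
  unfold ms
  simp only [mul_sum]
  rw [sum_comm]
  refine sum_congr rfl fun t ht => ?_
  rw [sum_eq_single (g t)]
  · rw [ind_congr (show (g t = g t ∧ A t) ↔ A t from ⟨fun h => h.2, fun h => ⟨rfl, h⟩⟩)]
    ring
  · intro b _ hb
    rw [ind_neg (fun h => hb h.1.symm), mul_zero, mul_zero]
  · intro h
    exact absurd (mem_image_of_mem g ht) h

/-- the defining property of the conditional probability -/
lemma cnd_spec {κ : Type*} [DecidableEq κ] {S : Finset Ω} {p : Ω → ℝ} (hp : ∀ t, 0 ≤ p t) (η : Set Ω) (g : Ω → κ)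
    (y : κ → ℝ) :
    ∑ t ∈ S, p t * ind (t ∈ η) * y (g t) = ∑ t ∈ S, p t * (cnd S p η g t * y (g t)) := by
  rw [sum_class S p (fun t => t ∈ η) g y]
  have h := sum_class S p (fun _ => True) g
    (fun a => ms S p (fun s => g s = a ∧ s ∈ η) / ms S p (fun s => g s = a) * y a)
  have e : ∑ t ∈ S, p t * (cnd S p η g t * y (g t)) =
      ∑ t ∈ S, p t * ind True * (ms S p (fun s => g s = g t ∧ s ∈ η) / ms S p (fun s => g s = g t) * y (g t)) := by
    refine sum_congr rfl fun t _ => ?_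
    rw [ind_pos trivial, mul_one]
    rfl
  rw [e, h]
  refine sum_congr rfl fun a _ => ?_
  have e2 : ms S p (fun t => g t = a ∧ True) = ms S p (fun t => g t = a) :=
    ms_congr fun t => ⟨fun h => h.1, fun h => ⟨h, trivial⟩⟩
  rw [e2]
  by_cases h0 : ms S p (fun t => g t = a) = 0
  · have h1 : ms S p (fun t => g t = a ∧ t ∈ η) = 0 :=
      le_antisymm ((ms_mono hp fun t ht => ht.1).trans h0.le) (ms_nonneg hp _)
    rw [h0, h1]
    ring
  · field_simp

lemma cnd_nonneg {κ : Type*} {S : Finset Ω} {p : Ω → ℝ} (hp : ∀ t, 0 ≤ p t) (η : Set Ω) (g : Ω → κ) (t : Ω) :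
    0 ≤ cnd S p η g t := div_nonneg (ms_nonneg hp _) (ms_nonneg hp _)

lemma cnd_le_one {κ : Type*} {S : Finset Ω} {p : Ω → ℝ} (hp : ∀ t, 0 ≤ p t) (η : Set Ω) (g : Ω → κ) (t : Ω) :
    cnd S p η g t ≤ 1 := div_le_one_of_le₀ (ms_mono hp fun _ h => h.1) (ms_nonneg hp _)

lemma pat_succ {G : ℕ → Set Ω} {l L : ℕ} (t : Ω) : pat G (l + 1) L t = (pat G l L t).filter fun j => l + 1 ≤ j := by
  unfold pat
  ext j
  simp only [mem_filter, mem_Ico]
  constructor
  · rintro ⟨⟨h1, h2⟩, h3⟩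
    exact ⟨⟨⟨by omega, h2⟩, h3⟩, h1⟩
  · rintro ⟨⟨⟨_, h2⟩, h3⟩, h1⟩
    exact ⟨⟨h1, h2⟩, h3⟩

lemma mem_pat {G : ℕ → Set Ω} {l L : ℕ} (hl : l < L) (t : Ω) : l ∈ pat G l L t ↔ t ∈ G l := by
  unfold pat
  simp [hl]

/-- the energy of the conditional probability -/
noncomputable def en (S : Finset Ω) (p : Ω → ℝ) (η : Set Ω) (G : ℕ → Set Ω) (L l : ℕ) : ℝ :=
  ∑ t ∈ S, p t * (cnd S p η (pat G l L) t) ^ 2

lemma en_nonneg {S : Finset Ω} {p : Ω → ℝ} (hp : ∀ t, 0 ≤ p t) (η : Set Ω) (G : ℕ → Set Ω) (L l : ℕ) :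
    0 ≤ en S p η G L l := sum_nonneg fun t _ => mul_nonneg (hp t) (sq_nonneg _)

lemma en_le_one {S : Finset Ω} {p : Ω → ℝ} (hp : ∀ t, 0 ≤ p t) (h1 : ∑ t ∈ S, p t = 1) (η : Set Ω) (G : ℕ → Set Ω)
    (L l : ℕ) : en S p η G L l ≤ 1 := by
  rw [← h1]
  refine sum_le_sum fun t _ => ?_
  have h2 := cnd_nonneg hp η (pat G l L) t (S := S)
  have h3 := cnd_le_one hp η (pat G l L) t (S := S)
  have h4 : (cnd S p η (pat G l L) t) ^ 2 ≤ 1 := by nlinarith
  calc p t * (cnd S p η (pat G l L) t) ^ 2 ≤ p t * 1 := mul_le_mul_of_nonneg_left h4 (hp t)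
    _ = p t := mul_one _

/-- the increments of the martingale -/
lemma en_succ {S : Finset Ω} {p : Ω → ℝ} (hp : ∀ t, 0 ≤ p t) (η : Set Ω) (G : ℕ → Set Ω) (L l : ℕ) :
    ∑ t ∈ S, p t * (cnd S p η (pat G (l + 1) L) t - cnd S p η (pat G l L) t) ^ 2 =
      en S p η G L l - en S p η G L (l + 1) := by
  obtain ⟨X, hX⟩ : ∃ X, X = cnd S p η (pat G l L) := ⟨_, rfl⟩
  obtain ⟨Y, hY⟩ : ∃ Y, Y = cnd S p η (pat G (l + 1) L) := ⟨_, rfl⟩
  obtain ⟨y, hy⟩ : ∃ y : Finset ℕ → ℝ, y = fun a =>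
      ms S p (fun s => pat G (l + 1) L s = a ∧ s ∈ η) / ms S p (fun s => pat G (l + 1) L s = a) := ⟨_, rfl⟩
  have hYy : ∀ t, Y t = y (pat G (l + 1) L t) := fun t => by rw [hY, hy]; rfl
  have h1 : ∑ t ∈ S, p t * (X t * Y t) = ∑ t ∈ S, p t * (Y t * Y t) := by
    have a := cnd_spec (S := S) hp η (pat G l L) (fun a => y (a.filter fun j => l + 1 ≤ j))
    have b := cnd_spec (S := S) hp η (pat G (l + 1) L) y
    simp only [← pat_succ] at a
    rw [a, ← hX, ← hY] at b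
    simp only [hYy]
    simp only [hYy] at b
    exact b
  have e1 : en S p η G L l = ∑ t ∈ S, p t * (X t) ^ 2 := by rw [hX]; rfl
  have e2 : en S p η G L (l + 1) = ∑ t ∈ S, p t * (Y t) ^ 2 := by rw [hY]; rfl
  rw [← hX, ← hY, e1, e2]
  have e3 : ∑ t ∈ S, p t * (Y t - X t) ^ 2 =
      ∑ t ∈ S, p t * (X t) ^ 2 + ∑ t ∈ S, p t * (Y t * Y t) - 2 * ∑ t ∈ S, p t * (X t * Y t) := by
    rw [mul_sum, ← sum_add_distrib, ← sum_sub_distrib]
    refine sum_congr rfl fun t _ => ?_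
    ring
  rw [e3, h1]
  have e4 : ∑ t ∈ S, p t * (Y t) ^ 2 = ∑ t ∈ S, p t * (Y t * Y t) := sum_congr rfl fun t _ => by ring
  rw [e4]
  ring

/-- the hypotheses at one scale -/
structure Scale (S : Finset Ω) (p : Ω → ℝ) (η : Set Ω) (G N : ℕ → Set Ω) (L l : ℕ) (c ε δ ν : ℝ) : Prop where
  /-- the product event has a positive conditional probability on the nice configurations -/
  low : ∀ a : Finset ℕ, c * ms S p (fun t => pat G (l + 1) L t = a ∧ t ∈ N l) ≤
    ms S p (fun t => pat G (l + 1) L t = a ∧ t ∈ G l)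
  /-- most configurations are nice -/
  nice : ms S p (fun t => ¬ t ∈ N l) ≤ ε
  /-- on the product event the law inside is `ν` -/
  prod : ∑ b ∈ (S.image (pat G l L)).filter (fun b => l ∈ b),
    |ms S p (fun t => pat G l L t = b ∧ t ∈ η) - ν * ms S p (fun t => pat G l L t = b)| ≤ δ

/-- one measure -/
theorem soft_one {S : Finset Ω} {p : Ω → ℝ} (hp : ∀ t, 0 ≤ p t) (h1 : ∑ t ∈ S, p t = 1) {η : Set Ω} {G N : ℕ → Set Ω}
    {L l : ℕ} (hl : l < L) {c ε δ ν : ℝ} (hc : 0 < c) (hν0 : 0 ≤ ν) (hν1 : ν ≤ 1) (H : Scale S p η G N L l c ε δ ν) :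
    |ms S p (fun t => t ∈ η) - ν| ≤ ε + (Real.sqrt (en S p η G L l - en S p η G L (l + 1)) + δ) / c := by
  obtain ⟨X, hX⟩ : ∃ X, X = cnd S p η (pat G l L) := ⟨_, rfl⟩
  obtain ⟨Y, hY⟩ : ∃ Y, Y = cnd S p η (pat G (l + 1) L) := ⟨_, rfl⟩
  obtain ⟨y, hy⟩ : ∃ y : Finset ℕ → ℝ, y = fun a =>
      ms S p (fun s => pat G (l + 1) L s = a ∧ s ∈ η) / ms S p (fun s => pat G (l + 1) L s = a) := ⟨_, rfl⟩
  have hYy : ∀ t, Y t = y (pat G (l + 1) L t) := fun t => by rw [hY, hy]; rfl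
  have hY0 : ∀ t, 0 ≤ Y t := fun t => by rw [hY]; exact cnd_nonneg hp _ _ _
  have hY1 : ∀ t, Y t ≤ 1 := fun t => by rw [hY]; exact cnd_le_one hp _ _ _
  have hZ1 : ∀ t, |Y t - ν| ≤ 1 := fun t => by
    rw [abs_le]
    have a := hY0 t
    have b := hY1 t
    constructor <;> linarith
  -- the probability of `η` is the mean of `Y`
  have e0 : ms S p (fun t => t ∈ η) - ν = ∑ t ∈ S, p t * (Y t - ν) := by
    have a := cnd_spec (S := S) hp η (pat G (l + 1) L) (fun _ => 1)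
    simp only [mul_one] at a
    have b : ∑ t ∈ S, p t * (Y t - ν) = ∑ t ∈ S, p t * Y t - ν * ∑ t ∈ S, p t := by
      rw [mul_sum, ← sum_sub_distrib]
      exact sum_congr rfl fun t _ => by ring
    rw [b, h1, mul_one, hY, ← a]
    rfl
  -- the classes
  have hfin : ∀ A : Ω → Prop, ∑ t ∈ S, p t * ind (A t) * |Y t - ν| =
      ∑ a ∈ S.image (pat G (l + 1) L), |y a - ν| * ms S p (fun t => pat G (l + 1) L t = a ∧ A t) := by
    intro A
    have h := sum_class S p A (pat G (l + 1) L) (fun a => |y a - ν|)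
    simp only [← hYy] at h
    exact h
  -- nice configurations
  have h2 : ∑ t ∈ S, p t * ind (t ∈ N l) * |Y t - ν| ≤ (∑ t ∈ S, p t * ind (t ∈ G l) * |Y t - ν|) / c := by
    rw [hfin (fun t => t ∈ N l), hfin (fun t => t ∈ G l), le_div_iff₀ hc, sum_mul]
    refine sum_le_sum fun a _ => ?_
    have h3 := H.low a
    have h4 := mul_le_mul_of_nonneg_left h3 (abs_nonneg (y a - ν))
    linarith
  have h5 : ∑ t ∈ S, p t * ind (¬ t ∈ N l) * |Y t - ν| ≤ ε := by
    refine le_trans ?_ H.nice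
    unfold ms
    refine sum_le_sum fun t _ => ?_
    have h3 : 0 ≤ p t * ind (¬ t ∈ N l) := mul_nonneg (hp t) (ind_nonneg _)
    calc p t * ind (¬ t ∈ N l) * |Y t - ν| ≤ p t * ind (¬ t ∈ N l) * 1 := mul_le_mul_of_nonneg_left (hZ1 t) h3
      _ = p t * ind (¬ t ∈ N l) := mul_one _
  -- on the product event
  have h6 : ∑ t ∈ S, p t * ind (t ∈ G l) * |Y t - ν| ≤
      ∑ t ∈ S, p t * ind (t ∈ G l) * |Y t - X t| + ∑ t ∈ S, p t * ind (t ∈ G l) * |X t - ν| := by
    rw [← sum_add_distrib]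
    refine sum_le_sum fun t _ => ?_
    rw [← mul_add]
    exact mul_le_mul_of_nonneg_left (abs_sub_le _ _ _) (mul_nonneg (hp t) (ind_nonneg _))
  have h7 : ∑ t ∈ S, p t * ind (t ∈ G l) * |Y t - X t| ≤
      Real.sqrt (en S p η G L l - en S p η G L (l + 1)) := by
    rw [← en_succ hp, ← hX, ← hY]
    apply Real.le_sqrt_of_sq_le
    have h8 : (∑ t ∈ S, p t * ind (t ∈ G l) * |Y t - X t|) ^ 2 ≤
        (∑ t ∈ S, p t * ind (t ∈ G l)) * ∑ t ∈ S, p t * ind (t ∈ G l) * (Y t - X t) ^ 2 := by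
      refine sum_sq_le_sum_mul_sum_of_sq_le_mul _ (fun t _ => mul_nonneg (hp t) (ind_nonneg _))
        (fun t _ => mul_nonneg (mul_nonneg (hp t) (ind_nonneg _)) (sq_nonneg _)) fun t _ => ?_
      rw [mul_pow, sq_abs]
      exact le_of_eq (by ring)
    have h9 : ∑ t ∈ S, p t * ind (t ∈ G l) ≤ 1 := by
      rw [← h1]
      refine sum_le_sum fun t _ => ?_
      calc p t * ind (t ∈ G l) ≤ p t * 1 := mul_le_mul_of_nonneg_left (ind_le_one _) (hp t)
        _ = p t := mul_one _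
    have h10 : ∑ t ∈ S, p t * ind (t ∈ G l) * (Y t - X t) ^ 2 ≤ ∑ t ∈ S, p t * (Y t - X t) ^ 2 := by
      refine sum_le_sum fun t _ => mul_le_mul_of_nonneg_right ?_ (sq_nonneg _)
      calc p t * ind (t ∈ G l) ≤ p t * 1 := mul_le_mul_of_nonneg_left (ind_le_one _) (hp t)
        _ = p t := mul_one _
    have h11 : 0 ≤ ∑ t ∈ S, p t * ind (t ∈ G l) * (Y t - X t) ^ 2 :=
      sum_nonneg fun t _ => mul_nonneg (mul_nonneg (hp t) (ind_nonneg _)) (sq_nonneg _)
    calc (∑ t ∈ S, p t * ind (t ∈ G l) * |Y t - X t|) ^ 2 ≤ _ := h8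
      _ ≤ 1 * ∑ t ∈ S, p t * ind (t ∈ G l) * (Y t - X t) ^ 2 := mul_le_mul_of_nonneg_right h9 h11
      _ ≤ _ := by rw [one_mul]; exact h10
  have h12 : ∑ t ∈ S, p t * ind (t ∈ G l) * |X t - ν| ≤ δ := by
    refine le_trans (le_of_eq ?_) H.prod
    obtain ⟨x, hx⟩ : ∃ x : Finset ℕ → ℝ, x = fun b =>
        ms S p (fun s => pat G l L s = b ∧ s ∈ η) / ms S p (fun s => pat G l L s = b) := ⟨_, rfl⟩
    have hXx : ∀ t, X t = x (pat G l L t) := fun t => by rw [hX, hx]; rfl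
    have h := sum_class S p (fun t => t ∈ G l) (pat G l L) (fun a => |x a - ν|)
    simp only [← hXx] at h
    rw [h, sum_filter]
    refine sum_congr rfl fun b _ => ?_
    split_ifs with hb
    · have e1 : ms S p (fun t => pat G l L t = b ∧ t ∈ G l) = ms S p (fun t => pat G l L t = b) := by
        apply ms_congr
        intro t
        constructor
        · exact fun h => h.1
        · intro h
          refine ⟨h, (mem_pat hl t).1 ?_⟩
          rw [h]
          exact hb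
      rw [e1, hx]
      by_cases h0 : ms S p (fun t => pat G l L t = b) = 0
      · have h3 : ms S p (fun t => pat G l L t = b ∧ t ∈ η) = 0 :=
          le_antisymm ((ms_mono hp fun t ht => ht.1).trans h0.le) (ms_nonneg hp _)
        simp [h0, h3]
      · have h3 : 0 < ms S p (fun t => pat G l L t = b) := lt_of_le_of_ne (ms_nonneg hp _) (Ne.symm h0)
        have h4 : ms S p (fun t => pat G l L t = b ∧ t ∈ η) - ν * ms S p (fun t => pat G l L t = b) =
            (ms S p (fun t => pat G l L t = b ∧ t ∈ η) / ms S p (fun t => pat G l L t = b) - ν) *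
              ms S p (fun t => pat G l L t = b) := by
          field_simp
        rw [h4, abs_mul, abs_of_pos h3]
    · have e1 : ms S p (fun t => pat G l L t = b ∧ t ∈ G l) = 0 := by
        unfold ms
        refine sum_eq_zero fun t _ => ?_
        rw [ind_neg, mul_zero]
        rintro ⟨h, h'⟩
        apply hb
        rw [← h]
        exact (mem_pat hl t).2 h'
      rw [e1, mul_zero]
  have h13 : |∑ t ∈ S, p t * (Y t - ν)| ≤ ∑ t ∈ S, p t * |Y t - ν| := by
    refine (abs_sum_le_sum_abs _ _).trans (le_of_eq ?_)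
    refine sum_congr rfl fun t _ => ?_
    rw [abs_mul, abs_of_nonneg (hp t)]
  have h14 : ∑ t ∈ S, p t * |Y t - ν| = ∑ t ∈ S, p t * ind (t ∈ N l) * |Y t - ν| +
      ∑ t ∈ S, p t * ind (¬ t ∈ N l) * |Y t - ν| := by
    rw [← sum_add_distrib]
    refine sum_congr rfl fun t _ => ?_
    rw [← add_mul, ← mul_add, ind_add_not, mul_one]
  rw [e0]
  have h15 : (∑ t ∈ S, p t * ind (t ∈ G l) * |Y t - ν|) / c ≤
      (Real.sqrt (en S p η G L l - en S p η G L (l + 1)) + δ) / c := by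
    apply div_le_div_of_nonneg_right _ hc.le
    linarith
  linarith

/-- the increments have the sum at most one -/
lemma en_sum {S : Finset Ω} {p : Ω → ℝ} (hp : ∀ t, 0 ≤ p t) (h1 : ∑ t ∈ S, p t = 1) (η : Set Ω) (G : ℕ → Set Ω)
    (L l0 M : ℕ) : ∑ i ∈ range M, (en S p η G L (l0 + i) - en S p η G L (l0 + i + 1)) ≤ 1 := by
  have h : ∑ i ∈ range M, (en S p η G L (l0 + i) - en S p η G L (l0 + i + 1)) =
      en S p η G L l0 - en S p η G L (l0 + M) := by
    have := sum_range_sub' (fun i => en S p η G L (l0 + i)) M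
    simpa [add_assoc] using this
  rw [h]
  linarith [en_le_one hp h1 η G L l0, en_nonneg (S := S) hp η G L (l0 + M)]

lemma en_inc {S : Finset Ω} {p : Ω → ℝ} (hp : ∀ t, 0 ≤ p t) (η : Set Ω) (G : ℕ → Set Ω) (L l : ℕ) :
    0 ≤ en S p η G L l - en S p η G L (l + 1) := by
  rw [← en_succ hp]
  exact sum_nonneg fun t _ => mul_nonneg (hp t) (sq_nonneg _)

/-- **two measures with the same inner laws** -/
theorem soft_two {Ω' : Type*} {S : Finset Ω} {p : Ω → ℝ} (hp : ∀ t, 0 ≤ p t) (h1 : ∑ t ∈ S, p t = 1)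
    {S' : Finset Ω'} {p' : Ω' → ℝ} (hp' : ∀ t, 0 ≤ p' t) (h1' : ∑ t ∈ S', p' t = 1)
    {η : Set Ω} {G N : ℕ → Set Ω} {η' : Set Ω'} {G' N' : ℕ → Set Ω'} {l0 M : ℕ} (hM : 0 < M) {c ε δ : ℝ} {ν : ℕ → ℝ}
    (hc : 0 < c) (hν0 : ∀ l, 0 ≤ ν l) (hν1 : ∀ l, ν l ≤ 1)
    (H : ∀ l, l0 ≤ l → l < l0 + M → Scale S p η G N (l0 + M) l c ε δ (ν l))
    (H' : ∀ l, l0 ≤ l → l < l0 + M → Scale S' p' η' G' N' (l0 + M) l c ε δ (ν l)) :
    |ms S p (fun t => t ∈ η) - ms S' p' (fun t => t ∈ η')| ≤ 2 * (ε + (Real.sqrt (2 / M) + δ) / c) := by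
  have hMR : (0 : ℝ) < M := by exact_mod_cast hM
  obtain ⟨Δ, hΔ⟩ : ∃ Δ : ℕ → ℝ, Δ = fun i =>
    (en S p η G (l0 + M) (l0 + i) - en S p η G (l0 + M) (l0 + i + 1)) +
      (en S' p' η' G' (l0 + M) (l0 + i) - en S' p' η' G' (l0 + M) (l0 + i + 1)) := ⟨_, rfl⟩
  have hs : ∑ i ∈ range M, Δ i ≤ 2 := by
    rw [hΔ, sum_add_distrib]
    linarith [en_sum hp h1 η G (l0 + M) l0 M, en_sum hp' h1' η' G' (l0 + M) l0 M]
  obtain ⟨i, hi, hΔi⟩ : ∃ i ∈ range M, Δ i ≤ 2 / M := by
    by_contra hcon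
    push Not at hcon
    have h2 : ∑ _i ∈ range M, (2 / (M : ℝ)) < ∑ i ∈ range M, Δ i :=
      sum_lt_sum_of_nonempty ⟨0, mem_range.2 hM⟩ fun i hi => hcon i hi
    rw [sum_const, card_range, nsmul_eq_mul] at h2
    have h3 : (M : ℝ) * (2 / M) = 2 := by field_simp
    linarith
  have hi' := mem_range.1 hi
  have a1 := en_inc hp η G (l0 + M) (l0 + i) (S := S)
  have a2 := en_inc hp' η' G' (l0 + M) (l0 + i) (S := S')
  rw [hΔ] at hΔi
  simp only at hΔi
  have b1 := soft_one hp h1 (by omega) hc (hν0 _) (hν1 _) (H (l0 + i) (by omega) (by omega))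
  have b2 := soft_one hp' h1' (by omega) hc (hν0 _) (hν1 _) (H' (l0 + i) (by omega) (by omega))
  have c1 : Real.sqrt (en S p η G (l0 + M) (l0 + i) - en S p η G (l0 + M) (l0 + i + 1)) ≤ Real.sqrt (2 / M) :=
    Real.sqrt_le_sqrt (by linarith)
  have c2 : Real.sqrt (en S' p' η' G' (l0 + M) (l0 + i) - en S' p' η' G' (l0 + M) (l0 + i + 1)) ≤
      Real.sqrt (2 / M) := Real.sqrt_le_sqrt (by linarith)
  have d1 : (Real.sqrt (en S p η G (l0 + M) (l0 + i) - en S p η G (l0 + M) (l0 + i + 1)) + δ) / c ≤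
      (Real.sqrt (2 / M) + δ) / c := div_le_div_of_nonneg_right (by linarith) hc.le
  have d2 : (Real.sqrt (en S' p' η' G' (l0 + M) (l0 + i) - en S' p' η' G' (l0 + M) (l0 + i + 1)) + δ) / c ≤
      (Real.sqrt (2 / M) + δ) / c := div_le_div_of_nonneg_right (by linarith) hc.le
  have f := abs_sub_le (ms S p (fun t => t ∈ η)) (ν (l0 + i)) (ms S' p' (fun t => t ∈ η'))
  rw [abs_sub_comm (ν (l0 + i))] at f
  linarith

end TIP

end HexObs
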