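import Pool.Agent.TIP.Defs
import Pool.Agent.TIP.Soft
import Pool.Agent.TOG.Defs

/-!
TIP, the local limit at the tip (helper84, doc nu34/TIP_84N): product events, thresholds, the literals of the rows G and N.
Words end at the tip.
-/

set_option autoImplicit false

namespace HexObs

namespace TIP

open Finset TS SDN SIM NTA

open scoped ENNReal

/-- local irreducible pieces of the size R -/
def Pc (C2 R : ℕ) : Set (List Bool) :=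
  {P | P ∈ IU ∧ 4 * R ≤ hgt P ∧ ∀ i, i ≤ P.length → vx oo up P i ∈ Bl oo (C2 * R)}

/-- words with a local irreducible piece of the size R behind the tip and a free half ball in front of it -/
def AT (C2 C3 R : ℕ) : Set (List Bool) := {A | A ∈ SA ∧ FreeT (C3 * R) A ∧ ∃ A' P, A = A' ++ P ∧ P ∈ Pc C2 R}

/-- half plane words of the box of radius ρ -/
def HW (ρ : ℕ) : Set (List Bool) := {E | (∃ d, E ∈ SSt d) ∧ ∀ i, i ≤ E.length → vx oo up E i ∈ Bl oo ρ}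

/-- inner parts: half plane words of even length in the box of radius ρ that end above the row σ -/
def ES (ρ σ : ℕ) : Set (List Bool) := {E | E ∈ HW ρ ∧ Even E.length ∧ 3 * (σ : ℤ) ≤ lev E E.length}

/-- the product event of the scale R, thresholds ρ σ, direction δ of the outer tip -/
def GS (C2 C3 R ρ σ : ℕ) (δ : Pt) : Set (List Bool) :=
  {t | ∃ A E, t = A ++ E ∧ A ∈ AT C2 C3 R ∧ tipd A = δ ∧ E ∈ ES ρ σ}

/-- near the thresholds -/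
def Mg (C2 C3 R ρ σ mg : ℕ) (δ : Pt) : Set (List Bool) :=
  {t | t ∈ GS C2 C3 R (ρ + mg) (σ - mg) δ ∧ t ∉ GS C2 C3 R (ρ - mg) (σ + mg) δ}

/-- all vertices in the box of radius D around the start -/
def In (D : ℕ) (Y : List Bool) : Prop := ∀ i, i ≤ Y.length → vx oo up Y i ∈ Bl oo D

/-- ends that start with a good tip of the scale b -/
def YS (b : ℕ) (η : ℝ) (D : ℕ) : Set (List Bool) :=
  {Y | Y ∈ SA ∧ η * Ub b ≤ (cutN (2 ^ (b - 1)) (rev Y) : ℝ) ∧ Even Y.length ∧ In D Y}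

/-- the good cuts near the tip: the ends Y of t = A ++ Y -/
def NCt (b a D : ℕ) (η : ℝ) (t : List Bool) : Set (List Bool) :=
  {Y | Y ∈ YS b η D ∧ ∃ A, t = A ++ Y ∧ FreeT (2 ^ a) A}

/-! ### G: statements -/

/-- G1 -/
def PcMass : Prop := ∃ (C2 R0 : ℕ) (c : ℝ), 0 < c ∧ ∀ R, R0 ≤ R → ENNReal.ofReal (c / UU R) ≤ gf (Pc C2 R)

/-- G2 -/
def EsMass : Prop := ∃ (q : ℕ) (c : ℝ), 0 < c ∧ ∀ k ρ σ : ℕ, 2 ^ (k + q) ≤ ρ → σ ≤ 2 ^ k →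
  ENNReal.ofReal (c * Ub k) * Xb k ≤ gf (ES ρ σ)

/-- G3 -/
def Glue3 : Prop := ∀ (r ρ : ℕ) (A E : List Bool), A ∈ SA → FreeT r A → E ∈ HW ρ → 2 * ρ ≤ r → A ++ E ∈ SA

/-- G4 -/
def Uniq : Prop := ∀ (C2 C3 R : ℕ) (A1 A2 E1 E2 : List Bool), 8 * C2 + 8 ≤ C3 → A1 ∈ AT C2 C3 R → A2 ∈ AT C2 C3 R →
  tipd A1 = tipd A2 → E1 ∈ HW R → E2 ∈ HW R → A1 ++ E1 = A2 ++ E2 → A1 = A2

/-- G5: a small change of the end -/
def Stab : Prop := ∀ (C2 C3 R ρ σ mg D : ℕ) (δ : Pt) (A Y Y' : List Bool), 8 * D ≤ mg → 2 * mg ≤ σ →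
  A ++ Y' ∈ SA → In D Y → In D Y' → Even Y.length → Even Y'.length →
  A ++ Y ∈ GS C2 C3 R ρ σ δ → A ++ Y' ∈ GS C2 C3 R (ρ + mg) (σ - mg) δ

/-- G6 -/
def YMass : Prop := ∀ (η : ℝ) (m : ℕ), 0 < η → ∃ C : ℝ, 0 < C ∧ ∀ b : ℕ,
  gf (YS b η (2 ^ (b + m))) ≤ ENNReal.ofReal (C * Ub b) * Xb b

/-- G8: thresholds by pigeonhole -/
def Thr : Prop := ∀ (C2 C3 R mg N : ℕ), 8 * C2 + 8 ≤ C3 → 1 ≤ N → 1 ≤ mg → 32 * (N * (2 * mg + 1)) + 64 * mg ≤ R →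
  ∀ (S : Finset (List Bool)) (p : List Bool → ℝ), (∀ t, 0 ≤ p t) → ∑ t ∈ S, p t ≤ 1 →
    ∃ ρ σ : ℕ, R / 2 ≤ ρ ∧ ρ ≤ R ∧ R / 32 ≤ σ ∧ σ ≤ R / 8 ∧
      ∀ δ ∈ dirs, ms S p (fun t => t ∈ Mg C2 C3 R ρ σ mg δ) ≤ 12 / (N : ℝ)

/-- G9: invariance under the toggles far away from the start (reversed words) -/
def TogG : Prop := ∀ (C2 C3 R ρ σ : ℕ) (δ : Pt), ρ ≤ R → ∃ R0 : ℕ, ∀ R1, R0 ≤ R1 →
  TOG.TogInv R1 {t | rev t ∈ GS C2 C3 R ρ σ δ}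

/-- the row N: near the end there are many good cuts -/
def NEnd : Prop := ∀ ε : ℝ, 0 < ε → ∃ (η κ : ℝ) (j m b0 : ℕ), 0 < η ∧ 0 < κ ∧ j ≤ b0 ∧ ∀ b, b0 ≤ b → ∃ n0 : ℕ, ∀ n, n0 ≤ n →
  TOG.Pn n {t | ((NCt b (b - j) (2 ^ (b + m)) η t).ncard : ℝ) < κ * Ub b} ≤ ε

/-! ### the results -/

/-- tip events that are local for the product events -/
def LocE (η : Set (List Bool)) : Prop := ∃ s0 : ℕ, ∀ (C2 C3 R : ℕ), 8 * C2 + 8 ≤ C3 → ∃ η' : Set (List Bool),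
  ∀ A ∈ AT C2 C3 R, ∀ E ∈ ES R s0, (A ++ E ∈ η ↔ E ∈ η')

/-- the local limit -/
def LocLim : Prop := ∀ η : Set (List Bool), LocE η → ∃ x : ℝ, Filter.Tendsto (fun n => TOG.Pn n η) Filter.atTop (nhds x)

end TIP

end HexObs
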