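import Pool.Agent.TIP.DefsM
import Pool.Agent.TIP.DefsG

/-!
TIP, row N (helper84, doc nu34/TIP_84R): near the end there are many good cuts. The literals. Words end at the tip.
-/

set_option autoImplicit false

namespace HexObs

namespace TIP

open Finset TS SDN SIM NTA

open scoped ENNReal

open Classical in
/-- the number of the cuts of a bridge -/
noncomputable def nc (Z : List Bool) : ℕ := ((range (Z.length + 1)).filter fun j => Z.take j ∈ BU ∧ Z.drop j ∈ BU).card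

/-- local bridges of the scale b with many cuts in the middle part -/
def Zc (κ : ℝ) (C b : ℕ) : Set (List Bool) :=
  {Z | ∃ Z1 Z2 Z3, Z = Z1 ++ (Z2 ++ Z3) ∧ Z1 ∈ BU ∧ Z2 ∈ BU ∧ Z3 ∈ BU ∧ 2 ^ (b + 1) ≤ hgt Z1 ∧ 2 ^ (b + 1) ≤ hgt Z3 ∧
    hgt Z2 ≤ 2 ^ b ∧ κ * Ub b ≤ (nc Z2 : ℝ) ∧ In (C * 2 ^ b) Z}

/-- words without such a factor (with at least one letter behind it) -/
def Nz (κ : ℝ) (C b : ℕ) : Set (List Bool) := {t | ∀ X Z Y, t = X ++ (Z ++ Y) → Y ≠ [] → Z ∉ Zc κ C b}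

/-- words with a factor in Nz of extent more than n 2 ^ b -/
def Lz (κ : ℝ) (C b n : ℕ) : Set (List Bool) :=
  {t | ∃ X Q Y, t = X ++ (Q ++ Y) ∧ Q ∈ Nz κ C b ∧ ¬ In (n * 2 ^ b) Q}

/-- Na: free bridges without such a factor are rare -/
def FreeZ (κ : ℝ) (C : ℕ) : Prop := ∀ ε : ℝ, 0 < ε → ∃ c b0 : ℕ, ∀ b h : ℕ, b0 ≤ b → 2 ^ (b + c) ≤ h →
  gf {Z | Z ∈ Brd h ∧ Z ∈ Nz κ C b} ≤ ENNReal.ofReal (ε * uu h)

/-- Nb: walks of the box with a long factor in Nz -/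
def RegZ (κ : ℝ) (C : ℕ) : Prop := ∃ (C' c : ℝ) (b0 J0 n0 : ℕ), 1 ≤ C' ∧ 0 < c ∧ ∀ b J n : ℕ, b0 ≤ b → J0 ≤ J → n0 ≤ n →
  gf {t | t ∈ WL (b + J) ∧ t ∈ Lz κ C b n} ≤
    ENNReal.ofReal (C' ^ J * (2 : ℝ) ^ (-(c * n)) * Ub (b + J)) * Xb (b + J) ^ 2

/-- Nd: ends that start with a good tip and have a long factor in Nz -/
def YBad (κ : ℝ) (C : ℕ) : Prop := ∀ (η : ℝ) (a c1 : ℕ), 0 < η → ∃ J0 b0 : ℕ, ∀ b J : ℕ, b0 ≤ b → J0 ≤ J →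
  gf {Y | Y ∈ SA ∧ rev Y ∈ GT b η ∧ In (2 ^ (b + J)) Y ∧ ∃ n : ℕ, 2 ^ J ≤ n * 2 ^ c1 ∧ Y ∈ Lz κ C b n} ≤
    ENNReal.ofReal (Ub b / (2 : ℝ) ^ (a * J)) * Xb b

/-- a relation between A and Y that only depends on the part of A near its tip -/
def LocR (D : ℕ) (ρ : List Bool → List Bool → Prop) : Prop := ∀ L A Y,
  (∀ i, i ≤ L.length → vx oo up (L ++ A) i ∉ Bl (tipv (L ++ A)) D) → ρ (L ++ A) Y → ρ A Y

/-- the number of the decompositions in ρ -/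
noncomputable def nD (D : ℕ) (ρ : List Bool → List Bool → Prop) (t : List Bool) : ℕ :=
  {Y : List Bool | ∃ A, t = A ++ Y ∧ ρ A Y ∧ In D Y}.ncard

/-- Ng: exactly n letters; D up to n ^ (1 / 10); the good tip is local (part of ρ) -/
def ExN : Prop := ∀ η ε : ℝ, 0 < η → 0 < ε → ∃ C : ℝ, 0 < C ∧ ∀ b : ℕ, ∃ n0 : ℕ, ∀ n, n0 ≤ n →
  ∃ B : Set (List Bool), TOG.Pn n B ≤ ε ∧ ∀ (ρ : List Bool → List Bool → Prop) (x : ℝ≥0∞) (q : ℝ) (D : ℕ),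
    (D : ℝ) ^ 10 ≤ n → LocR D ρ → (∀ A Y, ρ A Y → A ∈ GT b η) → (∀ A, gf {Y | ρ A Y ∧ In D Y} ≤ x) → 0 < q →
      ENNReal.ofReal (TOG.Pn n {t | t ∉ B ∧ q ≤ (nD D ρ t : ℝ)}) * (ENNReal.ofReal q * Xb b) ≤ ENNReal.ofReal C * x

/-- the good cuts near the tip, any parity: the ends Y of t = A ++ Y -/
def NCa (b a D : ℕ) (η : ℝ) (t : List Bool) : Set (List Bool) :=
  {Y | rev Y ∈ GT b η ∧ In D Y ∧ ∃ A, t = A ++ Y ∧ FreeT (2 ^ a) A}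

/-- **row N** -/
def NEndA : Prop := ∀ ε : ℝ, 0 < ε → ∃ (η κ : ℝ) (j m b0 : ℕ), 0 < η ∧ 0 < κ ∧ j ≤ b0 ∧ ∀ b, b0 ≤ b → ∃ n0 : ℕ, ∀ n, n0 ≤ n →
  TOG.Pn n {t | ((NCa b (b - j) (2 ^ (b + m)) η t).ncard : ℝ) < κ * Ub b} ≤ ε

end TIP

end HexObs
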