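import Pool.Agent.TIP.EnsW
import Pool.Agent.TIP.DefsG
import Pool.Agent.TightD.Embed

/-!
TIP, G6: ends that start with a good tip: the reversed word without its first letter is a self-avoiding word with a good tip.
-/

set_option autoImplicit false

namespace HexObs

namespace TIP

open Finset TS SDN NTW NTA SIM

open scoped ENNReal

namespace RevM

/-- rows from the coordinates in another frame -/
lemma row_of {c : Pt} (hc : c ∈ dirs) {v : Pt} {B : ℤ} (h1 : |(mulE c v).1| ≤ B) (h2 : |(mulE c v).2| ≤ B) (dir : Bool) :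
    |row dir v| ≤ 2 * B + 1 := by
  obtain ⟨x, y⟩ := v
  simp only [dirs, mem_insert, mem_singleton] at hc
  unfold row lvl ip hd up
  rw [abs_le] at *
  rcases hc with rfl | rfl | rfl | rfl | rfl | rfl <;> cases dir <;>
    simp only [mulE, Bool.false_eq_true, if_false, if_true] at * <;> constructor <;> omega

lemma mul_dirs {c c' : Pt} (hc : c ∈ dirs) (hc' : c' ∈ dirs) : mulE c c' ∈ dirs := by
  rw [mem_dirs] at *
  rw [nrm_mulE, hc, hc']
  norm_num

/-- the vertices of the reversed word -/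
lemma rev_frame (Y : List Bool) : ∃ c ∈ dirs, ∀ i, i ≤ Y.length + 1 →
    vx oo up Y (Y.length + 1 - i) = vx oo up Y (Y.length + 1) + mulE c (vx oo up (rev Y) i) := by
  have he : -(dx up Y Y.length) ∈ dirs := by
    have h := dx_mem up_dirs Y Y.length
    revert h
    generalize dx up Y Y.length = d
    revert d
    decide
  obtain ⟨h1, h2⟩ := frame_dir he
  refine ⟨_, h1, fun i hi => ?_⟩
  have h3 := vx_rev oo up Y i hi
  rw [h2, vx_frameN] at h3
  exact h3.symm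

/-- the vertices of the reversed word without the first letter -/
lemma rev_frame1 (Y : List Bool) : ∃ c ∈ dirs, ∀ i, i ≤ Y.length →
    vx oo up Y (Y.length - i) = vx oo up Y Y.length + mulE c (vx oo up ((rev Y).drop 1) i) := by
  obtain ⟨c, hc, h⟩ := rev_frame Y
  obtain ⟨c', hc', -, h'⟩ := drop_frame' (rev Y) 1
  refine ⟨mulE c c', mul_dirs hc hc', fun i hi => ?_⟩
  have h1 := h (1 + i) (by omega)
  have h2 := h 1 (by omega)
  rw [h' i, mulE_add, ← add_assoc, ← h2, show Y.length + 1 - (1 + i) = Y.length - i by omega,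
    show Y.length + 1 - 1 = Y.length by omega, mulE_assoc] at h1
  exact h1

lemma rev_SA {Y : List Bool} (hY : Y ∈ SA) : (rev Y).drop 1 ∈ SA := by
  obtain ⟨c, -, h⟩ := rev_frame1 Y
  refine ⟨fun _ _ _ => Set.mem_univ _, ?_⟩
  intro i k hik hk heq
  rw [List.length_drop, rev_length] at hk
  rcases Nat.eq_zero_or_pos Y.length with h0 | h0
  · omega
  · refine hY.inj (Y.length - k) (Y.length - i) (by omega) (by omega) ?_
    rw [h k (by omega), h i (by omega), heq]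

lemma BU_SA {Y : List Bool} (hY : Y ∈ BU) : Y ∈ SA := by
  obtain ⟨n, hn⟩ := hY
  exact ⟨fun _ _ _ => Set.mem_univ _, fun i k h1 h2 => (mem_Brd.1 hn).2.1 i k h1 h2⟩

lemma coord {p q w : Pt} {D E : ℤ} (h : p = q + w) (h1 : |p.1| ≤ D) (h2 : |q.1| ≤ E) (h3 : |p.2| ≤ D) (h4 : |q.2| ≤ E) :
    |w.1| ≤ D + E ∧ |w.2| ≤ D + E := by
  have e1 : p.1 = q.1 + w.1 := by rw [h]; rfl
  have e2 : p.2 = q.2 + w.2 := by rw [h]; rfl
  rw [abs_le] at *
  rw [abs_le]
  exact ⟨⟨by omega, by omega⟩, by omega, by omega⟩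

lemma In_coord {D : ℕ} {Y : List Bool} (h : In D Y) {i : ℕ} (hi : i ≤ Y.length) :
    |(vx oo up Y i).1| ≤ (D : ℤ) ∧ |(vx oo up Y i).2| ≤ (D : ℤ) := by
  have h1 := h i hi
  have e1 : (oo : Pt).1 = 0 := rfl
  have e2 : (oo : Pt).2 = 0 := rfl
  obtain ⟨h2, h3⟩ := h1
  rw [e1, sub_zero] at h2
  rw [e2, sub_zero] at h3
  exact ⟨h2, h3⟩

lemma box1 {D : ℕ} {Y : List Bool} (h : In D Y) (hY : Y ∈ SA) {K : ℕ} (hK : 4 * D + 1 ≤ 2 ^ K) : (rev Y).drop 1 ∈ WL K := by
  obtain ⟨c, hc, hf⟩ := rev_frame1 Y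
  refine ⟨rev_SA hY, fun i hi dir => ?_⟩
  rw [List.length_drop, rev_length] at hi
  have hi' : i ≤ Y.length := by omega
  obtain ⟨a1, a2⟩ := In_coord h (i := Y.length - i) (by omega)
  obtain ⟨b1, b2⟩ := In_coord h (i := Y.length) le_rfl
  obtain ⟨c1, c2⟩ := coord (hf i hi') a1 b1 a2 b2
  refine (row_of hc c1 c2 dir).trans ?_
  have : (4 * D + 1 : ℤ) ≤ 2 ^ K := by exact_mod_cast hK
  omega

lemma box0 {D : ℕ} {Y : List Bool} (h : In D Y) (hY : rev Y ∈ SA) {K : ℕ} (hK : 4 * D + 3 ≤ 2 ^ K) : rev Y ∈ WL K := by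
  obtain ⟨c, hc, hf⟩ := rev_frame Y
  have hK' : (4 * D + 3 : ℤ) ≤ 2 ^ K := by exact_mod_cast hK
  refine ⟨hY, fun i hi dir => ?_⟩
  rw [rev_length] at hi
  rcases Nat.eq_zero_or_pos i with h0 | h0
  · rw [h0]
    have : row dir (vx oo up (rev Y) 0) = 0 := by
      show row dir oo = 0
      cases dir <;> decide
    rw [this, abs_zero]
    positivity
  · have hf' := hf i (by omega)
    obtain ⟨a1, a2⟩ := In_coord h (i := Y.length + 1 - i) (by omega)
    obtain ⟨b1, b2⟩ := In_coord h (i := Y.length) le_rfl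
    have hd := dx_mem up_dirs Y Y.length
    have e : vx oo up Y (Y.length + 1) = vx oo up Y Y.length + dx up Y Y.length := rfl
    have hd1 : ∀ d ∈ dirs, |d.1| ≤ 1 ∧ |d.2| ≤ 1 := by decide
    obtain ⟨d1, d2⟩ := hd1 _ hd
    have b3 : |(vx oo up Y (Y.length + 1)).1| ≤ (D : ℤ) + 1 := by
      rw [e]
      exact (abs_add_le _ _).trans (add_le_add b1 d1)
    have b4 : |(vx oo up Y (Y.length + 1)).2| ≤ (D : ℤ) + 1 := by
      rw [e]
      exact (abs_add_le _ _).trans (add_le_add b2 d2)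
    obtain ⟨c1, c2⟩ := coord hf' a1 b3 a2 b4
    refine (row_of hc c1 c2 dir).trans ?_
    omega

/-- the cuts after the first letter is removed -/
lemma cs_drop {b : ℕ} {L : List Bool} (hL : L ∉ BU) : (cs b L).card ≤ (cs b (L.drop 1)).card := by
  have key : ∀ j ∈ cs b L, 1 ≤ j ∧ j - 1 ∈ cs b (L.drop 1) := by
    intro j hj
    obtain ⟨h1, h2, h3, A, B, h4, h5, h6⟩ := mem_cs.1 hj
    cases A with
    | nil =>
      exfalso
      apply hL
      rw [List.nil_append] at h4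
      rw [← List.take_append_drop j L, h4]
      obtain ⟨m, hm⟩ := h5
      obtain ⟨n, hn⟩ := h2
      exact ⟨m + n, Brd_append hm hn⟩
    | cons x A =>
      have hj1 : 1 ≤ j := by
        by_contra hcon
        have : j = 0 := by omega
        rw [this, List.take_zero, List.cons_append] at h4
        exact (List.cons_ne_nil _ _ h4.symm).elim
      have e1 : (L.drop 1).drop (j - 1) = L.drop j := by
        rw [List.drop_drop]
        congr 1
        omega
      have e2 : (L.drop 1).take (j - 1) = A ++ B := by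
        have h7 : (L.take j).drop 1 = (L.drop 1).take (j - 1) := by rw [List.drop_take]
        rw [← h7, h4]
        rfl
      refine ⟨hj1, mem_cs.2 ⟨by rw [List.length_drop]; omega, by rwa [e1], by rwa [e1], A, B, e2, h5, h6⟩⟩
  refine card_le_card_of_injOn (fun j => j - 1) (fun j hj => (key j hj).2) ?_
  intro j hj j' hj' h
  have a1 := (key j hj).1
  have a2 := (key j' hj').1
  have h' : j - 1 = j' - 1 := h
  omega

lemma gf_short : gf {t : List Bool | t.length ≤ 1} ≤ 3 := by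
  have h1 : {t : List Bool | t.length ≤ 1} ⊆ (({[], [true], [false]} : Finset (List Bool)) : Set (List Bool)) := by
    intro t ht
    match t, ht with
    | [], _ => simp
    | [true], _ => simp
    | [false], _ => simp
    | _ :: _ :: _, ht => simp at ht
  refine (gf_mono h1).trans ?_
  rw [gf_finset]
  have hxc := xc_pos
  have hxc1 := B2b_xc_le_one
  have h2 : ∑ t ∈ ({[], [true], [false]} : Finset (List Bool)), xc ^ t.length ≤ 3 := by
    rw [sum_insert (by decide), sum_insert (by decide), sum_singleton]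
    simp only [List.length_nil, List.length_singleton, pow_zero, pow_one]
    linarith
  calc ENNReal.ofReal (∑ t ∈ ({[], [true], [false]} : Finset (List Bool)), xc ^ t.length) ≤ ENNReal.ofReal 3 :=
        ENNReal.ofReal_le_ofReal h2
    _ = 3 := by simp

end RevM

open RevM

/-- **the reversal**: ends that start with a good tip against words with a good tip -/
theorem rev_le {b D K : ℕ} {η : ℝ} {Q Q' : Set (List Bool)} (hK : 4 * D + 3 ≤ 2 ^ K)
    (h0 : ∀ Y ∈ Q, In D Y → rev Y ∈ BU → rev Y ∈ Q') (h1 : ∀ Y ∈ Q, In D Y → (rev Y).drop 1 ∈ Q') :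
    gf {Y | Y ∈ SA ∧ rev Y ∈ GT b η ∧ In D Y ∧ Y ∈ Q} ≤ 4 * gf {L | L ∈ WL K ∧ L ∈ GT b η ∧ L ∈ Q'} := by
  obtain ⟨T, hT⟩ : ∃ T : Set (List Bool), T = {L | L ∈ WL K ∧ L ∈ GT b η ∧ L ∈ Q'} := ⟨_, rfl⟩
  obtain ⟨S, hS⟩ : ∃ S : Set (List Bool), S = {Y | Y ∈ SA ∧ rev Y ∈ GT b η ∧ In D Y ∧ Y ∈ Q ∧ rev Y ∉ BU} := ⟨_, rfl⟩
  have hcov : {Y | Y ∈ SA ∧ rev Y ∈ GT b η ∧ In D Y ∧ Y ∈ Q} ⊆ {Y | rev Y ∈ T} ∪ S := by
    rintro Y ⟨a1, a2, a3, a4⟩
    by_cases hB : rev Y ∈ BU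
    · left
      show rev Y ∈ T
      rw [hT]
      exact ⟨box0 a3 (BU_SA hB) hK, a2, h0 Y a4 a3 hB⟩
    · right
      rw [hS]
      exact ⟨a1, a2, a3, a4, hB⟩
  have k1 : gf {Y | rev Y ∈ T} = gf T := TD.gf_rev_eq T
  have k2 : gf S ≤ 1 * (gf T * gf {t : List Bool | t.length ≤ 1}) := by
    refine gf_le_pair 1 (fun Y => (rev Y).drop 1) (fun Y => (rev Y).take 1) ?_ ?_ ?_ ?_
    · intro Y hY
      rw [hS] at hY
      obtain ⟨a1, a2, a3, a4, a5⟩ := hY
      rw [hT]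
      refine ⟨box1 a3 a1 (by omega), ?_, h1 Y a4 a3⟩
      have a6 : η * Ub b ≤ ((cs b (rev Y)).card : ℝ) := a2
      have a7 : ((cs b (rev Y)).card : ℝ) ≤ ((cs b ((rev Y).drop 1)).card : ℝ) := by exact_mod_cast cs_drop a5
      exact a6.trans a7
    · intro Y _
      show ((rev Y).take 1).length ≤ 1
      rw [List.length_take]
      omega
    · intro s _ t _ h2 h3
      have h4 : rev s = rev t := by
        rw [← List.take_append_drop 1 (rev s), ← List.take_append_drop 1 (rev t)]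
        exact congrArg₂ (· ++ ·) h3 h2
      rw [← rev_rev s, h4, rev_rev]
    · intro Y _
      rw [one_mul, mul_comm, ← wE_append, List.take_append_drop, wE_rev]
  rw [← hT]
  calc gf {Y | Y ∈ SA ∧ rev Y ∈ GT b η ∧ In D Y ∧ Y ∈ Q} ≤ gf {Y | rev Y ∈ T} + gf S :=
        (gf_mono hcov).trans (gf_union_le _ _)
    _ ≤ gf T + 1 * (gf T * 3) := by
        rw [k1]
        exact add_le_add_right (k2.trans (mul_le_mul_right (mul_le_mul_right gf_short _) _)) _
    _ = 4 * gf T := by ring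

/-- ends that start with a good tip, any parity -/
theorem ymass' (η : ℝ) (m : ℕ) (hη : 0 < η) : ∃ C : ℝ, 0 < C ∧ ∀ b : ℕ,
    gf {Y | Y ∈ SA ∧ rev Y ∈ GT b η ∧ In (2 ^ (b + m)) Y} ≤ ENNReal.ofReal (C * Ub b) * Xb b := by
  obtain ⟨C, hC, h⟩ := tip_WL η hη
  obtain ⟨D, hD, hup⟩ := EnsW.ref_up
  refine ⟨4 * C * D ^ (m + 3), by positivity, fun b => ?_⟩
  have hU := Ub_pos b
  have h1 := rev_le (b := b) (D := 2 ^ (b + m)) (K := b + (m + 3)) (η := η) (Q := Set.univ) (Q' := Set.univ) (by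
      have e : (2 : ℕ) ^ (b + (m + 3)) = 8 * 2 ^ (b + m) := by rw [show b + (m + 3) = b + m + 3 by ring, pow_add]; ring
      have : 1 ≤ 2 ^ (b + m) := Nat.one_le_two_pow
      omega) (fun _ _ _ _ => Set.mem_univ _) (fun _ _ _ => Set.mem_univ _)
  have h2 : gf {L | L ∈ WL (b + (m + 3)) ∧ L ∈ GT b η ∧ L ∈ (Set.univ : Set (List Bool))} ≤ gf (WL (b + (m + 3)) ∩ GT b η) :=
    gf_mono fun L hL => ⟨hL.1, hL.2.1⟩
  have h3 := h (b + (m + 3)) b (by omega)
  have h4 : gf (WL (b + (m + 3)) ∩ GT b η) * Xb b ≤ (ENNReal.ofReal (C * D ^ (m + 3) * Ub b) * Xb b) * Xb b := by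
    refine h3.trans ?_
    rw [ENNReal.ofReal_mul hC.le, mul_assoc]
    refine (mul_le_mul_right (hup b (m + 3)) _).trans (le_of_eq ?_)
    rw [ENNReal.ofReal_mul (by positivity), ENNReal.ofReal_mul hC.le]
    ring
  have h5 := (ENNReal.mul_le_mul_iff_left (Xb_ne_zero b) (Xb_ne_top b)).1 h4
  calc gf {Y | Y ∈ SA ∧ rev Y ∈ GT b η ∧ In (2 ^ (b + m)) Y}
      ≤ gf {Y | Y ∈ SA ∧ rev Y ∈ GT b η ∧ In (2 ^ (b + m)) Y ∧ Y ∈ (Set.univ : Set (List Bool))} :=
        gf_mono fun Y hY => ⟨hY.1, hY.2.1, hY.2.2, Set.mem_univ _⟩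
    _ ≤ 4 * gf (WL (b + (m + 3)) ∩ GT b η) := h1.trans (mul_le_mul_right h2 _)
    _ ≤ 4 * (ENNReal.ofReal (C * D ^ (m + 3) * Ub b) * Xb b) := mul_le_mul_right h5 _
    _ = _ := by
        rw [← mul_assoc, show (4 : ℝ≥0∞) = ENNReal.ofReal 4 by simp, ← ENNReal.ofReal_mul (by norm_num)]
        congr 2
        ring

/-- ends that start with a good tip, any parity -/
theorem ymassG : ∀ (η : ℝ) (m : ℕ), 0 < η → ∃ C : ℝ, 0 < C ∧ ∀ b : ℕ,
    gf {Y | Y ∈ SA ∧ rev Y ∈ GT b η ∧ In (2 ^ (b + m)) Y} ≤ ENNReal.ofReal (C * Ub b) * Xb b :=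
  fun η m hη => ymass' η m hη

/-- **G6** -/
theorem yMass : YMass := by
  intro η m hη
  obtain ⟨C, hC, h⟩ := ymass' η (m + 1) hη
  refine ⟨C, hC, fun b => ?_⟩
  have h1 : YS b η (2 ^ (b + m)) ⊆ {Y | Y ∈ SA ∧ rev Y ∈ GT (b - 1) η ∧ In (2 ^ (b - 1 + (m + 1))) Y} := by
    rintro Y ⟨a1, a2, -, a4⟩
    refine ⟨a1, ?_, fun i hi => ?_⟩
    · show η * Ub (b - 1) ≤ ((cs (b - 1) (rev Y)).card : ℝ)
      have h2 : η * Ub (b - 1) ≤ η * Ub b := mul_le_mul_of_nonneg_left (Ub_mono (by omega)) hη.le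
      have h3 : (cutN (2 ^ (b - 1)) (rev Y) : ℝ) ≤ ((cs (b - 1) (rev Y)).card : ℝ) := by exact_mod_cast cutN_le (b - 1) (rev Y)
      linarith
    · obtain ⟨h2, h3⟩ := a4 i hi
      have h4 : (2 : ℕ) ^ (b + m) ≤ 2 ^ (b - 1 + (m + 1)) := Nat.pow_le_pow_right (by norm_num) (by omega)
      have h5 : ((2 ^ (b + m) : ℕ) : ℤ) ≤ ((2 ^ (b - 1 + (m + 1)) : ℕ) : ℤ) := by exact_mod_cast h4
      exact ⟨h2.trans h5, h3.trans h5⟩
  refine (gf_mono h1).trans ((h (b - 1)).trans ?_)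
  exact mul_le_mul' (ENNReal.ofReal_le_ofReal (mul_le_mul_of_nonneg_left (Ub_mono (by omega)) hC.le))
    (Xb_mono (by omega))

end TIP

end HexObs
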