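import Pool.Agent.TIP.NgA

/-!
TIP, row N uniform in the scale b up to the macroscopic scale (helper84, doc nu34/SLOW_84, S9): literals.
-/

set_option autoImplicit false

namespace HexObs

namespace TIP

open Finset TS SDN SIM NTA

open scoped ENNReal

/-- the macroscopic scale k of the length n -/
def Sc (k n : ℕ) : Prop := PW.mZ (2 ^ k) ≤ n ∧ n < PW.mZ (2 ^ (k + 1))

/-- StrN with D up to the macroscopic scale -/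
def StrU : Prop := ∀ ε : ℝ, 0 < ε → ∃ (c C k0 d : ℕ) (A : ℝ) (LB : ℕ → Set (List Bool)), 0 < A ∧
  (∀ k l : ℕ, k0 ≤ k → gf {L | L ∈ LB k ∧ L.length = l} ≤ ENNReal.ofReal (A * (Ub k / PW.mZ (2 ^ k))) * Xb k) ∧
  ∀ k n : ℕ, k0 ≤ k → Sc k n → ∃ B : Set (List Bool), TOG.Pn n B ≤ ε ∧
    ∀ t ∈ SawN n, t ∉ B → t ∈ WL (k + C) ∧ ∃ X0 H H2 X1 : List Bool, t = X0 ++ (H ++ (H2 ++ X1)) ∧ H ∈ BU ∧ H2 ∈ BU ∧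
      2 ^ (k - c) ≤ hgt H ∧ 2 ^ (k - c) ≤ hgt H2 ∧ hgt H ≤ 2 ^ k ∧ hgt H2 ≤ 2 ^ k ∧
      (∀ A1 B1, A1 ∈ BU → B1 ∈ BU → H = A1 ++ B1 → X0 ++ A1 ∈ LB k) ∧
      ∀ D : ℕ, D * 2 ^ d ≤ 2 ^ k → ∀ i, i ≤ (X0 ++ (H ++ H2)).length → vx oo up t i ∉ Bl (tipv t) (4 * D)

/-- ExN with b and D up to the macroscopic scale -/
def ExU : Prop := ∀ η ε : ℝ, 0 < η → 0 < ε → ∃ (C : ℝ) (c0 k0 : ℕ), 0 < C ∧ ∀ k n b : ℕ, k0 ≤ k → Sc k n → b + c0 ≤ k →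
  ∃ B : Set (List Bool), TOG.Pn n B ≤ ε ∧ ∀ (ρ : List Bool → List Bool → Prop) (x : ℝ≥0∞) (q : ℝ) (D : ℕ),
    D * 2 ^ c0 ≤ 2 ^ k → LocR D ρ → (∀ A Y, ρ A Y → A ∈ GT b η) → (∀ A, gf {Y | ρ A Y ∧ In D Y} ≤ x) → 0 < q →
      ENNReal.ofReal (TOG.Pn n {t | t ∉ B ∧ q ≤ (nD D ρ t : ℝ)}) * (ENNReal.ofReal q * Xb b) ≤ ENNReal.ofReal C * x

/-- no good factor of the scale b in a macroscopic piece -/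
def LzU (κ : ℝ) (C : ℕ) : Prop := ∀ (ε : ℝ) (c0 : ℕ), 0 < ε → ∃ c1 b0 k0 : ℕ, ∀ k n b : ℕ, k0 ≤ k → Sc k n → b0 ≤ b →
  b + c1 ≤ k → TOG.Pn n (Lz κ C b (2 ^ (k - b - c0))) ≤ ε

/-- the walks are not small -/
def BigU : Prop := ∀ ε : ℝ, 0 < ε → ∃ c0 k0 : ℕ, ∀ k n : ℕ, k0 ≤ k → Sc k n → TOG.Pn n {t | In (2 ^ (k - c0)) t} ≤ ε

/-- **row N, uniform**, with a class Q of bad ends -/
def NEndQ : Prop := ∀ ε : ℝ, 0 < ε → ∃ (η κ e : ℝ) (j m b0 c0 k0 : ℕ), 0 < η ∧ 0 < κ ∧ 0 < e ∧ j ≤ b0 ∧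
  ∀ k n b : ℕ, k0 ≤ k → Sc k n → b0 ≤ b → b + c0 ≤ k → ∀ Q : Set (List Bool),
    gf {Y | Y ∈ SA ∧ rev Y ∈ GT b η ∧ In (2 ^ (b + m)) Y ∧ Y ∈ Q} ≤ ENNReal.ofReal (e * Ub b) * Xb b →
      TOG.Pn n {t | ({Y | Y ∈ NCa b (b - j) (2 ^ (b + m)) η t ∧ Y ∉ Q}.ncard : ℝ) < κ * Ub b} ≤ ε

end TIP

end HexObs
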