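import Pool.Agent.TIP.DefsN
import Pool.Agent.SDN.TubeMass

/-!
TIP, row Ne (words): the cuts of a product of two bridges, the last local bridge with many cuts, good tips on both sides of
a cut. Words end at the tip.
-/

set_option autoImplicit false

namespace HexObs

namespace TIP

open Finset TS SDN SIM NTA

open scoped ENNReal

/-- the rest of a bridge behind a cut -/
lemma ne_suf {s t N : List Bool} (hs : s ∈ BU) (hst : s ++ t ∈ BU) (htN : t ++ N ∈ BU) : t ∈ BU := by
  obtain ⟨T, hT⟩ := hst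
  obtain ⟨S, hS⟩ := htN
  have g1 := mem_Brd.1 (BU_hgt hs)
  have g2 := mem_Brd.1 hS
  refine ⟨_, (Brd_cancel (BU_hgt hs) hT fun j hj hl => ?_).2⟩
  rw [lev_cat g1.2.2.1, g1.2.2.2]
  have := (g2.1 j hj (by rw [List.length_append]; omega)).1
  rw [lev_append (by omega)] at this
  omega

/-- the beginning of a bridge in front of a cut -/
lemma ne_pre {s t M : List Bool} (ht : t ∈ BU) (hst : s ++ t ∈ BU) (hMs : M ++ s ∈ BU) : s ∈ BU := by
  refine rev_BU (ne_suf (s := rev t) (t := rev s) (N := rev M) (BU_rev ht) ?_ ?_)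
  · rw [← TD.rev_append']
    exact BU_rev hst
  · rw [← TD.rev_append']
    exact BU_rev hMs

open Classical in
lemma mem_nc {Z : List Bool} {j : ℕ} : j ∈ ((range (Z.length + 1)).filter fun j => Z.take j ∈ BU ∧ Z.drop j ∈ BU) ↔
    j ≤ Z.length ∧ Z.take j ∈ BU ∧ Z.drop j ∈ BU := by
  rw [mem_filter, mem_range]
  constructor
  · rintro ⟨h1, h2⟩
    exact ⟨by omega, h2⟩
  · rintro ⟨h1, h2⟩
    exact ⟨by omega, h2⟩

/-- the cuts of a product: the first factor -/
lemma cut_left {M N : List Bool} (hM : M ∈ BU) (hN : N ∈ BU) {j : ℕ} (hj : j ≤ M.length) :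
    ((M ++ N).take j ∈ BU ∧ (M ++ N).drop j ∈ BU) ↔ (M.take j ∈ BU ∧ M.drop j ∈ BU) := by
  rw [List.take_append_of_le_length hj, List.drop_append_of_le_length hj]
  constructor
  · rintro ⟨h1, h2⟩
    exact ⟨h1, ne_suf h1 (by rwa [List.take_append_drop]) h2⟩
  · rintro ⟨h1, h2⟩
    exact ⟨h1, BU_app h2 hN⟩

/-- the cuts of a product: the second factor -/
lemma cut_right {M N : List Bool} (hM : M ∈ BU) (hN : N ∈ BU) (i : ℕ) :
    ((M ++ N).take (M.length + i) ∈ BU ∧ (M ++ N).drop (M.length + i) ∈ BU) ↔ (N.take i ∈ BU ∧ N.drop i ∈ BU) := by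
  have e1 : (M ++ N).take (M.length + i) = M ++ N.take i := by
    rw [List.take_append, List.take_of_length_le (by omega)]
    congr 2
    omega
  have e2 : (M ++ N).drop (M.length + i) = N.drop i := by
    rw [List.drop_append, List.drop_of_length_le (by omega), List.nil_append]
    congr 1
    omega
  rw [e1, e2]
  constructor
  · rintro ⟨h1, h2⟩
    exact ⟨ne_pre h2 (by rwa [List.take_append_drop]) h1, h2⟩
  · rintro ⟨h1, h2⟩
    exact ⟨BU_app hM h1, h2⟩

open Classical in
/-- **the number of the cuts of a product** -/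
theorem nc_app {M N : List Bool} (hM : M ∈ BU) (hN : N ∈ BU) : nc (M ++ N) + 1 = nc M + nc N := by
  unfold nc
  set S := (range ((M ++ N).length + 1)).filter fun j => (M ++ N).take j ∈ BU ∧ (M ++ N).drop j ∈ BU with hS
  set A := (range (M.length + 1)).filter fun j => M.take j ∈ BU ∧ M.drop j ∈ BU with hA
  set B := (range (N.length + 1)).filter fun j => N.take j ∈ BU ∧ N.drop j ∈ BU with hB
  have h1 : S = A ∪ B.image (fun i => M.length + i) := by
    ext j
    rw [mem_union, mem_image, hS, mem_nc, hA, mem_nc]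
    constructor
    · rintro ⟨h1, h2⟩
      rcases le_total j M.length with h | h
      · exact Or.inl ⟨h, (cut_left hM hN h).1 h2⟩
      · obtain ⟨i, rfl⟩ := Nat.exists_eq_add_of_le h
        rw [List.length_append] at h1
        refine Or.inr ⟨i, ?_, rfl⟩
        rw [hB, mem_nc]
        exact ⟨by omega, (cut_right hM hN i).1 h2⟩
    · rintro (⟨h1, h2⟩ | ⟨i, hi, rfl⟩)
      · exact ⟨by rw [List.length_append]; omega, (cut_left hM hN h1).2 h2⟩
      · rw [hB, mem_nc] at hi
        exact ⟨by rw [List.length_append]; omega, (cut_right hM hN i).2 hi.2⟩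
  have h2 : A ∩ B.image (fun i => M.length + i) = {M.length} := by
    ext j
    rw [mem_inter, mem_image, mem_singleton]
    constructor
    · rintro ⟨h1, i, -, rfl⟩
      rw [hA, mem_nc] at h1
      omega
    · rintro rfl
      refine ⟨?_, 0, ?_, rfl⟩
      · rw [hA, mem_nc]
        refine ⟨le_rfl, ?_, ?_⟩
        · rwa [List.take_length]
        · rw [List.drop_length]
          exact nil_BU
      · rw [hB, mem_nc]
        exact ⟨Nat.zero_le _, by rw [List.take_zero]; exact nil_BU, by rwa [List.drop_zero]⟩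
  have h3 := card_union_add_card_inter A (B.image fun i => M.length + i)
  rw [h2, card_singleton, ← h1, card_image_of_injective _ (fun a b h => Nat.add_left_cancel h)] at h3
  exact h3

open Classical in
/-- a bridge has a cut -/
lemma nc_pos {Z : List Bool} (hZ : Z ∈ BU) : 1 ≤ nc Z := by
  unfold nc
  refine card_pos.2 ⟨0, mem_nc.2 ⟨Nat.zero_le _, ?_, ?_⟩⟩
  · rw [List.take_zero]
    exact nil_BU
  · rwa [List.drop_zero]

open Classical in
/-- the cuts up to a cut -/
lemma nc_take {Z : List Bool} {j : ℕ} (hj : j ≤ Z.length) (h1 : Z.take j ∈ BU) (h2 : Z.drop j ∈ BU) :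
    nc (Z.take j) = (((range (Z.length + 1)).filter fun i => Z.take i ∈ BU ∧ Z.drop i ∈ BU).filter (fun i => i ≤ j)).card := by
  unfold nc
  congr 1
  ext i
  have hl : (Z.take j).length = j := by
    rw [List.length_take]
    omega
  rw [mem_nc, mem_filter, mem_nc, hl]
  constructor
  · rintro ⟨g1, g2⟩
    have := (cut_left h1 h2 (j := i) (by omega)).2 g2
    rw [List.take_append_drop] at this
    exact ⟨⟨by omega, this⟩, g1⟩
  · rintro ⟨⟨g1, g2⟩, g3⟩
    refine ⟨g3, (cut_left h1 h2 (j := i) (by omega)).1 ?_⟩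
    rwa [List.take_append_drop]

open Classical in
/-- **every number of cuts occurs** -/
theorem nc_split {Z : List Bool} (_hZ : Z ∈ BU) {i : ℕ} (h1 : 1 ≤ i) (h2 : i ≤ nc Z) :
    ∃ M N, M ∈ BU ∧ N ∈ BU ∧ Z = M ++ N ∧ nc M = i ∧ nc M + nc N = nc Z + 1 := by
  obtain ⟨S, hS⟩ : ∃ S, S = (range (Z.length + 1)).filter fun i => Z.take i ∈ BU ∧ Z.drop i ∈ BU := ⟨_, rfl⟩
  have hc : S.card = nc Z := by rw [hS]; rfl
  have hex : ∃ j, i ≤ (S.filter fun k => k ≤ j).card := by
    refine ⟨Z.length, ?_⟩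
    rw [filter_true_of_mem, hc]
    · exact h2
    · intro k hk
      rw [hS, mem_nc] at hk
      exact hk.1
  obtain ⟨j, hj, hmin⟩ : ∃ j, i ≤ (S.filter fun k => k ≤ j).card ∧ ∀ k, k < j → (S.filter fun l => l ≤ k).card < i :=
    ⟨Nat.find hex, Nat.find_spec hex, fun k hk => not_le.1 (Nat.find_min hex hk)⟩
  -- j is a cut and the number of the cuts up to j is i
  have hjS : j ∈ S ∧ (S.filter fun k => k ≤ j).card = i := by
    rcases Nat.eq_zero_or_pos j with h0 | h0
    · subst h0
      have h3 : (S.filter fun k => k ≤ 0).card ≤ 1 := by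
        rw [card_le_one]
        intro a ha b hb
        rw [mem_filter] at ha hb
        omega
      have h4 : (S.filter fun k => k ≤ 0).card = 1 := by omega
      obtain ⟨a, ha⟩ := card_eq_one.1 h4
      have h5 : a ∈ S.filter fun k => k ≤ 0 := by rw [ha]; exact mem_singleton_self a
      rw [mem_filter] at h5
      refine ⟨?_, by omega⟩
      have : a = 0 := by omega
      rw [← this]
      exact h5.1
    · have h3 := hmin (j - 1) (by omega)
      by_cases hjS : j ∈ S
      · refine ⟨hjS, ?_⟩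
        have h4 : S.filter (fun k => k ≤ j) = insert j (S.filter fun k => k ≤ j - 1) := by
          ext k
          rw [mem_filter, mem_insert, mem_filter]
          constructor
          · rintro ⟨a1, a2⟩
            by_cases h : k = j
            · exact Or.inl h
            · exact Or.inr ⟨a1, by omega⟩
          · rintro (rfl | ⟨a1, a2⟩)
            · exact ⟨hjS, le_rfl⟩
            · exact ⟨a1, by omega⟩
        have h5 : j ∉ S.filter fun k => k ≤ j - 1 := by
          rw [mem_filter]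
          omega
        rw [h4, card_insert_of_notMem h5] at hj ⊢
        omega
      · exfalso
        have h4 : S.filter (fun k => k ≤ j) = S.filter fun k => k ≤ j - 1 := by
          ext k
          rw [mem_filter, mem_filter]
          constructor
          · rintro ⟨a1, a2⟩
            refine ⟨a1, ?_⟩
            have : k ≠ j := fun h => hjS (h ▸ a1)
            omega
          · rintro ⟨a1, a2⟩
            exact ⟨a1, by omega⟩
        rw [h4] at hj
        omega
  obtain ⟨hj1, hj2⟩ := hjS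
  have hj3 := hj1
  rw [hS, mem_nc] at hj3
  obtain ⟨g1, g2, g3⟩ := hj3
  have e := nc_app g2 g3
  rw [List.take_append_drop] at e
  refine ⟨Z.take j, Z.drop j, g2, g3, (List.take_append_drop j Z).symm, ?_, e.symm⟩
  rw [nc_take g1 g2 g3, ← hS]
  exact hj2

open Classical in
/-- the cuts of the reversed bridge -/
lemma nc_rev_le (Z : List Bool) : nc (rev Z) ≤ nc Z := by
  unfold nc
  refine card_le_card_of_injOn (fun j => Z.length - j) (fun j hj => ?_) fun a ha b hb hab => ?_
  · have hj' := mem_nc.1 (mem_coe.1 hj)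
    rw [mem_coe, mem_nc]
    obtain ⟨h1, h2, h3⟩ := hj'
    rw [rev_length] at h1
    have e1 : (rev Z).take j = rev (Z.drop (Z.length - j)) := by
      unfold rev
      rw [List.take_reverse, List.length_map, List.map_drop]
    have e2 : (rev Z).drop j = rev (Z.take (Z.length - j)) := by
      unfold rev
      rw [List.drop_reverse, List.length_map, List.map_take]
    rw [e1] at h2
    rw [e2] at h3
    exact ⟨Nat.sub_le _ _, rev_BU h3, rev_BU h2⟩
  · have ha' := (mem_nc.1 (mem_coe.1 ha)).1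
    have hb' := (mem_nc.1 (mem_coe.1 hb)).1
    rw [rev_length] at ha' hb'
    have : Z.length - a = Z.length - b := hab
    omega

lemma nc_rev (Z : List Bool) : nc (rev Z) = nc Z := by
  refine le_antisymm (nc_rev_le Z) ?_
  have := nc_rev_le (rev Z)
  rwa [rev_rev] at this

/-- **the last local bridge with many cuts** -/
theorem ne_last {κ : ℝ} {C b : ℕ} {t : List Bool} (h : t ∉ Nz κ C b) :
    ∃ X Z Y, t = X ++ (Z ++ Y) ∧ Y ≠ [] ∧ Z ∈ Zc κ C b ∧ Y ∈ Nz κ C b := by
  obtain ⟨n, hn⟩ : ∃ n, n = t.length := ⟨_, rfl⟩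
  have key : ∀ n : ℕ, ∀ X Z Y : List Bool, Y.length ≤ n → t = X ++ (Z ++ Y) → Y ≠ [] → Z ∈ Zc κ C b →
      ∃ X Z Y, t = X ++ (Z ++ Y) ∧ Y ≠ [] ∧ Z ∈ Zc κ C b ∧ Y ∈ Nz κ C b := by
    intro n
    induction n with
    | zero =>
      intro X Z Y h1 h2 h3 h4
      exact absurd (List.length_eq_zero_iff.1 (Nat.le_zero.1 h1)) h3
    | succ n ih =>
      intro X Z Y h1 h2 h3 h4
      by_cases hY : Y ∈ Nz κ C b
      · exact ⟨X, Z, Y, h2, h3, h4, hY⟩
      · have h5 : ¬ ∀ X' Z' Y', Y = X' ++ (Z' ++ Y') → Y' ≠ [] → Z' ∉ Zc κ C b := hY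
        push Not at h5
        obtain ⟨X', Z', Y', g1, g2, g3⟩ := h5
        have hZ' : 1 ≤ Z'.length := by
          obtain ⟨Z1, Z2, Z3, c1, c2, -, -, c3, -⟩ := g3
          rw [c1]
          rcases Nat.eq_zero_or_pos Z1.length with h0 | h0
          · rw [List.length_eq_zero_iff.1 h0, hgt_nil] at c3
            have : 1 ≤ 2 ^ (b + 1) := Nat.one_le_two_pow
            omega
          · rw [List.length_append]
            omega
        refine ih (X ++ (Z ++ X')) Z' Y' ?_ ?_ g2 g3
        · rw [g1] at h1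
          simp only [List.length_append] at h1
          omega
        · rw [h2, g1]
          simp only [List.append_assoc]
  have h5 : ¬ ∀ X Z Y, t = X ++ (Z ++ Y) → Y ≠ [] → Z ∉ Zc κ C b := h
  push Not at h5
  obtain ⟨X, Z, Y, g1, g2, g3⟩ := h5
  exact key Y.length X Z Y le_rfl g1 g2 g3

open Classical in
/-- **a good tip in front of a cut** -/
theorem ne_A {η : ℝ} {b : ℕ} {X Z1 M : List Bool} (hZ1 : Z1 ∈ BU) (hh : 2 ^ (b + 1) ≤ hgt Z1) (_hM : M ∈ BU)
    (hMh : hgt M ≤ 2 ^ b) (hc : η * Ub b ≤ (nc M : ℝ)) : X ++ (Z1 ++ M) ∈ GT b η := by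
  show η * Ub b ≤ ((cs b (X ++ (Z1 ++ M))).card : ℝ)
  refine hc.trans ?_
  norm_cast
  unfold nc
  refine card_le_card_of_injOn (fun j => (X ++ Z1).length + j) (fun j hj => ?_) fun a _ b _ h => Nat.add_left_cancel h
  have hj' := mem_nc.1 (mem_coe.1 hj)
  obtain ⟨h1, h2, h3⟩ := hj'
  have e1 : (X ++ (Z1 ++ M)).take ((X ++ Z1).length + j) = X ++ (Z1 ++ M.take j) := by
    rw [← List.append_assoc, List.take_append, List.take_of_length_le (by omega), List.append_assoc]
    congr 3
    omega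
  have e2 : (X ++ (Z1 ++ M)).drop ((X ++ Z1).length + j) = M.drop j := by
    rw [← List.append_assoc, List.drop_append, List.drop_of_length_le (by omega), List.nil_append]
    congr 1
    omega
  have h4 : hgt (M.drop j) ≤ hgt M := by
    have := hgt_app h2 h3
    rw [List.take_append_drop] at this
    omega
  have hb : (2 : ℕ) ^ b ≤ 2 ^ (b + 1) := Nat.pow_le_pow_right (by norm_num) (by omega)
  rw [mem_coe]
  unfold cs
  rw [mem_filter, mem_range]
  refine ⟨?_, ?_, ?_, ?_⟩
  · simp only [List.length_append]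
    omega
  · rw [e2]
    exact h3
  · rw [e2]
    exact h4.trans hMh
  · rw [e1]
    refine ⟨X, Z1 ++ M.take j, rfl, BU_app hZ1 h2, ?_⟩
    rw [hgt_app hZ1 h2]
    omega

/-- **a good tip behind a cut** -/
theorem ne_B {η : ℝ} {b : ℕ} {N Z3 Y : List Bool} (hN : N ∈ BU) (hNh : hgt N ≤ 2 ^ b) (hZ3 : Z3 ∈ BU)
    (hh : 2 ^ (b + 1) ≤ hgt Z3) (hc : η * Ub b ≤ (nc N : ℝ)) : rev (N ++ (Z3 ++ Y)) ∈ GT b η := by
  rw [TD.rev_append', TD.rev_append', List.append_assoc]
  refine ne_A (BU_rev hZ3) ?_ (BU_rev hN) ?_ ?_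
  · rwa [hgt_eq (Brd_rev (BU_hgt hZ3))]
  · rwa [hgt_eq (Brd_rev (BU_hgt hN))]
  · rwa [nc_rev]

/-- both tips of a cut in the middle part of a bridge of the class Zc -/
theorem ne_cut {η : ℝ} {b : ℕ} {X Z1 M N Z3 Y : List Bool} (hZ1 : Z1 ∈ BU) (h1 : 2 ^ (b + 1) ≤ hgt Z1) (hM : M ∈ BU)
    (hN : N ∈ BU) (hMN : hgt (M ++ N) ≤ 2 ^ b) (hZ3 : Z3 ∈ BU) (h3 : 2 ^ (b + 1) ≤ hgt Z3) (cM : η * Ub b ≤ (nc M : ℝ))
    (cN : η * Ub b ≤ (nc N : ℝ)) : X ++ (Z1 ++ M) ∈ GT b η ∧ rev (N ++ (Z3 ++ Y)) ∈ GT b η := by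
  have h := hgt_app hM hN
  exact ⟨ne_A hZ1 h1 hM (by omega) cM, ne_B hN (by omega) hZ3 h3 cN⟩

end TIP

end HexObs
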