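import Pool.Agent.TIP.DefsG

/-!
TIP, row Nf, numbers: no walk with n letters stays in a box of the size n ^ (1 / 10).
-/

set_option autoImplicit false

namespace HexObs

namespace TIP

open Finset TS SDN SIM NTA

open scoped ENNReal

/-- a walk with n letters in a box of radius D: n < 9 D ^ 2 -/
lemma in_card {n D : ℕ} {t : List Bool} (ht : t ∈ SawN n) (h : In D t) : n + 1 ≤ (2 * D + 1) ^ 2 := by
  classical
  obtain ⟨hl, hs⟩ := ht
  have h1 : ((Finset.range (n + 1)).image fun i => vx oo up t i) ⊆ bl oo D := by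
    intro z hz
    obtain ⟨i, hi, rfl⟩ := Finset.mem_image.1 hz
    rw [Finset.mem_range] at hi
    exact mem_bl.2 (h i (by omega))
  have h2 : ((Finset.range (n + 1)).image fun i => vx oo up t i).card = n + 1 := by
    rw [Finset.card_image_of_injOn, Finset.card_range]
    intro i hi j hj hij
    rw [Finset.coe_range, Set.mem_Iio] at hi hj
    rcases lt_trichotomy i j with h3 | h3 | h3
    · exact absurd hij (hs.inj i j h3 (by omega))
    · exact h3
    · exact absurd hij.symm (hs.inj j i h3 (by omega))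
  have h3 := Finset.card_le_card h1
  rw [h2] at h3
  refine h3.trans (le_of_eq ?_)
  unfold bl
  rw [Finset.card_product, Int.card_Icc, Int.card_Icc]
  have e1 : (oo.1 + (D : ℤ) + 1 - (oo.1 - (D : ℤ))).toNat = 2 * D + 1 := by omega
  have e2 : (oo.2 + (D : ℤ) + 1 - (oo.2 - (D : ℤ))).toNat = 2 * D + 1 := by omega
  rw [e1, e2, pow_two]

/-- **numbers for Nf** -/
theorem big_n (b a : ℕ) : ∃ n0 : ℕ, ∀ n, n0 ≤ n → ∃ m : ℕ, (a : ℝ) * Real.log n ≤ m ∧
    ((64 * m * 2 ^ b : ℕ) : ℝ) ^ 10 ≤ n ∧ ∀ t ∈ SawN n, ¬ In (m * 2 ^ b) t := by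
  obtain ⟨K, hK⟩ : ∃ K : ℝ, K = 64 * (a + 2) * 2 ^ b := ⟨_, rfl⟩
  have hK0 : 0 < K := by rw [hK]; positivity
  have h1 := (Real.isLittleO_pow_log_id_atTop (n := 10)).def (show (0 : ℝ) < 1 / K ^ 10 by positivity)
  have h2 : ∀ᶠ x : ℝ in Filter.atTop, K ^ 10 * Real.log x ^ 10 ≤ x ∧ 1 ≤ Real.log x := by
    filter_upwards [h1, Filter.eventually_gt_atTop 0, Real.tendsto_log_atTop.eventually_ge_atTop 1] with x h3 h4 h5
    refine ⟨?_, h5⟩
    rw [Real.norm_eq_abs, Real.norm_eq_abs, abs_of_nonneg (by positivity), id, abs_of_pos h4] at h3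
    calc K ^ 10 * Real.log x ^ 10 ≤ K ^ 10 * (1 / K ^ 10 * x) := mul_le_mul_of_nonneg_left h3 (by positivity)
      _ = x := by field_simp
  obtain ⟨X, hX⟩ := Filter.eventually_atTop.1 h2
  refine ⟨⌈X⌉₊ + 1, fun n hn => ?_⟩
  have hnX : X ≤ n := (Nat.le_ceil X).trans (by exact_mod_cast (show ⌈X⌉₊ ≤ n by omega))
  obtain ⟨h3, h4⟩ := hX n hnX
  refine ⟨⌈(a : ℝ) * Real.log n⌉₊ + 1, ?_, ?_, ?_⟩
  · push_cast
    linarith [Nat.le_ceil ((a : ℝ) * Real.log n)]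
  · refine le_trans ?_ h3
    rw [← mul_pow]
    refine pow_le_pow_left₀ (Nat.cast_nonneg _) ?_ 10
    push_cast
    have h5 : ((⌈(a : ℝ) * Real.log n⌉₊ : ℕ) : ℝ) < a * Real.log n + 1 := Nat.ceil_lt_add_one (by positivity)
    rw [hK]
    have h6 : (⌈(a : ℝ) * Real.log n⌉₊ : ℝ) + 1 ≤ (a + 2) * Real.log n := by linarith
    calc 64 * ((⌈(a : ℝ) * Real.log n⌉₊ : ℝ) + 1) * 2 ^ b ≤ 64 * ((a + 2) * Real.log n) * 2 ^ b := by gcongr
      _ = _ := by ring
  · intro t ht h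
    have h5 := in_card ht h
    obtain ⟨D, hD⟩ : ∃ D, D = (⌈(a : ℝ) * Real.log n⌉₊ + 1) * 2 ^ b := ⟨_, rfl⟩
    rw [← hD] at h5
    have hD1 : 1 ≤ D := by
      rw [hD]
      exact Nat.mul_pos (by omega) (by positivity)
    have h6 : ((64 * D : ℕ) : ℝ) ^ 10 ≤ n := by
      refine le_trans ?_ h3
      rw [← mul_pow]
      refine pow_le_pow_left₀ (Nat.cast_nonneg _) ?_ 10
      rw [hD]
      push_cast
      have h5 : ((⌈(a : ℝ) * Real.log n⌉₊ : ℕ) : ℝ) < a * Real.log n + 1 := Nat.ceil_lt_add_one (by positivity)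
      rw [hK]
      have h6 : (⌈(a : ℝ) * Real.log n⌉₊ : ℝ) + 1 ≤ (a + 2) * Real.log n := by linarith
      calc 64 * (((⌈(a : ℝ) * Real.log n⌉₊ : ℝ) + 1) * 2 ^ b) ≤ 64 * (((a + 2) * Real.log n) * 2 ^ b) := by gcongr
        _ = _ := by ring
    have h7 : (64 * D) ^ 10 ≤ n := by exact_mod_cast h6
    have h8 : (64 * D) ^ 2 ≤ (64 * D) ^ 10 := Nat.pow_le_pow_right (by omega) (by norm_num)
    nlinarith

end TIP

end HexObs
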