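import Mathlib

/-!
TIP (quasi-multiplicativity at the end point): the iteration of the recursion over the scales, abstract form.
-/

set_option autoImplicit false

namespace HexObs

namespace TIP

open scoped ENNReal

namespace It

/-- the bound of the deep stages -/
noncomputable def AA (C η : ℝ) (M i : ℕ) : ℝ := 2 * C ^ (M * (i + 1) + 1) * 8 ^ i / η

lemma AA_nonneg {C η : ℝ} (hC : 1 ≤ C) (hη : 0 < η) (M i : ℕ) : 0 ≤ AA C η M i := by
  have : 0 < C := by linarith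
  unfold AA
  positivity

/-- one step at the deep stages -/
lemma step_num {C lam η : ℝ} (hC : 1 ≤ C) (hlam : 0 < lam) (hη : 0 < η) {M i : ℕ} (hM : (16 : ℝ) ≤ lam ^ M)
    (hi : 2 * C ^ (M + 1) / η ≤ 2 ^ i) :
    C / (η / 8 ^ i * lam ^ (M * (i + 1))) * AA C η M (i + 1) + C ^ (M * (i + 1)) / (η / 8 ^ i) ≤ AA C η M i := by
  have hC0 : 0 < C := by linarith
  have h1 : (16 : ℝ) ^ (i + 1) ≤ lam ^ (M * (i + 1)) := by
    rw [pow_mul]
    exact pow_le_pow_left₀ (by norm_num) hM _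
  have hl : 0 < lam ^ (M * (i + 1)) := by positivity
  have e1 : C / (η / 8 ^ i * lam ^ (M * (i + 1))) * AA C η M (i + 1) =
      AA C η M i * (8 * 8 ^ i * C ^ (M + 1) / (η * lam ^ (M * (i + 1)))) := by
    unfold AA
    rw [show M * (i + 1 + 1) + 1 = (M * (i + 1) + 1) + M by ring, pow_add C (M * (i + 1) + 1) M, pow_succ 8 i, pow_succ C M]
    field_simp
  have e2 : 8 * 8 ^ i * C ^ (M + 1) / (η * lam ^ (M * (i + 1))) ≤ 1 / 2 := by
    rw [div_le_div_iff₀ (by positivity) (by norm_num)]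
    rw [div_le_iff₀ hη] at hi
    have e3 : (16 : ℝ) ^ (i + 1) = 16 * (2 ^ i * 8 ^ i) := by
      rw [pow_succ, ← mul_pow]
      norm_num
      ring
    calc 8 * 8 ^ i * C ^ (M + 1) * 2 = 8 * 8 ^ i * (2 * C ^ (M + 1)) := by ring
      _ ≤ 8 * 8 ^ i * (2 ^ i * η) := by gcongr
      _ ≤ η * (16 * (2 ^ i * 8 ^ i)) := by
          have : 0 ≤ η * (2 ^ i * 8 ^ i) := by positivity
          nlinarith
      _ = η * 16 ^ (i + 1) := by rw [e3]
      _ ≤ η * lam ^ (M * (i + 1)) := by gcongr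
      _ = _ := by ring
  have e4 : C ^ (M * (i + 1)) / (η / 8 ^ i) ≤ AA C η M i / 2 := by
    unfold AA
    rw [div_div_eq_mul_div]
    have : C ^ (M * (i + 1)) ≤ C ^ (M * (i + 1) + 1) := pow_le_pow_right₀ hC (by omega)
    calc C ^ (M * (i + 1)) * 8 ^ i / η ≤ C ^ (M * (i + 1) + 1) * 8 ^ i / η := by gcongr
      _ = _ := by ring
  have e5 := AA_nonneg hC hη M i
  rw [e1]
  nlinarith

end It

open It in
/-- **the iteration**: a recursion over the scales with the factor `C / (η lam ^ j)` for every `j`, the cost `C ^ j / η`,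
the parameter `η` divided by 8 at every step, and a trivial bound `C ^ (b + 1)`, gives a bound that does not depend on the
scale -/
theorem iter {C lam : ℝ} (hC : 1 ≤ C) (hlam : 1 < lam) (B : ℕ) {η : ℝ} (hη : 0 < η) (hη1 : η ≤ 1) :
    ∃ A : ℝ, 0 ≤ A ∧ ∀ (u : ℕ → ℝ) (D : ℕ → ℝ → ℝ≥0∞), (∀ b n : ℕ, B * n ≤ b → (8 : ℝ) ^ n ≤ u b) →
    (∀ (b : ℕ) (η' : ℝ), 0 < η' → D b η' ≤ ENNReal.ofReal (C ^ (b + 1))) →
    (∀ (b : ℕ) (η' : ℝ) (j : ℕ), 0 < η' → η' ≤ 1 → 8 ≤ η' * u b → 1 ≤ j → j ≤ b →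
      D b η' ≤ ENNReal.ofReal (C / (η' * lam ^ j)) * D (b - 1) (η' / 8) + ENNReal.ofReal (C ^ j / η')) →
    ∀ b : ℕ, D b η ≤ ENNReal.ofReal A := by
  have hC0 : 0 < C := by linarith
  have hlam0 : 0 < lam := by linarith
  obtain ⟨M1, hM1⟩ : ∃ M1 : ℕ, (16 : ℝ) < lam ^ M1 := pow_unbounded_of_one_lt _ hlam
  obtain ⟨M, hM⟩ : ∃ M : ℕ, M = M1 + 2 * B + 1 := ⟨_, rfl⟩
  have hM16 : (16 : ℝ) ≤ lam ^ M := hM1.le.trans (pow_le_pow_right₀ hlam.le (by omega))
  obtain ⟨q, hq⟩ : ∃ q : ℕ, 1 / η < 8 ^ q := pow_unbounded_of_one_lt _ (by norm_num)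
  obtain ⟨i1, hi1⟩ : ∃ i1 : ℕ, 2 * C ^ (M + 1) / η < 2 ^ i1 := pow_unbounded_of_one_lt _ one_lt_two
  obtain ⟨i0, hi0⟩ : ∃ i0 : ℕ, i0 = i1 + q := ⟨_, rfl⟩
  have hηi : ∀ i : ℕ, 0 < η / 8 ^ i := fun i => by positivity
  have hηi1 : ∀ i : ℕ, η / 8 ^ i ≤ 1 := fun i => by
    rw [div_le_one (by positivity)]
    exact hη1.trans (one_le_pow₀ (by norm_num))
  have hη8 : ∀ i : ℕ, η / 8 ^ i / 8 = η / 8 ^ (i + 1) := fun i => by
    rw [pow_succ, div_div]
  -- small scales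
  have htiny : ∀ (u : ℕ → ℝ), (∀ b n : ℕ, B * n ≤ b → (8 : ℝ) ^ n ≤ u b) → ∀ b i : ℕ, ¬ (8 ≤ η / 8 ^ i * u b) →
      b < B * (1 + i + q) := by
    intro u hu b i h
    by_contra hcon
    rw [not_lt] at hcon
    refine h ?_
    have h1 := hu b _ hcon
    rw [div_lt_iff₀ hη] at hq
    calc (8 : ℝ) ≤ 8 * (8 ^ q * η) := by linarith
      _ = η / 8 ^ i * 8 ^ (1 + i + q) := by
          rw [pow_add, pow_add, pow_one]
          field_simp
      _ ≤ η / 8 ^ i * u b := mul_le_mul_of_nonneg_left h1 (hηi i).le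
  -- the deep stages
  have hdeep : ∀ (u : ℕ → ℝ) (D : ℕ → ℝ → ℝ≥0∞), (∀ b n : ℕ, B * n ≤ b → (8 : ℝ) ^ n ≤ u b) →
      (∀ (b : ℕ) (η' : ℝ), 0 < η' → D b η' ≤ ENNReal.ofReal (C ^ (b + 1))) →
      (∀ (b : ℕ) (η' : ℝ) (j : ℕ), 0 < η' → η' ≤ 1 → 8 ≤ η' * u b → 1 ≤ j → j ≤ b →
        D b η' ≤ ENNReal.ofReal (C / (η' * lam ^ j)) * D (b - 1) (η' / 8) + ENNReal.ofReal (C ^ j / η')) →
      ∀ (b n i : ℕ), b + 1 ≤ i + n → i0 ≤ i → D (b - i) (η / 8 ^ i) ≤ ENNReal.ofReal (AA C η M i) := by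
    intro u D hu htriv hstep b n
    have hfirst : ∀ i : ℕ, b - i ≤ M * (i + 1) → D (b - i) (η / 8 ^ i) ≤ ENNReal.ofReal (AA C η M i) := by
      intro i hi
      refine (htriv _ _ (hηi i)).trans (ENNReal.ofReal_le_ofReal ?_)
      have h1 : C ^ (b - i + 1) ≤ C ^ (M * (i + 1) + 1) := pow_le_pow_right₀ hC (by omega)
      have h2 : (1 : ℝ) ≤ 8 ^ i := one_le_pow₀ (by norm_num)
      have h3 : 1 ≤ 1 / η := by rwa [le_div_iff₀ hη, one_mul]
      have h4 : 0 < C ^ (M * (i + 1) + 1) := by positivity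
      unfold AA
      calc C ^ (b - i + 1) ≤ C ^ (M * (i + 1) + 1) := h1
        _ ≤ 2 * C ^ (M * (i + 1) + 1) * 1 * 1 := by linarith
        _ ≤ 2 * C ^ (M * (i + 1) + 1) * 8 ^ i * (1 / η) := by gcongr
        _ = _ := by ring
    induction n with
    | zero =>
      intro i hi _
      exact hfirst i (by omega)
    | succ n ih =>
      intro i hi hii
      by_cases hb : b - i ≤ M * (i + 1)
      · exact hfirst i hb
      rw [not_le] at hb
      by_cases h8 : 8 ≤ η / 8 ^ i * u (b - i)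
      · have h1 := hstep (b - i) (η / 8 ^ i) (M * (i + 1)) (hηi i) (hηi1 i) h8
          (Nat.mul_pos (by omega) (by omega)) hb.le
        have h2 := ih (i + 1) (by omega) (by omega)
        rw [hη8, show b - i - 1 = b - (i + 1) by omega] at h1
        refine h1.trans ?_
        calc ENNReal.ofReal (C / (η / 8 ^ i * lam ^ (M * (i + 1)))) * D (b - (i + 1)) (η / 8 ^ (i + 1)) +
              ENNReal.ofReal (C ^ (M * (i + 1)) / (η / 8 ^ i)) ≤
              ENNReal.ofReal (C / (η / 8 ^ i * lam ^ (M * (i + 1)))) * ENNReal.ofReal (AA C η M (i + 1)) +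
              ENNReal.ofReal (C ^ (M * (i + 1)) / (η / 8 ^ i)) := by gcongr
          _ = ENNReal.ofReal (C / (η / 8 ^ i * lam ^ (M * (i + 1))) * AA C η M (i + 1) +
              C ^ (M * (i + 1)) / (η / 8 ^ i)) := by
              have h3 := AA_nonneg hC hη M (i + 1)
              rw [← ENNReal.ofReal_mul (by positivity), ← ENNReal.ofReal_add (by positivity) (by positivity)]
          _ ≤ _ := ENNReal.ofReal_le_ofReal (step_num hC hlam0 hη hM16 (hi1.le.trans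
              (pow_le_pow_right₀ (by norm_num) (by omega))))
      · have h1 := htiny u hu (b - i) i h8
        refine hfirst i ?_
        have h2 : B * (1 + i + q) ≤ B * (2 * (i + 1)) := Nat.mul_le_mul_left _ (by omega)
        have h3 : B * (2 * (i + 1)) = 2 * B * (i + 1) := by ring
        have h4 : 2 * B * (i + 1) ≤ M * (i + 1) := Nat.mul_le_mul_right _ (by omega)
        omega
  -- the first stages
  have hfin : ∀ n : ℕ, n ≤ i0 → ∃ A : ℝ, 0 ≤ A ∧ ∀ (u : ℕ → ℝ) (D : ℕ → ℝ → ℝ≥0∞),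
      (∀ b n : ℕ, B * n ≤ b → (8 : ℝ) ^ n ≤ u b) →
      (∀ (b : ℕ) (η' : ℝ), 0 < η' → D b η' ≤ ENNReal.ofReal (C ^ (b + 1))) →
      (∀ (b : ℕ) (η' : ℝ) (j : ℕ), 0 < η' → η' ≤ 1 → 8 ≤ η' * u b → 1 ≤ j → j ≤ b →
        D b η' ≤ ENNReal.ofReal (C / (η' * lam ^ j)) * D (b - 1) (η' / 8) + ENNReal.ofReal (C ^ j / η')) →
      ∀ b : ℕ, D (b - (i0 - n)) (η / 8 ^ (i0 - n)) ≤ ENNReal.ofReal A := by
    intro n
    induction n with
    | zero =>
      intro _
      refine ⟨AA C η M i0, AA_nonneg hC hη M i0, fun u D hu ht hs b => ?_⟩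
      rw [Nat.sub_zero]
      exact hdeep u D hu ht hs b (b + 1) i0 (by omega) le_rfl
    | succ n ih =>
      intro hn
      obtain ⟨A, hA, h⟩ := ih (by omega)
      obtain ⟨i, hi⟩ : ∃ i, i = i0 - (n + 1) := ⟨_, rfl⟩
      have hi' : i0 - n = i + 1 := by omega
      obtain ⟨A1, hA1⟩ : ∃ A1 : ℝ, A1 = C / (η / 8 ^ i * lam ^ 1) * A + C ^ 1 / (η / 8 ^ i) := ⟨_, rfl⟩
      have hA10 : 0 ≤ A1 := by
        rw [hA1]
        positivity
      refine ⟨A1 + C ^ (B * (1 + i + q) + 1), by positivity, fun u D hu ht hs b => ?_⟩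
      rw [← hi]
      have hsmall : b - i ≤ B * (1 + i + q) → D (b - i) (η / 8 ^ i) ≤ ENNReal.ofReal (A1 + C ^ (B * (1 + i + q) + 1)) := by
        intro hb
        refine (ht _ _ (hηi i)).trans (ENNReal.ofReal_le_ofReal ?_)
        have h1 : C ^ (b - i + 1) ≤ C ^ (B * (1 + i + q) + 1) := pow_le_pow_right₀ hC (by omega)
        linarith
      by_cases h8 : 8 ≤ η / 8 ^ i * u (b - i)
      · rcases Nat.eq_zero_or_pos (b - i) with h0 | h0
        · exact hsmall (by omega)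
        have h1 := hs (b - i) (η / 8 ^ i) 1 (hηi i) (hηi1 i) h8 le_rfl h0
        have h2 := h u D hu ht hs b
        rw [hi'] at h2
        rw [hη8, show b - i - 1 = b - (i + 1) by omega] at h1
        refine h1.trans ?_
        calc ENNReal.ofReal (C / (η / 8 ^ i * lam ^ 1)) * D (b - (i + 1)) (η / 8 ^ (i + 1)) +
              ENNReal.ofReal (C ^ 1 / (η / 8 ^ i)) ≤
              ENNReal.ofReal (C / (η / 8 ^ i * lam ^ 1)) * ENNReal.ofReal A + ENNReal.ofReal (C ^ 1 / (η / 8 ^ i)) := by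
              gcongr
          _ = ENNReal.ofReal A1 := by
              rw [hA1, ← ENNReal.ofReal_mul (by positivity), ← ENNReal.ofReal_add (by positivity) (by positivity)]
          _ ≤ _ := ENNReal.ofReal_le_ofReal (by
              have : 0 < C ^ (B * (1 + i + q) + 1) := by positivity
              linarith)
      · exact hsmall (htiny u hu (b - i) i h8).le
  obtain ⟨A, hA, h⟩ := hfin i0 le_rfl
  refine ⟨A, hA, fun u D hu ht hs b => ?_⟩
  have := h u D hu ht hs b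
  rwa [Nat.sub_self, pow_zero, div_one, Nat.sub_zero] at this

end TIP

end HexObs
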