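import Pool.Agent.TIP.Step2
import Pool.Agent.TIP.Iter
import Pool.Agent.NTA.XDbl
import Pool.Agent.SDN.GiantB

/-!
TIP, M4: the tip lemma for every admissible ensemble, from uniform avoidance (UA) and the gluing bound (M3).
-/

set_option autoImplicit false

namespace HexObs

namespace TIP

open Finset TS SDN NTW NTA SIM

open scoped ENNReal

/-- uniform avoidance for the notion Fr of a free cut -/
def UAh (Fr : ℕ → List Bool → List Bool → Prop) : Prop := ∃ (C κ : ℝ) (r0 : ℕ), 0 < C ∧ 0 < κ ∧ ∀ r, r0 ≤ r →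
  ∀ (H : ℕ) (A : List Bool), gf {Z | Z ∈ BU ∧ hgt Z ≤ H ∧ A ++ Z ∈ SA ∧ (frN (Fr r) A Z : ℝ) < κ * UU r} ≤
    ENNReal.ofReal (C * UU r)

/-- M3: the gluing bound for the notion Fr of a free cut -/
def M3h (Fr : ℕ → List Bool → List Bool → Prop) : Prop := ∃ (C : ℝ) (s : ℕ), 0 < C ∧ ∀ (P : Set (List Bool)) (M : ℝ≥0∞)
  (m : ℕ), Ens P M m → ∀ b k r : ℕ, b ≤ m → 2 ^ (k + s) + 1 ≤ r → 4 * r ≤ 2 ^ b →
    gf (FT (Fr r) P b) * Xb k ≤ ENNReal.ofReal C * M

/-- the tip lemma -/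
def TipSt : Prop := ∀ η : ℝ, 0 < η → ∃ C : ℝ, 0 < C ∧ ∀ (P : Set (List Bool)) (M : ℝ≥0∞) (m : ℕ), Ens P M m →
  ∀ b : ℕ, b ≤ m → gf (P ∩ GT b η) * Xb b ≤ ENNReal.ofReal C * M

lemma Ub_big : ∃ B : ℕ, ∀ b n : ℕ, B * n ≤ b → (8 : ℝ) ^ n ≤ Ub b := by
  have hk := kap0_pos
  obtain ⟨B, hB⟩ := exists_nat_ge (5 / kap0)
  refine ⟨B, fun b n h => ?_⟩
  rcases Nat.eq_zero_or_pos n with rfl | hn
  · rw [pow_zero]
    exact HD.one_le_UU _
  · have h1 := Ub_growth (Nat.zero_le b)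
    have h2 : (1 : ℝ) ≤ Ub 0 := HD.one_le_UU _
    have h3 : (5 : ℝ) * n ≤ kap0 * ((b : ℝ) - (0 : ℕ)) := by
      have h4 : (B : ℝ) * n ≤ b := by exact_mod_cast h
      have h5 : 5 ≤ kap0 * B := by
        rw [div_le_iff₀ hk] at hB
        linarith
      have h6 : (0 : ℝ) ≤ n := Nat.cast_nonneg n
      push_cast
      nlinarith
    have h4 : (2 : ℝ) ^ ((5 : ℝ) * n) ≤ (2 : ℝ) ^ (kap0 * ((b : ℝ) - (0 : ℕ))) :=
      Real.rpow_le_rpow_of_exponent_le (by norm_num) h3
    have h5 : (2 : ℝ) ^ ((5 : ℝ) * n) = 32 ^ n := by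
      rw [Real.rpow_mul (by norm_num), Real.rpow_natCast]
      norm_num
    rw [h5] at h4
    have h6 : (2 : ℝ) * 8 ^ n ≤ 32 ^ n := by
      have : (32 : ℝ) ^ n = 4 ^ n * 8 ^ n := by
        rw [← mul_pow]
        norm_num
      rw [this]
      have : (2 : ℝ) ≤ 4 ^ n := by
        calc (2 : ℝ) ≤ 4 ^ 1 := by norm_num
          _ ≤ 4 ^ n := pow_le_pow_right₀ (by norm_num) hn
      nlinarith [pow_pos (show (0 : ℝ) < 8 by norm_num) n]
    have h7 : (2 : ℝ) ^ (kap0 * ((b : ℝ) - (0 : ℕ))) ≤ Ub 0 * (2 : ℝ) ^ (kap0 * ((b : ℝ) - (0 : ℕ))) := by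
      have := Real.rpow_pos_of_pos (show (0 : ℝ) < 2 by norm_num) (kap0 * ((b : ℝ) - (0 : ℕ)))
      nlinarith
    linarith

lemma Ub_steps (e n : ℕ) : Ub (e + n) ≤ 2 ^ n * Ub e := by
  induction n with
  | zero => simp
  | succ n ih =>
    have h1 : Ub (e + (n + 1)) ≤ 2 * Ub (e + n) := Ub_succ (e + n)
    calc Ub (e + (n + 1)) ≤ 2 * Ub (e + n) := h1
      _ ≤ 2 * (2 ^ n * Ub e) := by linarith
      _ = 2 ^ (n + 1) * Ub e := by ring

/-- the tip lemma from UA and M3 -/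
theorem tip_of {Fr : ℕ → List Bool → List Bool → Prop} (hUA : UAh Fr) (hM3 : M3h Fr) : TipSt := by
  intro η0 hη0
  obtain ⟨η, hη, hη1, hηle⟩ : ∃ η : ℝ, 0 < η ∧ η ≤ 1 ∧ η ≤ η0 := ⟨min η0 1, lt_min hη0 one_pos, min_le_right _ _, min_le_left _ _⟩
  obtain ⟨CU, κ0, r0, hCU, hκ0, hUA⟩ := hUA
  obtain ⟨C0, s, hC0, hM3⟩ := hM3
  obtain ⟨CX, hCX, hX⟩ := XDbl.pow xDbl
  obtain ⟨X0, hX0, hX0'⟩ : ∃ X0 : ℝ, 0 ≤ X0 ∧ Xb 0 = ENNReal.ofReal X0 :=
    ⟨(Xb 0).toReal, ENNReal.toReal_nonneg, (ENNReal.ofReal_toReal (Xb_ne_top 0)).symm⟩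
  obtain ⟨B, hB⟩ := Ub_big
  obtain ⟨C1, hC1⟩ : ∃ C1 : ℝ, C1 = CX + X0 + 1 := ⟨_, rfl⟩
  obtain ⟨e0, he0⟩ : ∃ e0 : ℕ, e0 = r0 + s + 1 := ⟨_, rfl⟩
  obtain ⟨Y, hY⟩ : ∃ Y : ℝ, Y = 4 / κ0 * CX ^ (3 + s) * C0 := ⟨_, rfl⟩
  obtain ⟨Cc, hCc⟩ : ∃ Cc : ℝ, Cc = C1 ^ (e0 + 3) + 8 * CU * CX + (Y + 1) * (2 * CX) + C1 := ⟨_, rfl⟩
  have hC11 : 1 ≤ C1 := by linarith
  have hY0 : 0 ≤ Y := by rw [hY]; positivity
  have q1 : 0 ≤ C1 ^ (e0 + 3) := by positivity
  have q2 : 0 ≤ 8 * CU * CX := by positivity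
  have q3 : 0 ≤ (Y + 1) * (2 * CX) := by positivity
  have hCc1 : 1 ≤ Cc := by linarith
  have p1 : C1 ^ (e0 + 3) ≤ Cc := by linarith
  have p2 : 8 * CU * CX ≤ Cc := by linarith
  have p3 : (Y + 1) * (2 * CX) ≤ Cc := by linarith
  have p4 : C1 ≤ Cc := by linarith
  obtain ⟨lam, hlam⟩ : ∃ lam : ℝ, lam = (2 : ℝ) ^ kap0 := ⟨_, rfl⟩
  have hlam1 : 1 < lam := by
    rw [hlam]
    exact Real.one_lt_rpow (by norm_num) kap0_pos
  obtain ⟨A, hA, hiter⟩ := iter hCc1 hlam1 B hη hη1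
  refine ⟨A + 1, by linarith, fun P M m hP b hb => ?_⟩
  -- the trivial cases
  rcases eq_or_ne M 0 with hM0 | hM0
  · have h1 : gf (P ∩ GT b η0) = 0 := by
      refine le_antisymm ((gf_mono Set.inter_subset_left).trans (hP.tot.trans hM0.le)) zero_le
    rw [h1, zero_mul]
    exact zero_le
  rcases eq_or_ne M ⊤ with hMt | hMt
  · rw [hMt, ENNReal.mul_top (by simpa using (by linarith : (0 : ℝ) < A + 1))]
    exact le_top
  have hMI : M * M⁻¹ = 1 := ENNReal.mul_inv_cancel hM0 hMt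
  have hXall : ∀ b, Xb b ≤ ENNReal.ofReal (C1 ^ (b + 1)) := by
    intro b
    have h1 := hX 0 b
    rw [zero_add, hX0', ← ENNReal.ofReal_mul (by positivity)] at h1
    refine h1.trans (ENNReal.ofReal_le_ofReal ?_)
    rw [pow_succ]
    have h2 : CX ^ b ≤ C1 ^ b := pow_le_pow_left₀ (by linarith) (by linarith) _
    have h3 : X0 ≤ C1 := by linarith
    exact mul_le_mul h2 h3 hX0 (by positivity)
  obtain ⟨D, hD⟩ : ∃ D : ℕ → ℝ → ℝ≥0∞, D = fun b η' => if b ≤ m then gf (P ∩ GT b η') * Xb b * M⁻¹ else 0 := ⟨_, rfl⟩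
  have hcr : ∀ (b : ℕ) (η' : ℝ), D b η' ≤ ENNReal.ofReal (C1 ^ (b + 1)) := by
    intro b η'
    rw [hD]
    by_cases h : b ≤ m
    · show (if b ≤ m then _ else _) ≤ _
      rw [if_pos h]
      calc gf (P ∩ GT b η') * Xb b * M⁻¹ ≤ M * ENNReal.ofReal (C1 ^ (b + 1)) * M⁻¹ := by
            gcongr
            · exact (gf_mono Set.inter_subset_left).trans hP.tot
            · exact hXall b
        _ = ENNReal.ofReal (C1 ^ (b + 1)) * (M * M⁻¹) := by ring
        _ = _ := by rw [hMI, mul_one]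
    · show (if b ≤ m then _ else _) ≤ _
      rw [if_neg h]
      exact zero_le
  have hfin : D b η ≤ ENNReal.ofReal A := by
    refine hiter Ub D hB (fun b η' _ => ?_) (fun b η' j hη' hη'1 _ hj hjb => ?_) b
    · exact (hcr b η').trans (ENNReal.ofReal_le_ofReal (pow_le_pow_left₀ (by linarith) p4 _))
    · by_cases hbm : b ≤ m
      swap
      · rw [hD]
        show (if b ≤ m then _ else _) ≤ _
        rw [if_neg hbm]
        exact zero_le
      by_cases hbj : b < j + 2 + e0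
      · -- few scales
        refine le_trans ?_ le_add_self
        refine (hcr b η').trans (ENNReal.ofReal_le_ofReal ?_)
        have h1 : C1 ^ (b + 1) ≤ (C1 ^ (e0 + 3)) ^ j := by
          rw [← pow_mul]
          refine pow_le_pow_right₀ hC11 ?_
          nlinarith
        have h2 : (C1 ^ (e0 + 3)) ^ j ≤ Cc ^ j := pow_le_pow_left₀ q1 p1 _
        have h3 : Cc ^ j ≤ Cc ^ j / η' := by
          rw [le_div_iff₀ hη']
          have : 0 ≤ Cc ^ j := by positivity
          nlinarith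
        linarith
      · -- the main case
        obtain ⟨e, he⟩ : ∃ e, b = e + (j + 2) := ⟨b - (j + 2), by omega⟩
        obtain ⟨k, hk⟩ : ∃ k, e = k + (s + 1) := ⟨e - (s + 1), by omega⟩
        obtain ⟨b', hb'⟩ : ∃ b', b = b' + 1 := ⟨b - 1, by omega⟩
        have hr0 : r0 ≤ 2 ^ e := by
          have h1 : r0 < 2 ^ r0 := Nat.lt_two_pow_self
          have h2 : (2 : ℕ) ^ r0 ≤ 2 ^ e := Nat.pow_le_pow_right (by norm_num) (by omega)
          omega
        have hUe : (0 : ℝ) < Ub e := Ub_pos e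
        have hUbb : (0 : ℝ) < Ub b := Ub_pos b
        have hst := step2 (Fr (2 ^ e)) (P := P) (m := m) (b := b') (η := η') (κ := κ0 * UU (2 ^ e))
          (E := ENNReal.ofReal (CU * UU (2 ^ e))) hP.sa hP.pre (by omega) hη' (mul_pos hκ0 hUe)
          (fun A => hUA (2 ^ e) hr0 (2 ^ (b' + 1)) A)
        rw [← hb'] at hst
        have hgl := hM3 P M m hP b k (2 ^ e) hbm (by
            rw [hk, show k + (s + 1) = k + s + 1 by ring, pow_succ]
            have : 1 ≤ 2 ^ (k + s) := Nat.one_le_two_pow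
            omega) (by
            have h1 : (4 : ℕ) * 2 ^ e = 2 ^ (e + 2) := by ring
            rw [h1]
            exact Nat.pow_le_pow_right (by norm_num) (by omega))
        have hXb1 : Xb b ≤ ENNReal.ofReal CX * Xb b' := by
          have := hX b' 1
          rwa [← hb', pow_one] at this
        have hXb2 : Xb b ≤ ENNReal.ofReal (CX ^ (j + 3 + s)) * Xb k := by
          have := hX k (j + 3 + s)
          rwa [show k + (j + 3 + s) = b by omega] at this
        have hDb : D b η' = gf (P ∩ GT b η') * Xb b * M⁻¹ := by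
          rw [hD]
          show (if b ≤ m then _ else _) = _
          rw [if_pos hbm]
        have hDb' : D (b - 1) (η' / 8) = gf (P ∩ GT b' (η' / 8)) * Xb b' * M⁻¹ := by
          rw [hD]
          show (if b - 1 ≤ m then _ else _) = _
          rw [if_pos (by omega), show b - 1 = b' by omega]
        -- the numbers
        have n1 : 4 / (η' * Ub b) * (CU * UU (2 ^ e)) * CX ≤ Cc / (η' * lam ^ j) := by
          have hrat := GB.Ub_ratio_down (show e ≤ b by omega)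
          have h1 : (2 : ℝ) ^ (-(kap0 * ((b : ℝ) - e))) ≤ (lam ^ j)⁻¹ := by
            rw [hlam, ← Real.rpow_natCast, ← Real.rpow_mul (by norm_num), ← Real.rpow_neg (by norm_num)]
            refine Real.rpow_le_rpow_of_exponent_le (by norm_num) ?_
            have : (b : ℝ) = e + (j + 2) := by rw [he]; push_cast; ring
            have := kap0_pos
            nlinarith
          have hl0 : (0 : ℝ) < lam ^ j := by positivity
          have h2 : Ub e / Ub b ≤ 2 * (lam ^ j)⁻¹ := by linarith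
          have e1 : 4 / (η' * Ub b) * (CU * UU (2 ^ e)) * CX = 4 * CU * CX / η' * (Ub e / Ub b) := by
            show 4 / (η' * Ub b) * (CU * Ub e) * CX = _
            field_simp
          rw [e1]
          calc 4 * CU * CX / η' * (Ub e / Ub b) ≤ 4 * CU * CX / η' * (2 * (lam ^ j)⁻¹) :=
                mul_le_mul_of_nonneg_left h2 (by positivity)
            _ = 8 * CU * CX / (η' * lam ^ j) := by
                field_simp
                ring
            _ ≤ _ := by gcongr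
        have n2 : Ub b / (κ0 * UU (2 ^ e)) * (CX ^ (j + 3 + s) * C0) ≤ Cc ^ j / η' := by
          have h1 : Ub b ≤ 2 ^ (j + 2) * Ub e := by
            rw [he]
            exact Ub_steps e (j + 2)
          have h2 : Ub b / (κ0 * UU (2 ^ e)) ≤ 2 ^ (j + 2) / κ0 := by
            show Ub b / (κ0 * Ub e) ≤ _
            rw [div_le_div_iff₀ (by positivity) hκ0]
            nlinarith
          have h3 : 2 ^ (j + 2) / κ0 * (CX ^ (j + 3 + s) * C0) = Y * (2 * CX) ^ j := by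
            rw [hY, mul_pow, pow_add, pow_add (a := CX), pow_add (a := CX), pow_add (a := CX)]
            ring
          have h4 : Y * (2 * CX) ^ j ≤ ((Y + 1) * (2 * CX)) ^ j := by
            rw [mul_pow (Y + 1)]
            have h5 : Y ≤ (Y + 1) ^ j := by
              calc Y ≤ (Y + 1) ^ 1 := by linarith
                _ ≤ (Y + 1) ^ j := pow_le_pow_right₀ (by linarith) hj
            exact mul_le_mul_of_nonneg_right h5 (by positivity)
          have h5 : ((Y + 1) * (2 * CX)) ^ j ≤ Cc ^ j := pow_le_pow_left₀ q3 p3 _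
          have h6 : Cc ^ j ≤ Cc ^ j / η' := by
            rw [le_div_iff₀ hη']
            have : 0 ≤ Cc ^ j := by positivity
            nlinarith
          calc Ub b / (κ0 * UU (2 ^ e)) * (CX ^ (j + 3 + s) * C0) ≤ 2 ^ (j + 2) / κ0 * (CX ^ (j + 3 + s) * C0) :=
                mul_le_mul_of_nonneg_right h2 (by positivity)
            _ ≤ _ := by
                rw [h3]
                linarith
        rw [hDb, hDb']
        calc gf (P ∩ GT b η') * Xb b * M⁻¹
            ≤ (ENNReal.ofReal (4 / (η' * Ub b)) * (gf (P ∩ GT b' (η' / 8)) * ENNReal.ofReal (CU * UU (2 ^ e))) +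
              ENNReal.ofReal (Ub b / (κ0 * UU (2 ^ e))) * gf (FT (Fr (2 ^ e)) P b)) * Xb b * M⁻¹ := by gcongr
          _ = ENNReal.ofReal (4 / (η' * Ub b)) * (gf (P ∩ GT b' (η' / 8)) * ENNReal.ofReal (CU * UU (2 ^ e))) * Xb b * M⁻¹ +
              ENNReal.ofReal (Ub b / (κ0 * UU (2 ^ e))) * gf (FT (Fr (2 ^ e)) P b) * Xb b * M⁻¹ := by ring
          _ ≤ ENNReal.ofReal (Cc / (η' * lam ^ j)) * (gf (P ∩ GT b' (η' / 8)) * Xb b' * M⁻¹) +
              ENNReal.ofReal (Cc ^ j / η') := by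
              refine add_le_add ?_ ?_
              · calc ENNReal.ofReal (4 / (η' * Ub b)) * (gf (P ∩ GT b' (η' / 8)) * ENNReal.ofReal (CU * UU (2 ^ e))) *
                      Xb b * M⁻¹
                    ≤ ENNReal.ofReal (4 / (η' * Ub b)) * (gf (P ∩ GT b' (η' / 8)) * ENNReal.ofReal (CU * UU (2 ^ e))) *
                      (ENNReal.ofReal CX * Xb b') * M⁻¹ := by gcongr
                  _ = ENNReal.ofReal (4 / (η' * Ub b)) * ENNReal.ofReal (CU * UU (2 ^ e)) * ENNReal.ofReal CX *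
                      (gf (P ∩ GT b' (η' / 8)) * Xb b' * M⁻¹) := by ring
                  _ = ENNReal.ofReal (4 / (η' * Ub b) * (CU * UU (2 ^ e)) * CX) *
                      (gf (P ∩ GT b' (η' / 8)) * Xb b' * M⁻¹) := by
                      have hUe' : (0 : ℝ) < UU (2 ^ e) := hUe
                      rw [← ENNReal.ofReal_mul (by positivity), ← ENNReal.ofReal_mul (by positivity)]
                  _ ≤ _ := mul_le_mul_left (ENNReal.ofReal_le_ofReal n1) _
              · calc ENNReal.ofReal (Ub b / (κ0 * UU (2 ^ e))) * gf (FT (Fr (2 ^ e)) P b) * Xb b * M⁻¹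
                    ≤ ENNReal.ofReal (Ub b / (κ0 * UU (2 ^ e))) * gf (FT (Fr (2 ^ e)) P b) *
                      (ENNReal.ofReal (CX ^ (j + 3 + s)) * Xb k) * M⁻¹ := by gcongr
                  _ = ENNReal.ofReal (Ub b / (κ0 * UU (2 ^ e))) * ENNReal.ofReal (CX ^ (j + 3 + s)) *
                      (gf (FT (Fr (2 ^ e)) P b) * Xb k) * M⁻¹ := by ring
                  _ ≤ ENNReal.ofReal (Ub b / (κ0 * UU (2 ^ e))) * ENNReal.ofReal (CX ^ (j + 3 + s)) *
                      (ENNReal.ofReal C0 * M) * M⁻¹ := by gcongr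
                  _ = ENNReal.ofReal (Ub b / (κ0 * UU (2 ^ e))) * (ENNReal.ofReal (CX ^ (j + 3 + s)) *
                      ENNReal.ofReal C0) * (M * M⁻¹) := by ring
                  _ = ENNReal.ofReal (Ub b / (κ0 * UU (2 ^ e)) * (CX ^ (j + 3 + s) * C0)) := by
                      have hUe' : (0 : ℝ) < UU (2 ^ e) := hUe
                      rw [hMI, mul_one, ← ENNReal.ofReal_mul (by positivity), ← ENNReal.ofReal_mul (by positivity)]
                  _ ≤ _ := ENNReal.ofReal_le_ofReal n2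
  -- the conclusion
  have h1 : D b η = gf (P ∩ GT b η) * Xb b * M⁻¹ := by
    rw [hD]
    show (if b ≤ m then _ else _) = _
    rw [if_pos hb]
  rw [h1] at hfin
  have h2 : P ∩ GT b η0 ⊆ P ∩ GT b η := by
    rintro L ⟨a1, a2⟩
    refine ⟨a1, ?_⟩
    have a3 : η0 * Ub b ≤ ((cs b L).card : ℝ) := a2
    have a4 : (0 : ℝ) < Ub b := Ub_pos b
    show η * Ub b ≤ ((cs b L).card : ℝ)
    nlinarith
  calc gf (P ∩ GT b η0) * Xb b ≤ gf (P ∩ GT b η) * Xb b := mul_le_mul_left (gf_mono h2) _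
    _ = gf (P ∩ GT b η) * Xb b * M⁻¹ * M := by
        rw [mul_assoc (gf (P ∩ GT b η) * Xb b), mul_comm M⁻¹, hMI, mul_one]
    _ ≤ ENNReal.ofReal A * M := mul_le_mul_left hfin _
    _ ≤ _ := mul_le_mul_left (ENNReal.ofReal_le_ofReal (by linarith)) _

end TIP

end HexObs
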