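import Pool.Agent.TIP.FreeC
import Pool.Agent.SIM.VWord
import Pool.Agent.Tight.Prob

/-!
TIP, U3 (helper41): UNIFORM AVOIDANCE, all six directions. For every past A: the bridges Z of height at most H with
A ++ Z self-avoiding and with less than κ UU r free cuts have a mass of at most C UU r, for every H.

In front of each cut: either A meets the box, then the continuation hits A with a probability ≥ c (HitSt), or the box is
free, then the continuation has κ UU r free cuts with a probability ≥ c (FreeSt).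
-/

set_option autoImplicit false

namespace HexObs

namespace TIP

open Finset TS SDN SIM

open scoped ENNReal

/-- hexagonal box of radius r rows (invariant under the six rotations) -/
def Bx6 (r : ℕ) (p : Pt) : Prop := ∀ d ∈ dirs, |ip p d| ≤ 3 * (r : ℤ) + 2

/-- no vertex of A in the hexagonal box of radius r around the tip of A ++ Z1 -/
def Far6 (r : ℕ) (A Z1 : List Bool) : Prop := ∀ i, i ≤ A.length → ¬ Bx6 r (vx oo up A i - tp (A ++ Z1))

open Classical in
/-- number of the free cuts of Z (Z attached to A, all directions of A) -/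
noncomputable def fc6 (r : ℕ) (A Z : List Bool) : ℕ := ((range (Z.length + 1)).filter fun j =>
  Z.take j ∈ BU ∧ Z.drop j ∈ BU ∧ Far6 r A (Z.take j)).card

/-- U3, all directions: UNIFORM AVOIDANCE -/
def Ua6St : Prop := ∃ (C κ : ℝ) (r0 : ℕ), 0 < C ∧ 0 < κ ∧ ∀ r, r0 ≤ r → ∀ (H : ℕ) (A : List Bool),
  gf {Z | Z ∈ BU ∧ hgt Z ≤ H ∧ A ++ Z ∈ SA ∧ (fc6 r A Z : ℝ) < κ * UU r} ≤ ENNReal.ofReal (C * UU r)

namespace UaA

/-- dependent products: upper bound -/
lemma gf_dep_le {S : Set (List Bool)} {T : List Bool → Set (List Bool)} {c : ℝ≥0∞} (h : ∀ X ∈ S, gf (T X) ≤ c) :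
    gf {W | ∃ X ∈ S, ∃ Y ∈ T X, W = X ++ Y} ≤ gf S * c := by
  have h1 : ∑' X : S, ∑' Y : (T X.1), wE (X.1 ++ Y.1) ≤ gf S * c := by
    unfold gf
    rw [← ENNReal.tsum_mul_right]
    refine ENNReal.tsum_le_tsum fun X => ?_
    have : ∑' Y : (T X.1), wE (X.1 ++ Y.1) = wE X.1 * gf (T X.1) := by
      unfold gf
      rw [← ENNReal.tsum_mul_left]
      exact tsum_congr fun Y => wE_append _ _
    rw [this]
    exact mul_le_mul' le_rfl (h X.1 X.2)
  refine le_trans ?_ h1
  rw [← ENNReal.tsum_sigma' (fun p : (Σ X : S, (T X.1)) => wE (p.1.1 ++ p.2.1))]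
  have hex : ∀ W : {W | ∃ X ∈ S, ∃ Y ∈ T X, W = X ++ Y}, ∃ p : (Σ X : S, (T X.1)), W.1 = p.1.1 ++ p.2.1 := by
    rintro ⟨W, X, hX, Y, hY, he⟩
    exact ⟨⟨⟨X, hX⟩, ⟨Y, hY⟩⟩, he⟩
  choose φ hφ using hex
  have hinj : Function.Injective φ := by
    intro W W' he
    apply Subtype.ext
    rw [hφ W, hφ W', he]
  have h2 : gf {W | ∃ X ∈ S, ∃ Y ∈ T X, W = X ++ Y} =
      ∑' W : {W | ∃ X ∈ S, ∃ Y ∈ T X, W = X ++ Y}, wE ((φ W).1.1 ++ (φ W).2.1) := by
    unfold gf
    exact tsum_congr fun W => by rw [hφ W]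
  rw [h2]
  exact ENNReal.tsum_comp_le_tsum_of_injective hinj (fun p : (Σ X : S, (T X.1)) => wE (p.1.1 ++ p.2.1))

/-- the bad continuations -/
def Bd (r H : ℕ) (κ : ℝ) (A Z0 : List Bool) : Set (List Bool) :=
  {Z | Z ∈ BU ∧ hgt Z ≤ H ∧ A ++ (Z0 ++ Z) ∈ SA ∧ (fc6 r A (Z0 ++ Z) : ℝ) < κ * UU r}

lemma Bd_le (r H : ℕ) (κ : ℝ) (A Z0 : List Bool) : gf (Bd r H κ A Z0) ≤ ENNReal.ofReal (UU H) := by
  refine (gf_mono (Q := {V | V ∈ BU ∧ hgt V ≤ H}) ?_).trans (gf_low H)
  intro Z hZ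
  exact ⟨hZ.1, hZ.2.1⟩

/-- first passage decomposition, with a set G of first pieces that no bad continuation has -/
lemma Bd_dec {r H R : ℕ} {κ : ℝ} {A Z0 : List Bool} {G : Set (List Bool)} {S : ℝ≥0∞}
    (hG : ∀ W ∈ G, ∀ Y ∈ BU, W ++ Y ∉ Bd r H κ A Z0) (hS : ∀ W ∈ FP R, gf (Bd r H κ A (Z0 ++ W)) ≤ S) {c : ℝ} (hc : 0 ≤ c)
    (hGF : G ⊆ FP R) (hm : ENNReal.ofReal c ≤ gf G) :
    gf (Bd r H κ A Z0) ≤ ENNReal.ofReal (UU R) + ENNReal.ofReal (1 - c) * S := by
  have hsub : Bd r H κ A Z0 ⊆ {V | V ∈ BU ∧ hgt V ≤ R} ∪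
      {Z | ∃ W ∈ FP R \ G, ∃ Y ∈ Bd r H κ A (Z0 ++ W), Z = W ++ Y} := by
    intro Z hZ
    by_cases h : hgt Z ≤ R
    · exact Or.inl ⟨hZ.1, h⟩
    right
    obtain ⟨W, hW, Y, hY, rfl⟩ := fpDec R Z hZ.1 (by omega)
    refine ⟨W, ⟨hW, fun hWG => hG W hWG Y hY hZ⟩, Y, ⟨hY, ?_, ?_, ?_⟩, rfl⟩
    · have := hZ.2.1
      rw [FreeA.hgt_app hW.1 hY] at this
      omega
    · rw [List.append_assoc]
      exact hZ.2.2.1
    · rw [List.append_assoc]
      exact hZ.2.2.2
  refine (gf_mono hsub).trans ((gf_union_le _ _).trans (add_le_add (gf_low R) ?_))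
  refine (gf_dep_le fun W hW => hS W hW.1).trans (mul_le_mul' ?_ le_rfl)
  have h1 : gf (G ∪ (FP R \ G)) = gf G + gf (FP R \ G) := gf_union Set.disjoint_sdiff_right
  rw [Set.union_sdiff_cancel hGF, fpOne R] at h1
  have h2 : ENNReal.ofReal c + gf (FP R \ G) ≤ 1 := by
    rw [h1]
    exact add_le_add hm le_rfl
  rw [ENNReal.ofReal_sub 1 hc, ENNReal.ofReal_one]
  exact ENNReal.le_sub_of_add_le_left ENNReal.ofReal_ne_top h2

/-! ### the frame of the tip of A -/

/-- the rotation of the frame of the tip -/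
def uA (A : List Bool) : Pt := rotTo up (dx up A A.length)

lemma nrm_uA (A : List Bool) : nrm (uA A) = 1 := nrm_rotTo upd (dx_mem upd A A.length)

lemma nrm_cA (A : List Bool) : nrm (conjE (uA A)) = 1 := by rw [nrm_conjE, nrm_uA]

lemma cA_uA (A : List Bool) (p : Pt) : mulE (conjE (uA A)) (mulE (uA A) p) = p := by
  rw [mulE_assoc, mulE_comm (conjE (uA A)) (uA A), mulE_conjE, nrm_uA, mulE_one]

lemma tp_gen (A w : List Bool) : tp (A ++ w) = tp A + mulE (uA A) (tp w) := by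
  unfold tp uA
  rw [List.length_append, vx_general]

lemma cl_tpB {Z : List Bool} (hZ : Z ∈ BU) : cl (tp Z) = 0 := by
  unfold tp
  rw [cl_vx]
  have h := cl_dx up Z Z.length
  rw [FreeA.dx_BU hZ] at h
  split_ifs at h ⊢ with h1
  · decide
  · exfalso
    revert h
    decide

lemma cls {A Z0 : List Bool} (hZ0 : Z0 ∈ BU) :
    (cl (conjE (uA A)) = 1 ∧ cl (tp (A ++ Z0)) = 0) ∨ (cl (conjE (uA A)) = 2 ∧ cl (tp (A ++ Z0)) = 2) := by
  have e0 : cl up = 2 := by decide
  have e00 : cl oo = 0 := by decide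
  have h1 : cl (tp (A ++ Z0)) = cl (tp A) := by
    rw [tp_gen, cl_add, cl_mulE, cl_tpB hZ0, mul_zero, add_zero]
  have h2 : cl (conjE (uA A)) = cl (dx up A A.length) * 2 := by
    rw [cl_conjE]
    unfold uA rotTo
    rw [cl_mulE, cl_conjE, e0]
  rw [h1, h2, cl_dx, e0]
  unfold tp
  rw [cl_vx, e00, e0]
  by_cases h : Even A.length
  · left
    rw [if_pos h, if_pos h]
    decide
  · right
    rw [if_neg h, if_neg h]
    decide

lemma AdP_rot {w v p q : Pt} (hw : nrm w = 1) (h : (cl w = 1 ∧ cl v = 0) ∨ (cl w = 2 ∧ cl v = 2)) (hp : AdP p q) :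
    AdP (mulE w (p - v)) (mulE w (q - v)) := by
  have hwd : ∀ {e : Pt}, e ∈ dirs → mulE w e ∈ dirs := by
    intro e he
    rw [mem_dirs, nrm_mulE, hw, one_mul]
    exact mem_dirs.1 he
  have key : ∀ x y : Pt, cl x = 0 → y - x ∈ dirs → cl (y - x) = 2 → AdP (mulE w (x - v)) (mulE w (y - v)) := by
    intro x y hx hd hc
    have e1 : mulE w (y - v) - mulE w (x - v) = mulE w (y - x) := by
      rw [← mulE_sub, sub_sub_sub_cancel_right]
    have e2 : mulE w (x - v) - mulE w (y - v) = -mulE w (y - x) := by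
      rw [← mulE_sub, sub_sub_sub_cancel_right, ← neg_sub, mulE_neg]
    rcases h with ⟨h1, h2⟩ | ⟨h1, h2⟩
    · left
      refine ⟨?_, ?_, ?_⟩
      · rw [cl_mulE, cl_sub, h2, hx, sub_zero, mul_zero]
      · rw [e1]
        exact hwd hd
      · rw [e1, cl_mulE, h1, hc, one_mul]
    · right
      have hy : cl y = 2 := by
        have : cl y = cl x + cl (y - x) := by rw [cl_sub]; ring
        rw [this, hx, hc, zero_add]
      refine ⟨?_, ?_, ?_⟩
      · rw [cl_mulE, cl_sub, h2, hy, sub_self, mul_zero]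
      · rw [e2]
        exact neg_mem_dirs (hwd hd)
      · rw [e2, cl_neg, cl_mulE, h1, hc]
        decide
  rcases hp with ⟨h1, h2, h3⟩ | ⟨h1, h2, h3⟩
  · exact key p q h1 h2 h3
  · exact AdP_symm (key q p h1 h2 h3)

/-- position of the vertex number i of A in the frame of the tip of A ++ Z0 -/
def rp (A Z0 : List Bool) (i : ℕ) : Pt := mulE (conjE (uA A)) (vx oo up A i - tp (A ++ Z0))

lemma rp_back (A Z0 : List Bool) (i : ℕ) : vx oo up A i = tp (A ++ Z0) + mulE (uA A) (rp A Z0 i) := by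
  unfold rp
  rw [mulE_assoc, mulE_conjE, nrm_uA, mulE_one]
  abel

lemma rp_tip (A Z0 : List Bool) : rp A Z0 A.length = -tp Z0 := by
  unfold rp
  have : vx oo up A A.length - tp (A ++ Z0) = -mulE (uA A) (tp Z0) := by
    rw [tp_gen]
    unfold tp
    abel
  rw [this, mulE_neg, cA_uA]

/-- a piece that hits A cannot be continued -/
lemma hit_bad {A Z0 W Y : List Bool} {i k' : ℕ} (hZ0 : Z0 ∈ BU) (hi : i ≤ A.length) (h1 : 1 ≤ k') (h2 : k' ≤ W.length)
    (h : rp A Z0 i = vx oo up W k') : A ++ (Z0 ++ (W ++ Y)) ∉ SA := by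
  intro hSA
  apply hSA.inj i (A.length + (Z0.length + k')) (by omega) (by
    simp only [List.length_append]
    omega)
  rw [vx_append (by omega), vx_general, vx_cat (FreeA.dx_BU hZ0), vx_append (by omega), rp_back A Z0 i, h, tp_gen, mulE_add]
  unfold tp uA
  abel

lemma box6 {u p : Pt} {r : ℕ} (hu : nrm u = 1) (h : Bx6 r (mulE u p)) :
    |ip p up| ≤ 3 * (r : ℤ) + 2 ∧ |cross up p| ≤ 3 * (r : ℤ) + 2 := by
  have key : ∀ d ∈ dirs, |ip p d| ≤ 3 * (r : ℤ) + 2 := by
    intro d hd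
    have h1 : mulE u d ∈ dirs := by
      rw [mem_dirs, nrm_mulE, hu, one_mul]
      exact mem_dirs.1 hd
    have h2 := h _ h1
    rwa [ip_mulE, hu, one_mul] at h2
  have h1 := key up upd
  have h2 := key (-1, 0) (by decide)
  have e2 : ip p (-1, 0) = -(2 * p.1 + p.2) := by
    simp only [ip]
    ring
  have e3 : ip p up = p.1 + 2 * p.2 := by
    simp only [ip, up]
    ring
  have e4 : cross up p = -p.1 := by
    simp only [cross, up]
    ring
  rw [e2] at h2
  rw [e3] at h1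
  rw [e3, e4]
  rw [abs_le] at h1 h2 ⊢
  rw [abs_le]
  omega

open Classical in
/-- the cuts of W in the middle of a free box are free cuts -/
lemma fc_ge {r : ℕ} {A Z0 W Y : List Bool} (hr : 2 ≤ r) (hZ0 : Z0 ∈ BU) (hY : Y ∈ BU)
    (hfree : ∀ i, i ≤ A.length → ¬ Qb r (rp A Z0 i)) : mc r W ≤ fc6 r A (Z0 ++ (W ++ Y)) := by
  unfold mc fc6
  refine card_le_card_of_injOn (fun j => Z0.length + j) ?_ ?_
  · intro j hj
    rw [mem_coe, mem_filter, mem_range, Nat.lt_succ_iff] at hj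
    obtain ⟨g0, g1, g2, g3, g4, g5⟩ := hj
    rw [mem_coe, mem_filter, mem_range]
    simp only [List.length_append]
    refine ⟨by omega, ?_, ?_, ?_⟩
    · rw [List.take_length_add_append, List.take_append_of_le_length g0]
      exact FreeA.BU_app hZ0 g1
    · rw [List.drop_length_add_append, List.drop_append_of_le_length g0]
      exact FreeA.BU_app g2 hY
    · rw [List.take_length_add_append, List.take_append_of_le_length g0]
      intro i hi hB
      apply hfree i hi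
      have e2 : tp (Z0 ++ W.take j) = tp Z0 + vx oo up W j := by
        unfold tp
        rw [List.length_append, vx_cat (FreeA.dx_BU hZ0)]
        congr 1
        have e2 : (W.take j).length = j := by
          rw [List.length_take]
          omega
        rw [e2]
        conv_rhs => rw [← List.take_append_drop j W]
        rw [vx_append (by omega)]
      have e1 : vx oo up A i - tp (A ++ (Z0 ++ W.take j)) = mulE (uA A) (rp A Z0 i - vx oo up W j) := by
        rw [rp_back A Z0 i, tp_gen A (Z0 ++ W.take j), tp_gen A Z0, e2, mulE_add, mulE_sub]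
        abel
      rw [e1] at hB
      obtain ⟨q, hq⟩ : ∃ q, q = rp A Z0 i := ⟨_, rfl⟩
      rw [← hq] at hB ⊢
      obtain ⟨k1, k2⟩ := box6 (nrm_uA A) hB
      have e4 : ip (q - vx oo up W j) up = ip q up - lev W j := by
        unfold lev
        simp only [ip, up, Prod.fst_sub, Prod.snd_sub]
        ring
      have e5 : cross up (q - vx oo up W j) = cross up q + lat W j := by
        unfold lat
        simp only [cross, up, Prod.fst_sub, Prod.snd_sub]
        ring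
      rw [e4] at k1
      rw [e5] at k2
      rw [abs_le] at k1 k2 g5
      unfold Qb
      rw [abs_le]
      omega
  · intro a _ b _ hab
    simp only at hab
    omega

end UaA

open UaA

/-- **U3 from U1**: uniform avoidance -/
theorem ua6_of (hH : HitSt) : Ua6St := by
  obtain ⟨c1, C1, r1, hc1, hC1, hhit⟩ := hH
  obtain ⟨c2, κ, C2, r2, hc2, hκ, hC2, hfr⟩ := freeSt
  obtain ⟨c, hc⟩ : ∃ c : ℝ, c = min (min c1 c2) 1 := ⟨_, rfl⟩
  have hc0 : 0 < c := by
    rw [hc]
    exact lt_min (lt_min hc1 hc2) one_pos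
  have hcc1 : c ≤ c1 := by
    rw [hc]
    exact (min_le_left _ _).trans (min_le_left _ _)
  have hcc2 : c ≤ c2 := by
    rw [hc]
    exact (min_le_left _ _).trans (min_le_right _ _)
  have hcc : c ≤ 1 := by
    rw [hc]
    exact min_le_right _ _
  obtain ⟨C3, hC3⟩ : ∃ C3 : ℕ, C3 = C1 + C2 := ⟨_, rfl⟩
  refine ⟨1 + (C3 + 1) / c, κ, r1 + r2 + 2, by positivity, hκ, fun r hr H A => ?_⟩
  have hU0 : 0 < UU r := Num2Aux.UU_pos r
  have hUR : UU (C3 * r) ≤ (C3 + 1) * UU r := by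
    refine (Num2Aux.UU_mono (show C3 * r ≤ (C3 + 1) * r by nlinarith)).trans ?_
    exact TH7.UU_mul_le C3 r
  -- the supremum
  obtain ⟨S, hS⟩ : ∃ S : ℝ≥0∞, S = ⨆ Z0 : {Z0 : List Bool // Z0 ∈ BU ∧ 1 ≤ hgt Z0}, gf (Bd r H κ A Z0.1) := ⟨_, rfl⟩
  have hle : ∀ Z0, Z0 ∈ BU → 1 ≤ hgt Z0 → gf (Bd r H κ A Z0) ≤ S := by
    intro Z0 h1 h2
    rw [hS]
    exact le_iSup (fun Z0 : {Z0 : List Bool // Z0 ∈ BU ∧ 1 ≤ hgt Z0} => gf (Bd r H κ A Z0.1)) ⟨Z0, h1, h2⟩
  have hSt : S ≤ ENNReal.ofReal (UU H) := by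
    rw [hS]
    exact iSup_le fun Z0 => Bd_le r H κ A Z0.1
  have hSne : S ≠ ∞ := ne_top_of_le_ne_top ENNReal.ofReal_ne_top hSt
  have hstep : S ≤ ENNReal.ofReal (UU (C3 * r)) + ENNReal.ofReal (1 - c) * S := by
    conv_lhs => rw [hS]
    refine iSup_le ?_
    rintro ⟨Z0, hZ0, hh⟩
    show gf (Bd r H κ A Z0) ≤ _
    have hnext : ∀ R, ∀ W ∈ FP R, gf (Bd r H κ A (Z0 ++ W)) ≤ S := by
      intro R W hW
      refine hle _ (FreeA.BU_app hZ0 hW.1) ?_
      rw [FreeA.hgt_app hZ0 hW.1]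
      omega
    by_cases hQ : ∃ i, i ≤ A.length ∧ Qb r (rp A Z0 i)
    · -- A meets the box
      obtain ⟨i, hi, hq⟩ := hQ
      have hp : Pth (fun k => rp A Z0 (i + k)) (A.length - i) :=
        fun k hk => AdP_rot (nrm_cA A) (cls hZ0) (pth_vx A A.length (i + k) (by omega))
      have hleave : ∃ k, k ≤ A.length - i ∧ rp A Z0 (i + k) ∉ Bl (rp A Z0 (i + 0)) r := by
        refine ⟨A.length - i, le_rfl, fun hB => ?_⟩
        rw [show i + (A.length - i) = A.length by omega, mem_Bl, Nat.add_zero, rp_tip] at hB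
        obtain ⟨q, hqd⟩ : ∃ q, q = rp A Z0 i := ⟨_, rfl⟩
        rw [← hqd] at hB hq
        have e2 : ip (tp Z0) up = 3 * (hgt Z0 : ℤ) := FreeA.lev_BU hZ0
        have e3 := hq.1
        simp only [ip, up, Prod.fst_neg, Prod.snd_neg] at hB e2 e3
        omega
      have h1 := hhit r (by omega) _ _ hp (by simpa using hq) hleave
      refine (Bd_dec (R := C1 * r) (c := c) (G := {W | W ∈ FP (C1 * r) ∧ ∃ k, k ≤ A.length - i ∧ ∃ k', 1 ≤ k' ∧ k' ≤ W.length ∧
        rp A Z0 (i + k) = vx oo up W k'}) ?_ (hnext _) hc0.le (fun W hW => hW.1)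
        ((ENNReal.ofReal_le_ofReal hcc1).trans h1)).trans ?_
      · rintro W ⟨-, k, hk, k', h1, h2, he⟩ Y hY hB
        exact hit_bad hZ0 (by omega) h1 h2 he hB.2.2.1
      · refine add_le_add (ENNReal.ofReal_le_ofReal (Num2Aux.UU_mono ?_)) le_rfl
        rw [hC3]
        nlinarith
    · -- the box is free
      push Not at hQ
      have h1 := hfr r (by omega)
      refine (Bd_dec (R := C2 * r) (c := c) (G := {W | W ∈ FP (C2 * r) ∧ κ * UU r ≤ (mc r W : ℝ)}) ?_ (hnext _) hc0.le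
        (fun W hW => hW.1) ((ENNReal.ofReal_le_ofReal hcc2).trans h1)).trans ?_
      · rintro W ⟨-, hW⟩ Y hY hB
        have h2 := fc_ge (W := W) (by omega) hZ0 hY hQ
        have h3 : (mc r W : ℝ) ≤ (fc6 r A (Z0 ++ (W ++ Y)) : ℝ) := by exact_mod_cast h2
        have h4 := hB.2.2.2
        linarith
      · refine add_le_add (ENNReal.ofReal_le_ofReal (Num2Aux.UU_mono ?_)) le_rfl
        rw [hC3]
        nlinarith
  have hSfin : S ≤ ENNReal.ofReal ((C3 + 1) / c * UU r) := by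
    obtain ⟨s, hs⟩ : ∃ s : ℝ, s = S.toReal := ⟨_, rfl⟩
    have hs0 : 0 ≤ s := by
      rw [hs]
      exact ENNReal.toReal_nonneg
    have hSs : S = ENNReal.ofReal s := by
      rw [hs]
      exact (ENNReal.ofReal_toReal hSne).symm
    rw [hSs] at hstep ⊢
    have hUn : 0 ≤ UU (C3 * r) := (Num2Aux.UU_pos _).le
    rw [← ENNReal.ofReal_mul (by linarith), ← ENNReal.ofReal_add hUn (mul_nonneg (by linarith) hs0),
      ENNReal.ofReal_le_ofReal_iff (add_nonneg hUn (mul_nonneg (by linarith) hs0))] at hstep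
    apply ENNReal.ofReal_le_ofReal
    have h2 : c * s ≤ (C3 + 1) * UU r := by nlinarith
    have h3 : s ≤ (C3 + 1) * UU r / c := by
      rw [le_div_iff₀ hc0]
      linarith
    calc s ≤ (C3 + 1) * UU r / c := h3
      _ = (C3 + 1) / c * UU r := by ring
  -- the whole mass
  have hfin := Bd_dec (r := r) (H := H) (R := 1) (κ := κ) (A := A) (Z0 := []) (G := ∅) (S := S) (c := 0)
    (fun W hW => absurd hW (Set.notMem_empty W)) (fun W hW => by
      rw [List.nil_append]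
      exact hle W hW.1 hW.2.1) le_rfl (Set.empty_subset _) (by simp)
  have hsame : {Z | Z ∈ BU ∧ hgt Z ≤ H ∧ A ++ Z ∈ SA ∧ (fc6 r A Z : ℝ) < κ * UU r} = Bd r H κ A [] := rfl
  rw [hsame]
  refine hfin.trans ?_
  rw [sub_zero, ENNReal.ofReal_one, one_mul]
  refine (add_le_add (ENNReal.ofReal_le_ofReal (Num2Aux.UU_mono (show 1 ≤ r by omega))) hSfin).trans ?_
  rw [← ENNReal.ofReal_add hU0.le (by positivity)]
  apply ENNReal.ofReal_le_ofReal
  linarith

end TIP

end HexObs
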