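import Pool.Agent.TIP.Ua
import Pool.Agent.TIP.Ua6
import Pool.Agent.TIP.TipOf

/-!
TIP: uniform avoidance with the hexagonal box, without hypotheses (helper69).
-/

set_option autoImplicit false

namespace HexObs

namespace TIP

open Finset TS SDN SIM

open scoped ENNReal

namespace UaZ

lemma Bx6_Bl {r : ℕ} {p v : Pt} (h : Bx6 r (p - v)) : p ∈ Bl v (3 * r + 2) := by
  have h1 := h (1, 0) (by decide)
  have h2 := h (0, 1) (by decide)
  have h3 := h (1, -1) (by decide)
  simp only [ip, Prod.fst_sub, Prod.snd_sub] at h1 h2 h3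
  rw [abs_le] at h1 h2 h3
  rw [mem_Bl]
  push_cast
  refine ⟨⟨?_, ?_⟩, ?_, ?_⟩ <;> omega

lemma Fre_Far6 {r : ℕ} {A Z1 : List Bool} (h : Fre (3 * r + 2) A Z1) : Far6 r A Z1 := fun i hi hB => h i hi (Bx6_Bl hB)

lemma le_frN (r : ℕ) (A Z : List Bool) : freeN (3 * r + 2) A Z ≤ frN (Far6 r) A Z := by
  classical
  unfold frN freeN
  obtain ⟨F, hF⟩ : ∃ F : Finset ℕ, F = (range (Z.length + 1)).filter fun j =>
    Z.take j ∈ BU ∧ Z.drop j ∈ BU ∧ Far6 r A (Z.take j) := ⟨_, rfl⟩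
  have h2 : freeS (3 * r + 2) A Z ⊆ ((F.image fun j => Z.drop j : Finset (List Bool)) : Set (List Bool)) := by
    rintro Z2 ⟨h1, Z1, h2, h3, h4⟩
    rw [mem_coe, mem_image]
    refine ⟨Z1.length, ?_, ?_⟩
    · rw [hF, mem_filter, mem_range, h3, List.length_append, List.take_left, List.drop_left]
      exact ⟨by omega, h2, h1, Fre_Far6 h4⟩
    · rw [h3, List.drop_left]
  have h3 := Set.ncard_le_ncard h2 (finite_toSet _)
  rw [Set.ncard_coe_finset] at h3
  refine h3.trans (card_image_le.trans (le_of_eq ?_))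
  rw [hF]

end UaZ

open UaZ

/-- **(UA) with the hexagonal box** -/
theorem uah6 : UAh Far6 := by
  obtain ⟨κ, C, r0, hκ, hC, h⟩ := ua
  refine ⟨8 * C, κ, r0 + 1, by positivity, hκ, fun r hr H A => ?_⟩
  have h1 := h A (3 * r + 2) H (by omega)
  have hU := UU_mono (show r ≤ 3 * r + 2 by omega)
  refine (gf_mono ?_).trans (h1.trans (ENNReal.ofReal_le_ofReal ?_))
  · rintro Z ⟨a1, a2, a3, a4⟩
    refine ⟨a1, a2, a3, ?_⟩
    have h2 : (freeN (3 * r + 2) A Z : ℝ) ≤ frN (Far6 r) A Z := by exact_mod_cast le_frN r A Z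
    have h3 : κ * UU r ≤ κ * UU (3 * r + 2) := mul_le_mul_of_nonneg_left hU hκ.le
    linarith
  · have h2 := UU_double r
    have h3 := UU_double (2 * r)
    have h4 := UU_double (2 * (2 * r))
    have h5 := UU_mono (show 3 * r + 2 ≤ 2 * (2 * (2 * r)) by omega)
    have h6 : UU (3 * r + 2) ≤ 8 * UU r := by linarith
    calc C * UU (3 * r + 2) ≤ C * (8 * UU r) := mul_le_mul_of_nonneg_left h6 hC.le
      _ = 8 * C * UU r := by ring

/-- **(U3), all directions** -/
theorem ua6 : Ua6St := uah6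

end TIP

end HexObs
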