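import Pool.Agent.TIP.NfM
import Pool.Agent.TIP.Ne
import Pool.Agent.TIP.NfNum
import Pool.Agent.TIP.RevM
import Pool.Agent.TIP.UaZ

/-!
TIP, row N: the assembly with everything that is a theorem; open: LzLog, YBad, ExN.
-/

set_option autoImplicit false

namespace HexObs

namespace TIP

theorem neW : Nf.NeW where
  last := fun _ _ _ _ h => ne_last h
  A := fun _ _ _ _ _ h1 h2 h3 h4 h5 => ne_A h1 h2 h3 h4 h5
  B := fun _ _ _ _ _ h1 h2 h3 h4 h5 => ne_B h1 h2 h3 h4 h5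
  split := fun _ _ h1 h2 => nc_app h1 h2

/-- **row N** from LzLog, YBad and ExN -/
theorem nEndA_c {κ : ℝ} {C : ℕ} (hκ : 0 < κ) (hLz : LzLog κ C) (hY : YBad κ C) (hE : ExN) : NEndA :=
  nEndA_of hκ neW hLz big_n hY hE uah6 ymassG

end TIP

end HexObs
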