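import Pool.Agent.TightS.FinalS

/-!
TIP, M2: counting pairs (word, cut).
-/

set_option autoImplicit false

namespace HexObs

namespace TIP

open Finset

open scoped ENNReal

open Classical in
/-- every word of G has many splittings into a word of X and a word of Y -/
theorem dc {G X : Set (List Bool)} {Y : List Bool → Set (List Bool)} {M c : ℝ≥0∞} (hM : ∀ A ∈ X, gf (Y A) ≤ M)
    (h : ∀ L ∈ G, ∃ S : Finset ℕ, c ≤ (S.card : ℝ≥0∞) ∧ ∀ q ∈ S, q ≤ L.length ∧ L.take q ∈ X ∧ L.drop q ∈ Y (L.take q)) :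
    c * gf G ≤ gf X * M := by
  have e1 : c * gf G ≤ ∑' L : List Bool, ∑' p : List Bool × List Bool,
      if p.1 ++ p.2 = L ∧ p.1 ∈ X ∧ p.2 ∈ Y p.1 then wE p.1 * wE p.2 else 0 := by
    rw [gf_ind, ← ENNReal.tsum_mul_left]
    refine ENNReal.tsum_le_tsum fun L => ?_
    by_cases hL : L ∈ G
    · obtain ⟨S, hS, hq⟩ := h L hL
      rw [if_pos hL]
      have hinj : Set.InjOn (fun q : ℕ => (L.take q, L.drop q)) (S : Set ℕ) := by
        intro q hq1 q' hq2 he
        have h1 := congrArg (fun p : List Bool × List Bool => p.1.length) he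
        simp only [List.length_take] at h1
        have := (hq q hq1).1
        have := (hq q' hq2).1
        omega
      calc c * wE L ≤ (S.card : ℝ≥0∞) * wE L := mul_le_mul_left hS _
        _ = ∑ q ∈ S, wE L := by rw [sum_const, nsmul_eq_mul]
        _ = ∑ q ∈ S, (fun p : List Bool × List Bool =>
              if p.1 ++ p.2 = L ∧ p.1 ∈ X ∧ p.2 ∈ Y p.1 then wE p.1 * wE p.2 else 0) (L.take q, L.drop q) := by
            refine sum_congr rfl fun q hqS => ?_
            show wE L = if L.take q ++ L.drop q = L ∧ L.take q ∈ X ∧ L.drop q ∈ Y (L.take q) then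
              wE (L.take q) * wE (L.drop q) else 0
            rw [if_pos ⟨List.take_append_drop q L, (hq q hqS).2⟩, ← wE_append, List.take_append_drop]
        _ = ∑ p ∈ S.image (fun q : ℕ => (L.take q, L.drop q)), (fun p : List Bool × List Bool =>
              if p.1 ++ p.2 = L ∧ p.1 ∈ X ∧ p.2 ∈ Y p.1 then wE p.1 * wE p.2 else 0) p := by
            rw [sum_image hinj]
        _ ≤ _ := ENNReal.sum_le_tsum _
    · rw [if_neg hL, mul_zero]
      exact zero_le
  refine e1.trans ?_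
  rw [ENNReal.tsum_comm]
  have e2 : ∀ p : List Bool × List Bool, (∑' L : List Bool,
      if p.1 ++ p.2 = L ∧ p.1 ∈ X ∧ p.2 ∈ Y p.1 then wE p.1 * wE p.2 else 0) =
      if p.1 ∈ X ∧ p.2 ∈ Y p.1 then wE p.1 * wE p.2 else 0 := by
    intro p
    rw [tsum_eq_single (p.1 ++ p.2) (fun L hL => if_neg fun h => hL h.1.symm)]
    by_cases hp : p.1 ∈ X ∧ p.2 ∈ Y p.1
    · rw [if_pos ⟨rfl, hp⟩, if_pos hp]
    · rw [if_neg hp, if_neg fun h => hp h.2]
  rw [tsum_congr e2, ENNReal.tsum_prod', gf_ind X, ← ENNReal.tsum_mul_right]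
  refine ENNReal.tsum_le_tsum fun A => ?_
  by_cases hA : A ∈ X
  · rw [if_pos hA]
    have e3 : ∀ Z : List Bool, (if (A, Z).1 ∈ X ∧ (A, Z).2 ∈ Y (A, Z).1 then wE (A, Z).1 * wE (A, Z).2 else 0) =
        wE A * (if Z ∈ Y A then wE Z else 0) := by
      intro Z
      by_cases hZ : Z ∈ Y A
      · rw [if_pos ⟨hA, hZ⟩, if_pos hZ]
      · rw [if_neg (fun h => hZ h.2), if_neg hZ, mul_zero]
    rw [tsum_congr e3, ENNReal.tsum_mul_left, ← gf_ind]
    exact mul_le_mul_right (hM A hA) _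
  · rw [if_neg hA, zero_mul]
    refine le_of_eq (ENNReal.tsum_eq_zero.2 fun Z => if_neg fun h => hA h.1)

end TIP

end HexObs
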