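import Pool.Agent.SIM.VWord
import Pool.Agent.TightS.SBasic
import Pool.Agent.NTA.TailDefs

/-!
# TIP (helper84's tip lemma): definitions (helper69)

Words start at the origin upwards, the tip is the end of the word.

* `Tip H`: words that end with a bridge of height at least `H`;
* `cutS H L`, `cutN H L`: the cuts of `L` at depth at most `H` below a tip, behind a bridge of height at least `H`;
* `GTip K b η`: good tips at the scale `b`;
* `tipv`, `tipd`: position and direction of the tip;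
* `Fre r A Z1`: no vertex of `A` within distance `r` of the tip of `A ++ Z1`; `freeS`, `freeN`: the free cuts of the
  bridge `Z` behind `A`;
* `FreeT r L`: the half ball of radius `r` in front of the tip of `L` is free;
* `FTip K H r`: words in the box `K` with a tip of size `H` and a free half ball of radius `r`.

Rows: `UA` (helper69): few free cuts are rare, uniformly in the past `A`; `TipL`: the tip lemma.
-/

set_option autoImplicit false

namespace HexObs

namespace TIP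

open Finset TS SDN SIM

open scoped ENNReal

/-- words that end with a bridge of height at least H -/
def Tip (H : ℕ) : Set (List Bool) := {L | ∃ A B, L = A ++ B ∧ B ∈ BU ∧ H ≤ hgt B}

/-- the parts behind the cuts of L of depth at most H (behind a bridge of height at least H) -/
def cutS (H : ℕ) (L : List Bool) : Set (List Bool) := {Z | Z ∈ BU ∧ hgt Z ≤ H ∧ ∃ A ∈ Tip H, L = A ++ Z}

/-- their number -/
noncomputable def cutN (H : ℕ) (L : List Bool) : ℕ := (cutS H L).ncard

/-- good tips at the scale b -/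
def GTip (K b : ℕ) (η : ℝ) : Set (List Bool) := {L | L ∈ WL K ∧ η * Ub b ≤ (cutN (2 ^ (b - 1)) L : ℝ)}

/-- position of the tip -/
def tipv (L : List Bool) : Pt := vx oo up L L.length

/-- direction of the tip -/
def tipd (L : List Bool) : Pt := dx up L L.length

/-- no vertex of A within distance r of the tip of A ++ Z1 -/
def Fre (r : ℕ) (A Z1 : List Bool) : Prop := ∀ i, i ≤ A.length → vx oo up A i ∉ Bl (tipv (A ++ Z1)) r

/-- the parts behind the free cuts of the bridge Z behind A -/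
def freeS (r : ℕ) (A Z : List Bool) : Set (List Bool) := {Z2 | Z2 ∈ BU ∧ ∃ Z1 ∈ BU, Z = Z1 ++ Z2 ∧ Fre r A Z1}

/-- number of the free cuts -/
noncomputable def freeN (r : ℕ) (A Z : List Bool) : ℕ := (freeS r A Z).ncard

/-- the half ball of radius r in front of the tip is free -/
def FreeT (r : ℕ) (L : List Bool) : Prop :=
  ∀ i, i ≤ L.length → 0 < ip (vx oo up L i - tipv L) (tipd L) → vx oo up L i ∉ Bl (tipv L) r

/-- words in the box K with a tip of size H and a free half ball of radius r -/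
def FTip (K H r : ℕ) : Set (List Bool) := {L | L ∈ WL K ∧ L ∈ Tip H ∧ FreeT r L}

/-- **(UA), helper69**: bridges Z of height at most H behind an arbitrary word A with less than κ U(r) free cuts -/
def UA : Prop := ∃ κ C : ℝ, ∃ r0 : ℕ, 0 < κ ∧ 0 < C ∧ ∀ (A : List Bool) (r H : ℕ), r0 ≤ r →
  gf {Z | Z ∈ BU ∧ hgt Z ≤ H ∧ A ++ Z ∈ SA ∧ (freeN r A Z : ℝ) < κ * UU r} ≤ ENNReal.ofReal (C * UU r)

/-- the tip lemma -/
def TipL : Prop := ∀ η : ℝ, 0 < η → ∃ C : ℝ, 0 < C ∧ ∀ K b : ℕ, b ≤ K →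
  gf (GTip K b η) * NTA.Xb b ≤ ENNReal.ofReal (C * Ub K) * NTA.Xb K ^ 2

/-- **(M3)**: the mass of the words with a free half ball in front of the tip -/
def FTB : Prop := ∃ (C : ℝ) (q : ℕ), 0 < C ∧ ∀ K H e : ℕ, 2 ^ (e + q) ≤ H → H ≤ 2 ^ K →
  gf (FTip K H (2 ^ (e + q))) * NTA.Xb e ≤ ENNReal.ofReal (C * Ub K) * NTA.Xb K ^ 2

/-- **(M1 + M2)**: one step of the recursion. First term: few free cuts (UA) behind a good tip of the scale b - 1; second term:
one cut with a free half ball of radius r -/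
def TipStep : Prop := ∃ (C : ℝ) (r0 : ℕ), 0 < C ∧ ∀ (K b r : ℕ) (η : ℝ), 0 < η → 1 ≤ b → r0 ≤ r →
  gf (GTip K b η) ≤ ENNReal.ofReal (C * UU r / (η * Ub b)) * gf (GTip K (b - 1) (η / 8)) +
    ENNReal.ofReal (C * Ub b / UU r) * gf (FTip K (2 ^ (b - 1)) r)

/-! ### small facts -/

lemma hgt_nil : hgt [] = 0 := hgt_eq nil_mem_Brd

lemma nil_BU : ([] : List Bool) ∈ BU := ⟨0, nil_mem_Brd⟩

lemma BU_app {s t : List Bool} (hs : s ∈ BU) (ht : t ∈ BU) : s ++ t ∈ BU := by
  obtain ⟨m, hm⟩ := hs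
  obtain ⟨n, hn⟩ := ht
  exact ⟨m + n, Brd_append hm hn⟩

lemma hgt_app {s t : List Bool} (hs : s ∈ BU) (ht : t ∈ BU) : hgt (s ++ t) = hgt s + hgt t := by
  obtain ⟨m, hm⟩ := hs
  obtain ⟨n, hn⟩ := ht
  rw [hgt_eq hm, hgt_eq hn, hgt_eq (Brd_append hm hn)]

lemma BU_hgt {s : List Bool} (hs : s ∈ BU) : s ∈ Brd (hgt s) := by
  obtain ⟨m, hm⟩ := hs
  rwa [hgt_eq hm]

lemma Tip_mono {H H' : ℕ} (h : H' ≤ H) : Tip H ⊆ Tip H' := by
  rintro L ⟨A, B, h1, h2, h3⟩
  exact ⟨A, B, h1, h2, h.trans h3⟩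

lemma Tip_app {H : ℕ} {A Z : List Bool} (hA : A ∈ Tip H) (hZ : Z ∈ BU) : A ++ Z ∈ Tip H := by
  obtain ⟨A', B, rfl, h2, h3⟩ := hA
  refine ⟨A', B ++ Z, by rw [List.append_assoc], BU_app h2 hZ, ?_⟩
  rw [hgt_app h2 hZ]
  omega

/-- sets of suffixes are finite -/
lemma fin_suf {L : List Bool} {S : Set (List Bool)} (h : ∀ Z ∈ S, Z <:+ L) : S.Finite := by
  refine (List.finite_toSet L.tails).subset fun Z hZ => ?_
  rw [Set.mem_ofPred_eq, List.mem_tails]
  exact h Z hZ

lemma cutS_fin (H : ℕ) (L : List Bool) : (cutS H L).Finite :=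
  fin_suf fun Z hZ => by
    obtain ⟨-, -, A, -, h⟩ := hZ
    exact ⟨A, h.symm⟩

lemma freeS_fin (r : ℕ) (A Z : List Bool) : (freeS r A Z).Finite :=
  fin_suf fun Z2 h => by
    obtain ⟨-, Z1, -, h, -⟩ := h
    exact ⟨Z1, h.symm⟩

end TIP

end HexObs
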