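import Pool.Agent.TIP.Tip
import Pool.Agent.TIP.Defs

/-!
TIP: the words of a box are an admissible ensemble; the tip lemma for them (TipL); the form with reversed words (G6).
-/

set_option autoImplicit false

namespace HexObs

namespace TIP

open Finset TS SDN NTW NTA SIM

open scoped ENNReal

namespace EnsW

/-- rows in another frame -/
lemma row_rot {c : Pt} (hc : c ∈ dirs) {v : Pt} {R : ℤ} (h : ∀ dir, |row dir v| ≤ R) (dir : Bool) :
    |row dir (mulE c v)| ≤ 2 * R + 2 := by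
  have h1 := h false
  have h2 := h true
  clear h
  obtain ⟨x, y⟩ := v
  simp only [dirs, mem_insert, mem_singleton] at hc
  unfold row lvl ip hd up at *
  rw [abs_le] at *
  simp only [Bool.false_eq_true, if_false, if_true] at h1 h2
  rcases hc with rfl | rfl | rfl | rfl | rfl | rfl <;> cases dir <;>
    simp only [mulE, Bool.false_eq_true, if_false, if_true] <;> constructor <;> omega

/-- the sum of two vectors -/
lemma row_add {dir : Bool} {p q : Pt} {R S : ℤ} (hp : |row dir p| ≤ R) (hq : |row dir q| ≤ S) :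
    |row dir (p + q)| ≤ R + S + 1 := by
  have h1 : lvl dir (p + q) = lvl dir p + lvl dir q := by
    unfold lvl
    rw [ip_add_left]
  unfold row at *
  rw [h1]
  rw [abs_le] at *
  constructor <;> omega

/-- a short end -/
lemma glue_WL {K R : ℕ} {L e : List Bool} (hR : R ≤ 2 ^ K) (hL : L ∈ WL K) (he : BX R e) (h : L ++ e ∈ SA) :
    L ++ e ∈ WL (K + 3) := by
  refine ⟨h, fun i hi dir => ?_⟩
  have hK : (2 : ℤ) ^ (K + 3) = 8 * 2 ^ K := by rw [pow_add]; ring
  have hK1 : (1 : ℤ) ≤ 2 ^ K := one_le_pow₀ (by norm_num)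
  have hR' : (R : ℤ) ≤ 2 ^ K := by exact_mod_cast hR
  rw [hK]
  rcases Nat.lt_or_ge L.length i with h1 | h1
  · obtain ⟨j, rfl⟩ : ∃ j, i = L.length + j := ⟨i - L.length, by omega⟩
    rw [List.length_append] at hi
    rw [vx_general]
    have a1 := hL.2 L.length le_rfl dir
    have a2 := row_rot (frame_dir (dx_mem up_dirs L L.length)).1 (fun dir => he j (by omega) dir) dir
    have := row_add a1 a2
    omega
  · rw [vx_append (by omega)]
    have := hL.2 i h1 dir
    omega

lemma ref_up : ∃ C : ℝ, 1 ≤ C ∧ ∀ k i : ℕ, ENNReal.ofReal (Ub (k + i)) * Xb (k + i) ^ 2 ≤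
    ENNReal.ofReal (C ^ i) * (ENNReal.ofReal (Ub k) * Xb k ^ 2) := by
  obtain ⟨D, hD, hx⟩ := Xb_pow
  refine ⟨2 * D ^ 2, by nlinarith, fun k i => ?_⟩
  have hU0 := Ub_pos k
  calc ENNReal.ofReal (Ub (k + i)) * Xb (k + i) ^ 2
      ≤ ENNReal.ofReal (2 ^ i * Ub k) * (ENNReal.ofReal (D ^ i) * Xb k) ^ 2 :=
        mul_le_mul' (ENNReal.ofReal_le_ofReal (Ub_steps k i)) (pow_le_pow_left' (hx _ _) 2)
    _ = _ := by
        rw [mul_pow, ← ENNReal.ofReal_pow (by positivity), ← mul_assoc, ← ENNReal.ofReal_mul (by positivity),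
          ← mul_assoc, ← ENNReal.ofReal_mul (by positivity)]
        congr 2
        rw [mul_pow, ← pow_mul, ← pow_mul]
        ring

end EnsW

open EnsW

/-- **the words of a box are an admissible ensemble** -/
theorem ens_wl : ∃ C : ℝ, 1 ≤ C ∧ ∀ K m : ℕ, m ≤ K → Ens (WL K) (ENNReal.ofReal C * (ENNReal.ofReal (Ub K) * Xb K ^ 2)) m := by
  obtain ⟨C, hC, h⟩ := tot_WL
  obtain ⟨D, hD, hup⟩ := ref_up
  refine ⟨C * D ^ 3, ?_, fun K m hm => ?_⟩
  · have : 1 ≤ D ^ 3 := one_le_pow₀ hD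
    nlinarith
  have hbig : gf (WL (K + 3)) ≤ ENNReal.ofReal (C * D ^ 3) * (ENNReal.ofReal (Ub K) * Xb K ^ 2) := by
    refine (h (K + 3)).trans ?_
    rw [ENNReal.ofReal_mul (by linarith), mul_assoc]
    exact mul_le_mul_right (hup K 3) _
  refine ⟨fun t ht => ht.1, fun A Z h1 _ _ => ?_, ?_, fun R hR => ?_⟩
  · refine ⟨?_, fun i hi dir => ?_⟩
    · have := SA_take h1.1 A.length
      rwa [List.take_left'] at this
      rfl
    · have := h1.2 i (by rw [List.length_append]; omega) dir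
      rwa [vx_append (by omega)] at this
  · have h1 : WL K ⊆ WL (K + 3) := fun t ht => ⟨ht.1, fun i hi dir => (ht.2 i hi dir).trans
      (pow_le_pow_right₀ (by norm_num) (by omega))⟩
    exact (gf_mono h1).trans hbig
  · refine (gf_mono ?_).trans hbig
    rintro t ⟨ht, L, hL, e, he, rfl⟩
    exact glue_WL (hR.trans (Nat.pow_le_pow_right (by norm_num) hm)) hL he ht

/-- the tip lemma for the words of a box -/
theorem tip_WL (η : ℝ) (hη : 0 < η) : ∃ C : ℝ, 0 < C ∧ ∀ K b : ℕ, b ≤ K →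
    gf (WL K ∩ GT b η) * Xb b ≤ ENNReal.ofReal (C * Ub K) * Xb K ^ 2 := by
  obtain ⟨C, hC, h⟩ := tipSt η hη
  obtain ⟨D, hD, hE⟩ := ens_wl
  refine ⟨C * D, by positivity, fun K b hb => ?_⟩
  refine (h _ _ K (hE K K le_rfl) b hb).trans (le_of_eq ?_)
  rw [ENNReal.ofReal_mul (by positivity), ENNReal.ofReal_mul hC.le]
  ring

/-- the two numbers of cuts -/
lemma cutN_le (b : ℕ) (L : List Bool) : cutN (2 ^ b) L ≤ (cs b L).card := by
  classical
  have h1 : cutS (2 ^ b) L ⊆ ((cs b L).image fun j => L.drop j : Finset (List Bool)) := by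
    rintro Z ⟨h1, h2, A, hA, rfl⟩
    rw [mem_coe, mem_image]
    refine ⟨A.length, mem_cs.2 ⟨by rw [List.length_append]; omega, ?_, ?_, ?_⟩, ?_⟩
    · rwa [List.drop_left' rfl]
    · rwa [List.drop_left' rfl]
    · rw [List.take_left' rfl]
      exact hA
    · rw [List.drop_left' rfl]
  unfold cutN
  refine (Set.ncard_le_ncard h1 (finite_toSet _)).trans ?_
  rw [Set.ncard_coe_finset]
  exact card_image_le

/-- **TipL**: the tip lemma in the literal form of TIP/Defs -/
theorem tipL : TipL := by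
  intro η hη
  obtain ⟨C, hC, h⟩ := tip_WL η hη
  obtain ⟨D, hD, hx⟩ := Xb_pow
  refine ⟨D * C, by positivity, fun K b hb => ?_⟩
  have h1 : GTip K b η ⊆ WL K ∩ GT (b - 1) η := by
    rintro L ⟨hL, hc⟩
    refine ⟨hL, ?_⟩
    show η * Ub (b - 1) ≤ ((cs (b - 1) L).card : ℝ)
    have h2 : η * Ub (b - 1) ≤ η * Ub b := mul_le_mul_of_nonneg_left (Ub_mono (by omega)) hη.le
    have h3 : (cutN (2 ^ (b - 1)) L : ℝ) ≤ ((cs (b - 1) L).card : ℝ) := by exact_mod_cast cutN_le (b - 1) L
    linarith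
  have h2 : Xb b ≤ ENNReal.ofReal D * Xb (b - 1) := by
    rcases Nat.eq_zero_or_pos b with h0 | h0
    · rw [h0]
      calc Xb 0 = 1 * Xb 0 := (one_mul _).symm
        _ ≤ ENNReal.ofReal D * Xb (0 - 1) := by
            refine mul_le_mul' ?_ le_rfl
            rw [← ENNReal.ofReal_one]
            exact ENNReal.ofReal_le_ofReal hD
    · have := hx (b - 1) 1
      rwa [pow_one, Nat.sub_add_cancel h0] at this
  calc gf (GTip K b η) * Xb b ≤ gf (WL K ∩ GT (b - 1) η) * (ENNReal.ofReal D * Xb (b - 1)) :=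
        mul_le_mul' (gf_mono h1) h2
    _ = ENNReal.ofReal D * (gf (WL K ∩ GT (b - 1) η) * Xb (b - 1)) := by ring
    _ ≤ ENNReal.ofReal D * (ENNReal.ofReal (C * Ub K) * Xb K ^ 2) := mul_le_mul_right (h K (b - 1) (by omega)) _
    _ = _ := by
        rw [← mul_assoc, ← ENNReal.ofReal_mul (by linarith)]
        congr 2
        ring

end TIP

end HexObs
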