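import Pool.Agent.TIP.TipFam
import Pool.Agent.TIP.EnsW
import Pool.Agent.SIM.TopFd
import Pool.Agent.SIM.FirstL

/-!
TIP, row N (ExN), helper44: the tip lemma for the words of a box that start with a macroscopic leaf. The class of the scale b:
behind this leaf there is a vertex that does not lie in the strip of 2 ^ (b + 1) rows below the tip.
-/

set_option autoImplicit false

namespace HexObs

namespace TIP

open Finset TS SDN NTW NTA SIM

open scoped ENNReal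

/-- words of the box K that start with a leaf of the scale c (index a); a vertex i behind it is not in the strip of
2 ^ (b + 1) rows below the tip -/
def PB (c K b : ℕ) : Set (List Bool) :=
  {w | w ∈ WL K ∧ ∃ a i : ℕ, a ≤ i ∧ i ≤ w.length ∧ RR c ≤ lev w a ∧ (∀ j, 1 ≤ j → j ≤ a → 0 < lev w j) ∧
    (0 < lv (fr w (vx oo up w i)) ∨ lv (fr w (vx oo up w i)) < -(3 * 2 ^ (b + 1)))}

lemma lv_sub (p q : Pt) : lv (p - q) = lv p - lv q := by
  rw [lv_ip, lv_ip, lv_ip]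
  unfold ip
  simp only [Prod.fst_sub, Prod.snd_sub]
  ring

lemma fr_app (A Z : List Bool) (hZ : Z ∈ BU) (p : Pt) : fr (A ++ Z) p = fr A p - vx oo up Z Z.length := by
  unfold fr
  rw [tipd_BU hZ, tipv_app]
  have h1 : p - (tipv A + mulE (rotTo up (tipd A)) (vx oo up Z Z.length)) =
      (p - tipv A) - mulE (rotTo up (tipd A)) (vx oo up Z Z.length) := by abel
  rw [h1, mulE_sub, rot_back (tipd_mem A)]

/-- the level of a vertex below the tip of A ++ Z -/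
lemma lv_fr_app (A Z : List Bool) (hZ : Z ∈ BU) (p : Pt) : lv (fr (A ++ Z) p) = lv (fr A p) - 3 * hgt Z := by
  rw [fr_app A Z hZ, lv_sub, lv_vx, lev_end (BU_hgt hZ)]

/-- **removal of a low bridge** -/
lemma PB_pre {c K b : ℕ} {A Z : List Bool} (h : A ++ Z ∈ PB c K (b + 1)) (hZ : Z ∈ BU) (hh : hgt Z ≤ 2 ^ (b + 1)) :
    A ∈ PB c K b := by
  obtain ⟨⟨hsa, hbox⟩, a, i, hai, hi, hR, hpos, hlv⟩ := h
  have hhz : (hgt Z : ℤ) ≤ 2 ^ (b + 1) := by exact_mod_cast hh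
  have h0 : (0 : ℤ) ≤ hgt Z := by positivity
  have hpow : (2 : ℤ) ^ (b + 1 + 1) = 2 * 2 ^ (b + 1) := by rw [pow_succ]; ring
  have gZ := mem_Brd.1 (BU_hgt hZ)
  have hiA : i ≤ A.length := by
    by_contra hcon
    obtain ⟨j, rfl⟩ : ∃ j, i = A.length + j := ⟨i - A.length, by omega⟩
    rw [List.length_append] at hi
    rw [lv_fr_app A Z hZ, fr_front, lv_vx, hpow] at hlv
    have h1 := gZ.1 j (by omega) (by omega)
    omega
  refine ⟨⟨?_, fun i hi dir => ?_⟩, a, i, hai, hiA, ?_, fun j h1 h2 => ?_, ?_⟩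
  · have := SA_take hsa A.length
    rwa [List.take_left'] at this
    rfl
  · have := hbox i (by rw [List.length_append]; omega) dir
    rwa [vx_append (by omega)] at this
  · rwa [lev_append (by omega)] at hR
  · have := hpos j h1 h2
    rwa [lev_append (by omega)] at this
  · rw [lv_fr_app A Z hZ, vx_append (by omega), hpow] at hlv
    omega

lemma PB_bot (c K b : ℕ) : PB c K b ⊆ BotS c K := by
  rintro w ⟨hw, a, i, h1, h2, h3, h4, -⟩
  exact ⟨hw, a, h1.trans h2, h3, h4⟩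

/-- the mass of the words that start with a leaf -/
lemma tot_BotS : ∃ (C : ℝ) (k0 : ℕ), 1 ≤ C ∧ ∀ c K : ℕ, k0 ≤ c → c ≤ K →
    gf (BotS c (K + 3)) ≤ ENNReal.ofReal (C ^ (K - c + 8) * Ub K) * Xb K := by
  obtain ⟨C, k0, hC, h⟩ := half_first
  obtain ⟨D, hD, hx⟩ := Xb_pow
  have hCD : 1 ≤ C * (2 * D) := by nlinarith
  refine ⟨C * (2 * D), k0 + 5, hCD, fun c K hc hK => ?_⟩
  have hU := Ub_pos K
  have h1 : BotS c (K + 3) ⊆ FirstF (c - 5 + 5) (c - 5 + (K - c + 8)) := by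
    rw [show c - 5 + 5 = c by omega, show c - 5 + (K - c + 8) = K + 3 by omega]
    exact botS_sub (by omega)
  refine (gf_mono h1).trans ((h (c - 5) (K - c + 8) (by omega) (by omega)).trans ?_)
  rw [show c - 5 + (K - c + 8) = K + 3 by omega]
  have h2 : Ub (K + 3) ≤ 2 ^ 3 * Ub K := Ub_steps K 3
  have h3 := hx K 3
  have h4 : C ^ (K - c + 8) * (2 ^ 3 * Ub K) * D ^ 3 ≤ (C * (2 * D)) ^ (K - c + 8) * Ub K := by
    have hC0 : (0 : ℝ) ≤ C ^ (K - c + 8) := by positivity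
    rw [mul_pow C (2 * D), mul_assoc (C ^ (K - c + 8)) (2 ^ 3 * Ub K), mul_assoc (C ^ (K - c + 8))]
    refine mul_le_mul_of_nonneg_left ?_ hC0
    have h5 : (2 * D) ^ 3 ≤ (2 * D) ^ (K - c + 8) := pow_le_pow_right₀ (by linarith) (by omega)
    calc 2 ^ 3 * Ub K * D ^ 3 = (2 * D) ^ 3 * Ub K := by rw [mul_pow]; ring
      _ ≤ _ := mul_le_mul_of_nonneg_right h5 hU.le
  calc ENNReal.ofReal (C ^ (K - c + 8) * Ub (K + 3)) * Xb (K + 3)
      ≤ ENNReal.ofReal (C ^ (K - c + 8) * (2 ^ 3 * Ub K)) * (ENNReal.ofReal (D ^ 3) * Xb K) :=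
        mul_le_mul' (ENNReal.ofReal_le_ofReal (mul_le_mul_of_nonneg_left h2 (by positivity))) h3
    _ = ENNReal.ofReal (C ^ (K - c + 8) * (2 ^ 3 * Ub K) * D ^ 3) * Xb K := by
        rw [← mul_assoc, ← ENNReal.ofReal_mul (by positivity)]
    _ ≤ _ := mul_le_mul' (ENNReal.ofReal_le_ofReal h4) le_rfl

/-- **the classes PB c K are an admissible family** -/
theorem ens_PB : ∃ (C : ℝ) (k0 : ℕ), 1 ≤ C ∧ ∀ c K : ℕ, k0 ≤ c → c ≤ K →
    EnsF (PB c K) (ENNReal.ofReal (C ^ (K - c + 8) * Ub K) * Xb K) K := by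
  obtain ⟨C, k0, hC, h⟩ := tot_BotS
  refine ⟨C, k0, hC, fun c K hc hK => ?_⟩
  refine ⟨fun b w hw => hw.1.1, fun b A Z _ h1 h2 h3 => PB_pre h1 h2 h3, fun b _ => ?_, fun b R _ hR => ?_⟩
  · refine (gf_mono fun w hw => ?_).trans (h c K hc hK)
    obtain ⟨h1, h2⟩ := PB_bot c K b hw
    exact ⟨⟨h1.1, fun i hi dir => (h1.2 i hi dir).trans (pow_le_pow_right₀ (by norm_num) (by omega))⟩, h2⟩
  · refine (gf_mono ?_).trans (h c K hc hK)
    rintro t ⟨ht, L, hL, e, he, rfl⟩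
    obtain ⟨h1, a, h2, h3, h4⟩ := PB_bot c K b hL
    refine ⟨EnsW.glue_WL hR h1 he ht, a, by rw [List.length_append]; omega, ?_, fun j j1 j2 => ?_⟩
    · rwa [lev_append (by omega)]
    · rw [lev_append (by omega)]
      exact h4 j j1 j2

/-- **the tip lemma for the words that start with a macroscopic leaf** -/
theorem tip_PB (η : ℝ) (hη : 0 < η) (J : ℕ) : ∃ (C : ℝ) (k0 : ℕ), 0 < C ∧ ∀ c K b : ℕ, k0 ≤ c → c ≤ K → K ≤ c + J → b ≤ K →
    gf (PB c K b ∩ GT b η) * Xb b ≤ ENNReal.ofReal (C * Ub K) * Xb K := by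
  obtain ⟨C1, k0, hC1, h1⟩ := ens_PB
  obtain ⟨C2, hC2, h2⟩ := tipF η hη
  have hC10 : 0 < C1 := by linarith
  refine ⟨C2 * C1 ^ (J + 8), k0, by positivity, fun c K b hc hK hJ hb => ?_⟩
  have hU := Ub_pos K
  refine (h2 _ _ K (h1 c K hc hK) b hb).trans ?_
  rw [← mul_assoc, ← ENNReal.ofReal_mul hC2.le]
  refine mul_le_mul' (ENNReal.ofReal_le_ofReal ?_) le_rfl
  rw [mul_assoc]
  refine mul_le_mul_of_nonneg_left (mul_le_mul_of_nonneg_right (pow_le_pow_right₀ hC1 (by omega)) hU.le) hC2.le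

end TIP

end HexObs
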