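import Pool.Agent.TIP.TipX

/-!
TIP, row Nc: the closed form of tipx with a gap of j scales, and without conditions on the class Wd.
-/

set_option autoImplicit false

namespace HexObs

namespace TIP

open Finset TS SDN NTW NTA SIM

open scoped ENNReal

/-- **tipx with a gap of j scales** -/
theorem tipxJ (η : ℝ) (hη : 0 < η) : ∃ (C lam : ℝ) (j0 : ℕ), 1 ≤ C ∧ 1 < lam ∧
    ∀ (b j K : ℕ) (P P' Wd : Set (List Bool)) (w : ℝ) (M' : ℝ≥0∞), 1 ≤ j → j + j0 ≤ b → b ≤ K → P ⊆ WL K →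
    (∀ A Z1 Z2, A ++ (Z1 ++ Z2) ∈ P → Z1 ∈ BU → Z2 ∈ BU → hgt (Z1 ++ Z2) ≤ 2 ^ b → Z1 ++ Z2 ∉ Wd → A ++ Z1 ∈ P') →
    0 ≤ w → gf {Z | Z ∈ BU ∧ hgt Z ≤ 2 ^ b ∧ Z ∈ Wd} ≤ ENNReal.ofReal (w * Ub b) →
    gf {t | t ∈ SA ∧ ∃ L ∈ P', ∃ x, BX ((2 ^ b : ℕ) : ℤ) x ∧ t = L ++ x} ≤ M' →
    gf (P ∩ GT b η) * Xb b ≤ ENNReal.ofReal (C * ((lam ^ j)⁻¹ + w) * Ub K) * Xb K ^ 2 + ENNReal.ofReal (C ^ j) * M' := by
  obtain ⟨C, e0, hC, h⟩ := tipxg η hη
  obtain ⟨lam, hlam⟩ : ∃ lam : ℝ, lam = (2 : ℝ) ^ kap0 := ⟨_, rfl⟩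
  have hlam1 : 1 < lam := by
    rw [hlam]
    exact Real.one_lt_rpow (by norm_num) kap0_pos
  have hC3 : C ≤ C ^ 3 := le_self_pow₀ hC (by norm_num)
  refine ⟨2 * C ^ 3, lam, e0 + 2, by linarith, hlam1, fun b j K P P' Wd w M' hj hjb hbK hP h1 hw hW hM' => ?_⟩
  obtain ⟨e, he⟩ : ∃ e, b = e + (j + 2) := ⟨b - (j + 2), by omega⟩
  have hUb : (0 : ℝ) < Ub b := Ub_pos b
  have hUe : (0 : ℝ) < Ub e := Ub_pos e
  have hUK : (0 : ℝ) < Ub K := Ub_pos K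
  have hl0 : (0 : ℝ) < lam ^ j := by positivity
  have key := h P (P' ∩ SA) Wd K b e (ENNReal.ofReal (w * Ub b)) M' hP Set.inter_subset_right hbK (by omega) (by omega)
    (fun A Z1 Z2 a1 a2 a3 a4 a5 => ⟨h1 A Z1 Z2 a1 a2 a3 a4 a5, by
      have := SA_take (hP a1).1 (A ++ Z1).length
      rwa [← List.append_assoc, List.take_left' rfl] at this⟩) hW
    ((gf_mono (by
      rintro t ⟨a1, L, hL, x, hx, rfl⟩
      refine ⟨a1, L, hL.1, x, fun i hi dir => (hx i hi dir).trans ?_, rfl⟩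
      have h2 : (2 : ℕ) ^ e ≤ 2 ^ b := Nat.pow_le_pow_right (by norm_num) (by omega)
      exact_mod_cast h2)).trans hM')
  refine key.trans (add_le_add ?_ ?_)
  · rw [← ENNReal.ofReal_add hUe.le (by positivity), ← mul_assoc, ← ENNReal.ofReal_mul (by positivity),
      ← ENNReal.ofReal_mul (by positivity)]
    refine mul_le_mul_left (ENNReal.ofReal_le_ofReal ?_) _
    have hrat := GB.Ub_ratio_down (show e ≤ b by omega)
    have h2 : (2 : ℝ) ^ (-(kap0 * ((b : ℝ) - e))) ≤ (lam ^ j)⁻¹ := by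
      rw [hlam, ← Real.rpow_natCast, ← Real.rpow_mul (by norm_num), ← Real.rpow_neg (by norm_num)]
      refine Real.rpow_le_rpow_of_exponent_le (by norm_num) ?_
      have : (b : ℝ) = e + (j + 2) := by rw [he]; push_cast; ring
      have := kap0_pos
      nlinarith
    have h3 : Ub e / Ub b ≤ 2 * (lam ^ j)⁻¹ := by linarith
    have e1 : C / Ub b * (Ub e + w * Ub b) = C * (Ub e / Ub b + w) := by
      field_simp
    rw [e1]
    refine mul_le_mul_of_nonneg_right ?_ hUK.le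
    have h4 : 0 < (lam ^ j)⁻¹ := by positivity
    calc C * (Ub e / Ub b + w) ≤ C * (2 * (lam ^ j)⁻¹ + w) := by gcongr
      _ ≤ C ^ 3 * (2 * (lam ^ j)⁻¹ + 2 * w) := by
          refine mul_le_mul hC3 (by linarith) (by positivity) (by positivity)
      _ = _ := by ring
  · refine mul_le_mul_left (ENNReal.ofReal_le_ofReal ?_) _
    rw [show b - e = j + 2 by omega]
    have h5 : C ^ (j + 2) ≤ (C ^ 3) ^ j := by
      rw [← pow_mul]
      exact pow_le_pow_right₀ hC (by omega)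
    exact h5.trans (pow_le_pow_left₀ (by positivity) (by linarith) _)

end TIP

end HexObs
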