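import Pool.Agent.TIP.DefsU
import Pool.Agent.TightS.SBasic

/-!
TIP, U2 (helper41): a first passage bridge has, with a probability >= c, many cuts in the middle of the box in front of
its foot. From the facts U0 on antichains: two antichains of bridges, a piece that climbs to the middle of the box, and
the minimal bridges with many cuts in a small box.
-/

set_option autoImplicit false

namespace HexObs

namespace TIP

open Finset TS SDN SIM

open scoped ENNReal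

namespace FreeA

lemma BU_nil : ([] : List Bool) ∈ BU := ⟨0, nil_mem_Brd⟩

lemma BU_app {A B : List Bool} (hA : A ∈ BU) (hB : B ∈ BU) : A ++ B ∈ BU := RareA.BU_append hA hB

lemma Brd_hgt {A : List Bool} (hA : A ∈ BU) : A ∈ Brd (hgt A) := by
  obtain ⟨a, ha⟩ := hA
  rwa [hgt_eq ha]

lemma hgt_app {A B : List Bool} (hA : A ∈ BU) (hB : B ∈ BU) : hgt (A ++ B) = hgt A + hgt B :=
  hgt_eq (Brd_append (Brd_hgt hA) (Brd_hgt hB))

lemma dx_BU {A : List Bool} (hA : A ∈ BU) : dx up A A.length = up := by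
  obtain ⟨a, ha⟩ := hA
  exact (mem_Brd.1 ha).2.2.1

lemma lev_BU {A : List Bool} (hA : A ∈ BU) : lev A A.length = 3 * (hgt A : ℤ) :=
  (mem_Brd.1 (Brd_hgt hA)).2.2.2

lemma lev_BU_le {A : List Bool} (hA : A ∈ BU) {j : ℕ} (hj : j ≤ A.length) : 0 ≤ lev A j ∧ lev A j ≤ 3 * (hgt A : ℤ) := by
  rcases Nat.eq_zero_or_pos j with h | h
  · subst h
    rw [lev_zero]
    omega
  · have := (mem_Brd.1 (Brd_hgt hA)).1 j h hj
    omega

lemma latE_app {A : List Bool} (hA : A ∈ BU) (B : List Bool) : latE (A ++ B) = latE A + latE B := latE_cat (dx_BU hA)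

/-! ### the mass of a tube, all heights -/

lemma tub_UU (a : ℕ) {η : ℝ} (hη : 0 < η) : ∃ (c : ℝ) (ρ0 : ℕ), 0 < c ∧ 1 ≤ ρ0 ∧ ∀ ρ : ℕ, ρ0 ≤ ρ →
    ENNReal.ofReal (c * UU (3 * ρ)) ≤ gf (Tub a η ρ) := by
  obtain ⟨c, ρ0, hc, h0, hm⟩ := tub_mass a hη
  have hC := RP.LocalT.C0_pos
  refine ⟨c / (3 * (6 + CW)), ρ0, by positivity, h0, fun ρ hρ => ?_⟩
  have hsub : (⋃ t ∈ Icc (2 * ρ) (3 * ρ), {G | G ∈ Brd t ∧ G ∈ Tub a η ρ}) ⊆ Tub a η ρ := by
    intro G hG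
    rw [Set.mem_iUnion₂] at hG
    obtain ⟨t, -, hG⟩ := hG
    exact hG.2
  refine le_trans ?_ (gf_mono hsub)
  have hdis : ∀ i ∈ Icc (2 * ρ) (3 * ρ), ∀ j ∈ Icc (2 * ρ) (3 * ρ), i ≠ j →
      Disjoint {G | G ∈ Brd i ∧ G ∈ Tub a η ρ} {G | G ∈ Brd j ∧ G ∈ Tub a η ρ} := by
    intro i _ j _ hij
    rw [Set.disjoint_left]
    intro G hi hj
    exact hij ((hgt_eq hi.1).symm.trans (hgt_eq hj.1))
  rw [gf_biUnion _ _ hdis]
  have hterm : ∀ t ∈ Icc (2 * ρ) (3 * ρ), ENNReal.ofReal (c * uu (3 * ρ)) ≤ gf {G | G ∈ Brd t ∧ G ∈ Tub a η ρ} := by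
    intro t ht
    rw [mem_Icc] at ht
    refine le_trans (ENNReal.ofReal_le_ofReal ?_) (hm ρ hρ t ht.1 ht.2)
    exact mul_le_mul_of_nonneg_left (uu_anti ht.2) hc.le
  refine le_trans ?_ (sum_le_sum hterm)
  rw [sum_const, Nat.card_Icc, nsmul_eq_mul, ← ENNReal.ofReal_natCast, ← ENNReal.ofReal_mul (Nat.cast_nonneg _)]
  apply ENNReal.ofReal_le_ofReal
  have h1 := UU_le_mul (T := 3 * ρ) (by omega)
  have h2 : (ρ : ℝ) ≤ ((3 * ρ + 1 - 2 * ρ : ℕ) : ℝ) := by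
    have : ρ ≤ 3 * ρ + 1 - 2 * ρ := by omega
    exact_mod_cast this
  have hu := uu_pos (3 * ρ)
  calc c / (3 * (6 + CW)) * UU (3 * ρ) ≤ c / (3 * (6 + CW)) * ((6 + CW) * (((3 * ρ : ℕ) : ℝ) * uu (3 * ρ))) :=
        mul_le_mul_of_nonneg_left h1 (by positivity)
    _ = ρ * (c * uu (3 * ρ)) := by
        push_cast
        field_simp
    _ ≤ _ := mul_le_mul_of_nonneg_right h2 (by positivity)

/-! ### antichains -/

lemma Mi_sub {S : Set (List Bool)} : Mi S ⊆ S := fun _ h => h.1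

lemma AC_Mi (S : Set (List Bool)) : AC (Mi S) := fun _ hW X hX Y hY h => hW.2 X hX.1 Y hY h

lemma mi_ge (hM : MiMass) {S : Set (List Bool)} {R : ℕ} {c : ℝ} (hS : S ⊆ BU) (hR : ∀ W ∈ S, hgt W ≤ R) (hc : 0 ≤ c)
    (h : ENNReal.ofReal (c * UU R) ≤ gf S) : ENNReal.ofReal c ≤ gf (Mi S) := by
  have h1 := h.trans (hM R S hS hR)
  rw [ENNReal.ofReal_mul hc] at h1
  have hU : 0 < UU R := Num2Aux.UU_pos R
  refine (ENNReal.mul_le_mul_iff_left ?_ ENNReal.ofReal_ne_top).1 h1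
  exact (ENNReal.ofReal_pos.2 hU).ne'

lemma ac_le_one (h1 : FpOne) (h2 : FpAC) {S : Set (List Bool)} {R : ℕ} (hS : S ⊆ BU) (hA : AC S)
    (hR : ∀ W ∈ S, hgt W ≤ R) : gf S ≤ 1 :=
  (h2 R S hS hA hR).trans ((gf_mono Set.inter_subset_left).trans (h1 R).le)

/-! ### the cuts in a small box -/

open Classical in
/-- the cuts of V in a small box -/
noncomputable def cf (r : ℕ) (V : List Bool) : Finset ℕ := (range (V.length + 1)).filter fun j =>
  V.take j ∈ BU ∧ V.drop j ∈ BU ∧ 4 * |lat V j| ≤ r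

open Classical in
lemma mem_cf {r : ℕ} {V : List Bool} {j : ℕ} : j ∈ cf r V ↔
    j ≤ V.length ∧ V.take j ∈ BU ∧ V.drop j ∈ BU ∧ 4 * |lat V j| ≤ r := by
  unfold cf
  rw [mem_filter, mem_range, Nat.lt_succ_iff]

/-- short bridges -/
def Sm (r : ℕ) : Set (List Bool) := {V | V ∈ BU ∧ 4 * hgt V ≤ r ∧ 4 * |latE V| ≤ r}

lemma end_mem {r : ℕ} {V : List Bool} (hV : V ∈ Sm r) : V.length ∈ cf r V := by
  rw [mem_cf]
  refine ⟨le_rfl, ?_, ?_, hV.2.2⟩
  · rw [List.take_length]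
    exact hV.1
  · rw [List.drop_length]
    exact BU_nil

lemma cf_app {r : ℕ} {X Y : List Bool} (hY : Y ∈ BU) : cf r X ⊆ cf r (X ++ Y) := by
  intro j hj
  rw [mem_cf] at hj ⊢
  obtain ⟨h1, h2, h3, h4⟩ := hj
  refine ⟨by rw [List.length_append]; omega, ?_, ?_, ?_⟩
  · rwa [List.take_append_of_le_length h1]
  · rw [List.drop_append_of_le_length h1]
    exact BU_app h3 hY
  · rwa [lat_append (by omega)]

lemma card_lt {r : ℕ} {X Y : List Bool} (hY : Y ∈ BU) (h : X ++ Y ∈ Sm r) (hne : Y ≠ []) :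
    (cf r X).card < (cf r (X ++ Y)).card := by
  refine card_lt_card ⟨cf_app hY, fun hc => ?_⟩
  have h1 := hc (end_mem h)
  rw [mem_cf, List.length_append] at h1
  exact hne (List.length_eq_zero_iff.1 (by omega))

/-- many cuts -/
def Mn (r m : ℕ) : Set (List Bool) := {V | V ∈ Sm r ∧ m ≤ (cf r V).card}

/-- short bridges have many cuts in the small box, up to a small part of the mass -/
lemma mn_ge (h1 : FpOne) (h2 : FpAC) (r m : ℕ) : gf (Sm r) ≤ gf (Mn r (m + 1)) + m := by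
  obtain ⟨F, hF⟩ : ∃ F : ℕ → Set (List Bool), F = fun k => {V | V ∈ Sm r ∧ (cf r V).card = k} := ⟨_, rfl⟩
  have hsub : Sm r ⊆ Mn r (m + 1) ∪ ⋃ k ∈ Icc 1 m, F k := by
    intro V hV
    by_cases h : m + 1 ≤ (cf r V).card
    · exact Or.inl ⟨hV, h⟩
    · right
      rw [Set.mem_iUnion₂]
      refine ⟨(cf r V).card, ?_, ?_⟩
      · rw [mem_Icc]
        have : 0 < (cf r V).card := card_pos.2 ⟨_, end_mem hV⟩
        omega
      · rw [hF]
        exact ⟨hV, rfl⟩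
  refine (gf_mono hsub).trans ((gf_union_le _ _).trans (add_le_add le_rfl ?_))
  refine (GgJumpAux.gf_biUnion_le _ _).trans ?_
  have hk : ∀ k ∈ Icc 1 m, gf (F k) ≤ 1 := by
    intro k _
    rw [hF]
    refine ac_le_one h1 h2 (R := r) (fun V hV => hV.1.1) ?_ ?_
    · rintro W ⟨hW, hWk⟩ X ⟨hX, hXk⟩ Y hY rfl
      by_contra hne
      have := card_lt hY hW hne
      omega
    · intro V hV
      have := hV.1.2.1
      omega
  refine (sum_le_sum hk).trans (le_of_eq ?_)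
  rw [sum_const, Nat.card_Icc, nsmul_eq_mul, mul_one, Nat.add_sub_cancel]


open Classical in
lemma mc_ge {r : ℕ} {X V Y : List Bool} (hX : X ∈ BU) (hV : V ∈ BU) (hY : Y ∈ BU) (h1 : 3 * r ≤ hgt X)
    (h2 : 3 * hgt X + 3 * hgt V ≤ 15 * r) (h3 : 4 * |latE X| ≤ 3 * r) : (cf r V).card ≤ mc r ((X ++ V) ++ Y) := by
  unfold mc
  refine card_le_card_of_injOn (fun j => X.length + j) ?_ ?_
  · intro j hj
    rw [mem_coe, mem_cf] at hj
    obtain ⟨g1, g2, g3, g4⟩ := hj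
    have hd := dx_BU hX
    have elev : lev ((X ++ V) ++ Y) (X.length + j) = 3 * (hgt X : ℤ) + lev V j := by
      rw [List.append_assoc, lev_cat hd, lev_append (by omega), lev_BU hX]
    have elat : lat ((X ++ V) ++ Y) (X.length + j) = latE X + lat V j := by
      rw [List.append_assoc, lat_cat hd, lat_append (by omega)]
    have hl := lev_BU_le hV g1
    rw [mem_coe, mem_filter, mem_range]
    simp only [List.length_append, elev, elat]
    refine ⟨by omega, ?_, ?_, ?_, ?_, ?_⟩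
    · rw [List.append_assoc, List.take_length_add_append, List.take_append_of_le_length g1]
      exact BU_app hX g2
    · rw [List.append_assoc, List.drop_length_add_append, List.drop_append_of_le_length g1]
      exact BU_app g3 hY
    · omega
    · omega
    · have := abs_add_le (latE X) (lat V j)
      omega
  · intro a _ b _ hab
    simp only at hab
    omega

end FreeA

open FreeA

/-- U2 from the facts U0 -/
theorem free_of (h1 : FpOne) (h2 : FpAC) (h3 : MiMass) (h4 : AcMul) (h5 : AcAc) : FreeSt := by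
  obtain ⟨c, ρ0, hc, hρ0, ht⟩ := tub_UU 0 (η := 1) one_pos
  refine ⟨c * (c / 64), c / 64, 8, 32 * ρ0 + 32, by positivity, by positivity, by norm_num, fun r hr => ?_⟩
  -- the first piece
  obtain ⟨ρ, hρ⟩ : ∃ ρ : ℕ, ρ = (3 * r + 1) / 2 := ⟨_, rfl⟩
  have hρ1 : 3 * r ≤ 2 * ρ := by omega
  have hρ2 : 2 * ρ ≤ 3 * r + 1 := by omega
  have hS1 : Tub 0 1 ρ ⊆ BU := by
    rintro G ⟨t, -, -, hG, -⟩
    exact ⟨t, hG⟩
  have hS1h : ∀ G ∈ Tub 0 1 ρ, 2 * ρ ≤ hgt G ∧ hgt G ≤ 3 * ρ ∧ 0 ≤ latE G ∧ 4 * latE G ≤ ρ + 4 := by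
    rintro G ⟨t, h6, h7, hG, h8, h9, -⟩
    rw [hgt_eq hG]
    push_cast at h8 h9
    refine ⟨h6, h7, by omega, by omega⟩
  have hm1 : ENNReal.ofReal c ≤ gf (Mi (Tub 0 1 ρ)) :=
    mi_ge h3 hS1 (fun G hG => (hS1h G hG).2.1) hc.le (ht ρ (by omega))
  -- the second piece
  obtain ⟨σ, hσ⟩ : ∃ σ : ℕ, σ = r / 16 := ⟨_, rfl⟩
  have hσ1 : r ≤ 32 * σ := by omega
  have hU0 : 0 < UU r := Num2Aux.UU_pos r
  have hUσ : UU r ≤ 32 * UU (3 * σ) := by
    have e1 := Num2Aux.UU_mono hσ1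
    have e2 := UU_double (16 * σ)
    have e3 := UU_double (8 * σ)
    have e4 := UU_double (4 * σ)
    have e5 := UU_double (2 * σ)
    have e6 := UU_double σ
    have e7 := Num2Aux.UU_mono (show σ ≤ 3 * σ by omega)
    rw [show 2 * (16 * σ) = 32 * σ by ring] at e2
    rw [show 2 * (8 * σ) = 16 * σ by ring] at e3
    rw [show 2 * (4 * σ) = 8 * σ by ring] at e4
    rw [show 2 * (2 * σ) = 4 * σ by ring] at e5
    linarith
  have hS2 : Tub 0 1 σ ⊆ Sm r := by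
    rintro G ⟨t, h6, h7, hG, h8, h9, -⟩
    refine ⟨⟨t, hG⟩, ?_, ?_⟩
    · rw [hgt_eq hG]
      omega
    · push_cast at h8 h9
      rw [abs_of_nonneg (by omega)]
      omega
  obtain ⟨m, hm⟩ : ∃ m : ℕ, m = ⌊c / 64 * UU r⌋₊ := ⟨_, rfl⟩
  have hm0 : (m : ℝ) ≤ c / 64 * UU r := by
    rw [hm]
    exact Nat.floor_le (by positivity)
  have hm2 : c / 64 * UU r < m + 1 := by
    rw [hm]
    exact Nat.lt_floor_add_one _
  have hS3 : ENNReal.ofReal (c / 64 * UU r) ≤ gf (Mn r (m + 1)) := by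
    have g1 := ((ht σ (by omega)).trans (gf_mono hS2)).trans (mn_ge h1 h2 r m)
    have g2 : ENNReal.ofReal (c / 64 * UU r) + (m : ℝ≥0∞) ≤ ENNReal.ofReal (c * UU (3 * σ)) := by
      rw [← ENNReal.ofReal_natCast m, ← ENNReal.ofReal_add (by positivity) (Nat.cast_nonneg _)]
      apply ENNReal.ofReal_le_ofReal
      have : c * UU r ≤ c * (32 * UU (3 * σ)) := mul_le_mul_of_nonneg_left hUσ hc.le
      linarith
    exact (ENNReal.add_le_add_iff_right (ENNReal.natCast_ne_top m)).1 (g2.trans g1)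
  have hMnB : Mn r (m + 1) ⊆ BU := fun V hV => hV.1.1
  have hMnh : ∀ V ∈ Mn r (m + 1), 4 * hgt V ≤ r := fun V hV => hV.1.2.1
  have hm3 : ENNReal.ofReal (c / 64) ≤ gf (Mi (Mn r (m + 1))) :=
    mi_ge h3 hMnB (R := r) (fun V hV => by have := hMnh V hV; omega) (by positivity) hS3
  -- both pieces
  have hMB1 : Mi (Tub 0 1 ρ) ⊆ BU := Mi_sub.trans hS1
  have hMB2 : Mi (Mn r (m + 1)) ⊆ BU := Mi_sub.trans hMnB
  obtain ⟨K, hK⟩ : ∃ K : Set (List Bool), K = {W | ∃ X ∈ Mi (Tub 0 1 ρ), ∃ Y ∈ Mi (Mn r (m + 1)), W = X ++ Y} := ⟨_, rfl⟩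
  have hKA : AC K := by
    rw [hK]
    exact h5 _ (fun _ => Mi (Mn r (m + 1))) hMB1 (AC_Mi _) (fun _ _ => hMB2) (fun _ _ => AC_Mi _)
  have hKm : ENNReal.ofReal (c * (c / 64)) ≤ gf K := by
    rw [hK, ENNReal.ofReal_mul hc.le]
    exact (mul_le_mul' hm1 le_rfl).trans
      (h4 _ (fun _ => Mi (Mn r (m + 1))) _ hMB1 (AC_Mi _) (fun _ _ => hMB2) (fun _ _ => hm3))
  have hKB : K ⊆ BU := by
    rw [hK]
    rintro W ⟨X, hX, V, hV, rfl⟩
    exact BU_app (hMB1 hX) (hMB2 hV)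
  have hKh : ∀ W ∈ K, hgt W ≤ 8 * r := by
    rw [hK]
    rintro W ⟨X, hX, V, hV, rfl⟩
    rw [hgt_app (hMB1 hX) (hMB2 hV)]
    have g1 := hS1h X hX.1
    have g2 := hMnh V hV.1
    omega
  refine hKm.trans ((h2 (8 * r) K hKB hKA hKh).trans (gf_mono ?_))
  rintro W ⟨hW, W', hW', Y, hY, rfl⟩
  refine ⟨hW, ?_⟩
  rw [hK] at hW'
  obtain ⟨X, hX, V, hV, rfl⟩ := hW'
  have g1 := hS1h X hX.1
  have g2 := hMnh V hV.1
  have g3 := mc_ge (r := r) (hMB1 hX) (hMB2 hV) hY (by omega) (by omega) (by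
    rw [abs_of_nonneg g1.2.2.1]
    omega)
  have g4 : ((m + 1 : ℕ) : ℝ) ≤ (mc r ((X ++ V) ++ Y) : ℝ) := by
    exact_mod_cast hV.1.2.trans g3
  push_cast at g4
  linarith

end TIP

end HexObs
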