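import Pool.Agent.W47.Triangle
import Pool.Agent.TIP.FP
import Pool.Agent.TIP.Free

/-!
# TIP, the odd turn (helper85; rows O1 and O2 of the doc nu34/SOFT_34)

Words start at the origin upwards, the tip is the end of the word.

* `Tr L` : walks of the equilateral triangle above the origin that leave it through the right side (exit direction
  `rotR up`); **`tri_BT`** : `BT (2 L) ≤ 2 gf (Tr L)`, from the exact identity of the triangle;
* `Vc l` : a bridge of height between `2 ^ (l + 4)` and `3 2 ^ (l + 3)` in a narrow tube, followed by a word of `Tr L`,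
  `2 ^ (l + 3) ≤ L < 2 ^ (l + 4)`;
* `Vc_SSt`, `Vc_SA`, `Vc_odd`, `Vc_dir`, `Vc_box`, `Vc_hgt`, `Vc_free` : geometry;
* **`Vc_mass`** : `c UU (2 ^ l) ≤ gf (Vc l)`.
-/

set_option autoImplicit false

namespace HexObs

namespace TIP

open Finset TS SDN SIM

open scoped ENNReal

/-! ### 1. The triangle -/

/-- walks of the triangle that leave it through the right side -/
def Tr (L : ℕ) : Set (List Bool) := out (trap oo up (2 * L) L) oo up (rotR up)

/-- the exact identity of the triangle against the one of the strip -/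
theorem tri_BT {L : ℕ} (hL : 1 ≤ L) : BT (2 * L) ≤ 2 * gf (Tr L) := by
  have h1 := tri_identity hL
  have h2 := strip_identity (v0 := oo) tri_up_mem (T := 2 * L) (by omega)
  rw [gf_B tri_up_mem oo (2 * L), gf_A tri_up_mem oo (2 * L), ← h1] at h2
  have hfin : ENNReal.ofReal (Real.cos (3 * Real.pi / 8)) * AT (2 * L) ≠ ∞ :=
    ENNReal.mul_ne_top ENNReal.ofReal_ne_top (AT_ne_top (by omega))
  refine (ENNReal.add_le_add_iff_right hfin).1 ?_
  rw [h2]
  refine add_le_add (mul_le_mul' ?_ le_rfl) (mul_le_mul' le_rfl (tri_down hL))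
  rw [show (2 : ℝ≥0∞) = ENNReal.ofReal 2 by simp]
  apply ENNReal.ofReal_le_ofReal
  linarith [Real.cos_le_one (Real.pi / 8)]

lemma lat_one (t : List Bool) (i : ℕ) : lat t i = (vx oo up t i).1 := by
  unfold lat
  simp only [cross, up]
  ring

/-- the length of a bridge is even -/
lemma brd_even {r : ℕ} {c : List Bool} (h : c ∈ Brd r) : c.length.bodd = false := by
  have h1 : Even c.length := by
    by_contra hne
    have h2 := cl_dx up c c.length
    rw [if_neg hne, (mem_Brd.1 h).2.2.1] at h2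
    revert h2
    decide
  rw [Nat.even_iff, Nat.mod_two_of_bodd] at h1
  cases hb : c.length.bodd
  · rfl
  · rw [hb] at h1
    exact absurd h1 (by decide)

lemma ip_R (v : Pt) : 2 * ip v (rotR up) = ip v up + 3 * v.1 := by
  simp only [ip, rotR, up]
  ring

lemma lvl_true (v : Pt) : lvl true v = -ip v (rotR up) := by
  simp only [lvl, SDN.hd, ip, rotR, up, if_true]
  ring

lemma lvl_false (v : Pt) : lvl false v = ip v up := by
  simp only [lvl, SDN.hd, Bool.false_eq_true, if_false]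

/-- the levels of the direction `rotR up` are 0 or 1 modulo 3 -/
lemma mod_R {v : Pt} (h : IsHex oo up v) : (3 : ℤ) ∣ ip v (rotR up) ∨ (3 : ℤ) ∣ ip v (rotR up) - 1 := by
  have h1 := ip_mod v (rotR up)
  have h2 : cl (rotR up) = 1 := by decide
  rw [h2, mul_one] at h1
  rcases h with h | h
  · left
    have h3 : cl v = 0 := by rw [h]; decide
    rw [h3, neg_zero] at h1
    exact (ZMod.intCast_zmod_eq_zero_iff_dvd _ 3).1 h1
  · right
    have h3 : cl v = 2 := by rw [h]; decide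
    rw [h3] at h1
    have h4 : ((ip v (rotR up) - 1 : ℤ) : ZMod 3) = 0 := by
      push_cast
      rw [h1]
      decide
    exact (ZMod.intCast_zmod_eq_zero_iff_dvd _ 3).1 h4

/-- facts about the words of the triangle -/
lemma tr_facts {L : ℕ} (hL : 1 ≤ L) {W : List Bool} (hW : W ∈ Tr L) : dx up W W.length = rotR up ∧ W.length.bodd = true ∧
    W ∈ SSt (2 * L) ∧ ip (vx oo up W W.length) (rotR up) = 3 * L - 2 ∧
    ∀ i, i ≤ W.length → ip (vx oo up W i) (rotR up) ≤ 3 * L - 2 ∧ -(3 * (L : ℤ)) < ip (vx oo up W i) (rotR up) ∧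
      0 ≤ lev W i ∧ lev W i < 6 * L := by
  obtain ⟨h1, h2, h3⟩ := hW
  obtain ⟨⟨a1, a2, a3, a4, a5⟩, ⟨b1, b2, b3, b4⟩, ⟨c1, c2, c3⟩, -, -⟩ := dirs_distinct up tri_up_mem
  have hLz : (1 : ℤ) ≤ L := by exact_mod_cast hL
  have ho : ∀ v : Pt, v - oo = v := fun v => sub_zero v
  have htip : ip (tip oo up W) (rotR up) = 3 * L := by
    rcases trap_exit tri_up_mem (by omega) hL h1 h2 with ⟨hd, -⟩ | ⟨hd, -⟩ | ⟨b, hd, hi, -⟩
    · rw [h3] at hd
      exact absurd hd.symm c3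
    · rw [h3] at hd
      exact absurd hd a2
    · rw [h3] at hd
      cases b
      · rw [ho] at hi
        exact hi
      · exact absurd hd b1
  have hlast : ip (vx oo up W W.length) (rotR up) = 3 * L - 2 := by
    have e := tip_eq (v0 := oo) (d0 := up) W
    rw [e, h3, ip_add_left, ip_self_dir (rotR_mem tri_up_mem)] at htip
    linarith
  have hodd : W.length.bodd = true := by
    have hne : ¬ Even W.length := by
      intro he
      have h5 := cl_dx up W W.length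
      rw [if_pos he, h3] at h5
      revert h5
      decide
    rw [Nat.even_iff, Nat.mod_two_of_bodd] at hne
    cases hb : W.length.bodd
    · rw [hb] at hne
      exact absurd rfl hne
    · rfl
  refine ⟨h3, hodd, ?_, hlast, ?_⟩
  · refine ⟨fun i hi hil => ?_, h1.inj⟩
    obtain ⟨⟨-, g1, g2⟩, -, -⟩ := h1.mem i hi hil
    rw [ho] at g1 g2
    rw [mem_St]
    exact ⟨g1, g2⟩
  · intro i hi
    rcases Nat.eq_zero_or_pos i with hz | hp
    · rw [hz, lev_zero]
      have : ip (vx oo up W 0) (rotR up) = 0 := by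
        show ip oo (rotR up) = 0
        decide
      rw [this]
      omega
    · obtain ⟨⟨g0, g1, g2⟩, g3, g4⟩ := h1.mem i hp hi
      rw [ho] at g1 g2 g3 g4
      have h5 := ip_rot_sum (vx oo up W i) up
      have h6 := mod_R g0
      have e : lev W i = ip (vx oo up W i) up := rfl
      rw [e]
      omega

/-! ### 2. The bridge in front -/

/-- bridges in a narrow tube, minimal ones -/
def VbO (l : ℕ) : Set (List Bool) := Mi (Tub 0 (1 / 12) (2 ^ (l + 3)))

lemma vb_facts {l : ℕ} {B : List Bool} (hB : B ∈ VbO l) : ∃ t : ℕ, 2 ^ (l + 4) ≤ t ∧ t ≤ 3 * 2 ^ (l + 3) ∧ B ∈ Brd t ∧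
    ∀ i, i ≤ B.length → -(2 * 2 ^ l : ℤ) ≤ lat B i ∧ lat B i ≤ 4 * 2 ^ l + 1 ∧ lat B i - lat B B.length ≤ 2 * 2 ^ l ∧
      0 ≤ lev B i ∧ lev B i ≤ lev B B.length := by
  obtain ⟨t, h1, h2, h3, h4, h5, h6⟩ := hB.1
  refine ⟨t, by rw [pow_succ]; omega, h2, h3, fun i hi => ?_⟩
  obtain ⟨g1, g2⟩ := h6 i hi
  have ht : (t : ℝ) ≤ 24 * 2 ^ l := by
    have : t ≤ 24 * 2 ^ l := by
      rw [pow_add] at h2
      omega
    exact_mod_cast this
  have g3 : (-(2 * 2 ^ l : ℤ)) ≤ lat B i := by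
    have : ((-(2 * 2 ^ l : ℤ) : ℤ) : ℝ) ≤ lat B i := by
      push_cast
      linarith
    exact_mod_cast this
  have g4 : lat B i - latE B ≤ 2 * 2 ^ l := by
    have : ((lat B i - latE B : ℤ) : ℝ) ≤ ((2 * 2 ^ l : ℤ) : ℝ) := by
      push_cast
      linarith
    exact_mod_cast this
  have g5 : latE B = lat B B.length := rfl
  have g6 : 4 * latE B ≤ 8 * 2 ^ l + 4 := by
    push_cast at h5
    rw [pow_add] at h5
    linarith
  have g7 : 0 ≤ lev B i ∧ lev B i ≤ lev B B.length := by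
    obtain ⟨k1, -, -, k4⟩ := mem_Brd.1 h3
    rcases Nat.eq_zero_or_pos i with hz | hp
    · rw [hz, lev_zero, k4]
      omega
    · have := k1 i hp hi
      rw [k4]
      omega
  rw [g5] at g4 g6
  refine ⟨g3, by linarith, g4, g7⟩

/-- **the mass of the bridges in front** -/
lemma vb_mass : ∃ (c : ℝ) (l0 : ℕ), 0 < c ∧ ∀ l, l0 ≤ l → ENNReal.ofReal c ≤ gf (VbO l) := by
  obtain ⟨c, ρ0, hc, h0, h⟩ := FreeA.tub_UU 0 (show (0 : ℝ) < 1 / 12 by norm_num)
  refine ⟨c, ρ0, hc, fun l hl => ?_⟩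
  have h1 : ρ0 ≤ 2 ^ (l + 3) := by
    have h2 : l < 2 ^ l := Nat.lt_two_pow_self
    have h3 : 2 ^ l ≤ 2 ^ (l + 3) := Nat.pow_le_pow_right (by norm_num) (by omega)
    omega
  refine FreeA.mi_ge miMass ?_ ?_ hc.le (h _ h1)
  · rintro B ⟨t, -, -, hB, -⟩
    exact ⟨t, hB⟩
  · rintro B ⟨t, -, h2, hB, -⟩
    rwa [hgt_eq hB]

/-! ### 3. The words -/

/-- a bridge in a narrow tube, then a walk of a triangle that leaves it through the right side -/
def Vc (l : ℕ) : Set (List Bool) := {V | ∃ B ∈ VbO l, ∃ L, 2 ^ (l + 3) ≤ L ∧ L < 2 ^ (l + 4) ∧ ∃ W ∈ Tr L, V = B ++ W}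

lemma one_le_L {l L : ℕ} (h : 2 ^ (l + 3) ≤ L) : 1 ≤ L := le_trans Nat.one_le_two_pow h

/-- (1) the words of `Vc` are words of a strip -/
theorem Vc_SSt {l : ℕ} {V : List Bool} (hV : V ∈ Vc l) : V ∈ SSt (2 ^ (l + 6)) := by
  obtain ⟨B, hB, L, hL1, hL2, W, hW, rfl⟩ := hV
  obtain ⟨t, ht1, ht2, hBt, -⟩ := vb_facts hB
  obtain ⟨-, -, h3, -⟩ := tr_facts (one_le_L hL1) hW
  refine BAR.SSt_mono ?_ (BAR.SSt_cat hBt h3)
  rw [pow_add] at ht2 hL2 ⊢
  omega

theorem Vc_SA {l : ℕ} {V : List Bool} (hV : V ∈ Vc l) : V ∈ SA :=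
  ⟨fun _ _ _ => Set.mem_univ _, (Vc_SSt hV).inj⟩

/-- the vertices of V -/
lemma Vc_vx {l : ℕ} {V : List Bool} (hV : V ∈ Vc l) : ∃ B ∈ VbO l, ∃ L, 2 ^ (l + 3) ≤ L ∧ L < 2 ^ (l + 4) ∧ ∃ W ∈ Tr L,
    V = B ++ W ∧ V.length = B.length + W.length ∧ dx up B B.length = up ∧ (∀ i, i ≤ V.length →
      (i ≤ B.length ∧ vx oo up V i = vx oo up B i) ∨ ∃ j, j ≤ W.length ∧
        vx oo up V i = vx oo up B B.length + vx oo up W j) ∧
      vx oo up V V.length = vx oo up B B.length + vx oo up W W.length := by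
  obtain ⟨B, hB, L, hL1, hL2, W, hW, rfl⟩ := hV
  obtain ⟨t, ht1, ht2, hBt, -⟩ := vb_facts hB
  have hd := (mem_Brd.1 hBt).2.2.1
  refine ⟨B, hB, L, hL1, hL2, W, hW, rfl, List.length_append, hd, fun i hi => ?_, ?_⟩
  · by_cases h : i ≤ B.length
    · exact Or.inl ⟨h, vx_append (by omega)⟩
    · rw [List.length_append] at hi
      refine Or.inr ⟨i - B.length, by omega, ?_⟩
      rw [← vx_cat hd, show B.length + (i - B.length) = i by omega]
  · rw [List.length_append, vx_cat hd]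

/-- (2) the length is odd -/
theorem Vc_odd {l : ℕ} {V : List Bool} (hV : V ∈ Vc l) : V.length.bodd = true := by
  obtain ⟨B, hB, L, hL1, hL2, W, hW, h1, h2, -⟩ := Vc_vx hV
  obtain ⟨t, ht1, ht2, hBt, -⟩ := vb_facts hB
  obtain ⟨-, h3, -⟩ := tr_facts (one_le_L hL1) hW
  have h4 := brd_even hBt
  rw [h2, Nat.bodd_add, h3, h4]
  rfl

/-- (2) the direction of the tip -/
theorem Vc_dir {l : ℕ} {V : List Bool} (hV : V ∈ Vc l) : dx up V V.length = rotR up := by
  obtain ⟨B, hB, L, hL1, hL2, W, hW, rfl, h2, hd, -⟩ := Vc_vx hV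
  rw [h2, dx_cat hd]
  exact (tr_facts (one_le_L hL1) hW).1

/-- (3) all vertices are in the box of radius 2 ^ (l + 6) -/
theorem Vc_box {l : ℕ} {V : List Bool} (hV : V ∈ Vc l) : ∀ i, i ≤ V.length → Bx (2 ^ (l + 6)) (vx oo up V i) := by
  intro i hi
  obtain ⟨B, hB, L, hL1, hL2, W, hW, -, -, -, h3, -⟩ := Vc_vx hV
  obtain ⟨t, ht1, ht2, hBt, hb⟩ := vb_facts hB
  obtain ⟨-, -, -, -, hw⟩ := tr_facts (one_le_L hL1) hW
  have hN : (1 : ℤ) ≤ 2 ^ l := one_le_pow₀ (by norm_num)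
  have hL2' : (L : ℤ) < 16 * 2 ^ l := by
    rw [pow_add] at hL2
    have : L < 16 * 2 ^ l := by omega
    exact_mod_cast this
  have hBl := (mem_Brd.1 hBt).2.2.2
  have ht2' : (t : ℤ) ≤ 24 * 2 ^ l := by
    rw [pow_add] at ht2
    have : t ≤ 24 * 2 ^ l := by omega
    exact_mod_cast this
  have e6 : (2 : ℤ) ^ (l + 6) = 64 * 2 ^ l := by rw [pow_add]; ring
  have hlat : ∀ i, lat B i = (vx oo up B i).1 := lat_one B
  intro dir
  rcases h3 i hi with ⟨h4, h5⟩ | ⟨j, hj, h5⟩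
  · have h6 := hb i h4
    have h7 := ip_R (vx oo up B i)
    have e : lev B i = ip (vx oo up B i) up := rfl
    rw [hlat i] at h6
    rw [h5, abs_le]
    push_cast
    rw [e6]
    cases dir
    · rw [lvl_false]
      constructor <;> omega
    · rw [lvl_true]
      constructor <;> omega
  · have h6 := hb B.length le_rfl
    have h7 := ip_R (vx oo up B B.length)
    have e : lev B B.length = ip (vx oo up B B.length) up := rfl
    have h8 := hw j hj
    have e' : lev W j = ip (vx oo up W j) up := rfl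
    rw [hlat B.length] at h6
    rw [h5, abs_le]
    push_cast
    rw [e6]
    cases dir
    · rw [lvl_false, ip_add_left]
      constructor <;> omega
    · rw [lvl_true, ip_add_left]
      constructor <;> omega

/-- (4) the height of the tip -/
theorem Vc_hgt {l : ℕ} {V : List Bool} (hV : V ∈ Vc l) : 3 * (2 : ℤ) ^ (l + 4) ≤ lev V V.length := by
  obtain ⟨B, hB, L, hL1, hL2, W, hW, -, -, -, -, h4⟩ := Vc_vx hV
  obtain ⟨t, ht1, ht2, hBt, hb⟩ := vb_facts hB
  obtain ⟨-, -, -, -, hw⟩ := tr_facts (one_le_L hL1) hW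
  have hBl := (mem_Brd.1 hBt).2.2.2
  have h1 := hw W.length le_rfl
  have e : lev V V.length = lev B B.length + lev W W.length := by
    unfold lev
    rw [h4, ip_add_left]
  have ht1' : (2 : ℤ) ^ (l + 4) ≤ t := by exact_mod_cast ht1
  rw [e, hBl]
  omega

/-- (5) no vertex of V in front of the tip -/
theorem Vc_free {l : ℕ} {V : List Bool} (hV : V ∈ Vc l) : ∀ i, i ≤ V.length →
    ip (vx oo up V i - vx oo up V V.length) (rotR up) ≤ 0 := by
  intro i hi
  obtain ⟨B, hB, L, hL1, hL2, W, hW, -, -, -, h3, h4⟩ := Vc_vx hV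
  obtain ⟨t, ht1, ht2, hBt, hb⟩ := vb_facts hB
  obtain ⟨-, -, -, hlast, hw⟩ := tr_facts (one_le_L hL1) hW
  have hN : (1 : ℤ) ≤ 2 ^ l := one_le_pow₀ (by norm_num)
  have hL1' : 8 * (2 : ℤ) ^ l ≤ L := by
    rw [pow_add] at hL1
    have : 8 * 2 ^ l ≤ L := by omega
    exact_mod_cast this
  have hlat : ∀ i, lat B i = (vx oo up B i).1 := lat_one B
  rw [h4, ip_sub_left, ip_add_left, hlast]
  rcases h3 i hi with ⟨h5, h6⟩ | ⟨j, hj, h6⟩
  · have h7 := hb i h5
    have h8 := ip_R (vx oo up B i)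
    have h9 := ip_R (vx oo up B B.length)
    have e : lev B i = ip (vx oo up B i) up := rfl
    have e' : lev B B.length = ip (vx oo up B B.length) up := rfl
    rw [hlat i, hlat B.length] at h7
    rw [h6]
    omega
  · have h7 := hw j hj
    rw [h6, ip_add_left]
    omega

/-! ### 4. The mass -/

/-- words of different triangles are different -/
lemma tr_disj {L L' : ℕ} (h1 : 1 ≤ L) (h1' : 1 ≤ L') (h : L ≠ L') : Disjoint (Tr L) (Tr L') := by
  rw [Set.disjoint_left]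
  intro W hW hW'
  have h2 := (tr_facts h1 hW).2.2.2.1
  have h3 := (tr_facts h1' hW').2.2.2.1
  rw [h2] at h3
  omega

/-- **the mass** -/
theorem Vc_mass : ∃ (c : ℝ) (l0 : ℕ), 0 < c ∧ ∀ l, l0 ≤ l → ENNReal.ofReal (c * UU (2 ^ l)) ≤ gf (Vc l) := by
  obtain ⟨c, l0, hc, h⟩ := vb_mass
  have hCW : 0 < 6 + CW := by
    have := RP.LocalT.C0_pos
    have h1 := Tube.CW_nonneg
    linarith
  refine ⟨c * (1 / (8 * (6 + CW))), l0, by positivity, fun l hl => ?_⟩
  obtain ⟨Q, hQ⟩ : ∃ Q : Set (List Bool), Q = ⋃ L ∈ Ico (2 ^ (l + 3)) (2 ^ (l + 4)), Tr L := ⟨_, rfl⟩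
  have hQm : ∀ W, W ∈ Q ↔ ∃ L, 2 ^ (l + 3) ≤ L ∧ L < 2 ^ (l + 4) ∧ W ∈ Tr L := by
    intro W
    rw [hQ, Set.mem_iUnion₂]
    constructor
    · rintro ⟨L, hL, hW⟩
      rw [mem_Ico] at hL
      exact ⟨L, hL.1, hL.2, hW⟩
    · rintro ⟨L, hL1, hL2, hW⟩
      exact ⟨L, mem_Ico.2 ⟨hL1, hL2⟩, hW⟩
  have h1 : gf (VbO l) * gf Q ≤ gf (Vc l) := by
    refine mul_le_gf (fun B hB W hW => ?_) (fun B hB W hW B' hB' W' hW' he => ?_)
    · obtain ⟨L, hL1, hL2, hW⟩ := (hQm W).1 hW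
      exact ⟨B, hB, L, hL1, hL2, W, hW, rfl⟩
    · obtain ⟨L, hL1, -, hW⟩ := (hQm W).1 hW
      obtain ⟨L', hL1', -, hW'⟩ := (hQm W').1 hW'
      obtain ⟨t, -, -, hBt, -⟩ := vb_facts hB
      obtain ⟨t', -, -, hBt', -⟩ := vb_facts hB'
      have p1 := BAR.pos_SSt (tr_facts (one_le_L hL1) hW).2.2.1
      have p2 := BAR.pos_SSt (tr_facts (one_le_L hL1') hW').2.2.1
      rcases le_total t t' with ht | ht
      · obtain ⟨v, hv, e1, -⟩ := BAR.nested hBt hBt' p1 p2 ht he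
        have e2 := FreeA.AC_Mi _ B' hB' B hB v ⟨_, hv⟩ e1
        rw [e1, e2, List.append_nil]
      · obtain ⟨v, hv, e1, -⟩ := BAR.nested hBt' hBt p2 p1 ht he.symm
        have e2 := FreeA.AC_Mi _ B hB B' hB' v ⟨_, hv⟩ e1
        rw [e1, e2, List.append_nil]
  refine le_trans ?_ h1
  rw [mul_assoc, ENNReal.ofReal_mul hc.le]
  refine mul_le_mul' (h l hl) ?_
  -- the triangles
  have h2 : gf Q = ∑ L ∈ Ico (2 ^ (l + 3)) (2 ^ (l + 4)), gf (Tr L) := by
    rw [hQ]
    refine gf_biUnion _ _ fun i hi j hj hij => ?_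
    rw [mem_Ico] at hi hj
    exact tr_disj (one_le_L hi.1) (one_le_L hj.1) hij
  have h3 : ∀ L ∈ Ico (2 ^ (l + 3)) (2 ^ (l + 4)), ENNReal.ofReal (uu (2 ^ (l + 5)) / 2) ≤ gf (Tr L) := by
    intro L hL
    rw [mem_Ico] at hL
    have h4 := tri_BT (one_le_L hL.1)
    have h5 : BT (2 * L) = ENNReal.ofReal (uu (2 * L)) := by
      rw [← gf_Brd]
      exact RareA.BT_uu _
    have h6 : uu (2 ^ (l + 5)) ≤ uu (2 * L) := uu_anti (by
      rw [show l + 5 = (l + 4) + 1 by ring, pow_succ]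
      omega)
    have h7 : ENNReal.ofReal 2 * ENNReal.ofReal (uu (2 ^ (l + 5)) / 2) ≤ ENNReal.ofReal 2 * gf (Tr L) := by
      rw [← ENNReal.ofReal_mul (by norm_num), mul_div_cancel₀ _ (by norm_num : (2 : ℝ) ≠ 0)]
      rw [show ENNReal.ofReal 2 = 2 by simp]
      refine le_trans ?_ h4
      rw [h5]
      exact ENNReal.ofReal_le_ofReal h6
    exact (ENNReal.mul_le_mul_iff_right (by simp) ENNReal.ofReal_ne_top).1 h7
  rw [h2]
  refine le_trans ?_ (sum_le_sum h3)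
  rw [sum_const, Nat.card_Ico, nsmul_eq_mul, ← ENNReal.ofReal_natCast, ← ENNReal.ofReal_mul (Nat.cast_nonneg _)]
  apply ENNReal.ofReal_le_ofReal
  have h4 : UU (2 ^ l) ≤ UU (2 ^ (l + 5)) := Num2Aux.UU_mono (Nat.pow_le_pow_right (by norm_num) (by omega))
  have h5 := UU_le_mul (T := 2 ^ (l + 5)) Nat.one_le_two_pow
  have h6 : ((2 ^ (l + 4) - 2 ^ (l + 3) : ℕ) : ℝ) = 8 * 2 ^ l := by
    have : 2 ^ (l + 4) - 2 ^ (l + 3) = 8 * 2 ^ l := by
      rw [pow_add, pow_add]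
      omega
    rw [this]
    push_cast
    ring
  have h7 : ((2 ^ (l + 5) : ℕ) : ℝ) = 32 * 2 ^ l := by
    push_cast
    rw [pow_add]
    ring
  rw [h7] at h5
  rw [h6]
  have hu := uu_pos (2 ^ (l + 5))
  calc 1 / (8 * (6 + CW)) * UU (2 ^ l) ≤ 1 / (8 * (6 + CW)) * ((6 + CW) * (32 * 2 ^ l * uu (2 ^ (l + 5)))) :=
        mul_le_mul_of_nonneg_left (h4.trans h5) (by positivity)
    _ = 8 * 2 ^ l * (uu (2 ^ (l + 5)) / 2) := by
        field_simp
        ring

end TIP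

end HexObs
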