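import Pool.Agent.TIP.Defs
import Pool.Agent.RSWP.LocalT
import Pool.Agent.EN.LatC

/-!
# TIP: bridges with the end in a given box (helper69)

* `Tb t x e`: bridges in a tube with the end in the box `[t, t + e] × [x - e, x + e]`; **`Tb_mass`**;
* `Vb t x e`: the minimal ones (no proper initial bridge ends in the box); prefix free; **`Vb_mass`**: mass at least `c`;
* `Ir m`: products of `m` irreducible bridges; `Um m r`: the ones in the box of size `r`; **`Um_mass`**;
* `Bk_one`: the blocks have the mass one; `gf_dep_ge`: dependent products from below.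
-/

set_option autoImplicit false

namespace HexObs

namespace TIP

open Finset TS SDN RP EN EN.LB

open scoped ENNReal

/-! ### the box -/

/-- bridges in a tube with the end in a box -/
def Tb (t : ℕ) (x : ℤ) (e : ℕ) : Set (List Bool) :=
  {V | V ∈ BU ∧ t ≤ hgt V ∧ hgt V ≤ t + e ∧ |latE V - x| ≤ e ∧
    ∀ i, i ≤ V.length → min 0 x - 2 * e ≤ lat V i ∧ lat V i ≤ max 0 x + 2 * e}

lemma par_fix (x : ℤ) (h : ℕ) : ∃ δ : ℤ, 0 ≤ δ ∧ δ ≤ 1 ∧ Even (x + δ - h) := by
  rcases Int.even_or_odd (x - h) with h1 | h1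
  · exact ⟨0, le_rfl, by norm_num, by rwa [add_zero]⟩
  · refine ⟨1, by norm_num, le_rfl, ?_⟩
    rw [show x + 1 - h = (x - h) + 1 by ring]
    exact h1.add_one

theorem Tb_mass (R Q : ℕ) : ∃ (c : ℝ) (t0 : ℕ), 0 < c ∧ ∀ (t e : ℕ) (x : ℤ), t0 ≤ t → |x| ≤ R * t → t ≤ Q * e →
    e ≤ t → ENNReal.ofReal (c * UU t) ≤ gf (Tb t x e) := by
  classical
  obtain ⟨q, hq⟩ : ∃ q : ℕ, q = Q + 1 := ⟨_, rfl⟩
  have hq0 : (0 : ℝ) < q := by rw [hq]; positivity
  have hq1 : 1 ≤ q := by omega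
  obtain ⟨c, t1, hc, h⟩ := localTube (R + 1) (η := 1 / (2 * q)) (by positivity)
  have hCW := LocalT.C0_pos
  refine ⟨c / (12 * (q : ℝ) ^ 2 * (6 + CW)), t1 + 4 * q, by positivity, fun t e x ht hx hQ het => ?_⟩
  have ht1 : 1 ≤ t := by omega
  have htR : (0 : ℝ) < t := by exact_mod_cast ht1
  have heq : t ≤ q * e := hQ.trans (Nat.mul_le_mul_right _ (by omega))
  have he4 : 4 ≤ e := by
    by_contra hcon
    have h1 : q * e ≤ q * 3 := Nat.mul_le_mul_left _ (by omega)
    omega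
  choose δ hδ0 hδ1 hδ using fun h : ℕ => par_fix x (t + h)
  obtain ⟨F, hF⟩ : ∃ F : ℕ × ℕ → Set (List Bool), F = fun p => {b | b ∈ EndB (t + p.1) (x + δ p.1 + 2 * (p.2 : ℤ)) ∧
      ∀ i, i ≤ b.length → ((min 0 (x + δ p.1 + 2 * (p.2 : ℤ)) : ℤ) : ℝ) - 1 / (2 * q) * (t + p.1 : ℕ) ≤ lat b i ∧
        (lat b i : ℝ) ≤ ((max 0 (x + δ p.1 + 2 * (p.2 : ℤ)) : ℤ) : ℝ) + 1 / (2 * q) * (t + p.1 : ℕ)} := ⟨_, rfl⟩
  have hsub : (⋃ p ∈ range e ×ˢ range (e / 2), F p) ⊆ Tb t x e := by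
    intro b hb
    rw [Set.mem_iUnion₂] at hb
    obtain ⟨⟨a, j⟩, hp, hb⟩ := hb
    rw [Finset.mem_product, Finset.mem_range, Finset.mem_range] at hp
    simp only at hp
    rw [hF] at hb
    obtain ⟨⟨hB, hE⟩, hT⟩ := hb
    simp only at hB hE hT
    have h0 := hδ0 a
    have h1 := hδ1 a
    have hj : 2 * (j : ℤ) + 2 ≤ e := by omega
    refine ⟨⟨_, hB⟩, by rw [hgt_eq hB]; omega, by rw [hgt_eq hB]; omega, ?_, fun i hi => ?_⟩
    · rw [hE, abs_le]
      constructor <;> linarith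
    · obtain ⟨h2, h3⟩ := hT i hi
      have h4 : 1 / (2 * (q : ℝ)) * (t + a : ℕ) ≤ e := by
        have h5 : ((t + a : ℕ) : ℝ) ≤ 2 * t := by
          have : t + a ≤ 2 * t := by omega
          exact_mod_cast this
        have h6 : (t : ℝ) ≤ q * e := by exact_mod_cast heq
        rw [div_mul_eq_mul_div, one_mul, div_le_iff₀ (by positivity)]
        linarith
      have h5 : ((min 0 (x + δ a + 2 * (j : ℤ)) : ℤ) : ℝ) - e ≤ lat b i := by linarith
      have h6 : (lat b i : ℝ) ≤ ((max 0 (x + δ a + 2 * (j : ℤ)) : ℤ) : ℝ) + e := by linarith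
      have h7 : min 0 (x + δ a + 2 * (j : ℤ)) - e ≤ lat b i := by exact_mod_cast h5
      have h8 : lat b i ≤ max 0 (x + δ a + 2 * (j : ℤ)) + e := by exact_mod_cast h6
      have h9 : min 0 x ≤ min 0 (x + δ a + 2 * (j : ℤ)) := by
        refine min_le_min le_rfl ?_
        linarith [show (0 : ℤ) ≤ 2 * (j : ℤ) by positivity]
      have h10 : max 0 (x + δ a + 2 * (j : ℤ)) ≤ max 0 x + e := by
        refine max_le ?_ ?_
        · have := le_max_left 0 x
          linarith [show (0 : ℤ) ≤ e by positivity]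
        · have := le_max_right 0 x
          linarith
      constructor <;> linarith [show (0 : ℤ) ≤ e by positivity]
  refine le_trans ?_ (gf_mono hsub)
  have hdis : ∀ p ∈ range e ×ˢ range (e / 2), ∀ p' ∈ range e ×ˢ range (e / 2), p ≠ p' → Disjoint (F p) (F p') := by
    rintro ⟨a, j⟩ _ ⟨a', j'⟩ _ hne
    rw [Set.disjoint_left]
    intro G hi hj
    rw [hF] at hi hj
    have h1 := Brd_height hi.1.1 hj.1.1
    have h2 := hi.1.2
    have h3 := hj.1.2
    simp only at h1 h2 h3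
    have h4 : a = a' := by omega
    subst h4
    rw [h2] at h3
    exact hne (Prod.ext rfl (by show j = j'; omega))
  rw [gf_biUnion _ _ hdis]
  have hterm : ∀ p ∈ range e ×ˢ range (e / 2), ENNReal.ofReal (c * (UU t / (4 * (6 + CW) * t ^ 2))) ≤ gf (F p) := by
    rintro ⟨a, j⟩ hp
    rw [Finset.mem_product, Finset.mem_range, Finset.mem_range] at hp
    simp only at hp
    have h0 := hδ0 a
    have h1 := hδ1 a
    have hj : 2 * (j : ℤ) + 2 ≤ e := by omega
    have hkey := h (t + a) (x + δ a + 2 * (j : ℤ)) (by omega) ?_ ?_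
    · rw [hF]
      refine le_trans (ENNReal.ofReal_le_ofReal ?_) hkey
      refine mul_le_mul_of_nonneg_left ?_ hc.le
      have ha : ((t + a : ℕ) : ℝ) ≤ 2 * t := by
        have : t + a ≤ 2 * t := by omega
        exact_mod_cast this
      have ha0 : (0 : ℝ) < ((t + a : ℕ) : ℝ) := by
        have : 0 < t + a := by omega
        exact_mod_cast this
      have hu1 := uu_anti (show t + a ≤ 2 * t by omega)
      have hu2 := UU_le_mul (T := 2 * t) (by omega)
      have hu3 := UU_mono (show t ≤ 2 * t by omega)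
      have hu4 := uu_pos (2 * t)
      push_cast at hu2
      have h5 : UU t / (4 * (6 + CW) * t ^ 2) ≤ uu (2 * t) / (2 * t) := by
        rw [div_le_div_iff₀ (by positivity) (by positivity)]
        have h6 : UU t ≤ (6 + CW) * (2 * t * uu (2 * t)) := hu3.trans hu2
        calc UU t * (2 * t) ≤ (6 + CW) * (2 * t * uu (2 * t)) * (2 * t) :=
              mul_le_mul_of_nonneg_right h6 (by positivity)
          _ = uu (2 * t) * (4 * (6 + CW) * t ^ 2) := by ring
      refine h5.trans ?_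
      exact div_le_div₀ (uu_pos _).le hu1 ha0 ha
    · have := hδ a
      rw [show x + δ a + 2 * (j : ℤ) - ((t + a : ℕ) : ℤ) = (x + δ a - ((t + a : ℕ) : ℤ)) + 2 * (j : ℤ) by ring]
      exact this.add (even_two_mul _)
    · rw [abs_le] at hx ⊢
      have h8 : (0 : ℤ) ≤ R * a := by positivity
      push_cast
      constructor
      · nlinarith [hx.1]
      · have h7 : (e : ℤ) ≤ t := by exact_mod_cast het
        nlinarith [hx.2]
  refine le_trans ?_ (sum_le_sum hterm)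
  rw [sum_const, card_product, card_range, card_range, nsmul_eq_mul, ← ENNReal.ofReal_natCast,
    ← ENNReal.ofReal_mul (Nat.cast_nonneg _)]
  apply ENNReal.ofReal_le_ofReal
  have hUt := Num2Aux.UU_pos t
  have h1 : (t : ℝ) ^ 2 / (3 * (q : ℝ) ^ 2) ≤ ((e * (e / 2) : ℕ) : ℝ) := by
    have h2 : e * e ≤ 3 * (e * (e / 2)) := by
      have : e ≤ 3 * (e / 2) := by omega
      calc e * e ≤ e * (3 * (e / 2)) := Nat.mul_le_mul_left _ this
        _ = 3 * (e * (e / 2)) := by ring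
    have h3 : t * t ≤ (q * q) * (3 * (e * (e / 2))) := by
      calc t * t ≤ (q * e) * (q * e) := Nat.mul_le_mul heq heq
        _ = (q * q) * (e * e) := by ring
        _ ≤ _ := Nat.mul_le_mul_left _ h2
    have h4 : (t : ℝ) * t ≤ (q * q) * (3 * ((e * (e / 2) : ℕ) : ℝ)) := by exact_mod_cast h3
    rw [div_le_iff₀ (by positivity)]
    nlinarith
  calc c / (12 * (q : ℝ) ^ 2 * (6 + CW)) * UU t
      = ((t : ℝ) ^ 2 / (3 * (q : ℝ) ^ 2)) * (c * (UU t / (4 * (6 + CW) * t ^ 2))) := by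
        field_simp
        ring
    _ ≤ _ := mul_le_mul_of_nonneg_right h1 (by positivity)

/-! ### minimal bridges -/

/-- the minimal bridges with the end in the box -/
def Vb (t : ℕ) (x : ℤ) (e : ℕ) : Set (List Bool) :=
  {V | V ∈ Tb t x e ∧ ∀ V' X, V' ∈ BU → X ∈ BU → V = V' ++ X → t ≤ hgt V' → |latE V' - x| ≤ e → X = []}

lemma Tb_min {t e : ℕ} {x : ℤ} : ∀ (n : ℕ) (V : List Bool), V.length ≤ n → V ∈ Tb t x e →
    ∃ V' ∈ Vb t x e, ∃ X ∈ BU, V = V' ++ X := by
  intro n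
  induction n with
  | zero =>
    intro V hl hV
    have h0 : V = [] := List.length_eq_zero_iff.1 (by omega)
    refine ⟨V, ⟨hV, fun V' X _ _ h _ _ => ?_⟩, [], nil_BU, (List.append_nil V).symm⟩
    rw [h0] at h
    exact (List.append_eq_nil_iff.1 h.symm).2
  | succ n ih =>
    intro V hl hV
    by_cases hmin : ∀ V' X, V' ∈ BU → X ∈ BU → V = V' ++ X → t ≤ hgt V' → |latE V' - x| ≤ e → X = []
    · exact ⟨V, ⟨hV, hmin⟩, [], nil_BU, (List.append_nil V).symm⟩
    · push Not at hmin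
      obtain ⟨V1, X1, h1, h2, h3, h4, h5, h6⟩ := hmin
      have hlen : V.length = V1.length + X1.length := by rw [h3, List.length_append]
      have hX1 : 0 < X1.length := List.length_pos_iff.2 h6
      have hh : hgt V = hgt V1 + hgt X1 := by rw [h3, hgt_app h1 h2]
      have hV1 : V1 ∈ Tb t x e := by
        refine ⟨h1, h4, by have := hV.2.2.1; omega, h5, fun i hi => ?_⟩
        have := hV.2.2.2.2 i (by omega)
        rw [h3, lat_append (by omega)] at this
        exact this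
      obtain ⟨V', hV', X, hX, he⟩ := ih V1 (by omega) hV1
      exact ⟨V', hV', X ++ X1, BU_app hX h2, by rw [h3, he, List.append_assoc]⟩

/-- the minimal bridges are prefix free -/
lemma Vb_pf {t e : ℕ} {x : ℤ} {V V' X X' : List Bool} (hV : V ∈ Vb t x e) (hV' : V' ∈ Vb t x e) (hX : X ∈ BU)
    (hX' : X' ∈ BU) (h : V ++ X = V' ++ X') : V = V' := by
  have b1 := BU_hgt hV.1.1
  have b2 := BU_hgt hV'.1.1
  have b3 := BU_hgt hX
  have b4 := BU_hgt hX'
  rcases le_total (hgt V) (hgt V') with hle | hle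
  · obtain ⟨z, hz, h1, h2⟩ := cut_nested b1 b2 b3 b4 hle h
    have := hV'.2 V z hV.1.1 ⟨_, hz⟩ h1 hV.1.2.1 hV.1.2.2.2.1
    rw [this, List.append_nil] at h1
    exact h1.symm
  · obtain ⟨z, hz, h1, h2⟩ := cut_nested b2 b1 b4 b3 hle h.symm
    have := hV.2 V' z hV'.1.1 ⟨_, hz⟩ h1 hV'.1.2.1 hV'.1.2.2.2.1
    rw [this, List.append_nil] at h1
    exact h1

lemma gf_lowBU (H : ℕ) : gf {V | V ∈ BU ∧ hgt V ≤ H} ≤ ENNReal.ofReal (UU H) := by
  rw [← gf_low H]
  refine gf_mono ?_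
  rintro V ⟨h1, h2⟩
  exact ⟨hgt V, h2, BU_hgt h1⟩

/-- **the mass of the minimal bridges with the end in a box** -/
theorem Vb_mass (R Q : ℕ) : ∃ (c : ℝ) (t0 : ℕ), 0 < c ∧ ∀ (t e : ℕ) (x : ℤ), t0 ≤ t → |x| ≤ R * t → t ≤ Q * e →
    e ≤ t → ENNReal.ofReal c ≤ gf (Vb t x e) := by
  obtain ⟨c, t0, hc, h⟩ := Tb_mass R Q
  refine ⟨c, t0, hc, fun t e x h1 h2 h3 h4 => ?_⟩
  have hkey := h t e x h1 h2 h3 h4
  have hU := Num2Aux.UU_pos t
  have h5 : gf (Tb t x e) ≤ gf (Vb t x e) * ENNReal.ofReal (UU t) := by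
    refine (gf_le_mul (R := {V | V ∈ BU ∧ hgt V ≤ t}) fun V hV => ?_).trans (mul_le_mul_right (gf_lowBU t) _)
    obtain ⟨V', hV', X, hX, he⟩ := Tb_min V.length V le_rfl hV
    refine ⟨V', hV', X, ⟨hX, ?_⟩, he⟩
    have h6 : hgt V = hgt V' + hgt X := by rw [he, hgt_app hV'.1.1 hX]
    have h7 := hV'.1.2.1
    have h8 := hV.2.2.1
    omega
  rw [ENNReal.ofReal_mul hc.le] at hkey
  have h6 := hkey.trans h5
  rwa [ENNReal.mul_le_mul_iff_left (by simpa using hU) ENNReal.ofReal_ne_top] at h6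

end TIP

end HexObs
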