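import Pool.Agent.TIP.Defs
import Pool.Agent.SIM.HexCross

/-!
# TIP: the frame of the tip (helper69)

`fr L` moves the tip of `L` to the origin and its direction to `up`: the words behind `L` become words from the origin.
-/

set_option autoImplicit false

namespace HexObs

namespace TIP

open Finset TS SDN SIM

open scoped ENNReal

/-- the frame of the tip of L -/
def fr (L : List Bool) (p : Pt) : Pt := mulE (rotTo (tipd L) up) (p - tipv L)

lemma tipd_mem (L : List Bool) : tipd L ∈ dirs := dx_mem upd L L.length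

lemma rot_inv : ∀ d ∈ dirs, mulE (rotTo d up) (rotTo up d) = (1, 0) := by decide

lemma rot_unit : ∀ d ∈ dirs, rotTo d up ∈ dirs := by decide

lemma rot_back {d : Pt} (hd : d ∈ dirs) (v : Pt) : mulE (rotTo d up) (mulE (rotTo up d) v) = v := by
  rw [mulE_assoc, rot_inv d hd, mulE_one]

lemma oo_zero : (oo : Pt) = 0 := rfl

/-- **the words behind L** -/
lemma fr_front (L B : List Bool) (k : ℕ) : fr L (vx oo up (L ++ B) (L.length + k)) = vx oo up B k := by
  unfold fr
  rw [vx_general]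
  have h1 : tipv L + mulE (rotTo up (tipd L)) (vx oo up B k) - tipv L = mulE (rotTo up (tipd L)) (vx oo up B k) := by
    abel
  show mulE (rotTo (tipd L) up) (tipv L + mulE (rotTo up (tipd L)) (vx oo up B k) - tipv L) = _
  rw [h1, rot_back (tipd_mem L)]

lemma fr_inj {L : List Bool} {p q : Pt} (h : fr L p = fr L q) : p = q := by
  unfold fr at h
  have h1 := mulE_inj (nrm_rotTo (tipd_mem L) upd) h
  exact sub_left_injective h1

/-- the frame of a word -/
lemma fr_vx (L A : List Bool) (i : ℕ) : fr L (vx oo up A i) = vx (fr L oo) (mulE (rotTo (tipd L) up) up) A i := by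
  rw [vx_mulE (rotTo (tipd L) up) oo (fr L oo) up A i]
  unfold fr
  rw [← mulE_add]
  congr 1
  rw [oo_zero]
  abel

/-- the steps of a word in the frame -/
lemma fr_HN (L A : List Bool) (i : ℕ) : HN (fr L (vx oo up A i)) (fr L (vx oo up A (i + 1))) := by
  rw [fr_vx, fr_vx]
  have hu := rot_unit _ (tipd_mem L)
  have h1 : cl (tipd L) = if Even L.length then cl up else - cl up := cl_dx up L L.length
  have h2 : cl (tipv L) = if Even L.length then cl oo else cl oo + cl up := cl_vx oo up L L.length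
  have h3 : cl (rotTo (tipd L) up) * cl (tipd L) = cl up := by
    rw [← cl_mulE, rotTo_apply up (tipd_mem L)]
  have h4 : cl (fr L oo) = cl (rotTo (tipd L) up) * (cl oo - cl (tipv L)) := by
    unfold fr
    rw [cl_mulE, cl_sub]
  have h5 : cl (mulE (rotTo (tipd L) up) up) = cl (rotTo (tipd L) up) * cl up := cl_mulE _ _
  have e1 : cl up = -1 := by decide
  have e2 : cl oo = 0 := by decide
  refine HN_vx ?_ ?_ A i
  · have : ∀ u ∈ dirs, mulE u up ∈ dirs := by decide
    exact this _ hu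
  · rw [h4, h5, e1, e2]
    rw [e1] at h1 h3
    rw [e1, e2] at h2
    obtain ⟨z, hz⟩ : ∃ z, z = cl (rotTo (tipd L) up) := ⟨_, rfl⟩
    rw [← hz] at h3 ⊢
    by_cases hev : Even L.length
    · rw [if_pos hev] at h1 h2
      rw [h1] at h3
      rw [h2]
      left
      have key : ∀ z : ZMod 3, z * -1 = -1 → z * (0 - 0) = 0 ∧ z * -1 = -1 := by decide
      exact key z h3
    · rw [if_neg hev] at h1 h2
      rw [h1] at h3
      rw [h2]
      right
      have key : ∀ z : ZMod 3, z * - -1 = -1 → z * (0 - (0 + -1)) = -1 ∧ z * -1 = 1 := by decide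
      exact key z h3

/-- balls in the frame -/
lemma fr_Bl (L : List Bool) {p q : Pt} {r : ℕ} (h : p ∈ Bl q r) : fr L p ∈ Bl (fr L q) (2 * r) := by
  have hu := rot_unit _ (tipd_mem L)
  have h1 : fr L p - fr L q = mulE (rotTo (tipd L) up) (p - q) := by
    unfold fr
    rw [← mulE_sub]
    congr 1
    abel
  obtain ⟨u, hu'⟩ : ∃ u, u = rotTo (tipd L) up := ⟨_, rfl⟩
  rw [← hu'] at hu h1
  have h2 : ∀ u ∈ dirs, |u.1| ≤ 1 ∧ |u.2| ≤ 1 ∧ |u.1 + u.2| ≤ 1 := by decide
  obtain ⟨u1, u2, u3⟩ := h2 u hu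
  obtain ⟨a1, a2⟩ := h
  have e1 : (fr L p).1 - (fr L q).1 = u.1 * (p.1 - q.1) - u.2 * (p.2 - q.2) := congrArg Prod.fst h1
  have e2 : (fr L p).2 - (fr L q).2 = u.1 * (p.2 - q.2) + u.2 * (p.1 - q.1) + u.2 * (p.2 - q.2) := congrArg Prod.snd h1
  obtain ⟨x, hx⟩ : ∃ x, x = p.1 - q.1 := ⟨_, rfl⟩
  obtain ⟨y, hy⟩ : ∃ y, y = p.2 - q.2 := ⟨_, rfl⟩
  rw [← hx, ← hy] at e1 e2
  rw [← hx] at a1
  rw [← hy] at a2
  have hr : (0 : ℤ) ≤ r := by positivity
  have m1 : |u.1 * x| ≤ r := by
    rw [abs_mul]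
    calc |u.1| * |x| ≤ 1 * r := mul_le_mul u1 a1 (abs_nonneg _) (by norm_num)
      _ = r := one_mul _
  have m2 : |u.2 * y| ≤ r := by
    rw [abs_mul]
    calc |u.2| * |y| ≤ 1 * r := mul_le_mul u2 a2 (abs_nonneg _) (by norm_num)
      _ = r := one_mul _
  have m3 : |u.2 * x| ≤ r := by
    rw [abs_mul]
    calc |u.2| * |x| ≤ 1 * r := mul_le_mul u2 a1 (abs_nonneg _) (by norm_num)
      _ = r := one_mul _
  have m4 : |(u.1 + u.2) * y| ≤ r := by
    rw [abs_mul]
    calc |u.1 + u.2| * |y| ≤ 1 * r := mul_le_mul u3 a2 (abs_nonneg _) (by norm_num)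
      _ = r := one_mul _
  rw [abs_le] at m1 m2 m3 m4
  refine ⟨?_, ?_⟩
  · rw [e1, abs_le]
    push_cast
    constructor <;> linarith [m1.1, m1.2, m2.1, m2.2]
  · rw [e2, abs_le]
    push_cast
    have e3 : (u.1 + u.2) * y = u.1 * y + u.2 * y := by ring
    rw [e3] at m4
    constructor <;> linarith [m3.1, m3.2, m4.1, m4.2]

lemma dx_general (A w : List Bool) (k : ℕ) : dx up (A ++ w) (A.length + k) =
    mulE (rotTo up (dx up A A.length)) (dx up w k) := by
  have h1 : dx up (A ++ w) (A.length + k) = dx (dx up (A ++ w) A.length) w k := by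
    unfold dx
    rw [ds_shift]
    apply ds_congr
    intro k _
    exact tf_append_right k
  have e2 : dx up (A ++ w) A.length = dx up A A.length := dx_append le_rfl
  rw [h1, e2]
  have h2 := dx_mulE (rotTo up (dx up A A.length)) up w k
  rwa [rotTo_apply _ upd] at h2

lemma tipv_app (A Y : List Bool) : tipv (A ++ Y) = tipv A + mulE (rotTo up (tipd A)) (vx oo up Y Y.length) := by
  unfold tipv
  rw [List.length_append]
  exact vx_general A Y Y.length

lemma tipd_app (A Y : List Bool) : tipd (A ++ Y) = mulE (rotTo up (tipd A)) (dx up Y Y.length) := by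
  unfold tipd
  rw [List.length_append]
  exact dx_general A Y Y.length

lemma BU_dx {Y : List Bool} (h : Y ∈ BU) : dx up Y Y.length = up := by
  obtain ⟨n, hn⟩ := h
  exact (mem_Brd.1 hn).2.2.1

lemma tipd_BU {A Y : List Bool} (hY : Y ∈ BU) : tipd (A ++ Y) = tipd A := by
  rw [tipd_app, BU_dx hY, rotTo_apply _ upd]

/-- the tip of A in the frame of A ++ Y -/
lemma fr_tip {A Y : List Bool} (hY : Y ∈ BU) : fr (A ++ Y) (vx oo up A A.length) = - vx oo up Y Y.length := by
  unfold fr
  rw [tipd_BU hY, tipv_app]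
  have h1 : vx oo up A A.length - (tipv A + mulE (rotTo up (tipd A)) (vx oo up Y Y.length)) =
      mulE (rotTo up (tipd A)) (- vx oo up Y Y.length) := by
    rw [mulE_neg]
    unfold tipv
    abel
  rw [h1, rot_back (tipd_mem A)]

lemma lv_ip (p : Pt) : lv p = ip p up := by
  unfold lv ip
  show 2 * p.2 + p.1 = 2 * (p.1 * 0 + p.2 * 1) + p.1 * 1 + p.2 * 0
  ring

lemma lv_vx (t : List Bool) (i : ℕ) : lv (vx oo up t i) = lev t i := lv_ip _

lemma lat_vx (t : List Bool) (i : ℕ) : (vx oo up t i).1 = lat t i := by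
  unfold lat cross
  show _ = -(0 * (vx oo up t i).2 - 1 * (vx oo up t i).1)
  ring

lemma lv_tip {A Y : List Bool} (hY : Y ∈ BU) : lv (fr (A ++ Y) (vx oo up A A.length)) ≤ 0 := by
  rw [fr_tip hY]
  have h1 : lv (- vx oo up Y Y.length) = - lev Y Y.length := by
    rw [← lv_vx]
    show 2 * (-(vx oo up Y Y.length).2) + -(vx oo up Y Y.length).1 = -(2 * (vx oo up Y Y.length).2 + (vx oo up Y Y.length).1)
    ring
  rw [h1, (mem_Brd.1 (BU_hgt hY)).2.2.2]
  have : (0 : ℤ) ≤ hgt Y := by positivity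
  linarith

end TIP

end HexObs
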