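import Pool.Agent.TPC.LatC
import Pool.Agent.NTA.QuanH

/-!
TIP, M3: the half plane words without a cut in a box of the size of their strip have a positive fraction of the mass
(NTA.Narrow).
-/

set_option autoImplicit false

namespace HexObs

namespace TIP

open Finset BAR TS SDN NTW NTA

open scoped ENNReal

lemma row_sub {dir : Bool} {p q v : Pt} {R : ℤ} (h : v = p + q) (hv : |row dir v| ≤ R) (hp : |row dir p| ≤ R) :
    |row dir q| ≤ 2 * R + 1 := by
  have h1 : lvl dir v = lvl dir p + lvl dir q := by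
    rw [h]
    unfold lvl
    rw [ip_add_left]
  unfold row at *
  rw [abs_le] at *
  constructor <;> omega

/-- a cut at the last height: the rest has no cut, in the same box -/
lemma box_NA {i k n : ℕ} (hik : i ≤ k) :
    gf {W | W ∈ SSt (2 ^ i) ∧ W ∈ WL n} ≤ ENNReal.ofReal (Ub i) * gf {W | W ∈ BAR.NA (2 ^ k) ∧ BX (2 ^ (n + 2)) W} := by
  have h1 : {W | W ∈ SSt (2 ^ i) ∧ W ∈ WL n} ⊆
      ⋃ r ∈ range (2 ^ i + 1), {w | ∃ c ∈ Brd r, ∃ s ∈ {W | W ∈ BAR.NA (2 ^ k) ∧ BX (2 ^ (n + 2)) W}, w = c ++ s} := by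
    rintro W ⟨hW, hl⟩
    obtain ⟨r, hr, c, hc, s, hs, rfl⟩ := last_cut hW (2 ^ i)
    rw [Set.mem_iUnion₂]
    refine ⟨r, mem_range.2 (by omega), c, hc, s,
      ⟨⟨SSt_mono (Nat.pow_le_pow_right (by norm_num) hik) hs.1, fun j hj hcut => ?_⟩, ?_⟩, rfl⟩
    · by_cases h : j ≤ 2 ^ i - r
      · exact hs.2 j hj h hcut
      · obtain ⟨c', s', hc', hs', rfl⟩ := hcut
        have h2 := Brd_height_le (Brd_append hc hc') (s := s') (by rwa [List.append_assoc])
        omega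
    · intro j hj dir
      have h2 := hl.2 c.length (by rw [List.length_append]; omega) dir
      have h3 := hl.2 (c.length + j) (by rw [List.length_append]; omega) dir
      have e := vx_cat (s := c) (t := s) (mem_Brd.1 hc).2.2.1 j
      rw [vx_append (by omega)] at h2
      have h4 := row_sub e h3 h2
      refine h4.trans ?_
      rw [pow_add]
      have : (1 : ℤ) ≤ 2 ^ n := one_le_pow₀ (by norm_num)
      omega
  refine (gf_mono h1).trans ((gf_bi_le _ _).trans ?_)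
  show _ ≤ ENNReal.ofReal (UU (2 ^ i)) * _
  rw [← sum_BT, sum_mul]
  refine sum_le_sum fun r _ => ?_
  rw [← gf_Brd]
  refine gf_le_mul fun t ht => ?_
  obtain ⟨c, hc, s, hs, h⟩ := ht
  exact ⟨c, hc, s, hs, h⟩

/-- the empty word has no cut -/
lemma nil_NAb (d : ℕ) (R : ℤ) (hR : 0 ≤ R) : ([] : List Bool) ∈ {W | W ∈ BAR.NA d ∧ BX R W} := by
  refine ⟨⟨⟨fun i h1 h2 => ?_, fun i k h1 h2 => ?_⟩, ?_⟩, ?_⟩
  · simp only [List.length_nil] at h2
    omega
  · simp only [List.length_nil] at h2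
    omega
  · rintro j hj ⟨c, s, hc, -, h⟩
    have h1 := List.append_eq_nil_iff.1 h.symm
    rw [h1.1] at hc
    have := Brd_height hc nil_mem_Brd
    omega
  · intro i hi dir
    have hi0 : i = 0 := by simpa using hi
    rw [hi0]
    have : row dir (vx oo up [] 0) = 0 := by
      cases dir <;> decide
    rw [this, abs_zero]
    exact hR

/-- **Narrow** -/
theorem narrow : Narrow := by
  obtain ⟨c, J0, k0, hc, hfar⟩ := TPC.sst_far
  -- the box
  obtain ⟨J, hJ0, hJ⟩ : ∃ J : ℕ, J0 ≤ J ∧ (2 : ℝ) ^ (-(c * 2 ^ J)) ≤ 1 / 2 := by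
    obtain ⟨n, hn⟩ := exists_nat_ge (1 / c)
    refine ⟨max J0 n, le_max_left _ _, ?_⟩
    have h1 : (n : ℝ) ≤ 2 ^ (max J0 n) := by
      have h2 : n < 2 ^ n := Nat.lt_two_pow_self
      have h3 : (2 : ℕ) ^ n ≤ 2 ^ (max J0 n) := Nat.pow_le_pow_right (by norm_num) (le_max_right _ _)
      exact_mod_cast (by omega : n ≤ 2 ^ (max J0 n))
    have h4 : 1 ≤ c * 2 ^ (max J0 n) := by
      rw [div_le_iff₀ hc] at hn
      nlinarith
    calc (2 : ℝ) ^ (-(c * 2 ^ (max J0 n))) ≤ (2 : ℝ) ^ (-(1 : ℝ)) :=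
          Real.rpow_le_rpow_of_exponent_le (by norm_num) (by linarith)
      _ = 1 / 2 := by rw [Real.rpow_neg_one]; norm_num
  obtain ⟨c3, hc3, hc3'⟩ : ∃ c3 : ℝ, 0 ≤ c3 ∧ gf (SSt (2 ^ k0)) = ENNReal.ofReal c3 := by
    have hne : gf (SSt (2 ^ k0)) ≠ ⊤ := by
      have h1 := le_Xb (show k0 ≤ k0 from le_rfl)
      have h2 : ENNReal.ofReal (UU (2 ^ k0)) * (BAR.HH (2 ^ k0) / ENNReal.ofReal (UU (2 ^ k0))) = BAR.HH (2 ^ k0) :=
        ENNReal.mul_div_cancel (by simpa using Num2Aux.UU_pos _) ENNReal.ofReal_ne_top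
      have h3 : gf (SSt (2 ^ k0)) ≤ ENNReal.ofReal (UU (2 ^ k0)) * Xb k0 := by
        calc gf (SSt (2 ^ k0)) = BAR.HH (2 ^ k0) := rfl
          _ = _ := h2.symm
          _ ≤ _ := mul_le_mul_right h1 _
      exact ne_top_of_le_ne_top (ENNReal.mul_ne_top ENNReal.ofReal_ne_top (Xb_ne_top k0)) h3
    exact ⟨_, ENNReal.toReal_nonneg, (ENNReal.ofReal_toReal hne).symm⟩
  refine ⟨J + 2, min (1 / 2) (1 / (c3 + 1)), by positivity, fun k => ?_⟩
  obtain ⟨i, hik, hi⟩ := Xb_reach k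
  have hUi : (0 : ℝ) < Ub i := Ub_pos i
  by_cases hik0 : k0 ≤ i
  · -- many scales
    have h1 := hfar J i (2 ^ i) hJ0 hik0 le_rfl (Nat.pow_lt_pow_right (by norm_num) (by omega))
    have h2 : gf (SSt (2 ^ i)) ≤ gf {W | W ∈ SSt (2 ^ i) ∧ W ∈ WL (i + J)} + gf {W | W ∈ SSt (2 ^ i) ∧ W ∉ WL (i + J)} := by
      refine (gf_mono fun W hW => ?_).trans (gf_union_le _ _)
      by_cases h : W ∈ WL (i + J)
      · exact Or.inl ⟨hW, h⟩
      · exact Or.inr ⟨hW, h⟩
    have h3 := box_NA (n := i + J) hik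
    have h4 : gf {W | W ∈ BAR.NA (2 ^ k) ∧ BX (2 ^ (i + J + 2)) W} ≤ gf {W | W ∈ BAR.NA (2 ^ k) ∧ BX (2 ^ (k + (J + 2))) W} := by
      refine gf_mono fun W hW => ⟨hW.1, fun j hj dir => (hW.2 j hj dir).trans ?_⟩
      exact pow_le_pow_right₀ (by norm_num) (by omega)
    have h5 : gf {W | W ∈ SSt (2 ^ i) ∧ W ∉ WL (i + J)} ≤ ENNReal.ofReal (1 / 2) * (ENNReal.ofReal (Ub i) * Xb k) := by
      refine h1.trans ?_
      rw [← mul_assoc, ← ENNReal.ofReal_mul (by norm_num)]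
      refine mul_le_mul' (ENNReal.ofReal_le_ofReal (mul_le_mul_of_nonneg_right hJ hUi.le)) ?_
      exact Xb_mono hik
    have h6 : ENNReal.ofReal (1 / 2) * (ENNReal.ofReal (Ub i) * Xb k) ≤ gf {W | W ∈ SSt (2 ^ i) ∧ W ∈ WL (i + J)} := by
      have hfin : ENNReal.ofReal (1 / 2) * (ENNReal.ofReal (Ub i) * Xb k) ≠ ⊤ :=
        ENNReal.mul_ne_top ENNReal.ofReal_ne_top (ENNReal.mul_ne_top ENNReal.ofReal_ne_top (Xb_ne_top k))
      have e : ENNReal.ofReal (1 / 2) * (ENNReal.ofReal (Ub i) * Xb k) + ENNReal.ofReal (1 / 2) * (ENNReal.ofReal (Ub i) * Xb k) =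
          gf (SSt (2 ^ i)) := by
        rw [← hi, ← add_mul, ← ENNReal.ofReal_add (by norm_num) (by norm_num)]
        norm_num
      have h7 := (e.le.trans h2).trans (add_le_add_right h5 _)
      exact (ENNReal.add_le_add_iff_right hfin).1 h7
    have h8 : ENNReal.ofReal (Ub i) * (ENNReal.ofReal (1 / 2) * Xb k) ≤
        ENNReal.ofReal (Ub i) * gf {W | W ∈ BAR.NA (2 ^ k) ∧ BX (2 ^ (k + (J + 2))) W} := by
      calc ENNReal.ofReal (Ub i) * (ENNReal.ofReal (1 / 2) * Xb k) =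
            ENNReal.ofReal (1 / 2) * (ENNReal.ofReal (Ub i) * Xb k) := by ring
        _ ≤ _ := h6.trans (h3.trans (mul_le_mul_right h4 _))
    have h9 := (ENNReal.mul_le_mul_iff_right (by simpa using hUi) ENNReal.ofReal_ne_top).1 h8
    exact (mul_le_mul_left (ENNReal.ofReal_le_ofReal (min_le_left _ _)) _).trans h9
  · -- few scales
    have h1 : Xb k ≤ ENNReal.ofReal c3 := by
      rw [← hc3']
      have h2 : (1 : ℝ≥0∞) ≤ ENNReal.ofReal (Ub i) := by
        rw [← ENNReal.ofReal_one]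
        exact ENNReal.ofReal_le_ofReal (HD.one_le_UU _)
      calc Xb k = 1 * Xb k := (one_mul _).symm
        _ ≤ ENNReal.ofReal (Ub i) * Xb k := mul_le_mul_left h2 _
        _ = gf (SSt (2 ^ i)) := hi
        _ ≤ _ := gf_mono fun W hW => SSt_mono (Nat.pow_le_pow_right (by norm_num) (by omega)) hW
    have h2 : (1 : ℝ≥0∞) ≤ gf {W | W ∈ BAR.NA (2 ^ k) ∧ BX (2 ^ (k + (J + 2))) W} := by
      have h3 : ({[]} : Set (List Bool)) ⊆ {W | W ∈ BAR.NA (2 ^ k) ∧ BX (2 ^ (k + (J + 2))) W} := by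
        rintro W rfl
        exact nil_NAb _ _ (by positivity)
      have h4 := gf_mono h3
      rwa [JumpVaux.gf_nil] at h4
    refine le_trans ?_ h2
    calc ENNReal.ofReal (min (1 / 2) (1 / (c3 + 1))) * Xb k ≤ ENNReal.ofReal (1 / (c3 + 1)) * ENNReal.ofReal c3 :=
          mul_le_mul' (ENNReal.ofReal_le_ofReal (min_le_right _ _)) h1
      _ = ENNReal.ofReal (1 / (c3 + 1) * c3) := by rw [← ENNReal.ofReal_mul (by positivity)]
      _ ≤ ENNReal.ofReal 1 := by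
          refine ENNReal.ofReal_le_ofReal ?_
          rw [div_mul_eq_mul_div, one_mul, div_le_one (by positivity)]
          linarith
      _ = 1 := ENNReal.ofReal_one

end TIP

end HexObs
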