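import Pool.Agent.TIP.DefsG
import Pool.Agent.TIP.Nar
import Pool.Agent.TIP.Box
import Pool.Agent.TIP.Frame
import Pool.Agent.TPF.NaMass

/-!
TIP, G2 (helper69): the half plane words of even length in a box that end above a given row have the mass of order
`Ub k * Xb k`.
-/

set_option autoImplicit false

namespace HexObs

namespace TIP

open Finset TS SDN SIM NTA BAR TPF

open scoped ENNReal

namespace Es

/-- the last part -/
def NX (k s : ℕ) : Set (List Bool) := {W | W ∈ BAR.NA (2 ^ k) ∧ BX (2 ^ (k + s)) W}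

/-- the middle and the last part -/
def MX (k s : ℕ) : Set (List Bool) := {U | ∃ B ∈ Tb (2 ^ k) 0 (2 ^ k), ∃ W ∈ NX k s, U = B ++ W}

/-- the three parts -/
def SX (k s : ℕ) : Set (List Bool) := {t | ∃ V ∈ Vb (2 ^ k) 0 (2 ^ k), ∃ U ∈ MX k s, t = V ++ U}

lemma MX_SSt {k s : ℕ} {U : List Bool} (h : U ∈ MX k s) : ∃ d, U ∈ SSt d := by
  obtain ⟨B, hB, W, hW, rfl⟩ := h
  exact ⟨_, SSt_cat (BU_hgt hB.1) hW.1.1⟩

lemma SX_SSt {k s : ℕ} {t : List Bool} (h : t ∈ SX k s) : ∃ d, t ∈ SSt d := by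
  obtain ⟨V, hV, U, hU, rfl⟩ := h
  obtain ⟨d, hd⟩ := MX_SSt hU
  exact ⟨_, SSt_cat (BU_hgt hV.1.1) hd⟩

lemma mass_MX (k s : ℕ) : gf (Tb (2 ^ k) 0 (2 ^ k)) * gf (NX k s) ≤ gf (MX k s) := by
  refine mul_le_gf (fun a ha b hb => ⟨a, ha, b, hb, rfl⟩) ?_
  have key : ∀ (a a' b b' : List Bool), a ∈ Tb (2 ^ k) 0 (2 ^ k) → a' ∈ Tb (2 ^ k) 0 (2 ^ k) → b ∈ NX k s → b' ∈ NX k s →
      hgt a ≤ hgt a' → a ++ b = a' ++ b' → a = a' := by
    intro a a' b b' ha ha' hb hb' hle h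
    obtain ⟨v, hv, h2, h3⟩ := nested (BU_hgt ha.1) (BU_hgt ha'.1) (pos_SSt hb.1.1) (pos_SSt hb'.1.1) hle h
    rcases Nat.eq_zero_or_pos (hgt a' - hgt a) with h0 | h0
    · rw [h0, Brd_zero] at hv
      have h4 : v = [] := hv
      rw [h2, h4, List.append_nil]
    · exact absurd ⟨v, b', hv, pos_SSt hb'.1.1, h3⟩ (hb.1.2 _ h0)
  intro a ha b hb a' ha' b' hb' h
  rcases le_total (hgt a) (hgt a') with hle | hle
  · exact key a a' b b' ha ha' hb hb' hle h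
  · exact (key a' a b' b ha' ha hb' hb hle h.symm).symm

lemma mass_SX (k s : ℕ) : gf (Vb (2 ^ k) 0 (2 ^ k)) * gf (MX k s) ≤ gf (SX k s) := by
  refine mul_le_gf (fun a ha b hb => ⟨a, ha, b, hb, rfl⟩) ?_
  have key : ∀ (a a' b b' : List Bool), a ∈ Vb (2 ^ k) 0 (2 ^ k) → a' ∈ Vb (2 ^ k) 0 (2 ^ k) → b ∈ MX k s → b' ∈ MX k s →
      hgt a ≤ hgt a' → a ++ b = a' ++ b' → a = a' := by
    intro a a' b b' ha ha' hb hb' hle h
    obtain ⟨d, hd⟩ := MX_SSt hb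
    obtain ⟨d', hd'⟩ := MX_SSt hb'
    obtain ⟨v, hv, h2, h3⟩ := nested (BU_hgt ha.1.1) (BU_hgt ha'.1.1) (pos_SSt hd) (pos_SSt hd') hle h
    have h4 := ha'.2 a v ha.1.1 ⟨_, hv⟩ h2 ha.1.2.1 ha.1.2.2.2.1
    rw [h2, h4, List.append_nil]
  intro a ha b hb a' ha' b' hb' h
  rcases le_total (hgt a) (hgt a') with hle | hle
  · exact key a a' b b' ha ha' hb hb' hle h
  · exact (key a' a b' b ha' ha hb' hb hle h.symm).symm

lemma Tb_in {k : ℕ} {V : List Bool} (h : V ∈ Tb (2 ^ k) 0 (2 ^ k)) {i : ℕ} (hi : i ≤ V.length) :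
    vx oo up V i ∈ Bl oo (4 * 2 ^ k) := by
  obtain ⟨h1, h2, h3, h4, h5⟩ := h
  have h6 := h5 i hi
  have h7 := mem_Brd.1 (BU_hgt h1)
  have h8 : 0 ≤ lev V i ∧ lev V i ≤ 3 * hgt V := by
    rcases Nat.eq_zero_or_pos i with h0 | h0
    · rw [h0, lev_zero]
      exact ⟨le_rfl, by positivity⟩
    · exact ⟨(h7.1 i h0 hi).1.le, (h7.1 i h0 hi).2⟩
  rw [← lv_vx] at h8
  rw [← lat_vx, min_self, max_self] at h6
  have hl : lv (vx oo up V i) = 2 * (vx oo up V i).2 + (vx oo up V i).1 := rfl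
  have e1 : (oo : Pt).1 = 0 := rfl
  have e2 : (oo : Pt).2 = 0 := rfl
  rw [mem_Bl, e1, e2]
  push_cast at h6 ⊢
  have h9 : (hgt V : ℤ) ≤ 2 ^ k + 2 ^ k := by exact_mod_cast h3
  obtain ⟨z, hz⟩ : ∃ z : ℤ, z = 2 ^ k := ⟨_, rfl⟩
  rw [← hz] at h6 h9 ⊢
  refine ⟨⟨?_, ?_⟩, ?_, ?_⟩ <;> omega

lemma NX_in {k s : ℕ} {W : List Bool} (h : W ∈ NX k s) {i : ℕ} (hi : i ≤ W.length) :
    vx oo up W i ∈ Bl oo (5 * 2 ^ (k + s)) := by
  have h1 := h.2 i hi false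
  have h2 := h.2 i hi true
  have e1 : (oo : Pt).1 = 0 := rfl
  have e2 : (oo : Pt).2 = 0 := rfl
  rw [mem_Bl, e1, e2]
  have l1 : lvl false (vx oo up W i) = 2 * (vx oo up W i).2 + (vx oo up W i).1 := by
    exact (lv_ip _).symm
  have l2 : lvl true (vx oo up W i) = -(2 * (vx oo up W i).1) - (vx oo up W i).2 := by
    show 2 * ((vx oo up W i).1 * (-1) + (vx oo up W i).2 * 0) + (vx oo up W i).1 * 0 + (vx oo up W i).2 * (-1) = _
    ring
  unfold row at h1 h2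
  rw [abs_le] at h1 h2
  have h3 : (1 : ℤ) ≤ 2 ^ (k + s) := one_le_pow₀ (by norm_num)
  push_cast
  obtain ⟨z, hz⟩ : ∃ z : ℤ, z = 2 ^ (k + s) := ⟨_, rfl⟩
  rw [← hz] at h1 h2 h3 ⊢
  refine ⟨⟨?_, ?_⟩, ?_, ?_⟩ <;> omega

lemma Bl_add {p q : Pt} {a b : ℕ} (hp : p ∈ Bl oo a) (hq : q ∈ Bl oo b) : p + q ∈ Bl oo (a + b) := by
  rw [mem_Bl] at hp hq ⊢
  push_cast
  have e1 : (oo : Pt).1 = 0 := rfl
  have e2 : (oo : Pt).2 = 0 := rfl
  rw [e1, e2] at hp hq ⊢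
  simp only [Prod.fst_add, Prod.snd_add]
  refine ⟨⟨?_, ?_⟩, ?_, ?_⟩ <;> omega

lemma cat_in {V U : List Bool} {a b : ℕ} (hV : V ∈ BU) (h1 : ∀ i, i ≤ V.length → vx oo up V i ∈ Bl oo a)
    (h2 : ∀ i, i ≤ U.length → vx oo up U i ∈ Bl oo b) {i : ℕ} (hi : i ≤ (V ++ U).length) :
    vx oo up (V ++ U) i ∈ Bl oo (a + b) := by
  rcases Nat.lt_or_ge V.length i with h | h
  · obtain ⟨j, rfl⟩ : ∃ j, i = V.length + j := ⟨i - V.length, by omega⟩
    rw [List.length_append] at hi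
    rw [vx_cat (BU_dx hV)]
    exact Bl_add (h1 _ le_rfl) (h2 j (by omega))
  · rw [vx_append (by omega)]
    exact Bl_mono _ (by omega) (h1 i h)

lemma SX_in {k s : ℕ} {t : List Bool} (h : t ∈ SX k s) {i : ℕ} (hi : i ≤ t.length) :
    vx oo up t i ∈ Bl oo (2 ^ (k + (s + 4))) := by
  obtain ⟨V, hV, U, ⟨B, hB, W, hW, rfl⟩, rfl⟩ := h
  have h1 := cat_in hV.1.1 (fun i hi => Tb_in hV.1 hi) (fun i hi => cat_in hB.1 (fun i hi => Tb_in hB hi)
    (fun i hi => NX_in hW hi) hi) hi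
  refine Bl_mono _ ?_ h1
  have e : 2 ^ (k + (s + 4)) = 16 * 2 ^ (k + s) := by
    rw [← add_assoc, pow_add]
    ring
  have h2 : 2 ^ k ≤ 2 ^ (k + s) := Nat.pow_le_pow_right (by norm_num) (by omega)
  omega

lemma BU_even {V : List Bool} (h : V ∈ BU) : Even V.length := by
  obtain ⟨n, hn⟩ := h
  exact even_of_up upd (mem_Brd.1 hn).2.2.1

/-- the even words -/
lemma even_ES {k s ρ σ : ℕ} (hρ : 2 ^ (k + (s + 4)) ≤ ρ) (hσ : σ ≤ 2 ^ k) {t : List Bool} (ht : t ∈ SX k s)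
    (he : Even t.length) : t ∈ ES ρ σ := by
  refine ⟨⟨SX_SSt ht, fun i hi => Bl_mono _ hρ (SX_in ht hi)⟩, he, ?_⟩
  obtain ⟨V, hV, U, hU, rfl⟩ := ht
  obtain ⟨d, hd⟩ := MX_SSt hU
  rw [List.length_append, lev_cat (BU_dx hV.1.1), (mem_Brd.1 (BU_hgt hV.1.1)).2.2.2]
  have h1 : 0 ≤ lev U U.length := by
    rcases Nat.eq_zero_or_pos U.length with h0 | h0
    · rw [h0, lev_zero]
    · exact ((BAR.mem_SSt.1 hd).1 _ h0 le_rfl).1.le
  have h2 : (σ : ℤ) ≤ hgt V := by exact_mod_cast hσ.trans hV.1.2.1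
  linarith

/-- the odd words without the last letter -/
lemma odd_ES {k s ρ σ : ℕ} (hρ : 2 ^ (k + (s + 4)) ≤ ρ) (hσ : σ ≤ 2 ^ k) {t : List Bool} (ht : t ∈ SX k s)
    (he : ¬ Even t.length) : t.dropLast ∈ ES ρ σ := by
  have hne : t ≠ [] := by
    rintro rfl
    exact he (by simp)
  have hlen : t.dropLast.length = t.length - 1 := List.length_dropLast
  have hpos : 0 < t.length := List.length_pos_iff.2 hne
  have hpre : ∀ i, i ≤ t.dropLast.length → vx oo up t.dropLast i = vx oo up t i := by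
    intro i hi
    obtain ⟨x, hx⟩ := last_split hne
    conv_rhs => rw [hx]
    rw [vx_append (by omega)]
  refine ⟨⟨?_, fun i hi => ?_⟩, ?_, ?_⟩
  · obtain ⟨d, hd⟩ := SX_SSt ht
    exact ⟨d, dropLast_SSt hd⟩
  · rw [hpre i hi]
    exact Bl_mono _ hρ (SX_in ht (by omega))
  · rw [hlen]
    rw [Nat.not_even_iff_odd] at he
    obtain ⟨p, hp⟩ := he
    exact ⟨p, by omega⟩
  · have e : lev t.dropLast t.dropLast.length = lev t t.dropLast.length := by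
      unfold lev
      rw [hpre _ le_rfl]
    rw [e, hlen]
    obtain ⟨V, hV, U, hU, rfl⟩ := ht
    obtain ⟨d, hd⟩ := MX_SSt hU
    obtain ⟨p, hp⟩ := BU_even hV.1.1
    rw [List.length_append] at he ⊢
    have hU0 : 0 < U.length := by
      by_contra hc
      apply he
      rw [show U.length = 0 by omega]
      exact ⟨p, by omega⟩
    rw [show V.length + U.length - 1 = V.length + (U.length - 1) by omega, lev_cat (BU_dx hV.1.1),
      (mem_Brd.1 (BU_hgt hV.1.1)).2.2.2]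
    have h1 : 0 ≤ lev U (U.length - 1) := by
      rcases Nat.eq_zero_or_pos (U.length - 1) with h0 | h0
      · rw [h0, lev_zero]
      · exact ((BAR.mem_SSt.1 hd).1 _ h0 (by omega)).1.le
    have h2 : (σ : ℤ) ≤ hgt V := by exact_mod_cast hσ.trans hV.1.2.1
    linarith

lemma SX_le {k s ρ σ : ℕ} (hρ : 2 ^ (k + (s + 4)) ≤ ρ) (hσ : σ ≤ 2 ^ k) : gf (SX k s) ≤ 3 * gf (ES ρ σ) := by
  have h1 : SX k s ⊆ ES ρ σ ∪ {t | ∃ E ∈ ES ρ σ, ∃ x ∈ {t : List Bool | t = [true] ∨ t = [false]}, t = E ++ x} := by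
    intro t ht
    by_cases he : Even t.length
    · exact Or.inl (even_ES hρ hσ ht he)
    · have hne : t ≠ [] := by
        rintro rfl
        exact he (by simp)
      obtain ⟨x, hx⟩ := last_split hne
      refine Or.inr ⟨t.dropLast, odd_ES hρ hσ ht he, [x], ?_, hx⟩
      cases x
      · exact Or.inr rfl
      · exact Or.inl rfl
  refine (gf_mono h1).trans ((gf_union_le _ _).trans ?_)
  have h2 : gf {t | ∃ E ∈ ES ρ σ, ∃ x ∈ {t : List Bool | t = [true] ∨ t = [false]}, t = E ++ x} ≤ gf (ES ρ σ) * 2 :=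
    (gf_le_mul fun t ht => ht).trans (mul_le_mul_right gf_let _)
  calc gf (ES ρ σ) + _ ≤ gf (ES ρ σ) + gf (ES ρ σ) * 2 := add_le_add le_rfl h2
    _ = 3 * gf (ES ρ σ) := by ring

end Es

open Es

/-- **G2** -/
theorem esMass : EsMass := by
  obtain ⟨c1, t1, hc1, hV⟩ := Vb_mass 0 1
  obtain ⟨c2, t2, hc2, hT⟩ := Tb_mass 0 1
  obtain ⟨s, c3, hc3, hN⟩ := narrow
  obtain ⟨k0, hk0⟩ : ∃ k0, k0 = t1 + t2 := ⟨_, rfl⟩
  refine ⟨s + 4 + k0, c1 * c2 * c3 / 3, by positivity, fun k ρ σ hρ hσ => ?_⟩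
  obtain ⟨K, hK⟩ : ∃ K, K = max k k0 := ⟨_, rfl⟩
  have hkK : k ≤ K := by rw [hK]; exact le_max_left _ _
  have hk0K : k0 ≤ K := by rw [hK]; exact le_max_right _ _
  have hKk : K ≤ k + k0 := by rw [hK]; exact max_le (by omega) (by omega)
  have hpK : K < 2 ^ K := Nat.lt_two_pow_self
  have hρ' : 2 ^ (K + (s + 4)) ≤ ρ := (Nat.pow_le_pow_right (by norm_num) (by omega)).trans hρ
  have hσ' : σ ≤ 2 ^ K := hσ.trans (Nat.pow_le_pow_right (by norm_num) hkK)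
  have m1 := hV (2 ^ K) (2 ^ K) 0 (by omega) (by simp) (by omega) le_rfl
  have m2 := hT (2 ^ K) (2 ^ K) 0 (by omega) (by simp) (by omega) le_rfl
  have m3 := hN K
  have hUb : Ub k ≤ UU (2 ^ K) := UU_mono (Nat.pow_le_pow_right (by norm_num) hkK)
  have hUk : 0 < Ub k := Ub_pos k
  have h1 : gf (Vb (2 ^ K) 0 (2 ^ K)) * (gf (Tb (2 ^ K) 0 (2 ^ K)) * gf (NX K s)) ≤ 3 * gf (ES ρ σ) :=
    ((mul_le_mul_right (mass_MX K s) _).trans (mass_SX K s)).trans (SX_le hρ' hσ')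
  have h2 : ENNReal.ofReal c1 * (ENNReal.ofReal (c2 * UU (2 ^ K)) * (ENNReal.ofReal c3 * Xb K)) ≤ 3 * gf (ES ρ σ) :=
    (mul_le_mul' m1 (mul_le_mul' m2 m3)).trans h1
  have h3 : ENNReal.ofReal (c1 * c2 * c3 * Ub k) * Xb k ≤
      ENNReal.ofReal c1 * (ENNReal.ofReal (c2 * UU (2 ^ K)) * (ENNReal.ofReal c3 * Xb K)) := by
    have e : ENNReal.ofReal c1 * (ENNReal.ofReal (c2 * UU (2 ^ K)) * (ENNReal.ofReal c3 * Xb K)) =
        ENNReal.ofReal (c1 * c2 * c3 * UU (2 ^ K)) * Xb K := by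
      have hUK := Num2Aux.UU_pos (2 ^ K)
      rw [← mul_assoc, ← mul_assoc, ← ENNReal.ofReal_mul hc1.le, ← ENNReal.ofReal_mul (by positivity)]
      congr 2
      ring
    rw [e]
    exact mul_le_mul' (ENNReal.ofReal_le_ofReal (mul_le_mul_of_nonneg_left hUb (by positivity))) (Xb_mono hkK)
  have h4 := h3.trans h2
  have e3 : ENNReal.ofReal (c1 * c2 * c3 * Ub k) * Xb k = 3 * (ENNReal.ofReal (c1 * c2 * c3 / 3 * Ub k) * Xb k) := by
    rw [← mul_assoc, show (3 : ℝ≥0∞) = ENNReal.ofReal 3 by norm_num, ← ENNReal.ofReal_mul (by norm_num)]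
    congr 2
    ring
  rw [e3] at h4
  exact (ENNReal.mul_le_mul_iff_right (by norm_num) (by norm_num)).1 h4

end TIP

end HexObs
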