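import Pool.Agent.TIP.WideF
import Pool.Agent.TIP.RevM

/-!
TIP, row Nd (helper41), geometry: long factors in Nz under the removal of a short piece at the end, reversal.
-/

set_option autoImplicit false

namespace HexObs

namespace TIP

open Finset TS SDN NTW NTA SIM

open scoped ENNReal

namespace YB

lemma In_iff {D : ℕ} {t : List Bool} : In D t ↔ ∀ i, i ≤ t.length → |(vx oo up t i).1| ≤ (D : ℤ) ∧ |(vx oo up t i).2| ≤ (D : ℤ) := by
  constructor
  · intro h i hi
    exact RevM.In_coord h hi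
  · intro h i hi
    obtain ⟨h1, h2⟩ := h i hi
    have e1 : (oo : Pt).1 = 0 := rfl
    have e2 : (oo : Pt).2 = 0 := rfl
    refine ⟨?_, ?_⟩
    · rw [e1, sub_zero]
      exact h1
    · rw [e2, sub_zero]
      exact h2

lemma In_mono {D D' : ℕ} (h : D ≤ D') {t : List Bool} (ht : In D t) : In D' t := fun i hi => Bl_mono _ h (ht i hi)

lemma In_nil (D : ℕ) : In D [] := by
  intro i hi
  have : i = 0 := by simpa using hi
  subst this
  show oo ∈ Bl oo D
  rw [mem_Bl]
  omega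

/-- coordinates in another frame -/
lemma mul_coord {c : Pt} (hc : c ∈ dirs) {v : Pt} {B : ℤ} (h1 : |v.1| ≤ B) (h2 : |v.2| ≤ B) :
    |(mulE c v).1| ≤ 2 * B ∧ |(mulE c v).2| ≤ 2 * B := by
  obtain ⟨x, y⟩ := v
  simp only [dirs, mem_insert, mem_singleton] at hc
  simp only at h1 h2
  rw [abs_le] at *
  rw [abs_le]
  rcases hc with rfl | rfl | rfl | rfl | rfl | rfl <;> simp only [mulE] <;> refine ⟨⟨?_, ?_⟩, ?_, ?_⟩ <;> omega

/-- the inverse frame -/
lemma mul_coord' {c : Pt} (hc : c ∈ dirs) {v : Pt} {B : ℤ} (h1 : |(mulE c v).1| ≤ B) (h2 : |(mulE c v).2| ≤ B) :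
    |v.1| ≤ 2 * B ∧ |v.2| ≤ 2 * B := by
  obtain ⟨x, y⟩ := v
  simp only [dirs, mem_insert, mem_singleton] at hc
  rw [abs_le] at *
  rw [abs_le]
  simp only
  rcases hc with rfl | rfl | rfl | rfl | rfl | rfl <;> simp only [mulE] at h1 h2 <;> refine ⟨⟨?_, ?_⟩, ?_, ?_⟩ <;> omega

/-- removing a short beginning -/
lemma not_In_drop {Q : List Bool} {k D D1 D' : ℕ} (hQ : ¬ In D Q)
    (h1 : ∀ i, i ≤ k → i ≤ Q.length → |(vx oo up Q i).1| ≤ (D1 : ℤ) ∧ |(vx oo up Q i).2| ≤ (D1 : ℤ)) (h2 : 2 * D' + D1 ≤ D) :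
    ¬ In D' (Q.drop k) := by
  intro h
  apply hQ
  rw [In_iff]
  intro i hi
  rcases Nat.lt_or_ge k i with hk | hk
  · obtain ⟨j, rfl⟩ : ∃ j, i = k + j := ⟨i - k, by omega⟩
    obtain ⟨c, hc, -, hf⟩ := drop_frame' Q k
    rw [hf j]
    obtain ⟨a1, a2⟩ := h1 k le_rfl (by omega)
    obtain ⟨b1, b2⟩ := RevM.In_coord h (i := j) (by rw [List.length_drop]; omega)
    obtain ⟨c1, c2⟩ := mul_coord hc b1 b2
    rw [Prod.fst_add, Prod.snd_add]
    rw [abs_le] at *
    rw [abs_le]
    refine ⟨⟨?_, ?_⟩, ?_, ?_⟩ <;> omega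
  · obtain ⟨a1, a2⟩ := h1 i hk hi
    have : (D1 : ℤ) ≤ D := by omega
    exact ⟨a1.trans this, a2.trans this⟩

/-! ### Nz and Lz -/

variable {κ : ℝ} {C b : ℕ}

lemma Nz_pre {X Y : List Bool} (h : X ++ Y ∈ Nz κ C b) : X ∈ Nz κ C b := by
  intro X1 Z Y1 he hY
  refine h X1 Z (Y1 ++ Y) ?_ ?_
  · rw [he]
    simp only [List.append_assoc]
  · intro h0
    exact hY (List.append_eq_nil_iff.1 h0).1

lemma Nz_suf {X Y : List Bool} (h : X ++ Y ∈ Nz κ C b) : Y ∈ Nz κ C b := by
  intro X1 Z Y1 he hY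
  refine h (X ++ X1) Z Y1 ?_ hY
  rw [he]
  simp only [List.append_assoc]

lemma Lz_left (e : List Bool) {t : List Bool} {n : ℕ} (h : t ∈ Lz κ C b n) : e ++ t ∈ Lz κ C b n := by
  obtain ⟨X, Q, Y, rfl, h2, h3⟩ := h
  exact ⟨e ++ X, Q, Y, by simp only [List.append_assoc], h2, h3⟩

lemma Lz_right (e : List Bool) {t : List Bool} {n : ℕ} (h : t ∈ Lz κ C b n) : t ++ e ∈ Lz κ C b n := by
  obtain ⟨X, Q, Y, rfl, h2, h3⟩ := h
  exact ⟨X, Q, Y ++ e, by simp only [List.append_assoc], h2, h3⟩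

lemma Lz_anti {t : List Bool} {n n' : ℕ} (h : n' ≤ n) (ht : t ∈ Lz κ C b n) : t ∈ Lz κ C b n' := by
  obtain ⟨X, Q, Y, h1, h2, h3⟩ := ht
  exact ⟨X, Q, Y, h1, h2, fun hI => h3 (In_mono (Nat.mul_le_mul_right _ h) hI)⟩

/-- one letter less at the beginning -/
lemma Lz_tail {t : List Bool} {n : ℕ} (hn : 1 ≤ n) (h : t ∈ Lz κ C b (4 * n)) : t.drop 1 ∈ Lz κ C b n := by
  obtain ⟨X, Q, Y, rfl, h2, h3⟩ := h
  cases X with
  | cons x X =>
    refine Lz_anti (n := 4 * n) (by omega) ⟨X, Q, Y, rfl, h2, h3⟩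
  | nil =>
    cases Q with
    | nil => exact absurd (In_nil _) h3
    | cons x Q =>
      refine ⟨[], Q, Y, rfl, Nz_suf (X := [x]) h2, ?_⟩
      have hb : 1 ≤ 2 ^ b := Nat.one_le_two_pow
      have hnb : 1 ≤ n * 2 ^ b := Nat.one_le_iff_ne_zero.2 (by positivity)
      refine not_In_drop (Q := x :: Q) (k := 1) (D1 := 1) h3 ?_ ?_
      · intro i hi _
        interval_cases i
        · show |oo.1| ≤ _ ∧ |oo.2| ≤ _
          decide
        · show |(oo + up).1| ≤ _ ∧ |(oo + up).2| ≤ _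
          decide
      · have : 4 * n * 2 ^ b = 4 * (n * 2 ^ b) := by ring
        omega

lemma vx_close (t : List Bool) (i : ℕ) : |(vx oo up t (i + 1)).1 - (vx oo up t i).1| ≤ 1 ∧
    |(vx oo up t (i + 1)).2 - (vx oo up t i).2| ≤ 1 := by
  have e : vx oo up t (i + 1) = vx oo up t i + dx up t i := rfl
  have hd1 : ∀ d ∈ dirs, |d.1| ≤ 1 ∧ |d.2| ≤ 1 := by decide
  obtain ⟨h1, h2⟩ := hd1 _ (dx_mem up_dirs t i)
  rw [e, Prod.fst_add, Prod.snd_add, add_sub_cancel_left, add_sub_cancel_left]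
  exact ⟨h1, h2⟩

/-- one letter less at the end -/
lemma Lz_init {t : List Bool} {n : ℕ} (hn : 1 ≤ n) (h : t ∈ Lz κ C b (2 * n)) : t.dropLast ∈ Lz κ C b n := by
  obtain ⟨X, Q, Y, rfl, h2, h3⟩ := h
  by_cases hY : Y = []
  · subst hY
    rw [List.append_nil]
    have hQ : Q ≠ [] := by
      rintro rfl
      exact h3 (In_nil _)
    rw [List.dropLast_append_of_ne_nil hQ]
    refine ⟨X, Q.dropLast, [], by rw [List.append_nil], ?_, fun hI => h3 ?_⟩
    · refine Nz_pre (Y := [Q.getLast hQ]) ?_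
      rwa [List.dropLast_append_getLast hQ]
    · have hlen : Q.dropLast.length = Q.length - 1 := List.length_dropLast
      have hpos : 0 < Q.length := List.length_pos_iff.2 hQ
      have hvx : ∀ i, i ≤ Q.length → vx oo up Q i = vx oo up Q.dropLast i := by
        intro i hi
        conv_lhs => rw [← List.dropLast_append_getLast hQ]
        exact vx_append (by rw [hlen]; omega)
      have hnb : 1 ≤ n * 2 ^ b := Nat.one_le_iff_ne_zero.2 (by positivity)
      have e2 : 2 * n * 2 ^ b = 2 * (n * 2 ^ b) := by ring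
      rw [e2, In_iff]
      obtain ⟨x, hx⟩ : ∃ x : ℕ, x = n * 2 ^ b := ⟨_, rfl⟩
      rw [← hx] at hI hnb ⊢
      clear hx e2 h3 h2
      intro i hi
      rcases Nat.lt_or_ge i Q.length with h | h
      · obtain ⟨a1, a2⟩ := RevM.In_coord hI (i := i) (by rw [hlen]; omega)
        rw [← hvx i hi] at a1 a2
        push_cast at a1 a2 ⊢
        constructor <;> linarith
      · have hi' : i = Q.length - 1 + 1 := by omega
        obtain ⟨a1, a2⟩ := RevM.In_coord hI (i := Q.length - 1) (by rw [hlen])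
        rw [← hvx (Q.length - 1) (by omega)] at a1 a2
        obtain ⟨b1, b2⟩ := vx_close Q (Q.length - 1)
        rw [← hi'] at b1 b2
        rw [abs_le] at *
        rw [abs_le]
        push_cast at *
        refine ⟨⟨?_, ?_⟩, ?_, ?_⟩ <;> omega
  · rw [List.dropLast_append_of_ne_nil (by simp [hY]), List.dropLast_append_of_ne_nil hY]
    exact Lz_anti (n := 2 * n) (by omega) ⟨X, Q, Y.dropLast, rfl, h2, h3⟩

lemma rev_drop_one (Y : List Bool) : rev ((rev Y).drop 1) = Y.dropLast := by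
  unfold rev
  rw [List.map_drop, List.map_reverse, List.map_map]
  have : ((not ∘ not) : Bool → Bool) = id := by
    funext x
    cases x <;> rfl
  rw [this, List.map_id, List.drop_one, List.tail_reverse, List.reverse_reverse]

/-- the vertices of a piece of a reversed bridge that is not wide -/
lemma short_rev {Z : List Bool} {D : ℕ} (hZ : Z ∉ WdR D) {k i : ℕ} (hi : k + i ≤ Z.length) :
    |(vx oo up ((rev Z).drop k) i).1| ≤ 4 * ((D : ℤ) + 1) ∧ |(vx oo up ((rev Z).drop k) i).2| ≤ 4 * ((D : ℤ) + 1) := by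
  obtain ⟨c, hc, hf⟩ := RevM.rev_frame Z
  obtain ⟨c', hc', -, hf'⟩ := drop_frame' (rev Z) k
  have hr : ∀ a e, a ≤ Z.length + 1 → e ≤ Z.length + 1 → |(vx oo up Z a).1 - (vx oo up Z e).1| ≤ (D : ℤ) + 1 ∧
      |(vx oo up Z a).2 - (vx oo up Z e).2| ≤ (D : ℤ) + 1 := by
    have hr0 : ∀ a e, a ≤ Z.length → e ≤ Z.length → |(vx oo up Z a).1 - (vx oo up Z e).1| ≤ (D : ℤ) ∧
        |(vx oo up Z a).2 - (vx oo up Z e).2| ≤ (D : ℤ) := by
      intro a e ha he
      by_contra hcon
      exact hZ ⟨a, e, ha, he, fun hB => hcon hB⟩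
    have hr1 : ∀ a, a ≤ Z.length → |(vx oo up Z a).1 - (vx oo up Z (Z.length + 1)).1| ≤ (D : ℤ) + 1 ∧
        |(vx oo up Z a).2 - (vx oo up Z (Z.length + 1)).2| ≤ (D : ℤ) + 1 := by
      intro a ha
      obtain ⟨a1, a2⟩ := hr0 a Z.length ha le_rfl
      obtain ⟨b1, b2⟩ := vx_close Z Z.length
      rw [abs_le] at *
      rw [abs_le]
      refine ⟨⟨?_, ?_⟩, ?_, ?_⟩ <;> omega
    intro a e ha he
    rcases Nat.lt_or_ge Z.length a with h1 | h1
    · have ha' : a = Z.length + 1 := by omega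
      subst ha'
      rcases Nat.lt_or_ge Z.length e with h2 | h2
      · have he' : e = Z.length + 1 := by omega
        subst he'
        rw [sub_self, sub_self, abs_zero]
        constructor <;> omega
      · obtain ⟨a1, a2⟩ := hr1 e h2
        rw [abs_sub_comm (vx oo up Z (Z.length + 1)).1, abs_sub_comm (vx oo up Z (Z.length + 1)).2]
        exact ⟨a1, a2⟩
    · rcases Nat.lt_or_ge Z.length e with h2 | h2
      · have he' : e = Z.length + 1 := by omega
        subst he'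
        exact hr1 a h1
      · obtain ⟨a1, a2⟩ := hr0 a e h1 h2
        constructor <;> omega
  have h1 := hf (k + i) (by omega)
  have h2 := hf k (by omega)
  rw [hf' i, mulE_add, ← add_assoc, ← h2] at h1
  have e1 : mulE c (mulE c' (vx oo up ((rev Z).drop k) i)) = vx oo up Z (Z.length + 1 - (k + i)) - vx oo up Z (Z.length + 1 - k) := by
    rw [h1]
    abel
  obtain ⟨a1, a2⟩ := hr (Z.length + 1 - (k + i)) (Z.length + 1 - k) (by omega) (by omega)
  rw [← Prod.fst_sub] at a1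
  rw [← Prod.snd_sub] at a2
  rw [← e1] at a1 a2
  obtain ⟨b1, b2⟩ := mul_coord' hc a1 a2
  obtain ⟨c1, c2⟩ := mul_coord' hc' b1 b2
  constructor
  · calc _ ≤ 2 * (2 * ((D : ℤ) + 1)) := c1
      _ = _ := by ring
  · calc _ ≤ 2 * (2 * ((D : ℤ) + 1)) := c2
      _ = _ := by ring

/-- **removing a narrow bridge at the end** -/
lemma Lz_cut {A Z : List Bool} {n : ℕ} (hn : 1 ≤ n) (hZ : Z ∉ WdR (n * 2 ^ b)) (h : rev (A ++ Z) ∈ Lz κ C b (16 * n)) :
    rev A ∈ Lz κ C b (4 * n) := by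
  have hnb : 1 ≤ n * 2 ^ b := Nat.one_le_iff_ne_zero.2 (by positivity)
  obtain ⟨X, Q, Y, he, h2, h3⟩ := h
  have e16 : 16 * n * 2 ^ b = 16 * (n * 2 ^ b) := by ring
  rw [e16] at h3
  rw [rev_append] at he
  rcases List.append_eq_append_iff.1 he with ⟨W, h4, h5⟩ | ⟨W, h4, h5⟩
  · -- X = rev Z ++ W
    exact Lz_anti (n := 16 * n) (by omega) ⟨W, Q, Y, h5, h2, by rwa [e16]⟩
  · -- rev Z = X ++ W, Q ++ Y = W ++ rev A
    have hsh : ∀ i, X.length + i ≤ Z.length → |(vx oo up W i).1| ≤ 4 * (((n * 2 ^ b : ℕ) : ℤ) + 1) ∧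
        |(vx oo up W i).2| ≤ 4 * (((n * 2 ^ b : ℕ) : ℤ) + 1) := by
      intro i hi
      have := short_rev hZ (k := X.length) (i := i) hi
      rwa [h4, List.drop_left' rfl] at this
    have hlen : X.length + W.length = Z.length := by
      have := congrArg List.length h4
      rw [rev_length, List.length_append] at this
      omega
    rcases List.append_eq_append_iff.1 h5 with ⟨V, h6, h7⟩ | ⟨V, h6, h7⟩
    · -- W = Q ++ V
      exfalso
      apply h3
      rw [In_iff]
      intro i hi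
      have hlW : W.length = Q.length + V.length := by rw [h6, List.length_append]
      obtain ⟨a1, a2⟩ := hsh i (by omega)
      have e1 : vx oo up W i = vx oo up Q i := by
        rw [h6]
        exact vx_append (by omega)
      rw [e1] at a1 a2
      push_cast at *
      constructor <;> linarith
    · -- Q = W ++ V, rev A = V ++ Y
      refine ⟨[], V, Y, h7, ?_, ?_⟩
      · refine Nz_suf (X := W) ?_
        rw [← h6]
        exact h2
      · have e1 : Q.drop W.length = V := by rw [h6, List.drop_left' rfl]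
        rw [← e1]
        refine not_In_drop (D1 := 4 * (n * 2 ^ b + 1)) h3 ?_ ?_
        · intro i hi _
          obtain ⟨a1, a2⟩ := hsh i (by omega)
          have e2 : vx oo up W i = vx oo up Q i := by
            rw [h6]
            exact (vx_append (by omega)).symm
          rw [e2] at a1 a2
          push_cast at *
          exact ⟨a1, a2⟩
        · have e4 : 4 * n * 2 ^ b = 4 * (n * 2 ^ b) := by ring
          omega

end YB

end TIP

end HexObs
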