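import Pool.Agent.TIP.NgC
import Pool.Agent.TOG.FewN
import Pool.Agent.TOG.Lim

/-!
TIP, Ng: exactly n letters, from the structure of the walk near its start (StrN, helper49) (helper58).
-/

set_option autoImplicit false

namespace HexObs

namespace TIP

open Finset TS SDN HexObs.SIM NTA

open scoped ENNReal

/-- **structure near the start (helper49)**: two macroscopic bridges in a row; what is before a cut of the first one is in a
class with a sharp bound for the weight of a given number of letters; the end is not near the part up to the second one -/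
def StrN : Prop := ∀ ε : ℝ, 0 < ε → ∃ (c C k0 : ℕ) (A : ℝ) (LB : ℕ → Set (List Bool)), 0 < A ∧
  (∀ k l : ℕ, k0 ≤ k → gf {L | L ∈ LB k ∧ L.length = l} ≤ ENNReal.ofReal (A * (Ub k / PW.mZ (2 ^ k))) * Xb k) ∧
  ∀ k n : ℕ, k0 ≤ k → PW.mZ (2 ^ k) ≤ n → n < PW.mZ (2 ^ (k + 1)) → ∃ B : Set (List Bool), TOG.Pn n B ≤ ε ∧
    ∀ t ∈ SawN n, t ∉ B → t ∈ WL (k + C) ∧ ∃ X0 H H2 X1 : List Bool, t = X0 ++ (H ++ (H2 ++ X1)) ∧ H ∈ BU ∧ H2 ∈ BU ∧
      2 ^ (k - c) ≤ hgt H ∧ 2 ^ (k - c) ≤ hgt H2 ∧ hgt H ≤ 2 ^ k ∧ hgt H2 ≤ 2 ^ k ∧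
      (∀ A1 B1, A1 ∈ BU → B1 ∈ BU → H = A1 ++ B1 → X0 ++ A1 ∈ LB k) ∧
      ∀ D : ℕ, (D : ℝ) ^ 10 ≤ n → ∀ i, i ≤ (X0 ++ (H ++ H2)).length → vx oo up t i ∉ Bl (tipv t) (4 * D)

namespace NgA

/-- probability and weight -/
lemma Pn_mul (n : ℕ) (S : Set (List Bool)) :
    gf (SawN n) * ENNReal.ofReal (TOG.Pn n S) = gf {t | t ∈ SawN n ∧ t ∈ S} := by
  have hc : (0 : ℝ) < cS n := by exact_mod_cast TOG.cS_pos n
  have hx := xc_pos
  have h1 : gf (SawN n) = ENNReal.ofReal ((cS n : ℝ) * xc ^ n) := TOG.gf_ncard subset_rfl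
  have h2 : gf {t | t ∈ SawN n ∧ t ∈ S} = ENNReal.ofReal (({t | t ∈ SawN n ∧ t ∈ S}.ncard : ℝ) * xc ^ n) :=
    TOG.gf_ncard fun t ht => ht.1
  rw [h1, h2, ← ENNReal.ofReal_mul (by positivity)]
  congr 1
  unfold TOG.Pn
  field_simp

lemma saw_ne (n : ℕ) : gf (SawN n) ≠ 0 ∧ gf (SawN n) ≠ ⊤ := by
  have hc : (0 : ℝ) < cS n := by exact_mod_cast TOG.cS_pos n
  have hx := xc_pos
  have h1 : gf (SawN n) = ENNReal.ofReal ((cS n : ℝ) * xc ^ n) := TOG.gf_ncard subset_rfl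
  rw [h1]
  refine ⟨?_, ENNReal.ofReal_ne_top⟩
  rw [Ne, ENNReal.ofReal_eq_zero, not_le]
  positivity

end NgA

open NgA in
/-- **Ng**: exactly n letters -/
theorem exN_of (hS : StrN) : ExN := by
  intro η ε hη hε
  obtain ⟨c1, C1, k0, A, LB, hA, hLB, hstr⟩ := hS ε hε
  obtain ⟨Ct, hCt, htip⟩ := tipSt η hη
  obtain ⟨Ce, c0, hCe, hens⟩ := ens_P0 (c1 + (C1 + 9)) (by omega)
  obtain ⟨Cc, hCc, hcore⟩ := NgC.core
  obtain ⟨Dx, hDx, hX⟩ := Xb_pow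
  obtain ⟨cl, κ, k1, hcl, -, hbig⟩ := EN.factsX_M.big
  have hm : ∀ k, 0 < PW.mZ (2 ^ k) := fun k => PW.mZ_pos Nat.one_le_two_pow
  have hmono : Monotone fun k => PW.mZ (2 ^ k) := fun a b h => PW.mZ_mono (Nat.pow_le_pow_right (by norm_num) h)
  have hCc0 : 0 < Cc := by linarith
  have hCe0 : 0 < Ce := by linarith
  have hDx0 : 0 < Dx := by linarith
  obtain ⟨Z, hZ⟩ : ∃ Z : ℝ, Z = Cc * 2 ^ c1 * A * Ct * (Ce * 2 ^ (C1 + 9)) * Dx ^ (C1 + 9) := ⟨_, rfl⟩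
  have hZ0 : 0 < Z := by rw [hZ]; positivity
  refine ⟨Z / cl, by positivity, fun b => ?_⟩
  obtain ⟨K0, hens⟩ := hens b
  obtain ⟨n0, hn0⟩ := TOG.scale_ex hmono mlow_M (k0 + k1 + c0 + K0 + c1)
  refine ⟨n0, fun n hn => ?_⟩
  obtain ⟨k, hk, hk1, hk2⟩ := hn0 n hn
  obtain ⟨B, hB, hstr⟩ := hstr k n (by omega) hk1 hk2
  refine ⟨B, hB, fun ρ x q D hD hloc hρ hx hq => ?_⟩
  obtain ⟨c, hc⟩ : ∃ c, c = k - c1 := ⟨_, rfl⟩
  obtain ⟨K, hK⟩ : ∃ K, K = k + (C1 + 9) := ⟨_, rfl⟩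
  have hcK : c + (c1 + (C1 + 9)) = K := by omega
  obtain ⟨E, hE⟩ : ∃ E : Set (List Bool), E = {t | t ∈ SawN n ∧ t ∈ {t | t ∉ B ∧ q ≤ (nD D ρ t : ℝ)}} := ⟨_, rfl⟩
  have hUk := TS.Ub_pos k
  have hmk := hm k
  have h1 : gf E * ENNReal.ofReal q ≤ ENNReal.ofReal (Cc * (2 ^ k / ((2 ^ c : ℕ) * Ub k))) *
      ((ENNReal.ofReal (A * (Ub k / PW.mZ (2 ^ k))) * Xb k) * (gf (P0 c K ∩ GT b η) * x)) := by
    refine hcore (LB k) (BotS c K) (P0 c K ∩ GT b η) E (fun A Y => ρ A Y ∧ In D Y) (2 ^ c) k n _ x q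
      Nat.one_le_two_pow (fun l => ?_) (fun R hR A Y hRA hσ => ?_) hx fun t ht => ?_
    · refine le_trans (gf_mono fun L hL => ?_) (hLB k l (by omega))
      exact ⟨hL.2, hL.1⟩
    · refine ⟨?_, hρ A Y hσ.1⟩
      have h2 := NgE.P0_of_BotS hR
      rw [hRA] at h2
      exact NgE.P0_pre h2
    · rw [hE] at ht
      obtain ⟨ht1, ht2, ht3⟩ := ht
      obtain ⟨hW, X0, H, H2, X1, e1, e2, e3, e4, e5, e6, e7, e8, e9⟩ := hstr t ht1 ht2
      refine ⟨NgC.cut_of (K1 := k + C1) hloc hW (by omega) e1 e2 e3 ?_ ?_ e6 ?_ e8 (e9 D hD) ht3, ht1.1⟩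
      · rw [hc]
        exact e4
      · rw [hc]
        exact e5
      · unfold RR
        push_cast
        linarith
  have h2 : gf (P0 c K ∩ GT b η) * Xb b ≤ ENNReal.ofReal Ct * (ENNReal.ofReal (Ce * Ub K) * Xb K) := by
    have h3 := htip _ _ b (hens c (by omega) (by omega)) b le_rfl
    rwa [hcK] at h3
  have h3 : ENNReal.ofReal (Ce * Ub K) * Xb K ≤
      ENNReal.ofReal (Ce * (2 ^ (C1 + 9) * Ub k)) * (ENNReal.ofReal (Dx ^ (C1 + 9)) * Xb k) := by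
    rw [hK]
    exact mul_le_mul' (ENNReal.ofReal_le_ofReal (mul_le_mul_of_nonneg_left (Ub_steps k (C1 + 9)) hCe0.le)) (hX k (C1 + 9))
  have h4 : ENNReal.ofReal cl * (ENNReal.ofReal (Ub k / PW.mZ (2 ^ k)) * Xb k ^ 2) ≤ gf (SawN n) :=
    (hbig k n (by omega) hk1 hk2).trans (gf_mono fun t ht => ht.1)
  have hnum : Cc * (2 ^ k / ((2 ^ c : ℕ) * Ub k)) * (A * (Ub k / PW.mZ (2 ^ k))) * Ct * (Ce * (2 ^ (C1 + 9) * Ub k)) *
      Dx ^ (C1 + 9) = Z / cl * cl * (Ub k / PW.mZ (2 ^ k)) := by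
    have h5 : (2 : ℝ) ^ k = 2 ^ c1 * ((2 ^ c : ℕ) : ℝ) := by
      push_cast
      rw [← pow_add]
      congr 1
      omega
    have h6 : (0 : ℝ) < ((2 ^ c : ℕ) : ℝ) := by positivity
    rw [h5, hZ]
    field_simp
  -- the product
  have hmain : gf (SawN n) * (ENNReal.ofReal (TOG.Pn n {t | t ∉ B ∧ q ≤ (nD D ρ t : ℝ)}) * (ENNReal.ofReal q * Xb b)) ≤
      gf (SawN n) * (ENNReal.ofReal (Z / cl) * x) := by
    calc gf (SawN n) * (ENNReal.ofReal (TOG.Pn n {t | t ∉ B ∧ q ≤ (nD D ρ t : ℝ)}) * (ENNReal.ofReal q * Xb b))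
        = gf E * ENNReal.ofReal q * Xb b := by
          rw [hE, ← Pn_mul]
          ring
      _ ≤ (ENNReal.ofReal (Cc * (2 ^ k / ((2 ^ c : ℕ) * Ub k))) *
            ((ENNReal.ofReal (A * (Ub k / PW.mZ (2 ^ k))) * Xb k) * (gf (P0 c K ∩ GT b η) * x))) * Xb b :=
          mul_le_mul' h1 le_rfl
      _ = ENNReal.ofReal (Cc * (2 ^ k / ((2 ^ c : ℕ) * Ub k))) * ((ENNReal.ofReal (A * (Ub k / PW.mZ (2 ^ k))) * Xb k) *
            (gf (P0 c K ∩ GT b η) * Xb b)) * x := by ring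
      _ ≤ ENNReal.ofReal (Cc * (2 ^ k / ((2 ^ c : ℕ) * Ub k))) * ((ENNReal.ofReal (A * (Ub k / PW.mZ (2 ^ k))) * Xb k) *
            (ENNReal.ofReal Ct * (ENNReal.ofReal (Ce * (2 ^ (C1 + 9) * Ub k)) * (ENNReal.ofReal (Dx ^ (C1 + 9)) * Xb k)))) *
            x := by
          refine mul_le_mul' (mul_le_mul' le_rfl (mul_le_mul' le_rfl (h2.trans (mul_le_mul' le_rfl h3)))) le_rfl
      _ = ENNReal.ofReal (Z / cl) * (ENNReal.ofReal cl * (ENNReal.ofReal (Ub k / PW.mZ (2 ^ k)) * Xb k ^ 2)) * x := by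
          have key : ENNReal.ofReal (Cc * (2 ^ k / ((2 ^ c : ℕ) * Ub k))) * ENNReal.ofReal (A * (Ub k / PW.mZ (2 ^ k))) *
              ENNReal.ofReal Ct * ENNReal.ofReal (Ce * (2 ^ (C1 + 9) * Ub k)) * ENNReal.ofReal (Dx ^ (C1 + 9)) =
              ENNReal.ofReal (Z / cl) * ENNReal.ofReal cl * ENNReal.ofReal (Ub k / PW.mZ (2 ^ k)) := by
            rw [← ENNReal.ofReal_mul (by positivity), ← ENNReal.ofReal_mul (by positivity),
              ← ENNReal.ofReal_mul (by positivity), ← ENNReal.ofReal_mul (by positivity), hnum,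
              ENNReal.ofReal_mul (by positivity), ENNReal.ofReal_mul (by positivity)]
          calc _ = (ENNReal.ofReal (Cc * (2 ^ k / ((2 ^ c : ℕ) * Ub k))) * ENNReal.ofReal (A * (Ub k / PW.mZ (2 ^ k))) *
                ENNReal.ofReal Ct * ENNReal.ofReal (Ce * (2 ^ (C1 + 9) * Ub k)) * ENNReal.ofReal (Dx ^ (C1 + 9))) *
                (Xb k ^ 2 * x) := by ring
            _ = _ := by
                rw [key]
                ring
      _ ≤ ENNReal.ofReal (Z / cl) * gf (SawN n) * x := mul_le_mul' (mul_le_mul' le_rfl h4) le_rfl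
      _ = _ := by ring
  exact (ENNReal.mul_le_mul_iff_right (saw_ne n).1 (saw_ne n).2).1 hmain

end TIP

end HexObs
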