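import Pool.Agent.TIP.YBadG
import Pool.Agent.TIP.TipXJ

/-!
TIP, row Nd (helper41): ends that start with a good tip and have a long factor without good window are rare. One step of
the recursion of the tip lemma (tipxJ), the words of the box with a long factor (RegZ), wide free bridges (wide_range).
-/

set_option autoImplicit false

namespace HexObs

namespace TIP

open Finset TS SDN NTW NTA SIM

open scoped ENNReal

namespace YB

/-! ### numbers -/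

lemma num (k B c : ℝ) (d : ℕ) (hk : 0 ≤ k) (hB : 1 ≤ B) (hc : 0 < c) :
    ∃ J0 : ℕ, ∀ J : ℕ, J0 ≤ J → k * B ^ J * Real.exp (-(c * (2 : ℝ) ^ (J - d))) ≤ 1 := by
  have h1 : Filter.Tendsto (fun J : ℕ => (J : ℝ) ^ 1 / 2 ^ J) Filter.atTop (nhds 0) :=
    tendsto_pow_const_div_const_pow_of_one_lt 1 (by norm_num)
  obtain ⟨L, hL⟩ : ∃ L : ℝ, L = k + Real.log B + 1 := ⟨_, rfl⟩
  have hlog : 0 ≤ Real.log B := Real.log_nonneg hB
  have hL0 : 0 < L := by rw [hL]; linarith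
  have h2 : ∀ᶠ J : ℕ in Filter.atTop, (J : ℝ) ^ 1 / 2 ^ J < c / (L * 2 ^ d) :=
    h1.eventually (gt_mem_nhds (by positivity))
  obtain ⟨J0, hJ0⟩ := Filter.eventually_atTop.1 h2
  refine ⟨J0 + d + 1, fun J hJ => ?_⟩
  have h3 := hJ0 J (by omega)
  rw [pow_one, div_lt_div_iff₀ (by positivity) (by positivity)] at h3
  have h4 : (2 : ℝ) ^ J = 2 ^ (J - d) * 2 ^ d := by rw [← pow_add]; congr 1; omega
  have h5 : (J : ℝ) * L < c * 2 ^ (J - d) := by
    rw [h4] at h3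
    have h6 : (J : ℝ) * L * 2 ^ d < c * 2 ^ (J - d) * 2 ^ d := by
      calc (J : ℝ) * L * 2 ^ d = J * (L * 2 ^ d) := by ring
        _ < c * (2 ^ (J - d) * 2 ^ d) := h3
        _ = _ := by ring
    exact lt_of_mul_lt_mul_right h6 (by positivity)
  have hJ1 : (1 : ℝ) ≤ J := by
    have : 1 ≤ J := by omega
    exact_mod_cast this
  have h6 : k ≤ Real.exp k := by linarith [Real.add_one_le_exp k]
  have h7 : B ^ J = Real.exp (Real.log B * J) := by
    rw [Real.exp_mul, Real.exp_log (by linarith), Real.rpow_natCast]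
  calc k * B ^ J * Real.exp (-(c * (2 : ℝ) ^ (J - d)))
      ≤ Real.exp k * Real.exp (Real.log B * J) * Real.exp (-(c * (2 : ℝ) ^ (J - d))) := by
        rw [h7]
        gcongr
    _ = Real.exp (k + Real.log B * J - c * (2 : ℝ) ^ (J - d)) := by
        rw [← Real.exp_add, ← Real.exp_add]
        congr 1
    _ ≤ Real.exp 0 := by
        apply Real.exp_le_exp.2
        have h8 : k ≤ k * J := le_mul_of_one_le_right hk hJ1
        have h9 : (J : ℝ) * L = J * k + J * Real.log B + J := by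
          rw [hL]
          ring
        nlinarith
    _ = 1 := Real.exp_zero

lemma fin {k B e Y : ℝ} {a J : ℕ} (h : 12 * k * (B * 2 ^ a) ^ J * e ≤ 1) (hY : Y = k * B ^ J * e) :
    Y ≤ (2 ^ (a * J))⁻¹ / 12 := by
  have hp : (0 : ℝ) < 2 ^ (a * J) := by positivity
  rw [mul_pow, ← pow_mul] at h
  rw [hY, le_div_iff₀ (by norm_num), ← one_div, le_div_iff₀ hp]
  calc k * B ^ J * e * 12 * 2 ^ (a * J) = 12 * k * (B ^ J * 2 ^ (a * J)) * e := by ring
    _ ≤ 1 := h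

lemma term1 {C2 lam D : ℝ} {a A J Ja : ℕ} (hC2 : 1 ≤ C2) (hlam : 1 < lam) (hD : 1 ≤ D)
    (hA : (2 : ℝ) ^ (a + 1) * D < lam ^ A) (hJa : 12 * C2 * D ^ 3 < 2 ^ Ja) (hJ : Ja ≤ J) :
    C2 * (lam ^ (A * J + 1))⁻¹ * D ^ (J + 3) ≤ (2 ^ (a * J))⁻¹ / 12 := by
  have hl : 0 < lam := by linarith
  have hD0 : 0 < D := by linarith
  have h1 : ((2 : ℝ) ^ (a + 1) * D) ^ J ≤ lam ^ (A * J + 1) := by
    calc ((2 : ℝ) ^ (a + 1) * D) ^ J ≤ (lam ^ A) ^ J := pow_le_pow_left₀ (by positivity) hA.le _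
      _ = lam ^ (A * J) := (pow_mul _ _ _).symm
      _ ≤ lam ^ (A * J + 1) := pow_le_pow_right₀ hlam.le (by omega)
  have h2 : (lam ^ (A * J + 1))⁻¹ ≤ (((2 : ℝ) ^ (a + 1) * D) ^ J)⁻¹ := inv_anti₀ (by positivity) h1
  have h3 : (2 : ℝ) ^ Ja ≤ 2 ^ J := pow_le_pow_right₀ (by norm_num) hJ
  have hp : (0 : ℝ) < 2 ^ (a * J) := by positivity
  calc C2 * (lam ^ (A * J + 1))⁻¹ * D ^ (J + 3) ≤ C2 * (((2 : ℝ) ^ (a + 1) * D) ^ J)⁻¹ * D ^ (J + 3) := by gcongr
    _ = (12 * C2 * D ^ 3) / 2 ^ J * ((2 ^ (a * J))⁻¹ / 12) := by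
        rw [mul_pow, ← pow_mul, show (a + 1) * J = a * J + J by ring, pow_add, pow_add]
        field_simp
    _ ≤ 1 * ((2 ^ (a * J))⁻¹ / 12) := by
        refine mul_le_mul_of_nonneg_right ?_ (by positivity)
        rw [div_le_one (by positivity)]
        linarith
    _ = _ := one_mul _

lemma mulW {q d U : ℝ} {X2 W : ℝ≥0∞} (hq : 0 ≤ q) (hup : ENNReal.ofReal U * X2 ≤ ENNReal.ofReal d * W) :
    ENNReal.ofReal (q * U) * X2 ≤ ENNReal.ofReal (q * d) * W := by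
  rw [ENNReal.ofReal_mul hq, ENNReal.ofReal_mul hq, mul_assoc, mul_assoc]
  exact mul_le_mul' le_rfl hup

lemma three {g : ℝ} {W Z : ℝ≥0∞} (h : Z ≤ ENNReal.ofReal g * W) : 3 * Z ≤ ENNReal.ofReal (3 * g) * W := by
  refine (mul_le_mul' le_rfl h).trans (le_of_eq ?_)
  rw [ENNReal.ofReal_mul (by norm_num), ENNReal.ofReal_ofNat, mul_assoc]

lemma WL_pre {K : ℕ} {A Z : List Bool} (h : A ++ Z ∈ WL K) : A ∈ WL K := by
  refine ⟨?_, fun i hi dir => ?_⟩
  · have := SA_take h.1 A.length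
    rwa [List.take_left' rfl] at this
  · have := h.2 i (by rw [List.length_append]; omega) dir
    rwa [vx_append (by omega)] at this

lemma WL_up {K K' : ℕ} (h : K ≤ K') : WL K ⊆ WL K' := fun t ht => ⟨ht.1, fun i hi dir => (ht.2 i hi dir).trans
  (pow_le_pow_right₀ (by norm_num) h)⟩

/-- reversal of the words of a box with a long factor -/
lemma rev_box {κ : ℝ} {C b K n : ℕ} (hn : 1 ≤ n) :
    gf {t | t ∈ WL K ∧ rev t ∈ Lz κ C b (4 * n)} ≤ 3 * gf {t | t ∈ WL (K + 6) ∧ t ∈ Lz κ C b n} := by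
  have h1 : gf {t | t ∈ WL K ∧ rev t ∈ Lz κ C b (4 * n)} ≤
      1 * (gf {t | t ∈ WL (K + 6) ∧ t ∈ Lz κ C b n} * gf {t : List Bool | t.length ≤ 1}) := by
    refine gf_le_pair 1 (fun t => (rev t).drop 1) (fun t => (rev t).take 1) ?_ ?_ ?_ ?_
    · rintro t ⟨h2, h3⟩
      refine ⟨RevM.box1 (D := 2 ^ (K + 3)) ?_ h2.1 ?_, Lz_tail hn h3⟩
      · intro i hi
        exact WL_bd h2 hi
      · have e1 : (2 : ℕ) ^ (K + 6) = 8 * 2 ^ (K + 3) := by rw [pow_add, pow_add]; ring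
        have : 1 ≤ 2 ^ (K + 3) := Nat.one_le_two_pow
        omega
    · intro t _
      show ((rev t).take 1).length ≤ 1
      rw [List.length_take]
      omega
    · intro s _ t _ h2 h3
      have h4 : rev s = rev t := by
        rw [← List.take_append_drop 1 (rev s), ← List.take_append_drop 1 (rev t)]
        exact congrArg₂ (· ++ ·) h3 h2
      rw [← rev_rev s, h4, rev_rev]
    · intro t _
      rw [one_mul, mul_comm, ← wE_append, List.take_append_drop, wE_rev]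
  refine h1.trans ?_
  rw [one_mul, mul_comm]
  exact mul_le_mul' RevM.gf_short le_rfl

end YB

open YB

/-- **row Nd** -/
theorem yBad {κ : ℝ} {C : ℕ} (hR : RegZ κ C) : YBad κ C := by
  intro η a c1 hη
  obtain ⟨C1, c, b1, J1, n1, hC1, hc, hreg⟩ := hR
  obtain ⟨C2, lam, j0, hC2, hlam, htip⟩ := tipxJ η hη
  obtain ⟨C3, c3, hC3, hc3, hwide⟩ := wide_range
  obtain ⟨D, hD, hup⟩ := EnsW.ref_up
  obtain ⟨E, hE, hXE⟩ := Xb_pow
  obtain ⟨x0, hx0⟩ : ∃ x0 : ℝ, x0 = (Xb 0).toReal := ⟨_, rfl⟩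
  have hx00 : 0 ≤ x0 := by rw [hx0]; exact ENNReal.toReal_nonneg
  have hX0 : Xb 0 = ENNReal.ofReal x0 := by rw [hx0]; exact (ENNReal.ofReal_toReal (Xb_ne_top 0)).symm
  obtain ⟨A, hA⟩ : ∃ A : ℕ, (2 : ℝ) ^ (a + 1) * D < lam ^ A := pow_unbounded_of_one_lt _ hlam
  obtain ⟨d, hd⟩ : ∃ d : ℕ, d = c1 + 5 := ⟨_, rfl⟩
  have hl2 : 0 < Real.log 2 := Real.log_pos one_lt_two
  -- the numbers
  obtain ⟨Ja, hJa⟩ : ∃ Ja : ℕ, 12 * C2 * D ^ 3 < 2 ^ Ja := pow_unbounded_of_one_lt _ one_lt_two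
  have h2a : (1 : ℝ) ≤ 2 ^ a := one_le_pow₀ (by norm_num)
  obtain ⟨Jb, hJb⟩ := num (12 * (C2 * C3 * D ^ 3)) (D * 2 ^ a) c3 d (by positivity)
    (one_le_mul_of_one_le_of_one_le hD h2a) hc3
  obtain ⟨Jc, hJc⟩ := num (12 * (3 * C2 * C1 ^ 12 * D ^ 12)) (C2 ^ A * (C1 * D) * 2 ^ a) (c * Real.log 2) d (by positivity)
    (one_le_mul_of_one_le_of_one_le (one_le_mul_of_one_le_of_one_le (one_le_pow₀ hC2)
      (one_le_mul_of_one_le_of_one_le hC1 hD)) h2a) (by positivity)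
  obtain ⟨Jd, hJd⟩ := num (12 * (3 * C1 ^ 12 * D ^ 12 * E ^ j0 * x0)) (E ^ A * (C1 * D) * 2 ^ a) (c * Real.log 2) d
    (by positivity)
    (one_le_mul_of_one_le_of_one_le (one_le_mul_of_one_le_of_one_le (one_le_pow₀ hE)
      (one_le_mul_of_one_le_of_one_le hC1 hD)) h2a) (by positivity)
  refine ⟨J1 + Ja + Jb + Jc + Jd + d + n1 + 1, b1, fun b J hb hJ => ?_⟩
  obtain ⟨N, hN⟩ : ∃ N : ℕ, N = 2 ^ (J - d) := ⟨_, rfl⟩
  have hN1 : 1 ≤ N := by rw [hN]; exact Nat.one_le_two_pow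
  have hNn : n1 ≤ N := by
    rw [hN]
    exact (show n1 ≤ J - d by omega).trans Nat.lt_two_pow_self.le
  have hNr : (N : ℝ) = 2 ^ (J - d) := by rw [hN]; push_cast; rfl
  have hUb : (0 : ℝ) < Ub b := Ub_pos b
  obtain ⟨K, hK⟩ : ∃ K : ℕ, K = b + J + 3 := ⟨_, rfl⟩
  obtain ⟨W, hW⟩ : ∃ W : ℝ≥0∞, W = ENNReal.ofReal (Ub b) * Xb b ^ 2 := ⟨_, rfl⟩
  obtain ⟨g, hg⟩ : ∃ g : ℝ, g = C1 ^ (J + 12) * (2 : ℝ) ^ (-(c * N)) * D ^ (J + 12) := ⟨_, rfl⟩
  have hg0 : 0 ≤ g := by rw [hg]; positivity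
  have hup' : ∀ i, ENNReal.ofReal (Ub (b + i)) * Xb (b + i) ^ 2 ≤ ENNReal.ofReal (D ^ i) * W := by
    intro i
    rw [hW]
    exact hup b i
  -- the words of the box
  have hbox : ∀ K' : ℕ, K' + 6 ≤ b + (J + 12) → gf {t | t ∈ WL K' ∧ rev t ∈ Lz κ C b (4 * N)} ≤
      ENNReal.ofReal (3 * g) * W := by
    intro K' hK'
    refine (rev_box hN1).trans ?_
    have h1 : gf {t | t ∈ WL (K' + 6) ∧ t ∈ Lz κ C b N} ≤ gf {t | t ∈ WL (b + (J + 12)) ∧ t ∈ Lz κ C b N} :=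
      gf_mono fun t ht => ⟨WL_up hK' ht.1, ht.2⟩
    have h2 := hreg b (J + 12) N hb (by omega) hNn
    have h3 : ENNReal.ofReal (C1 ^ (J + 12) * (2 : ℝ) ^ (-(c * N)) * Ub (b + (J + 12))) * Xb (b + (J + 12)) ^ 2 ≤
        ENNReal.ofReal g * W := by
      rw [hg]
      exact mulW (by positivity) (hup' (J + 12))
    exact three (h1.trans (h2.trans h3))
  -- the class of the reversed words
  obtain ⟨P, hP⟩ : ∃ P : Set (List Bool), P = {L | L ∈ WL K ∧ rev L ∈ Lz κ C b (16 * N)} := ⟨_, rfl⟩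
  have hrev : gf {Y | Y ∈ SA ∧ rev Y ∈ GT b η ∧ In (2 ^ (b + J)) Y ∧ ∃ n : ℕ, 2 ^ J ≤ n * 2 ^ c1 ∧ Y ∈ Lz κ C b n} ≤
      4 * gf (P ∩ GT b η) := by
    have h1 := rev_le (b := b) (D := 2 ^ (b + J)) (K := K) (η := η) (Q := Lz κ C b (32 * N))
      (Q' := {L | rev L ∈ Lz κ C b (16 * N)}) (by
        have e : (2 : ℕ) ^ K = 8 * 2 ^ (b + J) := by rw [hK, pow_add]; ring
        have : 1 ≤ 2 ^ (b + J) := Nat.one_le_two_pow
        omega)
      (fun Y hY _ _ => by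
        show rev (rev Y) ∈ Lz κ C b (16 * N)
        rw [rev_rev]
        exact Lz_anti (by omega) hY)
      (fun Y hY _ => by
        show rev ((rev Y).drop 1) ∈ Lz κ C b (16 * N)
        rw [rev_drop_one]
        exact Lz_init (by omega) (by rwa [show 2 * (16 * N) = 32 * N by ring]))
    refine (gf_mono ?_).trans (h1.trans (mul_le_mul' le_rfl (gf_mono ?_)))
    · rintro Y ⟨h2, h3, h4, n, h5, h6⟩
      refine ⟨h2, h3, h4, Lz_anti ?_ h6⟩
      have e1 : 2 ^ J = 32 * N * 2 ^ c1 := by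
        rw [hN, show (32 : ℕ) = 2 ^ 5 by norm_num, ← pow_add, ← pow_add]
        congr 1
        omega
      rw [e1] at h5
      exact Nat.le_of_mul_le_mul_right h5 (by positivity)
    · rintro L ⟨h2, h3, h4⟩
      rw [hP]
      exact ⟨⟨h2, h4⟩, h3⟩
  -- the main bound
  have hmain : gf (P ∩ GT b η) * Xb b ≤ ENNReal.ofReal ((2 ^ (a * J))⁻¹ / 4) * W := by
    have hpow : (0 : ℝ) < 2 ^ (a * J) := by positivity
    have hexp : (2 : ℝ) ^ (-(c * N)) = Real.exp (-(c * Real.log 2 * 2 ^ (J - d))) := by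
      rw [Real.rpow_def_of_pos (by norm_num), hNr]
      congr 1
      ring
    by_cases hbj : A * J + 1 + j0 ≤ b
    · obtain ⟨w, hw⟩ : ∃ w : ℝ, w = C3 * Real.exp (-(c3 * N)) := ⟨_, rfl⟩
      have hw0 : 0 ≤ w := by rw [hw]; positivity
      have h1 := htip b (A * J + 1) K P {L | L ∈ WL K ∧ rev L ∈ Lz κ C b (4 * N)} (WdR (N * 2 ^ b)) w
        (ENNReal.ofReal (3 * g) * W) (by omega) hbj (by omega) (by rw [hP]; exact fun L hL => hL.1)
        (fun A Z1 Z2 hL h2 h3 h4 h5 => by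
          rw [hP] at hL
          refine ⟨WL_pre (Z := Z2) (by rw [List.append_assoc]; exact hL.1), ?_⟩
          rw [rev_append]
          exact Lz_left _ (Lz_cut hN1 h5 hL.2)) hw0
        ((gf_mono (Q := {Z | Z ∈ BU ∧ hgt Z ≤ 2 ^ (b + 1) ∧ Z ∈ WdR (N * 2 ^ b)}) (fun Z hZ =>
          ⟨hZ.1, hZ.2.1.trans (Nat.pow_le_pow_right (by norm_num) (by omega)), hZ.2.2⟩)).trans
          (by rw [hw]; exact hwide b N))
        ((gf_mono (Q := {t | t ∈ WL (K + 3) ∧ rev t ∈ Lz κ C b (4 * N)}) (by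
          rintro t ⟨ht, L, hL, x, hx, rfl⟩
          refine ⟨EnsW.glue_WL (Nat.pow_le_pow_right (by norm_num) (by omega)) hL.1 hx ht, ?_⟩
          rw [rev_append]
          exact Lz_left _ hL.2)).trans (hbox (K + 3) (by omega)))
      refine h1.trans ?_
      have h2 : ENNReal.ofReal (C2 * ((lam ^ (A * J + 1))⁻¹ + w) * Ub K) * Xb K ^ 2 ≤
          ENNReal.ofReal (C2 * ((lam ^ (A * J + 1))⁻¹ + w) * D ^ (J + 3)) * W := by
        have hq : 0 ≤ C2 * ((lam ^ (A * J + 1))⁻¹ + w) := by positivity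
        rw [hK, show b + J + 3 = b + (J + 3) by ring]
        exact mulW hq (hup' (J + 3))
      refine (add_le_add h2 le_rfl).trans ?_
      rw [← mul_assoc, ← add_mul, ← ENNReal.ofReal_mul (by positivity), ← ENNReal.ofReal_add (by positivity) (by positivity)]
      refine mul_le_mul' (ENNReal.ofReal_le_ofReal ?_) le_rfl
      have t1 := term1 (a := a) (J := J) hC2 hlam hD hA hJa (by omega)
      have t2 : C2 * w * D ^ (J + 3) ≤ (2 ^ (a * J))⁻¹ / 12 := by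
        refine fin (hJb J (by omega)) ?_
        rw [hw, hNr]
        ring
      have t3 : C2 ^ (A * J + 1) * (3 * g) ≤ (2 ^ (a * J))⁻¹ / 12 := by
        refine fin (hJc J (by omega)) ?_
        rw [hg, hexp, mul_pow, ← pow_mul, mul_pow]
        ring
      calc C2 * ((lam ^ (A * J + 1))⁻¹ + w) * D ^ (J + 3) + C2 ^ (A * J + 1) * (3 * g)
          = C2 * (lam ^ (A * J + 1))⁻¹ * D ^ (J + 3) + C2 * w * D ^ (J + 3) + C2 ^ (A * J + 1) * (3 * g) := by ring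
        _ ≤ (2 ^ (a * J))⁻¹ / 12 + (2 ^ (a * J))⁻¹ / 12 + (2 ^ (a * J))⁻¹ / 12 := by linarith
        _ = _ := by ring
    · -- no room: the trivial bound
      have h1 : gf (P ∩ GT b η) ≤ ENNReal.ofReal (3 * g) * W := by
        refine (gf_mono (Q := {t | t ∈ WL K ∧ rev t ∈ Lz κ C b (4 * N)}) ?_).trans (hbox K (by omega))
        rintro L ⟨hL, -⟩
        rw [hP] at hL
        exact ⟨hL.1, Lz_anti (by omega) hL.2⟩
      have h2 : Xb b ≤ ENNReal.ofReal (E ^ (A * J + j0) * x0) := by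
        have h3 := hXE 0 b
        rw [Nat.zero_add, hX0, ← ENNReal.ofReal_mul (by positivity)] at h3
        refine h3.trans (ENNReal.ofReal_le_ofReal ?_)
        exact mul_le_mul_of_nonneg_right (pow_le_pow_right₀ hE (by omega)) hx00
      refine (mul_le_mul' h1 h2).trans ?_
      rw [mul_right_comm, ← ENNReal.ofReal_mul (by positivity)]
      refine mul_le_mul' (ENNReal.ofReal_le_ofReal ?_) le_rfl
      have t4 : 3 * g * (E ^ (A * J + j0) * x0) ≤ (2 ^ (a * J))⁻¹ / 12 := by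
        refine fin (hJd J (by omega)) ?_
        rw [hg, hexp, mul_pow, ← pow_mul, mul_pow]
        ring
      have : (0 : ℝ) ≤ (2 ^ (a * J))⁻¹ := by positivity
      linarith
  -- the end
  have hXz : Xb b ≠ 0 := Xb_ne_zero b
  have hXt : Xb b ≠ ∞ := Xb_ne_top b
  have h1 : gf (P ∩ GT b η) ≤ ENNReal.ofReal ((2 ^ (a * J))⁻¹ / 4 * Ub b) * Xb b := by
    refine (ENNReal.mul_le_mul_iff_left hXz hXt).1 (hmain.trans (le_of_eq ?_))
    rw [hW, ENNReal.ofReal_mul (by positivity)]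
    ring
  refine hrev.trans ((mul_le_mul' le_rfl h1).trans (le_of_eq ?_))
  rw [← mul_assoc, ← ENNReal.ofReal_ofNat, ← ENNReal.ofReal_mul (by norm_num)]
  congr 2
  field_simp

end TIP

end HexObs
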