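import Pool.Agent.TIP.Box

/-!
# TIP: bridges with m irreducible pieces in a box, blocks have the mass one, dependent products (helper69)
-/

set_option autoImplicit false

namespace HexObs

namespace TIP

open Finset TS SDN RP EN EN.LB

open scoped ENNReal

/-- dependent products from below -/
lemma gf_dep_ge {P A : Set (List Bool)} {Q : List Bool → Set (List Bool)} {c : ℝ≥0∞}
    (h : ∀ a ∈ A, ∀ u ∈ Q a, a ++ u ∈ P)
    (hu : ∀ a ∈ A, ∀ u ∈ Q a, ∀ a' ∈ A, ∀ u' ∈ Q a', a ++ u = a' ++ u' → a = a')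
    (hc : ∀ a ∈ A, c ≤ gf (Q a)) : gf A * c ≤ gf P := by
  calc gf A * c = ∑' a : A, wE a * c := by
        unfold gf
        rw [ENNReal.tsum_mul_right]
    _ ≤ ∑' a : A, wE a * gf (Q a) := ENNReal.tsum_le_tsum fun a => mul_le_mul' le_rfl (hc a a.2)
    _ = ∑' a : A, ∑' b : Q a, wE a * wE b := by
        refine tsum_congr fun a => ?_
        unfold gf
        rw [ENNReal.tsum_mul_left]
    _ = ∑' p : (Σ a : A, Q a), wE p.1 * wE p.2 :=
        (ENNReal.tsum_sigma (fun (a : A) (b : Q a) => wE (a : List Bool) * wE (b : List Bool))).symm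
    _ ≤ gf P := by
        unfold gf
        let φ : (Σ a : A, Q a) → P := fun p => ⟨(p.1 : List Bool) ++ (p.2 : List Bool), h _ p.1.2 _ p.2.2⟩
        have hφ : Function.Injective φ := by
          rintro ⟨⟨a, ha⟩, ⟨b, hb⟩⟩ ⟨⟨a', ha'⟩, ⟨b', hb'⟩⟩ hp
          have h1 : a ++ b = a' ++ b' := congrArg (fun q : P => (q : List Bool)) hp
          have h2 : a = a' := hu a ha b hb a' ha' b' hb' h1
          subst h2
          have h3 : b = b' := List.append_cancel_left h1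
          subst h3
          rfl
        refine le_trans (le_of_eq (tsum_congr fun p => ?_)) (ENNReal.tsum_comp_le_tsum_of_injective hφ
          (fun t : P => wE t))
        exact (wE_append _ _).symm

/-! ### blocks -/

/-- **the blocks have the mass one** -/
theorem Bk_one (N : ℕ) : 1 ≤ gf (LB.Bk N) := by
  classical
  obtain ⟨S, hS⟩ : ∃ S : ℕ → Set (List Bool), S = fun y => {B | ∃ X ∈ Brd y, ∃ P ∈ Tp (N + 1 - y), B = X ++ P} :=
    ⟨_, rfl⟩
  have hsub : (⋃ y ∈ range (N + 1), S y) ⊆ LB.Bk N := by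
    intro B hB
    rw [Set.mem_iUnion₂] at hB
    obtain ⟨y, hy, hB⟩ := hB
    rw [hS] at hB
    rw [Finset.mem_range] at hy
    obtain ⟨X, hX, P, ⟨r, hr, hP⟩, he⟩ := hB
    exact ⟨y, r, X, P, hX, hP, by omega, by omega, he⟩
  have hlt : ∀ (y y' : ℕ) (X P X' P' : List Bool), y < y' → y' ≤ N → X ∈ Brd y → P ∈ Tp (N + 1 - y) → X' ∈ Brd y' →
      P' ∈ Tp (N + 1 - y') → X ++ P ≠ X' ++ P' := by
    rintro y y' X P X' P' hyy hy' hX ⟨r, hr, hP⟩ hX' ⟨r', hr', hP'⟩ he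
    have h1 := irr_pf hX hP hX' hP'.1 he hyy
    exact hP'.2.1 h1
  have hdis : ∀ i ∈ range (N + 1), ∀ j ∈ range (N + 1), i ≠ j → Disjoint (S i) (S j) := by
    intro i hi j hj hij
    rw [Finset.mem_range] at hi hj
    rw [Set.disjoint_left]
    intro B h1 h2
    rw [hS] at h1 h2
    obtain ⟨X, hX, P, hP, he⟩ := h1
    obtain ⟨X', hX', P', hP', he'⟩ := h2
    rcases Nat.lt_or_gt_of_ne hij with h | h
    · exact hlt i j X P X' P' h (by omega) hX hP hX' hP' (he.symm.trans he')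
    · exact hlt j i X' P' X P h (by omega) hX' hP' hX hP (he'.symm.trans he)
  refine le_trans ?_ (gf_mono hsub)
  rw [gf_biUnion _ _ hdis]
  have hterm : ∀ y ∈ range (N + 1), ENNReal.ofReal (uu y * KK' (N + 1 - y)) ≤ gf (S y) := by
    intro y hy
    rw [ENNReal.ofReal_mul (uu_pos y).le, ← gf_Brd', ← gf_Tp, hS]
    refine mul_le_gf (fun a ha b hb => ⟨a, ha, b, hb, rfl⟩) ?_
    rintro a ha b ⟨r, hr, hb⟩ a' ha' b' ⟨r', hr', hb'⟩ he
    obtain ⟨z, hz, h1, -⟩ := cut_nested ha ha' hb.1 hb'.1 le_rfl he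
    rw [Nat.sub_self, Brd_zero] at hz
    have : z = [] := hz
    rw [this, List.append_nil] at h1
    exact h1.symm
  refine le_trans (le_of_eq ?_) (sum_le_sum hterm)
  rw [← ENNReal.ofReal_sum_of_nonneg fun y _ => mul_nonneg (uu_pos y).le (KK_nonneg _), KK_renewal, ENNReal.ofReal_one]

/-! ### bridges with m pieces -/

/-- products of m irreducible bridges -/
def Ir : ℕ → Set (List Bool)
  | 0 => {V | V = []}
  | m + 1 => {V | ∃ P ∈ IU, ∃ W ∈ Ir m, V = P ++ W}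

lemma IU_BU {P : List Bool} (h : P ∈ IU) : P ∈ BU := by
  obtain ⟨r, hr⟩ := h
  exact ⟨r, hr.1⟩

lemma Ir_BU : ∀ {m : ℕ} {V : List Bool}, V ∈ Ir m → V ∈ BU
  | 0, V, h => by
    have : V = [] := h
    rw [this]
    exact nil_BU
  | m + 1, V, h => by
    obtain ⟨P, hP, W, hW, rfl⟩ := h
    exact BU_app (IU_BU hP) (Ir_BU hW)

lemma gf_Ir : ∀ m : ℕ, gf (Ir m) ≤ 1
  | 0 => by
    have h1 := gf_finset {([] : List Bool)}
    rw [Finset.coe_singleton, Finset.sum_singleton] at h1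
    have h2 : Ir 0 = {([] : List Bool)} := rfl
    rw [h2, h1]
    simp
  | m + 1 => by
    have h1 : gf (Ir (m + 1)) ≤ gf IU * gf (Ir m) := gf_le_mul fun t ht => ht
    rw [BrL.gf_IU, one_mul] at h1
    exact h1.trans (gf_Ir m)

lemma IU_pf {P P' V V' : List Bool} (hP : P ∈ IU) (hP' : P' ∈ IU) (hV : V ∈ BU) (hV' : V' ∈ BU)
    (h : P ++ V = P' ++ V') : P = P' := by
  obtain ⟨r, hr⟩ := hP
  obtain ⟨r', hr'⟩ := hP'
  obtain ⟨v, hv⟩ := hV
  obtain ⟨v', hv'⟩ := hV'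
  rcases le_total r r' with hle | hle
  · obtain ⟨z, hz, h1, h2⟩ := cut_nested hr.1 hr'.1 hv hv' hle h
    rcases hr'.2.2 r _ P z hr.1 hz h1 with h3 | h3
    · exact absurd h3 hr.2.1
    · rw [h3, List.append_nil] at h1
      exact h1.symm
  · obtain ⟨z, hz, h1, h2⟩ := cut_nested hr'.1 hr.1 hv' hv hle h.symm
    rcases hr.2.2 r' _ P' z hr'.1 hz h1 with h3 | h3
    · exact absurd h3 hr'.2.1
    · rw [h3, List.append_nil] at h1
      exact h1

lemma Ir_pf : ∀ {m : ℕ} {V V' X X' : List Bool}, V ∈ Ir m → V' ∈ Ir m → X ∈ BU → X' ∈ BU → V ++ X = V' ++ X' → V = V'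
  | 0, V, V', X, X', h1, h2, _, _, _ => by
    have e1 : V = [] := h1
    have e2 : V' = [] := h2
    rw [e1, e2]
  | m + 1, V, V', X, X', h1, h2, hX, hX', he => by
    obtain ⟨P, hP, W, hW, rfl⟩ := h1
    obtain ⟨P', hP', W', hW', rfl⟩ := h2
    rw [List.append_assoc, List.append_assoc] at he
    have h3 := IU_pf hP hP' (BU_app (Ir_BU hW) hX) (BU_app (Ir_BU hW') hX') he
    subst h3
    rw [Ir_pf hW hW' hX hX' (List.append_cancel_left he)]

lemma exists_Ir : ∀ (y : ℕ) (V : List Bool), V ∈ Brd y → ∃ k, V ∈ Ir k := by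
  intro y
  induction y using Nat.strong_induction_on with
  | _ y ih =>
    intro V hV
    rcases Nat.eq_zero_or_pos y with h0 | h0
    · subst h0
      rw [Brd_zero] at hV
      exact ⟨0, hV⟩
    · obtain ⟨r, s, u, h1, h2, h3, h4, h5⟩ := Brd_first hV h0
      obtain ⟨k, hk⟩ := ih (y - r) (by omega) u h4
      exact ⟨k + 1, s, ⟨r, h3⟩, u, hk, h5⟩

lemma Ir_split : ∀ {m k : ℕ} {V : List Bool}, V ∈ Ir k → m ≤ k → ∃ V1 ∈ Ir m, ∃ X ∈ BU, V = V1 ++ X
  | 0, k, V, h, _ => ⟨[], rfl, V, Ir_BU h, rfl⟩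
  | m + 1, 0, V, _, hm => by omega
  | m + 1, k + 1, V, h, hm => by
    obtain ⟨P, hP, W, hW, rfl⟩ := h
    obtain ⟨V1, h1, X, hX, he⟩ := Ir_split (m := m) hW (by omega)
    exact ⟨P ++ V1, ⟨P, hP, V1, h1, rfl⟩, X, hX, by rw [he, List.append_assoc]⟩

/-- the parts behind the cuts -/
def cuts (V : List Bool) : Set (List Bool) := {Z2 | Z2 ∈ BU ∧ ∃ Z1 ∈ BU, V = Z1 ++ Z2}

lemma cuts_fin (V : List Bool) : (cuts V).Finite := fin_suf fun Z h => by
  obtain ⟨-, Z1, -, h⟩ := h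
  exact ⟨Z1, h.symm⟩

lemma Ir_cuts : ∀ {m : ℕ} {V : List Bool}, V ∈ Ir m → m + 1 ≤ (cuts V).ncard
  | 0, V, h => by
    have : ([] : List Bool) ∈ cuts V := ⟨nil_BU, V, Ir_BU h, (List.append_nil V).symm⟩
    exact (Set.ncard_pos (cuts_fin V)).2 ⟨_, this⟩
  | m + 1, V, h => by
    have hV := Ir_BU h
    obtain ⟨P, hP, W, hW, rfl⟩ := h
    have h1 := Ir_cuts hW
    obtain ⟨r, hr⟩ := hP
    have h2 : P ++ W ∉ cuts W := by
      rintro ⟨-, Z1, -, h3⟩
      have := congrArg List.length h3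
      rw [List.length_append, List.length_append] at this
      have : 0 < P.length := List.length_pos_iff.2 hr.2.1
      omega
    have h3 : insert (P ++ W) (cuts W) ⊆ cuts (P ++ W) := by
      intro Z hZ
      rcases Set.mem_insert_iff.1 hZ with h4 | h4
      · rw [h4]
        exact ⟨hV, [], nil_BU, rfl⟩
      · obtain ⟨h5, Z1, h6, h7⟩ := h4
        exact ⟨h5, P ++ Z1, BU_app ⟨r, hr.1⟩ h6, by rw [h7, List.append_assoc]⟩
    have h4 := Set.ncard_le_ncard h3 (cuts_fin _)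
    rw [Set.ncard_insert_of_notMem h2 (cuts_fin W)] at h4
    omega

/-- bridges with m pieces in the box of size r -/
def Um (m r : ℕ) : Set (List Bool) := {V | V ∈ Ir m ∧ hgt V ≤ r ∧ ∀ i, i ≤ V.length → |lat V i| ≤ r}

/-- **the mass of the bridges with many pieces in the box** -/
theorem Um_mass : ∃ (c κ : ℝ) (r0 : ℕ), 0 < c ∧ 0 < κ ∧ ∀ m r : ℕ, r0 ≤ r → (m : ℝ) ≤ κ * UU r + 1 →
    ENNReal.ofReal c ≤ gf (Um m r) := by
  classical
  obtain ⟨c, t0, hc, h⟩ := Tb_mass 0 4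
  obtain ⟨n, hn⟩ := UU_unbounded (16 / c)
  refine ⟨c / 16, c / 16, 2 * t0 + n + 4, by positivity, by positivity, fun m r hr hm => ?_⟩
  have hU := Num2Aux.UU_pos r
  have hUn : 16 / c < UU r := lt_of_lt_of_le hn (UU_mono (show n ≤ r by omega))
  have hT := h (r / 2) (r / 4) 0 (by omega) (by simp) (by omega) (by omega)
  have hU4 : UU r ≤ 4 * UU (r / 2) := by
    have h1 := UU_double (r / 2)
    have h2 := UU_double (2 * (r / 2))
    have h3 := UU_mono (show r ≤ 2 * (2 * (r / 2)) by omega)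
    linarith
  have hsub : Tb (r / 2) 0 (r / 4) ⊆ (⋃ k ∈ range m, Ir k) ∪ {V | ∃ V1 ∈ Um m r, ∃ X ∈ {X | X ∈ BU ∧ hgt X ≤ r}, V = V1 ++ X} := by
    intro V hV
    obtain ⟨k, hk⟩ := exists_Ir _ V (BU_hgt hV.1)
    rcases Nat.lt_or_ge k m with h1 | h1
    · refine Or.inl ?_
      rw [Set.mem_iUnion₂]
      exact ⟨k, Finset.mem_range.2 h1, hk⟩
    · obtain ⟨V1, h2, X, hX, he⟩ := Ir_split hk h1
      have h3 : hgt V = hgt V1 + hgt X := by rw [he, hgt_app (Ir_BU h2) hX]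
      have h4 := hV.2.2.1
      refine Or.inr ⟨V1, ⟨h2, by omega, fun i hi => ?_⟩, X, ⟨hX, by omega⟩, he⟩
      have h5 := hV.2.2.2.2 i (by rw [he, List.length_append]; omega)
      rw [he, lat_append (by omega)] at h5
      rw [abs_le]
      constructor <;> omega
  have h1 : gf (Tb (r / 2) 0 (r / 4)) ≤ (m : ℝ≥0∞) + gf (Um m r) * ENNReal.ofReal (UU r) := by
    refine (gf_mono hsub).trans ((gf_union_le _ _).trans (add_le_add ?_ ?_))
    · refine (JumpVaux.gf_biUnion_le _ _).trans ((Finset.sum_le_sum fun k _ => gf_Ir k).trans (le_of_eq ?_))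
      rw [sum_const, card_range, nsmul_eq_mul, mul_one]
    · exact (gf_le_mul fun t ht => ht).trans (mul_le_mul_right (gf_lowBU r) _)
  have h2 : ENNReal.ofReal (c * UU (r / 2)) ≤ ENNReal.ofReal m + gf (Um m r) * ENNReal.ofReal (UU r) := by
    rw [ENNReal.ofReal_natCast]
    exact hT.trans h1
  by_contra hcon
  rw [not_le] at hcon
  have h3 : gf (Um m r) * ENNReal.ofReal (UU r) ≤ ENNReal.ofReal (c / 16 * UU r) := by
    rw [ENNReal.ofReal_mul (by positivity)]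
    exact mul_le_mul_left hcon.le _
  have h4 : ENNReal.ofReal (c * UU (r / 2)) ≤ ENNReal.ofReal (m + c / 16 * UU r) := by
    rw [ENNReal.ofReal_add (Nat.cast_nonneg m) (by positivity)]
    exact h2.trans (add_le_add le_rfl h3)
  rw [ENNReal.ofReal_le_ofReal_iff (by positivity)] at h4
  have h5 : 1 < c / 16 * UU r := by
    rw [div_lt_iff₀ hc] at hUn
    linarith
  have h6 : c / 4 * UU r ≤ c * UU (r / 2) := by nlinarith
  linarith

end TIP

end HexObs
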