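import Pool.Agent.TIP.Frame
import Pool.Agent.TIP.Box

/-!
# TIP: a vertex of the past in front of the tip is hit (helper69)

If the past `A` has a vertex in the box in front of the tip of `L` (and the tip of `A` is not above the tip of `L`), then
two bridges with the ends in explicit boxes hit `A`.
-/

set_option autoImplicit false

namespace HexObs

namespace TIP

open Finset TS SDN SIM

open scoped ENNReal

/-- the word W behind L hits A -/
def HitW (L A W : List Bool) : Prop :=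
  ∃ i, i ≤ A.length ∧ ∃ k, 1 ≤ k ∧ k ≤ W.length ∧ fr L (vx oo up A i) = vx oo up W k

lemma hit_notSA {A Y W X : List Bool} (h : HitW (A ++ Y) A W) : A ++ (Y ++ (W ++ X)) ∉ SA := by
  obtain ⟨i, hi, k, hk1, hk, he⟩ := h
  intro hS
  have h1 : fr (A ++ Y) (vx oo up ((A ++ Y) ++ (W ++ X)) ((A ++ Y).length + k)) = vx oo up W k := by
    rw [fr_front, vx_append (by omega)]
  have h2 := fr_inj (he.trans h1.symm)
  have h3 : vx oo up ((A ++ Y) ++ (W ++ X)) i = vx oo up A i := by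
    rw [List.append_assoc, vx_append (by omega)]
  rw [← h3] at h2
  rw [← List.append_assoc] at hS
  refine hS.inj i ((A ++ Y).length + k) ?_ ?_ h2
  · rw [List.length_append]
    omega
  · rw [List.length_append (as := A ++ Y), List.length_append (as := W)]
    omega

lemma HN_le {p q : Pt} (h : HN p q) : |q.1 - p.1| ≤ 1 ∧ |q.2 - p.2| ≤ 1 := by
  obtain ⟨a1, a2⟩ := p
  obtain ⟨b1, b2⟩ := q
  simp only [HN, lv, Prod.mk_add_mk, Prod.mk.injEq] at *
  rw [abs_le, abs_le]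
  omega

lemma len_pos {V : List Bool} (_ : V ∈ BU) (h : 1 ≤ hgt V) : 1 ≤ V.length := by
  by_contra hc
  have h0 : V = [] := List.length_eq_zero_iff.1 (by omega)
  rw [h0, hgt_nil] at h
  omega

lemma lev_BU {V : List Bool} (hV : V ∈ BU) {i : ℕ} (hi : i ≤ V.length) : 0 ≤ lev V i ∧ lev V i ≤ 3 * hgt V := by
  have h := mem_Brd.1 (BU_hgt hV)
  rcases Nat.eq_zero_or_pos i with h0 | h0
  · rw [h0]
    have e0 : lev V 0 = 0 := by
      show ip oo up = 0
      decide
    rw [e0]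
    exact ⟨le_rfl, by positivity⟩
  · exact ⟨(h.1 i h0 hi).1.le, (h.1 i h0 hi).2⟩

lemma levE_BU {V : List Bool} (hV : V ∈ BU) : lev V V.length = 3 * hgt V := (mem_Brd.1 (BU_hgt hV)).2.2.2

/-- the coordinates of the second bridge -/
lemma co2 {V1 V2 : List Bool} (h1 : V1 ∈ BU) (j : ℕ) :
    lv (vx oo up (V1 ++ V2) (V1.length + j)) = 3 * hgt V1 + lev V2 j ∧
      (vx oo up (V1 ++ V2) (V1.length + j)).1 = latE V1 + lat V2 j := by
  rw [lv_vx, lat_vx, lev_cat (BU_dx h1), lat_cat (BU_dx h1), levE_BU h1]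
  exact ⟨rfl, rfl⟩

lemma lat_zero (V : List Bool) : lat V 0 = 0 := by
  show -(cross up oo) = 0
  decide

/-- the result of the two cases -/
def HitC (r w : ℕ) (L A : List Bool) : Prop := ∃ (t1 t2 : ℕ) (x1 x2 : ℤ), r ≤ t1 ∧ t1 ≤ 9 * r ∧ |x1| ≤ 5 * r ∧ w ≤ t2 ∧
  t2 ≤ 80 * w ∧ |x2| ≤ 80 * w ∧ t1 + w + (t2 + w) ≤ 10 * r ∧ ∀ V1 ∈ Tb t1 x1 w, ∀ V2 ∈ Tb t2 x2 w, HitW L A (V1 ++ V2)

/-- the past has a large extent in the direction of the levels -/
lemma hitV {L A : List Bool} {P : ℕ → Pt} {n r w : ℕ} {y : Pt} (hP : ∀ k, k < n → HN (P k) (P (k + 1)))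
    (hPA : ∀ k, k ≤ n → ∃ i, i ≤ A.length ∧ P k = fr L (vx oo up A i)) (hball : ∀ k, k ≤ n → P k ∈ Bl y (20 * w + 1))
    (hlv : lv (P 0) + 20 * w ≤ lv (P n)) (hy1 : 6 * (r : ℤ) ≤ lv y) (hy2 : lv y ≤ 24 * r) (hy3 : |y.1| ≤ 4 * r)
    (hw : 1 ≤ w) (h200 : 200 * w ≤ r) : HitC r w L A := by
  have hb : ∀ k, k ≤ n → (y.1 - (20 * w + 1) ≤ (P k).1 ∧ (P k).1 ≤ y.1 + (20 * w + 1)) ∧
      (lv y - 3 * (20 * w + 1) ≤ lv (P k) ∧ lv (P k) ≤ lv y + 3 * (20 * w + 1)) := by
    intro k hk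
    obtain ⟨⟨a1, a2⟩, a3, a4⟩ := mem_Bl.1 (hball k hk)
    unfold lv
    push_cast at a1 a2 a3 a4
    exact ⟨⟨a1, a2⟩, by linarith, by linarith⟩
  have hb0 := hb 0 (Nat.zero_le _)
  have hbn := hb n le_rfl
  obtain ⟨t1, ht1⟩ : ∃ t1 : ℕ, (t1 : ℤ) = (lv (P 0) + 5) / 3 := ⟨((lv (P 0) + 5) / 3).toNat, by
    rw [Int.toNat_of_nonneg]
    omega⟩
  rw [abs_le] at hy3
  refine ⟨t1, w, y.1 - 40 * w, 80 * w, by omega, by omega, ?_, le_rfl, by omega, ?_, by omega, ?_⟩
  · rw [abs_le]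
    constructor <;> omega
  · rw [abs_le]
    constructor <;> omega
  · intro V1 hV1 V2 hV2
    obtain ⟨b1, h11, h12, h13, h14⟩ := hV1
    obtain ⟨b2, h21, h22, h23, h24⟩ := hV2
    rw [abs_le] at h13 h23
    have l1 := len_pos b1 (by omega)
    have l2 := len_pos b2 (by omega)
    have hn : 1 ≤ n := by
      by_contra hc
      have : n = 0 := by omega
      rw [this] at hlv
      omega
    obtain ⟨i, hi, j, hj, he⟩ := hex_cross (P := P) (Q := fun j => vx oo up (V1 ++ V2) (V1.length + j)) (n := n)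
      (m := V2.length) hP (fun j _ => HN_vx upd (Or.inl ⟨by decide, by decide⟩) (V1 ++ V2) (V1.length + j)) hn l2
      (fun j hj => by
        rw [(co2 b1 j).1]
        have := (lev_BU b2 hj).1
        omega)
      (fun j hj => by
        rw [(co2 b1 j).1]
        have := (lev_BU b2 hj).2
        omega)
      (fun i hi => by
        have h1 := (hb i hi).1.1
        show (vx oo up (V1 ++ V2) (V1.length + 0)).1 ≤ (P i).1
        rw [(co2 b1 0).2, lat_zero]
        omega)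
      (fun i hi => by
        have h1 := (hb i hi).1.2
        show (P i).1 < (vx oo up (V1 ++ V2) (V1.length + V2.length)).1
        rw [(co2 b1 V2.length).2]
        have : lat V2 V2.length = latE V2 := rfl
        rw [this]
        omega)
    obtain ⟨i', hi', he'⟩ := hPA i hi
    refine ⟨i', hi', V1.length + j, by omega, by rw [List.length_append]; omega, ?_⟩
    rw [← he', he]

/-- the past has a large lateral extent -/
lemma hitH {L A : List Bool} {Q : ℕ → Pt} {m r w : ℕ} {y : Pt} (hQ : ∀ k, k < m → HN (Q k) (Q (k + 1)))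
    (hQA : ∀ k, k ≤ m → ∃ i, i ≤ A.length ∧ Q k = fr L (vx oo up A i)) (hball : ∀ k, k ≤ m → Q k ∈ Bl y (20 * w + 1))
    (hlat : (Q 0).1 + 20 * w + 1 ≤ (Q m).1) (hy1 : 6 * (r : ℤ) ≤ lv y) (hy2 : lv y ≤ 24 * r) (hy3 : |y.1| ≤ 4 * r)
    (hw : 1 ≤ w) (h200 : 200 * w ≤ r) : HitC r w L A := by
  have hb : ∀ k, k ≤ m → (y.1 - (20 * w + 1) ≤ (Q k).1 ∧ (Q k).1 ≤ y.1 + (20 * w + 1)) ∧
      (lv y - 3 * (20 * w + 1) ≤ lv (Q k) ∧ lv (Q k) ≤ lv y + 3 * (20 * w + 1)) := by
    intro k hk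
    obtain ⟨⟨a1, a2⟩, a3, a4⟩ := mem_Bl.1 (hball k hk)
    unfold lv
    push_cast at a1 a2 a3 a4
    exact ⟨⟨a1, a2⟩, by linarith, by linarith⟩
  have hb0 := hb 0 (Nat.zero_le _)
  obtain ⟨t1, ht1⟩ : ∃ t1 : ℕ, (t1 : ℤ) = lv y / 3 - 40 * w := ⟨(lv y / 3 - 40 * w).toNat, by
    rw [Int.toNat_of_nonneg]
    omega⟩
  rw [abs_le] at hy3
  refine ⟨t1, 80 * w, (Q 0).1 + 10 * w, 0, by omega, by omega, ?_, by omega, le_rfl, ?_, by omega, ?_⟩
  · rw [abs_le]
    constructor <;> omega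
  · rw [abs_zero]
    positivity
  · intro V1 hV1 V2 hV2
    obtain ⟨b1, h11, h12, h13, h14⟩ := hV1
    obtain ⟨b2, h21, h22, h23, h24⟩ := hV2
    rw [abs_le] at h13 h23
    have l1 := len_pos b1 (by omega)
    have l2 := len_pos b2 (by omega)
    have hm : 1 ≤ m := by
      by_contra hc
      have : m = 0 := by omega
      rw [this] at hlat
      omega
    obtain ⟨i, hi, j, hj, he⟩ := hex_cross (P := fun j => vx oo up (V1 ++ V2) (V1.length + j)) (Q := Q)
      (n := V2.length) (m := m) (fun j _ => HN_vx upd (Or.inl ⟨by decide, by decide⟩) (V1 ++ V2) (V1.length + j)) hQ l2 hm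
      (fun j hj => by
        have h1 := (hb j hj).2.1
        show lv (vx oo up (V1 ++ V2) (V1.length + 0)) + 3 ≤ lv (Q j)
        rw [(co2 b1 0).1]
        have e0 : lev V2 0 = 0 := by
          show ip oo up = 0
          decide
        rw [e0]
        omega)
      (fun j hj => by
        have h1 := (hb j hj).2.2
        show lv (Q j) + 3 ≤ lv (vx oo up (V1 ++ V2) (V1.length + V2.length))
        rw [(co2 b1 V2.length).1, levE_BU b2]
        omega)
      (fun i hi => by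
        show (Q 0).1 ≤ (vx oo up (V1 ++ V2) (V1.length + i)).1
        rw [(co2 b1 i).2]
        have := (h24 i hi).1
        rw [min_self] at this
        omega)
      (fun i hi => by
        show (vx oo up (V1 ++ V2) (V1.length + i)).1 < (Q m).1
        rw [(co2 b1 i).2]
        have := (h24 i hi).2
        rw [max_self] at this
        omega)
    obtain ⟨j', hj', he'⟩ := hQA j hj
    refine ⟨j', hj', V1.length + i, by omega, by rw [List.length_append]; omega, ?_⟩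
    rw [← he', ← he]

/-- **the hit** -/
theorem hit_det {L A : List Bool} {i r w : ℕ} (hi : i ≤ A.length) (hy1 : 6 * (r : ℤ) ≤ lv (fr L (vx oo up A i)))
    (hy2 : lv (fr L (vx oo up A i)) ≤ 24 * r) (hy3 : |(fr L (vx oo up A i)).1| ≤ 4 * r)
    (htip : lv (fr L (vx oo up A A.length)) ≤ 0) (hw : 1 ≤ w) (h200 : 200 * w ≤ r) : HitC r w L A := by
  classical
  obtain ⟨g, hg⟩ : ∃ g : ℕ → Pt, g = fun k => fr L (vx oo up A (i + k)) := ⟨_, rfl⟩
  have hgs : ∀ k, HN (g k) (g (k + 1)) := by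
    intro k
    rw [hg]
    exact fr_HN L A (i + k)
  have g0 : g 0 = fr L (vx oo up A i) := by rw [hg]; rfl
  rw [← g0] at hy1 hy2 hy3
  have gM : lv (g (A.length - i)) ≤ 0 := by
    rw [hg]
    show lv (fr L (vx oo up A (i + (A.length - i)))) ≤ 0
    rw [show i + (A.length - i) = A.length by omega]
    exact htip
  have hout : g (A.length - i) ∉ Bl (g 0) (20 * w) := by
    intro hc
    obtain ⟨⟨a1, a2⟩, a3, a4⟩ := mem_Bl.1 hc
    unfold lv at gM hy1
    push_cast at a1 a2 a3 a4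
    omega
  have hex : ∃ k, g k ∉ Bl (g 0) (20 * w) := ⟨_, hout⟩
  obtain ⟨τ, hτ⟩ : ∃ τ, τ = Nat.find hex := ⟨_, rfl⟩
  have hτM : τ ≤ A.length - i := by
    rw [hτ]
    exact Nat.find_min' hex hout
  have hτs : g τ ∉ Bl (g 0) (20 * w) := by
    rw [hτ]
    exact Nat.find_spec hex
  have hτm : ∀ k, k < τ → g k ∈ Bl (g 0) (20 * w) := by
    intro k hk
    rw [hτ] at hk
    exact not_not.1 (Nat.find_min hex hk)
  have hτ0 : τ ≠ 0 := by
    intro h0
    rw [h0] at hτs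
    exact hτs ⟨by simp, by simp⟩
  have hball : ∀ k, k ≤ τ → g k ∈ Bl (g 0) (20 * w + 1) := by
    intro k hk
    rcases Nat.lt_or_ge k τ with h1 | h1
    · exact Bl_mono _ (by omega) (hτm k h1)
    · have e : k = (τ - 1) + 1 := by omega
      have h2 := HN_le (hgs (τ - 1))
      obtain ⟨⟨a1, a2⟩, a3, a4⟩ := mem_Bl.1 (hτm (τ - 1) (by omega))
      rw [← e, abs_le, abs_le] at h2
      rw [mem_Bl]
      push_cast at a1 a2 a3 a4 ⊢
      refine ⟨⟨?_, ?_⟩, ?_, ?_⟩ <;> omega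
  have hA : ∀ k, k ≤ τ → ∃ i', i' ≤ A.length ∧ g k = fr L (vx oo up A i') := by
    intro k hk
    exact ⟨i + k, by omega, by rw [hg]⟩
  have hA' : ∀ k, k ≤ τ → ∃ i', i' ≤ A.length ∧ g (τ - k) = fr L (vx oo up A i') := fun k _ => hA (τ - k) (by omega)
  have hrev : ∀ k, k < τ → HN (g (τ - k)) (g (τ - (k + 1))) := by
    intro k hk
    have := hgs (τ - (k + 1))
    rw [show τ - (k + 1) + 1 = τ - k by omega] at this
    exact this.symm
  have e0 : g (τ - τ) = g 0 := by rw [Nat.sub_self]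
  rcases le_or_gt (20 * (w : ℤ)) (lv (g τ) - lv (g 0)) with hc | hc
  · exact hitV (P := g) (n := τ) (y := g 0) (fun k _ => hgs k) hA hball (by linarith) hy1 hy2 hy3 hw h200
  rcases le_or_gt (20 * (w : ℤ)) (lv (g 0) - lv (g τ)) with hc2 | hc2
  · refine hitV (P := fun k => g (τ - k)) (n := τ) (y := g 0) hrev hA' (fun k _ => hball _ (by omega)) ?_ hy1 hy2 hy3 hw
      h200
    show lv (g (τ - 0)) + 20 * w ≤ lv (g (τ - τ))
    rw [e0, Nat.sub_zero]
    linarith
  have hlat : (g 0).1 + 20 * w + 1 ≤ (g τ).1 ∨ (g τ).1 + 20 * w + 1 ≤ (g 0).1 := by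
    by_contra hcon
    push Not at hcon
    apply hτs
    rw [mem_Bl]
    unfold lv at hc hc2
    push_cast
    refine ⟨⟨?_, ?_⟩, ?_, ?_⟩ <;> omega
  rcases hlat with h1 | h1
  · exact hitH (Q := g) (m := τ) (y := g 0) (fun k _ => hgs k) hA hball h1 hy1 hy2 hy3 hw h200
  · refine hitH (Q := fun k => g (τ - k)) (m := τ) (y := g 0) hrev hA' (fun k _ => hball _ (by omega)) ?_ hy1 hy2 hy3 hw
      h200
    show (g (τ - 0)).1 + 20 * w + 1 ≤ (g (τ - τ)).1
    rw [e0, Nat.sub_zero]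
    exact h1

end TIP

end HexObs
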