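import Pool.Agent.TIP.DefsN
import Pool.Agent.TIP.EsMass
import Pool.Agent.TIP.Box2
import Pool.Agent.TIP.HitB
import Pool.Agent.SIM.Rare

/-!
TIP, row Na (helper69): free bridges without a local bridge with many cuts in its middle part are rare.
-/

set_option autoImplicit false

namespace HexObs

namespace TIP

open Finset TS SDN SIM NTA

open scoped ENNReal

namespace Fz

/-- a local bridge with many cuts and one more bridge behind it -/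
def SZ (κ : ℝ) (C b : ℕ) : Set (List Bool) := {G | ∃ Z ∈ Zc κ C b, ∃ G' ∈ BU, G' ≠ [] ∧ G = Z ++ G'}

lemma cuts_le_nc (V : List Bool) : (cuts V).ncard ≤ nc V := by
  classical
  unfold nc
  obtain ⟨F, hF⟩ : ∃ F : Finset ℕ, F = (range (V.length + 1)).filter fun j => V.take j ∈ BU ∧ V.drop j ∈ BU :=
    ⟨_, rfl⟩
  have h2 : cuts V ⊆ ((F.image fun j => V.drop j : Finset (List Bool)) : Set (List Bool)) := by
    rintro Z2 ⟨h1, Z1, h2, h3⟩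
    rw [mem_coe, mem_image]
    refine ⟨Z1.length, ?_, ?_⟩
    · rw [hF, mem_filter, mem_range, h3, List.length_append, List.take_left, List.drop_left]
      exact ⟨by omega, h2, h1⟩
    · rw [h3, List.drop_left]
  have h3 := Set.ncard_le_ncard h2 (finite_toSet _)
  rw [Set.ncard_coe_finset] at h3
  refine h3.trans (card_image_le.trans (le_of_eq ?_))
  rw [hF]

lemma Um_in {m r : ℕ} {V : List Bool} (h : V ∈ Um m r) {i : ℕ} (hi : i ≤ V.length) : vx oo up V i ∈ Bl oo (2 * r) := by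
  obtain ⟨h1, h2, h3⟩ := h
  have h4 := h3 i hi
  have h5 := lev_BU (Ir_BU h1) hi
  rw [← lv_vx] at h5
  rw [← lat_vx, abs_le] at h4
  have hl : lv (vx oo up V i) = 2 * (vx oo up V i).2 + (vx oo up V i).1 := rfl
  have e1 : (oo : Pt).1 = 0 := rfl
  have e2 : (oo : Pt).2 = 0 := rfl
  rw [mem_Bl, e1, e2]
  have h6 : (hgt V : ℤ) ≤ r := by exact_mod_cast h2
  push_cast
  refine ⟨⟨?_, ?_⟩, ?_, ?_⟩ <;> omega

/-- the local bridges -/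
lemma mem_Zc {κ : ℝ} {m b : ℕ} {V1 U V3 : List Bool} (h1 : V1 ∈ Vb (2 ^ (b + 1)) 0 (2 ^ (b + 1)))
    (h2 : U ∈ Um m (2 ^ b)) (h3 : V3 ∈ Vb (2 ^ (b + 1)) 0 (2 ^ (b + 1))) (hm : κ * Ub b ≤ m) :
    V1 ++ (U ++ V3) ∈ Zc κ 18 b := by
  refine ⟨V1, U, V3, rfl, h1.1.1, Ir_BU h2.1, h3.1.1, h1.1.2.1, h3.1.2.1, h2.2.1, ?_, ?_⟩
  · have a1 := Ir_cuts h2.1
    have a2 := cuts_le_nc U
    have a3 : (m : ℝ) ≤ nc U := by
      have : m ≤ nc U := by omega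
      exact_mod_cast this
    exact hm.trans a3
  · intro i hi
    refine Bl_mono _ ?_ (Es.cat_in h1.1.1 (fun i hi => Es.Tb_in h1.1 hi)
      (fun i hi => Es.cat_in (Ir_BU h2.1) (fun i hi => Um_in h2 hi) (fun i hi => Es.Tb_in h3.1 hi) hi) hi)
    rw [pow_succ]
    omega

/-- a positive fraction of the bridges of every height -/
lemma SZ_mass : ∃ (κ c : ℝ) (b0 : ℕ), 0 < κ ∧ 0 < c ∧ ∀ b t : ℕ, b0 ≤ b → 10 * 2 ^ b ≤ t →
    ENNReal.ofReal (c * uu t) ≤ gf {G | G ∈ Brd t ∧ G ∈ SZ κ 18 b} := by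
  obtain ⟨c1, t1, hc1, hV⟩ := Vb_mass 0 1
  obtain ⟨c2, κ, r0, hc2, hκ, hU⟩ := Um_mass
  refine ⟨κ, c1 * (c2 * c1), t1 + r0, hκ, by positivity, fun b t hb ht => ?_⟩
  have hpb : b < 2 ^ b := Nat.lt_two_pow_self
  have hp1 : 2 ^ (b + 1) = 2 * 2 ^ b := by rw [pow_succ]; ring
  obtain ⟨m, hm⟩ : ∃ m : ℕ, m = ⌈κ * UU (2 ^ b)⌉₊ := ⟨_, rfl⟩
  have hUr := Num2Aux.UU_pos (2 ^ b)
  have hm1 : (m : ℝ) ≤ κ * UU (2 ^ b) + 1 := by
    rw [hm]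
    exact (Nat.ceil_lt_add_one (by positivity)).le
  have hm2 : κ * Ub b ≤ m := by
    rw [hm]
    exact Nat.le_ceil _
  have m1 := hV (2 ^ (b + 1)) (2 ^ (b + 1)) 0 (by omega) (by simp) (by omega) le_rfl
  have m2 := hU m (2 ^ b) (by omega) hm1
  obtain ⟨S1, hS1⟩ : ∃ S1, S1 = Vb (2 ^ (b + 1)) 0 (2 ^ (b + 1)) := ⟨_, rfl⟩
  obtain ⟨S2, hS2⟩ : ∃ S2, S2 = Um m (2 ^ b) := ⟨_, rfl⟩
  rw [← hS1] at m1
  rw [← hS2] at m2
  have hh : ∀ V1 ∈ S1, ∀ U ∈ S2, ∀ V3 ∈ S1, hgt V1 + (hgt U + hgt V3) + 1 ≤ t := by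
    intro V1 h1 U h2 V3 h3
    rw [hS1] at h1 h3
    rw [hS2] at h2
    have a1 := h1.1.2.2.1
    have a2 := h2.2.1
    have a3 := h3.1.2.2.1
    have : 1 ≤ 2 ^ b := Nat.one_le_two_pow
    omega
  have hB1 : ∀ V ∈ S1, V ∈ BU := fun V h => by
    rw [hS1] at h
    exact h.1.1
  have hB2 : ∀ V ∈ S2, V ∈ BU := fun V h => by
    rw [hS2] at h
    exact Ir_BU h.1
  have p1 : ∀ V ∈ S1, ∀ V' ∈ S1, ∀ X ∈ BU, ∀ X' ∈ BU, V ++ X = V' ++ X' → V = V' := by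
    intro V h V' h' X hX X' hX' he
    rw [hS1] at h h'
    exact Vb_pf h h' hX hX' he
  have p2 : ∀ V ∈ S2, ∀ V' ∈ S2, ∀ X ∈ BU, ∀ X' ∈ BU, V ++ X = V' ++ X' → V = V' := by
    intro V h V' h' X hX X' hX' he
    rw [hS2] at h h'
    exact Ir_pf h.1 h'.1 hX hX' he
  -- the last bridge
  have k3 : ∀ V1 ∈ S1, ∀ U ∈ S2, ENNReal.ofReal (c1 * uu t) ≤
      gf {W | ∃ V3 ∈ S1, ∃ G' ∈ Brd (t - (hgt V1 + (hgt U + hgt V3))), W = V3 ++ G'} := by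
    intro V1 h1 U h2
    rw [ENNReal.ofReal_mul hc1.le]
    refine (mul_le_mul_left m1 _).trans ?_
    refine gf_dep_ge (A := S1) (Q := fun V3 => Brd (t - (hgt V1 + (hgt U + hgt V3)))) ?_ ?_ ?_
    · intro V3 h3 G' hG'
      exact ⟨V3, h3, G', hG', rfl⟩
    · intro V3 h3 G' hG' V3' h3' G'' hG'' he
      exact p1 V3 h3 V3' h3' G' ⟨_, hG'⟩ G'' ⟨_, hG''⟩ he
    · intro V3 h3
      rw [gf_Brd, CuLogAux.bt_eq]
      exact ENNReal.ofReal_le_ofReal (uu_anti (Nat.sub_le _ _))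
  have k2 : ∀ V1 ∈ S1, ENNReal.ofReal (c2 * (c1 * uu t)) ≤
      gf {W | ∃ U ∈ S2, ∃ W' ∈ {W | ∃ V3 ∈ S1, ∃ G' ∈ Brd (t - (hgt V1 + (hgt U + hgt V3))), W = V3 ++ G'},
        W = U ++ W'} := by
    intro V1 h1
    rw [ENNReal.ofReal_mul hc2.le]
    refine (mul_le_mul_left m2 _).trans ?_
    refine gf_dep_ge (A := S2) (Q := fun U => {W | ∃ V3 ∈ S1, ∃ G' ∈ Brd (t - (hgt V1 + (hgt U + hgt V3))), W = V3 ++ G'})
      ?_ ?_ ?_
    · intro U h2 W' hW'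
      exact ⟨U, h2, W', hW', rfl⟩
    · rintro U h2 W ⟨V3, h3, G', hG', rfl⟩ U' h2' W' ⟨V3', h3', G'', hG'', rfl⟩ he
      exact p2 U h2 U' h2' _ (BU_app (hB1 _ h3) ⟨_, hG'⟩) _ (BU_app (hB1 _ h3') ⟨_, hG''⟩) he
    · intro U h2
      exact k3 V1 h1 U h2
  have k1 : ENNReal.ofReal (c1 * (c2 * (c1 * uu t))) ≤ gf {G | G ∈ Brd t ∧ G ∈ SZ κ 18 b} := by
    rw [ENNReal.ofReal_mul hc1.le]
    refine (mul_le_mul_left m1 _).trans ?_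
    refine gf_dep_ge (A := S1) (Q := fun V1 => {W | ∃ U ∈ S2, ∃ W' ∈ {W | ∃ V3 ∈ S1,
      ∃ G' ∈ Brd (t - (hgt V1 + (hgt U + hgt V3))), W = V3 ++ G'}, W = U ++ W'}) ?_ ?_ k2
    · rintro V1 h1 _ ⟨U, h2, _, ⟨V3, h3, G', hG', rfl⟩, rfl⟩
      have a1 := hh V1 h1 U h2 V3 h3
      refine ⟨?_, V1 ++ (U ++ V3), ?_, G', ⟨_, hG'⟩, ?_, ?_⟩
      · have e : t = hgt V1 + (hgt U + (hgt V3 + (t - (hgt V1 + (hgt U + hgt V3))))) := by omega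
        have := Brd_append (BU_hgt (hB1 _ h1)) (Brd_append (BU_hgt (hB2 _ h2)) (Brd_append (BU_hgt (hB1 _ h3)) hG'))
        rw [← e] at this
        exact this
      · rw [hS1] at h1 h3
        rw [hS2] at h2
        exact mem_Zc h1 h2 h3 hm2
      · rintro rfl
        have := Brd_height hG' nil_mem_Brd
        omega
      · simp only [List.append_assoc]
    · rintro V1 h1 _ ⟨U, h2, _, ⟨V3, h3, G', hG', rfl⟩, rfl⟩ V1' h1' _ ⟨U', h2', _, ⟨V3', h3', G'', hG'', rfl⟩, rfl⟩ he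
      exact p1 V1 h1 V1' h1' _ (BU_app (hB2 _ h2) (BU_app (hB1 _ h3) ⟨_, hG'⟩)) _
        (BU_app (hB2 _ h2') (BU_app (hB1 _ h3') ⟨_, hG''⟩)) he
  refine le_trans (ENNReal.ofReal_le_ofReal (le_of_eq ?_)) k1
  ring

end Fz

open Fz

/-- **Na**: free bridges without a local bridge with many cuts are rare -/
theorem freeZ : ∃ κ : ℝ, 0 < κ ∧ ∃ C : ℕ, FreeZ κ C := by
  obtain ⟨κ, c, b0, hκ, hc, hM⟩ := SZ_mass
  refine ⟨κ, hκ, 18, fun ε hε => ?_⟩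
  obtain ⟨C', hC', h⟩ := SIM.rare hc hε
  have hlt : 5 * C' < 2 ^ (5 * C') := Nat.lt_two_pow_self
  refine ⟨5 * C', b0, fun b h1 hb hh => le_trans (gf_mono ?_) (h (5 * 2 ^ b) (SZ κ 18 b) ?_ ?_ h1 ?_)⟩
  · rintro Z ⟨hZ, hN⟩
    refine ⟨hZ, ?_⟩
    rintro ⟨A, G, B, hA, ⟨Z', hZ', G', hG', hne, rfl⟩, hB, he⟩
    refine hN A Z' (G' ++ B) ?_ ?_ hZ'
    · rw [he]
      simp only [List.append_assoc]
    · intro h0
      exact hne (List.append_eq_nil_iff.1 h0).1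
  · have : 1 ≤ 2 ^ b := Nat.one_le_two_pow
    omega
  · intro t ht _
    exact hM b t hb (by omega)
  · calc C' * (5 * 2 ^ b) = 2 ^ b * (5 * C') := by ring
      _ ≤ 2 ^ b * 2 ^ (5 * C') := Nat.mul_le_mul_left _ hlt.le
      _ = 2 ^ (b + 5 * C') := by rw [pow_add]
      _ ≤ h1 := hh

end TIP

end HexObs
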