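import Pool.Agent.TIP.RegZ
import Pool.Agent.TIP.FreeZ
import Pool.Agent.SIM.GeoIrg

/-!
TIP, row Nb, geometry: from a long factor without a factor in Zc to a run of such leaves or a tall leaf (helper15; the proof
of SIM.geoIrg with another class). `geoZ : GeoZ κ C`, `regZ : FreeZ κ C → RegZ κ C`, `regZ_all`.
-/

set_option autoImplicit false

namespace HexObs

namespace TIP

open Finset TS SDN NTW NTA SIM SIM.GI

open scoped ENNReal

/-- the leaves inside a factor in Nz -/
lemma lw_Nz {κ : ℝ} {C b : ℕ} {t X Q Y : List Bool} (h : t = X ++ (Q ++ Y)) (hQ : Q ∈ Nz κ C b) {a b' : ℕ}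
    (ha : X.length ≤ a) (hb : b' ≤ X.length + Q.length) (hab : a + 1 < b') : lw t a b' ∈ Nz κ C b := by
  intro X1 Z1 Y1 he hY hz
  obtain ⟨p, hp⟩ : ∃ p, p = a + 1 - X.length := ⟨_, rfl⟩
  obtain ⟨q, hq⟩ : ∃ q, q = b' - a - 2 := ⟨_, rfl⟩
  have e1 : t.drop (a + 1) = Q.drop p ++ Y := by
    rw [h, List.drop_append, List.drop_eq_nil_of_le (by omega), List.nil_append, ← hp, List.drop_append_of_le_length (by omega)]
  have e2 : (t.drop (a + 1)).take q = (Q.drop p).take q := by
    rw [e1, List.take_append_of_le_length]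
    rw [List.length_drop]
    omega
  unfold lw at he
  rw [← hq, e2] at he
  obtain ⟨Y2, l, hY2⟩ : ∃ Y2 l, Y1 = Y2 ++ [l] := ⟨Y1.dropLast, Y1.getLast hY, (List.dropLast_append_getLast hY).symm⟩
  rw [hY2, ← List.append_assoc, ← List.append_assoc] at he
  have e3 := (List.append_inj' he rfl).1
  have e4 : Q = (Q.take p ++ X1) ++ (Z1 ++ (Y2 ++ (Q.drop p).drop q)) := by
    have e5 : Q = Q.take p ++ ((Q.drop p).take q ++ (Q.drop p).drop q) := by
      rw [List.take_append_drop, List.take_append_drop]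
    nth_rw 1 [e5]
    rw [e3]
    simp only [List.append_assoc]
  refine hQ (Q.take p ++ X1) Z1 (Y2 ++ (Q.drop p).drop q) e4 ?_ hz
  intro h0
  have h1 := (List.append_eq_nil_iff.1 h0).2
  have h2 := congrArg List.length h1
  rw [List.length_drop, List.length_drop, List.length_nil] at h2
  omega

/-- the displacement of a factor of large extent in one of the two directions -/
lemma disp {t X Q Y : List Bool} (h : t = X ++ (Q ++ Y)) {M b : ℕ} (hI : ¬ In (4 * M * 2 ^ b) Q) :
    ∃ (dir : Bool) (y : ℕ), X.length ≤ y ∧ y ≤ X.length + Q.length ∧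
      3 * ((M : ℤ) * 2 ^ b) ≤ |SIM.lp dir t y - SIM.lp dir t X.length| := by
  unfold In at hI
  push Not at hI
  obtain ⟨i, hi, hI⟩ := hI
  obtain ⟨v, hv⟩ : ∃ v, v = mulE (rotTo up (dx up X X.length)) (vx oo up Q i) := ⟨_, rfl⟩
  obtain ⟨D, hD⟩ : ∃ D : ℤ, D = (M : ℤ) * 2 ^ b := ⟨_, rfl⟩
  have hD0 : 0 ≤ D := by
    rw [hD]
    positivity
  have e1 : vx oo up t (X.length + i) = vx oo up t X.length + v := by
    rw [h, vx_general, hv]
    have e2 : vx oo up (Q ++ Y) i = vx oo up Q i := vx_append (by omega)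
    have e3 : vx oo up (X ++ (Q ++ Y)) X.length = vx oo up X X.length := vx_append (by omega)
    rw [e2, e3]
  have hn : nrm v = nrm (vx oo up Q i) := by
    rw [hv]
    have h1 : nrm (rotTo up (dx up X X.length)) = 1 := nrm_rotTo (by decide) (dx_mem (by decide) X X.length)
    have h2 : nrm (mulE (rotTo up (dx up X X.length)) (vx oo up Q i)) =
        nrm (rotTo up (dx up X X.length)) * nrm (vx oo up Q i) := by
      unfold nrm mulE
      ring
    rw [h2, h1, one_mul]
  have hbig : 12 * D ^ 2 ≤ nrm v := by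
    rw [hn]
    revert hI
    generalize vx oo up Q i = w
    intro hI
    obtain ⟨p1, p2⟩ := w
    have h3 : ¬ (|p1| ≤ 4 * D ∧ |p2| ≤ 4 * D) := by
      intro h4
      apply hI
      unfold Bl
      rw [Set.mem_ofPred_eq]
      have e0 : ((4 * M * 2 ^ b : ℕ) : ℤ) = 4 * D := by
        rw [hD]
        push_cast
        ring
      rw [e0]
      simpa [oo] using h4
    have h5 : (4 * D) ^ 2 ≤ p1 ^ 2 ∨ (4 * D) ^ 2 ≤ p2 ^ 2 := by
      rw [not_and_or, not_le, not_le] at h3
      rcases h3 with h3 | h3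
      · left
        rw [← sq_abs p1]
        exact pow_le_pow_left₀ (by linarith) h3.le 2
      · right
        rw [← sq_abs p2]
        exact pow_le_pow_left₀ (by linarith) h3.le 2
    unfold nrm
    simp only
    rcases h5 with h5 | h5
    · nlinarith [sq_nonneg (p1 + 2 * p2)]
    · nlinarith [sq_nonneg (2 * p1 + p2)]
  have hlv : ∀ dir, SIM.lp dir t (X.length + i) - SIM.lp dir t X.length = lvl dir v := by
    intro dir
    unfold SIM.lp
    rw [e1, SDN.lvl_add]
    ring
  have hone : 3 * D ≤ |lvl false v| ∨ 3 * D ≤ |lvl true v| := by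
    by_contra hc
    rw [not_or, not_le, not_le] at hc
    obtain ⟨c1, c2⟩ := hc
    have e2 : 3 * nrm v = (lvl false v) ^ 2 + lvl false v * lvl true v + (lvl true v) ^ 2 := by
      unfold lvl hd nrm ip up
      simp
      ring
    have c3 : (lvl false v) ^ 2 < (3 * D) ^ 2 := by
      rw [← sq_abs]
      exact pow_lt_pow_left₀ c1 (abs_nonneg _) (by norm_num)
    have c4 : (lvl true v) ^ 2 < (3 * D) ^ 2 := by
      rw [← sq_abs]
      exact pow_lt_pow_left₀ c2 (abs_nonneg _) (by norm_num)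
    nlinarith [sq_nonneg (lvl false v - lvl true v)]
  rcases hone with h1 | h1
  · exact ⟨false, X.length + i, by omega, by omega, by rw [hlv, ← hD]; exact h1⟩
  · exact ⟨true, X.length + i, by omega, by omega, by rw [hlv, ← hD]; exact h1⟩

/-- **from a long factor in Nz to a run of leaves in Nz or a tall leaf** -/
theorem geoZ (κ : ℝ) (C : ℕ) : GeoZ κ C := by
  intro s c
  refine ⟨4 * 2 ^ (c + s + 10), by have := Nat.one_le_two_pow (n := c + s + 10); omega, fun k K V t hck _ htW hirg => ?_⟩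
  obtain ⟨X, Q, Y, htX, hQN, hQI⟩ := hirg
  rw [mul_assoc 4 (2 ^ (c + s + 10)) (V + 1)] at hQI
  obtain ⟨dir, y, hxy, hyQ, hdis⟩ := disp htX hQI
  obtain ⟨x, hx⟩ : ∃ x, x = X.length := ⟨_, rfl⟩
  rw [← hx] at hxy hyQ hdis
  have hy : y ≤ t.length := by
    rw [htX]
    simp only [List.length_append]
    omega
  have ht := htW.1
  obtain ⟨m, u, e, hF⟩ := lf_exists dir (k + 5) t
  by_cases htall : ∃ j, j < m ∧ 3 * ((V : ℤ) * 2 ^ (k + s)) ≤ |SIM.lp dir t (e (j + 1)) - SIM.lp dir t (e j)|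
  · exact Or.inr ⟨dir, m, u, e, hF, htall⟩
  push Not at htall
  obtain ⟨T, hT⟩ : ∃ T : ℤ, T = 3 * ((V + 1 : ℤ) * 2 ^ (k + s + 5)) := ⟨_, rfl⟩
  have hV0 : (0 : ℤ) ≤ V := Int.natCast_nonneg V
  have hp1 : (1 : ℤ) ≤ 2 ^ (k + s) := one_le_pow₀ (by norm_num)
  have hp5 : (2 : ℤ) ^ (k + s + 5) = 32 * 2 ^ (k + s) := by rw [pow_add]; ring
  have hT0 : 0 ≤ T := by rw [hT]; positivity
  have hTR : RR (k + 5) ≤ T := by
    have h1 : (2 : ℤ) ^ (k + 5) ≤ 2 ^ (k + s + 5) := pow_le_pow_right₀ (by norm_num) (by omega)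
    have h2 : (0 : ℤ) < 2 ^ (k + s + 5) := by positivity
    unfold RR
    rw [hT]
    nlinarith
  have hTj : ∀ j, j < m → |SIM.lp dir t (e (j + 1)) - SIM.lp dir t (e j)| ≤ T := by
    intro j hj
    refine (htall j hj).le.trans ?_
    rw [hT, hp5]
    nlinarith
  obtain ⟨a, ha⟩ : ∃ a, a = T2.cpt t.length m e := ⟨_, rfl⟩
  have a0 : a 0 = 0 := by rw [ha]; exact T2.cpt_zero _ _ _
  have aM : a (m + 2) = t.length := by rw [ha]; exact T2.cpt_end _ _ _
  have am : ∀ p, p < m + 2 → a p ≤ a (p + 1) := by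
    intro p hp
    rw [ha]
    exact cpt_mono hF hp
  have ai : ∀ i, i ≤ m → a (i + 1) = e i := by
    intro i hi
    rw [ha]
    exact T2.cpt_mid _ _ _ hi
  have amm : ∀ i j, i ≤ j → j ≤ m + 2 → a i ≤ a j := by
    intro i j hij
    induction j, hij using Nat.le_induction with
    | base => intro _; exact le_rfl
    | succ j hj ih => intro hjM; exact (ih (by omega)).trans (am j (by omega))
  have hpc : ∀ p, p < m + 2 → ∀ i j, a p ≤ i → i ≤ a (p + 1) → a p ≤ j → j ≤ a (p + 1) →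
      |SIM.lp dir t i - SIM.lp dir t j| ≤ T := by
    intro p hp i j hi hi' hj hj'
    rw [ha] at hi hi' hj hj'
    exact lf_osc hF hTj hTR hp hi hi' hj hj'
  -- the displacement
  have hbig : 96 * ((V + 1 : ℤ) * 2 ^ (k + s + 5)) ≤ |SIM.lp dir t y - SIM.lp dir t x| := by
    refine le_trans (le_of_eq ?_) hdis
    have e1 : (2 : ℤ) ^ (c + s + 10) * 2 ^ (k - c) = 32 * 2 ^ (k + s + 5) := by
      rw [← pow_add, show c + s + 10 + (k - c) = k + s + 5 + 5 by omega, pow_add _ (k + s + 5)]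
      ring
    push_cast
    calc 96 * ((V + 1 : ℤ) * 2 ^ (k + s + 5)) = 3 * ((V + 1) * (32 * 2 ^ (k + s + 5))) := by ring
      _ = 3 * ((V + 1) * (2 ^ (c + s + 10) * 2 ^ (k - c))) := by rw [e1]
      _ = _ := by ring
  have hxy' : x < y := by
    rcases Nat.eq_or_lt_of_le hxy with h1 | h1
    · rw [h1, sub_self, abs_zero] at hbig
      have : (0 : ℤ) < (V + 1 : ℤ) * 2 ^ (k + s + 5) := by positivity
      omega
    · exact h1
  obtain ⟨p0, d, hpd, hx1, hx2, hy1, hy2⟩ := cut_restrict a0 aM am hxy' hy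
  obtain ⟨la, hla⟩ : ∃ la, la = max p0 2 := ⟨_, rfl⟩
  obtain ⟨lb, hlb⟩ : ∃ lb, lb = min (p0 + d - 1) (m - 1) := ⟨_, rfl⟩
  obtain ⟨d', hd'⟩ : ∃ d', d' = lb - la := ⟨_, rfl⟩
  rcases Nat.eq_zero_or_pos d' with h0 | h0
  · -- no run
    exfalso
    have h1 := few_osc hT0 hpc (z := x) (d + 1) p0 y (by omega) hx1 hxy (by rw [← add_assoc]; exact hy2)
    have h2 : ((d + 1 : ℕ) : ℤ) ≤ 6 := by
      have : d + 1 ≤ 6 := by omega
      exact_mod_cast this
    have h3 : ((d + 1 : ℕ) : ℤ) * T ≤ 6 * T := mul_le_mul_of_nonneg_right h2 hT0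
    have h4 : (0 : ℤ) < (V + 1 : ℤ) * 2 ^ (k + s + 5) := by positivity
    rw [hT] at h3
    rw [hT] at h1
    linarith
  · -- a run
    have e1 : la + d' ≤ m - 1 := by omega
    have hlbe : lb = la + d' := by omega
    have z1 : a (la + 1) = e la := ai la (by omega)
    have z2 : a (lb + 1) = e lb := ai lb (by omega)
    have hz1 : x ≤ a (la + 1) := hx2.le.trans (amm _ _ (by omega) (by omega))
    have hz2 : a (lb + 1) ≤ y := (amm _ (p0 + d) (by omega) (by omega)).trans hy1.le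
    have hz12 : a (la + 1) ≤ a (lb + 1) := amm _ _ (by omega) (by omega)
    have h1 := few_osc hT0 hpc (z := x) (la + 1 - p0) p0 (a (la + 1)) (by omega) hx1 hz1
      (by rw [show p0 + (la + 1 - p0) = la + 1 by omega])
    have h2 := few_osc hT0 hpc (z := a (lb + 1)) (p0 + d - lb) (lb + 1) y (by omega) le_rfl hz2
      (by rw [show lb + 1 + (p0 + d - lb) = p0 + d + 1 by omega]; exact hy2)
    have h3 := sum_osc (F := SIM.lp dir t) (e := e) (D := fun i => 3 * (hgt (lw t (e (la + i)) (e (la + i + 1))) : ℤ) + 1) la d'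
      (fun i hi => by
        obtain ⟨n, n1, -, -, n4⟩ := NC.int_leafD ht (by omega : 1 ≤ k + 5) hF (j := la + i) (by omega) (by omega)
        show _ ≤ 3 * (hgt (lw t (e (la + i)) (e (la + i + 1))) : ℤ) + 1
        rw [hgt_eq n1]
        exact n4.le)
    rw [← hlbe] at h3
    have c1 : ((la + 1 - p0 : ℕ) : ℤ) ≤ 3 := by
      have : la + 1 - p0 ≤ 3 := by omega
      exact_mod_cast this
    have c2 : ((p0 + d - lb : ℕ) : ℤ) ≤ 3 := by
      have : p0 + d - lb ≤ 3 := by omega
      exact_mod_cast this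
    have c3 : ((la + 1 - p0 : ℕ) : ℤ) * T ≤ 3 * T := mul_le_mul_of_nonneg_right c1 hT0
    have c4 : ((p0 + d - lb : ℕ) : ℤ) * T ≤ 3 * T := mul_le_mul_of_nonneg_right c2 hT0
    rw [z1] at h1
    rw [z2] at h2
    have h4 : |SIM.lp dir t y - SIM.lp dir t x| ≤ |SIM.lp dir t y - SIM.lp dir t (e lb)| + |SIM.lp dir t (e lb) - SIM.lp dir t (e la)| +
        |SIM.lp dir t (e la) - SIM.lp dir t x| := by
      have b1 := abs_sub_le (SIM.lp dir t y) (SIM.lp dir t (e lb)) (SIM.lp dir t x)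
      have b2 := abs_sub_le (SIM.lp dir t (e lb)) (SIM.lp dir t (e la)) (SIM.lp dir t x)
      linarith
    -- the sum of the heights
    have hbr : ∀ g ∈ lws t e la d', ∃ n : ℕ, g ∈ Brd n ∧ 2 ^ (k + 4) ≤ n ∧ g ∈ CL (k + 5) := by
      intro g hg
      obtain ⟨i, hi, rfl⟩ := NC.lws_mem hg
      obtain ⟨n, n1, n2, n3, -⟩ := NC.int_leafD ht (by omega : 1 ≤ k + 5) hF (j := la + i) (by omega) (by omega)
      refine ⟨n, n1, ?_, n3⟩
      have h5 : 2 ^ (k + 5) = 2 * 2 ^ (k + 4) := by rw [← pow_succ']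
      have h6 := Nat.one_le_two_pow (n := k + 4)
      omega
    have hsum : (∑ i ∈ range d', (3 * (hgt (lw t (e (la + i)) (e (la + i + 1))) : ℤ) + 1)) ≤
        4 * (((lws t e la d').map hgt).sum : ℤ) := by
      rw [sum_lws hgt t e la d']
      push_cast
      rw [Finset.mul_sum]
      refine Finset.sum_le_sum fun i hi => ?_
      obtain ⟨n, n1, n2, n3, -⟩ := NC.int_leafD ht (by omega : 1 ≤ k + 5) hF (j := la + i)
        (by omega) (by rw [Finset.mem_range] at hi; omega)
      rw [hgt_eq n1]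
      have h5 : 2 ≤ 2 ^ (k + 5) := by
        calc 2 = 2 ^ 1 := rfl
          _ ≤ 2 ^ (k + 5) := Nat.pow_le_pow_right (by norm_num) (by omega)
      have h6 : (1 : ℤ) ≤ n := by
        have : 1 ≤ n := by omega
        exact_mod_cast this
      linarith
    have hVsum : V ≤ ((lws t e la d').map fun g => hgt g / 2 ^ (k + s) + 1).sum := by
      by_contra hcon
      rw [not_le] at hcon
      have h5 : ((lws t e la d').map hgt).sum ≤
          2 ^ (k + s) * ((lws t e la d').map fun g => hgt g / 2 ^ (k + s) + 1).sum := by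
        generalize lws t e la d' = gs
        induction gs with
        | nil => simp
        | cons g gs ih =>
          rw [List.map_cons, List.sum_cons, List.map_cons, List.sum_cons, mul_add]
          refine Nat.add_le_add ?_ ih
          exact (Nat.lt_mul_div_succ (hgt g) (by positivity)).le
      have h6 : 2 ^ (k + s) * ((lws t e la d').map fun g => hgt g / 2 ^ (k + s) + 1).sum ≤ 2 ^ (k + s) * V :=
        Nat.mul_le_mul_left _ hcon.le
      have h7 : (((lws t e la d').map hgt).sum : ℤ) ≤ 2 ^ (k + s) * V := by exact_mod_cast h5.trans h6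
      obtain ⟨P, hP⟩ : ∃ P : ℤ, P = (V + 1 : ℤ) * 2 ^ (k + s) := ⟨_, rfl⟩
      have h8 : 0 < P := by
        rw [hP]
        positivity
      have h9 : (2 : ℤ) ^ (k + s) * V ≤ P := by
        rw [hP, add_mul, one_mul, mul_comm]
        linarith
      have h10 : (V + 1 : ℤ) * 2 ^ (k + s + 5) = 32 * P := by
        rw [hP, hp5]
        ring
      rw [h10] at hbig hT
      linarith
    have hrun : ∀ S : Set (List Bool), (∀ g ∈ lws t e la d', g ∈ S) → t ∈ ERL dir k K (RunB k s S V) := by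
      intro S hS
      refine ⟨htW, m, u, e, hF, la, d', by omega, h0, by omega, ?_, fun g hg => ?_, hVsum⟩
      · intro h5
        have h6 := congrArg List.length h5
        rw [PE.lws_length, List.length_nil] at h6
        omega
      · obtain ⟨n, n1, n2, n3⟩ := hbr g hg
        exact ⟨hS g hg, n3, n, n2, n1⟩
    left
    refine ⟨dir, hrun _ fun g hg => ?_⟩
    obtain ⟨i, hi, rfl⟩ := NC.lws_mem hg
    obtain ⟨-, -, -, hlt, -⟩ := leaf_coord ht (by omega : 1 ≤ k + 5) hF (j := la + i) (by omega) (by omega)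
    refine lw_Nz htX hQN ?_ ?_ hlt
    · rw [z1] at hz1
      rw [← hx]
      exact hz1.trans (lf_mono hF (by omega) (by omega))
    · rw [z2] at hz2
      rw [← hx]
      exact ((lf_mono hF (by omega) (by omega)).trans hz2).trans hyQ

/-- **row Nb** -/
theorem regZ {κ : ℝ} {C : ℕ} (hF : FreeZ κ C) : RegZ κ C := regZ_of (geoZ κ C) hF

theorem regZ_all : ∃ κ : ℝ, 0 < κ ∧ ∃ C : ℕ, FreeZ κ C ∧ RegZ κ C := by
  obtain ⟨κ, hκ, C, h⟩ := freeZ
  exact ⟨κ, hκ, C, h, regZ h⟩

end TIP

end HexObs
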