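import Pool.Agent.TIP.NfB

/-!
TIP, row Nf (helper84): **row N** `NEndA` from the rows Nd (YBad), Ng (ExN), UA, YMass, LzLog.
-/

set_option autoImplicit false

namespace HexObs

namespace TIP

open Finset TS SDN SIM NTA NTW

open scoped ENNReal

namespace Nf

/-! ### probabilities -/

lemma sawN_fin (n : ℕ) (C : Set (List Bool)) : {t | t ∈ SawN n ∧ t ∈ C}.Finite :=
  (List.finite_length_eq Bool n).subset fun _ h => h.1.1

lemma Pn_mono {n : ℕ} {A B : Set (List Bool)} (h : ∀ t ∈ SawN n, t ∈ A → t ∈ B) : TOG.Pn n A ≤ TOG.Pn n B := by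
  unfold TOG.Pn
  refine div_le_div_of_nonneg_right ?_ (Nat.cast_nonneg _)
  have h1 : {t | t ∈ SawN n ∧ t ∈ A} ⊆ {t | t ∈ SawN n ∧ t ∈ B} := fun t ht => ⟨ht.1, h t ht.1 ht.2⟩
  exact_mod_cast Set.ncard_le_ncard h1 (sawN_fin n B)

lemma Pn_union (n : ℕ) (A B : Set (List Bool)) : TOG.Pn n (A ∪ B) ≤ TOG.Pn n A + TOG.Pn n B := by
  unfold TOG.Pn
  rw [← add_div]
  refine div_le_div_of_nonneg_right ?_ (Nat.cast_nonneg _)
  have e : {t | t ∈ SawN n ∧ t ∈ A ∪ B} = {t | t ∈ SawN n ∧ t ∈ A} ∪ {t | t ∈ SawN n ∧ t ∈ B} := by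
    ext t
    simp only [Set.mem_ofPred_eq, Set.mem_union]
    tauto
  rw [e]
  exact_mod_cast Set.ncard_union_le _ _

lemma Pn_nonneg (n : ℕ) (A : Set (List Bool)) : 0 ≤ TOG.Pn n A := by
  unfold TOG.Pn
  positivity

lemma Pn_biU (n : ℕ) (s : Finset ℕ) (A : ℕ → Set (List Bool)) :
    TOG.Pn n {t | ∃ J ∈ s, t ∈ A J} ≤ ∑ J ∈ s, TOG.Pn n (A J) := by
  classical
  induction s using Finset.induction_on with
  | empty =>
    rw [sum_empty]
    refine le_of_eq ?_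
    unfold TOG.Pn
    have e : {t | t ∈ SawN n ∧ t ∈ {t | ∃ J ∈ (∅ : Finset ℕ), t ∈ A J}} = ∅ := by
      ext t
      simp
    rw [e, Set.ncard_empty, Nat.cast_zero, zero_div]
  | insert a s ha ih =>
    rw [sum_insert ha]
    refine le_trans (le_trans (Pn_mono (B := A a ∪ {t | ∃ J ∈ s, t ∈ A J}) fun t _ ht => ?_) (Pn_union n _ _))
      (add_le_add le_rfl ih)
    obtain ⟨J, hJ, hJt⟩ := ht
    rcases mem_insert.1 hJ with rfl | h
    · exact Or.inl hJt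
    · exact Or.inr ⟨J, h, hJt⟩

/-- cancellation of the mass of the tips -/
lemma cancel {b : ℕ} {P q C y : ℝ} (hq : 0 < q) (hC : 0 ≤ C) (hy : 0 ≤ y)
    (h : ENNReal.ofReal P * (ENNReal.ofReal q * Xb b) ≤ ENNReal.ofReal C * (ENNReal.ofReal y * Xb b)) : P ≤ C * y / q := by
  rw [← mul_assoc, ← mul_assoc, ← ENNReal.ofReal_mul' hq.le, ← ENNReal.ofReal_mul hC] at h
  have h1 : ENNReal.ofReal (P * q) ≤ ENNReal.ofReal (C * y) :=
    (ENNReal.mul_le_mul_iff_left (Xb_ne_zero b) (Xb_ne_top b)).1 h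
  rw [ENNReal.ofReal_le_ofReal_iff (by positivity)] at h1
  rw [le_div_iff₀ hq]
  exact h1

lemma sum_two (m : ℕ) (s : Finset ℕ) (hs : ∀ J ∈ s, m ≤ J) : ∑ J ∈ s, (1 / 2 : ℝ) ^ (J + 1) ≤ (1 / 2) ^ m := by
  have h1 : ∀ N : ℕ, ∑ J ∈ range N, (1 / 2 : ℝ) ^ (m + J + 1) = (1 / 2) ^ m * (1 - (1 / 2) ^ N) := by
    intro N
    induction N with
    | zero => simp
    | succ N ih =>
      rw [sum_range_succ, ih, pow_succ (1 / 2 : ℝ) (m + N), pow_add, pow_succ]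
      ring
  obtain ⟨N, hN⟩ : ∃ N, ∀ J ∈ s, J < m + N := by
    refine ⟨s.sup id + 1, fun J hJ => ?_⟩
    have := le_sup (f := id) hJ
    simp only [id] at this
    omega
  have h2 : s ⊆ (range N).image fun J => m + J := by
    intro J hJ
    have := hs J hJ
    have := hN J hJ
    exact mem_image.2 ⟨J - m, mem_range.2 (by omega), by omega⟩
  calc ∑ J ∈ s, (1 / 2 : ℝ) ^ (J + 1) ≤ ∑ J ∈ (range N).image (fun J => m + J), (1 / 2 : ℝ) ^ (J + 1) :=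
        sum_le_sum_of_subset_of_nonneg h2 fun _ _ _ => by positivity
    _ = ∑ J ∈ range N, (1 / 2 : ℝ) ^ (m + J + 1) := sum_image fun x _ y _ h => by
        have h' : m + x = m + y := h
        omega
    _ = (1 / 2) ^ m * (1 - (1 / 2) ^ N) := h1 N
    _ ≤ (1 / 2) ^ m := by
        have : (0 : ℝ) < (1 / 2) ^ m := by positivity
        have : (0 : ℝ) < (1 / 2) ^ N := by positivity
        nlinarith

/-- two numbers -/
lemma ex_pow {K e : ℝ} (he : 0 < e) : ∃ m0 : ℕ, ∀ m, m0 ≤ m → K * (1 / 2) ^ m ≤ e := by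
  have h1 : Filter.Tendsto (fun m : ℕ => K * (1 / 2 : ℝ) ^ m) Filter.atTop (nhds (K * 0)) :=
    (tendsto_pow_atTop_nhds_zero_of_lt_one (by norm_num) (by norm_num)).const_mul K
  rw [mul_zero] at h1
  obtain ⟨m0, hm0⟩ := Filter.eventually_atTop.1 (h1.eventually (ge_mem_nhds he))
  exact ⟨m0, hm0⟩

lemma ex_Ub {K e : ℝ} (hK : 0 ≤ K) (he : 0 < e) : ∃ j : ℕ, ∀ b, j ≤ b → K * (Ub (b - j) / Ub b) ≤ e := by
  have hk := kap0_pos
  have h1 : Filter.Tendsto (fun j : ℕ => K * (2 * ((2 : ℝ) ^ (-kap0)) ^ j)) Filter.atTop (nhds (K * (2 * 0))) := by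
    refine Filter.Tendsto.const_mul K (Filter.Tendsto.const_mul 2 ?_)
    refine tendsto_pow_atTop_nhds_zero_of_lt_one (by positivity) ?_
    exact Real.rpow_lt_one_of_one_lt_of_neg (by norm_num) (by linarith)
  rw [mul_zero, mul_zero] at h1
  obtain ⟨j, hj⟩ := Filter.eventually_atTop.1 (h1.eventually (ge_mem_nhds he))
  refine ⟨j, fun b hb => le_trans (mul_le_mul_of_nonneg_left ?_ hK) (hj j le_rfl)⟩
  have h2 := Ub_growth (show b - j ≤ b by omega)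
  have h3 : ((b : ℝ) - ((b - j : ℕ) : ℝ)) = j := by
    rw [Nat.cast_sub hb]
    ring
  rw [h3] at h2
  have h4 : ((2 : ℝ) ^ (-kap0)) ^ j = (2 : ℝ) ^ (-(kap0 * j)) := by
    rw [← Real.rpow_natCast, ← Real.rpow_mul (by norm_num)]
    congr 1
    ring
  rw [h4, div_le_iff₀ (Ub_pos b)]
  have h5 : (2 : ℝ) ^ (kap0 * (j : ℝ)) * (2 : ℝ) ^ (-(kap0 * (j : ℝ))) = 1 := by
    rw [← Real.rpow_add (by norm_num)]
    simp
  have h6 : (0 : ℝ) < (2 : ℝ) ^ (-(kap0 * (j : ℝ))) := by positivity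
  calc Ub (b - j) = Ub (b - j) * (2 : ℝ) ^ (kap0 * (j : ℝ)) * (2 : ℝ) ^ (-(kap0 * (j : ℝ))) := by
        rw [mul_assoc, h5, mul_one]
    _ ≤ 2 * Ub b * (2 : ℝ) ^ (-(kap0 * (j : ℝ))) := mul_le_mul_of_nonneg_right h2 h6.le
    _ = 2 * (2 : ℝ) ^ (-(kap0 * (j : ℝ))) * Ub b := by ring

end Nf

open Nf

/-- LzLog (helper47) -/
def LzLog (κ : ℝ) (C : ℕ) : Prop := ∃ a b0 : ℕ, ∀ b, b0 ≤ b → ∀ e : ℝ, 0 < e → ∃ n0 : ℕ, ∀ n, n0 ≤ n → ∀ m : ℕ,
  a * Real.log n ≤ m → TOG.Pn n (Lz κ C b m) ≤ e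

/-- big_n (helper22) -/
def BigN : Prop := ∀ b a : ℕ, ∃ n0 : ℕ, ∀ n, n0 ≤ n → ∃ m : ℕ, a * Real.log n ≤ m ∧ ((64 * m * 2 ^ b : ℕ) : ℝ) ^ 10 ≤ n ∧
  ∀ t ∈ SawN n, ¬ In (m * 2 ^ b) t

/-- YMass in the form of the tips (helper75) -/
def YMassG : Prop := ∀ (η : ℝ) (m : ℕ), 0 < η → ∃ C : ℝ, 0 < C ∧ ∀ b : ℕ,
  gf {Y | Y ∈ SA ∧ rev Y ∈ GT b η ∧ In (2 ^ (b + m)) Y} ≤ ENNReal.ofReal (C * Ub b) * Xb b

open Classical in
/-- **row N** -/
theorem nEndA_of {κ : ℝ} {C : ℕ} (hκ : 0 < κ) (hW : NeW) (hLz : LzLog κ C) (hBig : BigN) (hY : YBad κ C) (hE : ExN)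
    (hUA : UAh Far6) (hYM : YMassG) : NEndA := by
  intro ε hε
  obtain ⟨η, hηd⟩ : ∃ η : ℝ, η = κ / 8 := ⟨_, rfl⟩
  have hη : 0 < η := by rw [hηd]; positivity
  obtain ⟨J1, b1, hY⟩ := hY η 1 2 hη
  obtain ⟨C1, hC1, hE⟩ := hE η (ε / 4) hη (by positivity)
  obtain ⟨CU, κ0, r0, hCU, hκ0, hUA⟩ := hUA
  obtain ⟨a, bL, hLz⟩ := hLz
  -- the choice of m
  obtain ⟨m, hm1, hm2', hm3⟩ : ∃ m : ℕ, J1 ≤ m ∧ 2 * C + 3 ≤ 2 ^ m ∧ (8 * C1 / κ) * (1 / 2) ^ m ≤ ε / 4 := by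
    obtain ⟨m0, hm0⟩ := ex_pow (K := 8 * C1 / κ) (e := ε / 4) (by positivity)
    refine ⟨max (max J1 (2 * C + 3)) m0, (le_max_left _ _).trans (le_max_left _ _), ?_, hm0 _ (le_max_right _ _)⟩
    have h1 : 2 * C + 3 ≤ max (max J1 (2 * C + 3)) m0 := (le_max_right _ _).trans (le_max_left _ _)
    exact h1.trans Nat.lt_two_pow_self.le
  have hm2 : 2 * C ≤ 2 ^ m := by omega
  obtain ⟨C2, hC2, hYM⟩ := hYM η (m + 1) hη
  -- the choice of j
  obtain ⟨j, hj⟩ := ex_Ub (K := 64 * C1 * CU * C2 / κ ^ 2) (e := ε / 4) (by positivity) (by positivity)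
  obtain ⟨bU, hbU⟩ : ∃ bU : ℕ, ∀ b, bU ≤ b → 8 ≤ κ * Ub b := by
    obtain ⟨B, hB⟩ := Ub_big
    obtain ⟨n, hn⟩ := exists_nat_ge (8 / κ)
    refine ⟨B * n, fun b hb => ?_⟩
    have h1 := hB b n hb
    have h2 : (n : ℝ) ≤ 8 ^ n := by
      exact_mod_cast (Nat.lt_pow_self (by norm_num : 1 < 8)).le
    have h3 : 8 / κ ≤ Ub b := hn.trans (h2.trans h1)
    rw [div_le_iff₀ hκ] at h3
    linarith
  obtain ⟨b0, hb0⟩ : ∃ b0 : ℕ, b0 = max (max b1 bL) (max bU (j + r0 + (2 * m + 2 * C + 100))) := ⟨_, rfl⟩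
  refine ⟨η, κ0 / 2 ^ j, j, m + 1, b0, hη, by positivity, ?_, fun b hb => ?_⟩
  · rw [hb0]
    exact le_trans (by omega) ((le_max_right _ _).trans (le_max_right _ _))
  have hb1 : b1 ≤ b := ((le_max_left _ _).trans (le_max_left _ _)).trans (hb0 ▸ hb)
  have hbL : bL ≤ b := ((le_max_right _ _).trans (le_max_left _ _)).trans (hb0 ▸ hb)
  have hbU' : bU ≤ b := ((le_max_left _ _).trans (le_max_right _ _)).trans (hb0 ▸ hb)
  have hbj : j + r0 + (2 * m + 2 * C + 100) ≤ b := ((le_max_right _ _).trans (le_max_right _ _)).trans (hb0 ▸ hb)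
  obtain ⟨nE, hE⟩ := hE b
  obtain ⟨nL, hL⟩ := hLz b hbL (ε / 4) (by positivity)
  obtain ⟨nB, hB⟩ := hBig b a
  refine ⟨max (max nE ((2 ^ (b + (m + 1))) ^ 10)) (max nL nB), fun n hn => ?_⟩
  have hnE : nE ≤ n := ((le_max_left _ _).trans (le_max_left _ _)).trans hn
  have hnD : (2 ^ (b + (m + 1))) ^ 10 ≤ n := ((le_max_right _ _).trans (le_max_left _ _)).trans hn
  have hnL : nL ≤ n := ((le_max_left _ _).trans (le_max_right _ _)).trans hn
  have hnB : nB ≤ n := ((le_max_right _ _).trans (le_max_right _ _)).trans hn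
  obtain ⟨B, hBε, hEx⟩ := hE n hnE
  obtain ⟨m1, hm1a, hm1b, hm1c⟩ := hB n hnB
  have hLm := hL n hnL m1 hm1a
  have hU : 0 < Ub b := Ub_pos b
  have h8 := hbU b hbU'
  -- the numbers
  obtain ⟨h, hh⟩ : ∃ h : ℕ, h = ⌈κ * Ub b / 8⌉₊ := ⟨_, rfl⟩
  have hh1 : 1 ≤ h := by
    rw [hh, Nat.one_le_iff_ne_zero, Nat.ne_zero_iff_zero_lt, Nat.ceil_pos]
    positivity
  have hq : κ * Ub b / 8 ≤ (h : ℝ) := by
    rw [hh]
    exact Nat.le_ceil _
  have hh2 : (h : ℝ) < κ * Ub b / 8 + 1 := by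
    rw [hh]
    exact Nat.ceil_lt_add_one (by positivity)
  have hηh : η * Ub b ≤ (h : ℝ) := by
    rw [hηd]
    calc κ / 8 * Ub b = κ * Ub b / 8 := by ring
      _ ≤ h := hq
  obtain ⟨r, hr⟩ : ∃ r : ℕ, r = 2 ^ (b - j) := ⟨_, rfl⟩
  have hrb : r ≤ 2 ^ b := by
    rw [hr]
    exact Nat.pow_le_pow_right (by norm_num) (by omega)
  have hr0 : r0 ≤ r := by
    rw [hr]
    have h1 : r0 ≤ b - j := by omega
    exact h1.trans Nat.lt_two_pow_self.le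
  have hUr : UU r = Ub (b - j) := by rw [hr]; rfl
  have hUj : Ub b ≤ 2 ^ j * UU r := by
    have := Ub_steps (b - j) j
    rw [Nat.sub_add_cancel (by omega)] at this
    rw [hUr]
    exact this
  have hκU : κ0 / 2 ^ j * Ub b ≤ κ0 * UU r := by
    rw [div_mul_eq_mul_div, div_le_iff₀ (by positivity)]
    nlinarith
  -- the events
  obtain ⟨EJ, hEJ⟩ : ∃ EJ : ℕ → Set (List Bool), EJ = fun J => {t | t ∉ B ∧ κ * Ub b / 8 ≤
    (nD (2 ^ (b + (J + 1))) (RB κ C b (J + 1) (C * 2 ^ b) η) t : ℝ)} := ⟨_, rfl⟩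
  obtain ⟨EA, hEA⟩ : ∃ EA : Set (List Bool), EA = {t | t ∉ B ∧ κ * Ub b / 8 ≤
    (nD (2 ^ (b + (m + 1))) (RA (κ0 * UU r) r b (C * 2 ^ b) (2 ^ (b + (m + 1))) η h) t : ℝ)} := ⟨_, rfl⟩
  obtain ⟨Js, hJs⟩ : ∃ Js : Finset ℕ, Js = (range (4 * m1 + 1)).filter fun J => m ≤ J ∧ 2 ^ J ≤ 4 * m1 := ⟨_, rfl⟩
  -- the covering
  have hcov : ∀ t ∈ SawN n, t ∈ {t | ((NCa b (b - j) (2 ^ (b + (m + 1))) η t).ncard : ℝ) < κ0 / 2 ^ j * Ub b} →
      t ∈ ((B ∪ Lz κ C b m1) ∪ {t | ∃ J ∈ Js, t ∈ EJ J}) ∪ EA := by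
    intro t ht hbad
    by_cases hBt : t ∈ B
    · exact Or.inl (Or.inl (Or.inl hBt))
    by_cases hLt : t ∈ Lz κ C b m1
    · exact Or.inl (Or.inl (Or.inr hLt))
    have hNz : t ∉ Nz κ C b := fun hN => hLt ⟨[], t, [], by rw [List.nil_append, List.append_nil], hN, hm1c t ht⟩
    obtain ⟨X, Z1, Z2, Z3, Y0, hd⟩ := dt_of hW ht.2 hNz
    have h4 : 4 * h ≤ nc Z2 := by
      have h5 : (4 : ℝ) * h ≤ nc Z2 := by
        have := hd.n2
        linarith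
      exact_mod_cast h5
    have hY0 : In (m1 * 2 ^ b) Y0 := by
      by_contra hcon
      refine hLt ⟨X ++ (Z1 ++ (Z2 ++ Z3)), Y0, [], ?_, hd.nz, hcon⟩
      rw [hd.eq]
      simp only [List.append_assoc, List.append_nil]
    have hex : ∃ J, In (2 ^ (b + J)) Y0 := by
      refine ⟨m1, in_mono hY0 ?_⟩
      rw [pow_add, mul_comm]
      exact Nat.mul_le_mul_left _ Nat.lt_two_pow_self.le
    rcases Nat.lt_or_ge m (Nat.find hex) with hJ | hJ
    · -- case B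
      have h5 := Nat.find_spec hex
      have h6 := Nat.find_min hex (m := Nat.find hex - 1) (by omega)
      obtain ⟨J, hJd⟩ : ∃ J, J = Nat.find hex := ⟨_, rfl⟩
      rw [← hJd] at h5 h6 hJ
      have h7 : ¬ In (2 ^ (J - 1) * 2 ^ b) Y0 := by
        rwa [← pow_add, add_comm (J - 1) b]
      have h8' : 2 ^ (J - 1) < m1 := by
        by_contra hcon
        exact h7 (in_mono hY0 (Nat.mul_le_mul_right _ (not_lt.1 hcon)))
      have h9 : 2 ^ J = 2 * 2 ^ (J - 1) := by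
        rw [← pow_succ']
        congr 1
        omega
      have h10 : J < 2 ^ J := Nat.lt_two_pow_self
      refine Or.inl (Or.inr ⟨J, ?_, ?_⟩)
      · rw [hJs, mem_filter, mem_range]
        omega
      · rw [hEJ]
        refine ⟨hBt, hq.trans ?_⟩
        have h11 : 2 * C ≤ 2 ^ J := hm2.trans (Nat.pow_le_pow_right (by norm_num) (by omega))
        have h12 : 2 ^ (J + 1) ≤ 2 ^ (J - 1) * 2 ^ 2 := by
          rw [pow_succ, h9]
          omega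
        exact_mod_cast caseB hW hd hh1 hηh h4 h12 h5 h7 h11
    · -- case A
      refine Or.inr ?_
      rw [hEA]
      refine ⟨hBt, hq.trans ?_⟩
      have h5 : In (2 ^ (b + m)) Y0 := in_mono (Nat.find_spec hex) (Nat.pow_le_pow_right (by norm_num) (by omega))
      exact_mod_cast caseA hW hd hh1 hηh h4 h5 hm2 (by rw [hr]) hκU hbad
  -- the mass of the cases B
  have hB1 : ∀ J ∈ Js, TOG.Pn n (EJ J) ≤ 8 * C1 / κ * (1 / 2) ^ (J + 1) := by
    intro J hJ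
    rw [hJs, mem_filter, mem_range] at hJ
    obtain ⟨-, j1, j2⟩ := hJ
    have hD : ((2 ^ (b + (J + 1)) : ℕ) : ℝ) ^ 10 ≤ n := by
      refine le_trans (pow_le_pow_left₀ (Nat.cast_nonneg _) ?_ 10) hm1b
      have h5 : 2 ^ (b + (J + 1)) ≤ 64 * m1 * 2 ^ b := by
        rw [pow_add, pow_succ, mul_comm]
        exact Nat.mul_le_mul_right _ (by omega)
      exact_mod_cast h5
    have hloc : 4 * (C * 2 ^ b) ≤ 2 ^ (b + (J + 1)) := by
      have e1 : 2 ^ (b + (J + 1)) = 2 * (2 ^ J * 2 ^ b) := by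
        rw [pow_add, pow_succ]
        ring
      have e2 := Nat.mul_le_mul_right (2 ^ b) (hm2.trans (Nat.pow_le_pow_right (by norm_num) j1))
      rw [e1]
      nlinarith
    have h5 := hEx (RB κ C b (J + 1) (C * 2 ^ b) η) (ENNReal.ofReal (Ub b / (2 : ℝ) ^ (1 * (J + 1))) * Xb b) (κ * Ub b / 8)
      (2 ^ (b + (J + 1))) hD (rb_loc hloc) (fun A Y h => h.1.gt) (fun A => ?_) (by positivity)
    · rw [hEJ]
      refine (cancel (by positivity) hC1.le (by positivity) h5).trans (le_of_eq ?_)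
      rw [one_mul, one_div, inv_pow]
      field_simp
    · refine le_trans (gf_mono ?_) (hY b (J + 1) hb1 (by omega))
      rintro Y ⟨⟨-, y1, y2, y3⟩, y4⟩
      exact ⟨y1, y2, y4, y3⟩
  -- the mass of the case A
  have hA1 : TOG.Pn n EA ≤ ε / 4 := by
    have hD : ((2 ^ (b + (m + 1)) : ℕ) : ℝ) ^ 10 ≤ n := by exact_mod_cast hnD
    have hUp : 0 < UU r := by rw [hUr]; exact Ub_pos _
    have hFw : ∀ A, gf {Y | RA (κ0 * UU r) r b (C * 2 ^ b) (2 ^ (b + (m + 1))) η h A Y ∧ In (2 ^ (b + (m + 1))) Y} ≤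
        ENNReal.ofReal (8 * CU * C2 / κ * UU r) * Xb b := by
      intro A
      have h5 := fw_mass (A := A) (κ0 := κ0 * UU r) (η := η) (q := h) (r := r) (b := b) (E := 2 * (C * 2 ^ b))
        (D := 2 ^ (b + (m + 1))) (hUA r hr0 (2 ^ b) A) (hYM b)
      have h6 : ENNReal.ofReal (κ * Ub b / 8) * gf {Y | Fw (κ0 * UU r) r b (2 * (C * 2 ^ b)) (2 ^ (b + (m + 1))) η h A Y} ≤
          ENNReal.ofReal (κ * Ub b / 8) * (ENNReal.ofReal (8 * CU * C2 / κ * UU r) * Xb b) := by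
        refine (mul_le_mul' (ENNReal.ofReal_le_ofReal hq) le_rfl).trans (h5.trans (le_of_eq ?_))
        rw [← mul_assoc, ← mul_assoc, ← ENNReal.ofReal_mul (by positivity), ← ENNReal.ofReal_mul (by positivity)]
        congr 2
        field_simp
      have h7 : ENNReal.ofReal (κ * Ub b / 8) ≠ 0 := by
        rw [Ne, ENNReal.ofReal_eq_zero, not_le]
        positivity
      exact (gf_mono fun Y hY => hY.1.2).trans ((ENNReal.mul_le_mul_iff_right h7 ENNReal.ofReal_ne_top).1 h6)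
    have hloc : LocR (2 ^ (b + (m + 1))) (RA (κ0 * UU r) r b (C * 2 ^ b) (2 ^ (b + (m + 1))) η h) := by
      refine ra_loc ?_
      have e1 : 2 ^ (b + (m + 1)) = 2 * (2 ^ m * 2 ^ b) := by
        rw [pow_add, pow_succ]
        ring
      have e2 := Nat.mul_le_mul_right (2 ^ b) hm2'
      have e3 : 1 ≤ 2 ^ b := Nat.one_le_two_pow
      rw [e1]
      nlinarith
    have h5 := hEx _ _ (κ * Ub b / 8) (2 ^ (b + (m + 1))) hD hloc (fun A Y h => h.1.gt) hFw (by positivity)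
    rw [hEA]
    refine (cancel (by positivity) hC1.le (by positivity) h5).trans ?_
    refine le_trans (le_of_eq ?_) (hj b (by omega))
    rw [hUr]
    field_simp
    ring
  -- the sum
  refine (Pn_mono hcov).trans ((Pn_union n _ _).trans ?_)
  have h5 := Pn_union n (B ∪ Lz κ C b m1) {t | ∃ J ∈ Js, t ∈ EJ J}
  have h6 := Pn_union n B (Lz κ C b m1)
  have h7 : TOG.Pn n {t | ∃ J ∈ Js, t ∈ EJ J} ≤ ε / 4 := by
    refine (Pn_biU n Js EJ).trans ((sum_le_sum hB1).trans ?_)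
    rw [← mul_sum]
    refine le_trans (mul_le_mul_of_nonneg_left (sum_two m Js fun J hJ => ?_) (by positivity)) hm3
    rw [hJs, mem_filter] at hJ
    exact hJ.2.1
  linarith

end TIP

end HexObs


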