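import Pool.Agent.TIP.Rich
import Pool.Agent.TIP.DCnt

/-!
TIP, M2: one step of the recursion over the scales, for an abstract notion of a free cut.
-/

set_option autoImplicit false

namespace HexObs

namespace TIP

open Finset TS SDN NTW NTA SIM

open scoped ENNReal

open Classical in
/-- number of the free cuts -/
noncomputable def frN (Fr : List Bool → List Bool → Prop) (A Z : List Bool) : ℕ := ((range (Z.length + 1)).filter fun j =>
  Z.take j ∈ BU ∧ Z.drop j ∈ BU ∧ Fr A (Z.take j)).card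

/-- words of P with a free tip of the scale b -/
def FT (Fr : List Bool → List Bool → Prop) (P : Set (List Bool)) (b : ℕ) : Set (List Bool) :=
  {L | L ∈ P ∧ ∃ A Z, L = A ++ Z ∧ OnB b A ∧ Z ∈ BU ∧ hgt Z ≤ 2 ^ b ∧ Fr A Z}

open Classical in
/-- **M2**: one step of the recursion -/
theorem step2 (Fr : List Bool → List Bool → Prop) {P : Set (List Bool)} {m b : ℕ} {η κ : ℝ} {E : ℝ≥0∞} (hsa : P ⊆ SA)
    (hpre : ∀ A Z, A ++ Z ∈ P → Z ∈ BU → hgt Z ≤ 2 ^ m → A ∈ P) (hb : b + 1 ≤ m) (hη : 0 < η) (hκ : 0 < κ)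
    (hUA : ∀ A, gf {Z | Z ∈ BU ∧ hgt Z ≤ 2 ^ (b + 1) ∧ A ++ Z ∈ SA ∧ (frN Fr A Z : ℝ) < κ} ≤ E) :
    gf (P ∩ GT (b + 1) η) ≤ ENNReal.ofReal (4 / (η * Ub (b + 1))) * (gf (P ∩ GT b (η / 8)) * E) +
      ENNReal.ofReal (Ub (b + 1) / κ) * gf (FT Fr P (b + 1)) := by
  have hU : (0 : ℝ) < Ub (b + 1) := Ub_pos (b + 1)
  have hpow : (2 : ℕ) ^ (b + 1) ≤ 2 ^ m := Nat.pow_le_pow_right (by norm_num) hb
  -- exceptional rich cuts
  obtain ⟨Ex, hEx⟩ : ∃ Ex : List Bool → ℕ → Prop, Ex = fun L j => L.take j ∈ GT b (η / 8) ∧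
    (frN Fr (L.take j) (L.drop j) : ℝ) < κ := ⟨_, rfl⟩
  obtain ⟨G1, hG1⟩ : ∃ G1 : Set (List Bool), G1 = {L | L ∈ P ∧ L ∈ GT (b + 1) η ∧
    η / 4 * Ub (b + 1) ≤ (((cs (b + 1) L).filter (Ex L)).card : ℝ)} := ⟨_, rfl⟩
  obtain ⟨G2, hG2⟩ : ∃ G2 : Set (List Bool), G2 = {L | L ∈ P ∧ L ∈ GT (b + 1) η ∧
    ¬ η / 4 * Ub (b + 1) ≤ (((cs (b + 1) L).filter (Ex L)).card : ℝ)} := ⟨_, rfl⟩
  have hcov : P ∩ GT (b + 1) η ⊆ G1 ∪ G2 := by
    rintro L ⟨hL1, hL2⟩
    by_cases h : η / 4 * Ub (b + 1) ≤ (((cs (b + 1) L).filter (Ex L)).card : ℝ)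
    · exact Or.inl (by rw [hG1]; exact ⟨hL1, hL2, h⟩)
    · exact Or.inr (by rw [hG2]; exact ⟨hL1, hL2, h⟩)
  have hdrop : ∀ (L : List Bool) (q : ℕ), L ∈ P → L.drop q ∈ BU → hgt (L.drop q) ≤ 2 ^ (b + 1) → L.take q ∈ P := by
    intro L q hL h1 h2
    exact hpre (L.take q) (L.drop q) (by rwa [List.take_append_drop]) h1 (h2.trans hpow)
  -- the first part
  have h1 : ENNReal.ofReal (η / 4 * Ub (b + 1)) * gf G1 ≤ gf (P ∩ GT b (η / 8)) * E := by
    refine dc (Y := fun A => {Z | Z ∈ BU ∧ hgt Z ≤ 2 ^ (b + 1) ∧ A ++ Z ∈ SA ∧ (frN Fr A Z : ℝ) < κ})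
      (fun A _ => hUA A) fun L hL => ?_
    rw [hG1] at hL
    obtain ⟨hL1, -, hL3⟩ := hL
    refine ⟨(cs (b + 1) L).filter (Ex L), ?_, fun q hq => ?_⟩
    · rw [← ENNReal.ofReal_natCast]
      exact ENNReal.ofReal_le_ofReal hL3
    · rw [mem_filter] at hq
      obtain ⟨hq1, hq2⟩ := hq
      rw [hEx] at hq2
      obtain ⟨hq3, hq4⟩ := hq2
      obtain ⟨c1, c2, c3, -⟩ := mem_cs.1 hq1
      refine ⟨c1, ⟨hdrop L q hL1 c2 c3, hq3⟩, c2, c3, ?_, hq4⟩
      rw [List.take_append_drop]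
      exact hsa hL1
  -- the second part
  have h2 : ENNReal.ofReal κ * gf G2 ≤ gf (FT Fr P (b + 1)) * ENNReal.ofReal (Ub (b + 1)) := by
    refine dc (Y := fun _ => {Z | ∃ n, n ≤ 2 ^ (b + 1) ∧ Z ∈ Brd n}) (fun A _ => gf_BU_le _) fun L hL => ?_
    rw [hG2] at hL
    obtain ⟨hL1, hL2, hL3⟩ := hL
    -- a rich cut with many free cuts
    obtain ⟨j, hj, hjr, hjk⟩ : ∃ j ∈ cs (b + 1) L, L.take j ∈ GT b (η / 8) ∧ κ ≤ (frN Fr (L.take j) (L.drop j) : ℝ) := by
      by_contra hcon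
      have hsub : cs (b + 1) L ⊆ ((cs (b + 1) L).filter fun j => L.take j ∉ GT b (η / 8)) ∪ (cs (b + 1) L).filter (Ex L) := by
        intro j hj
        rw [mem_union, mem_filter, mem_filter]
        by_cases hr : L.take j ∈ GT b (η / 8)
        · refine Or.inr ⟨hj, ?_⟩
          rw [hEx]
          refine ⟨hr, ?_⟩
          by_contra h3
          exact hcon ⟨j, hj, hr, not_lt.1 h3⟩
        · exact Or.inl ⟨hj, hr⟩
      have h3 := (card_le_card hsub).trans (card_union_le _ _)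
      have h4 : ((cs (b + 1) L).card : ℝ) ≤ (((cs (b + 1) L).filter fun j => L.take j ∉ GT b (η / 8)).card : ℝ) +
          (((cs (b + 1) L).filter (Ex L)).card : ℝ) := by exact_mod_cast h3
      have h5 : η * Ub (b + 1) ≤ ((cs (b + 1) L).card : ℝ) := hL2
      have h6 := rich' b η L hη
      have h7 : 0 < η * Ub (b + 1) := by positivity
      have h8 := not_le.1 hL3
      linarith
    obtain ⟨c1, c2, c3, c4⟩ := mem_cs.1 hj
    -- the free cuts as cuts of L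
    refine ⟨(((range ((L.drop j).length + 1)).filter fun i => (L.drop j).take i ∈ BU ∧ (L.drop j).drop i ∈ BU ∧
      Fr (L.take j) ((L.drop j).take i)).image fun i => j + i), ?_, fun q hq => ?_⟩
    · rw [card_image_of_injective _ (fun x y h => Nat.add_left_cancel h), ← ENNReal.ofReal_natCast]
      exact ENNReal.ofReal_le_ofReal hjk
    · obtain ⟨i, hi, rfl⟩ := mem_image.1 hq
      rw [mem_filter, mem_range, List.length_drop] at hi
      obtain ⟨i1, i2, i3, i4⟩ := hi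
      have e1 : L.take (j + i) = L.take j ++ (L.drop j).take i := by rw [List.take_add]
      have e2 : L.drop (j + i) = (L.drop j).drop i := by rw [List.drop_drop]
      have e3 : hgt (L.drop j) = hgt ((L.drop j).take i) + hgt ((L.drop j).drop i) := by
        have := hgt_eq (Brd_append (BU_hgt i2) (BU_hgt i3))
        rwa [List.take_append_drop] at this
      refine ⟨by omega, ⟨hdrop L (j + i) hL1 (by rw [e2]; exact i3) (by rw [e2]; omega), L.take j, (L.drop j).take i, e1, c4,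
        i2, by omega, i4⟩, ?_⟩
      rw [e2]
      exact ⟨_, by omega, BU_hgt i3⟩
  -- the sum
  have k1 : gf G1 ≤ ENNReal.ofReal (4 / (η * Ub (b + 1))) * (gf (P ∩ GT b (η / 8)) * E) := by
    have e : ENNReal.ofReal (4 / (η * Ub (b + 1))) * ENNReal.ofReal (η / 4 * Ub (b + 1)) = 1 := by
      rw [← ENNReal.ofReal_mul (by positivity), ← ENNReal.ofReal_one]
      congr 1
      field_simp
    calc gf G1 = ENNReal.ofReal (4 / (η * Ub (b + 1))) * (ENNReal.ofReal (η / 4 * Ub (b + 1)) * gf G1) := by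
          rw [← mul_assoc, e, one_mul]
      _ ≤ _ := mul_le_mul_right h1 _
  have k2 : gf G2 ≤ ENNReal.ofReal (Ub (b + 1) / κ) * gf (FT Fr P (b + 1)) := by
    have e : ENNReal.ofReal κ⁻¹ * ENNReal.ofReal κ = 1 := by
      rw [← ENNReal.ofReal_mul (by positivity), ← ENNReal.ofReal_one]
      congr 1
      field_simp
    calc gf G2 = ENNReal.ofReal κ⁻¹ * (ENNReal.ofReal κ * gf G2) := by rw [← mul_assoc, e, one_mul]
      _ ≤ ENNReal.ofReal κ⁻¹ * (gf (FT Fr P (b + 1)) * ENNReal.ofReal (Ub (b + 1))) := mul_le_mul_right h2 _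
      _ = _ := by
          rw [mul_comm (gf (FT Fr P (b + 1))), ← mul_assoc, ← ENNReal.ofReal_mul (by positivity)]
          congr 2
          rw [div_eq_mul_inv, mul_comm]
  exact (gf_mono hcov).trans ((gf_union_le _ _).trans (add_le_add k1 k2))

end TIP

end HexObs
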