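import Pool.Agent.TIP.DefsN
import Pool.Agent.TIP.Step2
import Pool.Agent.TIP.Ua6
import Pool.Agent.TIP.Frame
import Pool.Agent.TIP.TipOf

/-!
TIP, row Nf (helper84), part A: the event (few free cuts near the tip): its mass, its locality; a free cut has a free half
ball in front of the tip.
-/

set_option autoImplicit false

namespace HexObs

namespace TIP

open Finset TS SDN SIM NTA NTW

open scoped ENNReal

namespace Nf

lemma dirs_cases {d : Pt} (hd : d ∈ dirs) :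
    d = (1, 0) ∨ d = (0, 1) ∨ d = (-1, 1) ∨ d = (-1, 0) ∨ d = (0, -1) ∨ d = (1, -1) := by
  simpa [dirs] using hd

lemma bl_of_bx6 {r : ℕ} {p : Pt} (h : Bx6 r p) : |p.1| ≤ 3 * (r : ℤ) + 2 ∧ |p.2| ≤ 3 * (r : ℤ) + 2 := by
  have h1 := h up (by decide)
  have h2 := h (-1, 0) (by decide)
  have e1 : ip p up = p.1 + 2 * p.2 := by
    simp only [ip, up]
    ring
  have e2 : ip p (-1, 0) = -(2 * p.1 + p.2) := by
    simp only [ip]
    ring
  rw [e1] at h1
  rw [e2] at h2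
  rw [abs_le] at h1 h2
  rw [abs_le, abs_le]
  constructor <;> constructor <;> omega

lemma bx6_of_bl {r : ℕ} {p : Pt} (h1 : |p.1| ≤ (r : ℤ)) (h2 : |p.2| ≤ (r : ℤ)) : Bx6 r p := by
  intro d hd
  rw [abs_le] at h1 h2 ⊢
  rcases dirs_cases hd with rfl | rfl | rfl | rfl | rfl | rfl <;> simp only [ip] <;> constructor <;> omega

lemma bx6_rot {r : ℕ} {u p : Pt} (hu : nrm u = 1) (h : Bx6 r (mulE u p)) : Bx6 r p := by
  intro d hd
  have hc : mulE u d ∈ dirs := by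
    rw [mem_dirs, nrm_mulE, hu, one_mul]
    exact mem_dirs.1 hd
  have e : ip (mulE u p) (mulE u d) = ip p d := by rw [ip_mulE, hu, one_mul]
  rw [← e]
  exact h _ hc

lemma mulE_bl {u p : Pt} {E : ℕ} (hu : u ∈ dirs) (h1 : |p.1| ≤ (E : ℤ)) (h2 : |p.2| ≤ (E : ℤ)) :
    |(mulE u p).1| ≤ 2 * (E : ℤ) ∧ |(mulE u p).2| ≤ 2 * (E : ℤ) := by
  rw [abs_le] at h1 h2
  rw [abs_le, abs_le]
  rcases dirs_cases hu with rfl | rfl | rfl | rfl | rfl | rfl <;> simp only [mulE] <;>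
    constructor <;> constructor <;> omega

/-- a free cut stays free when a far past is put in front -/
lemma far_app {r D E : ℕ} {L A Z1 : List Bool} (hL : ∀ i, i ≤ L.length → vx oo up (L ++ A) i ∉ Bl (tipv (L ++ A)) D)
    (hZ : vx oo up Z1 Z1.length ∈ Bl oo E) (hD : 2 * E + 3 * r + 2 ≤ D) (hF : Far6 r A Z1) : Far6 r (L ++ A) Z1 := by
  intro i hi hb
  rcases Nat.lt_or_ge L.length i with h1 | h1
  · obtain ⟨k, rfl⟩ : ∃ k, i = L.length + k := ⟨i - L.length, by omega⟩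
    rw [List.length_append] at hi
    refine hF k (by omega) (bx6_rot (u := rotTo up (tipd L)) (nrm_rotTo upd (tipd_mem L)) ?_)
    have e1 : vx oo up (L ++ A) (L.length + k) = tipv L + mulE (rotTo up (tipd L)) (vx oo up A k) := vx_general L A k
    have e2 : tp ((L ++ A) ++ Z1) = tipv L + mulE (rotTo up (tipd L)) (tp (A ++ Z1)) := by
      rw [List.append_assoc]
      exact tipv_app L (A ++ Z1)
    rw [e1, e2, add_sub_add_left_eq_sub, ← mulE_sub] at hb
    exact hb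
  · refine hL i h1 ?_
    obtain ⟨b1, b2⟩ := bl_of_bx6 hb
    have e2 : tp ((L ++ A) ++ Z1) = tipv (L ++ A) + mulE (rotTo up (tipd (L ++ A))) (vx oo up Z1 Z1.length) :=
      tipv_app _ _
    have hu : rotTo up (tipd (L ++ A)) ∈ dirs := by
      have : ∀ d ∈ dirs, rotTo up d ∈ dirs := by decide
      exact this _ (tipd_mem _)
    obtain ⟨z1, z2⟩ := hZ
    have z1' : |(vx oo up Z1 Z1.length).1| ≤ (E : ℤ) := by simpa [oo] using z1
    have z2' : |(vx oo up Z1 Z1.length).2| ≤ (E : ℤ) := by simpa [oo] using z2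
    obtain ⟨m1, m2⟩ := mulE_bl hu z1' z2'
    obtain ⟨v, hv⟩ : ∃ v, v = mulE (rotTo up (tipd (L ++ A))) (vx oo up Z1 Z1.length) := ⟨_, rfl⟩
    rw [← hv] at e2 m1 m2
    rw [e2] at b1 b2
    simp only [Prod.fst_sub, Prod.snd_sub, Prod.fst_add, Prod.snd_add] at b1 b2
    rw [abs_le] at b1 b2 m1 m2
    have hDz : 2 * (E : ℤ) + 3 * r + 2 ≤ D := by exact_mod_cast hD
    refine ⟨?_, ?_⟩ <;> rw [abs_le] <;> constructor <;> omega

/-- the free cuts, a far past in front -/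
lemma frN_app {r D E : ℕ} {L A Z : List Bool} (hL : ∀ i, i ≤ L.length → vx oo up (L ++ A) i ∉ Bl (tipv (L ++ A)) D)
    (hZ : In E Z) (hD : 2 * E + 3 * r + 2 ≤ D) : frN (Far6 r) A Z ≤ frN (Far6 r) (L ++ A) Z := by
  classical
  unfold frN
  refine card_le_card fun j hj => ?_
  rw [mem_filter] at hj ⊢
  obtain ⟨h1, h2, h3, h4⟩ := hj
  have h5 : j ≤ Z.length := by
    have := mem_range.1 h1
    omega
  refine ⟨h1, h2, h3, far_app hL ?_ hD h4⟩
  have e : vx oo up (Z.take j) (Z.take j).length = vx oo up Z j := by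
    have h6 : (Z.take j).length = j := by
      rw [List.length_take]
      omega
    rw [h6]
    conv_rhs => rw [← List.take_append_drop j Z]
    exact (vx_append (by omega)).symm
  rw [e]
  exact hZ j h5

/-- a free cut has a free half ball in front of the tip -/
lemma free_of {r r' : ℕ} {A Z : List Bool} (hZ : Z ∈ BU) (hF : Far6 r A Z) (hr : r' ≤ r) : FreeT r' (A ++ Z) := by
  intro i hi hpos hb
  rcases Nat.lt_or_ge A.length i with h1 | h1
  · -- a vertex of Z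
    obtain ⟨k, rfl⟩ : ∃ k, i = A.length + k := ⟨i - A.length, by omega⟩
    rw [List.length_append] at hi
    have e1 : vx oo up (A ++ Z) (A.length + k) = tipv A + mulE (rotTo up (tipd A)) (vx oo up Z k) := vx_general A Z k
    have e2 : tipv (A ++ Z) = tipv A + mulE (rotTo up (tipd A)) (vx oo up Z Z.length) := tipv_app A Z
    have e3 : tipd (A ++ Z) = mulE (rotTo up (tipd A)) up := by
      rw [tipd_BU hZ, rotTo_apply _ upd]
    rw [e1, e2, e3, add_sub_add_left_eq_sub, ← mulE_sub, ip_mulE, nrm_rotTo upd (tipd_mem A), one_mul] at hpos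
    have g := mem_Brd.1 (BU_hgt hZ)
    have e4 : ip (vx oo up Z k - vx oo up Z Z.length) up = lev Z k - lev Z Z.length := by
      unfold lev
      simp only [ip, Prod.fst_sub, Prod.snd_sub]
      ring
    rw [e4] at hpos
    rcases Nat.eq_zero_or_pos k with hk | hk
    · rw [hk, lev_zero, g.2.2.2] at hpos
      have : (0 : ℤ) ≤ 3 * (hgt Z : ℤ) := by positivity
      omega
    · have h7 := (g.1 k hk (by omega)).2
      rw [g.2.2.2] at hpos
      omega
  · refine hF i h1 ?_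
    have e1 : vx oo up (A ++ Z) i = vx oo up A i := vx_append (by omega)
    rw [e1] at hb
    obtain ⟨b1, b2⟩ := hb
    have hrz : (r' : ℤ) ≤ r := by exact_mod_cast hr
    exact bx6_of_bl (b1.trans hrz) (b2.trans hrz)

lemma gt_app {b : ℕ} {η : ℝ} {A0 B : List Bool} (h : B ∈ GT b η) : A0 ++ B ∈ GT b η := by
  classical
  refine le_trans (show η * Ub b ≤ ((cs b B).card : ℝ) from h) ?_
  have h1 : ((cs b B).image fun j => A0.length + j) ⊆ cs b (A0 ++ B) := by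
    intro q hq
    obtain ⟨j, hj, rfl⟩ := mem_image.1 hq
    obtain ⟨a1, a2, a3, A', B', a4, a5, a6⟩ := mem_cs.1 hj
    rw [mem_cs, List.drop_length_add_append, List.take_length_add_append, List.length_append]
    exact ⟨by omega, a2, a3, A0 ++ A', B', by rw [a4, List.append_assoc], a5, a6⟩
  have h2 := card_le_card h1
  rw [card_image_of_injective _ (fun x y h => Nat.add_left_cancel h)] at h2
  exact_mod_cast h2

/-- the good tip is local -/
def Lt (b E : ℕ) (η : ℝ) (A : List Bool) : Prop := ∃ A0 B, A = A0 ++ B ∧ B ∈ GT b η ∧ In E B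

lemma Lt.gt {b E : ℕ} {η : ℝ} {A : List Bool} (h : Lt b E η A) : A ∈ GT b η := by
  obtain ⟨A0, B, rfl, h1, -⟩ := h
  exact gt_app h1

lemma lt_loc {b D E : ℕ} {η : ℝ} {L A : List Bool}
    (hL : ∀ i, i ≤ L.length → vx oo up (L ++ A) i ∉ Bl (tipv (L ++ A)) D) (hD : 4 * E ≤ D) (h : Lt b E η (L ++ A)) :
    Lt b E η A := by
  obtain ⟨A0, B, h1, h2, h3⟩ := h
  rcases Nat.lt_or_ge B.length A.length with hl | hl
  · have h4 : B <:+ L ++ A := ⟨A0, h1.symm⟩
    obtain ⟨A1, hA1⟩ := List.suffix_of_suffix_length_le h4 (List.suffix_append L A) hl.le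
    exact ⟨A1, B, hA1.symm, h2, h3⟩
  · exfalso
    have h4 := congrArg List.length h1
    rw [List.length_append, List.length_append] at h4
    obtain ⟨k, hk⟩ : ∃ k, L.length = A0.length + k := ⟨L.length - A0.length, by omega⟩
    refine hL L.length le_rfl ?_
    rw [h1, hk]
    have e1 : vx oo up (A0 ++ B) (A0.length + k) = tipv A0 + mulE (rotTo up (tipd A0)) (vx oo up B k) := vx_general A0 B k
    have e2 : tipv (A0 ++ B) = tipv A0 + mulE (rotTo up (tipd A0)) (vx oo up B B.length) := tipv_app A0 B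
    have e3 : vx oo up (A0 ++ B) (A0.length + k) - tipv (A0 ++ B) =
        mulE (rotTo up (tipd A0)) (vx oo up B k - vx oo up B B.length) := by
      rw [e1, e2, add_sub_add_left_eq_sub, ← mulE_sub]
    have hu : rotTo up (tipd A0) ∈ dirs := by
      have : ∀ d ∈ dirs, rotTo up d ∈ dirs := by decide
      exact this _ (tipd_mem _)
    obtain ⟨a1, a2⟩ := h3 k (by omega)
    obtain ⟨b1, b2⟩ := h3 B.length le_rfl
    have f1 : |(vx oo up B k - vx oo up B B.length).1| ≤ ((2 * E : ℕ) : ℤ) := by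
      rw [abs_le] at a1 b1 ⊢
      rw [Prod.fst_sub]
      push_cast
      constructor <;> linarith [a1.1, a1.2, b1.1, b1.2]
    have f2 : |(vx oo up B k - vx oo up B B.length).2| ≤ ((2 * E : ℕ) : ℤ) := by
      rw [abs_le] at a2 b2 ⊢
      rw [Prod.snd_sub]
      push_cast
      constructor <;> linarith [a2.1, a2.2, b2.1, b2.2]
    obtain ⟨m1, m2⟩ := mulE_bl hu f1 f2
    rw [← e3] at m1 m2
    have hDz : 4 * (E : ℤ) ≤ D := by exact_mod_cast hD
    push_cast at m1 m2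
    exact ⟨by rw [← Prod.fst_sub]; linarith, by rw [← Prod.snd_sub]; linarith⟩

/-- the ends that start with many bridges with few free cuts -/
def Fw (κ0 : ℝ) (r b E D : ℕ) (η q : ℝ) (A Y : List Bool) : Prop :=
  ∃ S : Finset ℕ, q ≤ (S.card : ℝ) ∧ ∀ k ∈ S, k ≤ Y.length ∧
    (Y.take k ∈ BU ∧ hgt (Y.take k) ≤ 2 ^ b ∧ A ++ Y.take k ∈ SA ∧ (frN (Far6 r) A (Y.take k) : ℝ) < κ0) ∧
    In E (Y.take k) ∧ Y.drop k ∈ SA ∧ rev (Y.drop k) ∈ GT b η ∧ In D (Y.drop k)

lemma fw_mass {κ0 η q : ℝ} {r b E D : ℕ} {x y : ℝ≥0∞} {A : List Bool}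
    (h1 : gf {Z | Z ∈ BU ∧ hgt Z ≤ 2 ^ b ∧ A ++ Z ∈ SA ∧ (frN (Far6 r) A Z : ℝ) < κ0} ≤ x)
    (h2 : gf {Y | Y ∈ SA ∧ rev Y ∈ GT b η ∧ In D Y} ≤ y) :
    ENNReal.ofReal q * gf {Y | Fw κ0 r b E D η q A Y} ≤ x * y := by
  refine le_trans (dc (X := {Z | Z ∈ BU ∧ hgt Z ≤ 2 ^ b ∧ A ++ Z ∈ SA ∧ (frN (Far6 r) A Z : ℝ) < κ0})
    (Y := fun _ => {Y | Y ∈ SA ∧ rev Y ∈ GT b η ∧ In D Y}) (M := y) (fun _ _ => h2) fun Y hY => ?_) (mul_le_mul' h1 le_rfl)
  obtain ⟨S, hS, hk⟩ := hY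
  refine ⟨S, ?_, fun k hkS => ?_⟩
  · rw [← ENNReal.ofReal_natCast]
    exact ENNReal.ofReal_le_ofReal hS
  · obtain ⟨a1, a2, -, a4, a5, a6⟩ := hk k hkS
    exact ⟨a1, a2, a4, a5, a6⟩

lemma SA_suf {L A : List Bool} (h : L ++ A ∈ SA) : A ∈ SA := by
  have := SA_drop h L.length
  rwa [List.drop_left'  rfl] at this

lemma fw_loc {κ0 η q : ℝ} {r b E D D' : ℕ} (hD : 2 * E + 3 * r + 2 ≤ D') : LocR D' (Fw κ0 r b E D η q) := by
  intro L A Y hL h
  obtain ⟨S, hS, hk⟩ := h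
  refine ⟨S, hS, fun k hkS => ?_⟩
  obtain ⟨a1, ⟨a2, a3, a4, a5⟩, a6, a7⟩ := hk k hkS
  refine ⟨a1, ⟨a2, a3, ?_, ?_⟩, a6, a7⟩
  · rw [List.append_assoc] at a4
    exact SA_suf a4
  · refine lt_of_le_of_lt ?_ a5
    exact_mod_cast frN_app hL a6 hD

/-- the relation of the case A -/
def RA (κ0 : ℝ) (r b E D : ℕ) (η q : ℝ) (A Y : List Bool) : Prop := Lt b E η A ∧ Fw κ0 r b (2 * E) D η q A Y

lemma ra_loc {κ0 η q : ℝ} {r b E D D' : ℕ} (hD : 4 * E + 3 * r + 2 ≤ D') : LocR D' (RA κ0 r b E D η q) := by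
  intro L A Y hL h
  exact ⟨lt_loc hL (by omega) h.1, fw_loc (by omega) L A Y hL h.2⟩

/-- the relation of the case B -/
def RB (κ : ℝ) (C b J E : ℕ) (η : ℝ) (A Y : List Bool) : Prop :=
  Lt b E η A ∧ Y ∈ SA ∧ rev Y ∈ GT b η ∧ ∃ n : ℕ, 2 ^ J ≤ n * 2 ^ 2 ∧ Y ∈ Lz κ C b n

lemma rb_loc {κ η : ℝ} {C b J E D' : ℕ} (hD : 4 * E ≤ D') : LocR D' (RB κ C b J E η) := by
  intro L A Y hL h
  exact ⟨lt_loc hL hD h.1, h.2⟩

end Nf

end TIP

end HexObs


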