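import Pool.Agent.TIP.NgE
import Pool.Agent.TIP.DefsN
import Pool.Agent.SIM.Cut1Sum

/-!
TIP, Ng (exactly n letters): the double count: one macroscopic cut near the start, q decompositions near the end
(helper58).
-/

set_option autoImplicit false

namespace HexObs

namespace TIP

open Finset TS SDN SIM NTA

open scoped ENNReal

namespace NgC

/-- the number of the decompositions of R in σ -/
noncomputable def nS (σ : List Bool → List Bool → Prop) (R : List Bool) : ℕ :=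
  {Y : List Bool | ∃ A, R = A ++ Y ∧ σ A Y}.ncard

lemma fin_dec (σ : List Bool → List Bool → Prop) (R : List Bool) : {Y : List Bool | ∃ A, R = A ++ Y ∧ σ A Y}.Finite :=
  fin_suf fun Z hZ => by
    obtain ⟨A, h, -⟩ := hZ
    exact ⟨A, h.symm⟩

open Classical in
lemma nS_le (σ : List Bool → List Bool → Prop) (R : List Bool) :
    nS σ R ≤ ((range (R.length + 1)).filter fun j => σ (R.take j) (R.drop j)).card := by
  have h1 : {Y : List Bool | ∃ A, R = A ++ Y ∧ σ A Y} ⊆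
      ((((range (R.length + 1)).filter fun j => σ (R.take j) (R.drop j)).image fun j => R.drop j : Finset (List Bool)) :
        Set (List Bool)) := by
    rintro Y ⟨A, rfl, h⟩
    rw [mem_coe, mem_image]
    refine ⟨A.length, mem_filter.2 ⟨mem_range.2 (by rw [List.length_append]; omega), ?_⟩, List.drop_left' rfl⟩
    rw [List.take_left' rfl, List.drop_left' rfl]
    exact h
  unfold nS
  refine (Set.ncard_le_ncard h1 (finite_toSet _)).trans ?_
  rw [Set.ncard_coe_finset]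
  exact card_image_le

open Classical in
/-- the right parts -/
lemma right_part {RR TA : Set (List Bool)} {σ : List Bool → List Bool → Prop} {x : ℝ≥0∞} {q : ℝ}
    (hσ : ∀ R ∈ RR, ∀ A Y, R = A ++ Y → σ A Y → A ∈ TA) (hx : ∀ A, gf {Y | σ A Y} ≤ x) :
    ENNReal.ofReal q * gf {R | R ∈ RR ∧ q ≤ (nS σ R : ℝ)} ≤ gf TA * x := by
  refine dc (Y := fun A => {Y | σ A Y}) (fun A _ => hx A) fun R hR => ?_
  refine ⟨(range (R.length + 1)).filter fun j => σ (R.take j) (R.drop j), ?_, fun j hj => ?_⟩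
  · rw [← ENNReal.ofReal_natCast]
    refine ENNReal.ofReal_le_ofReal (hR.2.trans ?_)
    exact_mod_cast nS_le σ R
  · obtain ⟨h1, h2⟩ := mem_filter.1 hj
    rw [mem_range] at h1
    exact ⟨by omega, hσ R hR.1 _ _ (List.take_append_drop j R).symm h2, h2⟩

/-- **the double count** -/
theorem core : ∃ C : ℝ, 1 ≤ C ∧ ∀ (LL RR TA E : Set (List Bool)) (σ : List Bool → List Bool → Prop) (n N nl : ℕ)
    (y x : ℝ≥0∞) (q : ℝ), 1 ≤ n → (∀ l : ℕ, gf {L | L.length = l ∧ L ∈ LL} ≤ y) →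
    (∀ R ∈ RR, ∀ A Y, R = A ++ Y → σ A Y → A ∈ TA) → (∀ A, gf {Y | σ A Y} ≤ x) →
    (∀ t ∈ E, Cut1 LL {R | R ∈ RR ∧ q ≤ (nS σ R : ℝ)} n (2 ^ N) t ∧ t.length = nl) →
    gf E * ENNReal.ofReal q ≤ ENNReal.ofReal (C * (2 ^ N / (n * Ub N))) * (y * (gf TA * x)) := by
  obtain ⟨C, hC, h⟩ := cut1_exact
  refine ⟨C, hC, fun LL RR TA E σ n N nl y x q hn hy hσ hx hE => ?_⟩
  have h1 := h LL {R | R ∈ RR ∧ q ≤ (nS σ R : ℝ)} E n N nl y hn hE hy
  calc gf E * ENNReal.ofReal q
      ≤ ENNReal.ofReal (C * (2 ^ N / (n * Ub N))) * (y * gf {R | R ∈ RR ∧ q ≤ (nS σ R : ℝ)}) * ENNReal.ofReal q :=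
        mul_le_mul' h1 le_rfl
    _ = ENNReal.ofReal (C * (2 ^ N / (n * Ub N))) * (y * (ENNReal.ofReal q * gf {R | R ∈ RR ∧ q ≤ (nS σ R : ℝ)})) := by ring
    _ ≤ _ := mul_le_mul' le_rfl (mul_le_mul' le_rfl (right_part hσ hx))

/-! ### geometry -/

/-- coordinates in another frame -/
lemma coord_rot {c : Pt} (hc : c ∈ dirs) {v : Pt} {D : ℤ} (h1 : |v.1| ≤ D) (h2 : |v.2| ≤ D) :
    |(mulE c v).1| ≤ 2 * D ∧ |(mulE c v).2| ≤ 2 * D := by
  obtain ⟨x, y⟩ := v
  simp only [dirs, mem_insert, mem_singleton] at hc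
  rw [abs_le] at *
  rw [abs_le]
  rcases hc with rfl | rfl | rfl | rfl | rfl | rfl <;>
    simp only [mulE] at * <;> refine ⟨⟨?_, ?_⟩, ?_, ?_⟩ <;> omega

lemma RevMIn {D : ℕ} {Y : List Bool} (h : In D Y) :
    |(vx oo up Y Y.length).1| ≤ (D : ℤ) ∧ |(vx oo up Y Y.length).2| ≤ (D : ℤ) := by
  have h1 := h Y.length le_rfl
  have e1 : (oo : Pt).1 = 0 := rfl
  have e2 : (oo : Pt).2 = 0 := rfl
  obtain ⟨h2, h3⟩ := h1
  rw [e1, sub_zero] at h2
  rw [e2, sub_zero] at h3
  exact ⟨h2, h3⟩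

/-- the end of A is near the end of A ++ Y -/
lemma tip_near {D : ℕ} {A Y : List Bool} (hY : In D Y) :
    |(tipv (A ++ Y)).1 - (tipv A).1| ≤ 2 * (D : ℤ) ∧ |(tipv (A ++ Y)).2 - (tipv A).2| ≤ 2 * (D : ℤ) := by
  have h1 : tipv (A ++ Y) = tipv A + mulE (rotTo up (dx up A A.length)) (vx oo up Y Y.length) := by
    unfold tipv
    rw [List.length_append, vx_general]
  obtain ⟨h2, h3⟩ := RevMIn hY
  obtain ⟨h4, h5⟩ := coord_rot (frame_dir (dx_mem up_dirs A A.length)).1 h2 h3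
  rw [h1]
  have e1 : (tipv A + mulE (rotTo up (dx up A A.length)) (vx oo up Y Y.length)).1 - (tipv A).1 =
      (mulE (rotTo up (dx up A A.length)) (vx oo up Y Y.length)).1 := add_sub_cancel_left _ _
  have e2 : (tipv A + mulE (rotTo up (dx up A A.length)) (vx oo up Y Y.length)).2 - (tipv A).2 =
      (mulE (rotTo up (dx up A A.length)) (vx oo up Y Y.length)).2 := add_sub_cancel_left _ _
  rw [e1, e2]
  exact ⟨h4, h5⟩

lemma row_inv {c : Pt} (hc : c ∈ dirs) {v : Pt} {R : ℤ} (h : ∀ dir, |row dir (mulE c v)| ≤ R) (dir : Bool) :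
    |row dir v| ≤ 2 * R + 2 := by
  have h1 := h false
  have h2 := h true
  clear h
  obtain ⟨x, y⟩ := v
  simp only [dirs, mem_insert, mem_singleton] at hc
  unfold row lvl ip hd up at *
  rw [abs_le] at *
  rcases hc with rfl | rfl | rfl | rfl | rfl | rfl <;> cases dir <;>
    simp only [mulE, Bool.false_eq_true, if_false, if_true] at * <;> constructor <;> omega

lemma row_diff {dir : Bool} {p q w : Pt} {R S : ℤ} (h : p = q + w) (hp : |row dir p| ≤ R) (hq : |row dir q| ≤ S) :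
    |row dir w| ≤ R + S + 1 := by
  have h1 : lvl dir p = lvl dir q + lvl dir w := by
    rw [h]
    unfold lvl
    rw [ip_add_left]
  unfold row at *
  rw [abs_le] at *
  constructor <;> omega

/-- the rest of a word of the box, in any frame -/
lemma drop_box {K : ℕ} {t : List Bool} (ht : t ∈ WL K) {a : ℕ} (ha : a ≤ t.length) : t.drop a ∈ WL (K + 3) := by
  refine ⟨SA_drop ht.1 a, fun i hi dir => ?_⟩
  rw [List.length_drop] at hi
  obtain ⟨c, hc, -, hf⟩ := drop_frame' t a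
  have h1 : ∀ dir, |row dir (mulE c (vx oo up (t.drop a) i))| ≤ 2 ^ K + 2 ^ K + 1 := fun dir =>
    row_diff (hf i) (ht.2 (a + i) (by omega) dir) (ht.2 a ha dir)
  have h2 := row_inv hc h1 dir
  have h3 : (1 : ℤ) ≤ 2 ^ K := one_le_pow₀ (by norm_num)
  have h4 : (2 : ℤ) ^ (K + 3) = 8 * 2 ^ K := by rw [pow_add]; ring
  rw [h4]
  omega

/-- **the cut near the start and the decompositions of the right part** -/
lemma cut_of {LL : Set (List Bool)} {ρ : List Bool → List Bool → Prop} {D n1 N c K1 K : ℕ} {q : ℝ}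
    {t X0 H H2 X1 : List Bool} (hloc : LocR D ρ) (ht : t ∈ WL K1) (hK : K1 + 3 ≤ K) (he : t = X0 ++ (H ++ (H2 ++ X1)))
    (hH : H ∈ BU) (hH2 : H2 ∈ BU) (h1 : n1 ≤ hgt H) (h2 : n1 ≤ hgt H2) (h3 : hgt H ≤ 2 ^ N) (hc : RR c ≤ 3 * n1)
    (hLL : ∀ A1 B1, A1 ∈ BU → B1 ∈ BU → H = A1 ++ B1 → X0 ++ A1 ∈ LL)
    (hfar : ∀ i, i ≤ (X0 ++ (H ++ H2)).length → vx oo up t i ∉ Bl (tipv t) (4 * D)) (hq : q ≤ (nD D ρ t : ℝ)) :
    Cut1 LL {R | R ∈ BotS c K ∧ q ≤ (nS (fun A Y => ρ A Y ∧ In D Y) R : ℝ)} n1 (2 ^ N) t := by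
  refine ⟨X0, H, H2 ++ X1, hgt H, he, BU_hgt hH, h1, h3, hLL, fun A1 B1 hA hB hAB => ?_⟩
  obtain ⟨R, hR⟩ : ∃ R, R = B1 ++ (H2 ++ X1) := ⟨_, rfl⟩
  obtain ⟨L0, hL0⟩ : ∃ L0, L0 = X0 ++ A1 := ⟨_, rfl⟩
  have htR : t = L0 ++ R := by
    rw [he, hL0, hR, hAB]
    simp only [List.append_assoc]
  have hlen : L0.length ≤ (X0 ++ (H ++ H2)).length := by
    rw [hL0, hAB]
    simp only [List.length_append]
    omega
  rw [← hR]
  refine ⟨⟨?_, ?_⟩, ?_⟩
  · have h4 := drop_box ht (a := L0.length) (by rw [htR, List.length_append]; omega)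
    rw [htR, List.drop_left' rfl] at h4
    exact ⟨h4.1, fun i hi dir => (h4.2 i hi dir).trans (pow_le_pow_right₀ (by norm_num) hK)⟩
  · have hb := Brd_append (BU_hgt hB) (BU_hgt hH2)
    have hb' := mem_Brd.1 hb
    have e1 : R = (B1 ++ H2) ++ X1 := by rw [hR, List.append_assoc]
    have hl : ∀ i, i ≤ (B1 ++ H2).length → lev R i = lev (B1 ++ H2) i := fun i hi => by
      rw [e1]
      exact lev_append (by omega)
    refine ⟨(B1 ++ H2).length, by rw [e1, List.length_append (as := B1 ++ H2)]; omega, ?_, fun i hi hia => ?_⟩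
    · rw [hl _ le_rfl, hb'.2.2.2]
      have h5 : (n1 : ℤ) ≤ (hgt H2 : ℤ) := by exact_mod_cast h2
      have h6 : (0 : ℤ) ≤ (hgt B1 : ℤ) := Int.natCast_nonneg _
      push_cast
      linarith
    · rw [hl i hia]
      exact (hb'.1 i hi hia).1
  · refine hq.trans ?_
    have key : {Y : List Bool | ∃ A, t = A ++ Y ∧ ρ A Y ∧ In D Y} ⊆
        {Y : List Bool | ∃ A, R = A ++ Y ∧ (ρ A Y ∧ In D Y)} := by
      rintro Y ⟨A, hAY, hρ, hIn⟩
      have hnear := tip_near (A := A) hIn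
      rw [← hAY] at hnear
      obtain ⟨n1, n2⟩ := hnear
      have hle : L0.length ≤ A.length := by
        by_contra hlt
        refine hfar A.length (by omega) ?_
        have e2 : vx oo up t A.length = tipv A := by
          rw [hAY]
          exact vx_append (by omega)
        rw [e2]
        have e3 : ((4 * D : ℕ) : ℤ) = 4 * (D : ℤ) := by push_cast; ring
        refine ⟨?_, ?_⟩
        · rw [abs_sub_comm, e3]
          have : (0 : ℤ) ≤ D := Int.natCast_nonneg D
          linarith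
        · rw [abs_sub_comm, e3]
          have : (0 : ℤ) ≤ D := Int.natCast_nonneg D
          linarith
      obtain ⟨A', hA'⟩ : L0 <+: A := by
        refine List.prefix_of_prefix_length_le (l₃ := t) ?_ ?_ hle
        · rw [htR]
          exact List.prefix_append L0 R
        · rw [hAY]
          exact List.prefix_append A Y
      have hRA : R = A' ++ Y := by
        have h7 : L0 ++ R = L0 ++ (A' ++ Y) := by
          rw [← htR, hAY, ← hA', List.append_assoc]
        exact List.append_cancel_left h7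
      refine ⟨A', hRA, hloc L0 A' Y (fun i hi hmem => ?_) (by rw [hA']; exact hρ), hIn⟩
      rw [hA'] at hmem
      refine hfar i (by omega) ?_
      have e2 : vx oo up t i = vx oo up A i := by
        rw [hAY]
        exact vx_append (by omega)
      rw [e2]
      obtain ⟨m1, m2⟩ := hmem
      have e3 : ((4 * D : ℕ) : ℤ) = 4 * (D : ℤ) := by push_cast; ring
      have hD : (0 : ℤ) ≤ D := Int.natCast_nonneg D
      rw [abs_le] at m1 m2 n1 n2
      refine ⟨?_, ?_⟩
      · rw [e3, abs_le]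
        constructor <;> linarith [m1.1, m1.2, n1.1, n1.2]
      · rw [e3, abs_le]
        constructor <;> linarith [m2.1, m2.2, n2.1, n2.2]
    exact_mod_cast Set.ncard_le_ncard key (fin_dec _ R)

end NgC

end TIP

end HexObs
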