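import Pool.Agent.TIP.DefsM

/-!
TIP, M1: all cuts of the scale b + 1 except few ones are good tips of the scale b.
-/

set_option autoImplicit false

namespace HexObs

namespace TIP

open Finset TS SDN NTW NTA SIM

open scoped ENNReal

/-- a bridge at the end does not change the direction -/
lemma end_dir {X Z : List Bool} (hZ : dx up Z Z.length = up) :
    dx up (X ++ Z) (X ++ Z).length = dx up X X.length := by
  have h0 : ∀ j, dx up (X ++ Z) (X.length + j) = dx (dx up (X ++ Z) X.length) Z j := by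
    intro j
    unfold dx
    rw [ds_shift]
    apply ds_congr
    intro k _
    exact tf_append_right k
  obtain ⟨-, h2⟩ := frame_dir (dx_mem up_dirs (X ++ Z) X.length)
  rw [List.length_append, h0, h2, dx_mulE, hZ, ← h2, dx_append le_rfl]

/-- a bridge at the end: the levels below -/
lemma lev_end_app {X Z : List Bool} (hX : dx up X X.length = up) (hZ : Z ∈ BU) :
    lev (X ++ Z) (X ++ Z).length = lev X X.length + 3 * hgt Z := by
  rw [List.length_append, lev_cat hX, lev_end (BU_hgt hZ)]

/-- the part between two cuts -/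
lemma mid_BU {X Y Z A B : List Bool} {n : ℕ} (h1 : Y ++ Z ∈ BU) (h2 : Z ∈ BU) (hh : hgt (Y ++ Z) ≤ n)
    (hB : B ∈ BU) (he : X ++ Y = A ++ B) (hn : n ≤ hgt B) :
    Y ∈ BU ∧ hgt (Y ++ Z) = hgt Y + hgt Z := by
  have g1 := mem_Brd.1 (BU_hgt h1)
  have g2 := mem_Brd.1 (BU_hgt h2)
  have gB := mem_Brd.1 (BU_hgt hB)
  have hdY : dx up Y Y.length = up := by rw [← end_dir g2.2.2.1, g1.2.2.1]
  have hlY : lev (Y ++ Z) (Y ++ Z).length = lev Y Y.length + 3 * hgt Z := lev_end_app hdY h2
  rw [g1.2.2.2] at hlY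
  have key : ∀ i, 1 ≤ i → i ≤ Y.length → 0 < lev Y i := by
    intro i hi hl
    have := (g1.1 i hi (by rw [List.length_append]; omega)).1
    rwa [lev_append (by omega)] at this
  rcases List.append_eq_append_iff.1 he with ⟨C, hC1, hC2⟩ | ⟨C, hC1, hC2⟩
  · -- A = X ++ C, Y = C ++ B
    by_cases hC : C = []
    · rw [hC, List.nil_append] at hC2
      rw [hC2]
      rw [hC2] at hlY
      refine ⟨hB, ?_⟩
      rw [gB.2.2.2] at hlY
      omega
    · exfalso
      have hCl : 1 ≤ C.length := List.length_pos_iff.2 hC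
      have hdC : dx up C C.length = up := by
        have := end_dir (X := C) gB.2.2.1
        rw [← this, ← hC2, hdY]
      have h5 := lev_end_app hdC hB
      rw [← hC2] at h5
      have h6 := key C.length hCl (by rw [hC2, List.length_append]; omega)
      rw [hC2, lev_append (by omega)] at h6
      omega
  · -- X = A ++ C, B = C ++ Y
    have hdC : dx up C C.length = up := by
      have := end_dir (X := C) hdY
      rw [← this, ← hC2, gB.2.2.1]
    have hT : lev Y Y.length = 3 * ((hgt (Y ++ Z) - hgt Z : ℕ) : ℤ) := by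
      have : 0 ≤ lev Y Y.length := by
        rcases Nat.eq_zero_or_pos Y.length with h | h
        · rw [h, lev_zero]
        · exact (key _ h le_rfl).le
      omega
    have hY : Y ∈ Brd (hgt (Y ++ Z) - hgt Z) := by
      rw [mem_Brd]
      refine ⟨fun i hi hl => ⟨key i hi hl, ?_⟩, ?_, hdY, hT⟩
      · have h6 := (gB.1 (C.length + i) (by omega) (by rw [hC2, List.length_append]; omega)).2
        have h7 := gB.2.2.2
        rw [hC2, List.length_append, lev_cat hdC] at h7
        rw [hC2, lev_cat hdC] at h6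
        omega
      · intro i k hik hk heq
        refine g1.2.1 i k hik (by rw [List.length_append]; omega) ?_
        rw [vx_append (by omega), vx_append (by omega), heq]
    refine ⟨⟨_, hY⟩, ?_⟩
    rw [hgt_eq hY]
    have : hgt Z ≤ hgt (Y ++ Z) := by
      have : 0 ≤ lev Y Y.length := by
        rcases Nat.eq_zero_or_pos Y.length with h | h
        · rw [h, lev_zero]
        · exact (key _ h le_rfl).le
      omega
    omega

open Classical in
lemma mem_cs {b : ℕ} {L : List Bool} {j : ℕ} : j ∈ cs b L ↔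
    j ≤ L.length ∧ L.drop j ∈ BU ∧ hgt (L.drop j) ≤ 2 ^ b ∧ OnB b (L.take j) := by
  unfold cs
  rw [mem_filter, mem_range]
  constructor
  · rintro ⟨h1, h2, h3, h4⟩
    exact ⟨by omega, h2, h3, h4⟩
  · rintro ⟨h1, h2, h3, h4⟩
    exact ⟨by omega, h2, h3, h4⟩

/-- the cuts behind a cut -/
lemma cs_take {b : ℕ} {L : List Bool} {j' j : ℕ} (h' : j' ∈ cs (b + 1) L) (h : j ∈ cs (b + 1) L) (hjj : j' ≤ j)
    (hd : hgt (L.drop j') ≤ hgt (L.drop j) + 2 ^ b) : j' ∈ cs b (L.take j) := by
  rw [mem_cs] at h h' ⊢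
  obtain ⟨a1, a2, a3, a4⟩ := h
  obtain ⟨b1, b2, b3, b4⟩ := h'
  obtain ⟨A, B, c1, c2, c3⟩ := a4
  have e1 : L.drop j' = (L.take j).drop j' ++ L.drop j := by
    have : L.drop j' = (L.take j ++ L.drop j).drop j' := by rw [List.take_append_drop]
    rw [this, List.drop_append_of_le_length]
    rw [List.length_take]
    omega
  have e2 : L.take j' ++ (L.take j).drop j' = L.take j := by
    have : (L.take j).take j' = L.take j' := by rw [List.take_take, min_eq_left hjj]
    rw [← this, List.take_append_drop]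
  obtain ⟨m1, m2⟩ := mid_BU (X := L.take j') (Y := (L.take j).drop j') (Z := L.drop j) (A := A) (B := B) (n := 2 ^ (b + 1))
    (by rw [← e1]; exact b2) a2 (by rw [← e1]; exact b3) c2 (by rw [e2, c1]) c3
  rw [← e1] at m2
  refine ⟨by rw [List.length_take]; omega, m1, by omega, ?_⟩
  rw [List.take_take, min_eq_left hjj]
  obtain ⟨A', B', d1, d2, d3⟩ := b4
  have : (2 : ℕ) ^ b ≤ 2 ^ (b + 1) := Nat.pow_le_pow_right (by norm_num) (by omega)
  exact ⟨A', B', d1, d2, by omega⟩

open Classical in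
/-- counting: the points with less than T points before them, in one class -/
lemma count_lt {S N : Finset ℕ} {T : ℝ} (hT : 0 ≤ T) (hN : N ⊆ S)
    (h : ∀ j ∈ N, ((S.filter fun i => i ≤ j).card : ℝ) < T) : (N.card : ℝ) ≤ T := by
  rcases N.eq_empty_or_nonempty with h0 | h0
  · rw [h0, card_empty, Nat.cast_zero]
    exact hT
  · have h1 := h _ (N.max'_mem h0)
    refine le_trans ?_ h1.le
    exact_mod_cast card_le_card fun i hi => mem_filter.2 ⟨hN hi, N.le_max' i hi⟩

open Classical in
/-- M1: rich cuts -/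
theorem rich' (b : ℕ) (η : ℝ) (L : List Bool) (hη : 0 < η) :
    (((cs (b + 1) L).filter fun j => L.take j ∉ GT b (η / 8)).card : ℝ) ≤ η / 2 * Ub (b + 1) := by
  have hU : (0 : ℝ) ≤ Ub b := (Ub_pos b).le
  have hUU : Ub b ≤ Ub (b + 1) := Ub_mono (by omega)
  set N := (cs (b + 1) L).filter fun j => L.take j ∉ GT b (η / 8) with hN
  have key : ∀ (P : ℕ → Prop), (∀ i ∈ cs (b + 1) L, ∀ j ∈ cs (b + 1) L, P i → P j → hgt (L.drop i) ≤ hgt (L.drop j) + 2 ^ b) →
      ((N.filter P).card : ℝ) ≤ η / 8 * Ub b := by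
    intro P hP
    refine count_lt (S := (cs (b + 1) L).filter P) (by positivity) ?_ fun j hj => ?_
    · intro j hj
      rw [mem_filter, hN, mem_filter] at hj
      rw [mem_filter]
      exact ⟨hj.1.1, hj.2⟩
    · rw [mem_filter, hN, mem_filter] at hj
      obtain ⟨⟨hj1, hj2⟩, hj3⟩ := hj
      have hj4 : ¬ (η / 8 * Ub b ≤ ((cs b (L.take j)).card : ℝ)) := hj2
      refine lt_of_le_of_lt ?_ (not_le.1 hj4)
      have : ((cs (b + 1) L).filter P).filter (fun i => i ≤ j) ⊆ cs b (L.take j) := by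
        intro i hi
        rw [mem_filter, mem_filter] at hi
        exact cs_take hi.1.1 hj1 hi.2 (hP i hi.1.1 j hj1 hi.1.2 hj3)
      exact_mod_cast card_le_card this
  obtain ⟨P, hP⟩ : ∃ P : ℕ → Prop, P = fun j => hgt (L.drop j) ≤ 2 ^ b := ⟨_, rfl⟩
  have k1 := key P fun i _ j _ hi _ => by
    rw [hP] at hi
    have : hgt (L.drop i) ≤ 2 ^ b := hi
    omega
  have k2 := key (fun j => ¬ P j) fun i hi j _ _ hj => by
    rw [hP] at hj
    have hj' : ¬ hgt (L.drop j) ≤ 2 ^ b := hj
    have := (mem_cs.1 hi).2.2.1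
    have e : (2 : ℕ) ^ (b + 1) = 2 ^ b + 2 ^ b := by ring
    omega
  have hc : (N.card : ℝ) ≤ η / 8 * Ub b + η / 8 * Ub b := by
    have h1 : N.card ≤ (N.filter P).card + (N.filter fun j => ¬ P j).card := by
      rw [card_filter_add_card_filter_not]
    have h2 : ((N.filter fun j => ¬ P j).card : ℝ) ≤ η / 8 * Ub b := by convert k2
    have h3 : (N.card : ℝ) ≤ ((N.filter P).card : ℝ) + ((N.filter fun j => ¬ P j).card : ℝ) := by exact_mod_cast h1
    linarith
  have hc' : (N.card : ℝ) ≤ η / 2 * Ub (b + 1) := by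
    have k3 : η * Ub b ≤ η * Ub (b + 1) := mul_le_mul_of_nonneg_left hUU hη.le
    have k4 : 0 ≤ η * Ub b := by positivity
    linarith
  rw [hN] at hc'
  convert hc'

/-- M1: rich cuts -/
theorem rich : RichSt := fun b η L hη _ _ _ => rich' b η L hη

end TIP

end HexObs
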