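import Pool.Agent.TIP.TipOf
import Pool.Agent.TIP.Frame
import Pool.Agent.TIP.Ua6
import Pool.Agent.TIP.Nar

/-!
TIP, M3 (helper98): gluing of a half plane word without cuts at a tip with a free box. The map (L, e) to L ++ e is at most
six to one.
-/

set_option autoImplicit false

namespace HexObs

namespace TIP

open Finset TS SDN NTW NTA SIM

open scoped ENNReal

namespace M3a

/-- products of two sets of words with unique decomposition -/
lemma gf_mul_inj {S T U : Set (List Bool)} (hsub : ∀ X ∈ S, ∀ Y ∈ T, X ++ Y ∈ U)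
    (hinj : ∀ X ∈ S, ∀ X' ∈ S, ∀ Y ∈ T, ∀ Y' ∈ T, X ++ Y = X' ++ Y' → X = X') : gf S * gf T ≤ gf U := by
  have h1 : gf S * gf T = ∑' X : S, ∑' Y : T, wE (X.1 ++ Y.1) := by
    unfold gf
    rw [← ENNReal.tsum_mul_right]
    refine tsum_congr fun X => ?_
    rw [← ENNReal.tsum_mul_left]
    exact tsum_congr fun Y => (wE_append _ _).symm
  rw [h1, ← ENNReal.tsum_prod (f := fun (X : S) (Y : T) => wE (X.1 ++ Y.1))]
  obtain ⟨φ, hφ⟩ : ∃ φ : S × T → U, φ = fun p => ⟨p.1.1 ++ p.2.1, hsub _ p.1.2 _ p.2.2⟩ := ⟨_, rfl⟩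
  have hi : Function.Injective φ := by
    intro p q h
    rw [hφ] at h
    have h2 : p.1.1 ++ p.2.1 = q.1.1 ++ q.2.1 := congrArg Subtype.val h
    have h3 := hinj _ p.1.2 _ q.1.2 _ p.2.2 _ q.2.2 h2
    rw [h3] at h2
    have h4 := List.append_cancel_left h2
    exact Prod.ext (Subtype.ext h3) (Subtype.ext h4)
  have h2 : (fun p : S × T => wE (p.1.1 ++ p.2.1)) = fun p => wE (φ p).1 := by
    rw [hφ]
  rw [h2]
  unfold gf
  exact ENNReal.tsum_comp_le_tsum_of_injective hi (fun W : U => wE W.1)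

/-- a word of the box of radius R in an arbitrary frame -/
lemma bx6_of {R r : ℕ} {u p : Pt} (hu : nrm u = 1) (hR : 2 * R + 1 ≤ r) (h : ∀ dir, |row dir p| ≤ (R : ℤ)) :
    Bx6 r (mulE u p) := by
  have h1 : |ip p up| ≤ 3 * (R : ℤ) + 2 := by
    have := h false
    unfold row lvl hd at this
    rw [abs_le] at this ⊢
    simp only [Bool.false_eq_true, if_false] at this
    constructor <;> omega
  have h2 : |ip p (-1, 0)| ≤ 3 * (R : ℤ) + 2 := by
    have := h true
    unfold row lvl hd at this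
    rw [abs_le] at this ⊢
    simp only [if_true] at this
    constructor <;> omega
  have key : ∀ d ∈ dirs, |ip p d| ≤ 6 * (R : ℤ) + 4 := by
    intro d hd
    have e1 : ip p up = p.1 + 2 * p.2 := by
      simp only [ip, up]
      ring
    have e2 : ip p (-1, 0) = -(2 * p.1 + p.2) := by
      simp only [ip]
      ring
    rw [e1] at h1
    rw [e2] at h2
    rw [abs_le] at h1 h2 ⊢
    have h3 : d = (1, 0) ∨ d = (0, 1) ∨ d = (-1, 1) ∨ d = (-1, 0) ∨ d = (0, -1) ∨ d = (1, -1) := by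
      simpa [dirs] using hd
    rcases h3 with rfl | rfl | rfl | rfl | rfl | rfl <;> simp only [ip] <;> constructor <;> omega
  intro d hd
  have hc : mulE (conjE u) d ∈ dirs := by
    rw [mem_dirs, nrm_mulE, nrm_conjE, hu, one_mul]
    exact mem_dirs.1 hd
  have e : ip (mulE u p) d = ip p (mulE (conjE u) d) := by
    have h4 : ip (mulE u p) (mulE u (mulE (conjE u) d)) = ip p (mulE (conjE u) d) := by
      rw [ip_mulE, hu, one_mul]
    rw [← h4, mulE_assoc, mulE_conjE, hu, mulE_one]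
  rw [e]
  refine (key _ hc).trans ?_
  omega

/-- no collision -/
lemma glue_SA {r R N : ℕ} {A Z e : List Bool} (hL : A ++ Z ∈ SA) (hZ : Z ∈ BU) (hF : Far6 r A Z) (he : e ∈ BAR.NA N)
    (hb : BX R e) (hR : 2 * R + 1 ≤ r) : (A ++ Z) ++ e ∈ SA := by
  obtain ⟨e1, e2⟩ := BAR13.mem_SSt.1 he.1
  have hnu : nrm (UaA.uA (A ++ Z)) = 1 := UaA.nrm_uA _
  refine ⟨fun _ _ _ => Set.mem_univ _, fun i k hik hk => ?_⟩
  rw [List.length_append] at hk
  rcases Nat.lt_or_ge (A ++ Z).length k with h1 | h1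
  · obtain ⟨j, rfl⟩ : ∃ j, k = (A ++ Z).length + j := ⟨k - (A ++ Z).length, by omega⟩
    have hj1 : 1 ≤ j := by omega
    have hj2 : j ≤ e.length := by omega
    rcases Nat.lt_or_ge (A ++ Z).length i with h2 | h2
    · obtain ⟨i', rfl⟩ : ∃ i', i = (A ++ Z).length + i' := ⟨i - (A ++ Z).length, by omega⟩
      rw [vx_general, vx_general]
      intro h
      exact e2 i' j (by omega) hj2 (mulE_inj hnu (add_left_cancel h))
    · rw [vx_append (by omega)]
      rcases Nat.lt_or_ge A.length i with h3 | h3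
      · -- a vertex of Z
        obtain ⟨i', rfl⟩ : ∃ i', i = A.length + i' := ⟨i - A.length, by omega⟩
        rw [List.append_assoc, List.length_append, Nat.add_assoc, vx_general, vx_general]
        intro h
        have h4 := mulE_inj (nrm_rotTo upd (dx_mem upd A A.length)) (add_left_cancel h)
        have h5 : lev Z i' = lev (Z ++ e) (Z.length + j) := by
          unfold lev
          rw [h4]
        rw [lev_cat (mem_Brd.1 (BU_hgt hZ)).2.2.1, lev_end (BU_hgt hZ)] at h5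
        have h6 := (e1 j hj1 hj2).1
        have h7 := ((mem_Brd.1 (BU_hgt hZ)).1 i' (by omega) (by rw [List.length_append] at h2; omega)).2
        omega
      · -- a vertex of A
        intro h
        refine hF i h3 ?_
        have h4 : vx oo up A i = tp (A ++ Z) + mulE (UaA.uA (A ++ Z)) (vx oo up e j) := by
          rw [vx_general] at h
          rw [← vx_append (s := Z) (by omega : i ≤ A.length + 1), h]
          rfl
        rw [h4, add_sub_cancel_left]
        exact bx6_of hnu hR (fun dir => hb j hj2 dir)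
  · rw [vx_append (t := A ++ Z) (s := e) (i := i) (by omega), vx_append (t := A ++ Z) (s := e) (i := k) (by omega)]
    exact hL.inj i k hik h1

/-- uniqueness of the tip, given its direction -/
lemma uniq {b k : ℕ} {L L' e e' : List Bool} (hkb : k + 1 ≤ b) (hL' : ∃ A Z, L' = A ++ Z ∧ OnB b A ∧ Z ∈ BU)
    (he : e ∈ BAR.NA (2 ^ k)) (he' : BAR.Pos e') (hd : tipd L = tipd L') (h : L ++ e = L' ++ e')
    (hle : L.length ≤ L'.length) : L = L' := by
  obtain ⟨e1, e2⟩ := BAR13.mem_SSt.1 he.1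
  obtain ⟨X, rfl⟩ : ∃ X, L' = L ++ X := by
    rcases List.append_eq_append_iff.1 h with ⟨X, h1, -⟩ | ⟨X, h1, -⟩
    · exact ⟨X, h1⟩
    · have h2 := congrArg List.length h1
      rw [List.length_append] at h2
      have h3 : X = [] := List.eq_nil_iff_length_eq_zero.2 (by omega)
      rw [h3, List.append_nil] at h1
      exact ⟨[], by rw [List.append_nil, h1]⟩
  have hX : e = X ++ e' := by
    rw [List.append_assoc] at h
    exact List.append_cancel_left h
  by_contra hne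
  have hXl : 1 ≤ X.length := by
    by_contra hcon
    have h3 : X = [] := List.eq_nil_iff_length_eq_zero.2 (by omega)
    exact hne (by rw [h3, List.append_nil])
  have hdX : dx up X X.length = up := by
    rw [tipd_app] at hd
    have h1 : mulE (rotTo up (tipd L)) up = tipd L := rotTo_apply _ upd
    have h2 : mulE (rotTo up (tipd L)) (dx up X X.length) = mulE (rotTo up (tipd L)) up := by rw [← hd, h1]
    exact mulE_inj (nrm_rotTo upd (tipd_mem L)) h2
  have hpos : ∀ i, 1 ≤ i → i ≤ X.length → 0 < lev X i ∧ lev X i < 3 * 2 ^ k + 2 := by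
    intro i hi hi2
    have h1 := e1 i hi (by rw [hX, List.length_append]; omega)
    rw [hX, lev_append (by omega)] at h1
    push_cast at h1
    exact h1
  obtain ⟨A, Z, hAZ, ⟨A', B, hA, hB, hBh⟩, hZ⟩ := hL'
  have hB' : B ++ Z ∈ BU := BU_app hB hZ
  have hh : 2 ^ b ≤ hgt (B ++ Z) := by
    rw [hgt_app hB hZ]
    omega
  have hpow : (2 : ℤ) ^ k + 1 ≤ 2 ^ b := by
    have h1 : (2 : ℤ) ^ (k + 1) ≤ 2 ^ b := pow_le_pow_right₀ (by norm_num) hkb
    rw [pow_succ] at h1
    have h2 : (1 : ℤ) ≤ 2 ^ k := one_le_pow₀ (by norm_num)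
    omega
  have hhz : (2 : ℤ) ^ b ≤ hgt (B ++ Z) := by exact_mod_cast hh
  obtain ⟨D, hD⟩ : ∃ D, D = B ++ Z := ⟨_, rfl⟩
  rw [hA, List.append_assoc, ← hD] at hAZ
  rw [← hD] at hB' hhz
  have gD := mem_Brd.1 (BU_hgt hB')
  rcases List.append_eq_append_iff.1 hAZ with ⟨C, hC1, hC2⟩ | ⟨C, hC1, hC2⟩
  · -- A' = L ++ C, X = C ++ D
    have hdC : dx up C C.length = up := by
      have := end_dir (X := C) gD.2.2.1
      rw [← this, ← hC2, hdX]
    have h5 := lev_end_app hdC hB'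
    rw [← hC2] at h5
    have h6 := (hpos X.length hXl le_rfl).2
    have h7 : 0 ≤ lev C C.length := by
      rcases Nat.eq_zero_or_pos C.length with h0 | h0
      · rw [h0, lev_zero]
      · have h8 := (hpos C.length h0 (by rw [hC2, List.length_append]; omega)).1
        rw [hC2, lev_append (by omega)] at h8
        exact h8.le
    omega
  · -- L = A' ++ C, D = C ++ X
    have hdC : dx up C C.length = up := by
      have := end_dir (X := C) hdX
      rw [← this, ← hC2, gD.2.2.1]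
    have hT : (3 : ℤ) ∣ lev X X.length := by
      have h1 := lev_mod X X.length
      rw [if_pos (BAR13.even_of_up hdX), sub_zero] at h1
      exact h1
    obtain ⟨z, hz⟩ := hT
    have hz1 : 1 ≤ z := by
      have := (hpos X.length hXl le_rfl).1
      omega
    obtain ⟨n, rfl⟩ : ∃ n : ℕ, z = n := ⟨z.toNat, by omega⟩
    have hXn : X ∈ Brd n := by
      rw [mem_Brd]
      refine ⟨fun i hi hl => ⟨(hpos i hi hl).1, ?_⟩, ?_, hdX, hz⟩
      · have h6 := (gD.1 (C.length + i) (by omega) (by rw [hC2, List.length_append]; omega)).2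
        have h7 := gD.2.2.2
        rw [hC2, List.length_append, lev_cat hdC] at h7
        rw [hC2, lev_cat hdC] at h6
        omega
      · intro i j hij hj heq
        refine e2 i j hij (by rw [hX, List.length_append]; omega) ?_
        rw [hX, vx_append (by omega), vx_append (by omega), heq]
    exact he.2 n (by exact_mod_cast hz1) ⟨X, e', hXn, he', hX⟩

end M3a

open M3a

/-- **the gluing, 6 to 1** -/
theorem m3_glue {P : Set (List Bool)} {M : ℝ≥0∞} {m : ℕ} (hP : Ens P M m) {b k r R : ℕ} (hbm : b ≤ m) (hR : 2 * R + 1 ≤ r)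
    (hk : 2 ^ k ≤ R) (hr : 4 * r ≤ 2 ^ b) :
    gf (FT (Far6 r) P b) * gf {e | e ∈ BAR.NA (2 ^ k) ∧ BX R e} ≤ 6 * M := by
  have hkb : k + 1 ≤ b := by
    by_contra hcon
    have h1 : 2 ^ b ≤ 2 ^ k := Nat.pow_le_pow_right (by norm_num) (by omega)
    omega
  have hRm : R ≤ 2 ^ m := by
    have h1 : 2 ^ b ≤ 2 ^ m := Nat.pow_le_pow_right (by norm_num) hbm
    omega
  obtain ⟨T, hT⟩ : ∃ T : Set (List Bool), T = {e | e ∈ BAR.NA (2 ^ k) ∧ BX R e} := ⟨_, rfl⟩
  rw [← hT]
  have hsub : FT (Far6 r) P b ⊆ ⋃ d ∈ dirs, {L | L ∈ FT (Far6 r) P b ∧ tipd L = d} := by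
    intro L hL
    rw [Set.mem_iUnion₂]
    exact ⟨tipd L, tipd_mem L, hL, rfl⟩
  have hone : ∀ d ∈ dirs, gf {L | L ∈ FT (Far6 r) P b ∧ tipd L = d} * gf T ≤ M := by
    intro d _
    refine le_trans (gf_mul_inj ?_ ?_) (hP.glue R hRm)
    · rintro L ⟨⟨hLP, A, Z, rfl, -, hZ, -, hF⟩, -⟩ e he
      rw [hT] at he
      exact ⟨glue_SA (hP.sa hLP) hZ hF he.1 he.2 hR, A ++ Z, hLP, e, he.2, rfl⟩
    · rintro L ⟨hL, hLd⟩ L' ⟨hL', hLd'⟩ e he e' he' h
      rw [hT] at he he'
      have q : ∀ {L : List Bool}, L ∈ FT (Far6 r) P b → ∃ A Z, L = A ++ Z ∧ OnB b A ∧ Z ∈ BU := by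
        rintro L ⟨-, A, Z, h1, h2, h3, -⟩
        exact ⟨A, Z, h1, h2, h3⟩
      rcases Nat.le_total L.length L'.length with hle | hle
      · exact uniq hkb (q hL') he.1 (BAR.pos_SSt he'.1.1) (hLd.trans hLd'.symm) h hle
      · exact (uniq hkb (q hL) he'.1 (BAR.pos_SSt he.1.1) (hLd'.trans hLd.symm) h.symm hle).symm
  calc gf (FT (Far6 r) P b) * gf T ≤ (∑ d ∈ dirs, gf {L | L ∈ FT (Far6 r) P b ∧ tipd L = d}) * gf T :=
        mul_le_mul' ((gf_mono hsub).trans (BAR.gf_bi_le _ _)) le_rfl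
    _ = ∑ d ∈ dirs, gf {L | L ∈ FT (Far6 r) P b ∧ tipd L = d} * gf T := sum_mul _ _ _
    _ ≤ ∑ _d ∈ dirs, M := sum_le_sum hone
    _ = 6 * M := by
        rw [sum_const, nsmul_eq_mul]
        rfl

/-- **M3** for the hexagonal box -/
theorem m3h : M3h Far6 := by
  obtain ⟨s, c, hc, h⟩ := narrow
  refine ⟨6 / c, s + 2, by positivity, fun P M m hP b k r hbm hr1 hr2 => ?_⟩
  have h1 : 2 ^ (k + (s + 2)) = 4 * 2 ^ (k + s) := by
    rw [show k + (s + 2) = (k + s) + 2 by ring, pow_add]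
    ring
  have h2 : 1 ≤ 2 ^ (k + s) := Nat.one_le_two_pow
  have h3 := m3_glue hP (b := b) (k := k) (r := r) (R := 2 ^ (k + s)) hbm (by omega)
    (Nat.pow_le_pow_right (by norm_num) (by omega)) hr2
  have h4 : {W | W ∈ BAR.NA (2 ^ k) ∧ BX (2 ^ (k + s)) W} = {e | e ∈ BAR.NA (2 ^ k) ∧ BX ((2 ^ (k + s) : ℕ) : ℤ) e} := by
    push_cast
    rfl
  have h5 := h k
  rw [h4] at h5
  have h6 : Xb k ≤ ENNReal.ofReal (1 / c) * gf {e | e ∈ BAR.NA (2 ^ k) ∧ BX ((2 ^ (k + s) : ℕ) : ℤ) e} := by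
    calc Xb k = ENNReal.ofReal (1 / c) * (ENNReal.ofReal c * Xb k) := by
          rw [← mul_assoc, ← ENNReal.ofReal_mul (by positivity), one_div, inv_mul_cancel₀ hc.ne', ENNReal.ofReal_one, one_mul]
      _ ≤ _ := mul_le_mul' le_rfl h5
  calc gf (FT (Far6 r) P b) * Xb k
      ≤ gf (FT (Far6 r) P b) * (ENNReal.ofReal (1 / c) * gf {e | e ∈ BAR.NA (2 ^ k) ∧ BX ((2 ^ (k + s) : ℕ) : ℤ) e}) :=
        mul_le_mul' le_rfl h6
    _ = ENNReal.ofReal (1 / c) * (gf (FT (Far6 r) P b) * gf {e | e ∈ BAR.NA (2 ^ k) ∧ BX ((2 ^ (k + s) : ℕ) : ℤ) e}) := by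
        ring
    _ ≤ ENNReal.ofReal (1 / c) * (6 * M) := mul_le_mul' le_rfl h3
    _ = ENNReal.ofReal (6 / c) * M := by
        rw [← mul_assoc]
        congr 1
        rw [show (6 : ℝ) / c = 1 / c * 6 by ring, ENNReal.ofReal_mul (by positivity)]
        norm_num

end TIP

end HexObs


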