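import Pool.Agent.TIP.M3
import Pool.Agent.TIP.UaZ

/-!
TIP: the tip lemma for families of classes (helper44). The class may depend on the scale: what remains when a low bridge is
removed at the tip lies in the class of the next lower scale.
-/

set_option autoImplicit false

namespace HexObs

namespace TIP

open Finset TS SDN NTW NTA SIM

open scoped ENNReal

/-- families of classes with the total mass M, up to the scale m -/
structure EnsF (P : ℕ → Set (List Bool)) (M : ℝ≥0∞) (m : ℕ) : Prop where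
  sa : ∀ b, P b ⊆ SA
  pre : ∀ b A Z, b + 1 ≤ m → A ++ Z ∈ P (b + 1) → Z ∈ BU → hgt Z ≤ 2 ^ (b + 1) → A ∈ P b
  tot : ∀ b, b ≤ m → gf (P b) ≤ M
  glue : ∀ b R : ℕ, b ≤ m → R ≤ 2 ^ m → gf {t | t ∈ SA ∧ ∃ L ∈ P b, ∃ e, BX R e ∧ t = L ++ e} ≤ M

lemma Ens.fam {P : Set (List Bool)} {M : ℝ≥0∞} {m : ℕ} (h : Ens P M m) : EnsF (fun _ => P) M m :=
  ⟨fun _ => h.sa, fun b A Z hb h1 h2 h3 => h.pre A Z h1 h2 (h3.trans (Nat.pow_le_pow_right (by norm_num) hb)),
    fun _ _ => h.tot, fun _ R _ hR => h.glue R hR⟩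

open Classical in
/-- one step of the recursion for a pair of classes -/
theorem step2F (Fr : List Bool → List Bool → Prop) {P P' : Set (List Bool)} {b : ℕ} {η κ : ℝ} {E : ℝ≥0∞} (hsa : P ⊆ SA)
    (hpre : ∀ A Z, A ++ Z ∈ P → Z ∈ BU → hgt Z ≤ 2 ^ (b + 1) → A ∈ P') (hη : 0 < η) (hκ : 0 < κ)
    (hUA : ∀ A, gf {Z | Z ∈ BU ∧ hgt Z ≤ 2 ^ (b + 1) ∧ A ++ Z ∈ SA ∧ (frN Fr A Z : ℝ) < κ} ≤ E) :
    gf (P ∩ GT (b + 1) η) ≤ ENNReal.ofReal (4 / (η * Ub (b + 1))) * (gf (P' ∩ GT b (η / 8)) * E) +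
      ENNReal.ofReal (Ub (b + 1) / κ) * gf (FT Fr P' (b + 1)) := by
  have hU : (0 : ℝ) < Ub (b + 1) := Ub_pos (b + 1)
  -- exceptional rich cuts
  obtain ⟨Ex, hEx⟩ : ∃ Ex : List Bool → ℕ → Prop, Ex = fun L j => L.take j ∈ GT b (η / 8) ∧
    (frN Fr (L.take j) (L.drop j) : ℝ) < κ := ⟨_, rfl⟩
  obtain ⟨G1, hG1⟩ : ∃ G1 : Set (List Bool), G1 = {L | L ∈ P ∧ L ∈ GT (b + 1) η ∧
    η / 4 * Ub (b + 1) ≤ (((cs (b + 1) L).filter (Ex L)).card : ℝ)} := ⟨_, rfl⟩
  obtain ⟨G2, hG2⟩ : ∃ G2 : Set (List Bool), G2 = {L | L ∈ P ∧ L ∈ GT (b + 1) η ∧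
    ¬ η / 4 * Ub (b + 1) ≤ (((cs (b + 1) L).filter (Ex L)).card : ℝ)} := ⟨_, rfl⟩
  have hcov : P ∩ GT (b + 1) η ⊆ G1 ∪ G2 := by
    rintro L ⟨hL1, hL2⟩
    by_cases h : η / 4 * Ub (b + 1) ≤ (((cs (b + 1) L).filter (Ex L)).card : ℝ)
    · exact Or.inl (by rw [hG1]; exact ⟨hL1, hL2, h⟩)
    · exact Or.inr (by rw [hG2]; exact ⟨hL1, hL2, h⟩)
  have hdrop : ∀ (L : List Bool) (q : ℕ), L ∈ P → L.drop q ∈ BU → hgt (L.drop q) ≤ 2 ^ (b + 1) → L.take q ∈ P' := by
    intro L q hL h1 h2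
    exact hpre (L.take q) (L.drop q) (by rwa [List.take_append_drop]) h1 h2
  -- the first part
  have h1 : ENNReal.ofReal (η / 4 * Ub (b + 1)) * gf G1 ≤ gf (P' ∩ GT b (η / 8)) * E := by
    refine dc (Y := fun A => {Z | Z ∈ BU ∧ hgt Z ≤ 2 ^ (b + 1) ∧ A ++ Z ∈ SA ∧ (frN Fr A Z : ℝ) < κ})
      (fun A _ => hUA A) fun L hL => ?_
    rw [hG1] at hL
    obtain ⟨hL1, -, hL3⟩ := hL
    refine ⟨(cs (b + 1) L).filter (Ex L), ?_, fun q hq => ?_⟩
    · rw [← ENNReal.ofReal_natCast]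
      exact ENNReal.ofReal_le_ofReal hL3
    · rw [mem_filter] at hq
      obtain ⟨hq1, hq2⟩ := hq
      rw [hEx] at hq2
      obtain ⟨hq3, hq4⟩ := hq2
      obtain ⟨c1, c2, c3, -⟩ := mem_cs.1 hq1
      refine ⟨c1, ⟨hdrop L q hL1 c2 c3, hq3⟩, c2, c3, ?_, hq4⟩
      rw [List.take_append_drop]
      exact hsa hL1
  -- the second part
  have h2 : ENNReal.ofReal κ * gf G2 ≤ gf (FT Fr P' (b + 1)) * ENNReal.ofReal (Ub (b + 1)) := by
    refine dc (Y := fun _ => {Z | ∃ n, n ≤ 2 ^ (b + 1) ∧ Z ∈ Brd n}) (fun A _ => gf_BU_le _) fun L hL => ?_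
    rw [hG2] at hL
    obtain ⟨hL1, hL2, hL3⟩ := hL
    -- a rich cut with many free cuts
    obtain ⟨j, hj, hjr, hjk⟩ : ∃ j ∈ cs (b + 1) L, L.take j ∈ GT b (η / 8) ∧ κ ≤ (frN Fr (L.take j) (L.drop j) : ℝ) := by
      by_contra hcon
      have hsub : cs (b + 1) L ⊆ ((cs (b + 1) L).filter fun j => L.take j ∉ GT b (η / 8)) ∪ (cs (b + 1) L).filter (Ex L) := by
        intro j hj
        rw [mem_union, mem_filter, mem_filter]
        by_cases hr : L.take j ∈ GT b (η / 8)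
        · refine Or.inr ⟨hj, ?_⟩
          rw [hEx]
          refine ⟨hr, ?_⟩
          by_contra h3
          exact hcon ⟨j, hj, hr, not_lt.1 h3⟩
        · exact Or.inl ⟨hj, hr⟩
      have h3 := (card_le_card hsub).trans (card_union_le _ _)
      have h4 : ((cs (b + 1) L).card : ℝ) ≤ (((cs (b + 1) L).filter fun j => L.take j ∉ GT b (η / 8)).card : ℝ) +
          (((cs (b + 1) L).filter (Ex L)).card : ℝ) := by exact_mod_cast h3
      have h5 : η * Ub (b + 1) ≤ ((cs (b + 1) L).card : ℝ) := hL2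
      have h6 := rich' b η L hη
      have h7 : 0 < η * Ub (b + 1) := by positivity
      have h8 := not_le.1 hL3
      linarith
    obtain ⟨c1, c2, c3, c4⟩ := mem_cs.1 hj
    -- the free cuts as cuts of L
    refine ⟨(((range ((L.drop j).length + 1)).filter fun i => (L.drop j).take i ∈ BU ∧ (L.drop j).drop i ∈ BU ∧
      Fr (L.take j) ((L.drop j).take i)).image fun i => j + i), ?_, fun q hq => ?_⟩
    · rw [card_image_of_injective _ (fun x y h => Nat.add_left_cancel h), ← ENNReal.ofReal_natCast]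
      exact ENNReal.ofReal_le_ofReal hjk
    · obtain ⟨i, hi, rfl⟩ := mem_image.1 hq
      rw [mem_filter, mem_range, List.length_drop] at hi
      obtain ⟨i1, i2, i3, i4⟩ := hi
      have e1 : L.take (j + i) = L.take j ++ (L.drop j).take i := by rw [List.take_add]
      have e2 : L.drop (j + i) = (L.drop j).drop i := by rw [List.drop_drop]
      have e3 : hgt (L.drop j) = hgt ((L.drop j).take i) + hgt ((L.drop j).drop i) := by
        have := hgt_eq (Brd_append (BU_hgt i2) (BU_hgt i3))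
        rwa [List.take_append_drop] at this
      refine ⟨by omega, ⟨hdrop L (j + i) hL1 (by rw [e2]; exact i3) (by rw [e2]; omega), L.take j, (L.drop j).take i, e1, c4,
        i2, by omega, i4⟩, ?_⟩
      rw [e2]
      exact ⟨_, by omega, BU_hgt i3⟩
  -- the sum
  have k1 : gf G1 ≤ ENNReal.ofReal (4 / (η * Ub (b + 1))) * (gf (P' ∩ GT b (η / 8)) * E) := by
    have e : ENNReal.ofReal (4 / (η * Ub (b + 1))) * ENNReal.ofReal (η / 4 * Ub (b + 1)) = 1 := by
      rw [← ENNReal.ofReal_mul (by positivity), ← ENNReal.ofReal_one]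
      congr 1
      field_simp
    calc gf G1 = ENNReal.ofReal (4 / (η * Ub (b + 1))) * (ENNReal.ofReal (η / 4 * Ub (b + 1)) * gf G1) := by
          rw [← mul_assoc, e, one_mul]
      _ ≤ _ := mul_le_mul_right h1 _
  have k2 : gf G2 ≤ ENNReal.ofReal (Ub (b + 1) / κ) * gf (FT Fr P' (b + 1)) := by
    have e : ENNReal.ofReal κ⁻¹ * ENNReal.ofReal κ = 1 := by
      rw [← ENNReal.ofReal_mul (by positivity), ← ENNReal.ofReal_one]
      congr 1
      field_simp
    calc gf G2 = ENNReal.ofReal κ⁻¹ * (ENNReal.ofReal κ * gf G2) := by rw [← mul_assoc, e, one_mul]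
      _ ≤ ENNReal.ofReal κ⁻¹ * (gf (FT Fr P' (b + 1)) * ENNReal.ofReal (Ub (b + 1))) := mul_le_mul_right h2 _
      _ = _ := by
          rw [mul_comm (gf (FT Fr P' (b + 1))), ← mul_assoc, ← ENNReal.ofReal_mul (by positivity)]
          congr 2
          rw [div_eq_mul_inv, mul_comm]
  exact (gf_mono hcov).trans ((gf_union_le _ _).trans (add_le_add k1 k2))

open M3a

/-- the gluing, 6 to 1 -/
theorem m3_glueF {P : Set (List Bool)} {M : ℝ≥0∞} {b k r R : ℕ} (hsa : P ⊆ SA)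
    (hgl : gf {t | t ∈ SA ∧ ∃ L ∈ P, ∃ e, BX R e ∧ t = L ++ e} ≤ M) (hR : 2 * R + 1 ≤ r)
    (hk : 2 ^ k ≤ R) (hr : 4 * r ≤ 2 ^ b) :
    gf (FT (Far6 r) P b) * gf {e | e ∈ BAR.NA (2 ^ k) ∧ BX R e} ≤ 6 * M := by
  have hkb : k + 1 ≤ b := by
    by_contra hcon
    have h1 : 2 ^ b ≤ 2 ^ k := Nat.pow_le_pow_right (by norm_num) (by omega)
    omega
  obtain ⟨T, hT⟩ : ∃ T : Set (List Bool), T = {e | e ∈ BAR.NA (2 ^ k) ∧ BX R e} := ⟨_, rfl⟩
  rw [← hT]
  have hsub : FT (Far6 r) P b ⊆ ⋃ d ∈ dirs, {L | L ∈ FT (Far6 r) P b ∧ tipd L = d} := by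
    intro L hL
    rw [Set.mem_iUnion₂]
    exact ⟨tipd L, tipd_mem L, hL, rfl⟩
  have hone : ∀ d ∈ dirs, gf {L | L ∈ FT (Far6 r) P b ∧ tipd L = d} * gf T ≤ M := by
    intro d _
    refine le_trans (gf_mul_inj ?_ ?_) hgl
    · rintro L ⟨⟨hLP, A, Z, rfl, -, hZ, -, hF⟩, -⟩ e he
      rw [hT] at he
      exact ⟨glue_SA (hsa hLP) hZ hF he.1 he.2 hR, A ++ Z, hLP, e, he.2, rfl⟩
    · rintro L ⟨hL, hLd⟩ L' ⟨hL', hLd'⟩ e he e' he' h
      rw [hT] at he he'
      have q : ∀ {L : List Bool}, L ∈ FT (Far6 r) P b → ∃ A Z, L = A ++ Z ∧ OnB b A ∧ Z ∈ BU := by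
        rintro L ⟨-, A, Z, h1, h2, h3, -⟩
        exact ⟨A, Z, h1, h2, h3⟩
      rcases Nat.le_total L.length L'.length with hle | hle
      · exact uniq hkb (q hL') he.1 (BAR.pos_SSt he'.1.1) (hLd.trans hLd'.symm) h hle
      · exact (uniq hkb (q hL) he'.1 (BAR.pos_SSt he.1.1) (hLd'.trans hLd.symm) h.symm hle).symm
  calc gf (FT (Far6 r) P b) * gf T ≤ (∑ d ∈ dirs, gf {L | L ∈ FT (Far6 r) P b ∧ tipd L = d}) * gf T :=
        mul_le_mul' ((gf_mono hsub).trans (BAR.gf_bi_le _ _)) le_rfl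
    _ = ∑ d ∈ dirs, gf {L | L ∈ FT (Far6 r) P b ∧ tipd L = d} * gf T := sum_mul _ _ _
    _ ≤ ∑ _d ∈ dirs, M := sum_le_sum hone
    _ = 6 * M := by
        rw [sum_const, nsmul_eq_mul]
        rfl

/-- M3 for a class of words: only the gluing bound at the scale R = 2 ^ (k + s) is used -/
theorem m3F : ∃ (C : ℝ) (s : ℕ), 0 < C ∧ ∀ (P : Set (List Bool)) (M : ℝ≥0∞) (b k r : ℕ), P ⊆ SA →
    gf {t | t ∈ SA ∧ ∃ L ∈ P, ∃ e, BX ((2 ^ (k + s) : ℕ) : ℤ) e ∧ t = L ++ e} ≤ M → 2 ^ (k + s + 2) + 1 ≤ r → 4 * r ≤ 2 ^ b →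
      gf (FT (Far6 r) P b) * Xb k ≤ ENNReal.ofReal C * M := by
  obtain ⟨s, c, hc, h⟩ := narrow
  refine ⟨6 / c, s, by positivity, fun P M b k r hsa hgl hr1 hr2 => ?_⟩
  have h1 : 2 ^ (k + s + 2) = 4 * 2 ^ (k + s) := by
    rw [pow_add]
    ring
  have h2 : 1 ≤ 2 ^ (k + s) := Nat.one_le_two_pow
  have h3 := m3_glueF (b := b) (k := k) (r := r) (R := 2 ^ (k + s)) hsa hgl (by omega)
    (Nat.pow_le_pow_right (by norm_num) (by omega)) hr2
  have h4 : {W | W ∈ BAR.NA (2 ^ k) ∧ BX (2 ^ (k + s)) W} = {e | e ∈ BAR.NA (2 ^ k) ∧ BX ((2 ^ (k + s) : ℕ) : ℤ) e} := by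
    push_cast
    rfl
  have h5 := h k
  rw [h4] at h5
  have h6 : Xb k ≤ ENNReal.ofReal (1 / c) * gf {e | e ∈ BAR.NA (2 ^ k) ∧ BX ((2 ^ (k + s) : ℕ) : ℤ) e} := by
    calc Xb k = ENNReal.ofReal (1 / c) * (ENNReal.ofReal c * Xb k) := by
          rw [← mul_assoc, ← ENNReal.ofReal_mul (by positivity), one_div, inv_mul_cancel₀ hc.ne', ENNReal.ofReal_one, one_mul]
      _ ≤ _ := mul_le_mul' le_rfl h5
  calc gf (FT (Far6 r) P b) * Xb k
      ≤ gf (FT (Far6 r) P b) * (ENNReal.ofReal (1 / c) * gf {e | e ∈ BAR.NA (2 ^ k) ∧ BX ((2 ^ (k + s) : ℕ) : ℤ) e}) :=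
        mul_le_mul' le_rfl h6
    _ = ENNReal.ofReal (1 / c) * (gf (FT (Far6 r) P b) * gf {e | e ∈ BAR.NA (2 ^ k) ∧ BX ((2 ^ (k + s) : ℕ) : ℤ) e}) := by
        ring
    _ ≤ ENNReal.ofReal (1 / c) * (6 * M) := mul_le_mul' le_rfl h3
    _ = ENNReal.ofReal (6 / c) * M := by
        rw [← mul_assoc]
        congr 1
        rw [show (6 : ℝ) / c = 1 / c * 6 by ring, ENNReal.ofReal_mul (by positivity)]
        norm_num

/-- **the tip lemma for families** -/
theorem tipF (η0 : ℝ) (hη0 : 0 < η0) : ∃ C : ℝ, 0 < C ∧ ∀ (P : ℕ → Set (List Bool)) (M : ℝ≥0∞) (m : ℕ), EnsF P M m →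
    ∀ b : ℕ, b ≤ m → gf (P b ∩ GT b η0) * Xb b ≤ ENNReal.ofReal C * M := by
  have hUA : UAh Far6 := uah6
  obtain ⟨η, hη, hη1, hηle⟩ : ∃ η : ℝ, 0 < η ∧ η ≤ 1 ∧ η ≤ η0 := ⟨min η0 1, lt_min hη0 one_pos, min_le_right _ _, min_le_left _ _⟩
  obtain ⟨CU, κ0, r0, hCU, hκ0, hUA⟩ := hUA
  obtain ⟨C0, s, hC0, hM3⟩ := m3F
  obtain ⟨CX, hCX, hX⟩ := XDbl.pow xDbl
  obtain ⟨X0, hX0, hX0'⟩ : ∃ X0 : ℝ, 0 ≤ X0 ∧ Xb 0 = ENNReal.ofReal X0 :=
    ⟨(Xb 0).toReal, ENNReal.toReal_nonneg, (ENNReal.ofReal_toReal (Xb_ne_top 0)).symm⟩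
  obtain ⟨B, hB⟩ := Ub_big
  obtain ⟨C1, hC1⟩ : ∃ C1 : ℝ, C1 = CX + X0 + 1 := ⟨_, rfl⟩
  obtain ⟨e0, he0⟩ : ∃ e0 : ℕ, e0 = r0 + s + 3 := ⟨_, rfl⟩
  obtain ⟨Y, hY⟩ : ∃ Y : ℝ, Y = 4 / κ0 * CX ^ (5 + s) * C0 := ⟨_, rfl⟩
  obtain ⟨Cc, hCc⟩ : ∃ Cc : ℝ, Cc = C1 ^ (e0 + 3) + 8 * CU * CX + (Y + 1) * (2 * CX) + C1 := ⟨_, rfl⟩
  have hC11 : 1 ≤ C1 := by linarith
  have hY0 : 0 ≤ Y := by rw [hY]; positivity
  have q1 : 0 ≤ C1 ^ (e0 + 3) := by positivity
  have q2 : 0 ≤ 8 * CU * CX := by positivity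
  have q3 : 0 ≤ (Y + 1) * (2 * CX) := by positivity
  have hCc1 : 1 ≤ Cc := by linarith
  have p1 : C1 ^ (e0 + 3) ≤ Cc := by linarith
  have p2 : 8 * CU * CX ≤ Cc := by linarith
  have p3 : (Y + 1) * (2 * CX) ≤ Cc := by linarith
  have p4 : C1 ≤ Cc := by linarith
  obtain ⟨lam, hlam⟩ : ∃ lam : ℝ, lam = (2 : ℝ) ^ kap0 := ⟨_, rfl⟩
  have hlam1 : 1 < lam := by
    rw [hlam]
    exact Real.one_lt_rpow (by norm_num) kap0_pos
  obtain ⟨A, hA, hiter⟩ := iter hCc1 hlam1 B hη hη1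
  refine ⟨A + 1, by linarith, fun P M m hP b hb => ?_⟩
  -- the trivial cases
  rcases eq_or_ne M 0 with hM0 | hM0
  · have h1 : gf (P b ∩ GT b η0) = 0 := by
      refine le_antisymm ((gf_mono Set.inter_subset_left).trans ((hP.tot b hb).trans hM0.le)) zero_le
    rw [h1, zero_mul]
    exact zero_le
  rcases eq_or_ne M ⊤ with hMt | hMt
  · rw [hMt, ENNReal.mul_top (by simpa using (by linarith : (0 : ℝ) < A + 1))]
    exact le_top
  have hMI : M * M⁻¹ = 1 := ENNReal.mul_inv_cancel hM0 hMt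
  have hXall : ∀ b, Xb b ≤ ENNReal.ofReal (C1 ^ (b + 1)) := by
    intro b
    have h1 := hX 0 b
    rw [zero_add, hX0', ← ENNReal.ofReal_mul (by positivity)] at h1
    refine h1.trans (ENNReal.ofReal_le_ofReal ?_)
    rw [pow_succ]
    have h2 : CX ^ b ≤ C1 ^ b := pow_le_pow_left₀ (by linarith) (by linarith) _
    have h3 : X0 ≤ C1 := by linarith
    exact mul_le_mul h2 h3 hX0 (by positivity)
  obtain ⟨D, hD⟩ : ∃ D : ℕ → ℝ → ℝ≥0∞, D = fun b η' => if b ≤ m then gf (P b ∩ GT b η') * Xb b * M⁻¹ else 0 := ⟨_, rfl⟩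
  have hcr : ∀ (b : ℕ) (η' : ℝ), D b η' ≤ ENNReal.ofReal (C1 ^ (b + 1)) := by
    intro b η'
    rw [hD]
    by_cases h : b ≤ m
    · show (if b ≤ m then _ else _) ≤ _
      rw [if_pos h]
      calc gf (P b ∩ GT b η') * Xb b * M⁻¹ ≤ M * ENNReal.ofReal (C1 ^ (b + 1)) * M⁻¹ := by
            gcongr
            · exact (gf_mono Set.inter_subset_left).trans (hP.tot b h)
            · exact hXall b
        _ = ENNReal.ofReal (C1 ^ (b + 1)) * (M * M⁻¹) := by ring
        _ = _ := by rw [hMI, mul_one]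
    · show (if b ≤ m then _ else _) ≤ _
      rw [if_neg h]
      exact zero_le
  have hfin : D b η ≤ ENNReal.ofReal A := by
    refine hiter Ub D hB (fun b η' _ => ?_) (fun b η' j hη' hη'1 _ hj hjb => ?_) b
    · exact (hcr b η').trans (ENNReal.ofReal_le_ofReal (pow_le_pow_left₀ (by linarith) p4 _))
    · by_cases hbm : b ≤ m
      swap
      · rw [hD]
        show (if b ≤ m then _ else _) ≤ _
        rw [if_neg hbm]
        exact zero_le
      by_cases hbj : b < j + 2 + e0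
      · -- few scales
        refine le_trans ?_ le_add_self
        refine (hcr b η').trans (ENNReal.ofReal_le_ofReal ?_)
        have h1 : C1 ^ (b + 1) ≤ (C1 ^ (e0 + 3)) ^ j := by
          rw [← pow_mul]
          refine pow_le_pow_right₀ hC11 ?_
          nlinarith
        have h2 : (C1 ^ (e0 + 3)) ^ j ≤ Cc ^ j := pow_le_pow_left₀ q1 p1 _
        have h3 : Cc ^ j ≤ Cc ^ j / η' := by
          rw [le_div_iff₀ hη']
          have : 0 ≤ Cc ^ j := by positivity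
          nlinarith
        linarith
      · -- the main case
        obtain ⟨e, he⟩ : ∃ e, b = e + (j + 2) := ⟨b - (j + 2), by omega⟩
        obtain ⟨k, hk⟩ : ∃ k, e = k + (s + 3) := ⟨e - (s + 3), by omega⟩
        obtain ⟨b', hb'⟩ : ∃ b', b = b' + 1 := ⟨b - 1, by omega⟩
        have hr0 : r0 ≤ 2 ^ e := by
          have h1 : r0 < 2 ^ r0 := Nat.lt_two_pow_self
          have h2 : (2 : ℕ) ^ r0 ≤ 2 ^ e := Nat.pow_le_pow_right (by norm_num) (by omega)
          omega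
        have hUe : (0 : ℝ) < Ub e := Ub_pos e
        have hUbb : (0 : ℝ) < Ub b := Ub_pos b
        have hst := step2F (Far6 (2 ^ e)) (P := P (b' + 1)) (P' := P b') (b := b') (η := η') (κ := κ0 * UU (2 ^ e))
          (E := ENNReal.ofReal (CU * UU (2 ^ e))) (hP.sa _) (fun A Z => hP.pre b' A Z (by omega)) hη' (mul_pos hκ0 hUe)
          (fun A => hUA (2 ^ e) hr0 (2 ^ (b' + 1)) A)
        rw [← hb'] at hst
        have hgl := hM3 (P b') M b k (2 ^ e) (hP.sa _) (hP.glue b' (2 ^ (k + s)) (by omega)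
            (Nat.pow_le_pow_right (by norm_num) (by omega))) (by
            have e1 : 2 ^ e = 2 * 2 ^ (k + s + 2) := by
              rw [hk, show k + (s + 3) = (k + s + 2) + 1 by ring, Nat.pow_succ]
              ring
            have : 1 ≤ 2 ^ (k + s + 2) := Nat.one_le_two_pow
            omega) (by
            have h1 : (4 : ℕ) * 2 ^ e = 2 ^ (e + 2) := by ring
            rw [h1]
            exact Nat.pow_le_pow_right (by norm_num) (by omega))
        have hXb1 : Xb b ≤ ENNReal.ofReal CX * Xb b' := by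
          have := hX b' 1
          rwa [← hb', pow_one] at this
        have hXb2 : Xb b ≤ ENNReal.ofReal (CX ^ (j + 5 + s)) * Xb k := by
          have := hX k (j + 5 + s)
          rwa [show k + (j + 5 + s) = b by omega] at this
        have hDb : D b η' = gf (P b ∩ GT b η') * Xb b * M⁻¹ := by
          rw [hD]
          show (if b ≤ m then _ else _) = _
          rw [if_pos hbm]
        have hDb' : D (b - 1) (η' / 8) = gf (P b' ∩ GT b' (η' / 8)) * Xb b' * M⁻¹ := by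
          rw [hD]
          show (if b - 1 ≤ m then _ else _) = _
          rw [if_pos (by omega), show b - 1 = b' by omega]
        -- the numbers
        have n1 : 4 / (η' * Ub b) * (CU * UU (2 ^ e)) * CX ≤ Cc / (η' * lam ^ j) := by
          have hrat := GB.Ub_ratio_down (show e ≤ b by omega)
          have h1 : (2 : ℝ) ^ (-(kap0 * ((b : ℝ) - e))) ≤ (lam ^ j)⁻¹ := by
            rw [hlam, ← Real.rpow_natCast, ← Real.rpow_mul (by norm_num), ← Real.rpow_neg (by norm_num)]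
            refine Real.rpow_le_rpow_of_exponent_le (by norm_num) ?_
            have : (b : ℝ) = e + (j + 2) := by rw [he]; push_cast; ring
            have := kap0_pos
            nlinarith
          have hl0 : (0 : ℝ) < lam ^ j := by positivity
          have h2 : Ub e / Ub b ≤ 2 * (lam ^ j)⁻¹ := by linarith
          have e1 : 4 / (η' * Ub b) * (CU * UU (2 ^ e)) * CX = 4 * CU * CX / η' * (Ub e / Ub b) := by
            show 4 / (η' * Ub b) * (CU * Ub e) * CX = _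
            field_simp
          rw [e1]
          calc 4 * CU * CX / η' * (Ub e / Ub b) ≤ 4 * CU * CX / η' * (2 * (lam ^ j)⁻¹) :=
                mul_le_mul_of_nonneg_left h2 (by positivity)
            _ = 8 * CU * CX / (η' * lam ^ j) := by
                field_simp
                ring
            _ ≤ _ := by gcongr
        have n2 : Ub b / (κ0 * UU (2 ^ e)) * (CX ^ (j + 5 + s) * C0) ≤ Cc ^ j / η' := by
          have h1 : Ub b ≤ 2 ^ (j + 2) * Ub e := by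
            rw [he]
            exact Ub_steps e (j + 2)
          have h2 : Ub b / (κ0 * UU (2 ^ e)) ≤ 2 ^ (j + 2) / κ0 := by
            show Ub b / (κ0 * Ub e) ≤ _
            rw [div_le_div_iff₀ (by positivity) hκ0]
            nlinarith
          have h3 : 2 ^ (j + 2) / κ0 * (CX ^ (j + 5 + s) * C0) = Y * (2 * CX) ^ j := by
            rw [hY, mul_pow, pow_add, pow_add (a := CX), pow_add (a := CX), pow_add (a := CX)]
            ring
          have h4 : Y * (2 * CX) ^ j ≤ ((Y + 1) * (2 * CX)) ^ j := by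
            rw [mul_pow (Y + 1)]
            have h5 : Y ≤ (Y + 1) ^ j := by
              calc Y ≤ (Y + 1) ^ 1 := by linarith
                _ ≤ (Y + 1) ^ j := pow_le_pow_right₀ (by linarith) hj
            exact mul_le_mul_of_nonneg_right h5 (by positivity)
          have h5 : ((Y + 1) * (2 * CX)) ^ j ≤ Cc ^ j := pow_le_pow_left₀ q3 p3 _
          have h6 : Cc ^ j ≤ Cc ^ j / η' := by
            rw [le_div_iff₀ hη']
            have : 0 ≤ Cc ^ j := by positivity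
            nlinarith
          calc Ub b / (κ0 * UU (2 ^ e)) * (CX ^ (j + 5 + s) * C0) ≤ 2 ^ (j + 2) / κ0 * (CX ^ (j + 5 + s) * C0) :=
                mul_le_mul_of_nonneg_right h2 (by positivity)
            _ ≤ _ := by
                rw [h3]
                linarith
        rw [hDb, hDb']
        calc gf (P b ∩ GT b η') * Xb b * M⁻¹
            ≤ (ENNReal.ofReal (4 / (η' * Ub b)) * (gf (P b' ∩ GT b' (η' / 8)) * ENNReal.ofReal (CU * UU (2 ^ e))) +
              ENNReal.ofReal (Ub b / (κ0 * UU (2 ^ e))) * gf (FT (Far6 (2 ^ e)) (P b') b)) * Xb b * M⁻¹ := by gcongr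
          _ = ENNReal.ofReal (4 / (η' * Ub b)) * (gf (P b' ∩ GT b' (η' / 8)) * ENNReal.ofReal (CU * UU (2 ^ e))) * Xb b * M⁻¹ +
              ENNReal.ofReal (Ub b / (κ0 * UU (2 ^ e))) * gf (FT (Far6 (2 ^ e)) (P b') b) * Xb b * M⁻¹ := by ring
          _ ≤ ENNReal.ofReal (Cc / (η' * lam ^ j)) * (gf (P b' ∩ GT b' (η' / 8)) * Xb b' * M⁻¹) +
              ENNReal.ofReal (Cc ^ j / η') := by
              refine add_le_add ?_ ?_
              · calc ENNReal.ofReal (4 / (η' * Ub b)) * (gf (P b' ∩ GT b' (η' / 8)) * ENNReal.ofReal (CU * UU (2 ^ e))) *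
                      Xb b * M⁻¹
                    ≤ ENNReal.ofReal (4 / (η' * Ub b)) * (gf (P b' ∩ GT b' (η' / 8)) * ENNReal.ofReal (CU * UU (2 ^ e))) *
                      (ENNReal.ofReal CX * Xb b') * M⁻¹ := by gcongr
                  _ = ENNReal.ofReal (4 / (η' * Ub b)) * ENNReal.ofReal (CU * UU (2 ^ e)) * ENNReal.ofReal CX *
                      (gf (P b' ∩ GT b' (η' / 8)) * Xb b' * M⁻¹) := by ring
                  _ = ENNReal.ofReal (4 / (η' * Ub b) * (CU * UU (2 ^ e)) * CX) *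
                      (gf (P b' ∩ GT b' (η' / 8)) * Xb b' * M⁻¹) := by
                      have hUe' : (0 : ℝ) < UU (2 ^ e) := hUe
                      rw [← ENNReal.ofReal_mul (by positivity), ← ENNReal.ofReal_mul (by positivity)]
                  _ ≤ _ := mul_le_mul_left (ENNReal.ofReal_le_ofReal n1) _
              · calc ENNReal.ofReal (Ub b / (κ0 * UU (2 ^ e))) * gf (FT (Far6 (2 ^ e)) (P b') b) * Xb b * M⁻¹
                    ≤ ENNReal.ofReal (Ub b / (κ0 * UU (2 ^ e))) * gf (FT (Far6 (2 ^ e)) (P b') b) *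
                      (ENNReal.ofReal (CX ^ (j + 5 + s)) * Xb k) * M⁻¹ := by gcongr
                  _ = ENNReal.ofReal (Ub b / (κ0 * UU (2 ^ e))) * ENNReal.ofReal (CX ^ (j + 5 + s)) *
                      (gf (FT (Far6 (2 ^ e)) (P b') b) * Xb k) * M⁻¹ := by ring
                  _ ≤ ENNReal.ofReal (Ub b / (κ0 * UU (2 ^ e))) * ENNReal.ofReal (CX ^ (j + 5 + s)) *
                      (ENNReal.ofReal C0 * M) * M⁻¹ := by gcongr
                  _ = ENNReal.ofReal (Ub b / (κ0 * UU (2 ^ e))) * (ENNReal.ofReal (CX ^ (j + 5 + s)) *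
                      ENNReal.ofReal C0) * (M * M⁻¹) := by ring
                  _ = ENNReal.ofReal (Ub b / (κ0 * UU (2 ^ e)) * (CX ^ (j + 5 + s) * C0)) := by
                      have hUe' : (0 : ℝ) < UU (2 ^ e) := hUe
                      rw [hMI, mul_one, ← ENNReal.ofReal_mul (by positivity), ← ENNReal.ofReal_mul (by positivity)]
                  _ ≤ _ := ENNReal.ofReal_le_ofReal n2
  -- the conclusion
  have h1 : D b η = gf (P b ∩ GT b η) * Xb b * M⁻¹ := by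
    rw [hD]
    show (if b ≤ m then _ else _) = _
    rw [if_pos hb]
  rw [h1] at hfin
  have h2 : P b ∩ GT b η0 ⊆ P b ∩ GT b η := by
    rintro L ⟨a1, a2⟩
    refine ⟨a1, ?_⟩
    have a3 : η0 * Ub b ≤ ((cs b L).card : ℝ) := a2
    have a4 : (0 : ℝ) < Ub b := Ub_pos b
    show η * Ub b ≤ ((cs b L).card : ℝ)
    nlinarith
  calc gf (P b ∩ GT b η0) * Xb b ≤ gf (P b ∩ GT b η) * Xb b := mul_le_mul_left (gf_mono h2) _
    _ = gf (P b ∩ GT b η) * Xb b * M⁻¹ * M := by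
        rw [mul_assoc (gf (P b ∩ GT b η) * Xb b), mul_comm M⁻¹, hMI, mul_one]
    _ ≤ ENNReal.ofReal A * M := mul_le_mul_left hfin _
    _ ≤ _ := mul_le_mul_left (ENNReal.ofReal_le_ofReal (by linarith)) _

end TIP

end HexObs
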