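import Pool.Agent.TIP.M3

/-!
TIP, M3 for a class of words P (helper98): only P inside SA and the mass of the glued words are used (no prefix property).
-/

set_option autoImplicit false

namespace HexObs

namespace TIP

open Finset TS SDN NTW NTA SIM

open scoped ENNReal

open M3a

/-- **the gluing, 6 to 1**, for a class of words -/
theorem m3_glueC {P : Set (List Bool)} {M : ℝ≥0∞} (hsa : P ⊆ SA) {b k r R : ℕ}
    (hg : gf {t | t ∈ SA ∧ ∃ L ∈ P, ∃ e, BX R e ∧ t = L ++ e} ≤ M) (hR : 2 * R + 1 ≤ r) (hk : 2 ^ k ≤ R) (hr : 4 * r ≤ 2 ^ b) :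
    gf (FT (Far6 r) P b) * gf {e | e ∈ BAR.NA (2 ^ k) ∧ BX R e} ≤ 6 * M := by
  have hkb : k + 1 ≤ b := by
    by_contra hcon
    have h1 : 2 ^ b ≤ 2 ^ k := Nat.pow_le_pow_right (by norm_num) (by omega)
    omega
  obtain ⟨T, hT⟩ : ∃ T : Set (List Bool), T = {e | e ∈ BAR.NA (2 ^ k) ∧ BX R e} := ⟨_, rfl⟩
  rw [← hT]
  have hsub : FT (Far6 r) P b ⊆ ⋃ d ∈ dirs, {L | L ∈ FT (Far6 r) P b ∧ tipd L = d} := by
    intro L hL
    rw [Set.mem_iUnion₂]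
    exact ⟨tipd L, tipd_mem L, hL, rfl⟩
  have hone : ∀ d ∈ dirs, gf {L | L ∈ FT (Far6 r) P b ∧ tipd L = d} * gf T ≤ M := by
    intro d _
    refine le_trans (gf_mul_inj ?_ ?_) hg
    · rintro L ⟨⟨hLP, A, Z, rfl, -, hZ, -, hF⟩, -⟩ e he
      rw [hT] at he
      exact ⟨glue_SA (hsa hLP) hZ hF he.1 he.2 hR, A ++ Z, hLP, e, he.2, rfl⟩
    · rintro L ⟨hL, hLd⟩ L' ⟨hL', hLd'⟩ e he e' he' h
      rw [hT] at he he'
      have q : ∀ {L : List Bool}, L ∈ FT (Far6 r) P b → ∃ A Z, L = A ++ Z ∧ OnB b A ∧ Z ∈ BU := by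
        rintro L ⟨-, A, Z, h1, h2, h3, -⟩
        exact ⟨A, Z, h1, h2, h3⟩
      rcases Nat.le_total L.length L'.length with hle | hle
      · exact uniq hkb (q hL') he.1 (BAR.pos_SSt he'.1.1) (hLd.trans hLd'.symm) h hle
      · exact (uniq hkb (q hL) he'.1 (BAR.pos_SSt he.1.1) (hLd'.trans hLd.symm) h.symm hle).symm
  calc gf (FT (Far6 r) P b) * gf T ≤ (∑ d ∈ dirs, gf {L | L ∈ FT (Far6 r) P b ∧ tipd L = d}) * gf T :=
        mul_le_mul' ((gf_mono hsub).trans (BAR.gf_bi_le _ _)) le_rfl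
    _ = ∑ d ∈ dirs, gf {L | L ∈ FT (Far6 r) P b ∧ tipd L = d} * gf T := sum_mul _ _ _
    _ ≤ ∑ _d ∈ dirs, M := sum_le_sum hone
    _ = 6 * M := by
        rw [sum_const, nsmul_eq_mul]
        rfl

/-- **M3** for a class of words: P inside SA, the words L ++ e with L in P and e in the box 2 ^ (k + s) have the mass M -/
theorem m3c : ∃ (C : ℝ) (s : ℕ), 0 < C ∧ ∀ (P : Set (List Bool)) (M : ℝ≥0∞), P ⊆ SA → ∀ b k r : ℕ,
    2 ^ (k + s) + 1 ≤ r → 4 * r ≤ 2 ^ b →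
    gf {t | t ∈ SA ∧ ∃ L ∈ P, ∃ e, BX ((2 ^ (k + s) : ℕ) : ℤ) e ∧ t = L ++ e} ≤ M →
    gf (FT (Far6 r) P b) * Xb k ≤ ENNReal.ofReal C * M := by
  obtain ⟨s, c, hc, h⟩ := narrow
  refine ⟨6 / c, s + 2, by positivity, fun P M hP b k r hr1 hr2 hg => ?_⟩
  have h1 : 2 ^ (k + (s + 2)) = 4 * 2 ^ (k + s) := by
    rw [show k + (s + 2) = (k + s) + 2 by ring, pow_add]
    ring
  have h2 : 1 ≤ 2 ^ (k + s) := Nat.one_le_two_pow
  have hg' : gf {t | t ∈ SA ∧ ∃ L ∈ P, ∃ e, BX ((2 ^ (k + s) : ℕ) : ℤ) e ∧ t = L ++ e} ≤ M := by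
    refine (gf_mono ?_).trans hg
    rintro t ⟨a1, L, hL, e, he, a2⟩
    refine ⟨a1, L, hL, e, fun i hi dir => (he i hi dir).trans ?_, a2⟩
    rw [h1]
    push_cast
    have : (0 : ℤ) ≤ 2 ^ (k + s) := by positivity
    omega
  have h3 := m3_glueC hP (b := b) (k := k) (r := r) (R := 2 ^ (k + s)) hg' (by omega)
    (Nat.pow_le_pow_right (by norm_num) (by omega)) hr2
  have h4 : {W | W ∈ BAR.NA (2 ^ k) ∧ BX (2 ^ (k + s)) W} = {e | e ∈ BAR.NA (2 ^ k) ∧ BX ((2 ^ (k + s) : ℕ) : ℤ) e} := by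
    push_cast
    rfl
  have h5 := h k
  rw [h4] at h5
  have h6 : Xb k ≤ ENNReal.ofReal (1 / c) * gf {e | e ∈ BAR.NA (2 ^ k) ∧ BX ((2 ^ (k + s) : ℕ) : ℤ) e} := by
    calc Xb k = ENNReal.ofReal (1 / c) * (ENNReal.ofReal c * Xb k) := by
          rw [← mul_assoc, ← ENNReal.ofReal_mul (by positivity), one_div, inv_mul_cancel₀ hc.ne', ENNReal.ofReal_one, one_mul]
      _ ≤ _ := mul_le_mul' le_rfl h5
  calc gf (FT (Far6 r) P b) * Xb k
      ≤ gf (FT (Far6 r) P b) * (ENNReal.ofReal (1 / c) * gf {e | e ∈ BAR.NA (2 ^ k) ∧ BX ((2 ^ (k + s) : ℕ) : ℤ) e}) :=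
        mul_le_mul' le_rfl h6
    _ = ENNReal.ofReal (1 / c) * (gf (FT (Far6 r) P b) * gf {e | e ∈ BAR.NA (2 ^ k) ∧ BX ((2 ^ (k + s) : ℕ) : ℤ) e}) := by
        ring
    _ ≤ ENNReal.ofReal (1 / c) * (6 * M) := mul_le_mul' le_rfl h3
    _ = ENNReal.ofReal (6 / c) * M := by
        rw [← mul_assoc]
        congr 1
        rw [show (6 : ℝ) / c = 1 / c * 6 by ring, ENNReal.ofReal_mul (by positivity)]
        norm_num

end TIP

end HexObs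

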