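import Pool.Agent.TOG.FewN

/-!
TIP, row Ng: the structure of a walk with n letters, three macroscopic bridges in a row; what is before a cut of the first
one is in a class with a sharp bound for the weight of a given number of letters (helper49).
-/

set_option autoImplicit false

namespace HexObs

namespace TIP

open Finset TS SDN NTW NTA HexObs.SIM TOG

open scoped ENNReal

/-- three bridges in a row with heights between n and N, the beginning in LL -/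
def Str (LL : Set (List Bool)) (n N : ℕ) (t : List Bool) : Prop :=
  ∃ X0 H1 H2 H3 X1 : List Bool, t = X0 ++ (H1 ++ (H2 ++ (H3 ++ X1))) ∧ (H1 ∈ BU ∧ H2 ∈ BU ∧ H3 ∈ BU) ∧
    (n ≤ hgt H1 ∧ n ≤ hgt H2 ∧ n ≤ hgt H3) ∧ (hgt H1 ≤ N ∧ hgt H2 ≤ N ∧ hgt H3 ≤ N) ∧
    ∀ A B, A ∈ BU → B ∈ BU → H1 = A ++ B → X0 ++ A ∈ LL

lemma Str.mono {LL LL' : Set (List Bool)} {n n' N N' : ℕ} {t : List Bool} (h : Str LL n N t) (hL : LL ⊆ LL')
    (hn : n' ≤ n) (hN : N ≤ N') : Str LL' n' N' t := by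
  obtain ⟨X0, H1, H2, H3, X1, h1, h2, ⟨h3, h4, h5⟩, ⟨h6, h7, h8⟩, h9⟩ := h
  exact ⟨X0, H1, H2, H3, X1, h1, h2, ⟨by omega, by omega, by omega⟩, ⟨by omega, by omega, by omega⟩,
    fun A B hA hB hAB => hL (h9 A B hA hB hAB)⟩

lemma str_of_cut3 {Q : ℕ → ℕ → List Bool → Prop} {LL RR' : Set (List Bool)} {n N : ℕ} {t : List Bool}
    (h : Cut3 Q LL RR' n N t) : Str LL n N t := by
  obtain ⟨X0, H1, H2, H3, X1, h1, h2, h3, h4, b1, b2, b3, a1, a2, a3, a4, a5, a6, hL, -, -⟩ := h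
  refine ⟨X0, H1, H2, H3, X1, h4, ⟨⟨h1, b1⟩, ⟨h2, b2⟩, ⟨h3, b3⟩⟩, ?_, ?_, hL⟩
  · rw [TS.hgt_eq b1, TS.hgt_eq b2, TS.hgt_eq b3]
    exact ⟨a1, a2, a3⟩
  · rw [TS.hgt_eq b1, TS.hgt_eq b2, TS.hgt_eq b3]
    exact ⟨a4, a5, a6⟩

/-- the class in all frames -/
def LBc (LL : Set (List Bool)) : Set (List Bool) :=
  {L | L ∈ LL ∨ EN.mw L ∈ LL ∨ ∃ q, ∃ s ∈ LL, L = DirA.Qz q ++ s}

lemma mw_append (s t : List Bool) : EN.mw (s ++ t) = EN.mw s ++ EN.mw t := List.map_append ..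

lemma mw_BU {s : List Bool} (h : s ∈ BU) : EN.mw s ∈ BU ∧ hgt (EN.mw s) = hgt s := by
  obtain ⟨r, hr⟩ := h
  have h1 : EN.mw s ∈ Brd r := Brd_not hr
  exact ⟨⟨r, h1⟩, by rw [TS.hgt_eq h1, TS.hgt_eq hr]⟩

lemma str_mw {LL : Set (List Bool)} {n N : ℕ} {t : List Bool} (h : Str LL n N (EN.mw t)) : Str (LBc LL) n N t := by
  obtain ⟨X0, H1, H2, H3, X1, h1, ⟨b1, b2, b3⟩, h3, h4, h5⟩ := h
  obtain ⟨c1, d1⟩ := mw_BU b1
  obtain ⟨c2, d2⟩ := mw_BU b2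
  obtain ⟨c3, d3⟩ := mw_BU b3
  refine ⟨EN.mw X0, EN.mw H1, EN.mw H2, EN.mw H3, EN.mw X1, ?_, ⟨c1, c2, c3⟩, ?_, ?_, ?_⟩
  · rw [← mw_append, ← mw_append, ← mw_append, ← mw_append, ← h1, EN.mw_mw]
  · rwa [d1, d2, d3]
  · rwa [d1, d2, d3]
  · intro A B hA hB hAB
    refine Or.inr (Or.inl ?_)
    rw [mw_append, EN.mw_mw]
    refine h5 (EN.mw A) (EN.mw B) (mw_BU hA).1 (mw_BU hB).1 ?_
    rw [← mw_append, ← hAB, EN.mw_mw]

lemma str_qz {LL : Set (List Bool)} {n N q : ℕ} {s : List Bool} (h : Str LL n N s) :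
    Str (LBc LL) n N (DirA.Qz q ++ s) := by
  obtain ⟨X0, H1, H2, H3, X1, h1, h2, h3, h4, h5⟩ := h
  refine ⟨DirA.Qz q ++ X0, H1, H2, H3, X1, by rw [h1, List.append_assoc], h2, h3, h4, ?_⟩
  intro A B hA hB hAB
  refine Or.inr (Or.inr ⟨q, X0 ++ A, h5 A B hA hB hAB, by rw [List.append_assoc]⟩)

lemma gf_LBc {LL : Set (List Bool)} {B : ℝ≥0∞} (h : ∀ l, gf {L | L ∈ LL ∧ L.length = l} ≤ B) (l : ℕ) :
    gf {L | L ∈ LBc LL ∧ L.length = l} ≤ ENNReal.ofReal (2 + DirA.CD) * B := by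
  have hCD := DirA.CD_ge
  have hCD0 : 0 < DirA.CD := by linarith
  have hsub : {L | L ∈ LBc LL ∧ L.length = l} ⊆ ({L | L ∈ LL ∧ L.length = l} ∪ {L | EN.mw L ∈ {s | s ∈ LL ∧ s.length = l}}) ∪
      {L | L.length = l ∧ ∃ q, ∃ s ∈ LL, L = DirA.Qz q ++ s} := by
    rintro L ⟨h1 | h1 | h1, h2⟩
    · exact Or.inl (Or.inl ⟨h1, h2⟩)
    · exact Or.inl (Or.inr ⟨h1, by rw [EN.mw_length]; exact h2⟩)
    · exact Or.inr ⟨h2, h1⟩
  refine (gf_mono hsub).trans ((gf_union_le _ _).trans ((add_le_add ((gf_union_le _ _).trans (add_le_add (h l)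
    ((EN.gf_mw_le fun t ht => ht).trans (h l)))) (EN.EX.gf_zzX h)).trans (le_of_eq ?_)))
  rw [ENNReal.ofReal_add (by norm_num) hCD0.le, add_mul]
  congr 1
  rw [show ENNReal.ofReal 2 = 2 by norm_num, two_mul]

/-- **words with many leaves without the structure, exactly n letters** -/
theorem many_str {m : ℕ → ℝ} (hm : ∀ k, 0 < m k) (hMU : MUp m) (hG : EN.GBU m) (hEv : EvAX m) : ∃ M : ℕ,
    ∀ (J J' : ℕ) (e : ℝ), 0 < e → ∃ (A : ℝ) (c k0 : ℕ) (LL : ℕ → Set (List Bool)), 1 ≤ A ∧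
      (∀ k l : ℕ, k0 ≤ k → gf {L | L ∈ LL k ∧ L.length = l} ≤
        ENNReal.ofReal (A * (Ub (k + J) / m (k + J))) * Xb (k + J)) ∧
      ∀ k n : ℕ, k0 ≤ k → gf {t | (t.length = n ∧ t ∈ WL (k + J)) ∧ (∃ i, i ≤ t.length ∧ Many t i M (RR (k - J'))) ∧
        ¬ Str (LL k) (2 ^ (k - c)) (2 ^ k) t} ≤
          ENNReal.ofReal (e * (Ub (k + J) / m (k + J))) * Xb (k + J) ^ 2 := by
  obtain ⟨Jn, hJn, hnc⟩ := nocut_evX hEv
  obtain ⟨JM, C2, k2, hJM, hC2, hlast⟩ := last_rj hm hG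
  obtain ⟨Cm, hCm, hMU⟩ := hMU
  obtain ⟨M, hM⟩ : ∃ M : ℕ, M = 2 * JM + 4 * Jn + 20 := ⟨_, rfl⟩
  refine ⟨M, fun J J' e he => ?_⟩
  have hCm0 : 0 < Cm := by linarith
  obtain ⟨a, ha⟩ : ∃ a, a = J + J' + 1 := ⟨_, rfl⟩
  obtain ⟨dw, kN, hd0, hdw, hdN, hnoc⟩ := hnc 4 (by norm_num) (a + 5) (by omega) (e / Cm ^ (a + 5)) (by positivity)
  refine ⟨C2 ^ (a + 7) * Cm ^ (a + 7), J' + 7 + dw 3, kN + k2 + a + dw 4 + J' + 20,
    fun k => LastR (k - J' - 8) (a + 7) (EN.RJ (k - J' - 8) (2 ^ (k - J' - 8 + (a + 7) + 2)) JM),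
    one_le_mul_of_one_le_of_one_le (one_le_pow₀ hC2) (one_le_pow₀ hCm), fun k l hk => ?_, fun k nn hk => ?_⟩
  · obtain ⟨k0, hk0⟩ : ∃ k0, k0 = k - J' - 8 := ⟨_, rfl⟩
    have hkK : k0 + (a + 7) = k + J := by omega
    have h1 := hlast k0 (a + 7) l (by omega) (by omega)
    rw [hkK] at h1
    beta_reduce
    rw [← hk0, hkK]
    refine le_trans (gf_mono ?_) (h1.trans (mul_le_mul_left (ENNReal.ofReal_le_ofReal ?_) _))
    · rintro L ⟨b1, b2⟩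
      exact ⟨b2, b1⟩
    have hmk := hm k0
    have hmK := hm (k + J)
    have hU := TS.Ub_pos (k + J)
    have h2 := mUp_pow hCm hMU k0 (a + 7)
    rw [hkK] at h2
    have h3 : Ub (k + J) / m k0 ≤ Cm ^ (a + 7) * (Ub (k + J) / m (k + J)) := by
      rw [← mul_div_assoc, div_le_div_iff₀ hmk hmK]
      calc Ub (k + J) * m (k + J) ≤ Ub (k + J) * (Cm ^ (a + 7) * m k0) := mul_le_mul_of_nonneg_left h2 hU.le
        _ = _ := by ring
    calc C2 ^ (a + 7) * (Ub (k + J) / m k0) ≤ C2 ^ (a + 7) * (Cm ^ (a + 7) * (Ub (k + J) / m (k + J))) :=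
          mul_le_mul_of_nonneg_left h3 (by positivity)
      _ = _ := by ring
  obtain ⟨K, hK⟩ : ∃ K, K = k + J := ⟨_, rfl⟩
  obtain ⟨k0, hk0⟩ : ∃ k0, k0 = k - J' - 8 := ⟨_, rfl⟩
  have hkcK : k0 + 2 + (a + 5) = K := by omega
  have hgfS := hnoc 0 (k0 + 2) nn (by omega)
  rw [hkcK] at hgfS
  rw [← hK]
  have hU := TS.Ub_pos K
  have hmK := hm K
  obtain ⟨W, hW⟩ : ∃ W : ℝ, W = Ub K / m K := ⟨_, rfl⟩
  have hW0 : 0 < W := by rw [hW]; positivity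
  rw [← hW]
  obtain ⟨B3, hB3⟩ : ∃ B3 : Set (List Bool), B3 = {t | t.length = nn ∧ t ∈ WL K ∧
    EN.HR 0 (k0 + 2) (Adj (k0 + 2) (2 ^ (K + 3)) Jn (EN.One (NcS (k0 + 2) (a + 5) 4 dw))) t} := ⟨_, rfl⟩
  have hsub : {t | (t.length = nn ∧ t ∈ WL K) ∧ (∃ i, i ≤ t.length ∧ Many t i M (RR (k - J'))) ∧
      ¬ Str (LastR (k - J' - 8) (a + 7) (EN.RJ (k - J' - 8) (2 ^ (k - J' - 8 + (a + 7) + 2)) JM))
        (2 ^ (k - (J' + 7 + dw 3))) (2 ^ k) t} ⊆ B3 := by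
    rintro t ⟨⟨tl, t1⟩, ⟨i, hi, hMany⟩, t3⟩
    by_contra t4
    refine t3 ?_
    have hnoE : ¬ EN.HR 0 (k0 + 2) (Adj (k0 + 2) (2 ^ (k0 + 2 + (a + 5) + 3)) Jn
        (EN.One (NcS (k0 + 2) (a + 5) 4 dw))) t := by
      intro hcon
      rw [hkcK] at hcon
      refine t4 ?_
      rw [hB3]
      exact ⟨tl, t1, hcon⟩
    have ht2 : t ∈ WL (k0 + 2 + (a + 5)) := by
      rw [hkcK]
      exact t1
    have hRR : RR (k0 + 7) ≤ RR (k - J') := by
      unfold RR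
      have : (2 : ℤ) ^ (k0 + 7) ≤ 2 ^ (k - J') := pow_le_pow_right₀ (by norm_num) (by omega)
      linarith
    have hMk : Many t i M (RR (k0 + 7)) := hMany.mono le_rfl le_rfl hRR
    have h5 := leaf_cut3 (k := k0) (J := a + 5) (J1 := JM) (Ja := Jn) (M := M) (d := dw) hd0 hdw (by omega) ht2 (by omega)
      hMk hi hJn (by omega) hJM (by omega) hnoE
    refine (str_of_cut3 h5).mono ?_ ?_ ?_
    · rw [← hk0]
      exact subset_rfl
    · exact Nat.pow_le_pow_right (by norm_num) (by omega)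
    · exact Nat.pow_le_pow_right (by norm_num) (by omega)
  refine (gf_mono hsub).trans ?_
  rw [hB3]
  refine hgfS.trans (mul_le_mul_left (ENNReal.ofReal_le_ofReal ?_) _)
  have hmk := hm (k0 + 2)
  have h1 := mUp_pow hCm hMU (k0 + 2) (a + 5)
  rw [hkcK] at h1
  rw [hW]
  have h2 : Ub K / m (k0 + 2) ≤ Cm ^ (a + 5) * (Ub K / m K) := by
    rw [← mul_div_assoc, div_le_div_iff₀ hmk hmK]
    calc Ub K * m K ≤ Ub K * (Cm ^ (a + 5) * m (k0 + 2)) := mul_le_mul_of_nonneg_left h1 hU.le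
      _ = _ := by ring
  calc e / Cm ^ (a + 5) * (Ub K / m (k0 + 2)) ≤ e / Cm ^ (a + 5) * (Cm ^ (a + 5) * (Ub K / m K)) :=
        mul_le_mul_of_nonneg_left h2 (by positivity)
    _ = e * (Ub K / m K) := by field_simp

/-- **the structure of the walks with n letters** -/
theorem str_of {m : ℕ → ℝ} (hm : ∀ k, 0 < m k) (hmono : Monotone m) (hMU : MUp m) (hG : EN.GBU m) (hEv : EvAX m)
    (hE : EN.ESPw m) (hF : FewX m) {e : ℝ} (he : 0 < e) : ∃ (A : ℝ) (c C k0 : ℕ) (LB : ℕ → Set (List Bool)), 1 ≤ A ∧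
      (∀ k l : ℕ, k0 ≤ k → gf {L | L ∈ LB k ∧ L.length = l} ≤ ENNReal.ofReal (A * (Ub k / m k)) * Xb k) ∧
      ∀ k n : ℕ, k0 ≤ k → m k ≤ n → n < m (k + 1) → gf {t | t ∈ SawN n ∧
        ¬ (t ∈ WL (k + C) ∧ Str (LB k) (2 ^ (k - c)) (2 ^ k) t)} ≤ ENNReal.ofReal e * nuX m k := by
  obtain ⟨Y, hY, hconv⟩ := SB.conv hm hmono
  obtain ⟨A, i0, k1, hA, hout⟩ := EN.tail_out hE 1
  obtain ⟨J, hJ0, hJ⟩ : ∃ J, i0 ≤ J ∧ A / 2 ^ (1 * J) ≤ e / 2 := by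
    obtain ⟨j, hj⟩ := pow_unbounded_of_one_lt (A / (e / 2)) (show (1 : ℝ) < 2 by norm_num)
    refine ⟨i0 + j, by omega, ?_⟩
    rw [div_lt_iff₀ (by positivity)] at hj
    rw [div_le_iff₀ (by positivity), one_mul, pow_add]
    have h1 : (1 : ℝ) ≤ 2 ^ i0 := one_le_pow₀ (by norm_num)
    have h2 : (0 : ℝ) < 2 ^ j := by positivity
    calc A ≤ 2 ^ j * (e / 2) := hj.le
      _ = e / 2 * (1 * 2 ^ j) := by ring
      _ ≤ e / 2 * (2 ^ i0 * 2 ^ j) := by gcongr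
  obtain ⟨M, hM⟩ := many_str hm hMU hG hEv
  obtain ⟨D, hD, hDX⟩ := Xb_pow
  have hD0 : 0 ≤ D := by linarith
  have hCD := DirA.CD_ge
  have hY0 : 0 < Y := by linarith
  have hCD0 : 0 < DirA.CD := by linarith
  obtain ⟨e1, he1⟩ : ∃ e1 : ℝ, e1 = e / 4 / Y ^ J := ⟨_, rfl⟩
  have he10 : 0 < e1 := by
    rw [he1]
    positivity
  obtain ⟨J', k2, hfew⟩ := hF (M + 2) J 1 e1 one_pos he10
  obtain ⟨e2, he2⟩ : ∃ e2 : ℝ, e2 = e / 4 / ((2 + DirA.CD) * Y ^ (J + 3)) := ⟨_, rfl⟩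
  have he20 : 0 < e2 := by
    rw [he2]
    positivity
  obtain ⟨Am, c, k3, LL, hAm, hLL, hmany⟩ := hM (J + 3) J' e2 he20
  have hAm0 : 0 < Am := by linarith
  have hbig1 : 1 ≤ (2 + DirA.CD) * (Am * 2 ^ (J + 3)) * D ^ (J + 3) := by
    have h1 : (1 : ℝ) ≤ 2 + DirA.CD := by linarith
    have h2 : (1 : ℝ) ≤ 2 ^ (J + 3) := one_le_pow₀ (by norm_num)
    exact one_le_mul_of_one_le_of_one_le (one_le_mul_of_one_le_of_one_le h1 (one_le_mul_of_one_le_of_one_le hAm h2))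
      (one_le_pow₀ hD)
  refine ⟨(2 + DirA.CD) * (Am * 2 ^ (J + 3)) * D ^ (J + 3), c, J, (k1 + k2) + (k3 + (J' + 2)), fun k => LBc (LL k), hbig1,
    fun k l hk => ?_, fun k n hk h1 h2 => ?_⟩
  · have hU := Ub_pos k
    have hmk := hm k
    refine (gf_LBc (fun l' => hLL k l' (by omega)) l).trans ?_
    have h1 : Ub (k + (J + 3)) / m (k + (J + 3)) ≤ 2 ^ (J + 3) * (Ub k / m k) := by
      have e1 := Sc.Ub_shift k (J + 3)
      have e2 := hmono (Nat.le_add_right k (J + 3))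
      calc Ub (k + (J + 3)) / m (k + (J + 3)) ≤ (2 ^ (J + 3) * Ub k) / m k := by gcongr
        _ = _ := by ring
    calc ENNReal.ofReal (2 + DirA.CD) * (ENNReal.ofReal (Am * (Ub (k + (J + 3)) / m (k + (J + 3)))) * Xb (k + (J + 3)))
        ≤ ENNReal.ofReal (2 + DirA.CD) * (ENNReal.ofReal (Am * (2 ^ (J + 3) * (Ub k / m k))) *
          (ENNReal.ofReal (D ^ (J + 3)) * Xb k)) := by
          refine mul_le_mul' le_rfl (mul_le_mul' (ENNReal.ofReal_le_ofReal ?_) (hDX k (J + 3)))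
          gcongr
      _ = _ := by
          rw [← mul_assoc (ENNReal.ofReal (Am * (2 ^ (J + 3) * (Ub k / m k)))), ← ENNReal.ofReal_mul (by positivity),
            ← mul_assoc, ← ENNReal.ofReal_mul (by positivity)]
          congr 2
          ring
  have hUk := Ub_pos k
  have hR : 4 < RR (k - J') := by
    unfold RR
    have : (2 : ℤ) ^ 2 ≤ 2 ^ (k - J') := pow_le_pow_right₀ (by norm_num) (by omega)
    norm_num at this
    linarith
  obtain ⟨H, hHd⟩ : ∃ H : Set (List Bool), H = {t | t ∈ WL (k + J + 3) ∧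
    (∃ i, i ≤ t.length ∧ Many t i M (RR (k - J'))) ∧ ¬ Str (LL k) (2 ^ (k - c)) (2 ^ k) t} := ⟨_, rfl⟩
  obtain ⟨F, hFd⟩ : ∃ F : Set (List Bool), F = {t | (t.length = n ∧ t ∈ WL (k + J)) ∧ ∃ i : ℕ, 1 * (n : ℝ) ≤ i ∧
    i ≤ t.length ∧ ∃ p q : Fin 3, p ≠ q ∧ ∀ d, d = p ∨ d = q →
      ¬ EN.Alt (fun a => EN.lv3 d (vx oo up t a)) i (M + 2) (RR (k - J'))} := ⟨_, rfl⟩
  obtain ⟨B, hB⟩ : ∃ B, B = ENNReal.ofReal (e2 * (Ub (k + (J + 3)) / m (k + (J + 3)))) * Xb (k + (J + 3)) ^ 2 :=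
    ⟨_, rfl⟩
  have hHn : ∀ n', gf {s | s ∈ H ∧ s.length = n'} ≤ B := by
    intro n'
    rw [hB]
    refine (gf_mono fun t ht => ?_).trans (hmany k n' (by omega))
    rw [hHd] at ht
    obtain ⟨⟨a1, a2, a3⟩, a4⟩ := ht
    exact ⟨⟨a4, a1⟩, a2, a3⟩
  have hsub : {t | t ∈ SawN n ∧ ¬ (t ∈ WL (k + J) ∧ Str (LBc (LL k)) (2 ^ (k - c)) (2 ^ k) t)} ⊆
      {t | t ∈ SA ∧ t.length = n ∧ t ∉ WL (k + J)} ∪ (F ∪ (({t | t ∈ H ∧ t.length = n} ∪
        {t | EN.mw t ∈ {s | s ∈ H ∧ s.length = n}}) ∪ {t | t.length = n ∧ ∃ q, ∃ s ∈ H, t = DirA.Qz q ++ s})) := by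
    rintro t ⟨⟨ht1, ht2⟩, ht3⟩
    by_cases hW : t ∈ WL (k + J)
    · right
      have ht4 : ¬ Str (LBc (LL k)) (2 ^ (k - c)) (2 ^ k) t := fun h => ht3 ⟨hW, h⟩
      by_cases hFt : t ∈ F
      · exact Or.inl hFt
      · right
        have hal : ∀ p q : Fin 3, p ≠ q → EN.Alt (fun a => EN.lv3 p (vx oo up t a)) n (M + 2) (RR (k - J')) ∨
            EN.Alt (fun a => EN.lv3 q (vx oo up t a)) n (M + 2) (RR (k - J')) := by
          intro p q hpq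
          by_contra hc
          push Not at hc
          apply hFt
          rw [hFd]
          refine ⟨⟨ht1, hW⟩, n, by rw [one_mul], by omega, p, q, hpq, ?_⟩
          rintro d (rfl | rfl)
          · exact hc.1
          · exact hc.2
        rcases SB.frames hW (i := n) (l := n) (j := n) le_rfl le_rfl (by omega) hR (x := 0) (y := 0) hal (by
            refine ⟨false, ?_⟩
            rw [mul_zero]
            exact abs_nonneg _) (fun dir => by simp) with h | h | ⟨q, s, h, hs⟩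
        · left
          left
          obtain ⟨a1, i, l, j, a2, a3, a4, a5, -, -⟩ := h
          rw [hHd]
          exact ⟨⟨a1, ⟨i, by omega, a5⟩, fun h => ht4 (h.mono (fun L hL => Or.inl hL) le_rfl le_rfl)⟩, ht1⟩
        · left
          right
          obtain ⟨a1, i, l, j, a2, a3, a4, a5, -, -⟩ := h
          rw [hHd]
          exact ⟨⟨a1, ⟨i, by omega, a5⟩, fun h => ht4 (str_mw h)⟩, by rw [EN.mw_length]; exact ht1⟩
        · right
          obtain ⟨a1, i, l, j, a2, a3, a4, a5, -, -⟩ := h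
          rw [hHd]
          refine ⟨ht1, q, s, ⟨a1, ⟨i, by omega, a5⟩, fun h => ht4 ?_⟩, hs⟩
          rw [hs]
          exact str_qz h
    · exact Or.inl ⟨ht2, ht1, hW⟩
  have g1 : gf {t | t ∈ SA ∧ t.length = n ∧ t ∉ WL (k + J)} ≤ ENNReal.ofReal (e / 2) * nuX m k :=
    (hout k J n (by omega) hJ0 h1 h2).trans (mul_le_mul_left (ENNReal.ofReal_le_ofReal hJ) _)
  have g2 : gf F ≤ ENNReal.ofReal (e / 4) * nuX m k := by
    rw [hFd]
    refine (hfew k n (by omega) h1).trans ((hconv k J e1 he10.le).trans (le_of_eq ?_))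
    congr 2
    rw [he1]
    field_simp
  have g3 : gf {t | EN.mw t ∈ {s | s ∈ H ∧ s.length = n}} ≤ B := (EN.gf_mw_le fun t ht => ht).trans (hHn n)
  have g4 : gf {t | t.length = n ∧ ∃ q, ∃ s ∈ H, t = DirA.Qz q ++ s} ≤ ENNReal.ofReal DirA.CD * B := EN.EX.gf_zzX hHn
  have g5 : B + B + ENNReal.ofReal DirA.CD * B ≤ ENNReal.ofReal (e / 4) * nuX m k := by
    have e1 : B + B + ENNReal.ofReal DirA.CD * B = ENNReal.ofReal (2 + DirA.CD) * B := by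
      rw [ENNReal.ofReal_add (by norm_num) hCD0.le, add_mul]
      congr 1
      rw [show ENNReal.ofReal 2 = 2 by norm_num, two_mul]
    rw [e1, hB]
    refine (mul_le_mul_right (hconv k (J + 3) e2 he20.le) _).trans (le_of_eq ?_)
    rw [← mul_assoc, ← ENNReal.ofReal_mul (by positivity)]
    congr 2
    rw [he2]
    field_simp
  refine (gf_mono hsub).trans ((gf_union_le _ _).trans ?_)
  calc _ ≤ ENNReal.ofReal (e / 2) * nuX m k + (ENNReal.ofReal (e / 4) * nuX m k + ENNReal.ofReal (e / 4) * nuX m k) := by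
        refine add_le_add g1 ((gf_union_le _ _).trans (add_le_add g2 ?_))
        refine ((gf_union_le _ _).trans (add_le_add ((gf_union_le _ _).trans (add_le_add (hHn n) g3)) g4)).trans g5
    _ = _ := by
        rw [← add_mul, ← add_mul, ← ENNReal.ofReal_add (by positivity) (by positivity),
          ← ENNReal.ofReal_add (by positivity) (by positivity)]
        congr 2
        ring

/-- **the structure of the walks with n letters**, mean length of the bridges, no hypothesis -/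
theorem str_M {e : ℝ} (he : 0 < e) : ∃ (A : ℝ) (c C k0 : ℕ) (LB : ℕ → Set (List Bool)), 1 ≤ A ∧
    (∀ k l : ℕ, k0 ≤ k → gf {L | L ∈ LB k ∧ L.length = l} ≤
      ENNReal.ofReal (A * (Ub k / PW.mZ (2 ^ k))) * Xb k) ∧
    ∀ k n : ℕ, k0 ≤ k → PW.mZ (2 ^ k) ≤ n → n < PW.mZ (2 ^ (k + 1)) → gf {t | t ∈ SawN n ∧
      ¬ (t ∈ WL (k + C) ∧ Str (LB k) (2 ^ (k - c)) (2 ^ k) t)} ≤ ENNReal.ofReal e * gf (SawN n) := by
  have hm : ∀ k, 0 < PW.mZ (2 ^ k) := fun k => PW.mZ_pos Nat.one_le_two_pow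
  have hmono : Monotone fun k => PW.mZ (2 ^ k) := fun a b h => PW.mZ_mono (Nat.pow_le_pow_right (by norm_num) h)
  obtain ⟨cc, κ, k1, hc, -, hbig⟩ := EN.factsX_M.big
  obtain ⟨A, c, C, k0, LB, hA, h1, h2⟩ := str_of hm hmono mup_M EN.gbu_M evAX EN.espw_M fewX_M
    (show 0 < e * cc by positivity)
  refine ⟨A, c, C, max k0 k1, LB, hA, fun k l hk => h1 k l ((le_max_left _ _).trans hk), fun k n hk a1 a2 => ?_⟩
  refine (h2 k n ((le_max_left _ _).trans hk) a1 a2).trans ?_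
  rw [ENNReal.ofReal_mul he.le, mul_assoc]
  exact mul_le_mul_right ((hbig k n ((le_max_right _ _).trans hk) a1 a2).trans (gf_mono fun t ht => ht.1)) _

end TIP

end HexObs
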