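import Pool.Agent.SIM.FinAllS
import Pool.Agent.TIP.StrA
import Pool.Agent.TIP.DefsN

/-!
TIP, row Ng: the structure of a walk with n letters near its start, and the part up to the second bridge does not come near
the end (helper49).
-/

set_option autoImplicit false

namespace HexObs

namespace TIP

open Finset TS SDN NTW NTA HexObs.SIM

open scoped ENNReal unitInterval

open Pool.Agent.NTS.Res

open NTF (JJ)

lemma cS_pos' {n : ℕ} (hn : 1 ≤ n) : (0 : ℝ) < cS n := by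
  have := NTSF.card_saw (n := n) (by omega) (fun _ => True) (fun _ => Iff.rfl)
  rw [Finset.filter_true_of_mem (fun _ _ => trivial)] at this
  have h1 := (NTSF.saw_nonempty n).card_pos
  have h2 : {t | t ∈ SawN n ∧ True} = SawN n := by
    ext t
    exact ⟨fun h => h.1, fun h => ⟨h, trivial⟩⟩
  rw [h2] at this
  have h3 : 0 < cS n := by
    unfold cS
    omega
  exact_mod_cast h3

/-- from the generating function to the proportion -/
lemma pn_le {n : ℕ} (hn : 1 ≤ n) {B : Set (List Bool)} {e : ℝ} (he : 0 ≤ e)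
    (h : gf {t | t ∈ SawN n ∧ t ∈ B} ≤ ENNReal.ofReal e * gf (SawN n)) : TOG.Pn n B ≤ e := by
  rw [NTF.gf_card (n := n) (fun t ht => ht.1.1), NTF.gf_card (n := n) (B := SawN n) (fun t ht => ht.1), ← mul_assoc] at h
  have h5 : ENNReal.ofReal (xc ^ n) ≠ ⊤ := ENNReal.ofReal_ne_top
  have h4 := (ENNReal.mul_le_mul_iff_left (NTF.xcn_pos n) h5).1 h
  rw [← ENNReal.ofReal_natCast, ← ENNReal.ofReal_natCast, ← ENNReal.ofReal_mul he] at h4
  have h6 := (ENNReal.ofReal_le_ofReal_iff (by positivity)).1 h4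
  have hc0 := cS_pos' hn
  unfold TOG.Pn
  rw [div_le_iff₀ hc0]
  exact h6

/-- a lower bound for the displacement of a bridge inside of a walk -/
lemma bridge_disp {Y H X : List Bool} {t : List Bool} (ht : t = Y ++ (H ++ X)) (hH : H ∈ BU) :
    (hgt H : ℝ) ≤ ‖JJ (vx oo up t (Y.length + H.length) - vx oo up t Y.length)‖ := by
  obtain ⟨c, hc, -, h1⟩ := drop_frame' t Y.length
  have h2 : t.drop Y.length = H ++ X := by rw [ht, List.drop_left]
  have h3 : vx oo up t (Y.length + H.length) - vx oo up t Y.length = mulE c (tipv H) := by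
    rw [h1 H.length, h2, vx_append (by omega)]
    unfold tipv
    abel
  have h4 : ‖JJ (mulE c (tipv H))‖ = ‖JJ (tipv H)‖ := by
    have e1 := NTF.JJ_norm (mulE c (tipv H))
    have e2 := NTF.JJ_norm (tipv H)
    rw [nrm_mulE, mem_dirs.1 hc, one_mul, ← e2] at e1
    exact (sq_eq_sq₀ (norm_nonneg _) (norm_nonneg _)).1 e1
  rw [h3, h4]
  have h5 : lev H H.length = 3 * (hgt H : ℤ) := by
    obtain ⟨r, hr⟩ := hH
    rw [TS.hgt_eq hr]
    exact (mem_Brd.1 hr).2.2.2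
  have h6 : (JJ (tipv H)).re = ((lvl false (tipv H) : ℤ) : ℝ) / 2 := NTF.JJ_lvl _
  have h7 : lvl false (tipv H) = lev H H.length := rfl
  have h8 := Complex.abs_re_le_norm (JJ (tipv H))
  rw [h6, h7, h5] at h8
  push_cast at h8
  have h9 := (abs_le.1 h8).2
  have h10 : (0 : ℝ) ≤ hgt H := Nat.cast_nonneg _
  linarith

/-- from the law of the curve to the words -/
lemma pn_law {n : ℕ} (hn : 1 ≤ n) {η δ c : ℝ} (hc : 0 ≤ c) (h : law n (Pinch η δ) ≤ ENNReal.ofReal c) :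
    TOG.Pn n {t | Pool.Agent.NTS.Res.curve (NTF.sw n t) ∈ Pinch η δ} ≤ c := by
  classical
  have h0 : ((saw n).card : ℝ≥0∞) ≠ 0 := by
    have := (NTSF.saw_nonempty n).card_pos
    exact_mod_cast this.ne'
  have ht : ((saw n).card : ℝ≥0∞) ≠ ⊤ := ENNReal.natCast_ne_top _
  have hs0 : (0 : ℝ) < (saw n).card := by
    have := (NTSF.saw_nonempty n).card_pos
    exact_mod_cast this
  have h1 : ((((saw n).filter fun s => Pool.Agent.NTS.Res.curve s ∈ Pinch η δ).card : ℝ≥0∞)) ≤ ENNReal.ofReal c * ((saw n).card : ℝ≥0∞) := by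
    rw [NTSF.law_apply] at h
    calc _ = ((saw n).card : ℝ≥0∞) * (((saw n).card : ℝ≥0∞)⁻¹ *
          (((saw n).filter fun s => Pool.Agent.NTS.Res.curve s ∈ Pinch η δ).card : ℝ≥0∞)) := by
          rw [← mul_assoc, ENNReal.mul_inv_cancel h0 ht, one_mul]
      _ ≤ ((saw n).card : ℝ≥0∞) * ENNReal.ofReal c := mul_le_mul' le_rfl h
      _ = _ := mul_comm _ _
  rw [← ENNReal.ofReal_natCast, ← ENNReal.ofReal_natCast, ← ENNReal.ofReal_mul hc] at h1
  have h2 := (ENNReal.ofReal_le_ofReal_iff (by positivity)).1 h1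
  have h3 := NTSF.card_saw (n := n) (by omega) (fun s => Pool.Agent.NTS.Res.curve s ∈ Pinch η δ) (fun s => pinch_rot s)
  have h4 : 2 * (saw n).card = 3 * (SawN n).ncard := by
    have := NTSF.card_saw (n := n) (by omega) (fun _ => True) (fun _ => Iff.rfl)
    rw [Finset.filter_true_of_mem (fun _ _ => trivial)] at this
    rw [this]
    congr 2
    ext t
    exact ⟨fun h => h.1, fun h => ⟨h, trivial⟩⟩
  have hc0 := cS_pos' hn
  have h5 : (2 : ℝ) * (((saw n).filter fun s => Pool.Agent.NTS.Res.curve s ∈ Pinch η δ).card : ℝ) =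
      3 * ({t | t ∈ SawN n ∧ Pool.Agent.NTS.Res.curve (NTF.sw n t) ∈ Pinch η δ}.ncard : ℝ) := by exact_mod_cast h3
  have h6 : (2 : ℝ) * ((saw n).card : ℝ) = 3 * (cS n : ℝ) := by exact_mod_cast h4
  unfold TOG.Pn
  rw [div_le_iff₀ hc0]
  have h7 : c * (2 * ((saw n).card : ℝ)) = c * (3 * (cS n : ℝ)) := by rw [h6]
  have h8 : ({t | t ∈ SawN n ∧ t ∈ {t | Pool.Agent.NTS.Res.curve (NTF.sw n t) ∈ Pinch η δ}}.ncard : ℝ) =
      ({t | t ∈ SawN n ∧ Pool.Agent.NTS.Res.curve (NTF.sw n t) ∈ Pinch η δ}.ncard : ℝ) := rfl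
  rw [h8]
  linarith

lemma pn_union {n : ℕ} (hn : 1 ≤ n) (A B : Set (List Bool)) : TOG.Pn n (A ∪ B) ≤ TOG.Pn n A + TOG.Pn n B := by
  have hc0 := cS_pos' hn
  unfold TOG.Pn
  rw [← add_div]
  refine div_le_div_of_nonneg_right ?_ hc0.le
  have hf : ∀ C : Set (List Bool), {t | t ∈ SawN n ∧ t ∈ C}.Finite := fun C =>
    (List.finite_length_eq Bool n).subset fun t ht => ht.1.1
  have h1 : {t | t ∈ SawN n ∧ t ∈ A ∪ B} = {t | t ∈ SawN n ∧ t ∈ A} ∪ {t | t ∈ SawN n ∧ t ∈ B} := by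
    ext t
    constructor
    · rintro ⟨a, b | b⟩
      · exact Or.inl ⟨a, b⟩
      · exact Or.inr ⟨a, b⟩
    · rintro (⟨a, b⟩ | ⟨a, b⟩)
      · exact ⟨a, Or.inl b⟩
      · exact ⟨a, Or.inr b⟩
  rw [h1]
  exact_mod_cast Set.ncard_union_le _ _

/-- **(N1) + (N2)**: outside of an event of probability ε a walk with n letters has two macroscopic bridges in a row, what is
before a cut of the first one is in a class with the sharp weight for every number of letters, and everything up to the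
end of the second one is far away from the end -/
theorem strN {ε : ℝ} (hε : 0 < ε) : ∃ (c C k0 : ℕ) (A : ℝ) (LB : ℕ → Set (List Bool)), 1 ≤ A ∧
    (∀ k l : ℕ, k0 ≤ k → gf {L | L ∈ LB k ∧ L.length = l} ≤
      ENNReal.ofReal (A * (Ub k / PW.mZ (2 ^ k))) * Xb k) ∧
    ∀ k n : ℕ, k0 ≤ k → PW.mZ (2 ^ k) ≤ n → n < PW.mZ (2 ^ (k + 1)) → ∃ B : Set (List Bool), TOG.Pn n B ≤ ε ∧
      ∀ t ∈ SawN n, t ∉ B → t ∈ WL (k + C) ∧ ∃ X0 H H2 X1 : List Bool, t = X0 ++ (H ++ (H2 ++ X1)) ∧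
        (H ∈ BU ∧ H2 ∈ BU) ∧ (2 ^ (k - c) ≤ hgt H ∧ 2 ^ (k - c) ≤ hgt H2) ∧ (hgt H ≤ 2 ^ k ∧ hgt H2 ≤ 2 ^ k) ∧
        (∀ A1 B1, A1 ∈ BU → B1 ∈ BU → H = A1 ++ B1 → X0 ++ A1 ∈ LB k) ∧
        ∀ D : ℕ, (D : ℝ) ^ 10 ≤ n → ∀ i, i ≤ (X0 ++ (H ++ H2)).length → vx oo up t i ∉ Bl (tipv t) (8 * D) := by
  obtain ⟨A, c, C, k1, LB, hA, hLB, hstr⟩ := str_M (half_pos hε)
  obtain ⟨cs, Cs, hcs, hsize⟩ := (NTSF.conclE_false NTSF.finE).1
  obtain ⟨Cz, hCz⟩ := mupZ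
  obtain ⟨cz, hcz, hcz'⟩ := mlowZ
  have hcsC : cs ≤ Cs := by
    have h1 := hsize 1 le_rfl
    rw [Nat.cast_one, Real.one_rpow, mul_one, mul_one] at h1
    exact h1.1.trans h1.2
  have hCs : 0 < Cs := by linarith
  have hCz0 : 0 < Cz := by
    have h1 := hCz 0
    have h2 : (0 : ℝ) < NTSF.MZ 0 := PW.mZ_pos Nat.one_le_two_pow
    rw [Nat.cast_zero, mul_zero, Real.rpow_zero, mul_one] at h1
    linarith
  -- the constant of the displacement
  obtain ⟨Cu, hCu⟩ : ∃ Cu : ℝ, Cu = Cs * (Cz ^ (3 / 4 : ℝ) * 2) := ⟨_, rfl⟩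
  have hCu0 : 0 < Cu := by rw [hCu]; positivity
  have hup : ∀ k n : ℕ, 1 ≤ n → (n : ℝ) < PW.mZ (2 ^ (k + 1)) → size n ≤ Cu * 2 ^ k := by
    intro k n hn hk
    have h1 := (hsize n hn).2
    have h2 : (n : ℝ) ≤ Cz * (2 : ℝ) ^ (4 / 3 * ((k + 1 : ℕ) : ℝ)) := hk.le.trans (hCz (k + 1))
    have h3 : (n : ℝ) ^ (3 / 4 : ℝ) ≤ Cz ^ (3 / 4 : ℝ) * 2 * 2 ^ k := by
      calc (n : ℝ) ^ (3 / 4 : ℝ) ≤ (Cz * (2 : ℝ) ^ (4 / 3 * ((k + 1 : ℕ) : ℝ))) ^ (3 / 4 : ℝ) :=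
            Real.rpow_le_rpow (Nat.cast_nonneg _) h2 (by norm_num)
        _ = Cz ^ (3 / 4 : ℝ) * 2 * 2 ^ k := by
            rw [Real.mul_rpow hCz0.le (by positivity), ← Real.rpow_mul (by norm_num),
              show (4 / 3 * ((k + 1 : ℕ) : ℝ)) * (3 / 4 : ℝ) = ((k + 1 : ℕ) : ℝ) by ring, Real.rpow_natCast, pow_succ]
            ring
    rw [hCu]
    calc size n ≤ Cs * (n : ℝ) ^ (3 / 4 : ℝ) := h1
      _ ≤ Cs * (Cz ^ (3 / 4 : ℝ) * 2 * 2 ^ k) := mul_le_mul_of_nonneg_left h3 hCs.le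
      _ = _ := by ring
  obtain ⟨η, hη⟩ : ∃ η : ℝ, η = 1 / (4 * 2 ^ c * Cu) := ⟨_, rfl⟩
  have hη0 : 0 < η := by rw [hη]; positivity
  obtain ⟨δ, n0, hδ, hlaw⟩ := lawSim_H humpX_M η (ε / 2) hη0 (half_pos hε)
  obtain ⟨n1, hn1⟩ := exists_nat_gt ((16 / (δ * cs)) ^ 2)
  obtain ⟨k2, hk2⟩ := pow_unbounded_of_one_lt (((n0 + n1 + 1 : ℕ) : ℝ) / cz) (one_lt_two (α := ℝ))
  refine ⟨c, C, max k1 (max k2 (c + 1)), A, LB, hA, fun k l hk => hLB k l ((le_max_left _ _).trans hk), fun k n hk a1 a2 => ?_⟩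
  have hk1 : k1 ≤ k := (le_max_left _ _).trans hk
  have hk2' : k2 ≤ k := (le_max_left _ _).trans ((le_max_right _ _).trans hk)
  have hkc : c + 1 ≤ k := (le_max_right _ _).trans ((le_max_right _ _).trans hk)
  have hnn : n0 + n1 + 1 ≤ n := by
    have h1 : cz * (2 : ℝ) ^ (4 / 3 * (k : ℝ)) ≤ n := (hcz' k).trans a1
    have h2 : (2 : ℝ) ^ k2 ≤ (2 : ℝ) ^ (4 / 3 * (k : ℝ)) := by
      rw [← Real.rpow_natCast]
      refine Real.rpow_le_rpow_of_exponent_le (by norm_num) ?_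
      have h3 : (k2 : ℝ) ≤ k := by exact_mod_cast hk2'
      have h4 : (0 : ℝ) ≤ k := Nat.cast_nonneg k
      linarith
    rw [div_lt_iff₀ hcz] at hk2
    have h3 : ((n0 + n1 + 1 : ℕ) : ℝ) < n := by
      calc ((n0 + n1 + 1 : ℕ) : ℝ) < 2 ^ k2 * cz := hk2
        _ ≤ cz * (2 : ℝ) ^ (4 / 3 * (k : ℝ)) := by nlinarith
        _ ≤ n := h1
    have h4 : n0 + n1 + 1 < n := by exact_mod_cast h3
    exact h4.le
  have hn : 1 ≤ n := by omega
  have hn0 : (0 : ℝ) < n := by exact_mod_cast hn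
  have hsz := NTSF.size_pos hn
  refine ⟨{t | ¬ (t ∈ WL (k + C) ∧ Str (LB k) (2 ^ (k - c)) (2 ^ k) t)} ∪ {t | Pool.Agent.NTS.Res.curve (NTF.sw n t) ∈ Pinch η δ}, ?_, ?_⟩
  · refine (pn_union hn _ _).trans ?_
    have h1 : TOG.Pn n {t | ¬ (t ∈ WL (k + C) ∧ Str (LB k) (2 ^ (k - c)) (2 ^ k) t)} ≤ ε / 2 :=
      pn_le hn (half_pos hε).le (hstr k n hk1 a1 a2)
    have h2 := pn_law hn (half_pos hε).le (hlaw n (by omega))
    linarith
  intro t ht htB
  have hB1 : t ∈ WL (k + C) ∧ Str (LB k) (2 ^ (k - c)) (2 ^ k) t := by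
    by_contra h
    exact htB (Or.inl h)
  have hB2 : Pool.Agent.NTS.Res.curve (NTF.sw n t) ∉ Pinch η δ := fun h => htB (Or.inr h)
  obtain ⟨hW, X0, H1, H2, H3, X1, h1, ⟨b1, b2, b3⟩, ⟨d1, d2, d3⟩, ⟨f1, f2, f3⟩, h5⟩ := hB1
  refine ⟨hW, X0, H1, H2, H3 ++ X1, h1, ⟨b1, b2⟩, ⟨d1, d2⟩, ⟨f1, f2⟩, h5, ?_⟩
  intro D hD i hi hnear
  have hlen : t.length = n := ht.1
  obtain ⟨Y, hY⟩ : ∃ Y : List Bool, Y = X0 ++ (H1 ++ H2) := ⟨_, rfl⟩
  rw [← hY] at hi
  have hY2 : t = Y ++ (H3 ++ X1) := by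
    rw [h1, hY]
    simp only [List.append_assoc]
  have hl3 : Y.length + H3.length ≤ n := by
    rw [← hlen, hY2, List.length_append, List.length_append]
    omega
  have hdis := bridge_disp hY2 b3
  -- the size of the excursion
  have hx0 : (2 : ℝ) ^ (k - c) ≤ hgt H3 := by exact_mod_cast d3
  have hx1 : 2 * (2 * η * size n) ≤ (2 : ℝ) ^ (k - c) := by
    have e1 := hup k n hn a2
    have e2 : (2 : ℝ) ^ k = 2 ^ c * 2 ^ (k - c) := by
      rw [← pow_add]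
      congr 1
      omega
    calc 2 * (2 * η * size n) ≤ 2 * (2 * η * (Cu * 2 ^ k)) := by gcongr
      _ = 2 ^ (k - c) := by
          rw [hη, e2]
          field_simp
          norm_num
  obtain ⟨l, hl1, hl2, hl3'⟩ : ∃ l : ℕ, i ≤ l ∧ l ≤ n ∧ 2 * η * size n ≤ ‖JJ (vx oo up t l - vx oo up t i)‖ := by
    by_contra hc
    push Not at hc
    have e1 := hc Y.length hi (by omega)
    have e2 := hc (Y.length + H3.length) (by omega) hl3
    have e3 : ‖JJ (vx oo up t (Y.length + H3.length) - vx oo up t Y.length)‖ ≤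
        ‖JJ (vx oo up t (Y.length + H3.length) - vx oo up t i)‖ + ‖JJ (vx oo up t Y.length - vx oo up t i)‖ := by
      rw [NTF.JJ_sub, NTF.JJ_sub, NTF.JJ_sub]
      have : JJ (vx oo up t (Y.length + H3.length)) - JJ (vx oo up t Y.length) =
          (JJ (vx oo up t (Y.length + H3.length)) - JJ (vx oo up t i)) - (JJ (vx oo up t Y.length) - JJ (vx oo up t i)) := by
        ring
      rw [this]
      exact norm_sub_le _ _
    linarith
  have hin : i ≤ n := hl1.trans hl2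
  -- the distance from the end
  have hend : ‖JJ (vx oo up t n - vx oo up t i)‖ ≤ 16 * D := by
    obtain ⟨g1, g2⟩ := hnear
    have e0 : tipv t = vx oo up t n := by
      unfold tipv
      rw [hlen]
    rw [e0] at g1 g2
    obtain ⟨z, hz⟩ : ∃ z : Pt, z = vx oo up t n - vx oo up t i := ⟨_, rfl⟩
    have e1 : |z.1| ≤ ((8 * D : ℕ) : ℤ) := by
      rw [hz]
      show |(vx oo up t n).1 - (vx oo up t i).1| ≤ _
      rw [abs_sub_comm]
      exact g1
    have e2 : |z.2| ≤ ((8 * D : ℕ) : ℤ) := by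
      rw [hz]
      show |(vx oo up t n).2 - (vx oo up t i).2| ≤ _
      rw [abs_sub_comm]
      exact g2
    rw [← hz]
    have e3 : ‖JJ z‖ ^ 2 = ((nrm z : ℤ) : ℝ) := NTF.JJ_norm z
    have e4 : nrm z = z.1 ^ 2 + z.1 * z.2 + z.2 ^ 2 := rfl
    have f1 : |(z.1 : ℝ)| ≤ 8 * D := by exact_mod_cast e1
    have f2 : |(z.2 : ℝ)| ≤ 8 * D := by exact_mod_cast e2
    have e5 : ‖JJ z‖ ^ 2 ≤ (16 * D) ^ 2 := by
      rw [e3, e4]
      push_cast
      have g3 := abs_le.1 f1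
      have g4 := abs_le.1 f2
      nlinarith [mul_nonneg (sub_nonneg.2 g3.2) (sub_nonneg.2 g4.2), sq_abs (z.1 : ℝ), sq_abs (z.2 : ℝ),
        pow_le_pow_left₀ (abs_nonneg _) f1 2, pow_le_pow_left₀ (abs_nonneg _) f2 2,
        mul_le_mul f1 f2 (abs_nonneg _) ((abs_nonneg _).trans f1), abs_mul (z.1 : ℝ) z.2, le_abs_self ((z.1 : ℝ) * z.2)]
    exact (abs_le_of_sq_le_sq' e5 (by positivity)).2
  have hsmall : ‖JJ (vx oo up t n - vx oo up t i)‖ < δ * size n := by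
    refine hend.trans_lt ?_
    obtain ⟨x, hx⟩ : ∃ x : ℝ, x = (n : ℝ) ^ (1 / 4 : ℝ) := ⟨_, rfl⟩
    have hxp : 0 < x := by rw [hx]; positivity
    have q1 : x ^ 4 = n := by
      rw [hx, ← Real.rpow_natCast, ← Real.rpow_mul hn0.le]
      norm_num
    have q2 : (n : ℝ) ^ (3 / 4 : ℝ) = x ^ 3 := by
      rw [hx, ← Real.rpow_natCast, ← Real.rpow_mul hn0.le]
      norm_num
    have q3 : (D : ℝ) ≤ x := by
      refine le_of_pow_le_pow_left₀ (n := 4) (by norm_num) hxp.le ?_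
      rw [q1]
      rcases Nat.eq_zero_or_pos D with h0 | h0
      · rw [h0]
        norm_num
      · have h6 : (1 : ℝ) ≤ D := by exact_mod_cast h0
        exact (pow_le_pow_right₀ h6 (by norm_num : 4 ≤ 10)).trans hD
    have q4 : 16 / (δ * cs) < x ^ 2 := by
      have h6 : (16 / (δ * cs)) ^ 2 < (x ^ 2) ^ 2 := by
        rw [← pow_mul, show 2 * 2 = 4 by norm_num, q1]
        have : (n1 : ℝ) ≤ n := by exact_mod_cast (by omega : n1 ≤ n)
        linarith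
      exact lt_of_pow_lt_pow_left₀ 2 (by positivity) h6
    rw [div_lt_iff₀ (by positivity)] at q4
    have q5 := (hsize n hn).1
    rw [q2] at q5
    calc 16 * (D : ℝ) ≤ 16 * x := by linarith
      _ < x ^ 2 * (δ * cs) * x := by nlinarith
      _ = δ * (cs * x ^ 3) := by ring
      _ ≤ δ * size n := mul_le_mul_of_nonneg_left q5 hδ.le
  refine hB2 ?_
  have hmem : ∀ a : ℕ, a ≤ n → ((a : ℝ) / n) ∈ Set.Icc (0 : ℝ) 1 := fun a ha =>
    ⟨by positivity, by rw [div_le_one hn0]; exact_mod_cast ha⟩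
  refine ⟨⟨(i : ℝ) / n, hmem i hin⟩, ⟨(l : ℝ) / n, hmem l hl2⟩, ⟨(n : ℝ) / n, hmem n le_rfl⟩, ?_, ?_, ?_, ?_⟩
  · show (i : ℝ) / n ≤ (l : ℝ) / n
    have : (i : ℝ) ≤ l := by exact_mod_cast hl1
    gcongr
  · show (l : ℝ) / n ≤ (n : ℝ) / n
    have : (l : ℝ) ≤ n := by exact_mod_cast hl2
    gcongr
  · rw [NTSF.curve_grid hn _ hl2 _ rfl, NTSF.curve_grid hn _ hin _ rfl, NTSF.pos_sw n t l hl2,
      NTSF.pos_sw n t i hin, dist_eq_norm, ← sub_div, ← NTF.JJ_sub, norm_div, Complex.norm_real,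
      Real.norm_of_nonneg hsz.le, lt_div_iff₀ hsz]
    nlinarith
  · rw [NTSF.curve_grid hn _ le_rfl _ rfl, NTSF.curve_grid hn _ hin _ rfl, NTSF.pos_sw n t n le_rfl,
      NTSF.pos_sw n t i hin, dist_eq_norm, ← sub_div, ← NTF.JJ_sub, norm_div, Complex.norm_real,
      Real.norm_of_nonneg hsz.le, div_lt_iff₀ hsz]
    exact hsmall

end TIP

end HexObs
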