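import Pool.Agent.TIP.NgA
import Pool.Agent.TIP.StrN

/-!
TIP, Ng: exactly n letters, no hypothesis (helper58).
-/

set_option autoImplicit false

namespace HexObs

namespace TIP

open Finset TS SDN HexObs.SIM NTA

open scoped ENNReal

/-- the structure theorem in the form of NgA -/
theorem strN_st : StrN := by
  intro ε hε
  obtain ⟨c, C, k0, A, LB, hA, h1, h2⟩ := strN hε
  refine ⟨c, C, k0, A, LB, by linarith, h1, fun k n hk hk1 hk2 => ?_⟩
  obtain ⟨B, hB, h3⟩ := h2 k n hk hk1 hk2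
  refine ⟨B, hB, fun t ht htB => ?_⟩
  obtain ⟨hW, X0, H, H2, X1, e1, ⟨e2, e3⟩, ⟨e4, e5⟩, ⟨e6, e7⟩, e8, e9⟩ := h3 t ht htB
  refine ⟨hW, X0, H, H2, X1, e1, e2, e3, e4, e5, e6, e7, e8, fun D hD i hi hmem => e9 D hD i hi ?_⟩
  obtain ⟨m1, m2⟩ := hmem
  have e : ((8 * D : ℕ) : ℤ) = ((4 * D : ℕ) : ℤ) + 4 * (D : ℤ) := by push_cast; ring
  have hD0 : (0 : ℤ) ≤ D := Int.natCast_nonneg D
  refine ⟨?_, ?_⟩
  · rw [e]
    linarith
  · rw [e]
    linarith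

/-- **Ng** -/
theorem exN : ExN := exN_of strN_st

end TIP

end HexObs


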