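import Pool.Agent.TIP.LzCore
import Pool.Agent.TIP.GeoZ
import Pool.Agent.TIP.NfM

/-!
TIP, LzLog: at exactly n letters there is no factor without good local bridges of extent a log n 2 ^ b.
-/

set_option autoImplicit false

namespace HexObs

namespace TIP

open Finset TS SDN SIM NTA

open scoped ENNReal

theorem lzLog {κ : ℝ} {C : ℕ} (h : RegZ κ C) : LzLog κ C := by
  obtain ⟨C', c, b0, J0, n0, hC', hc, h⟩ := h
  obtain ⟨D, hD, hX⟩ := Xb_pow
  obtain ⟨a, b1, h2⟩ := lzCore (S := fun b n => Lz κ C b n) (X := Xb) (Xb_ne_top 0) hD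
    (fun j => by simpa using hX 0 j) hC' hc h
  exact ⟨a, b1, h2⟩

end TIP

end HexObs
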