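import Pool.Agent.TIP.NfC

/-!
TIP, row N with both tips good (for helper11's clause on the infinite walk): the part of Nf without the free half ball.
-/

set_option autoImplicit false

namespace HexObs

namespace TIP

open Finset TS SDN SIM NTA NTW

open scoped ENNReal

/-- the cuts with both tips good -/
def NCg (b D : ℕ) (η : ℝ) (t : List Bool) : Set (List Bool) :=
  {Y | rev Y ∈ GT b η ∧ In D Y ∧ ∃ A, A ∈ GT b η ∧ t = A ++ Y}

/-- row N with both tips good -/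
def NEndG : Prop := ∀ ε : ℝ, 0 < ε → ∃ (η κ : ℝ) (m b0 : ℕ), 0 < η ∧ 0 < κ ∧ ∀ b : ℕ, b0 ≤ b → ∃ n0 : ℕ, ∀ n : ℕ, n0 ≤ n →
  TOG.Pn n {t | ((NCg b (2 ^ (b + m)) η t).ncard : ℝ) < κ * Ub b} ≤ ε

namespace Nf

lemma ncg_ge {b D : ℕ} {η : ℝ} {t : List Bool} {S : Finset ℕ}
    (h : ∀ c ∈ S, c ≤ t.length ∧ rev (t.drop c) ∈ GT b η ∧ In D (t.drop c) ∧ t.take c ∈ GT b η) :
    S.card ≤ (NCg b D η t).ncard := by
  classical
  have hfin : (NCg b D η t).Finite := fin_suf fun Y hY => by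
    obtain ⟨-, -, A, -, hA⟩ := hY
    exact ⟨A, hA.symm⟩
  have hinj : Set.InjOn (fun c : ℕ => t.drop c) (S : Set ℕ) := by
    intro c hc c' hc' he
    have h1 := congrArg List.length he
    simp only [List.length_drop] at h1
    have := (h c hc).1
    have := (h c' hc').1
    omega
  rw [← card_image_of_injOn hinj, ← Set.ncard_coe_finset]
  refine Set.ncard_le_ncard (fun Y hY => ?_) hfin
  obtain ⟨c, hc, rfl⟩ := mem_image.1 (mem_coe.1 hY)
  obtain ⟨-, h2, h3, h4⟩ := h c hc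
  exact ⟨h2, h3, t.take c, h4, (List.take_append_drop c t).symm⟩

open Classical in
/-- the rest behind the last good factor is short: many cuts with both tips good -/
theorem caseG (hW : NeW) {κ : ℝ} {C b : ℕ} {t X Z1 Z2 Z3 Y0 : List Bool} (hd : Dt κ C b t X Z1 Z2 Z3 Y0) {η : ℝ} {h m : ℕ}
    (hh : 1 ≤ h) (hη : η * Ub b ≤ (h : ℝ)) (h4 : 4 * h ≤ nc Z2) (hE : In (2 ^ (b + m)) Y0) (hC : 2 * C ≤ 2 ^ m) :
    h ≤ (NCg b (2 ^ (b + (m + 1))) η t).ncard := by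
  have hpow : 2 * (C * 2 ^ b) + 2 ^ (b + m) ≤ 2 ^ (b + (m + 1)) := by
    have e1 : 2 ^ (b + (m + 1)) = 2 ^ m * 2 ^ b + 2 ^ (b + m) := by
      rw [← add_assoc, pow_succ, pow_add]
      ring
    have e2 := Nat.mul_le_mul_right (2 ^ b) hC
    rw [e1]
    nlinarith
  have h1 := card_rank hW (Z := Z2) (lo := h) (hi := 2 * h) hh (by omega)
  have h2 : 2 * h - h = h := by omega
  rw [h2] at h1
  conv_lhs => rw [← h1, ← card_image_of_injective _ (fun x y h => Nat.add_left_cancel h :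
    Function.Injective fun c => (X ++ Z1).length + c)]
  refine ncg_ge fun q hq => ?_
  obtain ⟨c, hc, rfl⟩ := mem_image.1 hq
  rw [mem_filter] at hc
  obtain ⟨hc1, hc2, hc3⟩ := hc
  obtain ⟨a1, a2, a3⟩ := mem_cz.1 hc1
  obtain ⟨f1, f2, f3⟩ := hd.cut a1
  obtain ⟨g1, g2⟩ := hd.gt hW hη h4 hc1 hc2 (by omega)
  exact ⟨f1, g2, hd.inD hE hpow hc1, g1⟩

end Nf

open Nf

open Classical in
/-- **row N with both tips good** -/
theorem nEndG_of {κ : ℝ} {C : ℕ} (hκ : 0 < κ) (hW : NeW) (hLz : LzLog κ C) (hBig : BigN) (hY : YBad κ C) (hE : ExN) :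
    NEndG := by
  intro ε hε
  obtain ⟨η, hηd⟩ : ∃ η : ℝ, η = κ / 8 := ⟨_, rfl⟩
  have hη : 0 < η := by rw [hηd]; positivity
  obtain ⟨J1, b1, hY⟩ := hY η 1 2 hη
  obtain ⟨C1, hC1, hE⟩ := hE η (ε / 4) hη (by positivity)
  obtain ⟨a, bL, hLz⟩ := hLz
  -- the choice of m
  obtain ⟨m, hm1, hm2', hm3⟩ : ∃ m : ℕ, J1 ≤ m ∧ 2 * C + 3 ≤ 2 ^ m ∧ (8 * C1 / κ) * (1 / 2) ^ m ≤ ε / 4 := by
    obtain ⟨m0, hm0⟩ := ex_pow (K := 8 * C1 / κ) (e := ε / 4) (by positivity)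
    refine ⟨max (max J1 (2 * C + 3)) m0, (le_max_left _ _).trans (le_max_left _ _), ?_, hm0 _ (le_max_right _ _)⟩
    have h1 : 2 * C + 3 ≤ max (max J1 (2 * C + 3)) m0 := (le_max_right _ _).trans (le_max_left _ _)
    exact h1.trans Nat.lt_two_pow_self.le
  have hm2 : 2 * C ≤ 2 ^ m := by omega
  obtain ⟨bU, hbU⟩ : ∃ bU : ℕ, ∀ b, bU ≤ b → 8 ≤ κ * Ub b := by
    obtain ⟨B, hB⟩ := Ub_big
    obtain ⟨n, hn⟩ := exists_nat_ge (8 / κ)
    refine ⟨B * n, fun b hb => ?_⟩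
    have h1 := hB b n hb
    have h2 : (n : ℝ) ≤ 8 ^ n := by
      exact_mod_cast (Nat.lt_pow_self (by norm_num : 1 < 8)).le
    have h3 : 8 / κ ≤ Ub b := hn.trans (h2.trans h1)
    rw [div_le_iff₀ hκ] at h3
    linarith
  obtain ⟨b0, hb0⟩ : ∃ b0 : ℕ, b0 = max (max b1 bL) bU := ⟨_, rfl⟩
  refine ⟨η, κ / 8, m + 1, b0, hη, by positivity, fun b hb => ?_⟩
  have hb1 : b1 ≤ b := ((le_max_left _ _).trans (le_max_left _ _)).trans (hb0 ▸ hb)
  have hbL : bL ≤ b := ((le_max_right _ _).trans (le_max_left _ _)).trans (hb0 ▸ hb)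
  have hbU' : bU ≤ b := (le_max_right _ _).trans (hb0 ▸ hb)
  obtain ⟨nE, hE⟩ := hE b
  obtain ⟨nL, hL⟩ := hLz b hbL (ε / 4) (by positivity)
  obtain ⟨nB, hB⟩ := hBig b a
  refine ⟨max nE (max nL nB), fun n hn => ?_⟩
  have hnE : nE ≤ n := (le_max_left _ _).trans hn
  have hnL : nL ≤ n := ((le_max_left _ _).trans (le_max_right _ _)).trans hn
  have hnB : nB ≤ n := ((le_max_right _ _).trans (le_max_right _ _)).trans hn
  obtain ⟨B, hBε, hEx⟩ := hE n hnE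
  obtain ⟨m1, hm1a, hm1b, hm1c⟩ := hB n hnB
  have hLm := hL n hnL m1 hm1a
  have hU : 0 < Ub b := Ub_pos b
  have h8 := hbU b hbU'
  -- the numbers
  obtain ⟨h, hh⟩ : ∃ h : ℕ, h = ⌈κ * Ub b / 8⌉₊ := ⟨_, rfl⟩
  have hh1 : 1 ≤ h := by
    rw [hh, Nat.one_le_iff_ne_zero, Nat.ne_zero_iff_zero_lt, Nat.ceil_pos]
    positivity
  have hq : κ * Ub b / 8 ≤ (h : ℝ) := by
    rw [hh]
    exact Nat.le_ceil _
  have hh2 : (h : ℝ) < κ * Ub b / 8 + 1 := by
    rw [hh]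
    exact Nat.ceil_lt_add_one (by positivity)
  have hηh : η * Ub b ≤ (h : ℝ) := by
    rw [hηd]
    calc κ / 8 * Ub b = κ * Ub b / 8 := by ring
      _ ≤ h := hq
  -- the events
  obtain ⟨EJ, hEJ⟩ : ∃ EJ : ℕ → Set (List Bool), EJ = fun J => {t | t ∉ B ∧ κ * Ub b / 8 ≤
    (nD (2 ^ (b + (J + 1))) (RB κ C b (J + 1) (C * 2 ^ b) η) t : ℝ)} := ⟨_, rfl⟩
  obtain ⟨Js, hJs⟩ : ∃ Js : Finset ℕ, Js = (range (4 * m1 + 1)).filter fun J => m ≤ J ∧ 2 ^ J ≤ 4 * m1 := ⟨_, rfl⟩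
  -- the covering
  have hcov : ∀ t ∈ SawN n, t ∈ {t | ((NCg b (2 ^ (b + (m + 1))) η t).ncard : ℝ) < κ / 8 * Ub b} →
      t ∈ (B ∪ Lz κ C b m1) ∪ {t | ∃ J ∈ Js, t ∈ EJ J} := by
    intro t ht hbad
    by_cases hBt : t ∈ B
    · exact Or.inl (Or.inl hBt)
    by_cases hLt : t ∈ Lz κ C b m1
    · exact Or.inl (Or.inr hLt)
    have hNz : t ∉ Nz κ C b := fun hN => hLt ⟨[], t, [], by rw [List.nil_append, List.append_nil], hN, hm1c t ht⟩
    obtain ⟨X, Z1, Z2, Z3, Y0, hd⟩ := dt_of hW ht.2 hNz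
    have h4 : 4 * h ≤ nc Z2 := by
      have h5 : (4 : ℝ) * h ≤ nc Z2 := by
        have := hd.n2
        linarith
      exact_mod_cast h5
    have hY0 : In (m1 * 2 ^ b) Y0 := by
      by_contra hcon
      refine hLt ⟨X ++ (Z1 ++ (Z2 ++ Z3)), Y0, [], ?_, hd.nz, hcon⟩
      rw [hd.eq]
      simp only [List.append_assoc, List.append_nil]
    have hex : ∃ J, In (2 ^ (b + J)) Y0 := by
      refine ⟨m1, in_mono hY0 ?_⟩
      rw [pow_add, mul_comm]
      exact Nat.mul_le_mul_left _ Nat.lt_two_pow_self.le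
    rcases Nat.lt_or_ge m (Nat.find hex) with hJ | hJ
    · -- case B
      have h5 := Nat.find_spec hex
      have h6 := Nat.find_min hex (m := Nat.find hex - 1) (by omega)
      obtain ⟨J, hJd⟩ : ∃ J, J = Nat.find hex := ⟨_, rfl⟩
      rw [← hJd] at h5 h6 hJ
      have h7 : ¬ In (2 ^ (J - 1) * 2 ^ b) Y0 := by
        rwa [← pow_add, add_comm (J - 1) b]
      have h8' : 2 ^ (J - 1) < m1 := by
        by_contra hcon
        exact h7 (in_mono hY0 (Nat.mul_le_mul_right _ (not_lt.1 hcon)))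
      have h9 : 2 ^ J = 2 * 2 ^ (J - 1) := by
        rw [← pow_succ']
        congr 1
        omega
      have h10 : J < 2 ^ J := Nat.lt_two_pow_self
      refine Or.inr ⟨J, ?_, ?_⟩
      · rw [hJs, mem_filter, mem_range]
        omega
      · rw [hEJ]
        refine ⟨hBt, hq.trans ?_⟩
        have h11 : 2 * C ≤ 2 ^ J := hm2.trans (Nat.pow_le_pow_right (by norm_num) (by omega))
        have h12 : 2 ^ (J + 1) ≤ 2 ^ (J - 1) * 2 ^ 2 := by
          rw [pow_succ, h9]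
          omega
        exact_mod_cast caseB hW hd hh1 hηh h4 h12 h5 h7 h11
    · -- the good case
      exfalso
      have h5 : In (2 ^ (b + m)) Y0 := in_mono (Nat.find_spec hex) (Nat.pow_le_pow_right (by norm_num) (by omega))
      have h6 := caseG hW hd hh1 hηh h4 h5 hm2
      have h7 : (h : ℝ) ≤ ((NCg b (2 ^ (b + (m + 1))) η t).ncard : ℝ) := by exact_mod_cast h6
      have h8' : ((NCg b (2 ^ (b + (m + 1))) η t).ncard : ℝ) < κ / 8 * Ub b := hbad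
      have h9 : κ / 8 * Ub b = κ * Ub b / 8 := by ring
      linarith
  -- the mass of the cases B
  have hB1 : ∀ J ∈ Js, TOG.Pn n (EJ J) ≤ 8 * C1 / κ * (1 / 2) ^ (J + 1) := by
    intro J hJ
    rw [hJs, mem_filter, mem_range] at hJ
    obtain ⟨-, j1, j2⟩ := hJ
    have hD : ((2 ^ (b + (J + 1)) : ℕ) : ℝ) ^ 10 ≤ n := by
      refine le_trans (pow_le_pow_left₀ (Nat.cast_nonneg _) ?_ 10) hm1b
      have h5 : 2 ^ (b + (J + 1)) ≤ 64 * m1 * 2 ^ b := by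
        rw [pow_add, pow_succ, mul_comm]
        exact Nat.mul_le_mul_right _ (by omega)
      exact_mod_cast h5
    have hloc : 4 * (C * 2 ^ b) ≤ 2 ^ (b + (J + 1)) := by
      have e1 : 2 ^ (b + (J + 1)) = 2 * (2 ^ J * 2 ^ b) := by
        rw [pow_add, pow_succ]
        ring
      have e2 := Nat.mul_le_mul_right (2 ^ b) (hm2.trans (Nat.pow_le_pow_right (by norm_num) j1))
      rw [e1]
      nlinarith
    have h5 := hEx (RB κ C b (J + 1) (C * 2 ^ b) η) (ENNReal.ofReal (Ub b / (2 : ℝ) ^ (1 * (J + 1))) * Xb b) (κ * Ub b / 8)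
      (2 ^ (b + (J + 1))) hD (rb_loc hloc) (fun A Y h => h.1.gt) (fun A => ?_) (by positivity)
    · rw [hEJ]
      refine (cancel (by positivity) hC1.le (by positivity) h5).trans (le_of_eq ?_)
      rw [one_mul, one_div, inv_pow]
      field_simp
    · refine le_trans (gf_mono ?_) (hY b (J + 1) hb1 (by omega))
      rintro Y ⟨⟨-, y1, y2, y3⟩, y4⟩
      exact ⟨y1, y2, y4, y3⟩
  -- the sum
  refine (Pn_mono hcov).trans ((Pn_union n _ _).trans ?_)
  have h6 := Pn_union n B (Lz κ C b m1)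
  have h7 : TOG.Pn n {t | ∃ J ∈ Js, t ∈ EJ J} ≤ ε / 4 := by
    refine (Pn_biU n Js EJ).trans ((sum_le_sum hB1).trans ?_)
    rw [← mul_sum]
    refine le_trans (mul_le_mul_of_nonneg_left (sum_two m Js fun J hJ => ?_) (by positivity)) hm3
    rw [hJs, mem_filter] at hJ
    exact hJ.2.1
  linarith

/-- row N with both tips good, from LzLog, YBad and ExN -/
theorem nEndG_c {κ : ℝ} {C : ℕ} (hκ : 0 < κ) (hLz : LzLog κ C) (hY : YBad κ C) (hE : ExN) : NEndG :=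
  nEndG_of hκ neW hLz big_n hY hE

end TIP

end HexObs
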