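import Pool.Agent.TIP.NfC
import Pool.Agent.TIP.NfG
import Pool.Agent.TIP.YBad
import Pool.Agent.TIP.LzLog
import Pool.Agent.TIP.ExN
import Pool.Agent.TIP.GeoZ

/-!
TIP: **row N is a theorem**: the end of a uniform walk of n letters is nice on every fixed scale, with probability near 1,
uniformly in n.
-/

set_option autoImplicit false

namespace HexObs

namespace TIP

/-- **row N** -/
theorem nEndA : NEndA := by
  obtain ⟨κ, hκ, C, -, hR⟩ := regZ_all
  exact nEndA_c hκ (lzLog hR) (yBad hR) exN

/-- **row N**, both tips good -/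
theorem nEndG : NEndG := by
  obtain ⟨κ, hκ, C, -, hR⟩ := regZ_all
  exact nEndG_c hκ (lzLog hR) (yBad hR) exN

end TIP

end HexObs
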