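import Pool.Agent.TIP.Soft

/-!
# TIP/SoftW: the soft part of the local limit, weighted form (helper34's scheme, doc nu34/SOFT_34; typed by helper10)

Finite probability. `S` finite set with weights `p` of total mass one; scales `i < M`; at each scale a weight `W i ≥ 0`
(number of pairs of the scale, normalised) and its discretisation `D i`; the far pattern `pd D i M` = the values `D j`,
`i ≤ j < M`. If the weighted mean of `1_Q - ν` times any function of the far pattern is small, and if the weight dominates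
the nice configurations given the far pattern, then the probability of `Q` is `ν` up to a small error, at a scale at which
the martingale of the conditional probabilities of `Q` moves little.

* `softw_mass`: one measure of mass at most one; **`softw_fam`**: finitely many measures of mass at most one with the
  same `ν`, one scale for all of them; **`softw_two`**: two probability measures.
-/

set_option autoImplicit false

namespace HexObs

namespace TIP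

open Finset

variable {Ω : Type*}

/-- the far pattern: the values of the discretised weights at the scales from `i` on -/
def pd (D : ℕ → Ω → ℤ) (i M : ℕ) (t : Ω) : ℕ → ℤ := fun j => if i ≤ j ∧ j < M then D j t else 0

lemma pd_succ {D : ℕ → Ω → ℤ} {i M : ℕ} (t : Ω) :
    pd D (i + 1) M t = fun j => if i + 1 ≤ j then pd D i M t j else 0 := by
  funext j
  unfold pd
  by_cases h : i + 1 ≤ j
  · by_cases h2 : j < M
    · rw [if_pos ⟨h, h2⟩, if_pos h, if_pos ⟨by omega, h2⟩]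
    · rw [if_neg (fun h' => h2 h'.2), if_pos h, if_neg (fun h' => h2 h'.2)]
  · rw [if_neg (fun h' => h h'.1), if_neg h]

lemma pd_self {D : ℕ → Ω → ℤ} {i M : ℕ} (hi : i < M) (t : Ω) : pd D i M t i = D i t := by
  unfold pd
  rw [if_pos ⟨le_rfl, hi⟩]

/-- the energy of the conditional probability -/
noncomputable def enW (S : Finset Ω) (p : Ω → ℝ) (Q : Set Ω) (D : ℕ → Ω → ℤ) (M i : ℕ) : ℝ :=
  ∑ t ∈ S, p t * (cnd S p Q (pd D i M) t) ^ 2

lemma enW_nonneg {S : Finset Ω} {p : Ω → ℝ} (hp : ∀ t, 0 ≤ p t) (Q : Set Ω) (D : ℕ → Ω → ℤ) (M i : ℕ) :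
    0 ≤ enW S p Q D M i := sum_nonneg fun t _ => mul_nonneg (hp t) (sq_nonneg _)

lemma enW_le_one {S : Finset Ω} {p : Ω → ℝ} (hp : ∀ t, 0 ≤ p t) (h1 : ∑ t ∈ S, p t ≤ 1) (Q : Set Ω)
    (D : ℕ → Ω → ℤ) (M i : ℕ) : enW S p Q D M i ≤ 1 := by
  refine le_trans (sum_le_sum fun t _ => ?_) h1
  have h2 := cnd_nonneg hp Q (pd D i M) t (S := S)
  have h3 := cnd_le_one hp Q (pd D i M) t (S := S)
  have h4 : (cnd S p Q (pd D i M) t) ^ 2 ≤ 1 := by nlinarith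
  calc p t * (cnd S p Q (pd D i M) t) ^ 2 ≤ p t * 1 := mul_le_mul_of_nonneg_left h4 (hp t)
    _ = p t := mul_one _

/-- the increments of the martingale -/
lemma enW_succ {S : Finset Ω} {p : Ω → ℝ} (hp : ∀ t, 0 ≤ p t) (Q : Set Ω) (D : ℕ → Ω → ℤ) (M i : ℕ) :
    ∑ t ∈ S, p t * (cnd S p Q (pd D (i + 1) M) t - cnd S p Q (pd D i M) t) ^ 2 =
      enW S p Q D M i - enW S p Q D M (i + 1) := by
  classical
  obtain ⟨X, hX⟩ : ∃ X, X = cnd S p Q (pd D i M) := ⟨_, rfl⟩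
  obtain ⟨Y, hY⟩ : ∃ Y, Y = cnd S p Q (pd D (i + 1) M) := ⟨_, rfl⟩
  obtain ⟨y, hy⟩ : ∃ y : (ℕ → ℤ) → ℝ, y = fun a =>
      ms S p (fun s => pd D (i + 1) M s = a ∧ s ∈ Q) / ms S p (fun s => pd D (i + 1) M s = a) := ⟨_, rfl⟩
  have hYy : ∀ t, Y t = y (pd D (i + 1) M t) := fun t => by rw [hY, hy]; rfl
  have h1 : ∑ t ∈ S, p t * (X t * Y t) = ∑ t ∈ S, p t * (Y t * Y t) := by
    have a := cnd_spec (S := S) hp Q (pd D i M) (fun a => y (fun j => if i + 1 ≤ j then a j else 0))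
    have b := cnd_spec (S := S) hp Q (pd D (i + 1) M) y
    simp only [← pd_succ] at a
    rw [a, ← hX, ← hY] at b
    simp only [hYy]
    simp only [hYy] at b
    exact b
  have e1 : enW S p Q D M i = ∑ t ∈ S, p t * (X t) ^ 2 := by rw [hX]; rfl
  have e2 : enW S p Q D M (i + 1) = ∑ t ∈ S, p t * (Y t) ^ 2 := by rw [hY]; rfl
  rw [← hX, ← hY, e1, e2]
  have e3 : ∑ t ∈ S, p t * (Y t - X t) ^ 2 =
      ∑ t ∈ S, p t * (X t) ^ 2 + ∑ t ∈ S, p t * (Y t * Y t) - 2 * ∑ t ∈ S, p t * (X t * Y t) := by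
    rw [mul_sum, ← sum_add_distrib, ← sum_sub_distrib]
    refine sum_congr rfl fun t _ => ?_
    ring
  rw [e3, h1]
  have e4 : ∑ t ∈ S, p t * (Y t) ^ 2 = ∑ t ∈ S, p t * (Y t * Y t) := sum_congr rfl fun t _ => by ring
  rw [e4]
  ring

/-- the hypotheses at one scale -/
structure ScaleW (S : Finset Ω) (p : Ω → ℝ) (Q : Set Ω) (D : ℕ → Ω → ℤ) (W : ℕ → Ω → ℝ) (N : ℕ → Set Ω)
    (M i : ℕ) (c ε δ C s ν : ℝ) : Prop where
  /-- the weight -/
  w0 : ∀ t ∈ S, 0 ≤ W i t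
  /-- the discretisation -/
  wd : ∀ t ∈ S, |W i t - δ * D i t| ≤ δ
  /-- the second moment -/
  w2 : ∑ t ∈ S, p t * (W i t) ^ 2 ≤ C ^ 2
  /-- the law inside is `ν` -/
  inn : ∀ φ : (ℕ → ℤ) → ℝ, (∀ x, |φ x| ≤ 1) →
    |∑ t ∈ S, p t * (W i t * ((ind (t ∈ Q) - ν) * φ (pd D (i + 1) M t)))| ≤ s
  /-- the weight dominates the nice configurations -/
  low : ∀ φ : (ℕ → ℤ) → ℝ, (∀ x, 0 ≤ φ x ∧ φ x ≤ 1) →
    c * ∑ t ∈ S, p t * (ind (t ∈ N i) * φ (pd D (i + 1) M t)) ≤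
      (∑ t ∈ S, p t * (W i t * φ (pd D (i + 1) M t))) + s
  /-- most configurations are nice -/
  nice : ms S p (fun t => ¬ t ∈ N i) ≤ ε

/-- the sign of a real number -/
noncomputable def sgr (x : ℝ) : ℝ := by
  classical
  exact if 0 ≤ x then 1 else -1

lemma sgr_mul (x : ℝ) : x * sgr x = |x| := by
  unfold sgr
  split_ifs with h
  · rw [abs_of_nonneg h, mul_one]
  · rw [abs_of_neg (not_le.1 h)]
    ring

lemma sgr_abs (x : ℝ) : |sgr x| ≤ 1 := by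
  unfold sgr
  split_ifs with h
  · rw [abs_one]
  · rw [abs_neg, abs_one]

/-- Cauchy-Schwarz with weights -/
lemma cs_wt {S : Finset Ω} {p : Ω → ℝ} (hp : ∀ t, 0 ≤ p t) (f g : Ω → ℝ) {A B : ℝ} (hA0 : 0 ≤ A)
    (hA : ∑ t ∈ S, p t * (f t) ^ 2 ≤ A ^ 2) (hB : ∑ t ∈ S, p t * (g t) ^ 2 ≤ B) :
    |∑ t ∈ S, p t * (f t * g t)| ≤ A * Real.sqrt B := by
  have h1 : (∑ t ∈ S, p t * (f t * g t)) ^ 2 ≤
      (∑ t ∈ S, p t * (f t) ^ 2) * ∑ t ∈ S, p t * (g t) ^ 2 := by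
    refine sum_sq_le_sum_mul_sum_of_sq_le_mul _ (fun t _ => mul_nonneg (hp t) (sq_nonneg _))
      (fun t _ => mul_nonneg (hp t) (sq_nonneg _)) fun t _ => ?_
    exact le_of_eq (by ring)
  have hB0 : 0 ≤ ∑ t ∈ S, p t * (g t) ^ 2 := sum_nonneg fun t _ => mul_nonneg (hp t) (sq_nonneg _)
  have h2 : (∑ t ∈ S, p t * (f t * g t)) ^ 2 ≤ (A * Real.sqrt B) ^ 2 := by
    rw [mul_pow, Real.sq_sqrt (hB0.trans hB)]
    refine h1.trans (mul_le_mul hA hB hB0 (sq_nonneg _))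
  exact abs_le_of_sq_le_sq h2 (mul_nonneg hA0 (Real.sqrt_nonneg _))

/-- one measure of mass at most one -/
theorem softw_mass {S : Finset Ω} {p : Ω → ℝ} (hp : ∀ t, 0 ≤ p t) (h1 : ∑ t ∈ S, p t ≤ 1) {Q : Set Ω}
    {D : ℕ → Ω → ℤ} {W : ℕ → Ω → ℝ} {N : ℕ → Set Ω} {M i : ℕ} (hi : i < M) {c ε δ C s ν : ℝ} (hc : 0 < c)
    (hC : 0 ≤ C) (hδ : 0 ≤ δ) (hν0 : 0 ≤ ν) (hν1 : ν ≤ 1) (H : ScaleW S p Q D W N M i c ε δ C s ν) :
    |ms S p (fun t => t ∈ Q) - ν * ∑ t ∈ S, p t| ≤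
      ε + (2 * s + 2 * δ + C * Real.sqrt (enW S p Q D M i - enW S p Q D M (i + 1))) / c := by
  classical
  obtain ⟨X, hX⟩ : ∃ X, X = cnd S p Q (pd D i M) := ⟨_, rfl⟩
  obtain ⟨Y, hY⟩ : ∃ Y, Y = cnd S p Q (pd D (i + 1) M) := ⟨_, rfl⟩
  obtain ⟨y, hy⟩ : ∃ y : (ℕ → ℤ) → ℝ, y = fun a =>
      ms S p (fun s => pd D (i + 1) M s = a ∧ s ∈ Q) / ms S p (fun s => pd D (i + 1) M s = a) := ⟨_, rfl⟩
  have hYy : ∀ t, Y t = y (pd D (i + 1) M t) := fun t => by rw [hY, hy]; rfl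
  have hy0 : ∀ a, 0 ≤ y a := fun a => by
    rw [hy]
    exact div_nonneg (ms_nonneg hp _) (ms_nonneg hp _)
  have hy1 : ∀ a, y a ≤ 1 := fun a => by
    rw [hy]
    exact div_le_one_of_le₀ (ms_mono hp fun _ h => h.1) (ms_nonneg hp _)
  have hya : ∀ a, |y a - ν| ≤ 1 := fun a => by
    rw [abs_le]
    have b0 := hy0 a
    have b1 := hy1 a
    constructor <;> linarith
  -- the probability of `Q` is the mean of `Y`
  have e0 : ms S p (fun t => t ∈ Q) - ν * ∑ t ∈ S, p t = ∑ t ∈ S, p t * (Y t - ν) := by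
    have a := cnd_spec (S := S) hp Q (pd D (i + 1) M) (fun _ => 1)
    simp only [mul_one] at a
    have b : ∑ t ∈ S, p t * (Y t - ν) = ∑ t ∈ S, p t * Y t - ν * ∑ t ∈ S, p t := by
      rw [mul_sum, ← sum_sub_distrib]
      exact sum_congr rfl fun t _ => by ring
    rw [b, hY, ← a]
    rfl
  obtain ⟨φ, hφ⟩ : ∃ φ : (ℕ → ℤ) → ℝ, φ = fun a => sgr (y a - ν) := ⟨_, rfl⟩
  obtain ⟨P, hP⟩ : ∃ P : Ω → ℕ → ℤ, P = pd D (i + 1) M := ⟨_, rfl⟩
  have hφ1 : ∀ x, |φ x| ≤ 1 := fun x => by rw [hφ]; exact sgr_abs _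
  -- the weight against `1_Q - ν`
  have k1 := H.inn φ hφ1
  rw [← hP] at k1
  -- discretise
  have hδs : ∑ t ∈ S, p t * δ ≤ δ := by
    rw [← sum_mul]
    calc (∑ t ∈ S, p t) * δ ≤ 1 * δ := mul_le_mul_of_nonneg_right h1 hδ
      _ = δ := one_mul δ
  have k2 : |∑ t ∈ S, p t * ((W i t - δ * D i t) * ((ind (t ∈ Q) - ν) * φ (P t)))| ≤ δ := by
    refine (abs_sum_le_sum_abs _ _).trans (le_trans ?_ hδs)
    refine sum_le_sum fun t ht => ?_
    rw [abs_mul, abs_of_nonneg (hp t), abs_mul, abs_mul]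
    refine mul_le_mul_of_nonneg_left ?_ (hp t)
    have a1 := H.wd t ht
    have a2 : |ind (t ∈ Q) - ν| ≤ 1 := by
      rw [abs_le]
      have b0 := ind_nonneg (t ∈ Q)
      have b1 := ind_le_one (t ∈ Q)
      constructor <;> linarith
    have a3 : |ind (t ∈ Q) - ν| * |φ (P t)| ≤ 1 * 1 :=
      mul_le_mul a2 (hφ1 _) (abs_nonneg _) zero_le_one
    calc |W i t - δ * D i t| * (|ind (t ∈ Q) - ν| * |φ (P t)|) ≤ δ * (1 * 1) :=
          mul_le_mul a1 a3 (mul_nonneg (abs_nonneg _) (abs_nonneg _)) hδ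
      _ = δ := by ring
  -- condition
  have k3 : ∑ t ∈ S, p t * (δ * D i t * ((ind (t ∈ Q) - ν) * φ (P t))) =
      ∑ t ∈ S, p t * (δ * D i t * ((X t - ν) * φ (P t))) := by
    have a := cnd_spec (S := S) hp Q (pd D i M)
      (fun a => δ * a i * φ (fun j => if i + 1 ≤ j then a j else 0))
    simp only [← pd_succ, pd_self hi, ← hP, ← hX] at a
    have b : ∀ (Z : Ω → ℝ), ∑ t ∈ S, p t * (δ * D i t * ((Z t - ν) * φ (P t))) =
        ∑ t ∈ S, p t * (Z t * (δ * D i t * φ (P t))) - ν * ∑ t ∈ S, p t * (δ * D i t * φ (P t)) := by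
      intro Z
      rw [mul_sum, ← sum_sub_distrib]
      exact sum_congr rfl fun t _ => by ring
    rw [b, b]
    have c1 : ∑ t ∈ S, p t * (ind (t ∈ Q) * (δ * D i t * φ (P t))) =
        ∑ t ∈ S, p t * ind (t ∈ Q) * (δ * D i t * φ (P t)) := sum_congr rfl fun t _ => by ring
    rw [c1, a]
  have k4 : |∑ t ∈ S, p t * ((W i t - δ * D i t) * ((X t - ν) * φ (P t)))| ≤ δ := by
    refine (abs_sum_le_sum_abs _ _).trans (le_trans ?_ hδs)
    refine sum_le_sum fun t ht => ?_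
    rw [abs_mul, abs_of_nonneg (hp t), abs_mul, abs_mul]
    refine mul_le_mul_of_nonneg_left ?_ (hp t)
    have a1 := H.wd t ht
    have a2 : |X t - ν| ≤ 1 := by
      rw [abs_le, hX]
      have b0 := cnd_nonneg hp Q (pd D i M) t (S := S)
      have b1 := cnd_le_one hp Q (pd D i M) t (S := S)
      constructor <;> linarith
    have a3 : |X t - ν| * |φ (P t)| ≤ 1 * 1 := mul_le_mul a2 (hφ1 _) (abs_nonneg _) zero_le_one
    calc |W i t - δ * D i t| * (|X t - ν| * |φ (P t)|) ≤ δ * (1 * 1) :=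
          mul_le_mul a1 a3 (mul_nonneg (abs_nonneg _) (abs_nonneg _)) hδ
      _ = δ := by ring
  have k5 : ∑ t ∈ S, p t * (W i t * ((X t - ν) * φ (P t))) =
      ∑ t ∈ S, p t * (W i t * ((ind (t ∈ Q) - ν) * φ (P t))) -
        ∑ t ∈ S, p t * ((W i t - δ * D i t) * ((ind (t ∈ Q) - ν) * φ (P t))) +
        ∑ t ∈ S, p t * ((W i t - δ * D i t) * ((X t - ν) * φ (P t))) := by
    have a : ∀ (Z : Ω → ℝ), ∑ t ∈ S, p t * (W i t * ((Z t - ν) * φ (P t))) =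
        ∑ t ∈ S, p t * ((W i t - δ * D i t) * ((Z t - ν) * φ (P t))) +
          ∑ t ∈ S, p t * (δ * D i t * ((Z t - ν) * φ (P t))) := by
      intro Z
      rw [← sum_add_distrib]
      exact sum_congr rfl fun t _ => by ring
    rw [a X, a (fun t => ind (t ∈ Q)), k3]
    ring
  have k6 : |∑ t ∈ S, p t * (W i t * ((X t - ν) * φ (P t)))| ≤ s + 2 * δ := by
    rw [k5]
    have a1 := abs_add_le (∑ t ∈ S, p t * (W i t * ((ind (t ∈ Q) - ν) * φ (P t))) -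
        ∑ t ∈ S, p t * ((W i t - δ * D i t) * ((ind (t ∈ Q) - ν) * φ (P t))))
      (∑ t ∈ S, p t * ((W i t - δ * D i t) * ((X t - ν) * φ (P t))))
    have a2 := abs_sub (∑ t ∈ S, p t * (W i t * ((ind (t ∈ Q) - ν) * φ (P t))))
      (∑ t ∈ S, p t * ((W i t - δ * D i t) * ((ind (t ∈ Q) - ν) * φ (P t))))
    linarith
  -- the increment
  have k7 : |∑ t ∈ S, p t * (W i t * ((Y t - X t) * φ (P t)))| ≤
      C * Real.sqrt (enW S p Q D M i - enW S p Q D M (i + 1)) := by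
    refine cs_wt hp (W i) (fun t => (Y t - X t) * φ (P t)) hC H.w2 ?_
    rw [← enW_succ hp, ← hX, ← hY]
    refine sum_le_sum fun t _ => mul_le_mul_of_nonneg_left ?_ (hp t)
    have a1 : (φ (P t)) ^ 2 ≤ 1 := by
      have := hφ1 (P t)
      rw [← sq_abs]
      have h0 := abs_nonneg (φ (P t))
      nlinarith
    calc ((Y t - X t) * φ (P t)) ^ 2 = (Y t - X t) ^ 2 * (φ (P t)) ^ 2 := by ring
      _ ≤ (Y t - X t) ^ 2 * 1 := mul_le_mul_of_nonneg_left a1 (sq_nonneg _)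
      _ = (Y t - X t) ^ 2 := mul_one _
  have k8 : ∑ t ∈ S, p t * (W i t * |y (P t) - ν|) ≤
      s + 2 * δ + C * Real.sqrt (enW S p Q D M i - enW S p Q D M (i + 1)) := by
    have a : ∑ t ∈ S, p t * (W i t * |y (P t) - ν|) =
        ∑ t ∈ S, p t * (W i t * ((X t - ν) * φ (P t))) + ∑ t ∈ S, p t * (W i t * ((Y t - X t) * φ (P t))) := by
      rw [← sum_add_distrib]
      refine sum_congr rfl fun t _ => ?_
      rw [← sgr_mul (y (P t) - ν), hφ, hP, hYy t]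
      ring
    rw [a]
    have b1 := le_abs_self (∑ t ∈ S, p t * (W i t * ((X t - ν) * φ (P t))))
    have b2 := le_abs_self (∑ t ∈ S, p t * (W i t * ((Y t - X t) * φ (P t))))
    linarith
  -- nice configurations
  have k9 := H.low (fun x => |y x - ν|) fun x => ⟨abs_nonneg _, hya x⟩
  rw [← hP] at k9
  have k10 : ∑ t ∈ S, p t * (ind (t ∈ N i) * |y (P t) - ν|) ≤
      (2 * s + 2 * δ + C * Real.sqrt (enW S p Q D M i - enW S p Q D M (i + 1))) / c := by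
    rw [le_div_iff₀ hc]
    linarith
  have k11 : ∑ t ∈ S, p t * (ind (¬ t ∈ N i) * |y (P t) - ν|) ≤ ε := by
    refine le_trans ?_ H.nice
    unfold ms
    refine sum_le_sum fun t _ => mul_le_mul_of_nonneg_left ?_ (hp t)
    calc ind (¬ t ∈ N i) * |y (P t) - ν| ≤ ind (¬ t ∈ N i) * 1 :=
          mul_le_mul_of_nonneg_left (hya _) (ind_nonneg _)
      _ = ind (¬ t ∈ N i) := mul_one _
  rw [e0]
  have k12 : |∑ t ∈ S, p t * (Y t - ν)| ≤ ∑ t ∈ S, p t * |y (P t) - ν| := by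
    refine (abs_sum_le_sum_abs _ _).trans (le_of_eq ?_)
    refine sum_congr rfl fun t _ => ?_
    rw [abs_mul, abs_of_nonneg (hp t), hYy t, hP]
  have k13 : ∑ t ∈ S, p t * |y (P t) - ν| = ∑ t ∈ S, p t * (ind (t ∈ N i) * |y (P t) - ν|) +
      ∑ t ∈ S, p t * (ind (¬ t ∈ N i) * |y (P t) - ν|) := by
    rw [← sum_add_distrib]
    refine sum_congr rfl fun t _ => ?_
    have h := ind_add_not (t ∈ N i)
    calc p t * |y (P t) - ν| = p t * ((ind (t ∈ N i) + ind (¬ t ∈ N i)) * |y (P t) - ν|) := by rw [h, one_mul]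
      _ = _ := by ring
  linarith

/-- one measure -/
theorem softw_one {S : Finset Ω} {p : Ω → ℝ} (hp : ∀ t, 0 ≤ p t) (h1 : ∑ t ∈ S, p t = 1) {Q : Set Ω}
    {D : ℕ → Ω → ℤ} {W : ℕ → Ω → ℝ} {N : ℕ → Set Ω} {M i : ℕ} (hi : i < M) {c ε δ C s ν : ℝ} (hc : 0 < c)
    (hC : 0 ≤ C) (hδ : 0 ≤ δ) (hν0 : 0 ≤ ν) (hν1 : ν ≤ 1) (H : ScaleW S p Q D W N M i c ε δ C s ν) :
    |ms S p (fun t => t ∈ Q) - ν| ≤
      ε + (2 * s + 2 * δ + C * Real.sqrt (enW S p Q D M i - enW S p Q D M (i + 1))) / c := by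
  have h := softw_mass hp h1.le hi hc hC hδ hν0 hν1 H
  rwa [h1, mul_one] at h

/-- the increments have the sum at most one -/
lemma enW_sum {S : Finset Ω} {p : Ω → ℝ} (hp : ∀ t, 0 ≤ p t) (h1 : ∑ t ∈ S, p t ≤ 1) (Q : Set Ω)
    (D : ℕ → Ω → ℤ) (M : ℕ) : ∑ i ∈ range M, (enW S p Q D M i - enW S p Q D M (i + 1)) ≤ 1 := by
  rw [sum_range_sub' (fun i => enW S p Q D M i) M]
  linarith [enW_le_one hp h1 Q D M 0, enW_nonneg (S := S) hp Q D M M]

lemma enW_inc {S : Finset Ω} {p : Ω → ℝ} (hp : ∀ t, 0 ≤ p t) (Q : Set Ω) (D : ℕ → Ω → ℤ) (M i : ℕ) :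
    0 ≤ enW S p Q D M i - enW S p Q D M (i + 1) := by
  rw [← enW_succ hp]
  exact sum_nonneg fun t _ => mul_nonneg (hp t) (sq_nonneg _)

/-- **finitely many measures of mass at most one with the same inner laws: one scale for all of them** -/
theorem softw_fam {κ : Type*} (K : Finset κ) {S : κ → Finset Ω} {p : κ → Ω → ℝ} (hp : ∀ k ∈ K, ∀ t, 0 ≤ p k t)
    (h1 : ∀ k ∈ K, ∑ t ∈ S k, p k t ≤ 1) {Q : κ → Set Ω} {D : κ → ℕ → Ω → ℤ} {W : κ → ℕ → Ω → ℝ} {N : κ → ℕ → Set Ω}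
    {M : ℕ} (hM : 0 < M) {c ε δ C s : ℝ} {ν : ℕ → ℝ} (hc : 0 < c) (hC : 0 ≤ C) (hδ : 0 ≤ δ) (hν0 : ∀ i, 0 ≤ ν i)
    (hν1 : ∀ i, ν i ≤ 1) (H : ∀ k ∈ K, ∀ i, i < M → ScaleW (S k) (p k) (Q k) (D k) (W k) (N k) M i c ε δ C s (ν i)) :
    ∃ i, i < M ∧ ∀ k ∈ K, |ms (S k) (p k) (fun t => t ∈ Q k) - ν i * ∑ t ∈ S k, p k t| ≤
      ε + (2 * s + 2 * δ + C * Real.sqrt (K.card / M)) / c := by
  have hMR : (0 : ℝ) < M := by exact_mod_cast hM
  obtain ⟨Δ, hΔ⟩ : ∃ Δ : κ → ℕ → ℝ, Δ = fun k i => enW (S k) (p k) (Q k) (D k) M i - enW (S k) (p k) (Q k) (D k) M (i + 1) :=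
    ⟨_, rfl⟩
  have hs : ∑ i ∈ range M, ∑ k ∈ K, Δ k i ≤ K.card := by
    rw [sum_comm, hΔ]
    calc ∑ k ∈ K, ∑ i ∈ range M, (enW (S k) (p k) (Q k) (D k) M i - enW (S k) (p k) (Q k) (D k) M (i + 1)) ≤
        ∑ _k ∈ K, (1 : ℝ) := sum_le_sum fun k hk => enW_sum (hp k hk) (h1 k hk) _ _ _
      _ = K.card := by rw [sum_const, nsmul_eq_mul, mul_one]
  obtain ⟨i, hi, hΔi⟩ : ∃ i ∈ range M, ∑ k ∈ K, Δ k i ≤ K.card / M := by
    by_contra hcon
    push Not at hcon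
    have h2 : ∑ _i ∈ range M, ((K.card : ℝ) / M) < ∑ i ∈ range M, ∑ k ∈ K, Δ k i :=
      sum_lt_sum_of_nonempty ⟨0, mem_range.2 hM⟩ fun i hi => hcon i hi
    rw [sum_const, card_range, nsmul_eq_mul] at h2
    have h3 : (M : ℝ) * (K.card / M) = K.card := by field_simp
    linarith
  have hi' := mem_range.1 hi
  refine ⟨i, hi', fun k hk => ?_⟩
  have b1 := softw_mass (hp k hk) (h1 k hk) hi' hc hC hδ (hν0 _) (hν1 _) (H k hk i hi')
  have c0 : Δ k i ≤ K.card / M := by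
    refine le_trans ?_ hΔi
    refine single_le_sum (f := fun k => Δ k i) (fun j hj => ?_) hk
    rw [hΔ]
    exact enW_inc (hp j hj) _ _ _ _
  have c1 : Real.sqrt (enW (S k) (p k) (Q k) (D k) M i - enW (S k) (p k) (Q k) (D k) M (i + 1)) ≤
      Real.sqrt (K.card / M) := by
    rw [hΔ] at c0
    exact Real.sqrt_le_sqrt c0
  have d1 : (2 * s + 2 * δ + C * Real.sqrt (enW (S k) (p k) (Q k) (D k) M i - enW (S k) (p k) (Q k) (D k) M (i + 1))) / c ≤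
      (2 * s + 2 * δ + C * Real.sqrt (K.card / M)) / c := by
    apply div_le_div_of_nonneg_right _ hc.le
    have := mul_le_mul_of_nonneg_left c1 hC
    linarith
  linarith

/-- **two measures with the same inner laws** -/
theorem softw_two {Ω' : Type*} {S : Finset Ω} {p : Ω → ℝ} (hp : ∀ t, 0 ≤ p t) (h1 : ∑ t ∈ S, p t = 1)
    {S' : Finset Ω'} {p' : Ω' → ℝ} (hp' : ∀ t, 0 ≤ p' t) (h1' : ∑ t ∈ S', p' t = 1)
    {Q : Set Ω} {D : ℕ → Ω → ℤ} {W : ℕ → Ω → ℝ} {N : ℕ → Set Ω}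
    {Q' : Set Ω'} {D' : ℕ → Ω' → ℤ} {W' : ℕ → Ω' → ℝ} {N' : ℕ → Set Ω'} {M : ℕ} (hM : 0 < M) {c ε δ C s : ℝ}
    {ν : ℕ → ℝ} (hc : 0 < c) (hC : 0 ≤ C) (hδ : 0 ≤ δ) (hν0 : ∀ i, 0 ≤ ν i) (hν1 : ∀ i, ν i ≤ 1)
    (H : ∀ i, i < M → ScaleW S p Q D W N M i c ε δ C s (ν i))
    (H' : ∀ i, i < M → ScaleW S' p' Q' D' W' N' M i c ε δ C s (ν i)) :
    |ms S p (fun t => t ∈ Q) - ms S' p' (fun t => t ∈ Q')| ≤
      2 * (ε + (2 * s + 2 * δ + C * Real.sqrt (2 / M)) / c) := by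
  have hMR : (0 : ℝ) < M := by exact_mod_cast hM
  obtain ⟨Δ, hΔ⟩ : ∃ Δ : ℕ → ℝ, Δ = fun i =>
    (enW S p Q D M i - enW S p Q D M (i + 1)) + (enW S' p' Q' D' M i - enW S' p' Q' D' M (i + 1)) := ⟨_, rfl⟩
  have hs : ∑ i ∈ range M, Δ i ≤ 2 := by
    rw [hΔ, sum_add_distrib]
    linarith [enW_sum hp h1.le Q D M, enW_sum hp' h1'.le Q' D' M]
  obtain ⟨i, hi, hΔi⟩ : ∃ i ∈ range M, Δ i ≤ 2 / M := by
    by_contra hcon
    push Not at hcon
    have h2 : ∑ _i ∈ range M, (2 / (M : ℝ)) < ∑ i ∈ range M, Δ i :=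
      sum_lt_sum_of_nonempty ⟨0, mem_range.2 hM⟩ fun i hi => hcon i hi
    rw [sum_const, card_range, nsmul_eq_mul] at h2
    have h3 : (M : ℝ) * (2 / M) = 2 := by field_simp
    linarith
  have hi' := mem_range.1 hi
  have a1 := enW_inc hp Q D M i (S := S)
  have a2 := enW_inc hp' Q' D' M i (S := S')
  rw [hΔ] at hΔi
  simp only at hΔi
  have b1 := softw_one hp h1 hi' hc hC hδ (hν0 _) (hν1 _) (H i hi')
  have b2 := softw_one hp' h1' hi' hc hC hδ (hν0 _) (hν1 _) (H' i hi')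
  have c1 : Real.sqrt (enW S p Q D M i - enW S p Q D M (i + 1)) ≤ Real.sqrt (2 / M) :=
    Real.sqrt_le_sqrt (by linarith)
  have c2 : Real.sqrt (enW S' p' Q' D' M i - enW S' p' Q' D' M (i + 1)) ≤ Real.sqrt (2 / M) :=
    Real.sqrt_le_sqrt (by linarith)
  have d1 : (2 * s + 2 * δ + C * Real.sqrt (enW S p Q D M i - enW S p Q D M (i + 1))) / c ≤
      (2 * s + 2 * δ + C * Real.sqrt (2 / M)) / c := by
    apply div_le_div_of_nonneg_right _ hc.le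
    have := mul_le_mul_of_nonneg_left c1 hC
    linarith
  have d2 : (2 * s + 2 * δ + C * Real.sqrt (enW S' p' Q' D' M i - enW S' p' Q' D' M (i + 1))) / c ≤
      (2 * s + 2 * δ + C * Real.sqrt (2 / M)) / c := by
    apply div_le_div_of_nonneg_right _ hc.le
    have := mul_le_mul_of_nonneg_left c2 hC
    linarith
  have f := abs_sub_le (ms S p (fun t => t ∈ Q)) (ν i) (ms S' p' (fun t => t ∈ Q'))
  rw [abs_sub_comm (ν i)] at f
  linarith

end TIP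

end HexObs
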