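import Pool.Agent.TIP.Free
import Pool.Agent.TIP.FP

/-!
TIP, U2 (helper41), closed form.
-/

set_option autoImplicit false

namespace HexObs

namespace TIP

/-- **U2**: many cuts in the middle of the box in front of the foot, with a positive probability -/
theorem freeSt : FreeSt := free_of fpOne fpAC miMass acMul acAc

end TIP

end HexObs
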