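import Pool.Agent.TIP.StrN
import Pool.Agent.TIP.DefsS

/-!
TIP, row N uniform: the structure of a walk with n letters near its start, and the part up to the second bridge keeps a
macroscopic distance from the end (helper49).
-/

set_option autoImplicit false

namespace HexObs

namespace TIP

open Finset TS SDN NTW NTA HexObs.SIM

open scoped ENNReal unitInterval

open Pool.Agent.NTS.Res

open NTF (JJ)

/-- **(N1) + (N2), macroscopic**: outside of an event of probability ε a walk with n letters has two macroscopic bridges in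
a row, what is before a cut of the first one is in a class with the sharp weight for every number of letters, and everything
up to the end of the second one keeps a small macroscopic distance from the end -/
theorem strU : StrU := by
  intro ε hε
  obtain ⟨A, c, C, k1, LB, hA, hLB, hstr⟩ := str_M (half_pos hε)
  obtain ⟨cs, Cs, hcs, hsize⟩ := (NTSF.conclE_false NTSF.finE).1
  obtain ⟨Cz, hCz⟩ := mupZ
  obtain ⟨cz, hcz, hcz'⟩ := mlowZ
  have hcsC : cs ≤ Cs := by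
    have h1 := hsize 1 le_rfl
    rw [Nat.cast_one, Real.one_rpow, mul_one, mul_one] at h1
    exact h1.1.trans h1.2
  have hCs : 0 < Cs := by linarith
  have hCz0 : 0 < Cz := by
    have h1 := hCz 0
    have h2 : (0 : ℝ) < NTSF.MZ 0 := PW.mZ_pos Nat.one_le_two_pow
    rw [Nat.cast_zero, mul_zero, Real.rpow_zero, mul_one] at h1
    linarith
  -- the constant of the displacement
  obtain ⟨Cu, hCu⟩ : ∃ Cu : ℝ, Cu = Cs * (Cz ^ (3 / 4 : ℝ) * 2) := ⟨_, rfl⟩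
  have hCu0 : 0 < Cu := by rw [hCu]; positivity
  have hup : ∀ k n : ℕ, 1 ≤ n → (n : ℝ) < PW.mZ (2 ^ (k + 1)) → size n ≤ Cu * 2 ^ k := by
    intro k n hn hk
    have h1 := (hsize n hn).2
    have h2 : (n : ℝ) ≤ Cz * (2 : ℝ) ^ (4 / 3 * ((k + 1 : ℕ) : ℝ)) := hk.le.trans (hCz (k + 1))
    have h3 : (n : ℝ) ^ (3 / 4 : ℝ) ≤ Cz ^ (3 / 4 : ℝ) * 2 * 2 ^ k := by
      calc (n : ℝ) ^ (3 / 4 : ℝ) ≤ (Cz * (2 : ℝ) ^ (4 / 3 * ((k + 1 : ℕ) : ℝ))) ^ (3 / 4 : ℝ) :=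
            Real.rpow_le_rpow (Nat.cast_nonneg _) h2 (by norm_num)
        _ = Cz ^ (3 / 4 : ℝ) * 2 * 2 ^ k := by
            rw [Real.mul_rpow hCz0.le (by positivity), ← Real.rpow_mul (by norm_num),
              show (4 / 3 * ((k + 1 : ℕ) : ℝ)) * (3 / 4 : ℝ) = ((k + 1 : ℕ) : ℝ) by ring, Real.rpow_natCast, pow_succ]
            ring
    rw [hCu]
    calc size n ≤ Cs * (n : ℝ) ^ (3 / 4 : ℝ) := h1
      _ ≤ Cs * (Cz ^ (3 / 4 : ℝ) * 2 * 2 ^ k) := mul_le_mul_of_nonneg_left h3 hCs.le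
      _ = _ := by ring
  obtain ⟨η, hη⟩ : ∃ η : ℝ, η = 1 / (4 * 2 ^ c * Cu) := ⟨_, rfl⟩
  have hη0 : 0 < η := by rw [hη]; positivity
  obtain ⟨δ, n0, hδ, hlaw⟩ := lawSim_H humpX_M η (ε / 2) hη0 (half_pos hε)
  obtain ⟨d, hd⟩ := pow_unbounded_of_one_lt (16 / (δ * (cs * cz ^ (3 / 4 : ℝ)))) (one_lt_two (α := ℝ))
  obtain ⟨n1, hn1⟩ : ∃ n1 : ℕ, n1 = 0 := ⟨_, rfl⟩
  obtain ⟨k2, hk2⟩ := pow_unbounded_of_one_lt (((n0 + n1 + 1 : ℕ) : ℝ) / cz) (one_lt_two (α := ℝ))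
  refine ⟨c, C, max k1 (max k2 (c + 1)), d, A, LB, by linarith, fun k l hk => hLB k l ((le_max_left _ _).trans hk),
    fun k n hk ⟨a1, a2⟩ => ?_⟩
  have hk1 : k1 ≤ k := (le_max_left _ _).trans hk
  have hk2' : k2 ≤ k := (le_max_left _ _).trans ((le_max_right _ _).trans hk)
  have hkc : c + 1 ≤ k := (le_max_right _ _).trans ((le_max_right _ _).trans hk)
  have hnn : n0 + n1 + 1 ≤ n := by
    have h1 : cz * (2 : ℝ) ^ (4 / 3 * (k : ℝ)) ≤ n := (hcz' k).trans a1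
    have h2 : (2 : ℝ) ^ k2 ≤ (2 : ℝ) ^ (4 / 3 * (k : ℝ)) := by
      rw [← Real.rpow_natCast]
      refine Real.rpow_le_rpow_of_exponent_le (by norm_num) ?_
      have h3 : (k2 : ℝ) ≤ k := by exact_mod_cast hk2'
      have h4 : (0 : ℝ) ≤ k := Nat.cast_nonneg k
      linarith
    rw [div_lt_iff₀ hcz] at hk2
    have h3 : ((n0 + n1 + 1 : ℕ) : ℝ) < n := by
      calc ((n0 + n1 + 1 : ℕ) : ℝ) < 2 ^ k2 * cz := hk2
        _ ≤ cz * (2 : ℝ) ^ (4 / 3 * (k : ℝ)) := by nlinarith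
        _ ≤ n := h1
    have h4 : n0 + n1 + 1 < n := by exact_mod_cast h3
    exact h4.le
  have hn : 1 ≤ n := by omega
  have hn0 : (0 : ℝ) < n := by exact_mod_cast hn
  have hsz := NTSF.size_pos hn
  refine ⟨{t | ¬ (t ∈ WL (k + C) ∧ Str (LB k) (2 ^ (k - c)) (2 ^ k) t)} ∪ {t | Pool.Agent.NTS.Res.curve (NTF.sw n t) ∈ Pinch η δ}, ?_, ?_⟩
  · refine (pn_union hn _ _).trans ?_
    have h1 : TOG.Pn n {t | ¬ (t ∈ WL (k + C) ∧ Str (LB k) (2 ^ (k - c)) (2 ^ k) t)} ≤ ε / 2 :=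
      pn_le hn (half_pos hε).le (hstr k n hk1 a1 a2)
    have h2 := pn_law hn (half_pos hε).le (hlaw n (by omega))
    linarith
  intro t ht htB
  have hB1 : t ∈ WL (k + C) ∧ Str (LB k) (2 ^ (k - c)) (2 ^ k) t := by
    by_contra h
    exact htB (Or.inl h)
  have hB2 : Pool.Agent.NTS.Res.curve (NTF.sw n t) ∉ Pinch η δ := fun h => htB (Or.inr h)
  obtain ⟨hW, X0, H1, H2, H3, X1, h1, ⟨b1, b2, b3⟩, ⟨d1, d2, d3⟩, ⟨f1, f2, f3⟩, h5⟩ := hB1
  refine ⟨hW, X0, H1, H2, H3 ++ X1, h1, b1, b2, d1, d2, f1, f2, h5, ?_⟩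
  intro D hD i hi hnear4
  have hnear : vx oo up t i ∈ Bl (tipv t) (8 * D) := by
    obtain ⟨g1, g2⟩ := hnear4
    push_cast at g1 g2
    refine ⟨g1.trans ?_, g2.trans ?_⟩ <;> push_cast <;> omega
  have hlen : t.length = n := ht.1
  obtain ⟨Y, hY⟩ : ∃ Y : List Bool, Y = X0 ++ (H1 ++ H2) := ⟨_, rfl⟩
  rw [← hY] at hi
  have hY2 : t = Y ++ (H3 ++ X1) := by
    rw [h1, hY]
    simp only [List.append_assoc]
  have hl3 : Y.length + H3.length ≤ n := by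
    rw [← hlen, hY2, List.length_append, List.length_append]
    omega
  have hdis := bridge_disp hY2 b3
  -- the size of the excursion
  have hx0 : (2 : ℝ) ^ (k - c) ≤ hgt H3 := by exact_mod_cast d3
  have hx1 : 2 * (2 * η * size n) ≤ (2 : ℝ) ^ (k - c) := by
    have e1 := hup k n hn a2
    have e2 : (2 : ℝ) ^ k = 2 ^ c * 2 ^ (k - c) := by
      rw [← pow_add]
      congr 1
      omega
    calc 2 * (2 * η * size n) ≤ 2 * (2 * η * (Cu * 2 ^ k)) := by gcongr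
      _ = 2 ^ (k - c) := by
          rw [hη, e2]
          field_simp
          norm_num
  obtain ⟨l, hl1, hl2, hl3'⟩ : ∃ l : ℕ, i ≤ l ∧ l ≤ n ∧ 2 * η * size n ≤ ‖JJ (vx oo up t l - vx oo up t i)‖ := by
    by_contra hc
    push Not at hc
    have e1 := hc Y.length hi (by omega)
    have e2 := hc (Y.length + H3.length) (by omega) hl3
    have e3 : ‖JJ (vx oo up t (Y.length + H3.length) - vx oo up t Y.length)‖ ≤
        ‖JJ (vx oo up t (Y.length + H3.length) - vx oo up t i)‖ + ‖JJ (vx oo up t Y.length - vx oo up t i)‖ := by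
      rw [NTF.JJ_sub, NTF.JJ_sub, NTF.JJ_sub]
      have : JJ (vx oo up t (Y.length + H3.length)) - JJ (vx oo up t Y.length) =
          (JJ (vx oo up t (Y.length + H3.length)) - JJ (vx oo up t i)) - (JJ (vx oo up t Y.length) - JJ (vx oo up t i)) := by
        ring
      rw [this]
      exact norm_sub_le _ _
    linarith
  have hin : i ≤ n := hl1.trans hl2
  -- the distance from the end
  have hend : ‖JJ (vx oo up t n - vx oo up t i)‖ ≤ 16 * D := by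
    obtain ⟨g1, g2⟩ := hnear
    have e0 : tipv t = vx oo up t n := by
      unfold tipv
      rw [hlen]
    rw [e0] at g1 g2
    obtain ⟨z, hz⟩ : ∃ z : Pt, z = vx oo up t n - vx oo up t i := ⟨_, rfl⟩
    have e1 : |z.1| ≤ ((8 * D : ℕ) : ℤ) := by
      rw [hz]
      show |(vx oo up t n).1 - (vx oo up t i).1| ≤ _
      rw [abs_sub_comm]
      exact g1
    have e2 : |z.2| ≤ ((8 * D : ℕ) : ℤ) := by
      rw [hz]
      show |(vx oo up t n).2 - (vx oo up t i).2| ≤ _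
      rw [abs_sub_comm]
      exact g2
    rw [← hz]
    have e3 : ‖JJ z‖ ^ 2 = ((nrm z : ℤ) : ℝ) := NTF.JJ_norm z
    have e4 : nrm z = z.1 ^ 2 + z.1 * z.2 + z.2 ^ 2 := rfl
    have f1 : |(z.1 : ℝ)| ≤ 8 * D := by exact_mod_cast e1
    have f2 : |(z.2 : ℝ)| ≤ 8 * D := by exact_mod_cast e2
    have e5 : ‖JJ z‖ ^ 2 ≤ (16 * D) ^ 2 := by
      rw [e3, e4]
      push_cast
      have g3 := abs_le.1 f1
      have g4 := abs_le.1 f2
      nlinarith [mul_nonneg (sub_nonneg.2 g3.2) (sub_nonneg.2 g4.2), sq_abs (z.1 : ℝ), sq_abs (z.2 : ℝ),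
        pow_le_pow_left₀ (abs_nonneg _) f1 2, pow_le_pow_left₀ (abs_nonneg _) f2 2,
        mul_le_mul f1 f2 (abs_nonneg _) ((abs_nonneg _).trans f1), abs_mul (z.1 : ℝ) z.2, le_abs_self ((z.1 : ℝ) * z.2)]
    exact (abs_le_of_sq_le_sq' e5 (by positivity)).2
  have hsmall : ‖JJ (vx oo up t n - vx oo up t i)‖ < δ * size n := by
    refine hend.trans_lt ?_
    have q1 : cs * cz ^ (3 / 4 : ℝ) * 2 ^ k ≤ size n := by
      have q2 : cz * (2 : ℝ) ^ (4 / 3 * (k : ℝ)) ≤ n := (hcz' k).trans a1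
      have q3 : cz ^ (3 / 4 : ℝ) * 2 ^ k ≤ (n : ℝ) ^ (3 / 4 : ℝ) := by
        calc cz ^ (3 / 4 : ℝ) * 2 ^ k = (cz * (2 : ℝ) ^ (4 / 3 * (k : ℝ))) ^ (3 / 4 : ℝ) := by
              rw [Real.mul_rpow hcz.le (by positivity), ← Real.rpow_mul (by norm_num),
                show (4 / 3 * (k : ℝ)) * (3 / 4 : ℝ) = (k : ℝ) by ring, Real.rpow_natCast]
          _ ≤ _ := Real.rpow_le_rpow (by positivity) q2 (by norm_num)
      calc cs * cz ^ (3 / 4 : ℝ) * 2 ^ k = cs * (cz ^ (3 / 4 : ℝ) * 2 ^ k) := by ring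
        _ ≤ cs * (n : ℝ) ^ (3 / 4 : ℝ) := mul_le_mul_of_nonneg_left q3 hcs.le
        _ ≤ size n := (hsize n hn).1
    have q4 : (D : ℝ) * 2 ^ d ≤ 2 ^ k := by exact_mod_cast hD
    rw [div_lt_iff₀ (by positivity)] at hd
    have q5 : (0 : ℝ) < 2 ^ d := by positivity
    have q6 : (0 : ℝ) < 2 ^ k := by positivity
    have q7 : 16 * (D : ℝ) * 2 ^ d < δ * (cs * cz ^ (3 / 4 : ℝ)) * 2 ^ k * 2 ^ d := by
      calc 16 * (D : ℝ) * 2 ^ d = 16 * ((D : ℝ) * 2 ^ d) := by ring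
        _ ≤ 16 * 2 ^ k := by linarith
        _ < 2 ^ d * (δ * (cs * cz ^ (3 / 4 : ℝ))) * 2 ^ k := mul_lt_mul_of_pos_right hd q6
        _ = _ := by ring
    have q8 : 16 * (D : ℝ) < δ * (cs * cz ^ (3 / 4 : ℝ)) * 2 ^ k := lt_of_mul_lt_mul_right q7 q5.le
    calc 16 * (D : ℝ) < δ * (cs * cz ^ (3 / 4 : ℝ)) * 2 ^ k := q8
      _ = δ * (cs * cz ^ (3 / 4 : ℝ) * 2 ^ k) := by ring
      _ ≤ δ * size n := mul_le_mul_of_nonneg_left q1 hδ.le
  refine hB2 ?_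
  have hmem : ∀ a : ℕ, a ≤ n → ((a : ℝ) / n) ∈ Set.Icc (0 : ℝ) 1 := fun a ha =>
    ⟨by positivity, by rw [div_le_one hn0]; exact_mod_cast ha⟩
  refine ⟨⟨(i : ℝ) / n, hmem i hin⟩, ⟨(l : ℝ) / n, hmem l hl2⟩, ⟨(n : ℝ) / n, hmem n le_rfl⟩, ?_, ?_, ?_, ?_⟩
  · show (i : ℝ) / n ≤ (l : ℝ) / n
    have : (i : ℝ) ≤ l := by exact_mod_cast hl1
    gcongr
  · show (l : ℝ) / n ≤ (n : ℝ) / n
    have : (l : ℝ) ≤ n := by exact_mod_cast hl2
    gcongr
  · rw [NTSF.curve_grid hn _ hl2 _ rfl, NTSF.curve_grid hn _ hin _ rfl, NTSF.pos_sw n t l hl2,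
      NTSF.pos_sw n t i hin, dist_eq_norm, ← sub_div, ← NTF.JJ_sub, norm_div, Complex.norm_real,
      Real.norm_of_nonneg hsz.le, lt_div_iff₀ hsz]
    nlinarith
  · rw [NTSF.curve_grid hn _ le_rfl _ rfl, NTSF.curve_grid hn _ hin _ rfl, NTSF.pos_sw n t n le_rfl,
      NTSF.pos_sw n t i hin, dist_eq_norm, ← sub_div, ← NTF.JJ_sub, norm_div, Complex.norm_real,
      Real.norm_of_nonneg hsz.le, div_lt_iff₀ hsz]
    exact hsmall

end TIP

end HexObs
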