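import Pool.Agent.TIP.DefsN
import Pool.Agent.SIM.Reg
import Pool.Agent.SIM.LeafN
import Pool.Agent.SIM.RunB
import Pool.Agent.SIM.Tall

/-!
TIP, row Nb: walks of the box with a long factor without a factor in Zc (helper15). `GeoZ` = the geometry, `regZ_of`.
-/

set_option autoImplicit false

namespace HexObs

namespace TIP

open Finset TS SDN NTW NTA SIM

open scoped ENNReal

/-- from a long factor in Nz to runs of leaves in Nz or a tall leaf -/
def GeoZ (κ : ℝ) (C : ℕ) : Prop := ∀ s c : ℕ, ∃ M : ℕ, 1 ≤ M ∧ ∀ (k K V : ℕ) (t : List Bool), c ≤ k → k + 6 ≤ K →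
  t ∈ WL K → t ∈ Lz κ C (k - c) (M * (V + 1)) →
  (∃ dir : Bool, t ∈ ERL dir k K (RunB k s (Nz κ C (k - c)) V)) ∨
    ∃ (dir : Bool) (m u : ℕ) (e : ℕ → ℕ), Lf dir (k + 5) t m u e ∧ ∃ j, j < m ∧
      3 * ((V : ℤ) * 2 ^ (k + s)) ≤ |lp dir t (e (j + 1)) - lp dir t (e j)|

lemma Nz_fac {κ : ℝ} {C b : ℕ} {X Z Y : List Bool} (h : X ++ (Z ++ Y) ∈ Nz κ C b) : Z ∈ Nz κ C b := by
  intro X1 Z1 Y1 he hY hz
  refine h (X ++ X1) Z1 (Y1 ++ Y) ?_ ?_ hz
  · rw [he]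
    simp only [List.append_assoc]
  · intro h0
    exact hY (List.append_eq_nil_iff.1 h0).1

lemma Lz_mono {κ : ℝ} {C b n n' : ℕ} (h : n ≤ n') : Lz κ C b n' ⊆ Lz κ C b n := by
  rintro t ⟨X, Q, Y, h1, h2, h3⟩
  refine ⟨X, Q, Y, h1, h2, fun hI => h3 fun i hi => ?_⟩
  exact Bl_mono _ (Nat.mul_le_mul_right _ h) (hI i hi)

/-- the norm of the leaves in Nz -/
theorem badNormZ {κ : ℝ} {C : ℕ} (hF : FreeZ κ C) : ∀ (J : ℕ) (ε : ℝ), 0 < ε → ∃ c k0 : ℕ, c ≤ k0 ∧ ∀ k : ℕ, k0 ≤ k →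
    SmD DmJ k {g | g ∈ BrR (2 ^ (k + 4)) (2 ^ (k + J)) ∧ g ∈ Nz κ C (k - c)} ε := by
  intro J ε hε
  obtain ⟨c, k0, h⟩ := leaf_norm (P := fun r => Nz κ C r) (fun r a Z b _ h => Nz_fac h) hF ε J hε
  exact ⟨c, k0 + c, by omega, fun k hk => h k (by omega)⟩

/-- **row Nb** -/
theorem regZ_of {κ : ℝ} {C : ℕ} (hG : GeoZ κ C) (hF : FreeZ κ C) : RegZ κ C := by
  classical
  obtain ⟨s1, J1, e0, he0, hrun⟩ := runBad
  obtain ⟨s2, kT, CT, hCT, htall⟩ := tallEv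
  obtain ⟨C1, kX, hC1, hX⟩ := runX
  obtain ⟨c, kB, hckB, hbad⟩ := badNormZ hF J1 e0 he0
  obtain ⟨s, hs⟩ : ∃ s, s = s1 + s2 := ⟨_, rfl⟩
  obtain ⟨M, hM, hgeo⟩ := hG s c
  have hMr : (1 : ℝ) ≤ M := by exact_mod_cast hM
  refine ⟨16 * (C1 + CT), 1 / M, kT + kX + kB, c + 6, 2 * M, by linarith, by positivity, fun r J n hr hJ hn => ?_⟩
  obtain ⟨k, hk⟩ : ∃ k, k = r + c := ⟨_, rfl⟩
  obtain ⟨J', hJ'⟩ : ∃ J', J' = J - c := ⟨_, rfl⟩
  obtain ⟨V, hV⟩ : ∃ V, V = n / M - 1 := ⟨_, rfl⟩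
  have hkr : k - c = r := by omega
  have hkJ : k + J' = r + J := by omega
  have hnM : 2 ≤ n / M := (Nat.le_div_iff_mul_le (by omega)).2 hn
  have hV1 : M * (V + 1) ≤ n := by
    rw [hV, show n / M - 1 + 1 = n / M by omega]
    exact Nat.mul_div_le n M
  have hVr : (n : ℝ) / M ≤ V + 2 := by
    have h1 : n < M * (n / M + 1) := by
      have := Nat.lt_mul_div_succ n (show 0 < M by omega)
      simpa using this
    have h2 : n / M + 1 = V + 2 := by omega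
    rw [h2] at h1
    have h3 : (n : ℝ) < M * (V + 2) := by exact_mod_cast h1
    rw [div_le_iff₀ (by linarith)]
    linarith
  have hU := Ub_pos (r + J)
  -- the norm
  have hS : SmR DmJ k (RunB k s (Nz κ C r) V) (1 / 2 ^ V) := by
    refine SIM.SmR_mono (RunB_mono (by omega)) (hrun k (Nz κ C r) (SIM.SmD_mono ?_ (hbad k (by omega))) V)
    rintro g ⟨h1, h2⟩
    rw [hkr]
    exact ⟨h1, h2⟩
  obtain ⟨TE, hTE⟩ : ∃ TE : Set (List Bool), TE = {t | t ∈ WL (k + J') ∧ ∃ (dir : Bool) (m u : ℕ) (e : ℕ → ℕ),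
      Lf dir (k + 5) t m u e ∧ ∃ j, j < m ∧
      3 * ((V : ℤ) * 2 ^ (k + s2)) ≤ |lp dir t (e (j + 1)) - lp dir t (e j)|} := ⟨_, rfl⟩
  -- the cover
  have hcov : {t | t ∈ WL (r + J) ∧ t ∈ Lz κ C r n} ⊆
      ((ERL false k (k + J') (RunB k s (Nz κ C r) V) ∪ ERL true k (k + J') (RunB k s (Nz κ C r) V)) ∪ TE) := by
    rintro t ⟨h1, h2⟩
    have h3 := hgeo k (k + J') V t (by omega) (by omega) (by rw [hkJ]; exact h1) (by
      rw [hkr]
      exact Lz_mono hV1 h2)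
    rw [hkr] at h3
    rcases h3 with ⟨dir, h4⟩ | h4
    · left
      cases dir
      · exact Or.inl h4
      · exact Or.inr h4
    · right
      rw [hTE]
      refine ⟨by rw [hkJ]; exact h1, ?_⟩
      obtain ⟨dir, m, u, e, h5, j, h6, h7⟩ := h4
      refine ⟨dir, m, u, e, h5, j, h6, le_trans ?_ h7⟩
      have e1 : (2 : ℤ) ^ (k + s2) ≤ 2 ^ (k + s) := pow_le_pow_right₀ (by norm_num) (by omega)
      have e2 : (0 : ℤ) ≤ V := by positivity
      nlinarith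
  obtain ⟨W, hW⟩ : ∃ W, W = ENNReal.ofReal (C1 ^ J' * (1 / 2 ^ V) * Ub (r + J)) * Xb (r + J) ^ 2 := ⟨_, rfl⟩
  have hrunX : ∀ dir : Bool, gf (ERL dir k (k + J') (RunB k s (Nz κ C r) V)) ≤ W := by
    intro dir
    rw [hW, ← hkJ]
    exact hX dir k J' _ (1 / 2 ^ V) (by omega) (by omega) (by positivity) hS
  have hTE' : gf TE ≤ ENNReal.ofReal (CT ^ J' / 2 ^ V * Ub (r + J)) * Xb (r + J) ^ 2 := by
    rw [hTE, ← hkJ]
    exact htall k J' V (by omega) (by omega) (by omega)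
  have hun : ∀ S T : Set (List Bool), gf (S ∪ T) ≤ gf S + gf T := fun S T => gf_union_le S T
  calc gf {t | t ∈ WL (r + J) ∧ t ∈ Lz κ C r n} ≤ _ := gf_mono hcov
    _ ≤ (W + W) + ENNReal.ofReal (CT ^ J' / 2 ^ V * Ub (r + J)) * Xb (r + J) ^ 2 :=
        (hun _ _).trans (add_le_add ((hun _ _).trans (add_le_add (hrunX _) (hrunX _))) hTE')
    _ = ENNReal.ofReal ((2 * C1 ^ J' + CT ^ J') / 2 ^ V * Ub (r + J)) * Xb (r + J) ^ 2 := by
        rw [hW, ← add_mul, ← add_mul, ← ENNReal.ofReal_add (by positivity) (by positivity),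
          ← ENNReal.ofReal_add (by positivity) (by positivity)]
        congr 2
        ring
    _ ≤ _ := by
        refine mul_le_mul_left (ENNReal.ofReal_le_ofReal (mul_le_mul_of_nonneg_right ?_ hU.le)) _
        have h1 : C1 ^ J' ≤ (C1 + CT) ^ J := by
          calc C1 ^ J' ≤ (C1 + CT) ^ J' := pow_le_pow_left₀ (by linarith) (by linarith) _
            _ ≤ _ := pow_le_pow_right₀ (by linarith) (by omega)
        have h2 : CT ^ J' ≤ (C1 + CT) ^ J := by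
          calc CT ^ J' ≤ (C1 + CT) ^ J' := pow_le_pow_left₀ (by linarith) (by linarith) _
            _ ≤ _ := pow_le_pow_right₀ (by linarith) (by omega)
        have h3 : (1 : ℝ) / 2 ^ V ≤ 4 * (2 : ℝ) ^ (-(1 / M * n) : ℝ) := by
          have e1 : (4 : ℝ) * (2 : ℝ) ^ (-(1 / M * n) : ℝ) = (2 : ℝ) ^ (2 - 1 / M * n : ℝ) := by
            rw [sub_eq_add_neg, Real.rpow_add two_pos]
            norm_num
          rw [e1, one_div, ← Real.rpow_natCast, ← Real.rpow_neg (by norm_num)]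
          refine Real.rpow_le_rpow_of_exponent_le (by norm_num) ?_
          have e2 : (1 : ℝ) / M * n = n / M := by ring
          rw [e2]
          linarith
        have h5 : 0 < (C1 + CT) ^ J := by positivity
        have h6 : 0 < (2 : ℝ) ^ (-(1 / M * n) : ℝ) := Real.rpow_pos_of_pos two_pos _
        calc (2 * C1 ^ J' + CT ^ J') / 2 ^ V ≤ (5 * (C1 + CT) ^ J) / 2 ^ V := by
              gcongr
              linarith
          _ = 5 * (C1 + CT) ^ J * (1 / 2 ^ V) := by ring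
          _ ≤ 5 * (C1 + CT) ^ J * (4 * (2 : ℝ) ^ (-(1 / M * n) : ℝ)) := by gcongr
          _ = 20 * ((C1 + CT) ^ J * (2 : ℝ) ^ (-(1 / M * n) : ℝ)) := by ring
          _ ≤ (16 ^ J) * ((C1 + CT) ^ J * (2 : ℝ) ^ (-(1 / M * n) : ℝ)) := by
              have h7 : (20 : ℝ) ≤ 16 ^ J := by
                calc (20 : ℝ) ≤ 16 ^ 2 := by norm_num
                  _ ≤ _ := pow_le_pow_right₀ (by norm_num) (by omega)
              gcongr
          _ = _ := by
              rw [mul_pow]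
              ring

end TIP

end HexObs
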