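import Pool.Agent.TIP.HitB
import Pool.Agent.TIP.Box2

/-!
# TIP: uniform avoidance (UA), helper69

For every word `A` the bridges `Z` behind `A` of height at most `H` with less than `κ U(r)` free cuts have the mass at most
`C U(r)`: behind every bridge `Y` (behind `A`) a positive fraction of the blocks of height of order `r` is forbidden: if `A`
has a vertex in the box of size `r` in front of the tip of `A ++ Y`, two bridges with ends in explicit boxes hit `A`;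
otherwise a bridge with many pieces in the box has only free cuts.
-/

set_option autoImplicit false

namespace HexObs

namespace TIP

open Finset TS SDN SIM EN EN.LB

open scoped ENNReal

/-- few free cuts -/
def Bad (κ : ℝ) (A : List Bool) (r H : ℕ) : Set (List Bool) :=
  {Z | Z ∈ BU ∧ hgt Z ≤ H ∧ A ++ Z ∈ SA ∧ (freeN r A Z : ℝ) < κ * UU r}

/-- blocks that start with given bridges -/
lemma blk_mass {S1 S2 : Set (List Bool)} {N : ℕ} (h1 : S1 ⊆ BU) (h2 : S2 ⊆ BU)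
    (p1 : ∀ V ∈ S1, ∀ V' ∈ S1, ∀ X ∈ BU, ∀ X' ∈ BU, V ++ X = V' ++ X' → V = V')
    (p2 : ∀ V ∈ S2, ∀ V' ∈ S2, ∀ X ∈ BU, ∀ X' ∈ BU, V ++ X = V' ++ X' → V = V')
    (hN : ∀ V1 ∈ S1, ∀ V2 ∈ S2, hgt V1 + hgt V2 ≤ N) :
    gf S1 * gf S2 ≤ gf {B | B ∈ LB.Bk N ∧ ∃ V1 ∈ S1, ∃ V2 ∈ S2, ∃ X ∈ BU, B = V1 ++ (V2 ++ X)} := by
  refine gf_dep_ge (A := S1) (Q := fun V1 => {U | ∃ V2 ∈ S2, ∃ X ∈ LB.Bk (N - (hgt V1 + hgt V2)), U = V2 ++ X})
    ?_ ?_ ?_
  · rintro V1 hV1 U ⟨V2, hV2, X, hX, rfl⟩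
    have hb1 := BU_hgt (h1 hV1)
    have hb2 := BU_hgt (h2 hV2)
    have hle := hN V1 hV1 V2 hV2
    refine ⟨?_, V1, hV1, V2, hV2, X, Bk_BU hX, rfl⟩
    obtain ⟨y, q, X0, P, e1, e2, e3, e4, rfl⟩ := hX
    exact ⟨hgt V1 + (hgt V2 + y), q, V1 ++ (V2 ++ X0), P, Brd_append hb1 (Brd_append hb2 e1), e2, by omega, by omega, by
      simp only [List.append_assoc]⟩
  · rintro V1 hV1 U ⟨V2, hV2, X, hX, rfl⟩ V1' hV1' U' ⟨V2', hV2', X', hX', rfl⟩ he
    exact p1 V1 hV1 V1' hV1' _ (BU_app (h2 hV2) (Bk_BU hX)) _ (BU_app (h2 hV2') (Bk_BU hX')) he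
  · intro V1 hV1
    calc gf S2 = gf S2 * 1 := (mul_one _).symm
      _ ≤ _ := by
          refine gf_dep_ge (A := S2) (Q := fun V2 => LB.Bk (N - (hgt V1 + hgt V2))) ?_ ?_ fun V2 _ => Bk_one _
          · intro V2 hV2 X hX
            exact ⟨V2, hV2, X, hX, rfl⟩
          · intro V2 hV2 X hX V2' hV2' X' hX' he
            exact p2 V2 hV2 V2' hV2' X (Bk_BU hX) X' (Bk_BU hX') he

/-- the box in front of the tip is free: all cuts of the second bridge are free -/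
lemma free_cuts {A Y V1 V2 X : List Bool} {r w m : ℕ} (hY : Y ∈ BU) (hX : X ∈ BU)
    (hfree : ∀ i, i ≤ A.length → 6 * (r : ℤ) ≤ lv (fr (A ++ Y) (vx oo up A i)) →
      lv (fr (A ++ Y) (vx oo up A i)) ≤ 24 * r → ¬ |(fr (A ++ Y) (vx oo up A i)).1| ≤ 4 * r)
    (h200 : 200 * w ≤ r) (hV1 : V1 ∈ Tb (4 * r) 0 w) (hV2 : V2 ∈ Um m r) :
    m + 1 ≤ freeN r A (Y ++ (V1 ++ (V2 ++ X))) := by
  obtain ⟨b1, h11, h12, h13, -⟩ := hV1
  obtain ⟨hI, h22, h23⟩ := hV2
  have hsub : (fun U2 => U2 ++ X) '' cuts V2 ⊆ freeS r A (Y ++ (V1 ++ (V2 ++ X))) := by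
    rintro _ ⟨U2, ⟨hU2, U1, hU1, he⟩, rfl⟩
    refine ⟨BU_app hU2 hX, Y ++ (V1 ++ U1), BU_app hY (BU_app b1 hU1), ?_, ?_⟩
    · rw [he]
      simp only [List.append_assoc]
    · intro i hi hc
      have h1 := fr_Bl (A ++ Y) hc
      have h2 : fr (A ++ Y) (tipv (A ++ (Y ++ (V1 ++ U1)))) = vx oo up (V1 ++ U1) (V1.length + U1.length) := by
        have h3 := fr_front (A ++ Y) (V1 ++ U1) (V1.length + U1.length)
        have el : (A ++ (Y ++ (V1 ++ U1))).length = (A ++ Y).length + (V1.length + U1.length) := by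
          simp only [List.length_append]
          omega
        have e : A ++ (Y ++ (V1 ++ U1)) = (A ++ Y) ++ (V1 ++ U1) := (List.append_assoc _ _ _).symm
        rw [← h3]
        unfold tipv
        rw [el, e]
      rw [h2] at h1
      obtain ⟨h4, h5⟩ := co2 (V2 := U1) b1 U1.length
      have h6 := levE_BU hU1
      have h7 : hgt V2 = hgt U1 + hgt U2 := by rw [he, hgt_app hU1 hU2]
      have h8 := h23 U1.length (by rw [he, List.length_append]; omega)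
      rw [he, lat_append (by omega)] at h8
      obtain ⟨p, hp⟩ : ∃ p, p = vx oo up (V1 ++ U1) (V1.length + U1.length) := ⟨_, rfl⟩
      obtain ⟨q, hq⟩ : ∃ q, q = fr (A ++ Y) (vx oo up A i) := ⟨_, rfl⟩
      have hfr := hfree i hi
      rw [← hp] at h1 h4 h5
      rw [← hq] at h1 hfr
      obtain ⟨⟨a1, a2⟩, a3, a4⟩ := mem_Bl.1 h1
      rw [h6] at h4
      rw [sub_zero, abs_le] at h13
      rw [abs_le] at h8
      push_cast at a1 a2 a3 a4
      have hlq : lv q = 2 * q.2 + q.1 := rfl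
      have hlp : lv p = 2 * p.2 + p.1 := rfl
      refine hfr ?_ ?_ ?_
      · omega
      · omega
      · rw [abs_le]
        constructor <;> omega
  have h1 := Ir_cuts hI
  have h2 : ((fun U2 => U2 ++ X) '' cuts V2).ncard = (cuts V2).ncard :=
    Set.ncard_image_of_injective _ fun a b h => List.append_cancel_right h
  have h3 := Set.ncard_le_ncard hsub (freeS_fin r A _)
  unfold freeN
  omega

/-- **the forbidden blocks** -/
theorem forb : ∃ (c κ : ℝ) (r0 : ℕ), 0 < c ∧ c ≤ 1 ∧ 0 < κ ∧ ∀ (A Y : List Bool) (r H : ℕ), r0 ≤ r → Y ∈ BU →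
    ENNReal.ofReal c ≤ gf {B | B ∈ LB.Bk (10 * r) ∧ ∀ X ∈ BU, Y ++ (B ++ X) ∉ Bad κ A r H} := by
  obtain ⟨c1, t0, hc1, hV⟩ := Vb_mass 80 3600
  obtain ⟨c2, κ, r1, hc2, hκ, hU⟩ := Um_mass
  obtain ⟨c, hc⟩ : ∃ c, c = min 1 (min (c1 * c1) (c1 * c2)) := ⟨_, rfl⟩
  have hc0 : 0 < c := by
    rw [hc]
    exact lt_min one_pos (lt_min (by positivity) (by positivity))
  have hcc1 : c ≤ c1 * c1 := by
    rw [hc]
    exact (min_le_right _ _).trans (min_le_left _ _)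
  have hcc2 : c ≤ c1 * c2 := by
    rw [hc]
    exact (min_le_right _ _).trans (min_le_right _ _)
  refine ⟨c, κ, 200 * (t0 + 1) + r1, hc0, by rw [hc]; exact min_le_left _ _, hκ, fun A Y r H hr hY => ?_⟩
  obtain ⟨w, hw⟩ : ∃ w, w = r / 200 := ⟨_, rfl⟩
  have hw1 : 1 ≤ w := by omega
  have hwt : t0 ≤ w := by omega
  have h200 : 200 * w ≤ r := by omega
  have hr400 : r ≤ 400 * w := by omega
  by_cases hbox : ∃ i, i ≤ A.length ∧ 6 * (r : ℤ) ≤ lv (fr (A ++ Y) (vx oo up A i)) ∧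
      lv (fr (A ++ Y) (vx oo up A i)) ≤ 24 * r ∧ |(fr (A ++ Y) (vx oo up A i)).1| ≤ 4 * r
  · obtain ⟨i, hi, hy1, hy2, hy3⟩ := hbox
    obtain ⟨t1, t2, x1, x2, a1, a2, a3, a4, a5, a6, a7, a8⟩ := hit_det hi hy1 hy2 hy3 (lv_tip hY) hw1 h200
    have m1 := hV t1 w x1 (by omega) (by rw [abs_le] at a3 ⊢; omega) (by omega) (by omega)
    have m2 := hV t2 w x2 (by omega) (by rw [abs_le] at a6 ⊢; omega) (by omega) (by omega)
    have m3 := blk_mass (S1 := Vb t1 x1 w) (S2 := Vb t2 x2 w) (N := 10 * r) (fun V h => h.1.1) (fun V h => h.1.1)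
      (fun V h V' h' X hX X' hX' he => Vb_pf h h' hX hX' he) (fun V h V' h' X hX X' hX' he => Vb_pf h h' hX hX' he)
      (fun V1 h1 V2 h2 => by
        have := h1.1.2.2.1
        have := h2.1.2.2.1
        omega)
    calc ENNReal.ofReal c ≤ ENNReal.ofReal c1 * ENNReal.ofReal c1 := by
          rw [← ENNReal.ofReal_mul hc1.le]
          exact ENNReal.ofReal_le_ofReal hcc1
      _ ≤ gf (Vb t1 x1 w) * gf (Vb t2 x2 w) := mul_le_mul' m1 m2
      _ ≤ _ := m3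
      _ ≤ _ := by
          refine gf_mono ?_
          rintro B ⟨hB, V1, hV1, V2, hV2, X0, hX0, rfl⟩
          refine ⟨hB, fun X hX hbad => ?_⟩
          have h1 := hit_notSA (X := X0 ++ X) (a8 V1 hV1.1 V2 hV2.1)
          apply h1
          have h2 := hbad.2.2.1
          simp only [List.append_assoc] at h2 ⊢
          exact h2
  · push Not at hbox
    obtain ⟨m, hm⟩ : ∃ m : ℕ, m = ⌈κ * UU r⌉₊ := ⟨_, rfl⟩
    have hUr := Num2Aux.UU_pos r
    have hm1 : (m : ℝ) ≤ κ * UU r + 1 := by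
      rw [hm]
      exact (Nat.ceil_lt_add_one (by positivity)).le
    have hm2 : κ * UU r ≤ m := by
      rw [hm]
      exact Nat.le_ceil _
    have m1 := hV (4 * r) w 0 (by omega) (by simp) (by omega) (by omega)
    have m2 := hU m r (by omega) hm1
    have m3 := blk_mass (S1 := Vb (4 * r) 0 w) (S2 := Um m r) (N := 10 * r) (fun V h => h.1.1) (fun V h => Ir_BU h.1)
      (fun V h V' h' X hX X' hX' he => Vb_pf h h' hX hX' he) (fun V h V' h' X hX X' hX' he => Ir_pf h.1 h'.1 hX hX' he)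
      (fun V1 h1 V2 h2 => by
        have := h1.1.2.2.1
        have := h2.2.1
        omega)
    calc ENNReal.ofReal c ≤ ENNReal.ofReal c1 * ENNReal.ofReal c2 := by
          rw [← ENNReal.ofReal_mul hc1.le]
          exact ENNReal.ofReal_le_ofReal hcc2
      _ ≤ gf (Vb (4 * r) 0 w) * gf (Um m r) := mul_le_mul' m1 m2
      _ ≤ _ := m3
      _ ≤ _ := by
          refine gf_mono ?_
          rintro B ⟨hB, V1, hV1, V2, hV2, X0, hX0, rfl⟩
          refine ⟨hB, fun X hX hbad => ?_⟩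
          have h1 := free_cuts (X := X0 ++ X) hY (BU_app hX0 hX) (fun i hi e1 e2 e3 => absurd e3 (not_le.2 (hbox i hi e1 e2)))
            h200 hV1.1 hV2
          have h2 := hbad.2.2.2
          simp only [List.append_assoc] at h2 h1
          have h3 : ((m + 1 : ℕ) : ℝ) ≤ freeN r A (Y ++ (V1 ++ (V2 ++ (X0 ++ X)))) := by exact_mod_cast h1
          push_cast at h3
          linarith

/-- **(UA)** -/
theorem ua : UA := by
  obtain ⟨c, κ, r0, hc, hc1, hκ, hF⟩ := forb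
  refine ⟨κ, 16 / c, r0 + 1, hκ, by positivity, fun A r H hr => ?_⟩
  obtain ⟨N, hN⟩ : ∃ N, N = 10 * r := ⟨_, rfl⟩
  obtain ⟨S, hS⟩ : ∃ S : List Bool → Set (List Bool), S = fun Y => {Z | Z ∈ BU ∧ Y ++ Z ∈ Bad κ A r H} := ⟨_, rfl⟩
  obtain ⟨Φ, hΦ⟩ : ∃ Φ : ℝ≥0∞, Φ = ⨆ Y : {Y : List Bool // Y ∈ BU}, gf (S Y.1) := ⟨_, rfl⟩
  have hSΦ : ∀ Y ∈ BU, gf (S Y) ≤ Φ := by
    intro Y hY
    rw [hΦ]
    exact le_iSup (fun Y : {Y : List Bool // Y ∈ BU} => gf (S Y.1)) ⟨Y, hY⟩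
  have hUN := Num2Aux.UU_pos N
  have hstep : ∀ Y ∈ BU, gf (S Y) ≤ ENNReal.ofReal (UU N) + (1 - ENNReal.ofReal c) * Φ := by
    intro Y hY
    obtain ⟨Al, hAl⟩ : ∃ Al : Set (List Bool), Al = {B | B ∈ LB.Bk N ∧ ∃ X ∈ BU, Y ++ (B ++ X) ∈ Bad κ A r H} := ⟨_, rfl⟩
    have h1 : gf Al ≤ 1 - ENNReal.ofReal c := by
      refine ENNReal.le_sub_of_add_le_right ENNReal.ofReal_ne_top ?_
      refine (add_le_add le_rfl (hF A Y r H (by omega) hY)).trans ?_
      rw [← gf_union]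
      · refine (gf_mono ?_).trans (gf_Bk N)
        rw [hAl, hN]
        rintro B (hB | hB)
        · exact hB.1
        · exact hB.1
      · rw [Set.disjoint_left, hAl]
        rintro B ⟨-, X, hX, h2⟩ ⟨-, h3⟩
        exact h3 X hX h2
    have hsub : S Y ⊆ {Z | Z ∈ BU ∧ hgt Z ≤ N} ∪ {Z | ∃ B ∈ Al, ∃ Z' ∈ S (Y ++ B), Z = B ++ Z'} := by
      intro Z hZ
      rw [hS] at hZ
      rcases Nat.lt_or_ge N (hgt Z) with h2 | h2
      · obtain ⟨B, hB, X', hX', he⟩ := first_Bk (hgt Z) N Z (BU_hgt hZ.1) h2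
        have h3 := hZ.2
        rw [he] at h3
        refine Or.inr ⟨B, ?_, X', ?_, he⟩
        · rw [hAl]
          exact ⟨hB, X', hX', h3⟩
        · rw [hS]
          refine ⟨hX', ?_⟩
          show (Y ++ B) ++ X' ∈ Bad κ A r H
          rw [List.append_assoc]
          exact h3
      · exact Or.inl ⟨hZ.1, h2⟩
    refine (gf_mono hsub).trans ((gf_union_le _ _).trans (add_le_add (gf_lowBU N) ?_))
    refine (gf_dep (A := Al) (Q := fun B => S (Y ++ B)) (c := Φ) (fun t ht => ht) fun B hB => ?_).trans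
      (mul_le_mul_left h1 _)
    rw [hAl] at hB
    exact hSΦ _ (BU_app hY (Bk_BU hB.1))
  have hfin : Φ ≤ ENNReal.ofReal (UU H) := by
    rw [hΦ]
    refine iSup_le fun Y => ?_
    refine (gf_mono ?_).trans (gf_lowBU H)
    intro Z hZ
    rw [hS] at hZ
    refine ⟨hZ.1, ?_⟩
    have h1 := hZ.2.2.1
    rw [hgt_app Y.2 hZ.1] at h1
    omega
  have hΦt : Φ ≠ ∞ := ne_top_of_le_ne_top ENNReal.ofReal_ne_top hfin
  have hrec : Φ ≤ ENNReal.ofReal (UU N) + (1 - ENNReal.ofReal c) * Φ := by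
    conv_lhs => rw [hΦ]
    exact iSup_le fun Y => hstep Y.1 Y.2
  obtain ⟨φ, hφ0, hφ⟩ : ∃ φ : ℝ, 0 ≤ φ ∧ Φ = ENNReal.ofReal φ := ⟨Φ.toReal, ENNReal.toReal_nonneg,
    (ENNReal.ofReal_toReal hΦt).symm⟩
  have hr2 : φ ≤ UU N + (1 - c) * φ := by
    rw [hφ, ← ENNReal.ofReal_one, ← ENNReal.ofReal_sub _ hc.le, ← ENNReal.ofReal_mul (by linarith),
      ← ENNReal.ofReal_add hUN.le (mul_nonneg (by linarith) hφ0),
      ENNReal.ofReal_le_ofReal_iff (add_nonneg hUN.le (mul_nonneg (by linarith) hφ0))] at hrec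
    exact hrec
  have hφ2 : φ ≤ UU N / c := by
    rw [le_div_iff₀ hc]
    nlinarith
  have hUN2 : UU N ≤ 16 * UU r := by
    have h1 := UU_double r
    have h2 := UU_double (2 * r)
    have h3 := UU_double (2 * (2 * r))
    have h4 := UU_double (2 * (2 * (2 * r)))
    have h5 := UU_mono (show N ≤ 2 * (2 * (2 * (2 * r))) by omega)
    linarith
  have hmain : gf (S []) ≤ ENNReal.ofReal (16 / c * UU r) := by
    refine (hSΦ [] nil_BU).trans ?_
    rw [hφ]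
    refine ENNReal.ofReal_le_ofReal (hφ2.trans ?_)
    rw [div_mul_eq_mul_div]
    exact div_le_div_of_nonneg_right hUN2 hc.le
  refine le_trans (gf_mono ?_) hmain
  intro Z hZ
  rw [hS]
  exact ⟨hZ.1, hZ⟩

end TIP

end HexObs
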