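import Pool.Agent.TIP.NfA

/-!
TIP, row Nf (helper84), part B: one word with a good factor near the tip.
-/

set_option autoImplicit false

namespace HexObs

namespace TIP

open Finset TS SDN SIM NTA NTW

open scoped ENNReal

namespace Nf

/-- the words lemmas (helper40) -/
structure NeW : Prop where
  last : ∀ (κ : ℝ) (C b : ℕ) (t : List Bool), t ∉ Nz κ C b → ∃ X Z Y, t = X ++ (Z ++ Y) ∧ Y ≠ [] ∧ Z ∈ Zc κ C b ∧ Y ∈ Nz κ C b
  A : ∀ (η : ℝ) (b : ℕ) (X Z1 M : List Bool), Z1 ∈ BU → 2 ^ (b + 1) ≤ hgt Z1 → M ∈ BU → hgt M ≤ 2 ^ b →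
    η * Ub b ≤ (nc M : ℝ) → X ++ (Z1 ++ M) ∈ GT b η
  B : ∀ (η : ℝ) (b : ℕ) (N Z3 Y : List Bool), N ∈ BU → hgt N ≤ 2 ^ b → Z3 ∈ BU → 2 ^ (b + 1) ≤ hgt Z3 →
    η * Ub b ≤ (nc N : ℝ) → rev (N ++ (Z3 ++ Y)) ∈ GT b η
  split : ∀ M N : List Bool, M ∈ BU → N ∈ BU → nc (M ++ N) + 1 = nc M + nc N

/-- the part between two cuts -/
lemma mid {X Y Z : List Bool} (h1 : Y ++ Z ∈ BU) (h2 : Z ∈ BU) (h3 : X ++ Y ∈ BU) : Y ∈ BU := by
  have g1 := mem_Brd.1 (BU_hgt h1)
  have g2 := mem_Brd.1 (BU_hgt h2)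
  have gB := mem_Brd.1 (BU_hgt h3)
  have hdY : dx up Y Y.length = up := by rw [← end_dir g2.2.2.1, g1.2.2.1]
  have hlY := lev_end_app hdY h2
  rw [g1.2.2.2] at hlY
  have key : ∀ i, 1 ≤ i → i ≤ Y.length → 0 < lev Y i := by
    intro i hi hl
    have := (g1.1 i hi (by rw [List.length_append]; omega)).1
    rwa [lev_append (by omega)] at this
  have hdX : dx up X X.length = up := by
    have := end_dir (X := X) hdY
    rw [← this, gB.2.2.1]
  have h0 : 0 ≤ lev Y Y.length := by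
    rcases Nat.eq_zero_or_pos Y.length with h | h
    · rw [h, lev_zero]
    · exact (key _ h le_rfl).le
  have hT : lev Y Y.length = 3 * ((hgt (Y ++ Z) - hgt Z : ℕ) : ℤ) := by omega
  refine ⟨hgt (Y ++ Z) - hgt Z, ?_⟩
  rw [mem_Brd]
  refine ⟨fun i hi hl => ⟨key i hi hl, ?_⟩, ?_, hdY, hT⟩
  · have h6 := (gB.1 (X.length + i) (by omega) (by rw [List.length_append]; omega)).2
    have h7 := gB.2.2.2
    rw [List.length_append, lev_cat hdX] at h7
    rw [lev_cat hdX] at h6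
    omega
  · intro i k hik hk heq
    refine g1.2.1 i k hik (by rw [List.length_append]; omega) ?_
    rw [vx_append (by omega), vx_append (by omega), heq]

open Classical in
/-- the cuts -/
noncomputable def cz (Z : List Bool) : Finset ℕ := (range (Z.length + 1)).filter fun j => Z.take j ∈ BU ∧ Z.drop j ∈ BU

open Classical in
lemma mem_cz {Z : List Bool} {j : ℕ} : j ∈ cz Z ↔ j ≤ Z.length ∧ Z.take j ∈ BU ∧ Z.drop j ∈ BU := by
  unfold cz
  rw [mem_filter, mem_range]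
  constructor
  · rintro ⟨h1, h2⟩
    exact ⟨by omega, h2⟩
  · rintro ⟨h1, h2⟩
    exact ⟨by omega, h2⟩

lemma nc_cz (Z : List Bool) : nc Z = (cz Z).card := rfl

lemma nc_pos {Z : List Bool} (h : Z ∈ BU) : 1 ≤ nc Z := by
  rw [nc_cz, Nat.one_le_iff_ne_zero, Finset.card_ne_zero]
  exact ⟨0, mem_cz.2 ⟨Nat.zero_le _, by rw [List.take_zero]; exact nil_BU, by rw [List.drop_zero]; exact h⟩⟩

lemma nc_two {Z : List Bool} (h : Z ∈ BU) (hne : Z ≠ []) : 2 ≤ nc Z := by
  have hl : 0 < Z.length := List.length_pos_iff.2 hne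
  have h0 : 0 ∈ cz Z := mem_cz.2 ⟨Nat.zero_le _, by rw [List.take_zero]; exact nil_BU, by rw [List.drop_zero]; exact h⟩
  have h1 : Z.length ∈ cz Z := mem_cz.2 ⟨le_rfl, by rw [List.take_length]; exact h, by rw [List.drop_length]; exact nil_BU⟩
  rw [nc_cz]
  have h2 : ({0, Z.length} : Finset ℕ) ⊆ cz Z := by
    intro x hx
    rw [mem_insert, mem_singleton] at hx
    rcases hx with rfl | rfl
    · exact h0
    · exact h1
  have h3 := card_le_card h2
  rwa [card_pair (by omega)] at h3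

/-- two cuts -/
lemma cz_split {Z : List Bool} {c c' : ℕ} (h : c ∈ cz Z) (h' : c' ∈ cz Z) (hcc : c ≤ c') :
    ∃ P M R, P ∈ BU ∧ M ∈ BU ∧ R ∈ BU ∧ Z = P ++ (M ++ R) ∧ P.length = c ∧ P.length + M.length = c' ∧
      Z.take c = P ∧ Z.drop c = M ++ R ∧ Z.take c' = P ++ M ∧ Z.drop c' = R := by
  obtain ⟨a1, a2, a3⟩ := mem_cz.1 h
  obtain ⟨b1, b2, b3⟩ := mem_cz.1 h'
  obtain ⟨P, hP⟩ : ∃ P, P = Z.take c := ⟨_, rfl⟩
  obtain ⟨R, hR⟩ : ∃ R, R = Z.drop c' := ⟨_, rfl⟩
  obtain ⟨M, hM⟩ : ∃ M, M = (Z.take c').drop c := ⟨_, rfl⟩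
  have e1 : Z.take c' = P ++ M := by
    rw [hP, hM]
    have : (Z.take c').take c = Z.take c := by rw [List.take_take, min_eq_left hcc]
    rw [← this, List.take_append_drop]
  have lP : P.length = c := by
    rw [hP, List.length_take]
    omega
  have e2 : Z = P ++ (M ++ R) := by
    rw [← List.append_assoc, ← e1, hR, List.take_append_drop]
  have e3 : Z.drop c = M ++ R := by
    conv_lhs => rw [e2]
    exact List.drop_left' lP
  have lM : P.length + M.length = c' := by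
    have := congrArg List.length e1
    rw [List.length_take, List.length_append] at this
    omega
  refine ⟨P, M, R, by rw [hP]; exact a2, ?_, by rw [hR]; exact b3, e2, lP, lM, hP.symm, e3, e1, hR.symm⟩
  exact mid (X := P) (Z := R) (by rw [← e3]; exact a3) (by rw [hR]; exact b3) (by rw [← e1]; exact b2)

lemma rank_lt (hW : NeW) {Z : List Bool} {c c' : ℕ} (h : c ∈ cz Z) (h' : c' ∈ cz Z) (hcc : c < c') :
    nc (Z.take c) < nc (Z.take c') := by
  obtain ⟨P, M, R, h1, h2, -, -, h4, h5, h6, -, h7, -⟩ := cz_split h h' hcc.le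
  rw [h6, h7]
  have h8 := hW.split P M h1 h2
  have h9 : 2 ≤ nc M := nc_two h2 fun h0 => by
    rw [h0, List.length_nil] at h5
    omega
  omega

lemma rank_sum (hW : NeW) {Z : List Bool} {c : ℕ} (h : c ∈ cz Z) : nc (Z.take c) + nc (Z.drop c) = nc Z + 1 := by
  obtain ⟨-, a2, a3⟩ := mem_cz.1 h
  have := hW.split _ _ a2 a3
  rw [List.take_append_drop] at this
  omega

open Classical in
lemma card_rank (hW : NeW) {Z : List Bool} {lo hi : ℕ} (h1 : 1 ≤ lo) (h2 : hi ≤ nc Z + 1) :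
    ((cz Z).filter fun c => lo ≤ nc (Z.take c) ∧ nc (Z.take c) < hi).card = hi - lo := by
  have hinj : Set.InjOn (fun c : ℕ => nc (Z.take c)) (cz Z : Set ℕ) := by
    intro c hc c' hc' he
    rcases Nat.lt_trichotomy c c' with h | h | h
    · have := rank_lt hW (mem_coe.1 hc) (mem_coe.1 hc') h
      simp only at he
      omega
    · exact h
    · have := rank_lt hW (mem_coe.1 hc') (mem_coe.1 hc) h
      simp only at he
      omega
  have himg : (cz Z).image (fun c : ℕ => nc (Z.take c)) = Icc 1 (nc Z) := by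
    refine eq_of_subset_of_card_le (fun x hx => ?_) ?_
    · obtain ⟨c, hc, rfl⟩ := mem_image.1 hx
      have h3 := rank_sum hW hc
      have h4 := nc_pos (mem_cz.1 hc).2.1
      have h5 := nc_pos (mem_cz.1 hc).2.2
      rw [mem_Icc]
      omega
    · rw [Nat.card_Icc, card_image_of_injOn hinj, ← nc_cz]
      omega
  rw [← card_image_of_injOn (hinj.mono fun c hc => by
    rw [mem_coe, mem_filter] at hc
    exact hc.1)]
  have h3 : ((cz Z).filter fun c => lo ≤ nc (Z.take c) ∧ nc (Z.take c) < hi).image (fun c : ℕ => nc (Z.take c)) = Ico lo hi := by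
    ext x
    rw [mem_image, mem_Ico]
    constructor
    · rintro ⟨c, hc, rfl⟩
      exact (mem_filter.1 hc).2
    · rintro ⟨x1, x2⟩
      have : x ∈ (cz Z).image (fun c : ℕ => nc (Z.take c)) := by
        rw [himg, mem_Icc]
        omega
      obtain ⟨c, hc, rfl⟩ := mem_image.1 this
      exact ⟨c, mem_filter.2 ⟨hc, x1, x2⟩, rfl⟩
  rw [h3, Nat.card_Ico]

/-! ### boxes -/

lemma in_mid {E : ℕ} {X M R : List Bool} (hX : dx up X X.length = up) (h : In E (X ++ (M ++ R))) : In (2 * E) M := by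
  intro i hi
  have h1 := h X.length (by rw [List.length_append]; omega)
  have h2 := h (X.length + i) (by rw [List.length_append, List.length_append]; omega)
  rw [vx_append (by omega)] at h1
  rw [vx_cat hX, vx_append (by omega)] at h2
  obtain ⟨a1, a2⟩ := h1
  obtain ⟨b1, b2⟩ := h2
  simp only [Prod.fst_add, Prod.snd_add] at b1 b2
  have o1 : (oo : Pt).1 = 0 := rfl
  have o2 : (oo : Pt).2 = 0 := rfl
  rw [o1, sub_zero] at a1 b1
  rw [o2, sub_zero] at a2 b2
  rw [abs_le] at a1 a2 b1 b2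
  refine ⟨?_, ?_⟩ <;> (first | rw [o1, sub_zero] | rw [o2, sub_zero]) <;> rw [abs_le] <;> push_cast <;> constructor <;> linarith [a1.1, a1.2, a2.1, a2.2, b1.1, b1.2, b2.1, b2.2]

lemma in_app {E E' : ℕ} {W Y : List Bool} (hW : dx up W W.length = up) (h1 : In E W) (h2 : In E' Y) :
    In (E + E') (W ++ Y) := by
  intro i hi
  rcases Nat.lt_or_ge W.length i with h | h
  · obtain ⟨k, rfl⟩ : ∃ k, i = W.length + k := ⟨i - W.length, by omega⟩
    rw [List.length_append] at hi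
    rw [vx_cat hW]
    obtain ⟨a1, a2⟩ := h1 W.length le_rfl
    obtain ⟨b1, b2⟩ := h2 k (by omega)
    rw [abs_le] at a1 a2 b1 b2
    have e : (oo : Pt) = 0 := rfl
    rw [e] at a1 a2 b1 b2 ⊢
    simp only [Prod.fst_zero, Prod.snd_zero, sub_zero] at a1 a2 b1 b2
    refine ⟨?_, ?_⟩ <;> simp only [Prod.fst_add, Prod.snd_add, Prod.fst_zero, Prod.snd_zero, sub_zero] <;> rw [abs_le] <;>
      push_cast <;> constructor <;> linarith [a1.1, a1.2, a2.1, a2.2, b1.1, b1.2, b2.1, b2.2]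
  · rw [vx_append (by omega)]
    obtain ⟨a1, a2⟩ := h1 i h
    refine ⟨a1.trans ?_, a2.trans ?_⟩ <;> push_cast <;> linarith [Nat.cast_nonneg (α := ℤ) E']

lemma in_mono {E E' : ℕ} {Y : List Bool} (h : In E Y) (hE : E ≤ E') : In E' Y := by
  intro i hi
  obtain ⟨a1, a2⟩ := h i hi
  have : (E : ℤ) ≤ E' := by exact_mod_cast hE
  exact ⟨a1.trans this, a2.trans this⟩

/-! ### counting -/

lemma nD_ge {D : ℕ} {ρ : List Bool → List Bool → Prop} {t : List Bool} {S : Finset ℕ}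
    (h : ∀ c ∈ S, c ≤ t.length ∧ ρ (t.take c) (t.drop c) ∧ In D (t.drop c)) : S.card ≤ nD D ρ t := by
  classical
  unfold nD
  have hfin : {Y : List Bool | ∃ A, t = A ++ Y ∧ ρ A Y ∧ In D Y}.Finite := fin_suf fun Y hY => by
    obtain ⟨A, hA, -⟩ := hY
    exact ⟨A, hA.symm⟩
  have hinj : Set.InjOn (fun c : ℕ => t.drop c) (S : Set ℕ) := by
    intro c hc c' hc' he
    have h1 := congrArg List.length he
    simp only [List.length_drop] at h1
    have := (h c hc).1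
    have := (h c' hc').1
    omega
  rw [← card_image_of_injOn hinj, ← Set.ncard_coe_finset]
  refine Set.ncard_le_ncard (fun Y hY => ?_) hfin
  obtain ⟨c, hc, rfl⟩ := mem_image.1 (mem_coe.1 hY)
  obtain ⟨-, h2, h3⟩ := h c hc
  exact ⟨t.take c, (List.take_append_drop c t).symm, h2, h3⟩

lemma nca_ge {b a D : ℕ} {η : ℝ} {t : List Bool} {S : Finset ℕ}
    (h : ∀ c ∈ S, c ≤ t.length ∧ rev (t.drop c) ∈ GT b η ∧ In D (t.drop c) ∧ FreeT (2 ^ a) (t.take c)) :
    S.card ≤ (NCa b a D η t).ncard := by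
  classical
  have hfin : (NCa b a D η t).Finite := fin_suf fun Y hY => by
    obtain ⟨-, -, A, hA, -⟩ := hY
    exact ⟨A, hA.symm⟩
  have hinj : Set.InjOn (fun c : ℕ => t.drop c) (S : Set ℕ) := by
    intro c hc c' hc' he
    have h1 := congrArg List.length he
    simp only [List.length_drop] at h1
    have := (h c hc).1
    have := (h c' hc').1
    omega
  rw [← card_image_of_injOn hinj, ← Set.ncard_coe_finset]
  refine Set.ncard_le_ncard (fun Y hY => ?_) hfin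
  obtain ⟨c, hc, rfl⟩ := mem_image.1 (mem_coe.1 hY)
  obtain ⟨-, h2, h3, h4⟩ := h c hc
  exact ⟨h2, h3, t.take c, (List.take_append_drop c t).symm, h4⟩

/-! ### one word -/

/-- the last good factor -/
structure Dt (κ : ℝ) (C b : ℕ) (t X Z1 Z2 Z3 Y0 : List Bool) : Prop where
  sa : t ∈ SA
  eq : t = X ++ (Z1 ++ (Z2 ++ (Z3 ++ Y0)))
  b1 : Z1 ∈ BU
  b2 : Z2 ∈ BU
  b3 : Z3 ∈ BU
  h1 : 2 ^ (b + 1) ≤ hgt Z1
  h3 : 2 ^ (b + 1) ≤ hgt Z3
  h2 : hgt Z2 ≤ 2 ^ b
  n2 : κ * Ub b ≤ (nc Z2 : ℝ)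
  inn : In (C * 2 ^ b) (Z1 ++ (Z2 ++ Z3))
  nz : Y0 ∈ Nz κ C b

lemma dt_of (hW : NeW) {κ : ℝ} {C b : ℕ} {t : List Bool} (hsa : t ∈ SA) (ht : t ∉ Nz κ C b) :
    ∃ X Z1 Z2 Z3 Y0, Dt κ C b t X Z1 Z2 Z3 Y0 := by
  obtain ⟨X, Z, Y, h1, -, ⟨Z1, Z2, Z3, rfl, c1, c2, c3, c4, c5, c6, c7, c8⟩, h4⟩ := hW.last κ C b t ht
  refine ⟨X, Z1, Z2, Z3, Y, hsa, ?_, c1, c2, c3, c4, c5, c6, c7, c8, h4⟩
  rw [h1, List.append_assoc, List.append_assoc]

variable {κ : ℝ} {C b : ℕ} {t X Z1 Z2 Z3 Y0 : List Bool}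

lemma Dt.cut (hd : Dt κ C b t X Z1 Z2 Z3 Y0) {c : ℕ} (hc : c ≤ Z2.length) :
    (X ++ Z1).length + c ≤ t.length ∧ t.take ((X ++ Z1).length + c) = X ++ (Z1 ++ Z2.take c) ∧
      t.drop ((X ++ Z1).length + c) = Z2.drop c ++ (Z3 ++ Y0) := by
  have e : t = (X ++ (Z1 ++ Z2.take c)) ++ (Z2.drop c ++ (Z3 ++ Y0)) := by
    rw [hd.eq]
    conv_lhs => rw [← List.take_append_drop c Z2]
    simp only [List.append_assoc]
  have l : (X ++ (Z1 ++ Z2.take c)).length = (X ++ Z1).length + c := by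
    simp only [List.length_append, List.length_take]
    omega
  refine ⟨?_, ?_, ?_⟩
  · have := congrArg List.length e
    rw [List.length_append, l] at this
    omega
  · conv_lhs => rw [e]
    exact List.take_left' l
  · conv_lhs => rw [e]
    exact List.drop_left' l

lemma Dt.gt (hW : NeW) (hd : Dt κ C b t X Z1 Z2 Z3 Y0) {η : ℝ} {h c : ℕ} (hη : η * Ub b ≤ (h : ℝ)) (h4 : 4 * h ≤ nc Z2)
    (hc : c ∈ cz Z2) (c1 : h ≤ nc (Z2.take c)) (c2 : nc (Z2.take c) ≤ 3 * h) :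
    t.take ((X ++ Z1).length + c) ∈ GT b η ∧ rev (t.drop ((X ++ Z1).length + c)) ∈ GT b η := by
  obtain ⟨a1, a2, a3⟩ := mem_cz.1 hc
  obtain ⟨-, e1, e2⟩ := hd.cut a1
  have hh : hgt (Z2.take c) + hgt (Z2.drop c) = hgt Z2 := by
    rw [← hgt_app a2 a3, List.take_append_drop]
  have hs := rank_sum hW hc
  have h2 := hd.h2
  rw [e1, e2]
  refine ⟨hW.A η b X Z1 _ hd.b1 hd.h1 a2 (by omega) (hη.trans (by exact_mod_cast c1)),
    hW.B η b _ Z3 Y0 a3 (by omega) hd.b3 hd.h3 (hη.trans ?_)⟩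
  have : h ≤ nc (Z2.drop c) := by omega
  exact_mod_cast this

lemma Dt.inD (hd : Dt κ C b t X Z1 Z2 Z3 Y0) {E0 D c : ℕ} (hE : In E0 Y0) (hD : 2 * (C * 2 ^ b) + E0 ≤ D) (hc : c ∈ cz Z2) :
    In D (t.drop ((X ++ Z1).length + c)) := by
  obtain ⟨a1, a2, a3⟩ := mem_cz.1 hc
  obtain ⟨-, -, e2⟩ := hd.cut a1
  rw [e2, ← List.append_assoc]
  refine in_mono (in_app (BU_dx (BU_app a3 hd.b3)) ?_ hE) hD
  refine in_mid (X := Z1 ++ Z2.take c) (R := []) (BU_dx (BU_app hd.b1 a2)) ?_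
  have : (Z1 ++ Z2.take c) ++ ((Z2.drop c ++ Z3) ++ []) = Z1 ++ (Z2 ++ Z3) := by
    rw [List.append_nil, List.append_assoc]
    conv_rhs => rw [← List.take_append_drop c Z2]
    simp only [List.append_assoc]
  rw [this]
  exact hd.inn

/-- the good tip at a cut is local -/
lemma Dt.lt (hW : NeW) (hd : Dt κ C b t X Z1 Z2 Z3 Y0) {η : ℝ} {h c : ℕ} (hη : η * Ub b ≤ (h : ℝ))
    (hc : c ∈ cz Z2) (c1 : h ≤ nc (Z2.take c)) : Lt b (C * 2 ^ b) η (t.take ((X ++ Z1).length + c)) := by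
  obtain ⟨a1, a2, a3⟩ := mem_cz.1 hc
  obtain ⟨-, e1, -⟩ := hd.cut a1
  have hh : hgt (Z2.take c) + hgt (Z2.drop c) = hgt Z2 := by
    rw [← hgt_app a2 a3, List.take_append_drop]
  have h2 := hd.h2
  rw [e1]
  refine ⟨X, Z1 ++ Z2.take c, rfl, ?_, fun i hi => ?_⟩
  · have := hW.A η b [] Z1 _ hd.b1 hd.h1 a2 (by omega) (hη.trans (by exact_mod_cast c1))
    rwa [List.nil_append] at this
  · have e : Z1 ++ (Z2 ++ Z3) = (Z1 ++ Z2.take c) ++ (Z2.drop c ++ Z3) := by
      conv_lhs => rw [← List.take_append_drop c Z2]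
      simp only [List.append_assoc]
    have h3 := hd.inn i (by rw [e, List.length_append]; omega)
    rw [e, vx_append (by omega)] at h3
    exact h3

open Classical in
/-- case B: the rest behind the last good factor is long -/
theorem caseB (hW : NeW) (hd : Dt κ C b t X Z1 Z2 Z3 Y0) {η : ℝ} {h J n : ℕ} (hh : 1 ≤ h) (hη : η * Ub b ≤ (h : ℝ))
    (h4 : 4 * h ≤ nc Z2) (hn : 2 ^ (J + 1) ≤ n * 2 ^ 2) (hE : In (2 ^ (b + J)) Y0) (hE' : ¬ In (n * 2 ^ b) Y0)
    (hC : 2 * C ≤ 2 ^ J) : h ≤ nD (2 ^ (b + (J + 1))) (RB κ C b (J + 1) (C * 2 ^ b) η) t := by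
  have h1 := card_rank hW (Z := Z2) (lo := h) (hi := 2 * h) hh (by omega)
  have h2 : 2 * h - h = h := by omega
  rw [h2] at h1
  rw [← h1, ← card_image_of_injective _ (fun x y h => Nat.add_left_cancel h : Function.Injective fun c => (X ++ Z1).length + c)]
  refine nD_ge fun q hq => ?_
  obtain ⟨c, hc, rfl⟩ := mem_image.1 hq
  rw [mem_filter] at hc
  obtain ⟨hc1, hc2, hc3⟩ := hc
  obtain ⟨a1, a2, a3⟩ := mem_cz.1 hc1
  obtain ⟨f1, f2, f3⟩ := hd.cut a1
  obtain ⟨g1, g2⟩ := hd.gt hW hη h4 hc1 hc2 (by omega)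
  have hpow : 2 * (C * 2 ^ b) + 2 ^ (b + J) ≤ 2 ^ (b + (J + 1)) := by
    have e1 : 2 ^ (b + (J + 1)) = 2 ^ J * 2 ^ b + 2 ^ (b + J) := by
      rw [← add_assoc, pow_succ, pow_add]
      ring
    have e2 := Nat.mul_le_mul_right (2 ^ b) hC
    rw [e1]
    nlinarith
  refine ⟨f1, ⟨hd.lt hW hη hc1 hc2, ?_, g2, n, hn, ?_⟩, hd.inD hE hpow hc1⟩
  · exact SA_drop hd.sa _
  · rw [f3]
    exact ⟨Z2.drop c ++ Z3, Y0, [], by simp only [List.append_assoc, List.append_nil], hd.nz, hE'⟩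

open Classical in
/-- case A: the rest behind the last good factor is short, and few good cuts -/
theorem caseA (hW : NeW) (hd : Dt κ C b t X Z1 Z2 Z3 Y0) {η κ0 κ' : ℝ} {h m r a : ℕ} (hh : 1 ≤ h) (hη : η * Ub b ≤ (h : ℝ))
    (h4 : 4 * h ≤ nc Z2) (hE : In (2 ^ (b + m)) Y0) (hC : 2 * C ≤ 2 ^ m) (ha : 2 ^ a ≤ r)
    (hκ : κ' * Ub b ≤ κ0) (hN : ((NCa b a (2 ^ (b + (m + 1))) η t).ncard : ℝ) < κ' * Ub b) :
    h ≤ nD (2 ^ (b + (m + 1))) (RA κ0 r b (C * 2 ^ b) (2 ^ (b + (m + 1))) η h) t := by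
  have hpow : 2 * (C * 2 ^ b) + 2 ^ (b + m) ≤ 2 ^ (b + (m + 1)) := by
    have e1 : 2 ^ (b + (m + 1)) = 2 ^ m * 2 ^ b + 2 ^ (b + m) := by
      rw [← add_assoc, pow_succ, pow_add]
      ring
    have e2 := Nat.mul_le_mul_right (2 ^ b) hC
    rw [e1]
    nlinarith
  have h1 := card_rank hW (Z := Z2) (lo := h) (hi := 2 * h) hh (by omega)
  have h2 : 2 * h - h = h := by omega
  rw [h2] at h1
  have h3 := card_rank hW (Z := Z2) (lo := 2 * h) (hi := 3 * h) (by omega) (by omega)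
  have h3' : 3 * h - 2 * h = h := by omega
  rw [h3'] at h3
  conv_lhs => rw [← h1, ← card_image_of_injective _ (fun x y h => Nat.add_left_cancel h :
    Function.Injective fun c => (X ++ Z1).length + c)]
  refine nD_ge fun q hq => ?_
  obtain ⟨c, hc, rfl⟩ := mem_image.1 hq
  rw [mem_filter] at hc
  obtain ⟨hc1, hc2, hc3⟩ := hc
  obtain ⟨a1, a2, a3⟩ := mem_cz.1 hc1
  obtain ⟨f1, f2, f3⟩ := hd.cut a1
  obtain ⟨g1, g2⟩ := hd.gt hW hη h4 hc1 hc2 (by omega)
  refine ⟨f1, ⟨hd.lt hW hη hc1 hc2, ?_⟩, hd.inD hE hpow hc1⟩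
  have hlt : ∀ c' ∈ (cz Z2).filter (fun c => 2 * h ≤ nc (Z2.take c) ∧ nc (Z2.take c) < 3 * h), c < c' := by
    intro c' hc'
    rw [mem_filter] at hc'
    by_contra hcon
    rcases Nat.eq_or_lt_of_le (not_lt.1 hcon) with he | he
    · rw [he] at hc'
      omega
    · have := rank_lt hW hc'.1 hc1 he
      omega
  refine ⟨((cz Z2).filter (fun c => 2 * h ≤ nc (Z2.take c) ∧ nc (Z2.take c) < 3 * h)).image (fun c' => c' - c), ?_,
    fun k hk => ?_⟩
  · rw [card_image_of_injOn, h3]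
    intro x hx y hy hxy
    have := hlt x (mem_coe.1 hx)
    have := hlt y (mem_coe.1 hy)
    simp only at hxy
    omega
  · obtain ⟨c', hc', rfl⟩ := mem_image.1 hk
    have hcc := hlt c' hc'
    rw [mem_filter] at hc'
    obtain ⟨d1, d2, d3⟩ := hc'
    obtain ⟨P, M, R, p1, p2, p3, p4, p5, p6, p7, p8, p9, p10⟩ := cz_split hc1 d1 hcc.le
    obtain ⟨b1, b2, b3⟩ := mem_cz.1 d1
    obtain ⟨k1, k2, k3⟩ := hd.cut b1
    obtain ⟨l1, l2⟩ := hd.gt hW hη h4 d1 (by omega) (by omega)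
    have hMl : M.length = c' - c := by omega
    have e1 : t.drop ((X ++ Z1).length + c) = M ++ (R ++ (Z3 ++ Y0)) := by
      rw [f3, p8, List.append_assoc]
    have e2 : (t.drop ((X ++ Z1).length + c)).take (c' - c) = M := by
      rw [e1]
      exact List.take_left' hMl
    have e3 : (t.drop ((X ++ Z1).length + c)).drop (c' - c) = t.drop ((X ++ Z1).length + c') := by
      rw [List.drop_drop]
      congr 1
      omega
    have e4 : t.take ((X ++ Z1).length + c) ++ M = t.take ((X ++ Z1).length + c') := by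
      rw [f2, k2, p7, p9]
      simp only [List.append_assoc]
    rw [e2, e3]
    have hhM : hgt P + (hgt M + hgt R) = hgt Z2 := by
      rw [← hgt_app p2 p3, ← hgt_app p1 (BU_app p2 p3), ← p4]
    have hh2 := hd.h2
    refine ⟨?_, ⟨p2, by omega, ?_, ?_⟩, ?_, SA_drop hd.sa _, l2, hd.inD hE hpow d1⟩
    · rw [e1, List.length_append]
      omega
    · rw [e4]
      exact SA_take hd.sa _
    · -- few free cuts
      by_contra hcon
      rw [not_lt] at hcon
      have key : frN (Far6 r) (t.take ((X ++ Z1).length + c)) M ≤ (NCa b a (2 ^ (b + (m + 1))) η t).ncard := by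
        unfold frN
        rw [← card_image_of_injective _ (fun x y h => Nat.add_left_cancel h :
          Function.Injective fun i => ((X ++ Z1).length + c) + i)]
        refine nca_ge fun q hq => ?_
        obtain ⟨i, hi, rfl⟩ := mem_image.1 hq
        rw [mem_filter, mem_range] at hi
        obtain ⟨i1, i2, i3, i4⟩ := hi
        have m1 : Z2.take (c + i) = P ++ M.take i := by
          rw [p4, ← p5, List.take_length_add_append, List.take_append_of_le_length (by omega)]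
        have m2 : Z2.drop (c + i) = M.drop i ++ R := by
          rw [p4, ← p5, List.drop_length_add_append, List.drop_append_of_le_length (by omega)]
        have m3 : c + i ∈ cz Z2 := by
          rw [mem_cz, m1, m2]
          exact ⟨by omega, BU_app p1 i2, BU_app i3 p3⟩
        have m4 : nc (Z2.take c) ≤ nc (Z2.take (c + i)) := by
          rcases Nat.eq_zero_or_pos i with h0 | h0
          · rw [h0, add_zero]
          · exact (rank_lt hW hc1 m3 (by omega)).le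
        have m5 : nc (Z2.take (c + i)) ≤ nc (Z2.take c') := by
          rcases Nat.eq_or_lt_of_le (show c + i ≤ c' by omega) with h0 | h0
          · rw [h0]
          · exact (rank_lt hW m3 d1 h0).le
        obtain ⟨n1, n2, n3⟩ := hd.cut (mem_cz.1 m3).1
        obtain ⟨o1, o2⟩ := hd.gt hW hη h4 m3 (by omega) (by omega)
        rw [← add_assoc] at n1 n2 n3 o1 o2
        refine ⟨n1, o2, ?_, ?_⟩
        · have := hd.inD hE hpow m3
          rwa [← add_assoc (X ++ Z1).length c i] at this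
        · have : t.take ((X ++ Z1).length + c + i) = t.take ((X ++ Z1).length + c) ++ M.take i := by
            rw [n2, f2, m1, p7]
            simp only [List.append_assoc]
          rw [this]
          exact free_of i2 i4 ha
      have key' : (frN (Far6 r) (t.take ((X ++ Z1).length + c)) M : ℝ) ≤ ((NCa b a (2 ^ (b + (m + 1))) η t).ncard : ℝ) := by
        exact_mod_cast key
      linarith
    · refine in_mid (X := Z1 ++ P) (R := R ++ Z3) (BU_dx (BU_app hd.b1 p1)) ?_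
      have : (Z1 ++ P) ++ (M ++ (R ++ Z3)) = Z1 ++ (Z2 ++ Z3) := by
        rw [p4]
        simp only [List.append_assoc]
      rw [this]
      exact hd.inn

end Nf

end TIP

end HexObs


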