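import Pool.Agent.TIP.M3C
import Pool.Agent.TIP.Step3
import Pool.Agent.TIP.EnsW

/-!
TIP, row Nc: the tip lemma with one step for a class of words P of a box. Exceptional ends: few free cuts (uniform
avoidance), wide (the class Wd); the other ends leave a word of the class P' with a free tip.
-/

set_option autoImplicit false

namespace HexObs

namespace TIP

open Finset TS SDN NTW NTA SIM

open scoped ENNReal

/-- **tipx**, the condition on P' in the general form -/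
theorem tipxg (η : ℝ) (hη : 0 < η) : ∃ (C : ℝ) (e0 : ℕ), 1 ≤ C ∧ ∀ (P P' Wd : Set (List Bool)) (K b e : ℕ) (w M' : ℝ≥0∞),
    P ⊆ WL K → P' ⊆ SA → b ≤ K → e0 ≤ e → e + 2 ≤ b →
    (∀ A Z1 Z2, A ++ (Z1 ++ Z2) ∈ P → Z1 ∈ BU → Z2 ∈ BU → hgt (Z1 ++ Z2) ≤ 2 ^ b → Z1 ++ Z2 ∉ Wd → A ++ Z1 ∈ P') →
    gf {Z | Z ∈ BU ∧ hgt Z ≤ 2 ^ b ∧ Z ∈ Wd} ≤ w →
    gf {t | t ∈ SA ∧ ∃ L ∈ P', ∃ x, BX ((2 ^ e : ℕ) : ℤ) x ∧ t = L ++ x} ≤ M' →
    gf (P ∩ GT b η) * Xb b ≤ ENNReal.ofReal (C / Ub b) * (ENNReal.ofReal (Ub e) + w) * (ENNReal.ofReal (Ub K) * Xb K ^ 2) +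
      ENNReal.ofReal (C ^ (b - e)) * M' := by
  obtain ⟨CU, κ0, r0, hCU, hκ0, hUA⟩ := uah6
  obtain ⟨C0, s, hC0, hM3⟩ := m3c
  obtain ⟨CX, hCX, hX⟩ := Xb_pow
  obtain ⟨Ct, hCt, hT⟩ := tip_WL (η / 8) (by positivity)
  obtain ⟨Y1, hY1⟩ : ∃ Y1 : ℝ, Y1 = 4 / η * Ct * CX * (CU + 1) := ⟨_, rfl⟩
  obtain ⟨Y2, hY2⟩ : ∃ Y2 : ℝ, Y2 = 1 / κ0 * CX ^ (s + 1) * C0 := ⟨_, rfl⟩
  have hY1p : 0 ≤ Y1 := by rw [hY1]; positivity
  have hY2p : 0 ≤ Y2 := by rw [hY2]; positivity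
  have hq : 0 ≤ (Y2 + 1) * (2 * CX) := by positivity
  refine ⟨Y1 + (Y2 + 1) * (2 * CX) + 1, r0 + s + 1, by linarith,
    fun P P' Wd K b e w M' hP hP' hbK he0 heb hpre hw hM' => ?_⟩
  obtain ⟨C, hC⟩ : ∃ C : ℝ, C = Y1 + (Y2 + 1) * (2 * CX) + 1 := ⟨_, rfl⟩
  rw [← hC]
  obtain ⟨b', rfl⟩ : ∃ b', b = b' + 1 := ⟨b - 1, by omega⟩
  obtain ⟨k, hk⟩ : ∃ k, e = k + (s + 1) := ⟨e - (s + 1), by omega⟩
  have hUe : (0 : ℝ) < Ub e := Ub_pos e
  have hUe' : (0 : ℝ) < UU (2 ^ e) := hUe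
  have hUb : (0 : ℝ) < Ub (b' + 1) := Ub_pos (b' + 1)
  have hr0 : r0 ≤ 2 ^ e := by
    have h1 : r0 < 2 ^ r0 := Nat.lt_two_pow_self
    have h2 : (2 : ℕ) ^ r0 ≤ 2 ^ e := Nat.pow_le_pow_right (by norm_num) (by omega)
    omega
  have hst := step3g (Far6 (2 ^ e)) (P := P) (P' := P') (P0 := WL K) (Wd := Wd) (b := b') (η := η) (κ := κ0 * UU (2 ^ e))
    (E := ENNReal.ofReal (CU * UU (2 ^ e))) (w := w) (fun t ht => (hP ht).1)
    (fun A Z h1 _ _ => by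
      refine ⟨?_, fun i hi dir => ?_⟩
      · have := SA_take (hP h1).1 A.length
        rwa [List.take_left'] at this
        rfl
      · have := (hP h1).2 i (by rw [List.length_append]; omega) dir
        rwa [vx_append (by omega)] at this)
    hpre hη (by positivity) (fun A => hUA (2 ^ e) hr0 (2 ^ (b' + 1)) A) hw
  have hgl := hM3 P' M' hP' (b' + 1) k (2 ^ e) (by
      rw [hk, show k + (s + 1) = k + s + 1 by ring, pow_succ]
      have : 1 ≤ 2 ^ (k + s) := Nat.one_le_two_pow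
      omega) (by
      have h1 : (4 : ℕ) * 2 ^ e = 2 ^ (e + 2) := by ring
      rw [h1]
      exact Nat.pow_le_pow_right (by norm_num) (by omega)) (by
      refine (gf_mono ?_).trans hM'
      rintro t ⟨h1, L, hL, x, hx, rfl⟩
      refine ⟨h1, L, hL, x, fun i hi dir => (hx i hi dir).trans ?_, rfl⟩
      have h2 : (2 : ℕ) ^ (k + s) ≤ 2 ^ e := Nat.pow_le_pow_right (by norm_num) (by omega)
      exact_mod_cast h2)
  have hXb1 : Xb (b' + 1) ≤ ENNReal.ofReal CX * Xb b' := by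
    have := hX b' 1
    rwa [pow_one] at this
  have hXb2 : Xb (b' + 1) ≤ ENNReal.ofReal (CX ^ (b' + 1 - e + (s + 1))) * Xb k := by
    have := hX k (b' + 1 - e + (s + 1))
    rwa [show k + (b' + 1 - e + (s + 1)) = b' + 1 by omega] at this
  have hTb := hT K b' (by omega)
  -- the numbers
  have n1 : 4 / (η * Ub (b' + 1)) * (Ct * CX * (CU + 1)) ≤ C / Ub (b' + 1) := by
    have e1 : 4 / (η * Ub (b' + 1)) * (Ct * CX * (CU + 1)) = Y1 / Ub (b' + 1) := by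
      rw [hY1]
      field_simp
    rw [e1]
    gcongr
    rw [hC]
    linarith
  have n2 : Ub (b' + 1) / (κ0 * UU (2 ^ e)) * (CX ^ (b' + 1 - e + (s + 1)) * C0) ≤ C ^ (b' + 1 - e) := by
    obtain ⟨n, hn⟩ : ∃ n, b' + 1 = e + n := ⟨b' + 1 - e, by omega⟩
    have hn1 : 1 ≤ n := by omega
    have hsub : b' + 1 - e = n := by omega
    rw [hsub]
    have h1 : Ub (b' + 1) ≤ 2 ^ n * Ub e := by
      rw [hn]
      exact Ub_steps e n
    have h2 : Ub (b' + 1) / (κ0 * UU (2 ^ e)) ≤ 2 ^ n / κ0 := by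
      show Ub (b' + 1) / (κ0 * Ub e) ≤ _
      rw [div_le_div_iff₀ (by positivity) hκ0]
      nlinarith
    have h3 : 2 ^ n / κ0 * (CX ^ (n + (s + 1)) * C0) = Y2 * (2 * CX) ^ n := by
      rw [hY2, mul_pow, pow_add (a := CX)]
      ring
    have h4 : Y2 * (2 * CX) ^ n ≤ ((Y2 + 1) * (2 * CX)) ^ n := by
      rw [mul_pow (Y2 + 1)]
      have h5 : Y2 ≤ (Y2 + 1) ^ n := by
        calc Y2 ≤ (Y2 + 1) ^ 1 := by linarith
          _ ≤ (Y2 + 1) ^ n := pow_le_pow_right₀ (by linarith) hn1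
      exact mul_le_mul_of_nonneg_right h5 (by positivity)
    have h5 : ((Y2 + 1) * (2 * CX)) ^ n ≤ C ^ n := pow_le_pow_left₀ hq (by rw [hC]; linarith) _
    calc Ub (b' + 1) / (κ0 * UU (2 ^ e)) * (CX ^ (n + (s + 1)) * C0) ≤ 2 ^ n / κ0 * (CX ^ (n + (s + 1)) * C0) :=
          mul_le_mul_of_nonneg_right h2 (by positivity)
      _ ≤ _ := by
          rw [h3]
          linarith
  -- the exceptional part
  have hE : ENNReal.ofReal (CU * UU (2 ^ e)) + w ≤ ENNReal.ofReal (CU + 1) * (ENNReal.ofReal (Ub e) + w) := by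
    rw [mul_add]
    refine add_le_add ?_ ?_
    · rw [← ENNReal.ofReal_mul (by linarith)]
      refine ENNReal.ofReal_le_ofReal ?_
      show CU * Ub e ≤ (CU + 1) * Ub e
      nlinarith
    · calc w = 1 * w := (one_mul w).symm
        _ ≤ ENNReal.ofReal (CU + 1) * w := by
            refine mul_le_mul' ?_ le_rfl
            rw [← ENNReal.ofReal_one]
            exact ENNReal.ofReal_le_ofReal (by linarith)
  calc gf (P ∩ GT (b' + 1) η) * Xb (b' + 1)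
      ≤ (ENNReal.ofReal (4 / (η * Ub (b' + 1))) * (gf (WL K ∩ GT b' (η / 8)) * (ENNReal.ofReal (CU * UU (2 ^ e)) + w)) +
        ENNReal.ofReal (Ub (b' + 1) / (κ0 * UU (2 ^ e))) * gf (FT (Far6 (2 ^ e)) P' (b' + 1))) * Xb (b' + 1) :=
        mul_le_mul_left hst _
    _ = ENNReal.ofReal (4 / (η * Ub (b' + 1))) * (gf (WL K ∩ GT b' (η / 8)) * (ENNReal.ofReal (CU * UU (2 ^ e)) + w)) *
          Xb (b' + 1) +
        ENNReal.ofReal (Ub (b' + 1) / (κ0 * UU (2 ^ e))) * gf (FT (Far6 (2 ^ e)) P' (b' + 1)) * Xb (b' + 1) := add_mul _ _ _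
    _ ≤ ENNReal.ofReal (C / Ub (b' + 1)) * (ENNReal.ofReal (Ub e) + w) * (ENNReal.ofReal (Ub K) * Xb K ^ 2) +
        ENNReal.ofReal (C ^ (b' + 1 - e)) * M' := by
        refine add_le_add ?_ ?_
        · calc ENNReal.ofReal (4 / (η * Ub (b' + 1))) *
                (gf (WL K ∩ GT b' (η / 8)) * (ENNReal.ofReal (CU * UU (2 ^ e)) + w)) * Xb (b' + 1)
              ≤ ENNReal.ofReal (4 / (η * Ub (b' + 1))) *
                (gf (WL K ∩ GT b' (η / 8)) * (ENNReal.ofReal (CU + 1) * (ENNReal.ofReal (Ub e) + w))) *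
                (ENNReal.ofReal CX * Xb b') := by gcongr
            _ = ENNReal.ofReal (4 / (η * Ub (b' + 1))) * ENNReal.ofReal CX * ENNReal.ofReal (CU + 1) *
                (ENNReal.ofReal (Ub e) + w) * (gf (WL K ∩ GT b' (η / 8)) * Xb b') := by ring
            _ ≤ ENNReal.ofReal (4 / (η * Ub (b' + 1))) * ENNReal.ofReal CX * ENNReal.ofReal (CU + 1) *
                (ENNReal.ofReal (Ub e) + w) * (ENNReal.ofReal (Ct * Ub K) * Xb K ^ 2) := mul_le_mul_right hTb _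
            _ = ENNReal.ofReal (4 / (η * Ub (b' + 1)) * (Ct * CX * (CU + 1))) * (ENNReal.ofReal (Ub e) + w) *
                (ENNReal.ofReal (Ub K) * Xb K ^ 2) := by
                rw [ENNReal.ofReal_mul hCt.le,
                  show 4 / (η * Ub (b' + 1)) * (Ct * CX * (CU + 1)) = 4 / (η * Ub (b' + 1)) * CX * (CU + 1) * Ct by ring,
                  ENNReal.ofReal_mul (show 0 ≤ 4 / (η * Ub (b' + 1)) * CX * (CU + 1) by positivity),
                  ENNReal.ofReal_mul (show 0 ≤ 4 / (η * Ub (b' + 1)) * CX by positivity),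
                  ENNReal.ofReal_mul (show 0 ≤ 4 / (η * Ub (b' + 1)) by positivity)]
                ring
            _ ≤ _ := mul_le_mul_left (mul_le_mul_left (ENNReal.ofReal_le_ofReal n1) _) _
        · calc ENNReal.ofReal (Ub (b' + 1) / (κ0 * UU (2 ^ e))) * gf (FT (Far6 (2 ^ e)) P' (b' + 1)) * Xb (b' + 1)
              ≤ ENNReal.ofReal (Ub (b' + 1) / (κ0 * UU (2 ^ e))) * gf (FT (Far6 (2 ^ e)) P' (b' + 1)) *
                (ENNReal.ofReal (CX ^ (b' + 1 - e + (s + 1))) * Xb k) := mul_le_mul_right hXb2 _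
            _ = ENNReal.ofReal (Ub (b' + 1) / (κ0 * UU (2 ^ e))) * ENNReal.ofReal (CX ^ (b' + 1 - e + (s + 1))) *
                (gf (FT (Far6 (2 ^ e)) P' (b' + 1)) * Xb k) := by ring
            _ ≤ ENNReal.ofReal (Ub (b' + 1) / (κ0 * UU (2 ^ e))) * ENNReal.ofReal (CX ^ (b' + 1 - e + (s + 1))) *
                (ENNReal.ofReal C0 * M') := mul_le_mul_right hgl _
            _ = ENNReal.ofReal (Ub (b' + 1) / (κ0 * UU (2 ^ e)) * (CX ^ (b' + 1 - e + (s + 1)) * C0)) * M' := by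
                rw [ENNReal.ofReal_mul (by positivity), ENNReal.ofReal_mul (show 0 ≤ CX ^ (b' + 1 - e + (s + 1)) by positivity)]
                ring
            _ ≤ _ := mul_le_mul_left (ENNReal.ofReal_le_ofReal n2) _

/-- **tipx** -/
theorem tipx (η : ℝ) (hη : 0 < η) : ∃ (C : ℝ) (e0 : ℕ), 1 ≤ C ∧ ∀ (P P' Wd : Set (List Bool)) (K b e : ℕ) (w M' : ℝ≥0∞),
    P ⊆ WL K → P' ⊆ SA → b ≤ K → e0 ≤ e → e + 2 ≤ b →
    (∀ A Z, A ++ Z ∈ P → Z ∈ BU → hgt Z ≤ 2 ^ b → Z ∉ Wd → A ∈ P') →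
    (∀ Z1 Z2, Z1 ∈ BU → Z2 ∈ BU → Z1 ++ Z2 ∉ Wd → Z2 ∉ Wd) →
    gf {Z | Z ∈ BU ∧ hgt Z ≤ 2 ^ b ∧ Z ∈ Wd} ≤ w →
    gf {t | t ∈ SA ∧ ∃ L ∈ P', ∃ x, BX ((2 ^ e : ℕ) : ℤ) x ∧ t = L ++ x} ≤ M' →
    gf (P ∩ GT b η) * Xb b ≤ ENNReal.ofReal (C / Ub b) * (ENNReal.ofReal (Ub e) + w) * (ENNReal.ofReal (Ub K) * Xb K ^ 2) +
      ENNReal.ofReal (C ^ (b - e)) * M' := by
  obtain ⟨C, e0, hC, h⟩ := tipxg η hη
  refine ⟨C, e0, hC, fun P P' Wd K b e w M' h1 h2 h3 h4 h5 hpre hWd h6 h7 =>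
    h P P' Wd K b e w M' h1 h2 h3 h4 h5 (fun A Z1 Z2 a1 a2 a3 a4 a5 => ?_) h6 h7⟩
  refine hpre (A ++ Z1) Z2 (by rwa [List.append_assoc]) a3 ?_ (hWd Z1 Z2 a2 a3 a5)
  have := hgt_eq (Brd_append (BU_hgt a2) (BU_hgt a3))
  omega

end TIP

end HexObs
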