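import Pool.Agent.TIP.DefsS
import Pool.Agent.TIP.ClsB
import Pool.Agent.TIP.Frame

/-!
TIP, ExU: exactly n letters, the scale b up to the macroscopic scale (helper58).
-/

set_option autoImplicit false

namespace HexObs

namespace TIP

open Finset TS SDN HexObs.SIM NTA

open scoped ENNReal

/-- the last part of the word, from the vertex number i on, lies in a strip around a line through the tip (one of the three
axes) and leaves the ball of radius s around the tip -/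
def StE (w s : ℕ) (t : List Bool) : Prop := ∃ e ∈ dirs, ∃ i, i ≤ t.length ∧ vx oo up t i ∉ Bl (tipv t) s ∧
  ∀ j, i ≤ j → j ≤ t.length → |ip (vx oo up t j - tipv t) e| ≤ w

/-- **the strip event** (helper44) -/
def StripU : Prop := ∀ (ε : ℝ) (d : ℕ), 0 < ε → ∃ c0 k0 : ℕ, ∀ k n : ℕ, k0 ≤ k → Sc k n →
  TOG.Pn n {t | StE (2 ^ (k - c0)) (2 ^ (k - d)) t} ≤ ε

namespace NgU

/-- levels in the frame of the tip -/
lemma lv_fr (L : List Bool) (p : Pt) : lv (fr L p) = ip (p - tipv L) (tipd L) := by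
  rw [lv_ip]
  unfold fr
  have h1 : mulE (rotTo (tipd L) up) (tipd L) = up := rotTo_apply up (tipd_mem L)
  have h2 := nrm_rotTo (tipd_mem L) upd
  conv_lhs => rw [← h1]
  rw [h1]
  have h3 := ip_mulE (rotTo (tipd L) up) (p - tipv L) (tipd L)
  rw [h1, h2, one_mul] at h3
  exact h3

/-- levels in the frame of the tip, with a prefix -/
lemma lv_fr_app' (L A : List Bool) (i : ℕ) :
    lv (fr A (vx oo up A i)) = ip (vx oo up (L ++ A) (L.length + i) - tipv (L ++ A)) (tipd (L ++ A)) := by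
  rw [lv_fr, tipv_app, tipd_app, vx_general]
  have h1 : vx oo up L L.length + mulE (rotTo up (dx up L L.length)) (vx oo up A i) -
      (tipv L + mulE (rotTo up (tipd L)) (vx oo up A A.length)) = mulE (rotTo up (tipd L)) (vx oo up A i - tipv A) := by
    rw [mulE_sub]
    unfold tipv tipd
    abel
  have h2 := nrm_rotTo upd (tipd_mem L)
  rw [h1]
  have h3 : mulE (rotTo up (tipd L)) (dx up A A.length) = mulE (rotTo up (tipd L)) (tipd A) := rfl
  rw [h3, ip_mulE, h2, one_mul]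

lemma ip_le {e v : Pt} (he : e ∈ dirs) {B : ℤ} (h1 : |v.1| ≤ B) (h2 : |v.2| ≤ B) : |ip v e| ≤ 3 * B := by
  obtain ⟨x, y⟩ := v
  simp only [dirs, mem_insert, mem_singleton] at he
  unfold ip
  rw [abs_le] at *
  rcases he with rfl | rfl | rfl | rfl | rfl | rfl <;> simp only at * <;> constructor <;> omega

/-- **the cut near the start and the decompositions of the right part, class PB** -/
lemma cut_ofU {LL : Set (List Bool)} {ρ : List Bool → List Bool → Prop} {D D0 n1 N c K1 K b w : ℕ} {q : ℝ}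
    {t X0 H H2 X1 : List Bool} (hloc : LocR D ρ) (ht : t ∈ WL K1) (hK : K1 + 3 ≤ K) (he : t = X0 ++ (H ++ (H2 ++ X1)))
    (hH : H ∈ BU) (hH2 : H2 ∈ BU) (h1 : n1 ≤ hgt H) (h2 : n1 ≤ hgt H2) (h3 : hgt H ≤ 2 ^ N) (hc : RR c ≤ 3 * n1)
    (hLL : ∀ A1 B1, A1 ∈ BU → B1 ∈ BU → H = A1 ++ B1 → X0 ++ A1 ∈ LL)
    (hfar : ∀ i, i ≤ (X0 ++ (H ++ H2)).length → vx oo up t i ∉ Bl (tipv t) (4 * D))
    (hfar0 : vx oo up t (X0 ++ (H ++ H2)).length ∉ Bl (tipv t) D0)
    (hst : ¬ StE w D0 t) (hw : 3 * 2 ^ (b + 1) + 12 * D ≤ w) (hq : q ≤ (nD D ρ t : ℝ)) :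
    Cut1 LL {R | R ∈ BotS c K ∧ q ≤ (NgC.nS (fun A Y => (ρ A Y ∧ In D Y) ∧ A ∈ PB c K b) R : ℝ)} n1 (2 ^ N) t := by
  refine ⟨X0, H, H2 ++ X1, hgt H, he, BU_hgt hH, h1, h3, hLL, fun A1 B1 hA hB hAB => ?_⟩
  obtain ⟨R, hR⟩ : ∃ R, R = B1 ++ (H2 ++ X1) := ⟨_, rfl⟩
  obtain ⟨L0, hL0⟩ : ∃ L0, L0 = X0 ++ A1 := ⟨_, rfl⟩
  have htR : t = L0 ++ R := by
    rw [he, hL0, hR, hAB]
    simp only [List.append_assoc]
  have hlen : L0.length + (B1 ++ H2).length = (X0 ++ (H ++ H2)).length := by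
    rw [hL0, hAB]
    simp only [List.length_append]
    omega
  rw [← hR]
  have hRW : R ∈ WL K := by
    have h4 := NgC.drop_box ht (a := L0.length) (by rw [htR, List.length_append]; omega)
    rw [htR, List.drop_left' rfl] at h4
    exact ⟨h4.1, fun i hi dir => (h4.2 i hi dir).trans (pow_le_pow_right₀ (by norm_num) hK)⟩
  have hb := Brd_append (BU_hgt hB) (BU_hgt hH2)
  have hb' := mem_Brd.1 hb
  have e1 : R = (B1 ++ H2) ++ X1 := by rw [hR, List.append_assoc]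
  have hl : ∀ i, i ≤ (B1 ++ H2).length → lev R i = lev (B1 ++ H2) i := fun i hi => by
    rw [e1]
    exact lev_append (by omega)
  have hRa : RR c ≤ lev R (B1 ++ H2).length := by
    rw [hl _ le_rfl, hb'.2.2.2]
    have h5 : (n1 : ℤ) ≤ (hgt H2 : ℤ) := by exact_mod_cast h2
    have h6 : (0 : ℤ) ≤ (hgt B1 : ℤ) := Int.natCast_nonneg _
    push_cast
    linarith
  have hRp : ∀ i, 1 ≤ i → i ≤ (B1 ++ H2).length → 0 < lev R i := fun i hi hia => by
    rw [hl i hia]
    exact (hb'.1 i hi hia).1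
  refine ⟨⟨hRW, (B1 ++ H2).length, by rw [e1, List.length_append (as := B1 ++ H2)]; omega, hRa, hRp⟩, ?_⟩
  refine hq.trans ?_
  have hD : (0 : ℤ) ≤ D := Int.natCast_nonneg D
  have e3 : ((4 * D : ℕ) : ℤ) = 4 * (D : ℤ) := by push_cast; ring
  have key : {Y : List Bool | ∃ A, t = A ++ Y ∧ ρ A Y ∧ In D Y} ⊆
      {Y : List Bool | ∃ A, R = A ++ Y ∧ ((ρ A Y ∧ In D Y) ∧ A ∈ PB c K b)} := by
    rintro Y ⟨A, hAY, hρ, hIn⟩
    have hnear := NgC.tip_near (A := A) hIn
    rw [← hAY] at hnear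
    obtain ⟨n1, n2⟩ := hnear
    have hlt : (X0 ++ (H ++ H2)).length < A.length := by
      by_contra hlt
      refine hfar A.length (by omega) ?_
      have e2 : vx oo up t A.length = tipv A := by
        rw [hAY]
        exact vx_append (by omega)
      rw [e2]
      refine ⟨?_, ?_⟩
      · rw [abs_sub_comm, e3]
        linarith
      · rw [abs_sub_comm, e3]
        linarith
    obtain ⟨A', hA'⟩ : L0 <+: A := by
      refine List.prefix_of_prefix_length_le (l₃ := t) ?_ ?_ (by omega)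
      · rw [htR]
        exact List.prefix_append L0 R
      · rw [hAY]
        exact List.prefix_append A Y
    have hAl : A.length = L0.length + A'.length := by rw [← hA', List.length_append]
    have hRA : R = A' ++ Y := by
      have h7 : L0 ++ R = L0 ++ (A' ++ Y) := by
        rw [← htR, hAY, ← hA', List.append_assoc]
      exact List.append_cancel_left h7
    refine ⟨A', hRA, ⟨hloc L0 A' Y (fun i hi hmem => ?_) (by rw [hA']; exact hρ), hIn⟩, ?_⟩
    · rw [hA'] at hmem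
      refine hfar i (by omega) ?_
      have e2 : vx oo up t i = vx oo up A i := by
        rw [hAY]
        exact vx_append (by omega)
      rw [e2]
      obtain ⟨m1, m2⟩ := hmem
      rw [abs_le] at m1 m2 n1 n2
      refine ⟨?_, ?_⟩
      · rw [e3, abs_le]
        constructor <;> linarith [m1.1, m1.2, n1.1, n1.2]
      · rw [e3, abs_le]
        constructor <;> linarith [m2.1, m2.2, n2.1, n2.2]
    · have hA'W : A' ∈ WL K := by
        refine ⟨?_, fun i hi dir => ?_⟩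
        · have := SA_take hRW.1 A'.length
          rw [hRA, List.take_left' rfl] at this
          exact this
        · have := hRW.2 i (by rw [hRA, List.length_append]; omega) dir
          rwa [hRA, vx_append (by omega)] at this
      have hlA : ∀ i, i ≤ A'.length → lev A' i = lev R i := fun i hi => by
        rw [hRA]
        exact (lev_append (by omega)).symm
      have haA : (B1 ++ H2).length ≤ A'.length := by omega
      by_contra hnot
      have hband : ∀ i, (B1 ++ H2).length ≤ i → i ≤ A'.length →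
          lv (fr A' (vx oo up A' i)) ≤ 0 ∧ -(3 * 2 ^ (b + 1)) ≤ lv (fr A' (vx oo up A' i)) := by
        intro i hi1 hi2
        by_contra hc2
        refine hnot ⟨hA'W, (B1 ++ H2).length, i, hi1, hi2, by rw [hlA _ haA]; exact hRa, fun j h1 h2 => ?_, ?_⟩
        · rw [hlA j (by omega)]
          exact hRp j h1 h2
        · by_cases h8 : 0 < lv (fr A' (vx oo up A' i))
          · exact Or.inl h8
          · right
            by_contra h9
            exact hc2 ⟨not_lt.1 h8, not_lt.1 h9⟩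
      refine hst ⟨tipd A, tipd_mem A, (X0 ++ (H ++ H2)).length, ?_, hfar0, fun j hj1 hj2 => ?_⟩
      · have h18 : t.length = A.length + Y.length := by rw [hAY, List.length_append]
        omega
      have hwz : (3 * 2 ^ (b + 1) + 12 * D : ℤ) ≤ w := by exact_mod_cast hw
      have ht1 : |ip (tipv t - tipv A) (tipd A)| ≤ 3 * (2 * (D : ℤ)) := ip_le (tipd_mem A) n1 n2
      have hsp : ∀ p : Pt, ip (p - tipv t) (tipd A) = ip (p - tipv A) (tipd A) - ip (tipv t - tipv A) (tipd A) := by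
        intro p
        have : p - tipv A = (p - tipv t) + (tipv t - tipv A) := by abel
        rw [this, ip_add_left]
        ring
      rw [hsp, abs_le]
      rw [abs_le] at ht1
      have hp2 : (0 : ℤ) ≤ 2 ^ (b + 1) := by positivity
      rcases Nat.lt_or_ge A.length j with h10 | h10
      · obtain ⟨l, rfl⟩ : ∃ l, j = A.length + l := ⟨j - A.length, by omega⟩
        rw [hAY, List.length_append] at hj2
        have h11 : vx oo up t (A.length + l) - tipv A = mulE (rotTo up (tipd A)) (vx oo up Y l) := by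
          rw [hAY, vx_general]
          unfold tipv tipd
          abel
        have h12 := hIn l (by omega)
        obtain ⟨h13, h14⟩ := h12
        have z1 : (oo : Pt).1 = 0 := rfl
        have z2 : (oo : Pt).2 = 0 := rfl
        rw [z1, sub_zero] at h13
        rw [z2, sub_zero] at h14
        obtain ⟨h15, h16⟩ := NgC.coord_rot (frame_dir (tipd_mem A)).1 h13 h14
        have h17 := ip_le (tipd_mem A) h15 h16
        rw [h11]
        rw [abs_le] at h17
        constructor <;> linarith [h17.1, h17.2, ht1.1, ht1.2]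
      · obtain ⟨l, rfl⟩ : ∃ l, j = L0.length + l := ⟨j - L0.length, by omega⟩
        obtain ⟨h11, h12⟩ := hband l (by omega) (by omega)
        have h13 := lv_fr_app' L0 A' l
        rw [hA'] at h13
        have h14 : vx oo up t (L0.length + l) = vx oo up A (L0.length + l) := by
          rw [hAY]
          exact vx_append (by omega)
        rw [h14, ← h13]
        constructor <;> linarith [ht1.1, ht1.2]
  exact_mod_cast Set.ncard_le_ncard key (NgC.fin_dec _ R)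

lemma Pn_union (n : ℕ) (S T : Set (List Bool)) : TOG.Pn n (S ∪ T) ≤ TOG.Pn n S + TOG.Pn n T := by
  unfold TOG.Pn
  rw [← add_div]
  refine div_le_div_of_nonneg_right ?_ (Nat.cast_nonneg _)
  have h1 : {t | t ∈ SawN n ∧ t ∈ S ∪ T} = {t | t ∈ SawN n ∧ t ∈ S} ∪ {t | t ∈ SawN n ∧ t ∈ T} := by
    ext t
    simp only [Set.mem_union, Set.mem_ofPred_eq]
    tauto
  rw [h1]
  exact_mod_cast Set.ncard_union_le _ _

end NgU

open NgU NgA in
/-- **ExU** -/
theorem exU_of (hS : StrU) (hE : StripU) : ExU := by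
  intro η ε hη hε
  obtain ⟨c1, C1, k0, d, A, LB, hA, hLB, hstr⟩ := hS (ε / 2) (half_pos hε)
  obtain ⟨cs, ks, hstrip⟩ := hE (ε / 2) d (half_pos hε)
  obtain ⟨Ce, kt, hCe0, htip⟩ := tip_PB η hη (c1 + (C1 + 9))
  obtain ⟨Cc, hCc, hcore⟩ := NgC.core
  obtain ⟨Dx, hDx, hX⟩ := Xb_pow
  obtain ⟨cl, κ, k1, hcl, -, hbig⟩ := EN.factsX_M.big
  have hm : ∀ k, 0 < PW.mZ (2 ^ k) := fun k => PW.mZ_pos Nat.one_le_two_pow
  have hCc0 : 0 < Cc := by linarith
  have hDx0 : 0 < Dx := by linarith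
  obtain ⟨Z, hZ⟩ : ∃ Z : ℝ, Z = Cc * 2 ^ c1 * A * (Ce * 2 ^ (C1 + 9)) * Dx ^ (C1 + 9) := ⟨_, rfl⟩
  have hZ0 : 0 < Z := by rw [hZ]; positivity
  refine ⟨Z / cl, d + cs + 5, k0 + k1 + kt + c1 + ks + d + cs + 5, by positivity, fun k n b hk hsc hb => ?_⟩
  obtain ⟨hk1, hk2⟩ := hsc
  obtain ⟨B, hB, hstr⟩ := hstr k n (by omega) ⟨hk1, hk2⟩
  refine ⟨B ∪ {t | StE (2 ^ (k - cs)) (2 ^ (k - d)) t}, ?_, fun ρ x q D hD hloc hρ hx hq => ?_⟩
  · have h1 := hstrip k n (by omega) ⟨hk1, hk2⟩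
    have h2 := Pn_union n B {t | StE (2 ^ (k - cs)) (2 ^ (k - d)) t}
    linarith
  obtain ⟨c, hc⟩ : ∃ c, c = k - c1 := ⟨_, rfl⟩
  obtain ⟨K, hK⟩ : ∃ K, K = k + (C1 + 9) := ⟨_, rfl⟩
  obtain ⟨E, hE⟩ : ∃ E : Set (List Bool), E = {t | t ∈ SawN n ∧ t ∈ {t | t ∉ B ∪ {t | StE (2 ^ (k - cs)) (2 ^ (k - d)) t} ∧
    q ≤ (nD D ρ t : ℝ)}} := ⟨_, rfl⟩
  have hUk := TS.Ub_pos k
  have hmk := hm k
  -- numbers
  have hkc : (2 : ℕ) ^ (k - (d + cs + 5)) * 2 ^ (d + cs + 5) = 2 ^ k := by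
    rw [← pow_add]
    congr 1
    omega
  have hDp : D ≤ 2 ^ (k - (d + cs + 5)) := by
    by_contra hcon
    push Not at hcon
    have h1 : (2 : ℕ) ^ (k - (d + cs + 5)) * 2 ^ (d + cs + 5) < D * 2 ^ (d + cs + 5) :=
      Nat.mul_lt_mul_of_pos_right hcon (by positivity)
    omega
  have hw : 3 * 2 ^ (b + 1) + 12 * D ≤ 2 ^ (k - cs) := by
    have h1 : (2 : ℕ) ^ b ≤ 2 ^ (k - (d + cs + 5)) := Nat.pow_le_pow_right (by norm_num) (by omega)
    have h2 : (2 : ℕ) ^ (k - (d + cs + 5)) * 32 ≤ 2 ^ (k - cs) := by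
      calc (2 : ℕ) ^ (k - (d + cs + 5)) * 32 = 2 ^ (k - (d + cs + 5) + 5) := by rw [pow_add]; norm_num
        _ ≤ 2 ^ (k - cs) := Nat.pow_le_pow_right (by norm_num) (by omega)
    have h3 : (2 : ℕ) ^ (b + 1) = 2 * 2 ^ b := by rw [pow_succ]; ring
    rw [h3]
    omega
  have hDd : D * 2 ^ d ≤ 2 ^ k := by
    refine le_trans (Nat.mul_le_mul_left D (Nat.pow_le_pow_right (by norm_num) (by omega : d ≤ d + cs + 5))) hD
  have hkd : (2 : ℕ) ^ (k - d) * 2 ^ d ≤ 2 ^ k := by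
    rw [← pow_add]
    exact le_of_eq (congrArg _ (by omega))
  have h1 : gf E * ENNReal.ofReal q ≤ ENNReal.ofReal (Cc * (2 ^ k / ((2 ^ c : ℕ) * Ub k))) *
      ((ENNReal.ofReal (A * (Ub k / PW.mZ (2 ^ k))) * Xb k) * (gf (PB c K b ∩ GT b η) * x)) := by
    refine hcore (LB k) (BotS c K) (PB c K b ∩ GT b η) E (fun A Y => (ρ A Y ∧ In D Y) ∧ A ∈ PB c K b) (2 ^ c) k n _ x q
      Nat.one_le_two_pow (fun l => ?_) (fun R hR A Y hRA hσ => ?_) (fun A => (gf_mono fun Y hY => hY.1).trans (hx A))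
      fun t ht => ?_
    · refine le_trans (gf_mono fun L hL => ?_) (hLB k l (by omega))
      exact ⟨hL.2, hL.1⟩
    · exact ⟨hσ.2, hρ A Y hσ.1.1⟩
    · rw [hE] at ht
      obtain ⟨ht1, ht2, ht3⟩ := ht
      have ht2' : t ∉ B ∧ ¬ StE (2 ^ (k - cs)) (2 ^ (k - d)) t := ⟨fun h => ht2 (Or.inl h), fun h => ht2 (Or.inr h)⟩
      obtain ⟨hW, X0, H, H2, X1, e1, e2, e3, e4, e5, e6, e7, e8, e9⟩ := hstr t ht1 ht2'.1
      refine ⟨cut_ofU (K1 := k + C1) (D0 := 2 ^ (k - d)) hloc hW (by omega) e1 e2 e3 ?_ ?_ e6 ?_ e8 (e9 D hDd) ?_ ht2'.2 hw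
        ht3, ht1.1⟩
      · rw [hc]
        exact e4
      · rw [hc]
        exact e5
      · unfold RR
        push_cast
        linarith
      · intro hmem
        refine e9 (2 ^ (k - d)) hkd _ le_rfl ?_
        obtain ⟨m1, m2⟩ := hmem
        have e : ((4 * 2 ^ (k - d) : ℕ) : ℤ) = ((2 ^ (k - d) : ℕ) : ℤ) + 3 * ((2 ^ (k - d) : ℕ) : ℤ) := by push_cast; ring
        have hD0 : (0 : ℤ) ≤ ((2 ^ (k - d) : ℕ) : ℤ) := Int.natCast_nonneg _
        refine ⟨?_, ?_⟩
        · rw [e]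
          linarith
        · rw [e]
          linarith
  have h2 : gf (PB c K b ∩ GT b η) * Xb b ≤ ENNReal.ofReal (Ce * Ub K) * Xb K :=
    htip c K b (by omega) (by omega) (by omega) (by omega)
  have h3 : ENNReal.ofReal (Ce * Ub K) * Xb K ≤
      ENNReal.ofReal (Ce * (2 ^ (C1 + 9) * Ub k)) * (ENNReal.ofReal (Dx ^ (C1 + 9)) * Xb k) := by
    rw [hK]
    exact mul_le_mul' (ENNReal.ofReal_le_ofReal (mul_le_mul_of_nonneg_left (Ub_steps k (C1 + 9)) hCe0.le)) (hX k (C1 + 9))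
  have h4 : ENNReal.ofReal cl * (ENNReal.ofReal (Ub k / PW.mZ (2 ^ k)) * Xb k ^ 2) ≤ gf (SawN n) :=
    (hbig k n (by omega) hk1 hk2).trans (gf_mono fun t ht => ht.1)
  have hnum : Cc * (2 ^ k / ((2 ^ c : ℕ) * Ub k)) * (A * (Ub k / PW.mZ (2 ^ k))) * (Ce * (2 ^ (C1 + 9) * Ub k)) *
      Dx ^ (C1 + 9) = Z / cl * cl * (Ub k / PW.mZ (2 ^ k)) := by
    have h5 : (2 : ℝ) ^ k = 2 ^ c1 * ((2 ^ c : ℕ) : ℝ) := by
      push_cast
      rw [← pow_add]
      congr 1
      omega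
    have h6 : (0 : ℝ) < ((2 ^ c : ℕ) : ℝ) := by positivity
    rw [h5, hZ]
    field_simp
  have hmain : gf (SawN n) * (ENNReal.ofReal (TOG.Pn n {t | t ∉ B ∪ {t | StE (2 ^ (k - cs)) (2 ^ (k - d)) t} ∧
      q ≤ (nD D ρ t : ℝ)}) * (ENNReal.ofReal q * Xb b)) ≤ gf (SawN n) * (ENNReal.ofReal (Z / cl) * x) := by
    calc gf (SawN n) * (ENNReal.ofReal (TOG.Pn n {t | t ∉ B ∪ {t | StE (2 ^ (k - cs)) (2 ^ (k - d)) t} ∧
          q ≤ (nD D ρ t : ℝ)}) * (ENNReal.ofReal q * Xb b))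
        = gf E * ENNReal.ofReal q * Xb b := by
          rw [hE, ← Pn_mul]
          ring
      _ ≤ (ENNReal.ofReal (Cc * (2 ^ k / ((2 ^ c : ℕ) * Ub k))) *
            ((ENNReal.ofReal (A * (Ub k / PW.mZ (2 ^ k))) * Xb k) * (gf (PB c K b ∩ GT b η) * x))) * Xb b :=
          mul_le_mul' h1 le_rfl
      _ = ENNReal.ofReal (Cc * (2 ^ k / ((2 ^ c : ℕ) * Ub k))) * ((ENNReal.ofReal (A * (Ub k / PW.mZ (2 ^ k))) * Xb k) *
            (gf (PB c K b ∩ GT b η) * Xb b)) * x := by ring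
      _ ≤ ENNReal.ofReal (Cc * (2 ^ k / ((2 ^ c : ℕ) * Ub k))) * ((ENNReal.ofReal (A * (Ub k / PW.mZ (2 ^ k))) * Xb k) *
            (ENNReal.ofReal (Ce * (2 ^ (C1 + 9) * Ub k)) * (ENNReal.ofReal (Dx ^ (C1 + 9)) * Xb k))) * x := by
          refine mul_le_mul' (mul_le_mul' le_rfl (mul_le_mul' le_rfl (h2.trans h3))) le_rfl
      _ = ENNReal.ofReal (Z / cl) * (ENNReal.ofReal cl * (ENNReal.ofReal (Ub k / PW.mZ (2 ^ k)) * Xb k ^ 2)) * x := by
          have key : ENNReal.ofReal (Cc * (2 ^ k / ((2 ^ c : ℕ) * Ub k))) * ENNReal.ofReal (A * (Ub k / PW.mZ (2 ^ k))) *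
              ENNReal.ofReal (Ce * (2 ^ (C1 + 9) * Ub k)) * ENNReal.ofReal (Dx ^ (C1 + 9)) =
              ENNReal.ofReal (Z / cl) * ENNReal.ofReal cl * ENNReal.ofReal (Ub k / PW.mZ (2 ^ k)) := by
            rw [← ENNReal.ofReal_mul (by positivity), ← ENNReal.ofReal_mul (by positivity),
              ← ENNReal.ofReal_mul (by positivity), hnum,
              ENNReal.ofReal_mul (by positivity), ENNReal.ofReal_mul (by positivity)]
          calc _ = (ENNReal.ofReal (Cc * (2 ^ k / ((2 ^ c : ℕ) * Ub k))) * ENNReal.ofReal (A * (Ub k / PW.mZ (2 ^ k))) *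
                ENNReal.ofReal (Ce * (2 ^ (C1 + 9) * Ub k)) * ENNReal.ofReal (Dx ^ (C1 + 9))) * (Xb k ^ 2 * x) := by ring
            _ = _ := by
                rw [key]
                ring
      _ ≤ ENNReal.ofReal (Z / cl) * gf (SawN n) * x := mul_le_mul' (mul_le_mul' le_rfl h4) le_rfl
      _ = _ := by ring
  exact (ENNReal.mul_le_mul_iff_right (saw_ne n).1 (saw_ne n).2).1 hmain

end TIP

end HexObs
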