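import Pool.Agent.TIP.DefsU
import Pool.Agent.NTA.Quan
import Pool.Agent.NTA.TailEns

/-!
TIP (the tip lemma, doc nu34/NEXT_84, TIP_84L): definitions and literal statements, part M. The tip is the END.
-/

set_option autoImplicit false

namespace HexObs

namespace TIP

open Finset TS SDN NTW NTA SIM

open scoped ENNReal

/-- the tip sits on a bridge of height at least 2 ^ b -/
def OnB (b : ℕ) (A : List Bool) : Prop := ∃ A' B, A = A' ++ B ∧ B ∈ BU ∧ 2 ^ b ≤ hgt B

open Classical in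
/-- the cuts of L of the scale b, behind the tip -/
noncomputable def cs (b : ℕ) (L : List Bool) : Finset ℕ := (range (L.length + 1)).filter fun j =>
  L.drop j ∈ BU ∧ hgt (L.drop j) ≤ 2 ^ b ∧ OnB b (L.take j)

/-- good tips of the scale b -/
def GT (b : ℕ) (η : ℝ) : Set (List Bool) := {L | η * Ub b ≤ ((cs b L).card : ℝ)}

/-- admissible ensembles with the total mass M, up to the scale m -/
structure Ens (P : Set (List Bool)) (M : ℝ≥0∞) (m : ℕ) : Prop where
  sa : P ⊆ SA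
  pre : ∀ A Z, A ++ Z ∈ P → Z ∈ BU → hgt Z ≤ 2 ^ m → A ∈ P
  tot : gf P ≤ M
  glue : ∀ R : ℕ, R ≤ 2 ^ m → gf {t | t ∈ SA ∧ ∃ L ∈ P, ∃ e, BX R e ∧ t = L ++ e} ≤ M

open Classical in
/-- M1: rich cuts -/
def RichSt : Prop := ∀ (b : ℕ) (η : ℝ) (L : List Bool), 0 < η → L ∈ SA → L ∈ GT (b + 1) η → 8 ≤ η * Ub (b + 1) →
  (((cs (b + 1) L).filter fun j => L.take j ∉ GT b (η / 8)).card : ℝ) ≤ η / 2 * Ub (b + 1)

end TIP

end HexObs
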