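import Pool.Agent.SIM.RareW
import Pool.Agent.SIM.VCount
import Pool.Agent.SDN.Defs

/-!
TIP (the tip lemma, doc nu34/NEXT_84): definitions and literal statements, part U. Words reversed: the tip is the END.
-/

set_option autoImplicit false

namespace HexObs

namespace TIP

open Finset TS SDN SIM

open scoped ENNReal

/-- the tip = the last vertex -/
def tp (t : List Bool) : Pt := vx oo up t t.length

/-- box of radius r rows -/
def Bx (r : ℕ) (p : Pt) : Prop := ∀ dir, |lvl dir p| ≤ 3 * (r : ℤ) + 2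

/-- no vertex of A in the box of radius r around p -/
def Far (r : ℕ) (A : List Bool) (p : Pt) : Prop := ∀ i, i ≤ A.length → ¬ Bx r (vx oo up A i - p)

/-- the upper half box above the tip is free -/
def FrT (r : ℕ) (L : List Bool) : Prop := ∀ i, i ≤ L.length →
  ¬ (0 < ip (vx oo up L i - tp L) up ∧ Bx r (vx oo up L i - tp L))

open Classical in
/-- number of the free cuts of Z (Z attached to A) -/
noncomputable def fc (r : ℕ) (A Z : List Bool) : ℕ := ((range (Z.length + 1)).filter fun j =>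
  Z.take j ∈ BU ∧ Z.drop j ∈ BU ∧ Far r A (tp (A ++ Z.take j))).card

/-! ### U0: first passage bridges, antichains -/

/-- first passage bridges over the height R -/
def FP (R : ℕ) : Set (List Bool) := {W | W ∈ BU ∧ R ≤ hgt W ∧ ∀ X Y, X ∈ BU → Y ∈ BU → W = X ++ Y → Y ≠ [] → hgt X < R}

/-- no word of S is the beginning (up to a cut) of another one -/
def AC (S : Set (List Bool)) : Prop := ∀ W ∈ S, ∀ X ∈ S, ∀ Y ∈ BU, W = X ++ Y → Y = []

/-- the minimal words of S -/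
def Mi (S : Set (List Bool)) : Set (List Bool) := {W | W ∈ S ∧ ∀ X ∈ S, ∀ Y ∈ BU, W = X ++ Y → Y = []}

/-- the bridges that start with a word of S -/
def St1 (S : Set (List Bool)) : Set (List Bool) := {W | ∃ X ∈ S, ∃ Y ∈ BU, W = X ++ Y}

def FpDec : Prop := ∀ (R : ℕ) (Z : List Bool), Z ∈ BU → R ≤ hgt Z → ∃ W ∈ FP R, ∃ Y ∈ BU, Z = W ++ Y

def FpOne : Prop := ∀ R : ℕ, gf (FP R) = 1

def FpAC : Prop := ∀ (R : ℕ) (S : Set (List Bool)), S ⊆ BU → AC S → (∀ W ∈ S, hgt W ≤ R) → gf S ≤ gf (FP R ∩ St1 S)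

def MiMass : Prop := ∀ (R : ℕ) (S : Set (List Bool)), S ⊆ BU → (∀ W ∈ S, hgt W ≤ R) → gf S ≤ gf (Mi S) * ENNReal.ofReal (UU R)

def AcMul : Prop := ∀ (S : Set (List Bool)) (T : List Bool → Set (List Bool)) (c : ℝ≥0∞), S ⊆ BU → AC S →
  (∀ X ∈ S, T X ⊆ BU) → (∀ X ∈ S, c ≤ gf (T X)) → gf S * c ≤ gf {W | ∃ X ∈ S, ∃ Y ∈ T X, W = X ++ Y}

def AcAc : Prop := ∀ (S : Set (List Bool)) (T : List Bool → Set (List Bool)), S ⊆ BU → AC S →
  (∀ X ∈ S, T X ⊆ BU) → (∀ X ∈ S, AC (T X)) → AC {W | ∃ X ∈ S, ∃ Y ∈ T X, W = X ++ Y}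

/-! ### U1, U2, U3 -/

/-- the box in front of the cut -/
def Qb (r : ℕ) (p : Pt) : Prop := 3 * (r : ℤ) ≤ ip p up ∧ ip p up ≤ 21 * r ∧ |cross up p| ≤ 5 * r

/-- U1: every path that starts in the box in front of a cut and leaves its ball of radius r is hit -/
def HitSt : Prop := ∃ (c : ℝ) (C1 r0 : ℕ), 0 < c ∧ 1 ≤ C1 ∧ ∀ r, r0 ≤ r → ∀ (g : ℕ → Pt) (m : ℕ), Pth g m → Qb r (g 0) →
  (∃ k, k ≤ m ∧ g k ∉ Bl (g 0) r) →
  ENNReal.ofReal c ≤ gf {W | W ∈ FP (C1 * r) ∧ ∃ k, k ≤ m ∧ ∃ k', 1 ≤ k' ∧ k' ≤ W.length ∧ g k = vx oo up W k'}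

open Classical in
/-- the number of the cuts of W in the middle of the box in front of the cut -/
noncomputable def mc (r : ℕ) (W : List Bool) : ℕ := ((range (W.length + 1)).filter fun j =>
  W.take j ∈ BU ∧ W.drop j ∈ BU ∧ 9 * (r : ℤ) ≤ lev W j ∧ lev W j ≤ 15 * r ∧ |lat W j| ≤ r).card

/-- U2: many cuts in the middle of the box -/
def FreeSt : Prop := ∃ (c κ : ℝ) (C1 r0 : ℕ), 0 < c ∧ 0 < κ ∧ 1 ≤ C1 ∧ ∀ r, r0 ≤ r →
  ENNReal.ofReal c ≤ gf {W | W ∈ FP (C1 * r) ∧ κ * UU r ≤ (mc r W : ℝ)}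

/-- U3: UNIFORM AVOIDANCE -/
def UaSt : Prop := ∃ (C κ : ℝ) (r0 : ℕ), 0 < C ∧ 0 < κ ∧ ∀ r, r0 ≤ r → ∀ (H : ℕ) (A : List Bool), dx up A A.length = up →
  gf {Z | Z ∈ BU ∧ hgt Z ≤ H ∧ A ++ Z ∈ SA ∧ (fc r A Z : ℝ) < κ * UU r} ≤ ENNReal.ofReal (C * UU r)

end TIP

end HexObs
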