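import Pool.Agent.TOG.Lim
import Pool.Agent.TightN.SNum

/-!
# TIP, row N: from a bound for the words of a box to a bound for the words with exactly n letters (polynomial loss)
-/

set_option autoImplicit false

namespace HexObs.TIP

open Finset TS SDN
open scoped ENNReal
open Filter

theorem dir_le : ∀ d ∈ dirs, ∀ dir : Bool, |ip d (hd dir)| ≤ 2 := by decide

theorem lvl_le (t : List Bool) (dir : Bool) (i : ℕ) : |lvl dir (vx oo up t i)| ≤ 2 * i := by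
  induction i with
  | zero =>
    have h : vx oo up t 0 = oo := rfl
    rw [h]
    cases dir <;> decide
  | succ i ih =>
    have h1 : lvl dir (vx oo up t (i + 1)) = lvl dir (vx oo up t i) + ip (dx up t i) (hd dir) := by
      rw [vx_succ]
      unfold lvl ip
      simp only [Prod.fst_add, Prod.snd_add]
      ring
    have h2 := dir_le _ (dx_mem (by decide : up ∈ dirs) t i) dir
    rw [h1]
    push_cast
    calc |lvl dir (vx oo up t i) + ip (dx up t i) (hd dir)|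
        ≤ |lvl dir (vx oo up t i)| + |ip (dx up t i) (hd dir)| := abs_add_le _ _
      _ ≤ 2 * (i : ℤ) + 2 := add_le_add ih h2
      _ = 2 * ((i : ℤ) + 1) := by ring

/-- words with `n ≤ 2 ^ K` letters are in the box. -/
theorem SawN_WL {n K : ℕ} (h : n ≤ 2 ^ K) : SawN n ⊆ WL K := by
  intro t ht
  refine ⟨ht.2, fun i hi dir => ?_⟩
  have h1 := lvl_le t dir i
  rw [ht.1] at hi
  have h2 : (i : ℤ) ≤ 2 ^ K := by
    have : i ≤ 2 ^ K := hi.trans h
    exact_mod_cast this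
  rw [abs_le] at h1 ⊢
  unfold row
  constructor <;> omega

theorem Ub_le0 (K : ℕ) : Ub K ≤ 2 ^ K * Ub 0 := by
  induction K with
  | zero => simp
  | succ K ih =>
    calc Ub (K + 1) ≤ 2 * Ub K := Ub_succ K
      _ ≤ 2 * (2 ^ K * Ub 0) := by linarith [ih]
      _ = 2 ^ (K + 1) * Ub 0 := by ring

/-- the core. -/
theorem lzCore {S : ℕ → ℕ → Set (List Bool)} {X : ℕ → ℝ≥0∞} {D C' c : ℝ} {b0 J0 n0 : ℕ} (hX0 : X 0 ≠ ⊤) (hD : 1 ≤ D)
    (hX : ∀ j, X j ≤ ENNReal.ofReal (D ^ j) * X 0) (hC' : 1 ≤ C') (hc : 0 < c)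
    (h : ∀ b J n : ℕ, b0 ≤ b → J0 ≤ J → n0 ≤ n → gf {t | t ∈ WL (b + J) ∧ t ∈ S b n} ≤
      ENNReal.ofReal (C' ^ J * (2 : ℝ) ^ (-(c * n)) * Ub (b + J)) * X (b + J) ^ 2) :
    ∃ a b1 : ℕ, ∀ b, b1 ≤ b → ∀ e : ℝ, 0 < e → ∃ n1 : ℕ, ∀ n, n1 ≤ n → ∀ m : ℕ, (a : ℝ) * Real.log n ≤ m →
      TOG.Pn n (S b m) ≤ e := by
  have hx := xc_pos
  obtain ⟨K0, hK0⟩ := TOG.polyB
  obtain ⟨p, hp⟩ : ∃ p : ℕ, 2 * C' * D ^ 2 ≤ 2 ^ p := by
    obtain ⟨p, hp⟩ := pow_unbounded_of_one_lt (2 * C' * D ^ 2) (one_lt_two (α := ℝ))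
    exact ⟨p, hp.le⟩
  have hlog2 : 0 < Real.log 2 := Real.log_pos (by norm_num)
  obtain ⟨a, ha⟩ := exists_nat_ge ((p + K0 + 1) / (c * Real.log 2))
  have ha1 : 1 ≤ a := by
    have h1 : (0 : ℝ) < (p + K0 + 1) / (c * Real.log 2) := by positivity
    have h2 : (0 : ℝ) < a := lt_of_lt_of_le h1 ha
    have : 0 < a := by exact_mod_cast h2
    exact this
  rw [div_le_iff₀ (by positivity)] at ha
  obtain ⟨x0, hx00, hx0⟩ : ∃ x0 : ℝ, 0 ≤ x0 ∧ X 0 = ENNReal.ofReal x0 :=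
    ⟨(X 0).toReal, ENNReal.toReal_nonneg, (ENNReal.ofReal_toReal hX0).symm⟩
  have hU0 := Ub_pos 0
  refine ⟨a, b0, fun b hb e he => ?_⟩
  obtain ⟨n2, hn2⟩ := exists_nat_ge (Real.exp n0)
  obtain ⟨n3, hn3⟩ := exists_nat_ge (Ub 0 * x0 ^ 2 * 2 ^ p / e)
  refine ⟨max (max 2 (2 ^ (b + J0))) (max n2 n3), fun n hn m hm => ?_⟩
  have k1 : 2 ≤ n := (le_max_left _ _).trans ((le_max_left _ _).trans hn)
  have k2 : 2 ^ (b + J0) ≤ n := (le_max_right _ _).trans ((le_max_left _ _).trans hn)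
  have k3 : n2 ≤ n := (le_max_left _ _).trans ((le_max_right _ _).trans hn)
  have k4 : n3 ≤ n := (le_max_right _ _).trans ((le_max_right _ _).trans hn)
  have hn1 : (2 : ℝ) ≤ n := by exact_mod_cast k1
  have hn0 : (0 : ℝ) < n := by linarith
  have hlog : (n0 : ℝ) ≤ Real.log n := by
    rw [Real.le_log_iff_exp_le hn0]
    refine hn2.trans ?_
    exact_mod_cast k3
  have hlog0 : 0 ≤ Real.log n := Real.log_nonneg (by linarith)
  have hmn : n0 ≤ m := by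
    have h1 : (n0 : ℝ) ≤ m := by
      refine hlog.trans (le_trans ?_ hm)
      have : (1 : ℝ) ≤ a := by exact_mod_cast ha1
      nlinarith
    exact_mod_cast h1
  -- the box
  set K := Nat.log 2 n + 1 with hK
  have hKn : n ≤ 2 ^ K := (Nat.lt_pow_succ_log_self (by norm_num) n).le
  have hK2 : 2 ^ K ≤ 2 * n := by
    rw [hK, pow_succ, mul_comm]
    exact Nat.mul_le_mul_left 2 (Nat.pow_log_le_self 2 (by omega))
  have hKb : b + J0 ≤ K := by
    by_contra hcon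
    have h1 : K + 1 ≤ b + J0 := by omega
    have h2 : 2 ^ (K + 1) ≤ 2 ^ (b + J0) := Nat.pow_le_pow_right (by norm_num) h1
    have h3 : 2 ^ (K + 1) = 2 ^ K * 2 := pow_succ 2 K
    omega
  obtain ⟨J, hJ⟩ : ∃ J, K = b + J := ⟨K - b, by omega⟩
  have h1 := h b J m hb (by omega) hmn
  rw [← hJ] at h1
  have h2 : gf {t | t ∈ SawN n ∧ t ∈ S b m} ≤ ENNReal.ofReal (Ub 0 * x0 ^ 2 * (2 * n) ^ p * (2 : ℝ) ^ (-(c * m))) := by
    have h0 : {t | t ∈ SawN n ∧ t ∈ S b m} ⊆ {t | t ∈ WL K ∧ t ∈ S b m} := fun t ht => ⟨SawN_WL hKn ht.1, ht.2⟩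
    refine (gf_mono h0).trans (h1.trans ?_)
    have h3 : X K ≤ ENNReal.ofReal (D ^ K * x0) := by
      rw [ENNReal.ofReal_mul (by positivity), ← hx0]
      exact hX K
    refine (mul_le_mul_right (pow_le_pow_left' h3 2) _).trans ?_
    rw [← ENNReal.ofReal_pow (by positivity), ← ENNReal.ofReal_mul (by
      have := Ub_pos K
      positivity)]
    apply ENNReal.ofReal_le_ofReal
    have h4 : Ub K ≤ 2 ^ K * Ub 0 := Ub_le0 K
    have h5 : C' ^ J ≤ C' ^ K := pow_le_pow_right₀ hC' (by omega)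
    have h6 : (2 * C' * D ^ 2) ^ K ≤ (2 * n) ^ p := by
      calc (2 * C' * D ^ 2) ^ K ≤ (2 ^ p) ^ K := pow_le_pow_left₀ (by positivity) hp K
        _ = ((2 : ℝ) ^ K) ^ p := by rw [← pow_mul, ← pow_mul, mul_comm]
        _ ≤ (2 * n) ^ p := by
          apply pow_le_pow_left₀ (by positivity)
          exact_mod_cast hK2
    have hpos : (0 : ℝ) < (2 : ℝ) ^ (-(c * m)) := by positivity
    calc C' ^ J * (2 : ℝ) ^ (-(c * m)) * Ub K * (D ^ K * x0) ^ 2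
        ≤ C' ^ K * (2 : ℝ) ^ (-(c * m)) * (2 ^ K * Ub 0) * (D ^ K * x0) ^ 2 := by
          have := Ub_pos K
          gcongr
      _ = Ub 0 * x0 ^ 2 * (2 * C' * D ^ 2) ^ K * (2 : ℝ) ^ (-(c * m)) := by
          rw [mul_pow, mul_pow, mul_pow, ← pow_mul, ← pow_mul, mul_comm K 2]
          ring
      _ ≤ Ub 0 * x0 ^ 2 * (2 * n) ^ p * (2 : ℝ) ^ (-(c * m)) := by gcongr
  rw [TOG.gf_ncard (n := n) (fun t ht => ht.1), ENNReal.ofReal_le_ofReal_iff (by positivity)] at h2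
  -- the power of two
  have h7 : (2 : ℝ) ^ (-(c * m)) ≤ 1 / (n : ℝ) ^ (p + K0 + 1) := by
    rw [Real.rpow_def_of_pos (by norm_num), one_div, ← Real.exp_log (by positivity : 0 < (n : ℝ) ^ (p + K0 + 1)),
      ← Real.exp_neg, Real.log_pow]
    apply Real.exp_le_exp.2
    push_cast
    have h8 : ((p : ℝ) + K0 + 1) * Real.log n ≤ a * (c * Real.log 2) * Real.log n := by gcongr
    have h9 : a * (c * Real.log 2) * Real.log n = (a * Real.log n) * (c * Real.log 2) := by ring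
    have h10 : (a * Real.log n) * (c * Real.log 2) ≤ m * (c * Real.log 2) := by gcongr
    nlinarith
  have hlow := (hK0 n k1).1
  have hcS := TOG.cS_pos n
  unfold TOG.Pn
  have e1 : ({t | t ∈ SawN n ∧ t ∈ S b m}.ncard : ℝ) / cS n =
      ({t | t ∈ SawN n ∧ t ∈ S b m}.ncard * xc ^ n) / (cS n * xc ^ n) := by
    rw [mul_div_mul_right _ _ (pow_ne_zero _ hx.ne')]
  have hcS' : (0 : ℝ) < cS n := by exact_mod_cast hcS
  rw [e1, div_le_iff₀ (by positivity)]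
  calc ({t | t ∈ SawN n ∧ t ∈ S b m}.ncard : ℝ) * xc ^ n
      ≤ Ub 0 * x0 ^ 2 * (2 * n) ^ p * (2 : ℝ) ^ (-(c * m)) := h2
    _ ≤ Ub 0 * x0 ^ 2 * (2 * n) ^ p * (1 / (n : ℝ) ^ (p + K0 + 1)) := by gcongr
    _ = (Ub 0 * x0 ^ 2 * 2 ^ p / n) * (1 / (n : ℝ) ^ K0) := by
      rw [mul_pow, pow_add, pow_add, pow_one]
      field_simp
    _ ≤ e * (cS n * xc ^ n) := by
      apply mul_le_mul _ hlow (by positivity) he.le
      rw [div_le_iff₀ hn0]
      rw [div_le_iff₀ he] at hn3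
      have : (n3 : ℝ) ≤ n := by exact_mod_cast k4
      nlinarith

end HexObs.TIP
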