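import Pool.Agent.TIP.EnsW
import Pool.Agent.SIM.TopFd
import Pool.Agent.SIM.FirstL
import Pool.Agent.BAR.HCut

/-!
TIP, Ng (exactly n letters): the words of the box that are positive until they reach a macroscopic level, or until their
end, are an admissible ensemble for every fixed scale b (helper58).
-/

set_option autoImplicit false

namespace HexObs

namespace TIP

open Finset TS SDN SIM NTA

open scoped ENNReal

/-- words of the box that are positive until they reach the level RR c, or until their end -/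
def P0 (c K : ℕ) : Set (List Bool) :=
  {w | w ∈ WL K ∧ ∀ i, 1 ≤ i → i ≤ w.length → (∀ j, j ≤ i → lev w j < RR c) → 0 < lev w i}

namespace NgE

/-- half plane words that end at a low level -/
def Lo (ρ d : ℕ) : Set (List Bool) := {w | w ∈ SSt d ∧ lev w w.length ≤ 3 * ρ}

/-- **half plane words with a low end**: bridges in front of them, every word arises at most ρ + 1 times -/
lemma UU_Lo (ρ d : ℕ) : ENNReal.ofReal (UU d) * gf (Lo ρ d) ≤ ((ρ + 1 : ℕ) : ℝ≥0∞) * BAR.HH (2 * d) := by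
  classical
  rw [← BAR.sum_BT, Finset.sum_mul]
  obtain ⟨E, hE⟩ : ∃ E : ℕ → Set (List Bool), E = fun r => {w | ∃ c ∈ Brd r, ∃ s ∈ Lo ρ d, w = c ++ s} := ⟨_, rfl⟩
  have h1 : ∀ r, BT r * gf (Lo ρ d) ≤ gf (E r) := by
    intro r
    rw [← gf_Brd, hE]
    refine mul_le_gf (fun a ha b hb => ⟨a, ha, b, hb, rfl⟩) ?_
    intro a ha b hb a' ha' b' hb' h
    obtain ⟨v, hv, h2, h3⟩ := BAR.nested ha ha' (BAR.pos_SSt hb.1) (BAR.pos_SSt hb'.1) le_rfl h
    rw [Nat.sub_self, Brd_zero] at hv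
    have h4 : v = [] := hv
    rw [h2, h4, List.append_nil]
  have hlev : ∀ r w, w ∈ E r → 3 * (r : ℤ) ≤ lev w w.length ∧ lev w w.length ≤ 3 * r + 3 * ρ := by
    intro r w hw
    rw [hE] at hw
    obtain ⟨c, hc, s, hs, rfl⟩ := hw
    have hc' := mem_Brd.1 hc
    rw [List.length_append, lev_cat hc'.2.2.1, hc'.2.2.2]
    have h2 := hs.2
    have h3 : 0 ≤ lev s s.length := by
      rcases Nat.eq_zero_or_pos s.length with h0 | h0
      · rw [h0, lev_zero]
      · exact (BAR.pos_SSt hs.1 s.length h0 le_rfl).le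
    constructor <;> linarith
  have hsub : ∀ r, r ≤ d → E r ⊆ SSt (2 * d) := by
    intro r hr w hw
    rw [hE] at hw
    obtain ⟨c, hc, s, hs, rfl⟩ := hw
    exact BAR.SSt_mono (by omega) (BAR.SSt_cat hc hs.1)
  calc ∑ r ∈ range (d + 1), BT r * gf (Lo ρ d) ≤ ∑ r ∈ range (d + 1), gf (E r) := Finset.sum_le_sum fun r _ => h1 r
    _ = ∑ c ∈ range (ρ + 1), ∑ r ∈ (range (d + 1)).filter (fun r => r % (ρ + 1) = c), gf (E r) := by
        rw [Finset.sum_fiberwise_of_maps_to]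
        intro r _
        exact mem_range.2 (Nat.mod_lt _ (Nat.succ_pos _))
    _ ≤ ∑ c ∈ range (ρ + 1), BAR.HH (2 * d) := by
        refine Finset.sum_le_sum fun c _ => ?_
        have e1 : ∀ r ∈ (range (d + 1)).filter (fun r => r % (ρ + 1) = c),
            gf (E r) = gf ({w | w ∈ E r ∧ r % (ρ + 1) = c}) := by
          intro r hr
          congr 1
          ext w
          exact ⟨fun h => ⟨h, (mem_filter.1 hr).2⟩, fun h => h.1⟩
        rw [Finset.sum_congr rfl e1]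
        refine (BAR.gf_bi_eq _ (fun r => {w | w ∈ E r ∧ r % (ρ + 1) = c}) ?_).trans (gf_mono ?_)
        · rintro i j w ⟨hi, hi'⟩ ⟨hj, hj'⟩
          have h2 := hlev i w hi
          have h3 := hlev j w hj
          have h4 : (i : ℤ) ≤ j + ρ := by linarith
          have h5 : (j : ℤ) ≤ i + ρ := by linarith
          have h6 : i ≤ j + ρ := by exact_mod_cast h4
          have h7 : j ≤ i + ρ := by exact_mod_cast h5
          have h8 := Nat.div_add_mod i (ρ + 1)
          have h9 := Nat.div_add_mod j (ρ + 1)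
          rw [hi'] at h8
          rw [hj'] at h9
          have h10 : i / (ρ + 1) = j / (ρ + 1) := by
            rcases Nat.lt_trichotomy (i / (ρ + 1)) (j / (ρ + 1)) with h | h | h
            · exfalso
              have : (ρ + 1) * (i / (ρ + 1)) + (ρ + 1) ≤ (ρ + 1) * (j / (ρ + 1)) := by
                rw [← Nat.mul_succ]
                exact Nat.mul_le_mul_left _ h
              omega
            · exact h
            · exfalso
              have : (ρ + 1) * (j / (ρ + 1)) + (ρ + 1) ≤ (ρ + 1) * (i / (ρ + 1)) := by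
                rw [← Nat.mul_succ]
                exact Nat.mul_le_mul_left _ h
              omega
          rw [h10] at h8
          omega
        · intro w hw
          rw [Set.mem_iUnion₂] at hw
          obtain ⟨r, hr, hw, -⟩ := hw
          have := mem_range.1 (mem_filter.1 hr).1
          exact hsub r (by omega) hw
    _ = _ := by rw [sum_const, card_range, nsmul_eq_mul]

/-- positive words of the box -/
lemma WL_SSt {K : ℕ} {t : List Bool} (ht : t ∈ WL K) (hp : BAR.Pos t) : t ∈ SSt (2 ^ (K + 1)) := by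
  refine ⟨fun i h1 h2 => mem_St.2 ⟨hp i h1 h2, ?_⟩, ht.1.inj⟩
  have h3 := ht.2 i h2 false
  have h4 : row false (vx oo up t i) = lev t i / 3 := rfl
  rw [h4, abs_le] at h3
  have h5 : ((2 ^ (K + 1) : ℕ) : ℤ) = 2 * 2 ^ K := by
    push_cast
    ring
  have h6 : (1 : ℤ) ≤ 2 ^ K := one_le_pow₀ (by norm_num)
  rw [h5]
  omega

lemma RR_pos (c : ℕ) : 0 < RR c := by
  unfold RR
  have : (1 : ℤ) ≤ 2 ^ c := one_le_pow₀ (by norm_num)
  linarith

/-- the two kinds of words of P0 -/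
lemma P0_cases {c K : ℕ} {w : List Bool} (hw : w ∈ P0 c K) :
    (∃ a ≤ w.length, RR c ≤ lev w a ∧ ∀ i, 1 ≤ i → i ≤ a → 0 < lev w i) ∨ BAR.Pos w := by
  classical
  by_cases h : ∃ a, a ≤ w.length ∧ RR c ≤ lev w a
  · left
    obtain ⟨h1, h2⟩ := Nat.find_spec h
    refine ⟨Nat.find h, h1, h2, fun i hi hia => ?_⟩
    rcases Nat.lt_or_ge i (Nat.find h) with h3 | h3
    · refine hw.2 i hi (by omega) fun j hj => ?_
      by_contra h4
      exact Nat.find_min h (by omega : j < Nat.find h) ⟨by omega, not_lt.1 h4⟩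
    · have h4 : i = Nat.find h := by omega
      rw [h4]
      exact (RR_pos c).trans_le h2
  · right
    intro i hi hil
    refine hw.2 i hi hil fun j hj => ?_
    by_contra h4
    exact h ⟨j, by omega, not_lt.1 h4⟩

lemma P0_pre {c K : ℕ} {A Z : List Bool} (h : A ++ Z ∈ P0 c K) : A ∈ P0 c K := by
  have hl : ∀ i, i ≤ A.length → lev (A ++ Z) i = lev A i := fun i hi => lev_append (by omega)
  refine ⟨⟨?_, fun i hi dir => ?_⟩, fun i h1 h2 h3 => ?_⟩
  · have := SA_take h.1.1 A.length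
    rwa [List.take_left'] at this
    rfl
  · have := h.1.2 i (by rw [List.length_append]; omega) dir
    rwa [vx_append (by omega)] at this
  · rw [← hl i h2]
    refine h.2 i h1 (by rw [List.length_append]; omega) fun j hj => ?_
    rw [hl j (by omega)]
    exact h3 j hj

/-- a word that starts with a leaf that goes up by RR c -/
lemma P0_of_BotS {c K : ℕ} {w : List Bool} (h : w ∈ BotS c K) : w ∈ P0 c K := by
  obtain ⟨h1, a, ha, h2, h3⟩ := h
  refine ⟨h1, fun i hi hil hj => ?_⟩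
  by_contra hn
  rcases Nat.lt_or_ge a i with h4 | h4
  · have := hj a h4.le
    omega
  · exact hn (h3 i hi h4)

/-- the glued words -/
lemma glue_sub {c K b R : ℕ} (hb : b ≤ K) (hR : R ≤ 2 ^ b) :
    {t | t ∈ SA ∧ ∃ L ∈ P0 c K, ∃ e, BX R e ∧ t = L ++ e} ⊆
      BotS c (K + 3) ∪ (SSt (2 ^ (K + 4)) ∪
        {t | ∃ L ∈ Lo (2 * 2 ^ b + 2) (2 ^ (K + 1)), ∃ e ∈ WL b, t = L ++ e}) := by
  rintro t ⟨ht, L, hL, e, he, rfl⟩
  have hbK : 2 ^ b ≤ 2 ^ K := Nat.pow_le_pow_right (by norm_num) hb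
  have hW : L ++ e ∈ WL (K + 3) := EnsW.glue_WL (hR.trans hbK) hL.1 he ht
  have hl : ∀ i, i ≤ L.length → lev (L ++ e) i = lev L i := fun i hi => lev_append (by omega)
  rcases P0_cases hL with ⟨a, ha, h1, h2⟩ | hpos
  · left
    refine ⟨hW, a, by rw [List.length_append]; omega, by rw [hl a ha]; exact h1, fun i hi hia => ?_⟩
    rw [hl i (by omega)]
    exact h2 i hi hia
  · right
    by_cases hp : BAR.Pos (L ++ e)
    · left
      exact WL_SSt hW hp
    · right
      unfold BAR.Pos at hp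
      push Not at hp
      obtain ⟨i, hi, hil, hneg⟩ := hp
      have hgt : L.length < i := by
        by_contra h3
        have := hpos i hi (by omega)
        rw [hl i (by omega)] at hneg
        omega
      obtain ⟨j, rfl⟩ : ∃ j, i = L.length + j := ⟨i - L.length, by omega⟩
      rw [List.length_append] at hil
      have heS : e ∈ SA := by
        have := SA_drop ht L.length
        rwa [List.drop_left' rfl] at this
      refine ⟨L, ⟨WL_SSt hL.1 hpos, ?_⟩, e, ⟨heS, fun i hi dir => (he i hi dir).trans ?_⟩, rfl⟩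
      · have h3 : lev (L ++ e) (L.length + j) = lev L L.length +
            lvl false (mulE (rotTo up (dx up L L.length)) (vx oo up e j)) := by
          unfold lev
          rw [vx_general, ip_add_left]
          rfl
        have h4 := EnsW.row_rot (frame_dir (dx_mem up_dirs L L.length)).1 (fun dir => he j (by omega) dir) false
        unfold row at h4
        rw [abs_le] at h4
        have hR' : (R : ℤ) ≤ 2 ^ b := by exact_mod_cast hR
        push_cast
        rw [h3] at hneg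
        omega
      · exact_mod_cast hR

end NgE

open NgE

/-- **the words that are positive until a macroscopic level are an admissible ensemble, for every fixed scale b** -/
theorem ens_P0 (J : ℕ) (hJ : 6 ≤ J) : ∃ (C : ℝ) (c0 : ℕ), 1 ≤ C ∧ ∀ b : ℕ, ∃ K0 : ℕ, ∀ c : ℕ, c0 ≤ c → K0 ≤ c →
    Ens (P0 c (c + J)) (ENNReal.ofReal (C * Ub (c + J)) * Xb (c + J)) b := by
  obtain ⟨C1, k0, hC1, hF⟩ := half_first
  obtain ⟨D, hD, hX⟩ := Xb_pow
  obtain ⟨B, hB⟩ := Ub_big
  obtain ⟨a1, ha1⟩ : ∃ a : ℝ, a = C1 ^ (J + 8) * 8 * D ^ 3 := ⟨_, rfl⟩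
  obtain ⟨a2, ha2⟩ : ∃ a : ℝ, a = 16 * D ^ 4 := ⟨_, rfl⟩
  have hC10 : 0 < C1 := by linarith
  have hD0 : 0 < D := by linarith
  have ha10 : 0 ≤ a1 := by rw [ha1]; positivity
  have ha20 : 0 ≤ a2 := by rw [ha2]; positivity
  refine ⟨a1 + a2 + 1, k0 + 5, by linarith, fun b => ?_⟩
  obtain ⟨g, hg0, hg⟩ : ∃ g : ℝ, 0 ≤ g ∧ gf (WL b) = ENNReal.ofReal g := by
    have : gf (WL b) ≠ ⊤ := by
      obtain ⟨C, hC, h⟩ := tot_WL
      refine ne_top_of_le_ne_top ?_ (h b)
      exact ENNReal.mul_ne_top ENNReal.ofReal_ne_top (ENNReal.mul_ne_top ENNReal.ofReal_ne_top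
        (ENNReal.pow_ne_top (Xb_ne_top b)))
    exact ⟨(gf (WL b)).toReal, ENNReal.toReal_nonneg, (ENNReal.ofReal_toReal this).symm⟩
  obtain ⟨n, hn⟩ : ∃ n : ℕ, ((2 * 2 ^ b + 2 + 1 : ℕ) : ℝ) * (2 * D ^ 2) * g ≤ (8 : ℝ) ^ n := by
    obtain ⟨n, hn⟩ := pow_unbounded_of_one_lt (((2 * 2 ^ b + 2 + 1 : ℕ) : ℝ) * (2 * D ^ 2) * g)
      (show (1 : ℝ) < 8 by norm_num)
    exact ⟨n, hn.le⟩
  refine ⟨B * n + b, fun c hc0 hcK => ?_⟩
  obtain ⟨K, hK⟩ : ∃ K, K = c + J := ⟨_, rfl⟩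
  rw [← hK]
  have hUK := TS.Ub_pos K
  have hbig : ((2 * 2 ^ b + 2 + 1 : ℕ) : ℝ) * (2 * D ^ 2) * g ≤ Ub K := hn.trans (hB K n (by omega))
  have hXi : ∀ i, Xb (K + i) ≤ ENNReal.ofReal (D ^ i) * Xb K := fun i => hX K i
  have hUi : ∀ i, Ub (K + i) ≤ 2 ^ i * Ub K := fun i => Ub_steps K i
  have hUXi : ∀ (x : ℝ) (i : ℕ), 0 ≤ x → ENNReal.ofReal (x * Ub (K + i)) * Xb (K + i) ≤
      ENNReal.ofReal (x * (2 ^ i * D ^ i) * Ub K) * Xb K := by
    intro x i hx
    calc ENNReal.ofReal (x * Ub (K + i)) * Xb (K + i)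
        ≤ ENNReal.ofReal (x * (2 ^ i * Ub K)) * (ENNReal.ofReal (D ^ i) * Xb K) :=
          mul_le_mul' (ENNReal.ofReal_le_ofReal (mul_le_mul_of_nonneg_left (hUi i) hx)) (hXi i)
      _ = _ := by
          rw [← mul_assoc, ← ENNReal.ofReal_mul (by positivity)]
          congr 2
          ring
  -- the three parts
  have m1 : gf (BotS c (K + 3)) ≤ ENNReal.ofReal (a1 * Ub K) * Xb K := by
    have h1 := hF (c - 5) (J + 8) (by omega) (by omega)
    rw [show c - 5 + 5 = c by omega, show c - 5 + (J + 8) = K + 3 by omega] at h1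
    refine (gf_mono (botS_sub (by omega))).trans (h1.trans ((hUXi _ 3 (by positivity)).trans (le_of_eq ?_)))
    congr 3
    rw [ha1]
    ring
  have m2 : gf (SSt (2 ^ (K + 4))) ≤ ENNReal.ofReal (a2 * Ub K) * Xb K := by
    have h1 : BAR.HH (2 ^ (K + 4)) ≤ ENNReal.ofReal (1 * Ub (K + 4)) * Xb (K + 4) := by
      rw [one_mul]
      exact HH_le_Xb le_rfl
    refine h1.trans ((hUXi 1 4 zero_le_one).trans (le_of_eq ?_))
    congr 3
    rw [ha2]
    ring
  have m3 : gf {t | ∃ L ∈ Lo (2 * 2 ^ b + 2) (2 ^ (K + 1)), ∃ e ∈ WL b, t = L ++ e} ≤ ENNReal.ofReal (1 * Ub K) * Xb K := by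
    have h1 := UU_Lo (2 * 2 ^ b + 2) (2 ^ (K + 1))
    rw [show 2 * 2 ^ (K + 1) = 2 ^ (K + 1 + 1) from (pow_succ' 2 (K + 1)).symm] at h1
    have h2 : BAR.HH (2 ^ (K + 1 + 1)) ≤ ENNReal.ofReal (Ub (K + 1 + 1)) * Xb (K + 1 + 1) := HH_le_Xb le_rfl
    have hU1 := TS.Ub_pos (K + 1)
    have h3 : Ub (K + 1 + 1) ≤ 2 * Ub (K + 1) := Ub_succ (K + 1)
    have h4 : ENNReal.ofReal (Ub (K + 1)) * gf (Lo (2 * 2 ^ b + 2) (2 ^ (K + 1))) ≤
        ENNReal.ofReal (Ub (K + 1)) * (ENNReal.ofReal (((2 * 2 ^ b + 2 + 1 : ℕ) : ℝ) * (2 * D ^ 2)) * Xb K) := by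
      calc ENNReal.ofReal (Ub (K + 1)) * gf (Lo (2 * 2 ^ b + 2) (2 ^ (K + 1)))
          ≤ ((2 * 2 ^ b + 2 + 1 : ℕ) : ℝ≥0∞) * (ENNReal.ofReal (2 * Ub (K + 1)) * (ENNReal.ofReal (D ^ 2) * Xb K)) :=
            h1.trans (mul_le_mul' le_rfl (h2.trans (mul_le_mul' (ENNReal.ofReal_le_ofReal h3) (hXi 2))))
        _ = _ := by
            rw [← ENNReal.ofReal_natCast, ENNReal.ofReal_mul (by norm_num), ENNReal.ofReal_mul (by positivity),
              ENNReal.ofReal_mul (by norm_num)]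
            ring
    have h5 : gf (Lo (2 * 2 ^ b + 2) (2 ^ (K + 1))) ≤
        ENNReal.ofReal (((2 * 2 ^ b + 2 + 1 : ℕ) : ℝ) * (2 * D ^ 2)) * Xb K := by
      have h6 : ENNReal.ofReal (Ub (K + 1)) ≠ 0 := by simpa using hU1
      exact (ENNReal.mul_le_mul_iff_right h6 ENNReal.ofReal_ne_top).1 h4
    calc gf {t | ∃ L ∈ Lo (2 * 2 ^ b + 2) (2 ^ (K + 1)), ∃ e ∈ WL b, t = L ++ e}
        ≤ gf (Lo (2 * 2 ^ b + 2) (2 ^ (K + 1))) * gf (WL b) := gf_le_mul fun t ht => ht
      _ ≤ (ENNReal.ofReal (((2 * 2 ^ b + 2 + 1 : ℕ) : ℝ) * (2 * D ^ 2)) * Xb K) * ENNReal.ofReal g :=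
          mul_le_mul' h5 hg.le
      _ = ENNReal.ofReal (((2 * 2 ^ b + 2 + 1 : ℕ) : ℝ) * (2 * D ^ 2) * g) * Xb K := by
          rw [ENNReal.ofReal_mul (p := ((2 * 2 ^ b + 2 + 1 : ℕ) : ℝ) * (2 * D ^ 2)) (by positivity)]
          ring
      _ ≤ _ := by
          rw [one_mul]
          exact mul_le_mul' (ENNReal.ofReal_le_ofReal hbig) le_rfl
  have msum : ENNReal.ofReal (a1 * Ub K) * Xb K + (ENNReal.ofReal (a2 * Ub K) * Xb K + ENNReal.ofReal (1 * Ub K) * Xb K) =
      ENNReal.ofReal ((a1 + a2 + 1) * Ub K) * Xb K := by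
    rw [← add_mul, ← add_mul, ← ENNReal.ofReal_add (by positivity) (by positivity),
      ← ENNReal.ofReal_add (by positivity) (by positivity)]
    congr 2
    ring
  refine ⟨fun w hw => hw.1.1, fun A Z h _ _ => P0_pre h, ?_, fun R hR => ?_⟩
  · rw [← msum]
    have hsub : P0 c K ⊆ BotS c (K + 3) ∪ (SSt (2 ^ (K + 4)) ∪
        {t | ∃ L ∈ Lo (2 * 2 ^ b + 2) (2 ^ (K + 1)), ∃ e ∈ WL b, t = L ++ e}) := by
      intro w hw
      have hW : w ∈ WL (K + 3) := ⟨hw.1.1, fun i hi dir => (hw.1.2 i hi dir).trans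
        (pow_le_pow_right₀ (by norm_num) (by omega))⟩
      rcases P0_cases hw with ⟨a, ha, h1, h2⟩ | hpos
      · exact Or.inl ⟨hW, a, ha, h1, h2⟩
      · exact Or.inr (Or.inl (WL_SSt hW hpos))
    exact (gf_mono hsub).trans ((gf_union_le _ _).trans (add_le_add m1 ((gf_union_le _ _).trans (add_le_add m2 m3))))
  · rw [← msum]
    exact (gf_mono (glue_sub (by omega) hR)).trans
      ((gf_union_le _ _).trans (add_le_add m1 ((gf_union_le _ _).trans (add_le_add m2 m3))))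

end TIP

end HexObs
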