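import Pool.Agent.TIP.M3
import Pool.Agent.TIP.UaZ

/-!
TIP: the tip lemma, no hypothesis.
-/

set_option autoImplicit false

namespace HexObs

namespace TIP

/-- **the tip lemma**: for every admissible ensemble with the total mass M up to the scale m, the words with at least
η U(b) cuts of the scale b behind the tip have mass at most C(η) M / X(b) -/
theorem tipSt : TipSt := tip_of uah6 m3h

end TIP

end HexObs
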