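import Pool.Agent.TIP.Defs
import Pool.Agent.TIP.Ua6

/-!
TIP, U3 (helper41): helper69's literal UA from the form with the hexagonal box.
-/

set_option autoImplicit false

namespace HexObs

namespace TIP

open Finset TS SDN SIM

open scoped ENNReal

namespace UaA

lemma Bl_Bx6 {r : ℕ} {p v : Pt} (h : p ∈ Bl v r) : Bx6 r (p - v) := by
  rw [mem_Bl] at h
  intro d hd
  have h1 : d = (1, 0) ∨ d = (0, 1) ∨ d = (-1, 1) ∨ d = (-1, 0) ∨ d = (0, -1) ∨ d = (1, -1) := by
    simpa [dirs] using hd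
  rw [abs_le]
  rcases h1 with rfl | rfl | rfl | rfl | rfl | rfl <;> simp only [ip, Prod.fst_sub, Prod.snd_sub] <;> omega

lemma Far6_Fre {r : ℕ} {A Z1 : List Bool} (h : Far6 r A Z1) : Fre r A Z1 := fun i hi hB => h i hi (Bl_Bx6 hB)

lemma fc6_le (r : ℕ) (A Z : List Bool) : fc6 r A Z ≤ freeN r A Z := by
  classical
  unfold fc6 freeN
  obtain ⟨F, hF⟩ : ∃ F : Finset ℕ, F = (range (Z.length + 1)).filter fun j =>
    Z.take j ∈ BU ∧ Z.drop j ∈ BU ∧ Far6 r A (Z.take j) := ⟨_, rfl⟩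
  have h1 : (F.image fun j => Z.drop j).card = F.card := by
    refine card_image_of_injOn ?_
    intro a ha b hb hab
    rw [hF, mem_coe, mem_filter, mem_range] at ha hb
    have := congrArg List.length hab
    simp only [List.length_drop] at this
    omega
  have h2 : ((F.image fun j => Z.drop j : Finset (List Bool)) : Set (List Bool)) ⊆ freeS r A Z := by
    intro Z2 h
    rw [mem_coe, mem_image] at h
    obtain ⟨j, hj, rfl⟩ := h
    rw [hF, mem_filter] at hj
    exact ⟨hj.2.2.1, Z.take j, hj.2.1, (List.take_append_drop j Z).symm, Far6_Fre hj.2.2.2⟩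
  have h3 := Set.ncard_le_ncard h2 (freeS_fin r A Z)
  rw [Set.ncard_coe_finset, h1] at h3
  rw [hF] at h3
  convert h3 using 2

end UaA

open UaA

/-- UA from U3 -/
theorem ua_of6 (h : Ua6St) : UA := by
  obtain ⟨C, κ, r0, hC, hκ, h⟩ := h
  refine ⟨κ, C, r0, hκ, hC, fun A r H hr => (gf_mono ?_).trans (h r hr H A)⟩
  rintro Z ⟨h1, h2, h3, h4⟩
  refine ⟨h1, h2, h3, lt_of_le_of_lt ?_ h4⟩
  exact_mod_cast fc6_le r A Z

end TIP

end HexObs
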